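import Pool.Agent.BH.Words

set_option autoImplicit false

/-!
# MODULE G4: the collapse
-/

namespace Pool.Agent.BH

open FreeGroup

namespace Coll

variable {J B Hg : Type} {Q : Type} [Group Q] (π : FreeGroup (Gen J B Hg) →* Q)

/-- The value of a word. -/
def E (w : W J B Hg) : Q := π (FreeGroup.mk w)

@[simp] lemma E_nil : E π [] = 1 := by
  rw [E]; exact _root_.map_one π

@[simp] lemma E_app (w w' : W J B Hg) : E π (w ++ w') = E π w * E π w' := by
  rw [E, E, E, ← _root_.map_mul, FreeGroup.mul_mk]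

lemma E_cons (x : Gen J B Hg × Bool) (w : W J B Hg) : E π (x :: w) = E π [x] * E π w := by
  rw [← E_app]; rfl

@[simp] lemma E_inv (w : W J B Hg) : E π (inv w) = (E π w)⁻¹ := by
  rw [E, E, ← _root_.map_inv, FreeGroup.inv_mk]

@[simp] lemma E_cj (p x : W J B Hg) : E π (cj p x) = E π p * E π x * (E π p)⁻¹ := by
  rw [cj, E_app, E_app, E_inv]

@[simp] lemma E_cm (x y : W J B Hg) : E π (cm x y) = E π x * E π y * (E π x)⁻¹ * (E π y)⁻¹ := by
  rw [cm, E_app, E_app, E_app, E_inv, E_inv]

lemma E_true (x : Gen J B Hg) : E π [(x, true)] = π (of x) := rfl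

lemma E_false (x : Gen J B Hg) : E π [(x, false)] = (π (of x))⁻¹ := by
  rw [← E_true, ← E_inv]; rfl

/-- The conjugate of `e`. -/
def en (h : Q) : Q := h * π (of (.k .e)) * h⁻¹

lemma E_eW_true (h : W J B Hg) : E π (eW h true) = en π (E π h) := by
  rw [eW, E_cj, E_true, en]

lemma E_eW_false (h : W J B Hg) : E π (eW h false) = (en π (E π h))⁻¹ := by
  rw [eW, E_cj, E_false, en]; group

lemma comm_of_cm {x y : W J B Hg} (h : E π (cm x y) = 1) : Commute (E π x) (E π y) := by
  rw [E_cm] at h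
  have h1 : E π x * E π y = E π y * E π x := by
    have h2 := congrArg (· * (E π y * E π x)) h
    simpa [mul_assoc] using h2
  exact h1

/-- Equality modulo the centralizer of `z`. -/
def Eqz (z x y : Q) : Prop := Commute z (x * y⁻¹)

variable {π}

lemma Eqz.refl (z x : Q) : Eqz z x x := by simp [Eqz]

lemma Eqz.symm {z x y : Q} (h : Eqz z x y) : Eqz z y x := by
  have h2 := Commute.inv_right h
  rw [mul_inv_rev, inv_inv] at h2
  exact h2

lemma Eqz.trans {z x y w : Q} (h : Eqz z x y) (h' : Eqz z y w) : Eqz z x w := by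
  have h2 := Commute.mul_right h h'
  have h3 : x * y⁻¹ * (y * w⁻¹) = x * w⁻¹ := by group
  rw [h3] at h2
  exact h2

lemma Eqz.conj {z d p q : Q} (hd : Commute z d) (h : Eqz z (en π p) (en π q)) :
    Eqz z (en π (d * p)) (en π (d * q)) := by
  have h2 := (hd.mul_right h).mul_right hd.inv_right
  have h3 : d * (en π p * (en π q)⁻¹) * d⁻¹ = en π (d * p) * (en π (d * q))⁻¹ := by
    simp only [en]; group
  rw [h3] at h2
  exact h2

variable {S : Sys J B Hg} {pt pb : List B}

lemma comm_single {z y : Q} {w : W J B Hg}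
    (h : ∀ p ∈ w, Commute z (E π [p])) (hy : y = E π w) : Commute z y := by
  subst hy
  induction w with
  | nil => simp
  | cons p w ih =>
    rw [E_cons]
    exact (h p (by simp)).mul_right (ih fun q hq => h q (by simp [hq]))

section
variable (hA : ∀ w, S.RelA w → E π w = 1)
include hA

lemma z_q (a : A5) (p : XG × Bool) :
    Commute (π (of (.z a))) (E π [(Gen.k (.y (.q p.1)), p.2)]) := by
  have h := comm_of_cm π (hA _ (.zq a p.1))
  obtain ⟨x, _ | _⟩ := p
  · have h2 := h.inv_right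
    rw [E_true, E_true] at h2
    rw [E_false]; exact h2
  · exact h

lemma z_b (a : A5) (β : B) :
    Commute (π (of (.z a))) (E π [(Gen.k (.y (.b β)), true)]) :=
  comm_of_cm π (hA _ (.zb a β))

lemma z_qW (a : A5) (l : List (XG × Bool)) : Commute (π (of (.z a))) (E π (qW l)) := by
  refine comm_single (w := qW l) (fun p hp => ?_) rfl
  obtain ⟨q, _, rfl⟩ := List.mem_map.1 hp
  exact z_q hA a q

lemma z_bW (a : A5) (l : List B) : Commute (π (of (.z a))) (E π (bW l)) := by
  refine comm_single (w := bW l) (fun p hp => ?_) rfl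
  obtain ⟨q, _, rfl⟩ := List.mem_map.1 hp
  exact z_b hA a q

lemma b_qW (β : B) (l : List (XG × Bool)) :
    Commute (E π [(Gen.k (.y (.b β)), true)]) (E π (qW l)) := by
  refine comm_single (w := qW l) (fun p hp => ?_) rfl
  obtain ⟨⟨x, _ | _⟩, _, rfl⟩ := List.mem_map.1 hp
  · have h2 := (comm_of_cm π (hA _ (.qb x β))).symm.inv_right
    rw [← E_inv] at h2
    exact h2
  · exact (comm_of_cm π (hA _ (.qb x β))).symm

lemma bW_qW (l : List B) (l' : List (XG × Bool)) : Commute (E π (bW l)) (E π (qW l')) := by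
  refine (comm_single (w := bW l) (fun p hp => ?_) rfl).symm
  obtain ⟨q, _, rfl⟩ := List.mem_map.1 hp
  exact (b_qW hA q l').symm

lemma aW_eq (t : List J) : E π (t.flatMap S.aW) = E π (qW (S.labs t)) *
    E π (bW (t.flatMap S.top)) := by
  induction t with
  | nil => simp [Sys.labs, qW, bW]
  | cons j t ih =>
    have h1 : S.labs (j :: t) = (S.lab j).toList ++ S.labs t := by
      simp only [Sys.labs, List.filterMap_cons]
      cases S.lab j <;> simp
    have h2 : (qW (S.labs (j :: t)) : W J B Hg) = qW (S.lab j).toList ++ qW (S.labs t) := by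
      rw [h1]; simp [qW]
    have h3 : (bW ((j :: t).flatMap S.top) : W J B Hg) = bW (S.top j) ++ bW (t.flatMap S.top) := by
      simp [bW]
    rw [List.flatMap_cons, h2, h3]
    simp only [E_app, ih, Sys.aW, lW]
    have h4 := (bW_qW hA (S.top j) (S.labs t)).eq
    rw [mul_assoc, ← mul_assoc (E π (bW (S.top j))), h4]
    simp only [mul_assoc]

omit hA in
lemma cW_eq (t : List J) : (t.flatMap S.cW : W J B Hg) = bW (t.flatMap S.bot) := by
  induction t with
  | nil => rfl
  | cons j t ih => rw [List.flatMap_cons, ih, List.flatMap_cons]; simp [Sys.cW, bW]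

end

section
variable (hA : ∀ w, S.RelA w → E π w = 1) (hU : ∀ u w, S.RelU pt pb u w → E π w = 1)
include hA hU

omit hA in
lemma step1 (a : A5) (j : J) (u : List (Option J)) :
    Eqz (π (of (.z a))) (en π (E π (sW (some j :: u)))) (en π (E π (S.aW j) * E π (sW u))) := by
  have h := comm_of_cm π (hU u _ (.r1 j true a))
  rw [E_app] at h
  simp only [Bool.not_true] at h
  rw [E_eW_true, E_eW_false, E_app] at h
  exact h

omit hA in
lemma step2 (a : A5) (j : J) (u : List (Option J)) :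
    Eqz (π (of (.z a))) (en π (E π rW * E π (sW (some j :: u))))
      (en π (E π (S.cW j) * (E π rW * E π (sW u)))) := by
  have h := comm_of_cm π (hU u _ (.r2 j true a))
  rw [E_app] at h
  simp only [Bool.not_true] at h
  rw [E_eW_true, E_eW_false, E_app, E_app, E_app, mul_assoc] at h
  exact h

omit hA in
lemma step3 (a : A5) (u : List (Option J)) :
    Eqz (π (of (.z a))) (en π (E π rW * E π (sW (none :: u))))
      (en π (E π (sW (none :: u)))) := by
  have h := comm_of_cm π (hU u _ (.r3 true a))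
  rw [E_app] at h
  simp only [Bool.not_true] at h
  rw [E_eW_true, E_eW_false, E_app] at h
  exact h

omit hU in
lemma z_aW (a : A5) (j : J) : Commute (π (of (.z a))) (E π (S.aW j)) := by
  rw [Sys.aW, E_app]
  exact (z_qW hA a _).mul_right (z_bW hA a _)

omit hU in
lemma z_cW (a : A5) (j : J) : Commute (π (of (.z a))) (E π (S.cW j)) := z_bW hA a _

lemma read1 (a : A5) (t : List J) (v : List (Option J)) (d : Q)
    (hd : Commute (π (of (.z a))) d) :
    Eqz (π (of (.z a))) (en π (d * E π (sW (t.map some ++ v))))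
      (en π (d * E π (t.flatMap S.aW) * E π (sW v))) := by
  induction t generalizing d with
  | nil => simpa using Eqz.refl _ _
  | cons j t ih =>
    have h1 := Eqz.conj hd (step1 hU a j (t.map some ++ v))
    have h2 := ih (d * E π (S.aW j)) (hd.mul_right (z_aW hA a j))
    rw [← mul_assoc] at h1
    have h3 := h1.trans h2
    rw [List.flatMap_cons, E_app, ← mul_assoc]
    exact h3

lemma read2 (a : A5) (t : List J) (v : List (Option J)) (d : Q)
    (hd : Commute (π (of (.z a))) d) :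
    Eqz (π (of (.z a))) (en π (d * (E π rW * E π (sW (t.map some ++ v)))))
      (en π (d * E π (t.flatMap S.cW) * (E π rW * E π (sW v)))) := by
  induction t generalizing d with
  | nil => simpa using Eqz.refl _ _
  | cons j t ih =>
    have h1 := Eqz.conj hd (step2 hU a j (t.map some ++ v))
    have h2 := ih (d * E π (S.cW j)) (hd.mul_right (z_cW hA a j))
    rw [← mul_assoc d (E π (S.cW j))] at h1
    have h3 := h1.trans h2
    rw [List.flatMap_cons, E_app, ← mul_assoc d (E π (S.cW j))]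
    exact h3

/-- The element `m (u)` of an accepted word commutes with `z`. -/
lemma mW_comm (a : A5) (t : List J) (hm : S.Match pt pb t) (hl : E π (qW (S.labs t)) = 1) :
    Commute (π (of (.z a))) (E π (mW pt pb (t.map some ++ [none]))) := by
  have hbm : (bW (pt ++ t.flatMap S.top) : W J B Hg) = bW (pb ++ t.flatMap S.bot) :=
    congrArg bW hm
  have hba : ∀ l l' : List B, (bW (l ++ l') : W J B Hg) = bW l ++ bW l' := fun l l' => by
    simp [bW]
  have h1 := read1 hA hU a t [none] (E π (bW pt)) (z_bW hA a _)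
  have h2 := read2 hA hU a t [none] (E π (bW pb)) (z_bW hA a _)
  have h3 := Eqz.conj (z_bW hA a (pb ++ t.flatMap S.bot)) (step3 hU a [])
  have e1 : E π (bW pt) * E π (t.flatMap S.aW) = E π (bW (pb ++ t.flatMap S.bot)) := by
    rw [aW_eq hA, hl, one_mul, ← E_app, ← hba, hbm]
  have e2 : E π (bW pb) * E π (t.flatMap S.cW) = E π (bW (pb ++ t.flatMap S.bot)) := by
    rw [cW_eq, ← E_app, ← hba]
  rw [e1] at h1
  rw [e2] at h2
  have h4 := (h2.trans h3).trans h1.symm
  rw [mW, E_app, E_eW_true, E_eW_false, E_app, E_app, E_app, mul_assoc]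
  exact h4

end

section
variable (hA : ∀ w, S.RelA w → E π w = 1)
include hA

/-- The element `w v`. -/
def gg (π : FreeGroup (Gen J B Hg) →* Q) : Q := π (of (.k .w)) * π (of (.k .v))

omit hA in
lemma E_gX (k : ℕ) : E π (xW (gX k)) = gg π ^ k := by
  induction k with
  | zero => simp [gX, xW]
  | succ k ih =>
    have h1 : (xW (gX (k + 1)) : W J B Hg) =
        [(.k .w, true), (.k .v, true)] ++ xW (gX k) := by
      simp [gX, xW, List.replicate_succ, xg]
    rw [h1, E_app, ih, E_cons, E_true, E_true, pow_succ']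
    rfl

omit hA in
lemma E_permW (x : Fin 5 → W J B Hg) (τ : A5) (i : Fin 5) (h : E π (permW x τ i) = 1) :
    E π (x (τ.1 i)) = π (of (.t τ)) * E π (x i) * (π (of (.t τ)))⁻¹ := by
  rw [permW, E_app, E_cj, E_inv, E_true, mul_inv_eq_one] at h
  exact h.symm

omit hA in
lemma tau01_zero : τ01.1 0 = 1 := by decide

omit hA in
lemma E_thD (i : Fin 5) (a : A5) :
    E π (thD i a : W J B Hg) = gg π ^ (i.1 + 1) * π (of (.z a)) * (gg π ^ (i.1 + 1))⁻¹ := by
  rw [thD, E_cj, E_gX, E_true]

lemma comm_g5 (a : A5) (u : List (Option J)) (hU : ∀ w, S.RelU pt pb u w → E π w = 1)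
    (hc : Commute (π (of (.z a))) (E π (mW pt pb u))) :
    Commute (π (of (.z a))) (gg π ^ 5) := by
  have h1 := E_permW _ _ _ (hU _ (.m τ01 0 a))
  have h2 := E_permW _ _ _ (hA _ (.dum τ01 0 a))
  rw [tau01_zero] at h1 h2
  have hx : ∀ k : ℕ, E π (cj (xW (gX k) ++ mW pt pb u) [(Gen.z a, true)]) =
      gg π ^ k * π (of (.z a)) * (gg π ^ k)⁻¹ := by
    intro k
    rw [E_cj, E_app, E_gX, E_true]
    have h3 : E π (mW pt pb u) * π (of (.z a)) * (E π (mW pt pb u))⁻¹ = π (of (.z a)) := by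
      rw [← hc.eq]; group
    calc gg π ^ k * E π (mW pt pb u) * π (of (.z a)) * (gg π ^ k * E π (mW pt pb u))⁻¹ =
        gg π ^ k * (E π (mW pt pb u) * π (of (.z a)) * (E π (mW pt pb u))⁻¹) *
          (gg π ^ k)⁻¹ := by group
      _ = _ := by rw [h3]
  have e0 : E π (thM pt pb u 0 a) = gg π ^ 6 * π (of (.z a)) * (gg π ^ 6)⁻¹ := by
    rw [thM, if_pos rfl, hx]
  have e1 : E π (thM pt pb u 1 a) = gg π ^ 2 * π (of (.z a)) * (gg π ^ 2)⁻¹ := by
    rw [thM, if_neg (by decide), hx]; rfl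
  have d0 : E π (thD 0 a : W J B Hg) = gg π ^ 1 * π (of (.z a)) * (gg π ^ 1)⁻¹ := by
    rw [thD, E_cj, E_gX, E_true]; rfl
  have d1 : E π (thD 1 a : W J B Hg) = gg π ^ 2 * π (of (.z a)) * (gg π ^ 2)⁻¹ := by
    rw [thD, E_cj, E_gX, E_true]; rfl
  rw [e0, e1] at h1
  rw [d0, d1] at h2
  have h3 : gg π ^ 6 * π (of (.z a)) * (gg π ^ 6)⁻¹ = gg π ^ 1 * π (of (.z a)) * (gg π ^ 1)⁻¹ := by
    have h4 := h1.symm.trans h2
    have h5 := congrArg (fun x => (π (of (.t τ01)))⁻¹ * x * π (of (.t τ01))) h4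
    simpa only [mul_assoc, inv_mul_cancel_left, inv_mul_cancel, mul_one] using h5
  have h6 : gg π ^ 5 * π (of (.z a)) * (gg π ^ 5)⁻¹ = π (of (.z a)) := by
    have h7 := congrArg (fun x => (gg π ^ 1)⁻¹ * x * gg π ^ 1) h3
    have h8 : (gg π ^ 1)⁻¹ * (gg π ^ 1 * π (of (.z a)) * (gg π ^ 1)⁻¹) * gg π ^ 1 =
      π (of (.z a)) := by group
    have h9 : (gg π ^ 1)⁻¹ * (gg π ^ 6 * π (of (.z a)) * (gg π ^ 6)⁻¹) * gg π ^ 1 =
      gg π ^ 5 * π (of (.z a)) * (gg π ^ 5)⁻¹ := by group
    change (gg π ^ 1)⁻¹ * (gg π ^ 6 * π (of (.z a)) * (gg π ^ 6)⁻¹) * gg π ^ 1 = _ at h7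
    rw [h9, h8] at h7
    exact h7
  exact (mul_inv_eq_iff_eq_mul.1 h6).symm

omit hA in
lemma E_flatMap_one {α : Type} (l : List α) (f : α → W J B Hg) (h : ∀ x ∈ l, E π (f x) = 1) :
    E π (l.flatMap f) = 1 := by
  induction l with
  | nil => simp
  | cons x l ih =>
    rw [List.flatMap_cons, E_app, h x (by simp), ih fun y hy => h y (by simp [hy]), one_mul]

omit hA in
lemma xW_append (l l' : List (XG × Bool)) : (xW (l ++ l') : W J B Hg) = xW l ++ xW l' :=
  List.map_append

omit hA in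
lemma xW_flatMap {α : Type} (l : List α) (f : α → List (XG × Bool)) :
    (xW (l.flatMap f) : W J B Hg) = l.flatMap fun x => xW (f x) := List.map_flatMap

omit hA in
lemma xW_inv (l : List (XG × Bool)) : (xW (inv l) : W J B Hg) = inv (xW l) := by
  simp only [xW, inv, invRev, List.map_reverse, List.map_map]
  rfl

omit hA in
lemma xW_cj (l l' : List (XG × Bool)) : (xW (cj l l') : W J B Hg) = cj (xW l) (xW l') := by
  rw [cj, cj, xW_append, xW_append, xW_inv]

omit hA in
lemma E_bX (hc : Commute (π (of (.z ζ0))) (gg π ^ 5)) (i : ℕ) :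
    E π (xW (bX i) : W J B Hg) = 1 := by
  have h1 : (xW (bX i) : W J B Hg) = (List.range rr).flatMap fun j =>
      cj (xW (gX (10 * (i * rr + j + 1)))) [(.z ζ0, true)] ++
      cj (xW (gX (10 * (i * rr + j + 1) + 5))) [(.z ζ0, false)] := by
    rw [bX, xW_flatMap]
    congr 1
    funext j
    rw [xW_append, xW_cj, xW_cj]
    rfl
  rw [h1]
  refine E_flatMap_one _ _ fun j _ => ?_
  rw [E_app, E_cj, E_cj, E_gX, E_gX, E_true, E_false]
  have h2 : ∀ k, Commute (π (of (.z ζ0))) (gg π ^ (5 * k)) := fun k => by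
    rw [pow_mul]; exact hc.pow_right k
  have h3 : ∀ k x, Commute x (gg π ^ (5 * k)) →
      gg π ^ (5 * k) * x * (gg π ^ (5 * k))⁻¹ = x := fun k x hx => by
    rw [← hx.eq]; group
  have e1 : 10 * (i * rr + j + 1) = 5 * (2 * (i * rr + j + 1)) := by ring
  have e2 : 10 * (i * rr + j + 1) + 5 = 5 * (2 * (i * rr + j + 1) + 1) := by ring
  rw [e2, e1, h3 _ _ (h2 _), h3 _ _ (h2 _).inv_left, mul_inv_cancel]

lemma y_one (hc : Commute (π (of (.z ζ0))) (gg π ^ 5)) (n : YG J B Hg) :
    π (of (.k (.y n))) = 1 := by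
  have h1 := E_permW _ _ _ (hA _ (.cst τ01 0 n))
  rw [tau01_zero] at h1
  have e0 : E π (S.thC n 0) = π (of (.k (.y n))) := by
    rw [Sys.thC, if_pos rfl, E_app, E_bX hc, one_mul, E_true]
  have e1 : E π (S.thC n 1) = 1 := by
    rw [Sys.thC, if_neg (by decide), E_cj, E_bX hc]; group
  rw [e0, e1] at h1
  have h2 := congrArg (fun x => (π (of (.t τ01)))⁻¹ * x * π (of (.t τ01))) h1
  simpa [mul_assoc] using h2.symm

lemma k_one (hc : Commute (π (of (.z ζ0))) (gg π ^ 5)) (κ : KG J B Hg) :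
    π (of (.k κ)) = 1 := by
  have hcc := y_one hA hc .c
  have key : ∀ x : Gen J B Hg, E π (cj [(.k (.y .c), true)] [(x, true)] ++ [(x, true)]) = 1 →
      E π [(x, true), (x, true), (x, true)] = 1 → π (of x) = 1 := by
    intro x h1 h2
    rw [E_app, E_cj, E_true, E_true, hcc] at h1
    have h3 : E π [(x, true), (x, true), (x, true)] =
        E π ([(x, true)] ++ [(x, true)] ++ [(x, true)]) := rfl
    rw [h3, E_app, E_app, E_true] at h2
    simp only [one_mul, inv_one, mul_one] at h1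
    rw [h1, one_mul] at h2
    exact h2
  cases κ with
  | e => exact key _ (hA _ .ce) (hA _ .e3)
  | w => exact key _ (hA _ .cw) (hA _ .w3)
  | v => exact key _ (hA _ .cv) (hA _ .v3)
  | y n => exact y_one hA hc n

lemma zt_comm (hc : Commute (π (of (.z ζ0))) (gg π ^ 5)) (a τ : A5) :
    Commute (π (of (.z a))) (π (of (.t τ))) := by
  have h1 := E_permW _ _ _ (hA _ (.dum τ 0 a))
  have hg : gg π = 1 := by rw [gg, k_one hA hc, k_one hA hc, one_mul]
  rw [E_thD, E_thD, hg] at h1
  simp only [one_pow, one_mul, inv_one, mul_one] at h1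
  exact mul_inv_eq_iff_eq_mul.1 h1.symm |>.symm

end

end Coll

open Coll

section
variable {J B Hg : Type} (S : Sys J B Hg) (pt pb : List B)

lemma phiX_mk (l : List (XG × Bool)) :
    phiX (FreeGroup.mk l) = (FreeGroup.mk (qW l) : FreeGroup (Gen J B Hg)) := by
  induction l with
  | nil => rfl
  | cons p l ih =>
    have h1 : FreeGroup.mk (p :: l) = FreeGroup.mk [p] * FreeGroup.mk l := by
      rw [FreeGroup.mul_mk]; rfl
    have h2 : (FreeGroup.mk (qW (p :: l)) : FreeGroup (Gen J B Hg)) =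
        FreeGroup.mk (qW [p]) * FreeGroup.mk (qW l) := by
      rw [FreeGroup.mul_mk]; rfl
    rw [h1, _root_.map_mul, ih, h2]
    congr 1
    obtain ⟨x, _ | _⟩ := p
    · change phiX (of x)⁻¹ = (of _)⁻¹
      rw [_root_.map_inv]
      simp [phiX]
    · simp [phiX, qW]
      rfl

lemma inclX_mk (l : List (XG × Bool)) :
    inclX (FreeGroup.mk l) = (FreeGroup.mk (xW l) : FreeGroup (Gen J B Hg)) := by
  induction l with
  | nil => rfl
  | cons p l ih =>
    have h1 : FreeGroup.mk (p :: l) = FreeGroup.mk [p] * FreeGroup.mk l := by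
      rw [FreeGroup.mul_mk]; rfl
    have h2 : (FreeGroup.mk (xW (p :: l)) : FreeGroup (Gen J B Hg)) =
        FreeGroup.mk (xW [p]) * FreeGroup.mk (xW l) := by
      rw [FreeGroup.mul_mk]; rfl
    rw [h1, _root_.map_mul, ih, h2]
    congr 1
    obtain ⟨x, _ | _⟩ := p
    · change inclX (of x)⁻¹ = (of (xg x))⁻¹
      rw [_root_.map_inv]
      simp [inclX]
    · simp [inclX, xW]
      rfl

lemma sub_inclX (x : FreeGroup XG) : S.sub (inclX x) = x := by
  have h : (S.sub).comp inclX = MonoidHom.id _ := by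
    ext x
    cases x <;> simp [inclX, Sys.sub, xg]
  exact DFunLike.congr_fun h x

lemma ker_RelA (HN : Set (FreeGroup Hg)) (M : Set (FreeGroup XG)) (w : W J B Hg)
    (hw : S.RelA w) : FreeGroup.mk w ∈ S.ker pt pb HN M :=
  Subgroup.subset_normalClosure (.a w hw)

lemma ker_RelU (HN : Set (FreeGroup Hg)) (M : Set (FreeGroup XG)) (u : List (Option J))
    (w : W J B Hg) (hw : S.RelU pt pb u w) : FreeGroup.mk w ∈ S.ker pt pb HN M :=
  Subgroup.subset_normalClosure (.u u w hw)

/-- Every letter is equivalent to a word in the generators. -/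
lemma eq_sub (HN : Set (FreeGroup Hg)) (M : Set (FreeGroup XG)) (x : FreeGroup (Gen J B Hg)) :
    (QuotientGroup.mk' (S.ker pt pb HN M)) (inclX (S.sub x)) =
      (QuotientGroup.mk' (S.ker pt pb HN M)) x := by
  set π := QuotientGroup.mk' (S.ker pt pb HN M)
  have hA : ∀ w, S.RelA w → E π w = 1 := fun w hw =>
    (QuotientGroup.eq_one_iff _).2 (ker_RelA S pt pb HN M w hw)
  have h : (π.comp inclX).comp S.sub = π := by
    ext x
    rcases x with a | a | κ
    · simp [Sys.sub, inclX, xg]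
    · simp [Sys.sub, inclX, xg]
    · rcases κ with _ | _ | _ | n
      · simp [Sys.sub, inclX, xg]
      · simp [Sys.sub, inclX, xg]
      · simp [Sys.sub, inclX, xg]
      · have e0 : ((π.comp inclX).comp S.sub) (of (.k (.y n))) = E π (xW (yX (S.idx n))) := by
          rw [MonoidHom.comp_apply, MonoidHom.comp_apply, Sys.sub, FreeGroup.lift_apply_of,
            inclX_mk]
          rfl
        rw [e0]
        have h1 := E_permW _ _ _ (hA _ (.cst τ01 0 n))
        rw [tau01_zero, Sys.thC, Sys.thC, if_neg (by decide), if_pos rfl, E_cj, E_app,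
          E_true] at h1
        have h2 : (xW (yX (S.idx n)) : W J B Hg) = inv (xW (bX (S.idx n))) ++
            [(.t τ01, false)] ++ xW (gX 1) ++ xW (bX (S.idx n)) ++ inv (xW (gX 1)) ++
            [(.t τ01, true)] := by
          rw [yX]
          simp only [xW_append, xW_inv]
          rfl
        rw [h2]
        simp only [E_app, E_inv, E_true, E_false]
        have h3 : E π (xW (gX 1)) * E π (xW (bX (S.idx n))) * (E π (xW (gX 1)))⁻¹ =
            π (of (.t τ01)) * (E π (xW (bX (S.idx n))) * π (of (.k (.y n)))) *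
              (π (of (.t τ01)))⁻¹ := h1
        calc (E π (xW (bX (S.idx n))))⁻¹ * (π (of (.t τ01)))⁻¹ * E π (xW (gX 1)) *
              E π (xW (bX (S.idx n))) * (E π (xW (gX 1)))⁻¹ * π (of (.t τ01)) =
            (E π (xW (bX (S.idx n))))⁻¹ * (π (of (.t τ01)))⁻¹ * (E π (xW (gX 1)) *
              E π (xW (bX (S.idx n))) * (E π (xW (gX 1)))⁻¹) * π (of (.t τ01)) := by group
          _ = _ := by rw [h3]; group
  exact DFunLike.congr_fun h x

end

section Facts

variable {J B Hg H : Type} [Finite J] [Finite B] [Finite Hg] [Group H] {S : Sys J B Hg}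
  {hH : FreeGroup Hg →* H} {pt pb : List B} {N : Subgroup (FreeGroup XG)} [N.Normal]

/-- G4: the collapse. -/
theorem Fix.collapse (hF : Fix S hH pt pb N) (R : Subgroup (FreeGroup (Gen J B Hg))) [R.Normal]
    (hR : S.ker pt pb hH.ker N ≤ R) (hne : R ≠ S.ker pt pb hH.ker N) (hphi : R ≤ R.comap S.phi) :
    (∀ κ : KG J B Hg, FreeGroup.of (Gen.k κ) ∈ R) ∧
    ∀ a a' : A5, FreeGroup.of (Gen.z a) * FreeGroup.of (Gen.t a') * (FreeGroup.of (Gen.z a))⁻¹ *
      (FreeGroup.of (Gen.t a'))⁻¹ ∈ R := by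
  obtain ⟨p, hpR, hpk⟩ : ∃ p ∈ R, p ∉ S.ker pt pb hH.ker N := by
    by_contra hcon
    push Not at hcon
    exact hne (le_antisymm hcon hR)
  set π := QuotientGroup.mk' R
  have hA : ∀ w, S.RelA w → E π w = 1 := fun w hw =>
    (QuotientGroup.eq_one_iff _).2 (hR (ker_RelA S pt pb _ _ w hw))
  have hU : ∀ u w, S.RelU pt pb u w → E π w = 1 := fun u w hw =>
    (QuotientGroup.eq_one_iff _).2 (hR (ker_RelU S pt pb _ _ u w hw))
  have hx : S.sub p ∉ N := by
    intro h
    have h2 := (hF.fix _).2 h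
    have h3 := eq_sub S pt pb hH.ker N p
    have h4 : (QuotientGroup.mk' (S.ker pt pb hH.ker N)) (inclX (S.sub p)) = 1 :=
      (QuotientGroup.eq_one_iff _).2 h2
    rw [h4] at h3
    exact hpk ((QuotientGroup.eq_one_iff _).1 h3.symm)
  obtain ⟨t, hm, ht⟩ := hF.acc _ hx
  have hl : E π (qW (S.labs t)) = 1 := by
    have h2 : S.phi p ∈ R := hphi hpR
    rw [Sys.phi, MonoidHom.comp_apply, ← ht, phiX_mk] at h2
    exact (QuotientGroup.eq_one_iff _).2 h2
  have hc := comm_g5 hA ζ0 _ (hU _) (mW_comm hA hU ζ0 t hm hl)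
  refine ⟨fun κ => (QuotientGroup.eq_one_iff _).1 (k_one hA hc κ), fun a a' => ?_⟩
  have h1 := zt_comm hA hc a a'
  refine (QuotientGroup.eq_one_iff _).1 ?_
  change π (of (Gen.z a) * of (Gen.t a') * (of (Gen.z a))⁻¹ * (of (Gen.t a'))⁻¹) = 1
  rw [_root_.map_mul, _root_.map_mul, _root_.map_mul, _root_.map_inv, _root_.map_inv, h1.eq]
  group

end Facts

end Pool.Agent.BH
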