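import Mathlib

set_option autoImplicit false

/-!
# Letters, words and relators
-/

namespace Pool.Agent.BH

open FreeGroup

/-- The alternating group of degree five. -/
abbrev A5 := alternatingGroup (Fin 5)

/-- The generators of the group `P`. -/
inductive XG where
  | z (a : A5)
  | t (a : A5)
  | e
  | w
  | v
  deriving DecidableEq

/-- The auxiliary letters, each of which is a word in the generators. -/
inductive YG (J B Hg : Type) where
  | q (x : XG)
  | b (β : B)
  | s (σ : Option J)
  | r
  | h (η : Hg)
  | c
  deriving DecidableEq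

/-- The letters of the base group `K`. -/
inductive KG (J B Hg : Type) where
  | e
  | w
  | v
  | y (n : YG J B Hg)
  deriving DecidableEq

/-- All letters. -/
inductive Gen (J B Hg : Type) where
  | z (a : A5)
  | t (a : A5)
  | k (κ : KG J B Hg)
  deriving DecidableEq

instance : Finite XG := by
  let f : XG → A5 ⊕ A5 ⊕ Fin 3 := fun x => match x with
    | .z a => Sum.inl a
    | .t a => Sum.inr (Sum.inl a)
    | .e => Sum.inr (Sum.inr 0)
    | .w => Sum.inr (Sum.inr 1)
    | .v => Sum.inr (Sum.inr 2)
  refine Finite.of_injective f ?_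
  intro x y h
  cases x <;> cases y <;> simp_all [f]

instance (J B Hg : Type) [Finite J] [Finite B] [Finite Hg] : Finite (YG J B Hg) := by
  let f : YG J B Hg → XG ⊕ B ⊕ Option J ⊕ Hg ⊕ Fin 2 := fun x => match x with
    | .q a => Sum.inl a
    | .b a => Sum.inr (Sum.inl a)
    | .s a => Sum.inr (Sum.inr (Sum.inl a))
    | .h a => Sum.inr (Sum.inr (Sum.inr (Sum.inl a)))
    | .r => Sum.inr (Sum.inr (Sum.inr (Sum.inr 0)))
    | .c => Sum.inr (Sum.inr (Sum.inr (Sum.inr 1)))
  refine Finite.of_injective f ?_
  intro x y h
  cases x <;> cases y <;> simp_all [f]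

instance (J B Hg : Type) [Finite J] [Finite B] [Finite Hg] : Finite (KG J B Hg) := by
  let f : KG J B Hg → YG J B Hg ⊕ Fin 3 := fun x => match x with
    | .y a => Sum.inl a
    | .e => Sum.inr 0
    | .w => Sum.inr 1
    | .v => Sum.inr 2
  refine Finite.of_injective f ?_
  intro x y h
  cases x <;> cases y <;> simp_all [f]

instance (J B Hg : Type) [Finite J] [Finite B] [Finite Hg] : Finite (Gen J B Hg) := by
  let f : Gen J B Hg → A5 ⊕ A5 ⊕ KG J B Hg := fun x => match x with
    | .z a => Sum.inl a
    | .t a => Sum.inr (Sum.inl a)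
    | .k a => Sum.inr (Sum.inr a)
  refine Finite.of_injective f ?_
  intro x y h
  cases x <;> cases y <;> simp_all [f]

/-- A domino system with labels, and a numbering of the auxiliary letters. -/
structure Sys (J B Hg : Type) where
  top : J → List B
  bot : J → List B
  lab : J → Option (XG × Bool)
  idx : YG J B Hg → ℕ
  idx_inj : Function.Injective idx

/-- The inverse word. -/
abbrev inv {α : Type} (w : List (α × Bool)) : List (α × Bool) := invRev w

/-- The number of repetitions in the constants. -/
def rr : ℕ := 64

/-- A nontrivial element of `A5`. -/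
noncomputable def ζ0 : A5 := Classical.choose (exists_ne (1 : A5))

lemma ζ0_ne : ζ0 ≠ 1 := Classical.choose_spec (exists_ne (1 : A5))

/-- The conjugate of a word. -/
def cj {α : Type} (p x : List (α × Bool)) : List (α × Bool) := p ++ x ++ inv p

/-- The commutator of two words. -/
def cm {α : Type} (x y : List (α × Bool)) : List (α × Bool) := x ++ y ++ inv x ++ inv y

section XWords

/-- The word `(w v) ^ k` in the generators. -/
def gX (k : ℕ) : List (XG × Bool) := (List.replicate k [(XG.w, true), (XG.v, true)]).flatten

/-- The constant word with the given number, in the generators. -/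
noncomputable def bX (i : ℕ) : List (XG × Bool) :=
  (List.range rr).flatMap fun j =>
    cj (gX (10 * (i * rr + j + 1))) [(XG.z ζ0, true)] ++
      cj (gX (10 * (i * rr + j + 1) + 5)) [(XG.z ζ0, false)]

/-- An even permutation that maps `0` to `1`. -/
def τ01 : A5 := ⟨Equiv.swap 0 1 * Equiv.swap 2 3, by
  rw [Equiv.Perm.mem_alternatingGroup]
  decide⟩

/-- The auxiliary letter with the given number as a word in the generators. -/
noncomputable def yX (i : ℕ) : List (XG × Bool) :=
  inv (bX i) ++ [(XG.t τ01, false)] ++ gX 1 ++ bX i ++ inv (gX 1) ++ [(XG.t τ01, true)]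

end XWords

section Words

variable {J B Hg : Type}

/-- Words in all letters. -/
abbrev W (J B Hg : Type) := List (Gen J B Hg × Bool)

/-- The letter of a generator. -/
def xg : XG → Gen J B Hg
  | .z a => .z a
  | .t a => .t a
  | .e => .k .e
  | .w => .k .w
  | .v => .k .v

/-- A word in the generators as a word in all letters. -/
def xW (l : List (XG × Bool)) : W J B Hg := l.map fun p => (xg p.1, p.2)

/-- A word in the generators as a word in the letters `q`. -/
def qW (l : List (XG × Bool)) : W J B Hg := l.map fun p => (.k (.y (.q p.1)), p.2)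

/-- A word in the letters `h`. -/
def hW (l : List (Hg × Bool)) : W J B Hg := l.map fun p => (.k (.y (.h p.1)), p.2)

/-- A positive word in the letters `b`. -/
def bW (l : List B) : W J B Hg := l.map fun β => (.k (.y (.b β)), true)

/-- A positive word in the letters `s`. -/
def sW (l : List (Option J)) : W J B Hg := l.map fun σ => (.k (.y (.s σ)), true)

/-- The word with the single letter `r`. -/
def rW : W J B Hg := [(.k (.y .r), true)]

/-- The word of a label. -/
def lW (x : Option (XG × Bool)) : W J B Hg := qW x.toList

variable (S : Sys J B Hg)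

/-- The word multiplied to the register by the first reader. -/
def Sys.aW (j : J) : W J B Hg := lW (S.lab j) ++ bW (S.top j)

/-- The word multiplied to the register by the second reader. -/
def Sys.cW (j : J) : W J B Hg := bW (S.bot j)

/-- The conjugate of `e` by a word. -/
def eW (h : W J B Hg) (ε : Bool) : W J B Hg := cj h [(.k .e, ε)]

/-- The element `m (u)`. -/
def mW (pt pb : List B) (u : List (Option J)) : W J B Hg :=
  eW (bW pb ++ rW ++ sW u) true ++ eW (bW pt ++ sW u) false

/-- The images of the dummy generator under the five embeddings. -/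
def thD (i : Fin 5) (a : A5) : W J B Hg := cj (xW (gX (i + 1))) [(.z a, true)]

/-- The images of the main generators under the five embeddings. -/
def thM (pt pb : List B) (u : List (Option J)) (i : Fin 5) (a : A5) : W J B Hg :=
  cj (xW (gX (if i = 0 then 6 else i + 1)) ++ mW pt pb u) [(.z a, true)]

/-- The images of the constants under the five embeddings. -/
noncomputable def Sys.thC (n : YG J B Hg) (i : Fin 5) : W J B Hg :=
  if i = 0 then xW (bX (S.idx n)) ++ [(.k (.y n), true)] else cj (xW (gX i)) (xW (bX (S.idx n)))

/-- The relator saying that `τ` maps the word `x i` to the word `x (τ i)`. -/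
def permW (x : Fin 5 → W J B Hg) (τ : A5) (i : Fin 5) : W J B Hg :=
  cj [(.t τ, true)] (x i) ++ inv (x (τ.1 i))

/-- Relators without context. -/
inductive Sys.RelA : W J B Hg → Prop
  | zz (a b : A5) : RelA [(.z a, true), (.z b, true), (.z (a * b), false)]
  | tt (a b : A5) : RelA [(.t a, true), (.t b, true), (.t (a * b), false)]
  | e3 : RelA [(.k .e, true), (.k .e, true), (.k .e, true)]
  | w3 : RelA [(.k .w, true), (.k .w, true), (.k .w, true)]
  | v3 : RelA [(.k .v, true), (.k .v, true), (.k .v, true)]
  | c2 : RelA [(.k (.y .c), true), (.k (.y .c), true)]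
  | qb (x : XG) (β : B) : RelA (cm [(.k (.y (.q x)), true)] [(.k (.y (.b β)), true)])
  | cy (n : YG J B Hg) : RelA (cm [(.k (.y .c), true)] [(.k (.y n), true)])
  | ce : RelA (cj [(.k (.y .c), true)] [(.k .e, true)] ++ [(.k .e, true)])
  | cw : RelA (cj [(.k (.y .c), true)] [(.k .w, true)] ++ [(.k .w, true)])
  | cv : RelA (cj [(.k (.y .c), true)] [(.k .v, true)] ++ [(.k .v, true)])
  | zq (a : A5) (x : XG) : RelA (cm [(.z a, true)] [(.k (.y (.q x)), true)])
  | zb (a : A5) (β : B) : RelA (cm [(.z a, true)] [(.k (.y (.b β)), true)])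
  | dum (τ : A5) (i : Fin 5) (a : A5) : RelA (permW (fun i => thD i a) τ i)
  | cst (τ : A5) (i : Fin 5) (n : YG J B Hg) : RelA (permW (fun i => S.thC n i) τ i)

/-- Relators of the readers and of the main family, with context `u`. -/
inductive Sys.RelU (pt pb : List B) (u : List (Option J)) : W J B Hg → Prop
  | r1 (j : J) (ε : Bool) (a : A5) : RelU pt pb u (cm [(.z a, true)]
      (eW (sW (some j :: u)) ε ++ eW (S.aW j ++ sW u) !ε))
  | r2 (j : J) (ε : Bool) (a : A5) : RelU pt pb u (cm [(.z a, true)]
      (eW (rW ++ sW (some j :: u)) ε ++ eW (S.cW j ++ rW ++ sW u) !ε))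
  | r3 (ε : Bool) (a : A5) : RelU pt pb u (cm [(.z a, true)]
      (eW (rW ++ sW (none :: u)) ε ++ eW (sW (none :: u)) !ε))
  | m (τ : A5) (i : Fin 5) (a : A5) : RelU pt pb u (permW (fun i => thM pt pb u i a) τ i)

/-- The labels read by a sequence of dominoes. -/
def Sys.labs (t : List J) : List (XG × Bool) := t.filterMap S.lab

/-- The domino equation. -/
def Sys.Match (pt pb : List B) (t : List J) : Prop :=
  pt ++ t.flatMap S.top = pb ++ t.flatMap S.bot

/-- All relators used in derivations: `HT` is the set of trivial words in the generators of `H` and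
`QT` a set of words in the generators of `P`. -/
inductive Sys.Rel (pt pb : List B) (HT : Set (List (Hg × Bool))) (QT : Set (List (XG × Bool))) :
    W J B Hg → Prop
  | free (x : Gen J B Hg) (ε : Bool) : Rel pt pb HT QT [(x, ε), (x, !ε)]
  | a (w : W J B Hg) (h : S.RelA w) : Rel pt pb HT QT w
  | u (u : List (Option J)) (w : W J B Hg) (h : S.RelU pt pb u w) : Rel pt pb HT QT w
  | h (l : List (Hg × Bool)) (h : l ∈ HT) : Rel pt pb HT QT (hW l)
  | q (l : List (XG × Bool)) (h : l ∈ QT) : Rel pt pb HT QT (qW l)

end Words

/-! ### Bounded derivations -/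

section Der

variable {α : Type}

/-- Insert or delete a relator, inside words of length at most `A`. -/
def Step (R : List α → Prop) (A : ℕ) (w w' : List α) : Prop :=
  w.length ≤ A ∧ w'.length ≤ A ∧ ∃ u ρ v, R ρ ∧
    ((w = u ++ v ∧ w' = u ++ ρ ++ v) ∨ (w' = u ++ v ∧ w = u ++ ρ ++ v))

/-- Derivations by steps inside words of length at most `A`. -/
def Der (R : List α → Prop) (A : ℕ) : List α → List α → Prop := Relation.ReflTransGen (Step R A)

end Der

/-! ### Homomorphisms of free groups -/

section Hom

variable {J B Hg : Type}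

/-- The inclusion of the generators. -/
def inclX : FreeGroup XG →* FreeGroup (Gen J B Hg) := FreeGroup.lift fun x => of (xg x)

/-- The copy of the generators. -/
def phiX : FreeGroup XG →* FreeGroup (Gen J B Hg) := FreeGroup.lift fun x => of (.k (.y (.q x)))

/-- The homomorphism from the free group on the generators of `H`. -/
def homH : FreeGroup Hg →* FreeGroup (Gen J B Hg) := FreeGroup.lift fun η => of (.k (.y (.h η)))

variable (S : Sys J B Hg)

/-- Replace the auxiliary letters by words in the generators. -/
noncomputable def Sys.sub : FreeGroup (Gen J B Hg) →* FreeGroup XG := FreeGroup.lift fun x =>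
  match x with
  | .z a => of (.z a)
  | .t a => of (.t a)
  | .k .e => of .e
  | .k .w => of .w
  | .k .v => of .v
  | .k (.y n) => FreeGroup.mk (yX (S.idx n))

/-- The endomorphism `φ`. -/
noncomputable def Sys.phi : FreeGroup (Gen J B Hg) →* FreeGroup (Gen J B Hg) := phiX.comp S.sub

/-- The context endomorphisms. -/
def kap (σ : Option J) : FreeGroup (Gen J B Hg) →* FreeGroup (Gen J B Hg) := FreeGroup.lift fun x =>
  match x with
  | .k .e => of (.k (.y (.s σ))) * of (.k .e) * (of (.k (.y (.s σ))))⁻¹
  | x => of x

/-- The relators over a set `N` of trivial elements of `P`, in the free group; `HN` is the kernel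
of the presentation of `H`. -/
inductive Sys.Rl (pt pb : List B) (HN : Set (FreeGroup Hg)) (N : Set (FreeGroup XG)) :
    FreeGroup (Gen J B Hg) → Prop
  | a (w : W J B Hg) (h : S.RelA w) : Rl pt pb HN N (FreeGroup.mk w)
  | u (u : List (Option J)) (w : W J B Hg) (h : S.RelU pt pb u w) : Rl pt pb HN N (FreeGroup.mk w)
  | h (x : FreeGroup Hg) (h : x ∈ HN) : Rl pt pb HN N (homH x)
  | q (x : FreeGroup XG) (h : x ∈ N) : Rl pt pb HN N (phiX x)

/-- The kernel of the free group on all letters, given the trivial elements `N`. -/
def Sys.ker (pt pb : List B) (HN : Set (FreeGroup Hg)) (N : Set (FreeGroup XG)) :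
    Subgroup (FreeGroup (Gen J B Hg)) := Subgroup.normalClosure {x | S.Rl pt pb HN N x}

instance ker_normal (pt pb : List B) (HN : Set (FreeGroup Hg)) (N : Set (FreeGroup XG)) :
    (S.ker pt pb HN N).Normal := Subgroup.normalClosure_normal

/-- The properties of the fixed point `N`: the set of the words in the generators that are trivial
in `P`. -/
structure Fix {H : Type} [Group H] (hH : FreeGroup Hg →* H) (pt pb : List B)
    (N : Subgroup (FreeGroup XG)) : Prop where
  good : ∀ t, FreeGroup.mk (S.labs t) ∈ N → ¬ S.Match pt pb t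
  fix : ∀ x, inclX x ∈ S.ker pt pb hH.ker N ↔ x ∈ N
  acc : ∀ x, x ∉ N → ∃ t, S.Match pt pb t ∧ FreeGroup.mk (S.labs t) = x
  min : ∀ M : Subgroup (FreeGroup XG), M.Normal →
    (∀ x, inclX x ∈ S.ker pt pb hH.ker M → x ∈ M) → N ≤ M

/-- The base relators. -/
inductive Base (pt pb : List B) (RH : Set (FreeGroup Hg)) : FreeGroup (Gen J B Hg) → Prop
  | a (w : W J B Hg) (h : S.RelA w) : Base pt pb RH (FreeGroup.mk w)
  | u (w : W J B Hg) (h : S.RelU pt pb [] w) : Base pt pb RH (FreeGroup.mk w)
  | h (x : FreeGroup Hg) (h : x ∈ RH) : Base pt pb RH (homH x)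

end Hom

end Pool.Agent.BH
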