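import Mathlib
import Pool.Agent.BH.Words

set_option autoImplicit false

/-!
# Bounded reachability is computable
-/

namespace Pool.Agent.BH

namespace CompDer

open Primrec

/-! ### Computable filter -/

theorem computable_filter {α β : Type*} [Primcodable α] [Primcodable β] {f : α → List β}
    {g : α → β → Bool} (hf : Computable f) (hg : Computable₂ g) :
    Computable fun a => (f a).filter (g a) := by
  have key : Computable fun a => Nat.rec (motive := fun _ => List β) ([] : List β)
      (fun n acc => acc ++ (Option.casesOn (motive := fun _ => List β) ((f a)[n]?) []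
        (fun x => bif g a x then [x] else []))) (f a).length := by
    refine Computable.nat_rec (f := fun a => (f a).length) (g := fun _ => ([] : List β))
      (h := fun a (p : ℕ × List β) => p.2 ++ (Option.casesOn (motive := fun _ => List β)
        ((f a)[p.1]?) [] (fun x => bif g a x then [x] else [])))
      (Computable.list_length.comp hf) (Computable.const _) ?_
    refine Computable.list_append.comp (Computable.snd.comp Computable.snd) ?_
    refine Computable.option_casesOn (o := fun p : α × ℕ × List β => (f p.1)[p.2.1]?)
      (f := fun _ => ([] : List β)) (g := fun p x => bif g p.1 x then [x] else []) ?_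
      (Computable.const _) ?_
    · exact Computable.list_getElem?.comp (hf.comp Computable.fst)
        (Computable.fst.comp Computable.snd)
    · refine Computable.cond (hg.comp (Computable.fst.comp Computable.fst) Computable.snd) ?_
        (Computable.const _)
      exact Computable.list_cons.comp Computable.snd (Computable.const _)
  refine key.of_eq fun a => ?_
  have : ∀ n, n ≤ (f a).length → Nat.rec (motive := fun _ => List β) ([] : List β)
      (fun n acc => acc ++ (Option.casesOn (motive := fun _ => List β) ((f a)[n]?) []
        (fun x => bif g a x then [x] else []))) n = ((f a).take n).filter (g a) := by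
    intro n hn
    induction n with
    | zero => simp
    | succ n ih =>
      have h1 : n < (f a).length := hn
      simp only
      rw [ih (by omega), List.take_add_one, List.getElem?_eq_getElem h1]
      simp only [Option.toList_some, List.filter_append, List.append_cancel_left_eq]
      cases h : g a (f a)[n] <;> simp [h]
  rw [this _ le_rfl, List.take_length]

theorem computable_filter_pred {α β : Type*} [Primcodable α] [Primcodable β] {f : α → List β}
    {p : α × β → Prop} [DecidablePred p] (hf : Computable f) (hg : ComputablePred p) :
    Computable fun a => (f a).filter (fun x => decide (p (a, x))) :=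
  computable_filter hf hg.decide

/-! ### The list of all words of bounded length -/

section Words

variable {a : Type}

/-- All words of length at most `n`. -/
def wds (as : List a) : ℕ → List (List a)
  | 0 => [[]]
  | n + 1 => [] :: (wds as n).flatMap fun w => as.map fun c => c :: w

theorem mem_wds {as : List a} (has : ∀ x, x ∈ as) (n : ℕ) (w : List a) :
    w ∈ wds as n ↔ w.length ≤ n := by
  induction n generalizing w with
  | zero => simp [wds]
  | succ n ih =>
    rcases w with _ | ⟨c, w⟩
    · simp [wds]
    · simp [wds, ih, has]

theorem primrec_wds [Primcodable a] (as : List a) : Primrec (wds as) := by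
  have h : Primrec fun n : ℕ => Nat.rec (motive := fun _ => List (List a)) [[]]
      (fun _ (acc : List (List a)) => [] :: acc.flatMap fun w => as.map fun c => c :: w) n := by
    refine Primrec.nat_rec' (f := fun n : ℕ => n) (g := fun _ => ([[]] : List (List a)))
      (h := fun _ (p : ℕ × List (List a)) => [] :: p.2.flatMap fun w => as.map fun c => c :: w)
      Primrec.id (Primrec.const _) ?_
    refine Primrec.list_cons.comp (Primrec.const _) ?_
    refine Primrec.list_flatMap (Primrec.snd.comp Primrec.snd) ?_
    refine Primrec.list_map (Primrec.const _) ?_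
    exact Primrec.list_cons.comp Primrec.snd (Primrec.snd.comp Primrec.fst)
  refine h.of_eq fun n => ?_
  induction n with
  | zero => rfl
  | succ n ih =>
    simp only [wds]
    rw [← ih]

end Words

/-! ### The decision procedure -/

section Dec

variable {a : Type} [Primcodable a]

/-- Insertion of a relator of the list `T`. -/
def Ins (T : List (List a)) (x y : List a) : Prop :=
  ∃ ρ ∈ T, ∃ i < x.length + 1, y = x.take i ++ ρ ++ x.drop i

omit [Primcodable a] in
theorem ins_iff (T : List (List a)) (x y : List a) :
    Ins T x y ↔ ∃ u ρ v, ρ ∈ T ∧ x = u ++ v ∧ y = u ++ ρ ++ v := by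
  constructor
  · rintro ⟨ρ, hρ, i, -, h⟩
    exact ⟨x.take i, ρ, x.drop i, hρ, (List.take_append_drop i x).symm, h⟩
  · rintro ⟨u, ρ, v, hρ, rfl, rfl⟩
    refine ⟨ρ, hρ, u.length, by simp, ?_⟩
    simp

theorem primrec_ins : PrimrecPred fun p : List (List a) × List a × List a =>
    Ins p.1 p.2.1 p.2.2 := by
  have h1 : PrimrecRel fun (i : ℕ) (q : List a × List a × List a) =>
      q.2.2 = q.2.1.take i ++ q.1 ++ q.2.1.drop i := by
    refine Primrec.eq.comp (Primrec.snd.comp (Primrec.snd.comp Primrec.snd)) ?_
    refine Primrec.list_append.comp (Primrec.list_append.comp ?_ ?_) ?_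
    · exact Primrec.list_take.comp Primrec.fst (Primrec.fst.comp (Primrec.snd.comp Primrec.snd))
    · exact Primrec.fst.comp Primrec.snd
    · exact Primrec.list_drop.comp Primrec.fst (Primrec.fst.comp (Primrec.snd.comp Primrec.snd))
  have h2 : PrimrecPred fun q : List a × List a × List a =>
      ∃ i < q.2.1.length + 1, q.2.2 = q.2.1.take i ++ q.1 ++ q.2.1.drop i := by
    have := (h1.exists_mem_list).comp (f := fun q : List a × List a × List a =>
      List.range (q.2.1.length + 1)) (g := fun q => q)
      (Primrec.list_range.comp (Primrec.succ.comp (Primrec.list_length.comp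
        (Primrec.fst.comp Primrec.snd)))) Primrec.id
    exact this.of_eq fun q => by simp
  have h3 : PrimrecRel fun (ρ : List a) (q : List a × List a) =>
      ∃ i < q.1.length + 1, q.2 = q.1.take i ++ ρ ++ q.1.drop i :=
    h2
  exact h3.exists_mem_list

/-- The step relation with a finite list of relators. -/
def StepL (T : List (List a)) (A : ℕ) (x y : List a) : Prop :=
  x.length ≤ A ∧ y.length ≤ A ∧ (Ins T x y ∨ Ins T y x)

omit [Primcodable a] in
theorem stepL_iff (T : List (List a)) (A : ℕ) (x y : List a) :
    StepL T A x y ↔ Step (fun ρ => ρ ∈ T) A x y := by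
  unfold StepL Step
  rw [ins_iff, ins_iff]
  constructor
  · rintro ⟨h1, h2, ⟨u, ρ, v, hρ, h3, h4⟩ | ⟨u, ρ, v, hρ, h3, h4⟩⟩
    · exact ⟨h1, h2, u, ρ, v, hρ, Or.inl ⟨h3, h4⟩⟩
    · exact ⟨h1, h2, u, ρ, v, hρ, Or.inr ⟨h3, h4⟩⟩
  · rintro ⟨h1, h2, u, ρ, v, hρ, ⟨h3, h4⟩ | ⟨h3, h4⟩⟩
    · exact ⟨h1, h2, Or.inl ⟨u, ρ, v, hρ, h3, h4⟩⟩
    · exact ⟨h1, h2, Or.inr ⟨u, ρ, v, hρ, h3, h4⟩⟩

/-- Parameters of the procedure. -/
abbrev Par (a : Type) := List (List a) × ℕ

theorem primrec_stepL : PrimrecPred fun p : Par a × List a × List a =>
    StepL p.1.1 p.1.2 p.2.1 p.2.2 := by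
  refine PrimrecPred.and ?_ (PrimrecPred.and ?_ (PrimrecPred.or ?_ ?_))
  · exact Primrec.nat_le.comp (Primrec.list_length.comp (Primrec.fst.comp Primrec.snd))
      (Primrec.snd.comp Primrec.fst)
  · exact Primrec.nat_le.comp (Primrec.list_length.comp (Primrec.snd.comp Primrec.snd))
      (Primrec.snd.comp Primrec.fst)
  · exact primrec_ins.comp (f := fun p : Par a × List a × List a => (p.1.1, p.2.1, p.2.2))
      ((Primrec.fst.comp Primrec.fst).pair (Primrec.snd))
  · exact primrec_ins.comp (f := fun p : Par a × List a × List a => (p.1.1, p.2.2, p.2.1))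
      ((Primrec.fst.comp Primrec.fst).pair
        ((Primrec.snd.comp Primrec.snd).pair (Primrec.fst.comp Primrec.snd)))

open Classical in
/-- One round. -/
noncomputable def round (as : List a) (P : Par a) (s : List (List a)) : List (List a) :=
  s ++ (wds as P.2).filter fun y => decide (∃ x ∈ s, StepL P.1 P.2 x y)

theorem primrec_round (as : List a) : Primrec₂ (round as) := by
  classical
  have h1 : PrimrecRel fun (x : List a) (q : List a × Par a) => StepL q.2.1 q.2.2 x q.1 :=
    primrec_stepL.comp (f := fun q : List a × List a × Par a => (q.2.2, q.1, q.2.1))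
      ((Primrec.snd.comp Primrec.snd).pair (Primrec.fst.pair (Primrec.fst.comp Primrec.snd)))
  have h2 : PrimrecRel fun (s : List (List a)) (q : List a × Par a) =>
      ∃ x ∈ s, StepL q.2.1 q.2.2 x q.1 := h1.exists_mem_list
  have h3 : PrimrecRel fun (y : List a) (q : List (List a) × Par a) =>
      ∃ x ∈ q.1, StepL q.2.1 q.2.2 x y :=
    h2.comp (f := fun p : List a × List (List a) × Par a => p.2.1)
      (g := fun p => (p.1, p.2.2)) (Primrec.fst.comp Primrec.snd)
      (Primrec.fst.pair (Primrec.snd.comp Primrec.snd))
  have h4 := h3.listFilter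
  have h5 : Primrec fun p : Par a × List (List a) =>
      (wds as p.1.2).filter fun y => decide (∃ x ∈ p.2, StepL p.1.1 p.1.2 x y) :=
    h4.comp ((primrec_wds as).comp (Primrec.snd.comp Primrec.fst)) (Primrec.snd.pair Primrec.fst)
  refine (Primrec.list_append.comp Primrec.snd h5).of_eq fun p => ?_
  rfl

/-- `k` rounds. -/
noncomputable def rounds (as : List a) (P : Par a) (w : List a) (k : ℕ) : List (List a) :=
  (round as P)^[k] [w]

theorem primrec_rounds (as : List a) :
    Primrec fun p : Par a × List a × ℕ => rounds as p.1 p.2.1 p.2.2 := by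
  have := Primrec.nat_iterate (f := fun p : Par a × List a × ℕ => p.2.2)
    (g := fun p : Par a × List a × ℕ => [p.2.1])
    (h := fun (p : Par a × List a × ℕ) (s : List (List a)) => round as p.1 s)
    (Primrec.snd.comp Primrec.snd)
    (Primrec.list_cons.comp (Primrec.fst.comp Primrec.snd) (Primrec.const []))
    ((primrec_round as).comp (Primrec.fst.comp Primrec.fst) Primrec.snd)
  exact this

omit [Primcodable a] in
theorem rounds_succ (as : List a) (P : Par a) (w : List a) (k : ℕ) :
    rounds as P w (k + 1) = round as P (rounds as P w k) := by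
  unfold rounds
  rw [Function.iterate_succ_apply']

omit [Primcodable a] in
theorem mem_round (as : List a) (has : ∀ x, x ∈ as) (P : Par a) (s : List (List a))
    (y : List a) : y ∈ round as P s ↔ y ∈ s ∨ ∃ x ∈ s, StepL P.1 P.2 x y := by
  unfold round
  rw [List.mem_append, List.mem_filter, mem_wds has]
  constructor
  · rintro (h | ⟨-, h⟩)
    · exact Or.inl h
    · exact Or.inr (by simpa using h)
  · rintro (h | ⟨x, hx, h⟩)
    · exact Or.inl h
    · exact Or.inr ⟨h.2.1, by simpa using ⟨x, hx, h⟩⟩

omit [Primcodable a] in
theorem rounds_sound (as : List a) (has : ∀ x, x ∈ as) (P : Par a) (w : List a) (k : ℕ)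
    (y : List a) (hy : y ∈ rounds as P w k) : Relation.ReflTransGen (StepL P.1 P.2) w y := by
  induction k generalizing y with
  | zero =>
    have : y = w := by simpa [rounds] using hy
    rw [this]
  | succ k ih =>
    rw [rounds_succ, mem_round as has] at hy
    rcases hy with h | ⟨x, hx, h⟩
    · exact ih y h
    · exact (ih x hx).tail h

/-- Closed sets. -/
def Closed (P : Par a) (s : List (List a)) : Prop := ∀ x ∈ s, ∀ y, StepL P.1 P.2 x y → y ∈ s

omit [Primcodable a] in
theorem closed_mem (P : Par a) (s : List (List a)) (hs : Closed P s) (w : List a) (hw : w ∈ s)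
    (y : List a) (hy : Relation.ReflTransGen (StepL P.1 P.2) w y) : y ∈ s := by
  induction hy with
  | refl => exact hw
  | tail _ h ih => exact hs _ ih _ h

omit [Primcodable a] in
open Classical in
theorem rounds_closed (as : List a) (has : ∀ x, x ∈ as) (P : Par a) (w : List a) (k : ℕ) :
    Closed P (rounds as P w k) ∨ k + 1 ≤ (rounds as P w k).toFinset.card := by
  induction k with
  | zero =>
    right
    simp [rounds]
  | succ k ih =>
    by_cases hc : Closed P (rounds as P w k)
    · left
      intro x hx y hxy
      rw [rounds_succ, mem_round as has] at hx ⊢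
      left
      rcases hx with hx | ⟨x', hx', h⟩
      · exact hc x hx y hxy
      · exact hc x (hc x' hx' x h) y hxy
    · right
      have ih' := ih.resolve_left hc
      have hlt : (rounds as P w k).toFinset ⊂ (rounds as P w (k + 1)).toFinset := by
        rw [Finset.ssubset_iff_of_subset]
        · unfold Closed at hc
          push Not at hc
          obtain ⟨x, hx, y, hxy, hy⟩ := hc
          refine ⟨y, ?_, ?_⟩
          · rw [List.mem_toFinset, rounds_succ, mem_round as has]
            exact Or.inr ⟨x, hx, hxy⟩
          · rwa [List.mem_toFinset]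
        · intro y hy
          rw [List.mem_toFinset] at hy ⊢
          rw [rounds_succ, mem_round as has]
          exact Or.inl hy
      have := Finset.card_lt_card hlt
      omega

omit [Primcodable a] in
open Classical in
theorem rounds_complete (as : List a) (has : ∀ x, x ∈ as) (P : Par a) (w : List a) :
    Closed P (rounds as P w ((wds as P.2).length + 1)) := by
  refine (rounds_closed as has P w _).resolve_right ?_
  intro h
  have hsub : (rounds as P w ((wds as P.2).length + 1)).toFinset ⊆
      insert w (wds as P.2).toFinset := by
    intro y hy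
    rw [List.mem_toFinset] at hy
    have : ∀ k y, y ∈ rounds as P w k → y = w ∨ y ∈ wds as P.2 := by
      intro k
      induction k with
      | zero =>
        intro y hy
        left
        simpa [rounds] using hy
      | succ k ih =>
        intro y hy
        rw [rounds_succ, mem_round as has] at hy
        rcases hy with hy | ⟨x, -, hxy⟩
        · exact ih y hy
        · right
          rw [mem_wds has]
          exact hxy.2.1
    rw [Finset.mem_insert, List.mem_toFinset]
    exact this _ y hy
  have h1 := Finset.card_le_card hsub
  have h2 := Finset.card_insert_le w (wds as P.2).toFinset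
  have h3 := List.toFinset_card_le (wds as P.2)
  omega

theorem primrec_reach [Finite a] : PrimrecPred fun p : Par a × List a × List a =>
    Relation.ReflTransGen (StepL p.1.1 p.1.2) p.2.1 p.2.2 := by
  classical
  obtain ⟨as, has⟩ : ∃ as : List a, ∀ x, x ∈ as := by
    have := Fintype.ofFinite a
    exact ⟨Finset.univ.toList, fun x => by simp⟩
  have hmem : PrimrecRel fun (s : List (List a)) (y : List a) => ∃ x ∈ s, x = y :=
    PrimrecRel.exists_mem_list (Primrec.eq)
  have h1 : PrimrecPred fun p : Par a × List a × List a =>
      ∃ x ∈ rounds as p.1 p.2.1 ((wds as p.1.2).length + 1), x = p.2.2 := by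
    refine hmem.comp ?_ (Primrec.snd.comp Primrec.snd)
    refine (primrec_rounds as).comp (g := fun p : Par a × List a × List a =>
      (p.1, p.2.1, (wds as p.1.2).length + 1)) ?_
    refine Primrec.fst.pair ((Primrec.fst.comp Primrec.snd).pair ?_)
    exact Primrec.succ.comp (Primrec.list_length.comp ((primrec_wds as).comp
      (Primrec.snd.comp Primrec.fst)))
  refine h1.of_eq fun p => ?_
  constructor
  · rintro ⟨x, hx, rfl⟩
    exact rounds_sound as has p.1 p.2.1 _ _ hx
  · intro h
    refine ⟨p.2.2, ?_, rfl⟩
    refine closed_mem p.1 _ (rounds_complete as has p.1 p.2.1) p.2.1 ?_ _ h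
    have : ∀ k, p.2.1 ∈ rounds as p.1 p.2.1 k := by
      intro k
      induction k with
      | zero => simp [rounds]
      | succ k ih =>
        rw [rounds_succ, mem_round as has]
        exact Or.inl ih
    exact this _

end Dec

end CompDer

open CompDer in
/-- C1: bounded reachability is computable. -/
theorem computable_der {a b : Type} [Finite a] [Primcodable a] [Primcodable b]
    (R : b → List a → Prop) (hR : ComputablePred fun p : b × List a => R p.1 p.2)
    (A : b → ℕ) (hA : Computable A) :
    ComputablePred fun p : b × List a × List a => Der (R p.1) (A p.1) p.2.1 p.2.2 := by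
  classical
  obtain ⟨as, has⟩ : ∃ as : List a, ∀ x, x ∈ as := by
    have := Fintype.ofFinite a
    exact ⟨Finset.univ.toList, fun x => by simp⟩
  let T : b → List (List a) := fun p => (wds as (A p)).filter fun ρ => decide (R p ρ)
  have hT : Computable T :=
    computable_filter_pred (p := fun q : b × List a => R q.1 q.2)
      ((primrec_wds as).to_comp.comp hA) hR
  have hstep : ∀ p x y, Step (R p) (A p) x y ↔ StepL (T p) (A p) x y := by
    intro p x y
    rw [stepL_iff]
    unfold Step
    constructor
    · rintro ⟨h1, h2, u, ρ, v, hρ, h⟩
      refine ⟨h1, h2, u, ρ, v, ?_, h⟩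
      change ρ ∈ T p
      rw [List.mem_filter, mem_wds has]
      refine ⟨?_, by simpa using hρ⟩
      rcases h with ⟨-, rfl⟩ | ⟨-, rfl⟩
      · simp only [List.length_append] at h2
        omega
      · simp only [List.length_append] at h1
        omega
    · rintro ⟨h1, h2, u, ρ, v, hρ, h⟩
      refine ⟨h1, h2, u, ρ, v, ?_, h⟩
      have hρ' : ρ ∈ T p := hρ
      rw [List.mem_filter] at hρ'
      simpa using hρ'.2
  have hrel : ∀ p, Step (R p) (A p) = StepL (T p) (A p) := fun p => by
    funext x y
    exact propext (hstep p x y)
  obtain ⟨hdec, hprim⟩ := primrec_reach (a := a)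
  refine ⟨Classical.decPred _, ?_⟩
  have h1 : Computable fun p : b × List a × List a =>
      decide (Relation.ReflTransGen (StepL (T p.1) (A p.1)) p.2.1 p.2.2) := by
    have := hprim.to_comp.comp (f := fun p : Par a × List a × List a =>
      decide (Relation.ReflTransGen (StepL p.1.1 p.1.2) p.2.1 p.2.2))
      (g := fun p : b × List a × List a => ((T p.1, A p.1), p.2.1, p.2.2))
      (((hT.comp Computable.fst).pair (hA.comp Computable.fst)).pair Computable.snd)
    exact this.of_eq fun p => by simp
  refine h1.of_eq fun p => ?_
  have h2 : Relation.ReflTransGen (StepL (T p.1) (A p.1)) p.2.1 p.2.2 ↔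
      Der (R p.1) (A p.1) p.2.1 p.2.2 := by
    unfold Der
    rw [hrel p.1]
  simp only [h2]

end Pool.Agent.BH
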