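import Mathlib
import Pool.Agent.BH.Words

set_option autoImplicit false

/-!
# The set of relators is computable (module C2)
-/

namespace Pool.Agent.BH

open FreeGroup

noncomputable instance instPrimcodableXG : Primcodable XG :=
  Primcodable.ofEquiv (Fin (Nat.card XG)) (Finite.equivFin XG)

noncomputable instance instPrimcodableGen (a b k : ℕ) : Primcodable (Gen (Fin a) (Fin b) (Fin k)) :=
  Primcodable.ofEquiv (Fin (Nat.card (Gen (Fin a) (Fin b) (Fin k))))
    (Finite.equivFin (Gen (Fin a) (Fin b) (Fin k)))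

namespace CR

section General

variable {α β σ : Type} [Primcodable α] [Primcodable β] [Primcodable σ]

lemma exists_fin {ι : Type} [Finite ι] {p : ι → α → Prop} (h : ∀ i, PrimrecPred (p i)) :
    PrimrecPred fun a => ∃ i, p i a := by
  classical
  have := Fintype.ofFinite ι
  have key : ∀ s : Finset ι, PrimrecPred fun a => ∃ i ∈ s, p i a := by
    intro s
    induction s using Finset.induction_on with
    | empty =>
      refine PrimrecPred.of_eq (p := fun a : α => (0 : ℕ) = 1) ?_ (by simp)
      exact Primrec.eq.comp (Primrec.const 0) (Primrec.const 1)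
    | insert i s hi ih =>
      refine ((h i).or ih).of_eq ?_
      intro a
      simp
  exact (key Finset.univ).of_eq (by simp)

/-- All lists of length at most `n`. -/
def allL (A : List σ) : ℕ → List (List σ)
  | 0 => [[]]
  | n + 1 => [] :: (allL A n).flatMap fun l => A.map fun x => x :: l

omit [Primcodable σ] in
lemma mem_allL {A : List σ} (hA : ∀ x, x ∈ A) (n : ℕ) (u : List σ) :
    u ∈ allL A n ↔ u.length ≤ n := by
  induction n generalizing u with
  | zero => simp [allL]
  | succ n ih =>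
    rcases u with _ | ⟨x, u⟩
    · simp [allL]
    · simp only [allL, List.mem_cons, reduceCtorEq, List.mem_flatMap, List.mem_map, List.cons.injEq,
        false_or, List.length_cons, Nat.add_le_add_iff_right]
      constructor
      · rintro ⟨l, hl, y, hy, rfl, rfl⟩
        exact (ih _).1 hl
      · intro h
        exact ⟨u, (ih _).2 h, x, hA x, rfl, rfl⟩

lemma primrec_allL (A : List σ) : Primrec (allL A) := by
  have h : Primrec₂ fun (_ : ℕ) (L : List (List σ)) =>
      [] :: L.flatMap fun l => A.map fun x => x :: l := by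
    refine Primrec.list_cons.comp (Primrec.const []) ?_
    refine Primrec.list_flatMap Primrec.snd ?_
    refine Primrec.list_map (Primrec.const A) ?_
    exact Primrec.list_cons.comp Primrec.snd (Primrec.snd.comp Primrec.fst)
  refine (Primrec.nat_rec₁ [[]] h).of_eq ?_
  intro n
  induction n with
  | zero => rfl
  | succ n ih => simp only [allL]; rw [← ih]

/-- Bounded search for a list. -/
lemma exists_list [Finite σ] [DecidableEq β] {f : α → List σ → β} (hf : Primrec₂ f) {g : β → ℕ} (hg : Primrec g)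
    (hlen : ∀ a u, u.length ≤ g (f a u)) : PrimrecPred fun p : α × β => ∃ u, f p.1 u = p.2 := by
  classical
  have := Fintype.ofFinite σ
  have hR : PrimrecRel fun (u : List σ) (p : α × β) => f p.1 u = p.2 :=
    Primrec.eq.comp (hf.comp (Primrec.fst.comp Primrec.snd) Primrec.fst)
      (Primrec.snd.comp Primrec.snd)
  have h1 := hR.exists_mem_list.comp
    ((primrec_allL (Finset.univ : Finset σ).toList).comp (hg.comp (Primrec.snd (α := α) (β := β))))
    Primrec.id
  refine h1.of_eq ?_
  rintro ⟨a, b⟩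
  constructor
  · rintro ⟨u, -, h⟩
    exact ⟨u, h⟩
  · rintro ⟨u, h⟩
    refine ⟨u, ?_, h⟩
    rw [mem_allL (by simp)]
    have := hlen a u
    rw [h] at this
    exact this

end General


section Words

variable {α σ : Type} [Primcodable α] [Primcodable σ]

lemma p_not : Primrec (fun b : Bool => !b) := Primrec.not

lemma p_inv {f : α → List (σ × Bool)} (hf : Primrec f) : Primrec fun a => inv (f a) := by
  have : Primrec fun a => ((f a).map fun g => (g.1, !g.2)).reverse :=
    Primrec.list_reverse.comp (Primrec.list_map hf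
      (Primrec.pair (Primrec.fst.comp Primrec.snd) (p_not.comp (Primrec.snd.comp Primrec.snd))))
  exact this

lemma p_app {f g : α → List σ} (hf : Primrec f) (hg : Primrec g) : Primrec fun a => f a ++ g a :=
  Primrec.list_append.comp hf hg

lemma p_cj {f g : α → List (σ × Bool)} (hf : Primrec f) (hg : Primrec g) :
    Primrec fun a => cj (f a) (g a) := p_app (p_app hf hg) (p_inv hf)

lemma p_mapfin {τ : Type} [Primcodable τ] [Finite σ] (g : σ → τ) {f : α → List σ}
    (hf : Primrec f) : Primrec fun x => (f x).map g :=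
  Primrec.list_map hf ((Primrec.dom_finite g).comp Primrec.snd).to₂

lemma p_cm {f g : α → List (σ × Bool)} (hf : Primrec f) (hg : Primrec g) :
    Primrec fun a => cm (f a) (g a) := p_app (p_app (p_app hf hg) (p_inv hf)) (p_inv hg)

variable {a b k : ℕ}

lemma p_eW {f : α → W (Fin a) (Fin b) (Fin k)} (hf : Primrec f) (ε : Bool) :
    Primrec fun x => eW (f x) ε := p_cj hf (Primrec.const _)

lemma p_sW {f : α → List (Option (Fin a))} (hf : Primrec f) :
    Primrec fun x => (sW (f x) : W (Fin a) (Fin b) (Fin k)) :=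
  p_mapfin _ hf

lemma p_bW {f : α → List (Fin b)} (hf : Primrec f) :
    Primrec fun x => (bW (f x) : W (Fin a) (Fin b) (Fin k)) :=
  p_mapfin _ hf

lemma p_mW {f g : α → List (Fin b)} {u : α → List (Option (Fin a))} (hf : Primrec f)
    (hg : Primrec g) (hu : Primrec u) :
    Primrec fun x => (mW (f x) (g x) (u x) : W (Fin a) (Fin b) (Fin k)) :=
  p_app (p_eW (p_app (p_app (p_bW hg) (Primrec.const _)) (p_sW hu)) _)
    (p_eW (p_app (p_bW hf) (p_sW hu)) _)

lemma p_permW {f g : α → List (Fin b)} {u : α → List (Option (Fin a))} (hf : Primrec f)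
    (hg : Primrec g) (hu : Primrec u) (τ : A5) (i : Fin 5) (z : A5) :
    Primrec fun x => (permW (fun i => thM (f x) (g x) (u x) i z) τ i :
      W (Fin a) (Fin b) (Fin k)) :=
  p_app (p_cj (Primrec.const _) (p_cj (p_app (Primrec.const _) (p_mW hf hg hu)) (Primrec.const _)))
    (p_inv (p_cj (p_app (Primrec.const _) (p_mW hf hg hu)) (Primrec.const _)))

omit [Primcodable σ] in
lemma length_inv {w : List (σ × Bool)} : (inv w).length = w.length := by
  simp [inv, FreeGroup.invRev]

end Words

section Rel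

variable {a b k : ℕ} (S : Sys (Fin a) (Fin b) (Fin k))

/-- The relators with context, by constructor. -/
def uR1 (j : Fin a) (ε : Bool) (z : A5) (u : List (Option (Fin a))) : W (Fin a) (Fin b) (Fin k) :=
  cm [(.z z, true)] (eW (sW (some j :: u)) ε ++ eW (S.aW j ++ sW u) !ε)

def uR2 (j : Fin a) (ε : Bool) (z : A5) (u : List (Option (Fin a))) : W (Fin a) (Fin b) (Fin k) :=
  cm [(.z z, true)] (eW (rW ++ sW (some j :: u)) ε ++ eW (S.cW j ++ rW ++ sW u) !ε)

def uR3 (ε : Bool) (z : A5) (u : List (Option (Fin a))) : W (Fin a) (Fin b) (Fin k) :=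
  cm [(.z z, true)] (eW (rW ++ sW (none :: u)) ε ++ eW (sW (none :: u)) !ε)

lemma relU_iff (pt pb : List (Fin b)) (u : List (Option (Fin a))) (w : W (Fin a) (Fin b) (Fin k)) :
    S.RelU pt pb u w ↔ (∃ i : Fin a × Bool × A5, uR1 S i.1 i.2.1 i.2.2 u = w) ∨
      (∃ i : Fin a × Bool × A5, uR2 S i.1 i.2.1 i.2.2 u = w) ∨
      (∃ i : Bool × A5, uR3 i.1 i.2 u = w) ∨
      (∃ i : A5 × Fin 5 × A5, permW (fun j => thM pt pb u j i.2.2) i.1 i.2.1 = w) := by
  constructor
  · rintro (⟨j, ε, z⟩ | ⟨j, ε, z⟩ | ⟨ε, z⟩ | ⟨τ, i, z⟩)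
    · exact Or.inl ⟨(j, ε, z), rfl⟩
    · exact Or.inr (Or.inl ⟨(j, ε, z), rfl⟩)
    · exact Or.inr (Or.inr (Or.inl ⟨(ε, z), rfl⟩))
    · exact Or.inr (Or.inr (Or.inr ⟨(τ, i, z), rfl⟩))
  · rintro (⟨i, rfl⟩ | ⟨i, rfl⟩ | ⟨i, rfl⟩ | ⟨i, rfl⟩)
    · exact Sys.RelU.r1 _ _ _
    · exact Sys.RelU.r2 _ _ _
    · exact Sys.RelU.r3 _ _
    · exact Sys.RelU.m _ _ _

/-- The context pairs. -/
abbrev Cx (a b k : ℕ) := (List (Fin b) × List (Fin b)) × W (Fin a) (Fin b) (Fin k)

lemma pred_relU : PrimrecPred fun p : Cx a b k => ∃ u, S.RelU p.1.1 p.1.2 u p.2 := by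
  classical
  have h1 : ∀ i : Fin a × Bool × A5, PrimrecPred fun p : Cx a b k =>
      ∃ u, uR1 S i.1 i.2.1 i.2.2 u = p.2 := by
    rintro ⟨j, ε, z⟩
    refine exists_list (α := List (Fin b) × List (Fin b)) (g := List.length)
      (f := fun _ u => uR1 S j ε z u) ?_ Primrec.list_length ?_
    · exact p_cm (Primrec.const _) (p_app (p_eW (p_sW (Primrec.list_cons.comp (Primrec.const _)
        Primrec.snd)) _) (p_eW (p_app (Primrec.const _) (p_sW Primrec.snd)) _))
    · intro c u
      simp only [uR1, cm, eW, cj, sW, List.length_append, length_inv, List.length_map,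
        List.length_cons]
      omega
  have h2 : ∀ i : Fin a × Bool × A5, PrimrecPred fun p : Cx a b k =>
      ∃ u, uR2 S i.1 i.2.1 i.2.2 u = p.2 := by
    rintro ⟨j, ε, z⟩
    refine exists_list (α := List (Fin b) × List (Fin b)) (g := List.length)
      (f := fun _ u => uR2 S j ε z u) ?_ Primrec.list_length ?_
    · exact p_cm (Primrec.const _) (p_app (p_eW (p_app (Primrec.const _)
        (p_sW (Primrec.list_cons.comp (Primrec.const _)
        Primrec.snd))) _) (p_eW (p_app (Primrec.const _) (p_sW Primrec.snd)) _))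
    · intro c u
      simp only [uR2, cm, eW, cj, sW, List.length_append, length_inv, List.length_map,
        List.length_cons]
      omega
  have h3 : ∀ i : Bool × A5, PrimrecPred fun p : Cx a b k =>
      ∃ u, uR3 i.1 i.2 u = p.2 := by
    rintro ⟨ε, z⟩
    refine exists_list (α := List (Fin b) × List (Fin b)) (g := List.length)
      (f := fun _ u => uR3 ε z u) ?_ Primrec.list_length ?_
    · exact p_cm (Primrec.const _) (p_app (p_eW (p_app (Primrec.const _)
        (p_sW (Primrec.list_cons.comp (Primrec.const _)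
        Primrec.snd))) _) (p_eW (p_sW (Primrec.list_cons.comp (Primrec.const _)
        Primrec.snd)) _))
    · intro c u
      simp only [uR3, cm, eW, cj, sW, List.length_append, length_inv, List.length_map,
        List.length_cons]
      omega
  have h4 : ∀ i : A5 × Fin 5 × A5, PrimrecPred fun p : Cx a b k =>
      ∃ u, permW (fun j => thM p.1.1 p.1.2 u j i.2.2) i.1 i.2.1 = p.2 := by
    rintro ⟨τ, i, z⟩
    refine exists_list (α := List (Fin b) × List (Fin b)) (g := List.length)
      (f := fun c u => permW (fun j => thM c.1 c.2 u j z) τ i) ?_ Primrec.list_length ?_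
    · exact p_permW (Primrec.fst.comp Primrec.fst) (Primrec.snd.comp Primrec.fst) Primrec.snd _ _ _
    · intro c u
      simp only [permW, thM, mW, eW, cj, sW, List.length_append, length_inv, List.length_map,
        List.length_cons]
      omega
  refine ((exists_fin h1).or ((exists_fin h2).or ((exists_fin h3).or (exists_fin h4)))).of_eq ?_
  rintro ⟨⟨pt, pb⟩, w⟩
  simp only [relU_iff]
  constructor
  · rintro (⟨i, u, h⟩ | ⟨i, u, h⟩ | ⟨i, u, h⟩ | ⟨i, u, h⟩)
    · exact ⟨u, Or.inl ⟨i, h⟩⟩
    · exact ⟨u, Or.inr (Or.inl ⟨i, h⟩)⟩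
    · exact ⟨u, Or.inr (Or.inr (Or.inl ⟨i, h⟩))⟩
    · exact ⟨u, Or.inr (Or.inr (Or.inr ⟨i, h⟩))⟩
  · rintro ⟨u, (⟨i, h⟩ | ⟨i, h⟩ | ⟨i, h⟩ | ⟨i, h⟩)⟩
    · exact Or.inl ⟨i, u, h⟩
    · exact Or.inr (Or.inl ⟨i, u, h⟩)
    · exact Or.inr (Or.inr (Or.inl ⟨i, u, h⟩))
    · exact Or.inr (Or.inr (Or.inr ⟨i, u, h⟩))

/-- The finite set of relators without context. -/
lemma relA_finite : {w | S.RelA w}.Finite := by
  classical
  let T := A5 × A5
  have h : {w | S.RelA w} ⊆
      (Set.range fun i : A5 × A5 => [(Gen.z i.1, true), (Gen.z i.2, true), (Gen.z (i.1 * i.2), false)]) ∪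
      (Set.range fun i : A5 × A5 => [(Gen.t i.1, true), (Gen.t i.2, true), (Gen.t (i.1 * i.2), false)]) ∪
      {[(.k .e, true), (.k .e, true), (.k .e, true)], [(.k .w, true), (.k .w, true), (.k .w, true)],
        [(.k .v, true), (.k .v, true), (.k .v, true)], [(.k (.y .c), true), (.k (.y .c), true)],
        (cj [(.k (.y .c), true)] [(.k .e, true)] ++ [(.k .e, true)]),
        (cj [(.k (.y .c), true)] [(.k .w, true)] ++ [(.k .w, true)]),
        (cj [(.k (.y .c), true)] [(.k .v, true)] ++ [(.k .v, true)])} ∪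
      (Set.range fun i : XG × Fin b => cm [(.k (.y (.q i.1)), true)] [(.k (.y (.b i.2)), true)]) ∪
      (Set.range fun n => cm [(.k (.y .c), true)] [(.k (.y n), true)]) ∪
      (Set.range fun i : A5 × XG => cm [(.z i.1, true)] [(.k (.y (.q i.2)), true)]) ∪
      (Set.range fun i : A5 × Fin b => cm [(.z i.1, true)] [(.k (.y (.b i.2)), true)]) ∪
      (Set.range fun i : A5 × Fin 5 × A5 => permW (fun j => thD j i.2.2) i.1 i.2.1) ∪
      (Set.range fun i : A5 × Fin 5 × YG (Fin a) (Fin b) (Fin k) =>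
        permW (fun j => S.thC i.2.2 j) i.1 i.2.1) := by
    rintro w (⟨x, y⟩ | ⟨x, y⟩ | _ | _ | _ | _ | ⟨x, y⟩ | ⟨n⟩ | _ | _ | _ | ⟨x, y⟩ | ⟨x, y⟩ | ⟨τ, i, z⟩ | ⟨τ, i, n⟩)
    all_goals simp only [Set.mem_union, Set.mem_range, Set.mem_insert_iff, Set.mem_singleton_iff]
    · exact Or.inl (Or.inl (Or.inl (Or.inl (Or.inl (Or.inl (Or.inl (Or.inl ⟨(x, y), rfl⟩)))))))
    · exact Or.inl (Or.inl (Or.inl (Or.inl (Or.inl (Or.inl (Or.inl (Or.inr ⟨(x, y), rfl⟩)))))))
    · exact Or.inl (Or.inl (Or.inl (Or.inl (Or.inl (Or.inl (Or.inr (by simp)))))))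
    · exact Or.inl (Or.inl (Or.inl (Or.inl (Or.inl (Or.inl (Or.inr (by simp)))))))
    · exact Or.inl (Or.inl (Or.inl (Or.inl (Or.inl (Or.inl (Or.inr (by simp)))))))
    · exact Or.inl (Or.inl (Or.inl (Or.inl (Or.inl (Or.inl (Or.inr (by simp)))))))
    · exact Or.inl (Or.inl (Or.inl (Or.inl (Or.inl (Or.inr ⟨(x, y), rfl⟩)))))
    · exact Or.inl (Or.inl (Or.inl (Or.inl (Or.inr ⟨n, rfl⟩))))
    · exact Or.inl (Or.inl (Or.inl (Or.inl (Or.inl (Or.inl (Or.inr (by simp)))))))
    · exact Or.inl (Or.inl (Or.inl (Or.inl (Or.inl (Or.inl (Or.inr (by simp)))))))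
    · exact Or.inl (Or.inl (Or.inl (Or.inl (Or.inl (Or.inl (Or.inr (by simp)))))))
    · exact Or.inl (Or.inl (Or.inl (Or.inr ⟨(x, y), rfl⟩)))
    · exact Or.inl (Or.inl (Or.inr ⟨(x, y), rfl⟩))
    · exact Or.inl (Or.inr ⟨(τ, i, z), rfl⟩)
    · exact Or.inr ⟨(τ, i, n), rfl⟩
  refine Set.Finite.subset ?_ h
  refine Set.Finite.union (Set.Finite.union (Set.Finite.union (Set.Finite.union (Set.Finite.union
    (Set.Finite.union (Set.Finite.union (Set.Finite.union ?_ ?_) ?_) ?_) ?_) ?_) ?_) ?_) ?_
  · exact Set.finite_range _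
  · exact Set.finite_range _
  · exact Set.toFinite _
  all_goals exact Set.finite_range _

lemma pred_finite {σ : Type} [Primcodable σ] {s : Set σ} (hs : s.Finite) :
    PrimrecPred fun x => x ∈ s := by
  classical
  have : Finite s := hs
  have h := exists_fin (ι := s) (α := σ) (p := fun i x => i.1 = x) fun i =>
    Primrec.eq.comp (Primrec.const _) Primrec.id
  refine h.of_eq ?_
  intro x
  constructor
  · rintro ⟨i, rfl⟩
    exact i.2
  · intro hx
    exact ⟨⟨x, hx⟩, rfl⟩

/-- Decoding of words in the letters `h`. -/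
def hdec (g : Gen (Fin a) (Fin b) (Fin k) × Bool) : Option (Fin k × Bool) :=
  match g.1 with
  | .k (.y (.h η)) => some (η, g.2)
  | _ => none

lemma hdec_hW (l : List (Fin k × Bool)) :
    (hW l : W (Fin a) (Fin b) (Fin k)).filterMap hdec = l := by
  induction l with
  | nil => rfl
  | cons x l ih =>
    have : hW (x :: l) = ((Gen.k (.y (.h x.1)), x.2) : Gen (Fin a) (Fin b) (Fin k) × Bool) :: hW l := rfl
    rw [this, List.filterMap_cons, ih]
    rfl

/-- Decoding of words in the letters `q`. -/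
def qdec (g : Gen (Fin a) (Fin b) (Fin k) × Bool) : Option (XG × Bool) :=
  match g.1 with
  | .k (.y (.q x)) => some (x, g.2)
  | _ => none

lemma qdec_qW (l : List (XG × Bool)) :
    (qW l : W (Fin a) (Fin b) (Fin k)).filterMap qdec = l := by
  induction l with
  | nil => rfl
  | cons x l ih =>
    have : qW (x :: l) = ((Gen.k (.y (.q x.1)), x.2) : Gen (Fin a) (Fin b) (Fin k) × Bool) :: qW l := rfl
    rw [this, List.filterMap_cons, ih]
    rfl

lemma p_hdec : Primrec fun w : W (Fin a) (Fin b) (Fin k) => w.filterMap hdec :=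
  Primrec.listFilterMap Primrec.id ((Primrec.dom_finite _).comp Primrec.snd)

lemma p_qdec : Primrec fun w : W (Fin a) (Fin b) (Fin k) => w.filterMap qdec :=
  Primrec.listFilterMap Primrec.id ((Primrec.dom_finite _).comp Primrec.snd)

lemma p_hW : Primrec fun l : List (Fin k × Bool) => (hW l : W (Fin a) (Fin b) (Fin k)) :=
  p_mapfin _ Primrec.id

lemma p_qW : Primrec fun l : List (XG × Bool) => (qW l : W (Fin a) (Fin b) (Fin k)) :=
  p_mapfin _ Primrec.id

end Rel

section Comp

variable {α β : Type} [Primcodable α] [Primcodable β]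

lemma c_and {p q : α → Prop} (hp : ComputablePred p) (hq : ComputablePred q) :
    ComputablePred fun a => p a ∧ q a := by
  classical
  refine Computable.computablePred ?_
  refine (Primrec.and.to_comp.comp hp.decide hq.decide).of_eq ?_
  intro a
  simp

lemma c_or {p q : α → Prop} (hp : ComputablePred p) (hq : ComputablePred q) :
    ComputablePred fun a => p a ∨ q a := by
  classical
  refine Computable.computablePred ?_
  refine (Primrec.or.to_comp.comp hp.decide hq.decide).of_eq ?_
  intro a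
  simp

lemma c_comp {p : β → Prop} (hp : ComputablePred p) {f : α → β} (hf : Computable f) :
    ComputablePred fun a => p (f a) := by
  classical
  refine Computable.computablePred ?_
  exact hp.decide.comp hf

end Comp

end CR

open CR in
/-- C2: for a fixed domino system, the relators are decidable, uniformly in the prefixes and in the
finite set of trivial words in the generators. -/
theorem computable_rel {a b k : ℕ} (S : Sys (Fin a) (Fin b) (Fin k))
    (HT : Set (List (Fin k × Bool)))
    (hHT : ComputablePred fun l : List (Fin k × Bool) => l ∈ HT) :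
    ComputablePred fun p : (List (Fin b) × List (Fin b) × List (List (XG × Bool))) ×
        W (Fin a) (Fin b) (Fin k) =>
      S.Rel p.1.1 p.1.2.1 HT {w | w ∈ p.1.2.2} p.2 := by
  classical
  have h1 : PrimrecPred fun w : W (Fin a) (Fin b) (Fin k) => w ∈ Set.range
      fun i : Gen (Fin a) (Fin b) (Fin k) × Bool => [(i.1, i.2), (i.1, !i.2)] :=
    pred_finite (Set.finite_range _)
  have h2 := pred_finite (relA_finite S)
  have h3 := (pred_relU S).comp (f := fun p : (List (Fin b) × List (Fin b) ×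
    List (List (XG × Bool))) × W (Fin a) (Fin b) (Fin k) => ((p.1.1, p.1.2.1), p.2))
    (Primrec.pair (Primrec.pair (Primrec.fst.comp Primrec.fst)
      (Primrec.fst.comp (Primrec.snd.comp Primrec.fst))) Primrec.snd)
  have h4 : PrimrecPred fun w : W (Fin a) (Fin b) (Fin k) => hW (w.filterMap hdec) = w :=
    Primrec.eq.comp (p_hW.comp p_hdec) Primrec.id
  have h5 : PrimrecPred fun w : W (Fin a) (Fin b) (Fin k) => qW (w.filterMap qdec) = w :=
    Primrec.eq.comp (p_qW.comp p_qdec) Primrec.id
  have hR : PrimrecRel fun (x y : List (XG × Bool)) => x = y := Primrec.eq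
  have h6 := hR.exists_mem_list.comp (f := fun p : (List (Fin b) × List (Fin b) ×
    List (List (XG × Bool))) × W (Fin a) (Fin b) (Fin k) => p.1.2.2)
    (g := fun p : (List (Fin b) × List (Fin b) ×
    List (List (XG × Bool))) × W (Fin a) (Fin b) (Fin k) => p.2.filterMap qdec)
    (Primrec.snd.comp (Primrec.snd.comp Primrec.fst)) (p_qdec.comp Primrec.snd)
  have k1 := (h1.comp (Primrec.snd (α := List (Fin b) × List (Fin b) ×
    List (List (XG × Bool))) (β := W (Fin a) (Fin b) (Fin k)))).computablePred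
  have k2 := (h2.comp (Primrec.snd (α := List (Fin b) × List (Fin b) ×
    List (List (XG × Bool))) (β := W (Fin a) (Fin b) (Fin k)))).computablePred
  have k4 := (h4.comp (Primrec.snd (α := List (Fin b) × List (Fin b) ×
    List (List (XG × Bool))) (β := W (Fin a) (Fin b) (Fin k)))).computablePred
  have k5 := (h5.comp (Primrec.snd (α := List (Fin b) × List (Fin b) ×
    List (List (XG × Bool))) (β := W (Fin a) (Fin b) (Fin k)))).computablePred
  have k7 := c_comp hHT (p_hdec.comp (Primrec.snd (α := List (Fin b) × List (Fin b) ×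
    List (List (XG × Bool))) (β := W (Fin a) (Fin b) (Fin k)))).to_comp
  refine (c_or k1 (c_or k2 (c_or h3.computablePred (c_or (c_and k4 k7)
    (c_and k5 h6.computablePred))))).of_eq ?_
  rintro ⟨⟨pt, pb, Q⟩, w⟩
  constructor
  · rintro (⟨⟨x, ε⟩, rfl⟩ | h | ⟨u, h⟩ | ⟨h, h'⟩ | ⟨h, y, hy, h'⟩)
    · exact Sys.Rel.free _ _
    · exact Sys.Rel.a _ h
    · exact Sys.Rel.u _ _ h
    · have := Sys.Rel.h (S := S) (pt := pt) (pb := pb) (HT := HT) (QT := {w | w ∈ Q}) _ h'
      dsimp only at h this ⊢
      rwa [h] at this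
    · have := Sys.Rel.q (S := S) (pt := pt) (pb := pb) (HT := HT) (QT := {w | w ∈ Q}) y hy
      dsimp only at h h' this ⊢
      rw [h', h] at this
      exact this
  · rintro (⟨x, ε⟩ | h | ⟨u, _, h⟩ | ⟨l, h⟩ | ⟨l, h⟩)
    · exact Or.inl ⟨(x, ε), rfl⟩
    · exact Or.inr (Or.inl (by assumption))
    · exact Or.inr (Or.inr (Or.inl ⟨u, h⟩))
    · exact Or.inr (Or.inr (Or.inr (Or.inl ⟨congrArg hW (hdec_hW l),
        (hdec_hW (a := a) (b := b) l).symm ▸ h⟩)))
    · exact Or.inr (Or.inr (Or.inr (Or.inr ⟨congrArg qW (qdec_qW l), l, h, (qdec_qW l).symm⟩)))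

end Pool.Agent.BH
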