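import Mathlib

set_option autoImplicit false

/-!
# Labelled semi-Thue systems and dominoes
-/

namespace Pool.Agent.BH

/-- Derivations of a labelled semi-Thue system. -/
inductive Derives {A X : Type} (rules : List (List A × List A × Option X)) :
    List A → List X → List A → Prop
  | refl (w : List A) : Derives rules w [] w
  | step {w : List A} {l : List X} {u v lhs rhs : List A} {x : Option X} :
      Derives rules w l (u ++ lhs ++ v) → (lhs, rhs, x) ∈ rules →
      Derives rules w (l ++ x.toList) (u ++ rhs ++ v)

namespace DominoA

section Words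

variable {n : ℕ} {X B : Type} (ι : Fin n → B) (st hs dl : B)

/-- Star after each letter. -/
def RR (x : List (Fin n)) : List B := x.flatMap fun a => [ι a, st]

/-- Star before each letter. -/
def LL (x : List (Fin n)) : List B := x.flatMap fun a => [st, ι a]

@[simp] lemma RR_nil : RR ι st [] = [] := rfl
@[simp] lemma LL_nil : LL ι st [] = [] := rfl
@[simp] lemma RR_cons (a : Fin n) (x : List (Fin n)) :
    RR ι st (a :: x) = ι a :: st :: RR ι st x := rfl
@[simp] lemma LL_cons (a : Fin n) (x : List (Fin n)) :
    LL ι st (a :: x) = st :: ι a :: LL ι st x := rfl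
lemma RR_append (x y : List (Fin n)) : RR ι st (x ++ y) = RR ι st x ++ RR ι st y := by
  simp [RR]
lemma LL_append (x y : List (Fin n)) : LL ι st (x ++ y) = LL ι st x ++ LL ι st y := by
  simp [LL]

lemma st_RR (x : List (Fin n)) : st :: RR ι st x = LL ι st x ++ [st] := by
  induction x with
  | nil => rfl
  | cons a x ih => simp only [RR_cons, LL_cons, List.cons_append, ← ih]

variable (rules : List (List (Fin n) × List (Fin n) × Option X)) (h : Fin n)

/-- The index type of the dominoes. -/
abbrev Dm (r n : ℕ) := Fin r ⊕ Fin n ⊕ Bool

/-- The top words. -/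
def tp : Dm rules.length n → List B
  | .inl i => LL ι st (rules.get i).1
  | .inr (.inl a) => [st, ι a]
  | .inr (.inr true) => [st, hs]
  | .inr (.inr false) => [st, ι h, st, hs, st, dl]

/-- The bottom words. -/
def bt : Dm rules.length n → List B
  | .inl i => RR ι st (rules.get i).2.1
  | .inr (.inl a) => [ι a, st]
  | .inr (.inr true) => [hs, st]
  | .inr (.inr false) => [dl]

/-- The labels. -/
def lb : Dm rules.length n → Option X
  | .inl i => (rules.get i).2.2
  | _ => none

variable {ι st hs dl}

lemma prefix_of (hι : Function.Injective ι) (hsι : ∀ a, ι a ≠ hs) :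
    ∀ (lhs x : List (Fin n)) (rest rest' : List B),
      st :: (RR ι st x ++ hs :: rest) = LL ι st lhs ++ rest' →
      ∃ x', x = lhs ++ x' ∧ st :: (RR ι st x' ++ hs :: rest) = rest' := by
  intro lhs
  induction lhs with
  | nil =>
    intro x rest rest' h1
    exact ⟨x, rfl, h1⟩
  | cons a lhs ih =>
    intro x rest rest' h1
    rcases x with _ | ⟨b, x⟩
    · simp only [RR_nil, List.nil_append, LL_cons, List.cons_append, List.cons.injEq,
        true_and] at h1
      exact absurd h1.1.symm (hsι a)
    · simp only [RR_cons, LL_cons, List.cons_append, List.cons.injEq, true_and] at h1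
      obtain ⟨h2, h3⟩ := h1
      obtain rfl := hι h2
      obtain ⟨x', hx', h4⟩ := ih x rest rest' h3
      exact ⟨x', by rw [hx']; rfl, h4⟩

variable {rules h}

lemma bt_eq_tp (hst : ∀ a, ι a ≠ st) (hst1 : hs ≠ st) (hst2 : dl ≠ st)
    (hne : ∀ r ∈ rules, r.1 ≠ [] ∧ r.2.1 ≠ []) (t : List (Dm rules.length n))
    (ht : t.flatMap (bt ι st hs dl rules) = t.flatMap (tp ι st hs dl rules h)) : t = [] := by
  rcases t with _ | ⟨d, t⟩
  · rfl
  exfalso
  rcases d with i | a | b
  · have h1 := hne _ (rules.get_mem i)
    simp only [List.flatMap_cons, bt, tp] at ht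
    rcases h2 : (rules.get i).1 with _ | ⟨a, x⟩
    · exact h1.1 h2
    rcases h3 : (rules.get i).2.1 with _ | ⟨b, y⟩
    · exact h1.2 h3
    rw [h2, h3] at ht
    simp only [RR_cons, LL_cons, List.cons_append, List.cons.injEq] at ht
    exact hst b ht.1
  · simp only [List.flatMap_cons, bt, tp, List.cons_append, List.cons.injEq] at ht
    exact hst a ht.1
  · cases b
    · simp only [List.flatMap_cons, bt, tp, List.cons_append, List.cons.injEq] at ht
      exact hst2 ht.1
    · simp only [List.flatMap_cons, bt, tp, List.cons_append, List.cons.injEq] at ht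
      exact hst1 ht.1

theorem sound (hι : Function.Injective ι) (hsι : ∀ a, ι a ≠ hs) (hdι : ∀ a, ι a ≠ dl)
    (hst : ∀ a, ι a ≠ st) (hst1 : hs ≠ st) (hst2 : dl ≠ st)
    (hne : ∀ r ∈ rules, r.1 ≠ [] ∧ r.2.1 ≠ []) {w0 : List (Fin n)} :
    ∀ (t : List (Dm rules.length n)) (x y : List (Fin n)) (l : List X),
      Derives rules w0 l (y ++ x) →
      st :: (RR ι st x ++ hs :: st :: (RR ι st y ++ t.flatMap (bt ι st hs dl rules))) =
        t.flatMap (tp ι st hs dl rules h) →
      Derives rules w0 (l ++ t.filterMap (lb rules)) [h] := by
  intro t
  induction t with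
  | nil =>
    intro x y l _ h2
    simp at h2
  | cons d t ih =>
    intro x y l h1 h2
    rcases d with i | a | b
    · simp only [List.flatMap_cons, bt, tp] at h2
      obtain ⟨x', hx', h3⟩ := prefix_of hι hsι _ _ _ _ h2
      have hmem : ((rules.get i).1, (rules.get i).2.1, (rules.get i).2.2) ∈ rules :=
        rules.get_mem i
      rw [hx', ← List.append_assoc] at h1
      have h4 := Derives.step h1 hmem
      have h5 := ih x' (y ++ (rules.get i).2.1) _ h4 (by
        rw [RR_append, List.append_assoc]
        exact h3)
      have h6 : l ++ List.filterMap (lb rules) (Sum.inl i :: t) =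
          l ++ (rules.get i).2.2.toList ++ List.filterMap (lb rules) t := by
        rw [List.append_assoc]
        congr 1
        rcases h7 : (rules.get i).2.2 with _ | c
        · rw [List.filterMap_cons_none (by simp only [lb]; exact h7)]
          rfl
        · rw [List.filterMap_cons_some (by simp only [lb]; exact h7)]
          rfl
      rw [h6]
      exact h5
    · simp only [List.flatMap_cons, bt, tp] at h2
      obtain ⟨x', hx', h3⟩ := prefix_of hι hsι [a] _ _ _ h2
      have h5 := ih x' (y ++ [a]) l (by rw [hx'] at h1; simpa using h1) (by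
        rw [RR_append, List.append_assoc]
        exact h3)
      rw [List.filterMap_cons_none (by simp only [lb])]
      exact h5
    · cases b
      · simp only [List.flatMap_cons, bt, tp] at h2
        obtain ⟨x', hx', h3⟩ := prefix_of hι hsι [h] x _
          (st :: hs :: st :: dl :: t.flatMap (tp ι st hs dl rules h)) h2
        have hx0 : x' = [] := by
          rcases x' with _ | ⟨c, x'⟩
          · rfl
          · simp only [RR_cons, List.cons_append, List.cons.injEq, true_and] at h3
            exact absurd h3.1 (hsι c)
        subst hx0
        simp only [RR_nil, List.nil_append, List.cons.injEq, true_and] at h3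
        have hy0 : y = [] := by
          rcases y with _ | ⟨c, y⟩
          · rfl
          · simp only [RR_cons, List.cons_append, List.cons.injEq] at h3
            exact absurd h3.1 (hdι c)
        subst hy0
        simp only [RR_nil, List.nil_append, List.cons_append, List.cons.injEq, true_and] at h3
        have ht := bt_eq_tp hst hst1 hst2 hne t h3
        subst ht
        rw [hx'] at h1
        simpa [lb] using h1
      · simp only [List.flatMap_cons, bt, tp] at h2
        have hx0 : x = [] := by
          rcases x with _ | ⟨c, x⟩
          · rfl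
          · simp only [RR_cons, List.cons_append, List.cons.injEq, true_and] at h2
            exact absurd h2.1 (hsι c)
        subst hx0
        simp only [RR_nil, List.nil_append, List.cons_append, List.cons.injEq, true_and] at h2
        have h5 := ih y [] l (by simpa using h1) (by
          simp only [RR_nil, List.nil_append]
          exact h2)
        rw [List.filterMap_cons_none (by simp only [lb])]
        exact h5

lemma copy_tp (x : List (Fin n)) :
    (x.map fun a => (Sum.inr (Sum.inl a) : Dm rules.length n)).flatMap (tp ι st hs dl rules h) =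
      LL ι st x := by
  induction x with
  | nil => rfl
  | cons a x ih =>
    rw [List.map_cons, List.flatMap_cons, ih]
    rfl

lemma copy_bt (x : List (Fin n)) :
    (x.map fun a => (Sum.inr (Sum.inl a) : Dm rules.length n)).flatMap (bt ι st hs dl rules) =
      RR ι st x := by
  induction x with
  | nil => rfl
  | cons a x ih =>
    rw [List.map_cons, List.flatMap_cons, ih]
    rfl

lemma copy_lb (x : List (Fin n)) :
    (x.map fun a => (Sum.inr (Sum.inl a) : Dm rules.length n)).filterMap (lb rules) = [] := by
  induction x with
  | nil => rfl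
  | cons a x ih =>
    rw [List.map_cons, List.filterMap_cons_none (by simp only [lb]), ih]

variable (ι st hs dl h) in
theorem complete' {w0 w1 : List (Fin n)} {l : List X} (hd : Derives rules w0 l w1) :
    ∃ t : List (Dm rules.length n), t.filterMap (lb rules) = l ∧
      st :: (RR ι st w0 ++ hs :: st :: t.flatMap (bt ι st hs dl rules)) =
        t.flatMap (tp ι st hs dl rules h) ++ st :: (RR ι st w1 ++ [hs, st]) := by
  induction hd with
  | refl => exact ⟨[], rfl, by simp⟩
  | @step l u v lhs rhs x hd hmem ih =>
    obtain ⟨t, ht, h1⟩ := ih
    obtain ⟨i, hi⟩ := List.get_of_mem hmem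
    refine ⟨t ++ ((u.map fun a => Sum.inr (Sum.inl a)) ++ Sum.inl i ::
      ((v.map fun a => Sum.inr (Sum.inl a)) ++ [Sum.inr (Sum.inr true)])), ?_, ?_⟩
    · rw [List.filterMap_append, ht, List.filterMap_append, copy_lb, List.nil_append]
      congr 1
      rcases x with _ | c
      · rw [List.filterMap_cons_none (by simp only [lb]; rw [hi]), List.filterMap_append, copy_lb]
        rfl
      · rw [List.filterMap_cons_some (b := c) (by simp only [lb]; rw [hi]),
          List.filterMap_append, copy_lb]
        rfl
    · rw [List.flatMap_append, List.flatMap_append, List.flatMap_append, List.flatMap_append,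
        List.flatMap_cons, List.flatMap_cons, List.flatMap_append, List.flatMap_append,
        copy_tp, copy_tp, copy_bt, copy_bt]
      have hb : bt ι st hs dl rules (Sum.inl i) = RR ι st rhs := by
        simp only [bt]; rw [hi]
      have hT : tp ι st hs dl rules h (Sum.inl i) = LL ι st lhs := by
        simp only [tp]; rw [hi]
      rw [hb, hT]
      have h2 : st :: (RR ι st w0 ++ hs :: st :: (t.flatMap (bt ι st hs dl rules) ++
          (RR ι st u ++ (RR ι st rhs ++ (RR ι st v ++ [hs, st]))))) =
          (st :: (RR ι st w0 ++ hs :: st :: t.flatMap (bt ι st hs dl rules))) ++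
          (RR ι st u ++ (RR ι st rhs ++ (RR ι st v ++ [hs, st]))) := by simp
      have h3 : List.flatMap (bt ι st hs dl rules) [Sum.inr (Sum.inr true)] = [hs, st] := rfl
      have h4 : List.flatMap (tp ι st hs dl rules h) [Sum.inr (Sum.inr true)] = [st, hs] := rfl
      rw [h3, h4, h2, h1]
      have h5 : st :: (RR ι st (u ++ lhs ++ v) ++ [hs, st]) =
          LL ι st (u ++ lhs ++ v) ++ [st, hs, st] := by
        rw [← List.cons_append, st_RR]
        simp
      rw [h5]
      simp [RR_append, LL_append]

end Words

end DominoA

open DominoA in
theorem domino_of_derives {X : Type} (n : ℕ)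
    (rules : List (List (Fin n) × List (Fin n) × Option X))
    (hne : ∀ r ∈ rules, r.1 ≠ [] ∧ r.2.1 ≠ []) (h : Fin n) (init : ℕ → List (Fin n))
    (hinit : Computable init) :
    ∃ (a b : ℕ) (top bot : Fin a → List (Fin b)) (lab : Fin a → Option X)
      (pt pb : ℕ → List (Fin b)), Computable pt ∧ Computable pb ∧
      ∀ e w, Derives rules (init e) w [h] ↔ ∃ t : List (Fin a), t.filterMap lab = w ∧
        pt e ++ t.flatMap top = pb e ++ t.flatMap bot := by
  let ι : Fin n → Fin (n + 3) := fun a => a.castAdd 3
  let st : Fin (n + 3) := Fin.natAdd n 0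
  let hs : Fin (n + 3) := Fin.natAdd n 1
  let dl : Fin (n + 3) := Fin.natAdd n 2
  have hι : Function.Injective ι := Fin.castAdd_injective n 3
  have hsι : ∀ a, ι a ≠ hs := by
    intro a ha
    have h1 := congrArg Fin.val ha
    simp only [ι, hs, Fin.val_castAdd, Fin.val_natAdd] at h1
    omega
  have hdι : ∀ a, ι a ≠ dl := by
    intro a ha
    have h1 := congrArg Fin.val ha
    simp only [ι, dl, Fin.val_castAdd, Fin.val_natAdd] at h1
    omega
  have hst : ∀ a, ι a ≠ st := by
    intro a ha
    have h1 := congrArg Fin.val ha
    simp only [ι, st, Fin.val_castAdd, Fin.val_natAdd] at h1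
    omega
  have hst1 : hs ≠ st := by
    intro ha
    have h1 := congrArg Fin.val ha
    simp [hs, st] at h1
  have hst2 : dl ≠ st := by
    intro ha
    have h1 := congrArg Fin.val ha
    simp [dl, st] at h1
  let E : Fin (Fintype.card (Dm rules.length n)) ≃ Dm rules.length n :=
    (Fintype.equivFin (Dm rules.length n)).symm
  refine ⟨Fintype.card (Dm rules.length n), n + 3, fun i => tp ι st hs dl rules h (E i),
    fun i => bt ι st hs dl rules (E i), fun i => lb rules (E i), fun _ => [],
    fun e => st :: (RR ι st (init e) ++ [hs, st]), Computable.const _, ?_, ?_⟩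
  · have h1 : Primrec fun x : List (Fin n) => st :: (RR ι st x ++ [hs, st]) := by
      refine Primrec.list_cons.comp (Primrec.const _) ?_
      refine Primrec.list_append.comp ?_ (Primrec.const _)
      refine Primrec.list_flatMap Primrec.id ?_
      exact ((Primrec.dom_finite fun a : Fin n => [ι a, st]).comp Primrec.snd).to₂
    exact h1.to_comp.comp hinit
  · intro e w
    have hmap : ∀ t : List (Fin (Fintype.card (Dm rules.length n))),
        t.filterMap (fun i => lb rules (E i)) = (t.map E).filterMap (lb rules) ∧
        t.flatMap (fun i => tp ι st hs dl rules h (E i)) =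
          (t.map E).flatMap (tp ι st hs dl rules h) ∧
        t.flatMap (fun i => bt ι st hs dl rules (E i)) =
          (t.map E).flatMap (bt ι st hs dl rules) := by
      intro t
      refine ⟨?_, ?_, ?_⟩
      · rw [List.filterMap_map]; rfl
      · rw [List.flatMap_map]
      · rw [List.flatMap_map]
    constructor
    · intro hd
      obtain ⟨t, ht, h1⟩ := complete' ι st hs dl h hd
      refine ⟨(t ++ [Sum.inr (Sum.inr false)]).map E.symm, ?_, ?_⟩
      · rw [(hmap _).1, List.map_map]
        simp only [Equiv.self_comp_symm, List.map_id_fun, id_eq]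
        rw [List.filterMap_append, ht]
        simp [lb]
      · rw [(hmap _).2.1, (hmap _).2.2, List.map_map]
        simp only [Equiv.self_comp_symm, List.map_id_fun, id_eq]
        rw [List.flatMap_append, List.flatMap_append]
        have h3 : List.flatMap (bt ι st hs dl rules) [Sum.inr (Sum.inr false)] = [dl] := rfl
        have h4 : List.flatMap (tp ι st hs dl rules h) [Sum.inr (Sum.inr false)] =
          [st, ι h, st, hs, st, dl] := rfl
        rw [h3, h4]
        have h5 : (st :: (RR ι st (init e) ++ [hs, st])) ++
            (t.flatMap (bt ι st hs dl rules) ++ [dl]) =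
            (st :: (RR ι st (init e) ++ hs :: st :: t.flatMap (bt ι st hs dl rules))) ++ [dl] := by
          simp
        rw [h5, h1]
        simp
    · rintro ⟨t, ht, h1⟩
      rw [(hmap _).1] at ht
      rw [(hmap _).2.1, (hmap _).2.2] at h1
      have h2 := sound (h := h) hι hsι hdι hst hst1 hst2 hne (w0 := init e) (t.map E) (init e) []
        [] (by simpa using Derives.refl (init e)) (by
          rw [List.nil_append] at h1
          rw [h1]
          simp)
      rw [ht] at h2
      simpa using h2

end Pool.Agent.BH
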