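import Pool.Agent.BH.DominoA

set_option autoImplicit false

/-!
# Recursively enumerable predicates and labelled semi-Thue systems
-/

namespace Pool.Agent.BH

namespace DominoB

open Turing StateTransition

/-! ## Numbers and their digits -/

/-- The number with binary digits `1` followed by the given ones, most significant first. -/
def num (bs : List Bool) : ℕ := bs.foldl (fun m b => Nat.bit b m) 1

lemma num_append (bs : List Bool) (b : Bool) : num (bs ++ [b]) = Nat.bit b (num bs) := by
  simp [num]

lemma num_ne_zero (bs : List Bool) : num bs ≠ 0 := by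
  induction bs using List.reverseRecOn with
  | nil => simp [num]
  | append_singleton bs b ih =>
    rw [num_append]
    exact Nat.bit_ne_zero b ih

/-- The digit letter. -/
def dg (b : Bool) : PartrecToTM2.Γ' := if b then .bit1 else .bit0

lemma trNat_bit (b : Bool) (n : ℕ) (hn : n ≠ 0) :
    PartrecToTM2.trNat (Nat.bit b n) = dg b :: PartrecToTM2.trNat n := by
  unfold PartrecToTM2.trNat
  rw [← Num.ofNat'_eq, ← Num.ofNat'_eq, Num.ofNat'_bit]
  have h : Num.ofNat' n ≠ 0 := by
    rw [Num.ofNat'_eq]
    exact_mod_cast hn
  cases hN : Num.ofNat' n with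
  | zero => exact absurd hN h
  | pos p => cases b <;> rfl

lemma trNat_num (bs : List Bool) :
    (PartrecToTM2.trNat (num bs)).reverse = dg true :: bs.map dg := by
  induction bs using List.reverseRecOn with
  | nil => 
    have : num [] = 1 := rfl
    rw [this, PartrecToTM2.trNat, Nat.cast_one]
    rfl
  | append_singleton bs b ih =>
    rw [num_append, trNat_bit _ _ (num_ne_zero bs), List.reverse_cons, ih]
    simp

/-! ## Machines -/

/-- A partial recursive function is evaluated by a code. -/
lemma exists_code (f : ℕ →. ℕ) (hf : Partrec f) :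
    ∃ c : ToPartrec.Code, ∀ m, (c.eval [m]).Dom ↔ (f m).Dom := by
  obtain ⟨c, hc⟩ := ToPartrec.Code.exists_code (Nat.Partrec'.part_iff₁.2 hf)
  refine ⟨c, fun m => ?_⟩
  have h := hc (m ::ᵥ List.Vector.nil)
  simp only [List.Vector.head_cons] at h
  have h2 : (List.Vector.cons m List.Vector.nil).1 = [m] := rfl
  rw [h2] at h
  rw [h]
  rfl

/-- The letter of the tape for a letter of the main stack. -/
def tl (a : PartrecToTM2.Γ') : TM2to1.Γ' PartrecToTM2.K' (fun _ => PartrecToTM2.Γ') :=
  (false, Function.update (fun _ => none) PartrecToTM2.K'.main (some a))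

/-- The first letter of the tape. -/
def tl0 : TM2to1.Γ' PartrecToTM2.K' (fun _ => PartrecToTM2.Γ') :=
  (true, Function.update (fun _ => none) PartrecToTM2.K'.main (some .cons))

lemma trInit_num (bs : List Bool) :
    TM2to1.trInit (Γ := fun _ => PartrecToTM2.Γ') PartrecToTM2.K'.main
      (PartrecToTM2.trList [num bs]) = tl0 :: tl (dg true) :: bs.map (fun b => tl (dg b)) := by
  unfold TM2to1.trInit
  simp only [PartrecToTM2.trList, List.reverse_append, List.reverse_cons, List.reverse_nil, List.nil_append,
    List.singleton_append, List.map_cons, List.headI, List.tail_cons, trNat_num, List.map_map]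
  rfl

lemma eval_dom (c : ToPartrec.Code) (m : ℕ) :
    letI : Inhabited PartrecToTM2.Λ' := ⟨PartrecToTM2.trNormal c .halt⟩
    (TM0.eval (TM1to0.tr (TM2to1.tr PartrecToTM2.tr))
      (TM2to1.trInit PartrecToTM2.K'.main (PartrecToTM2.trList [m]))).Dom ↔ (c.eval [m]).Dom := by
  let _ : Inhabited PartrecToTM2.Λ' := ⟨PartrecToTM2.trNormal c .halt⟩
  rw [TM1to0.tr_eval, TM2to1.tr_eval_dom]
  have h1 : (TM2.init PartrecToTM2.K'.main (PartrecToTM2.trList [m]) : PartrecToTM2.Cfg') =
      PartrecToTM2.init c [m] := by
    unfold TM2.init PartrecToTM2.init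
    congr 1
    funext k
    cases k <;> rfl
  have h2 : (TM2.eval PartrecToTM2.tr PartrecToTM2.K'.main (PartrecToTM2.trList [m])).Dom ↔
      (eval (TM2.step PartrecToTM2.tr) (PartrecToTM2.init c [m])).Dom := by
    unfold TM2.eval
    rw [← h1]
    rfl
  rw [h2, PartrecToTM2.tr_eval]
  rfl

theorem exists_TM0 (f : ℕ →. ℕ) (hf : Partrec f) :
    ∃ (Γ Q : Type) (_ : Finite Γ) (_ : Finite Q) (_ : Inhabited Γ) (_ : Inhabited Q)
      (M : TM0.Machine Γ Q) (c0 : Γ) (cb : Bool → Γ),
      ∀ bs : List Bool, (TM0.eval M (c0 :: cb true :: bs.map cb)).Dom ↔ (f (num bs)).Dom := by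
  classical
  obtain ⟨c, hc⟩ := exists_code f hf
  let _ : Inhabited PartrecToTM2.Λ' := ⟨PartrecToTM2.trNormal c .halt⟩
  have s2 := PartrecToTM2.tr_supports c .halt
  have s1 := TM2to1.tr_supports PartrecToTM2.tr s2
  have s0 := TM1to0.tr_supports (TM2to1.tr PartrecToTM2.tr) s1
  set S := TM1to0.trStmts (TM2to1.tr PartrecToTM2.tr)
    (TM2to1.trSupp PartrecToTM2.tr (PartrecToTM2.codeSupp c .halt)) with hS
  let i0 : Inhabited S := ⟨⟨default, s0.1⟩⟩
  let g1 : PointedMap (TM1to0.Λ' (TM2to1.tr PartrecToTM2.tr)) S :=
    ⟨fun q => if h : q ∈ S then ⟨q, h⟩ else default, dif_pos s0.1⟩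
  let g2 : S → TM1to0.Λ' (TM2to1.tr PartrecToTM2.tr) := Subtype.val
  let idp : PointedMap (TM2to1.Γ' PartrecToTM2.K' (fun _ => PartrecToTM2.Γ'))
    (TM2to1.Γ' PartrecToTM2.K' (fun _ => PartrecToTM2.Γ')) := ⟨id, rfl⟩
  have hK : Finite PartrecToTM2.K' := by
    refine Finite.of_injective (β := Fin 4) (fun k => match k with
      | .main => 0
      | .rev => 1
      | .aux => 2
      | .stack => 3) ?_
    intro a b h
    cases a <;> cases b <;> simp_all
  have hΓ : Finite (TM2to1.Γ' PartrecToTM2.K' (fun _ => PartrecToTM2.Γ')) :=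
    inferInstanceAs (Finite (Bool × (PartrecToTM2.K' → Option PartrecToTM2.Γ')))
  refine ⟨TM2to1.Γ' PartrecToTM2.K' (fun _ => PartrecToTM2.Γ'), S, hΓ, inferInstance,
    inferInstance, i0, (TM1to0.tr (TM2to1.tr PartrecToTM2.tr)).map idp idp g1 g2,
    tl0, fun b => tl (dg b), fun bs => ?_⟩
  rw [← hc, ← eval_dom c, trInit_num]
  have hr := TM0.Machine.map_respects (TM1to0.tr (TM2to1.tr PartrecToTM2.tr)) idp idp g1 g2 s0
    (fun _ => rfl) (fun q hq => by
      have h3 : g1 q = ⟨q, hq⟩ := dif_pos hq
      change g2 (g1 q) = q
      rw [h3])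
  have h4 := StateTransition.tr_eval_dom hr (a₁ := TM0.init (tl0 :: tl (dg true) :: bs.map (fun b => tl (dg b))))
    (a₂ := TM0.init (tl0 :: tl (dg true) :: bs.map (fun b => tl (dg b)))) ⟨s0.1, by
      rw [TM0.map_init]
      congr 1
      exact List.map_id _⟩
  exact h4

/-! ## Codes of lists -/

/-- Unary code. -/
def un (n : ℕ) : List Bool := List.replicate n false ++ [true]

/-- The number of a list. -/
def mu (l : List ℕ) : ℕ := l.foldl (fun m n => 2 * (2 ^ n * m) + 1) 1

lemma num_un (bs : List Bool) (n : ℕ) : num (bs ++ un n) = 2 * (2 ^ n * num bs) + 1 := by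
  have h : ∀ k, num (bs ++ List.replicate k false) = 2 ^ k * num bs := by
    intro k
    induction k with
    | zero => simp
    | succ k ih =>
      rw [List.replicate_succ', ← List.append_assoc, num_append, ih, Nat.bit_false, pow_succ]
      ring
  rw [un, ← List.append_assoc, num_append, h, Nat.bit_true]

lemma num_flatMap (l : List ℕ) : num (l.flatMap un) = mu l := by
  induction l using List.reverseRecOn with
  | nil => rfl
  | append_singleton l n ih =>
    rw [List.flatMap_append, List.flatMap_singleton, num_un, ih]
    simp [mu]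

lemma mu_odd (l : List ℕ) : Odd (mu l) := by
  induction l using List.reverseRecOn with
  | nil => exact odd_one
  | append_singleton l n ih =>
    simp only [mu, List.foldl_append, List.foldl_cons, List.foldl_nil]
    exact ⟨_, rfl⟩

lemma pow_odd_inj {a b m n : ℕ} (hm : Odd m) (hn : Odd n) (h : 2 ^ a * m = 2 ^ b * n) :
    a = b ∧ m = n := by
  have key : ∀ {a b m n : ℕ}, Odd m → Odd n → 2 ^ a * m = 2 ^ b * n → a ≤ b → a = b ∧ m = n := by
    intro a b m n hm hn h hab
    obtain ⟨c, rfl⟩ := Nat.exists_eq_add_of_le hab
    rw [pow_add, mul_assoc] at h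
    have h1 := Nat.eq_of_mul_eq_mul_left (by positivity) h
    rcases Nat.eq_zero_or_pos c with rfl | hc
    · simp at h1 ⊢
      exact h1
    · exfalso
      obtain ⟨d, rfl⟩ := Nat.exists_eq_succ_of_ne_zero hc.ne'
      rw [h1, pow_succ] at hm
      rw [Nat.odd_iff] at hm
      rw [show 2 ^ d * 2 * n = 2 * (2 ^ d * n) by ring] at hm
      omega
  rcases le_total a b with hab | hab
  · exact key hm hn h hab
  · have := key hn hm h.symm hab
    exact ⟨this.1.symm, this.2.symm⟩

lemma mu_inj : Function.Injective mu := by
  intro l l' h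
  induction l using List.reverseRecOn generalizing l' with
  | nil =>
    induction l' using List.reverseRecOn with
    | nil => rfl
    | append_singleton l' n _ =>
      exfalso
      simp only [mu, List.foldl_append, List.foldl_cons, List.foldl_nil] at h
      have := (mu_odd l').pos
      simp only [mu] at this
      have h2 : 0 < 2 ^ n := by positivity
      have := Nat.mul_pos h2 this
      omega
  | append_singleton l n ih =>
    induction l' using List.reverseRecOn with
    | nil =>
      exfalso
      simp only [mu, List.foldl_append, List.foldl_cons, List.foldl_nil] at h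
      have := (mu_odd l).pos
      simp only [mu] at this
      have h2 : 0 < 2 ^ n := by positivity
      have := Nat.mul_pos h2 this
      omega
    | append_singleton l' n' _ =>
      have h1 : 2 ^ n * mu l = 2 ^ n' * mu l' := by
        simp only [mu, List.foldl_append, List.foldl_cons, List.foldl_nil] at h
        simp only [mu]
        omega
      obtain ⟨rfl, h2⟩ := pow_odd_inj (mu_odd l) (mu_odd l') h1
      rw [ih h2]

lemma pow_prim : Primrec₂ (fun a b : ℕ => a ^ b) := Primrec₂.unpaired'.1 Nat.Primrec.pow

lemma mu_prim : Primrec mu := by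
  unfold mu
  have h : Primrec₂ (fun (_ : List ℕ) (p : ℕ × ℕ) => 2 * (2 ^ p.2 * p.1) + 1) := by
    refine Primrec₂.comp Primrec.nat_add ?_ (Primrec.const 1)
    refine Primrec₂.comp Primrec.nat_mul (Primrec.const 2) ?_
    refine Primrec₂.comp Primrec.nat_mul ?_ (Primrec.fst.comp Primrec.snd)
    exact Primrec₂.comp pow_prim (Primrec.const 2) (Primrec.snd.comp Primrec.snd)
  exact Primrec.list_foldl Primrec.id (Primrec.const 1) h

lemma mu_comp {X : Type} [Primcodable X] :
    Computable fun p : ℕ × List X => mu (p.1 :: p.2.map Encodable.encode) := by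
  refine (mu_prim.comp ?_).to_comp
  refine Primrec.list_cons.comp Primrec.fst ?_
  exact Primrec.list_map Primrec.snd (Primrec.encode.comp Primrec.snd).to₂

/-- The partial function. -/
theorem exists_fun {X : Type} [Primcodable X] (U : ℕ → List X → Prop)
    (hU : REPred fun p : ℕ × List X => U p.1 p.2) :
    ∃ f : ℕ →. ℕ, Partrec f ∧
      ∀ e w, (f (mu (e :: w.map Encodable.encode))).Dom ↔ U e w := by
  classical
  have h1 : Computable₂ fun (m k : ℕ) => ((Encodable.decode k : Option (ℕ × List X)).bind
      fun p => if mu (p.1 :: p.2.map Encodable.encode) = m then some p else none) := by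
    refine Computable.option_bind (Computable.decode.comp Computable.snd) ?_
    have h2 : Computable fun q : (ℕ × ℕ) × (ℕ × List X) =>
        (mu (q.2.1 :: q.2.2.map Encodable.encode) == q.1.1) :=
      Primrec.beq.to_comp.comp (mu_comp.comp Computable.snd) (Computable.fst.comp Computable.fst)
    have h3 : Computable fun q : (ℕ × ℕ) × (ℕ × List X) =>
        (bif (mu (q.2.1 :: q.2.2.map Encodable.encode) == q.1.1) then some q.2 else none) :=
      Computable.cond h2 (Computable.option_some.comp Computable.snd) (Computable.const none)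
    have h4 : Computable fun q : (ℕ × ℕ) × (ℕ × List X) =>
        (if mu (q.2.1 :: q.2.2.map Encodable.encode) = q.1.1 then some q.2 else none) := by
      refine h3.of_eq fun q => ?_
      by_cases h : mu (q.2.1 :: q.2.2.map Encodable.encode) = q.1.1
      · rw [if_pos h, beq_iff_eq.2 h]; rfl
      · rw [if_neg h, beq_eq_false_iff_ne.2 h]; rfl
    exact h4
  refine ⟨fun m => (Nat.rfindOpt fun k => ((Encodable.decode k : Option (ℕ × List X)).bind
      fun p => if mu (p.1 :: p.2.map Encodable.encode) = m then some p else none)).bind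
      fun p => (Part.assert (U p.1 p.2) fun _ => Part.some ()).map fun _ => 0, ?_, ?_⟩
  · refine (Partrec.rfindOpt h1).bind ?_
    have h2 : Partrec fun q : ℕ × (ℕ × List X) => 
      (Part.assert (U q.2.1 q.2.2) fun _ => Part.some ()) := Partrec.comp hU Computable.snd
    exact (h2.map (Computable.const 0).to₂).to₂
  · intro e w
    have h3 : ∀ p : ℕ × List X, mu (p.1 :: p.2.map Encodable.encode) =
        mu (e :: w.map Encodable.encode) ↔ p = (e, w) := by
      intro p
      constructor
      · intro h
        have h4 := mu_inj h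
        simp only [List.cons.injEq] at h4
        exact Prod.ext h4.1 ((List.map_injective_iff.2 Encodable.encode_injective) h4.2)
      · rintro rfl
        rfl
    have h5 : ∃ k a, a ∈ (fun k => ((Encodable.decode k : Option (ℕ × List X)).bind
      fun p => if mu (p.1 :: p.2.map Encodable.encode) = mu (e :: w.map Encodable.encode)
        then some p else none)) k := by
      refine ⟨Encodable.encode (e, w), (e, w), ?_⟩
      simp
    have h6 := Nat.rfindOpt_dom.2 h5
    have h7 := Part.get_mem h6
    obtain ⟨k, hk⟩ := Nat.rfindOpt_spec h7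
    have h8 : (Part.get _ h6) = (e, w) := by
      rw [Option.mem_def, Option.bind_eq_some_iff] at hk
      obtain ⟨p, _, hp⟩ := hk
      split_ifs at hp with hif
      rw [Option.some.injEq] at hp
      rw [← hp]
      exact (h3 p).1 hif
    change (Part.bind _ _).Dom ↔ _
    constructor
    · intro h10
      obtain ⟨h, h9⟩ := h10
      have h11 : U (Part.get _ h6).1 (Part.get _ h6).2 := h9.1
      rw [h8] at h11
      exact h11
    · intro h9
      refine ⟨h6, ?_, trivial⟩
      rw [h8]
      exact h9

/-! ## Derivations for a relation -/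

section DRs

variable {A X : Type}

/-- Derivations with the rules given by a relation. -/
inductive DR (R : List A → List A → Option X → Prop) (w : List A) : List X → List A → Prop
  | refl : DR R w [] w
  | step {l : List X} {u v lhs rhs : List A} {x : Option X} :
      DR R w l (u ++ lhs ++ v) → R lhs rhs x → DR R w (l ++ x.toList) (u ++ rhs ++ v)

variable {R : List A → List A → Option X → Prop} {w : List A}

lemma DR.app {l : List X} {w1 lhs rhs : List A} (h : DR R w l w1) (r : R lhs rhs none)
    (u v : List A) (e1 : w1 = u ++ lhs ++ v) {w2 : List A} (e2 : w2 = u ++ rhs ++ v) :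
    DR R w l w2 := by
  subst e1 e2
  have := h.step r
  rwa [Option.toList_none, List.append_nil] at this

lemma DR.appx {l : List X} {w1 lhs rhs : List A} {x : X} (h : DR R w l w1) (r : R lhs rhs (some x))
    (u v : List A) (e1 : w1 = u ++ lhs ++ v) {w2 : List A} (e2 : w2 = u ++ rhs ++ v) :
    DR R w (l ++ [x]) w2 := by
  subst e1 e2
  exact h.step r

theorem exists_rules [Finite A] (hR : {p : List A × List A × Option X | R p.1 p.2.1 p.2.2}.Finite)
    (hne : ∀ a b x, R a b x → a ≠ [] ∧ b ≠ []) :
    ∃ (n : ℕ) (E : A ≃ Fin n) (rules : List (List (Fin n) × List (Fin n) × Option X)),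
      (∀ r ∈ rules, r.1 ≠ [] ∧ r.2.1 ≠ []) ∧
      ∀ (w : List A) (l : List X) (w' : List A),
        Derives rules (w.map E) l (w'.map E) ↔ DR R w l w' := by
  classical
  obtain ⟨n, ⟨E⟩⟩ := Finite.exists_equiv_fin A
  let rules : List (List (Fin n) × List (Fin n) × Option X) :=
    hR.toFinset.toList.map fun p => (p.1.map E, p.2.1.map E, p.2.2)
  have hmem : ∀ a b x, R a b x → (a.map E, b.map E, x) ∈ rules := by
    intro a b x h
    refine List.mem_map.2 ⟨(a, b, x), ?_, rfl⟩
    rw [Finset.mem_toList, Set.Finite.mem_toFinset]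
    exact h
  have hmem2 : ∀ a b x, (a, b, x) ∈ rules → R (a.map E.symm) (b.map E.symm) x := by
    intro a b x h
    obtain ⟨⟨a', b', x'⟩, h1, h2⟩ := List.mem_map.1 h
    rw [Finset.mem_toList, Set.Finite.mem_toFinset] at h1
    simp only [Prod.mk.injEq] at h2
    obtain ⟨rfl, rfl, rfl⟩ := h2
    simp only [List.map_map, Equiv.symm_comp_self, List.map_id]
    exact h1
  refine ⟨n, E, rules, ?_, ?_⟩
  · rintro ⟨a, b, x⟩ h
    have := hne _ _ _ (hmem2 a b x h)
    simpa using this
  · intro w l w'
    constructor
    · intro h
      have key : ∀ (w1 w2 : List (Fin n)) (l : List X), Derives rules w1 l w2 →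
          DR R (w1.map E.symm) l (w2.map E.symm) := by
        intro w1 w2 l h
        induction h with
        | refl => exact DR.refl
        | step _ hr ih =>
          simp only [List.map_append] at ih ⊢
          exact ih.step (hmem2 _ _ _ hr)
      have := key _ _ _ h
      simpa only [List.map_map, Equiv.symm_comp_self, List.map_id] using this
    · intro h
      induction h with
      | refl => exact Derives.refl _
      | step _ hr ih =>
        simp only [List.map_append] at ih ⊢
        exact ih.step (hmem _ _ _ hr)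

end DRs

/-! ## The semi-Thue system of a machine -/

/-- Letters. -/
inductive Lt (Γ Q : Type) where
  | le
  | re
  | g
  | g'
  | h
  | c (a : Γ)
  | q (s : Q)

instance (Γ Q : Type) [Finite Γ] [Finite Q] : Finite (Lt Γ Q) := by
  refine Finite.of_injective (β := Γ ⊕ Q ⊕ Fin 5) (fun x => match x with
    | .c a => Sum.inl a
    | .q s => Sum.inr (Sum.inl s)
    | .le => Sum.inr (Sum.inr 0)
    | .re => Sum.inr (Sum.inr 1)
    | .g => Sum.inr (Sum.inr 2)
    | .g' => Sum.inr (Sum.inr 3)
    | .h => Sum.inr (Sum.inr 4)) ?_
  intro x y h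
  cases x <;> cases y <;> simp_all

section System

variable {Γ Q X : Type} [Inhabited Γ] [Inhabited Q]

/-- The rules. -/
inductive Rule (M : TM0.Machine Γ Q) (cl : X → List Γ) :
    List (Lt Γ Q) → List (Lt Γ Q) → Option X → Prop
  | guess (x : X) : Rule M cl [.g] ((cl x).map .c ++ [.g]) (some x)
  | switch : Rule M cl [.g] [.g'] none
  | walk (a : Γ) : Rule M cl [.c a, .g'] [.g', .c a] none
  | start : Rule M cl [.le, .g'] [.le, .q default] none
  | write (s : Q) (a : Γ) (s' : Q) (b : Γ) : M s a = some (s', .write b) →
      Rule M cl [.q s, .c a] [.q s', .c b] none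
  | right (s : Q) (a : Γ) (s' : Q) : M s a = some (s', .move .right) →
      Rule M cl [.q s, .c a] [.c a, .q s'] none
  | left (s : Q) (a : Γ) (s' : Q) (b : Γ) : M s a = some (s', .move .left) →
      Rule M cl [.c b, .q s, .c a] [.q s', .c b, .c a] none
  | halt (s : Q) (a : Γ) : M s a = none → Rule M cl [.q s, .c a] [.h] none
  | extR (s : Q) : Rule M cl [.q s, .re] [.q s, .c default, .re] none
  | extL (s : Q) : Rule M cl [.le, .q s] [.le, .c default, .q s] none
  | absL (y : Lt Γ Q) : Rule M cl [y, .h] [.h] none
  | absR (y : Lt Γ Q) : Rule M cl [.h, y] [.h] none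

variable (M : TM0.Machine Γ Q) (cl : X → List Γ)

lemma Rule.ne {a b : List (Lt Γ Q)} {x : Option X} (h : Rule M cl a b x) : a ≠ [] ∧ b ≠ [] := by
  cases h <;> simp

lemma rule_finite [Finite Γ] [Finite Q] [Finite X] :
    {p : List (Lt Γ Q) × List (Lt Γ Q) × Option X | Rule M cl p.1 p.2.1 p.2.2}.Finite := by
  refine Set.Finite.subset (((((((((((
    (Set.finite_range fun x : X => (([.g] : List (Lt Γ Q)), (cl x).map Lt.c ++ [.g], some x)).union
    (Set.finite_range fun _ : Unit => ([.g], [.g'], none))).union
    (Set.finite_range fun a : Γ => ([.c a, .g'], [.g', .c a], none))).union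
    (Set.finite_range fun _ : Unit => ([.le, .g'], [.le, .q default], none))).union
    (Set.finite_range fun p : Q × Γ × Q × Γ =>
      ([.q p.1, .c p.2.1], [.q p.2.2.1, .c p.2.2.2], none))).union
    (Set.finite_range fun p : Q × Γ × Q => ([.q p.1, .c p.2.1], [.c p.2.1, .q p.2.2], none))).union
    (Set.finite_range fun p : Q × Γ × Q × Γ =>
      ([.c p.2.2.2, .q p.1, .c p.2.1], [.q p.2.2.1, .c p.2.2.2, .c p.2.1], none))).union
    (Set.finite_range fun p : Q × Γ => ([.q p.1, .c p.2], [.h], none))).union
    (Set.finite_range fun s : Q => ([.q s, .re], [.q s, .c default, .re], none))).union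
    (Set.finite_range fun s : Q => ([.le, .q s], [.le, .c default, .q s], none))).union
    (Set.finite_range fun y : Lt Γ Q => ([y, .h], [.h], none))).union
    (Set.finite_range fun y : Lt Γ Q => ([.h, y], [.h], none))) ?_
  rintro ⟨a, b, x⟩ h
  simp only [Set.mem_ofPred_eq] at h
  simp only [Set.mem_union, Set.mem_range]
  cases h with
  | guess x => left; left; left; left; left; left; left; left; left; left; left; exact ⟨x, rfl⟩
  | switch => left; left; left; left; left; left; left; left; left; left; right; exact ⟨(), rfl⟩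
  | walk a => left; left; left; left; left; left; left; left; left; right; exact ⟨a, rfl⟩
  | start => left; left; left; left; left; left; left; left; right; exact ⟨(), rfl⟩
  | write s a s' b _ => left; left; left; left; left; left; left; right; exact ⟨(s, a, s', b), rfl⟩
  | right s a s' _ => left; left; left; left; left; left; right; exact ⟨(s, a, s'), rfl⟩
  | left s a s' b _ => left; left; left; left; left; right; exact ⟨(s, a, s', b), rfl⟩
  | halt s a _ => left; left; left; left; right; exact ⟨(s, a), rfl⟩
  | extR s => left; left; left; right; exact ⟨s, rfl⟩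
  | extL s => left; left; right; exact ⟨s, rfl⟩
  | absL y => left; right; exact ⟨y, rfl⟩
  | absR y => right; exact ⟨y, rfl⟩

/-- A word represents a configuration. -/
def Rep (C : TM0.Cfg Γ Q) (w : List (Lt Γ Q)) : Prop :=
  ∃ L R : List Γ, C.Tape = Tape.mk' (ListBlank.mk L) (ListBlank.mk R) ∧
    w = (.le :: L.reverse.map .c) ++ .q C.q :: (R.map .c ++ [.re])

/-- The tape written for a word. -/
def cs (c0 : List Γ) (l : List X) : List Γ := c0 ++ l.flatMap cl

/-- The invariant. -/
inductive Inv (c0 : List Γ) (l : List X) : List (Lt Γ Q) → Prop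
  | gen : Inv c0 l ((.le :: (cs cl c0 l).map .c) ++ .g :: [.re])
  | walk (L R : List Γ) (h : L ++ R = cs cl c0 l) :
      Inv c0 l ((.le :: L.map .c) ++ .g' :: (R.map .c ++ [.re]))
  | run (C : TM0.Cfg Γ Q) (L R : List Γ)
      (h : StateTransition.Reaches (TM0.step M) (TM0.init (cs cl c0 l)) C)
      (hC : C.Tape = Tape.mk' (ListBlank.mk L) (ListBlank.mk R)) :
      Inv c0 l ((.le :: L.reverse.map .c) ++ .q C.q :: (R.map .c ++ [.re]))
  | fin (u v : List (Lt Γ Q)) (hu : .h ∉ u) (hv : .h ∉ v)
      (hg : ∀ y ∈ u ++ v, y ≠ .g ∧ y ≠ .g' ∧ ∀ s, y ≠ .q s)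
      (h : (StateTransition.eval (TM0.step M) (TM0.init (cs cl c0 l))).Dom) :
      Inv c0 l (u ++ .h :: v)

lemma key {α : Type} {u v : List α} {hd hd' : α} {a b u' v' : List α} (hu : hd' ∉ u) (hv : hd' ∉ v)
    (h : u' ++ (a ++ hd' :: b) ++ v' = u ++ hd :: v) : u = u' ++ a ∧ hd = hd' ∧ v = b ++ v' := by
  have h1 : u ++ hd :: v = (u' ++ a) ++ hd' :: (b ++ v') := by
    rw [← h]; simp
  exact (List.append_cons_inj_of_notMem hu hv).1 h1

omit [Inhabited Γ] in
lemma cs_append (c0 : List Γ) (l : List X) (x : X) :
    cs cl c0 (l ++ [x]) = cs cl c0 l ++ cl x := by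
  simp [cs]

omit [Inhabited Γ] [Inhabited Q] in
lemma map_c_concat {u : List (Lt Γ Q)} {L : List Γ} {a : Γ}
    (h : (Lt.le :: L.map Lt.c : List (Lt Γ Q)) = u ++ [.c a]) :
    ∃ L', L = L' ++ [a] ∧ u = .le :: L'.map .c := by
  induction L using List.reverseRecOn with
  | nil =>
    exfalso
    have := congrArg List.getLast? h
    simp at this
  | append_singleton L' b _ =>
    rw [List.map_append, List.map_singleton, ← List.cons_append] at h
    have h2 := List.append_inj' h rfl
    obtain ⟨h3, h4⟩ := h2
    simp only [List.cons.injEq, Lt.c.injEq, and_true] at h4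
    exact ⟨L', by rw [h4], h3.symm⟩

omit [Inhabited Γ] [Inhabited Q] in
lemma map_le_concat {u : List (Lt Γ Q)} {L : List Γ}
    (h : (Lt.le :: L.map Lt.c : List (Lt Γ Q)) = u ++ [.le]) : L = [] ∧ u = [] := by
  induction L using List.reverseRecOn with
  | nil =>
    refine ⟨rfl, ?_⟩
    have := congrArg List.length h
    simp at this
    exact this
  | append_singleton L' b _ =>
    exfalso
    rw [List.map_append, List.map_singleton, ← List.cons_append] at h
    have h2 := (List.append_inj' h rfl).2
    simp at h2

omit [Inhabited Γ] [Inhabited Q] in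
lemma map_c_cons {v : List (Lt Γ Q)} {R : List Γ} {a : Γ}
    (h : (R.map Lt.c ++ [Lt.re] : List (Lt Γ Q)) = [.c a] ++ v) :
    ∃ R', R = a :: R' ∧ v = R'.map .c ++ [.re] := by
  cases R with
  | nil => simp at h
  | cons b R' =>
    simp only [List.map_cons, List.cons_append, List.cons.injEq, Lt.c.injEq, List.nil_append] at h
    exact ⟨R', by rw [h.1], h.2.symm⟩

variable {M cl}

/-- Soundness: the invariant is preserved. -/
theorem inv_step {c0 : List Γ} {l : List X} {W u v lhs rhs : List (Lt Γ Q)} {x : Option X}
    (hI : Inv M cl c0 l W) (hW : u ++ lhs ++ v = W) (hr : Rule M cl lhs rhs x) :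
    Inv M cl c0 (l ++ x.toList) (u ++ rhs ++ v) := by
  cases hI with
  | gen =>
    cases hr with
    | guess x =>
      obtain ⟨h1, h2, h3⟩ := key (a := []) (b := []) (by simp) (by simp) hW
      simp only [List.append_nil, List.nil_append] at h1 h3
      subst h1 h3
      have := Inv.gen (M := M) (cl := cl) (c0 := c0) (l := l ++ [x])
      rw [cs_append] at this
      simpa using this
    | switch =>
      obtain ⟨h1, h2, h3⟩ := key (a := []) (b := []) (by simp) (by simp) hW
      simp only [List.append_nil, List.nil_append] at h1 h3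
      subst h1 h3
      have := Inv.walk (M := M) (cl := cl) (c0 := c0) (l := l) (cs cl c0 l) [] (by simp)
      simpa using this
    | walk a => simpa using (key (a := [_]) (b := []) (by simp) (by simp) hW).2.1
    | start => simpa using (key (a := [_]) (b := []) (by simp) (by simp) hW).2.1
    | write s a s' b _ => simpa using (key (a := []) (b := [_]) (by simp) (by simp) hW).2.1
    | right s a s' _ => simpa using (key (a := []) (b := [_]) (by simp) (by simp) hW).2.1
    | left s a s' b _ => simpa using (key (a := [_]) (b := [_]) (by simp) (by simp) hW).2.1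
    | halt s a _ => simpa using (key (a := []) (b := [_]) (by simp) (by simp) hW).2.1
    | extR s => simpa using (key (a := []) (b := [_]) (by simp) (by simp) hW).2.1
    | extL s => simpa using (key (a := [_]) (b := []) (by simp) (by simp) hW).2.1
    | absL y => simpa using (key (a := [_]) (b := []) (by simp) (by simp) hW).2.1
    | absR y => simpa using (key (a := []) (b := [_]) (by simp) (by simp) hW).2.1
  | walk L R h =>
    cases hr with
    | guess x => simpa using (key (a := []) (b := []) (by simp) (by simp) hW).2.1
    | switch => simpa using (key (a := []) (b := []) (by simp) (by simp) hW).2.1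
    | walk a =>
      obtain ⟨h1, h2, h3⟩ := key (a := [_]) (b := []) (by simp) (by simp) hW
      simp only [List.nil_append] at h3
      subst h3
      obtain ⟨L', rfl, rfl⟩ := map_c_concat h1
      have := Inv.walk (M := M) (cl := cl) (c0 := c0) (l := l) L' (a :: R) (by simpa using h)
      simpa using this
    | start =>
      obtain ⟨h1, h2, h3⟩ := key (a := [_]) (b := []) (by simp) (by simp) hW
      simp only [List.nil_append] at h3
      subst h3
      obtain ⟨rfl, rfl⟩ := map_le_concat h1
      rw [List.nil_append] at h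
      subst h
      have := Inv.run (M := M) (cl := cl) (c0 := c0) (l := l) (TM0.init (cs cl c0 l)) []
        (cs cl c0 l) Relation.ReflTransGen.refl rfl
      simpa [TM0.init] using this
    | write s a s' b _ => simpa using (key (a := []) (b := [_]) (by simp) (by simp) hW).2.1
    | right s a s' _ => simpa using (key (a := []) (b := [_]) (by simp) (by simp) hW).2.1
    | left s a s' b _ => simpa using (key (a := [_]) (b := [_]) (by simp) (by simp) hW).2.1
    | halt s a _ => simpa using (key (a := []) (b := [_]) (by simp) (by simp) hW).2.1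
    | extR s => simpa using (key (a := []) (b := [_]) (by simp) (by simp) hW).2.1
    | extL s => simpa using (key (a := [_]) (b := []) (by simp) (by simp) hW).2.1
    | absL y => simpa using (key (a := [_]) (b := []) (by simp) (by simp) hW).2.1
    | absR y => simpa using (key (a := []) (b := [_]) (by simp) (by simp) hW).2.1
  | run C L R h hC =>
    cases hr with
    | guess x => simpa using (key (a := []) (b := []) (by simp) (by simp) hW).2.1
    | switch => simpa using (key (a := []) (b := []) (by simp) (by simp) hW).2.1
    | walk a => simpa using (key (a := [_]) (b := []) (by simp) (by simp) hW).2.1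
    | start => simpa using (key (a := [_]) (b := []) (by simp) (by simp) hW).2.1
    | write s a s' b hM =>
      obtain ⟨h1, h2, h3⟩ := key (a := []) (b := [_]) (by simp) (by simp) hW
      simp only [List.append_nil] at h1
      simp only [Lt.q.injEq] at h2
      subst h1 h2
      obtain ⟨R', rfl, rfl⟩ := map_c_cons h3
      have := Inv.run (M := M) (cl := cl) (c0 := c0) (l := l) ⟨s', C.Tape.write b⟩ L (b :: R')
        (h.tail (by
          change _ = some _
          rw [TM0.step, hC, Tape.mk'_head, ListBlank.head_mk, List.headI_cons, hM]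
          rfl)) (by
          change C.Tape.write b = _
          rw [hC, Tape.write_mk', ListBlank.tail_mk, ListBlank.cons_mk, List.tail_cons])
      simpa using this
    | right s a s' hM =>
      obtain ⟨h1, h2, h3⟩ := key (a := []) (b := [_]) (by simp) (by simp) hW
      simp only [List.append_nil] at h1
      simp only [Lt.q.injEq] at h2
      subst h1 h2
      obtain ⟨R', rfl, rfl⟩ := map_c_cons h3
      have := Inv.run (M := M) (cl := cl) (c0 := c0) (l := l) ⟨s', C.Tape.move .right⟩ (a :: L) R'
        (h.tail (by
          change _ = some _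
          rw [TM0.step, hC, Tape.mk'_head, ListBlank.head_mk, List.headI_cons, hM]
          rfl)) (by
          change C.Tape.move .right = _
          rw [hC, Tape.move_right_mk', ListBlank.tail_mk, ListBlank.cons_mk, List.tail_cons,
            ListBlank.head_mk, List.headI_cons])
      simpa using this
    | left s a s' b hM =>
      obtain ⟨h1, h2, h3⟩ := key (a := [_]) (b := [_]) (by simp) (by simp) hW
      simp only [Lt.q.injEq] at h2
      subst h2
      obtain ⟨R', rfl, rfl⟩ := map_c_cons h3
      obtain ⟨L', hL', rfl⟩ := map_c_concat h1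
      have hL : L = b :: L'.reverse := by
        rw [← List.reverse_reverse L, hL']; simp
      subst hL
      have := Inv.run (M := M) (cl := cl) (c0 := c0) (l := l) ⟨s', C.Tape.move .left⟩ L'.reverse
        (b :: a :: R')
        (h.tail (by
          change _ = some _
          rw [TM0.step, hC, Tape.mk'_head, ListBlank.head_mk, List.headI_cons, hM]
          rfl)) (by
          change C.Tape.move .left = _
          rw [hC, Tape.move_left_mk', ListBlank.tail_mk, ListBlank.cons_mk, List.tail_cons,
            ListBlank.head_mk, List.headI_cons])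
      simpa using this
    | halt s a hM =>
      obtain ⟨h1, h2, h3⟩ := key (a := []) (b := [_]) (by simp) (by simp) hW
      simp only [List.append_nil] at h1
      simp only [Lt.q.injEq] at h2
      subst h1 h2
      obtain ⟨R', rfl, rfl⟩ := map_c_cons h3
      have hd : (StateTransition.eval (TM0.step M) (TM0.init (cs cl c0 l))).Dom := by
        rw [Part.dom_iff_mem]
        refine ⟨C, StateTransition.mem_eval.2 ⟨h, ?_⟩⟩
        rw [TM0.step, hC, Tape.mk'_head, ListBlank.head_mk, List.headI_cons, hM]
        rfl
      have := Inv.fin (M := M) (cl := cl) (c0 := c0) (l := l) (.le :: L.reverse.map .c)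
        (R'.map .c ++ [.re]) (by simp) (by simp) (by
          intro y hy
          simp only [List.cons_append, List.mem_cons, List.mem_append, List.mem_map,
            List.mem_reverse, List.not_mem_nil, or_false] at hy
          rcases hy with rfl | ⟨a, _, rfl⟩ | ⟨a, _, rfl⟩ | rfl <;> simp) hd
      simpa using this
    | extR s =>
      obtain ⟨h1, h2, h3⟩ := key (a := []) (b := [_]) (by simp) (by simp) hW
      simp only [List.append_nil] at h1
      simp only [Lt.q.injEq] at h2
      subst h1 h2
      cases R with
      | cons a R => simp at h3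
      | nil =>
        simp only [List.map_nil, List.nil_append, List.cons_append, List.cons.injEq,
          true_and] at h3
        subst h3
        have := Inv.run (M := M) (cl := cl) (c0 := c0) (l := l) C L [default] h (by
          rw [hC]
          congr 1
          exact Quotient.sound' (Or.inl ⟨1, rfl⟩))
        simpa using this
    | extL s =>
      obtain ⟨h1, h2, h3⟩ := key (a := [_]) (b := []) (by simp) (by simp) hW
      simp only [List.nil_append] at h3
      simp only [Lt.q.injEq] at h2
      subst h2 h3
      obtain ⟨hL, rfl⟩ := map_le_concat h1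
      have hL' : L = [] := by simpa using hL
      subst hL'
      have := Inv.run (M := M) (cl := cl) (c0 := c0) (l := l) C [default] R h (by
          rw [hC]
          congr 1
          exact Quotient.sound' (Or.inl ⟨1, rfl⟩))
      simpa using this
    | absL y => simpa using (key (a := [_]) (b := []) (by simp) (by simp) hW).2.1
    | absR y => simpa using (key (a := []) (b := [_]) (by simp) (by simp) hW).2.1
  | fin u1 v1 hu hv hg h =>
    have hg1 : ∀ y ∈ u1, y ≠ .g ∧ y ≠ .g' ∧ ∀ s, y ≠ .q s :=
      fun y hy => hg y (List.mem_append_left _ hy)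
    have hg2 : ∀ y ∈ v1, y ≠ .g ∧ y ≠ .g' ∧ ∀ s, y ≠ .q s :=
      fun y hy => hg y (List.mem_append_right _ hy)
    have g1 : Lt.g ∉ u1 := fun h => (hg1 _ h).1 rfl
    have g2 : Lt.g ∉ v1 := fun h => (hg2 _ h).1 rfl
    have g3 : Lt.g' ∉ u1 := fun h => (hg1 _ h).2.1 rfl
    have g4 : Lt.g' ∉ v1 := fun h => (hg2 _ h).2.1 rfl
    have g5 : ∀ s, Lt.q s ∉ u1 := fun s h => (hg1 _ h).2.2 s rfl
    have g6 : ∀ s, Lt.q s ∉ v1 := fun s h => (hg2 _ h).2.2 s rfl
    cases hr with
    | guess x => simpa using (key (a := []) (b := []) g1 g2 hW).2.1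
    | switch => simpa using (key (a := []) (b := []) g1 g2 hW).2.1
    | walk a => simpa using (key (a := [_]) (b := []) g3 g4 hW).2.1
    | start => simpa using (key (a := [_]) (b := []) g3 g4 hW).2.1
    | write s a s' b _ => simpa using (key (a := []) (b := [_]) (g5 _) (g6 _) hW).2.1
    | right s a s' _ => simpa using (key (a := []) (b := [_]) (g5 _) (g6 _) hW).2.1
    | left s a s' b _ => simpa using (key (a := [_]) (b := [_]) (g5 _) (g6 _) hW).2.1
    | halt s a _ => simpa using (key (a := []) (b := [_]) (g5 _) (g6 _) hW).2.1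
    | extR s => simpa using (key (a := []) (b := [_]) (g5 _) (g6 _) hW).2.1
    | extL s => simpa using (key (a := [_]) (b := []) (g5 _) (g6 _) hW).2.1
    | absL y =>
      obtain ⟨h1, h2, h3⟩ := key (a := [_]) (b := []) hu hv hW
      simp only [List.nil_append] at h3
      subst h1 h3
      have := Inv.fin (M := M) (cl := cl) (c0 := c0) (l := l) u v1
        (fun h => hu (List.mem_append_left _ h)) hv (fun z hz => hg z (by
          rw [List.mem_append] at hz ⊢
          rcases hz with hz | hz
          · exact Or.inl (List.mem_append_left _ hz)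
          · exact Or.inr hz)) h
      simpa using this
    | absR y =>
      obtain ⟨h1, h2, h3⟩ := key (a := []) (b := [_]) hu hv hW
      simp only [List.append_nil] at h1
      subst h1 h3
      have := Inv.fin (M := M) (cl := cl) (c0 := c0) (l := l) u1 v
        hu (fun h => hv (List.mem_append_right _ h)) (fun z hz => hg z (by
          rw [List.mem_append] at hz ⊢
          rcases hz with hz | hz
          · exact Or.inl hz
          · exact Or.inr (List.mem_append_right _ hz))) h
      simpa using this

/-- Soundness. -/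
theorem sound {c0 : List Γ} {l : List X}
    (h : DR (Rule M cl) ((.le :: c0.map .c) ++ .g :: [.re]) l [.h]) :
    (StateTransition.eval (TM0.step M) (TM0.init (cs cl c0 l))).Dom := by
  have key : ∀ (l : List X) (W : List (Lt Γ Q)),
      DR (Rule M cl) ((.le :: c0.map .c) ++ .g :: [.re]) l W → Inv M cl c0 l W := by
    intro l W h
    induction h with
    | refl =>
      have := Inv.gen (M := M) (cl := cl) (c0 := c0) (l := ([] : List X))
      simpa [cs] using this
    | step _ hr ih => exact inv_step ih rfl hr
  have h1 := key l _ h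
  generalize hw : ([.h] : List (Lt Γ Q)) = w at h1
  cases h1 with
  | gen => simp at hw
  | walk => simp at hw
  | run => simp at hw
  | fin u v hu hv hg hd => exact hd

section Complete

variable {w : List (Lt Γ Q)} {l : List X}

lemma dr_gen (c0 : List Γ) (l : List X) :
    DR (Rule M cl) ((.le :: c0.map .c) ++ .g :: [.re]) l
      ((.le :: (cs cl c0 l).map .c) ++ .g :: [.re]) := by
  induction l using List.reverseRecOn with
  | nil => simpa [cs] using (DR.refl : DR (Rule M cl) _ [] _)
  | append_singleton l x ih =>
    refine ih.appx (.guess x) (.le :: (cs cl c0 l).map .c) [.re] (by simp) ?_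
    rw [cs_append]
    simp

lemma dr_walk (L R : List Γ)
    (h : DR (Rule M cl) w l ((.le :: L.map .c) ++ .g' :: (R.map .c ++ [.re]))) :
    DR (Rule M cl) w l (.le :: .q default :: ((L ++ R).map .c ++ [.re])) := by
  induction L using List.reverseRecOn generalizing R with
  | nil => exact h.app .start [] (R.map .c ++ [.re]) (by simp) (by simp)
  | append_singleton L a ih =>
    have := ih (a :: R) (h.app (.walk a) (.le :: L.map .c) (R.map .c ++ [.re]) (by simp) (by simp))
    simpa using this

lemma dr_ext {s : Q} {L R : List Γ}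
    (h : DR (Rule M cl) w l ((.le :: L.reverse.map .c) ++ .q s :: (R.map .c ++ [.re]))) :
    ∃ (a b : Γ) (L' R' : List Γ), ListBlank.mk L = ListBlank.mk (b :: L') ∧
      ListBlank.mk R = ListBlank.mk (a :: R') ∧
      DR (Rule M cl) w l ((.le :: (b :: L').reverse.map .c) ++ .q s ::
        ((a :: R').map .c ++ [.re])) := by
  have h1 : ∃ (a : Γ) (R' : List Γ), ListBlank.mk R = ListBlank.mk (a :: R') ∧
      DR (Rule M cl) w l ((.le :: L.reverse.map .c) ++ .q s :: ((a :: R').map .c ++ [.re])) := by
    cases R with
    | cons a R' => exact ⟨a, R', rfl, h⟩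
    | nil =>
      refine ⟨default, [], Quotient.sound' (Or.inl ⟨1, rfl⟩), ?_⟩
      exact h.app (.extR s) (.le :: L.reverse.map .c) [] (by simp) (by simp)
  obtain ⟨a, R', hR, h2⟩ := h1
  cases L with
  | cons b L' => exact ⟨a, b, L', R', rfl, hR, h2⟩
  | nil =>
    refine ⟨a, default, [], R', Quotient.sound' (Or.inl ⟨1, rfl⟩), hR, ?_⟩
    exact h2.app (.extL s) [] ((a :: R').map .c ++ [.re]) (by simp) (by simp)

lemma dr_step {C C' : TM0.Cfg Γ Q} {L R : List Γ} (hC' : TM0.step M C = some C')
    (hC : C.Tape = Tape.mk' (ListBlank.mk L) (ListBlank.mk R))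
    (h : DR (Rule M cl) w l ((.le :: L.reverse.map .c) ++ .q C.q :: (R.map .c ++ [.re]))) :
    ∃ L' R' : List Γ, C'.Tape = Tape.mk' (ListBlank.mk L') (ListBlank.mk R') ∧
      DR (Rule M cl) w l ((.le :: L'.reverse.map .c) ++ .q C'.q :: (R'.map .c ++ [.re])) := by
  obtain ⟨a, b, L', R', hL, hR, h1⟩ := dr_ext h
  rw [hL, hR] at hC
  rw [TM0.step, hC, Tape.mk'_head, ListBlank.head_mk, List.headI_cons, Option.map_eq_some_iff]
    at hC'
  obtain ⟨⟨s', st⟩, h2, h3⟩ := hC'
  subst h3
  cases st with
  | write c =>
    refine ⟨b :: L', c :: R', ?_, ?_⟩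
    · change Tape.write c (Tape.mk' _ _) = _
      rw [Tape.write_mk', ListBlank.tail_mk, ListBlank.cons_mk, List.tail_cons]
    · exact h1.app (.write _ _ _ _ h2) (.le :: (b :: L').reverse.map .c) (R'.map .c ++ [.re])
        (by simp) (by simp)
  | move d =>
    cases d with
    | left =>
      refine ⟨L', b :: a :: R', ?_, ?_⟩
      · change Tape.move .left (Tape.mk' _ _) = _
        rw [Tape.move_left_mk', ListBlank.tail_mk, ListBlank.cons_mk, List.tail_cons,
            ListBlank.head_mk, List.headI_cons]
      · exact h1.app (.left _ _ _ b h2) (.le :: L'.reverse.map .c) (R'.map .c ++ [.re])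
          (by simp) (by simp)
    | right =>
      refine ⟨a :: b :: L', R', ?_, ?_⟩
      · change Tape.move .right (Tape.mk' _ _) = _
        rw [Tape.move_right_mk', ListBlank.tail_mk, ListBlank.cons_mk, List.tail_cons,
            ListBlank.head_mk, List.headI_cons]
      · exact h1.app (.right _ _ _ h2) (.le :: (b :: L').reverse.map .c) (R'.map .c ++ [.re])
          (by simp) (by simp)

lemma dr_absR (v : List (Lt Γ Q)) (h : DR (Rule M cl) w l (.h :: v)) :
    DR (Rule M cl) w l [.h] := by
  induction v with
  | nil => exact h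
  | cons y v ih => exact ih (h.app (.absR y) [] v (by simp) (by simp))

lemma dr_abs (u v : List (Lt Γ Q)) (h : DR (Rule M cl) w l (u ++ .h :: v)) :
    DR (Rule M cl) w l [.h] := by
  induction u using List.reverseRecOn with
  | nil => exact dr_absR v h
  | append_singleton u y ih => exact ih (h.app (.absL y) u v (by simp) (by simp))

/-- Completeness. -/
theorem complete {c0 : List Γ}
    (h : (StateTransition.eval (TM0.step M) (TM0.init (cs cl c0 l))).Dom) :
    DR (Rule M cl) ((.le :: c0.map .c) ++ .g :: [.re]) l [.h] := by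
  rw [Part.dom_iff_mem] at h
  obtain ⟨C, hC⟩ := h
  obtain ⟨h1, h2⟩ := StateTransition.mem_eval.1 hC
  have h3 := (dr_gen (M := M) (cl := cl) c0 l).app .switch (.le :: (cs cl c0 l).map .c) [.re]
    (by simp) (w2 := (.le :: (cs cl c0 l).map .c) ++ .g' :: (([] : List Γ).map .c ++ [.re]))
    (by simp)
  have h4 := dr_walk _ _ h3
  rw [List.append_nil] at h4
  have h5 : ∀ C', StateTransition.Reaches (TM0.step M) (TM0.init (cs cl c0 l)) C' →
      ∃ L' R' : List Γ, C'.Tape = Tape.mk' (ListBlank.mk L') (ListBlank.mk R') ∧
      DR (Rule M cl) ((.le :: c0.map .c) ++ .g :: [.re]) l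
        ((.le :: L'.reverse.map .c) ++ .q C'.q :: (R'.map .c ++ [.re])) := by
    intro C' hC'
    induction hC' with
    | refl => exact ⟨[], cs cl c0 l, rfl, by simpa [TM0.init] using h4⟩
    | tail _ hs ih =>
      obtain ⟨L, R, h6, h7⟩ := ih
      exact dr_step hs h6 h7
  obtain ⟨L, R, h6, h7⟩ := h5 C h1
  obtain ⟨a, b, L', R', hL, hR, h8⟩ := dr_ext h7
  rw [hL, hR] at h6
  rw [TM0.step, h6, Tape.mk'_head, ListBlank.head_mk, List.headI_cons, Option.map_eq_none_iff]
    at h2
  exact dr_abs (.le :: (b :: L').reverse.map .c) (R'.map .c ++ [.re])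
    (h8.app (.halt _ _ h2) (.le :: (b :: L').reverse.map .c) (R'.map .c ++ [.re])
      (by simp) (by simp))

end Complete

end System

/-! ## Conclusion -/

/-- Every recursively enumerable predicate is given by a labelled semi-Thue system. -/
theorem exists_semiThue {X : Type} [Finite X] [Primcodable X] (U : ℕ → List X → Prop)
    (hU : REPred fun p : ℕ × List X => U p.1 p.2) :
    ∃ (n : ℕ) (rules : List (List (Fin n) × List (Fin n) × Option X)) (h : Fin n)
      (init : ℕ → List (Fin n)), (∀ r ∈ rules, r.1 ≠ [] ∧ r.2.1 ≠ []) ∧ Computable init ∧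
      ∀ e w, U e w ↔ Derives rules (init e) w [h] := by
  obtain ⟨f, hf, hfU⟩ := exists_fun U hU
  obtain ⟨Γ, Q, hΓ, hQ, iΓ, iQ, M, c0, cb, hM⟩ := exists_TM0 f hf
  let cl : X → List Γ := fun x => (un (Encodable.encode x)).map cb
  obtain ⟨n, E, rules, hne, hr⟩ := exists_rules (rule_finite M cl)
    (fun _ _ _ h => Rule.ne M cl h)
  let ce : ℕ → List Γ := fun e => c0 :: cb true :: (un e).map cb
  refine ⟨n, rules, E .h, fun e => List.map E ((.le :: (ce e).map .c) ++ .g :: [.re]), hne, ?_, ?_⟩
  · have h1 : Computable fun e : ℕ => ([E .le, E (.c c0), E (.c (cb true))] ++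
        (Nat.rec [] (fun _ l => E (.c (cb false)) :: l) e : List (Fin n))) ++
        [E (.c (cb true)), E .g, E .re] := by
      refine Primrec.to_comp ?_
      refine Primrec.list_append.comp (Primrec.list_append.comp (Primrec.const _) ?_)
        (Primrec.const _)
      have h0 : Primrec₂ (fun (_ : ℕ) (p : ℕ × List (Fin n)) => E (.c (cb false)) :: p.2) :=
        Primrec.list_cons.comp (Primrec.const _) (Primrec.snd.comp Primrec.snd)
      exact Primrec.nat_rec' Primrec.id (Primrec.const _) h0
    refine h1.of_eq fun e => ?_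
    have h2 : (Nat.rec [] (fun _ l => E (.c (cb false)) :: l) e : List (Fin n)) =
        List.replicate e (E (.c (cb false))) := by
      induction e with
      | zero => rfl
      | succ e ih =>
        rw [List.replicate_succ, ← ih]
    rw [h2]
    simp [ce, un]
  · intro e w
    have h1 := hr ((.le :: (ce e).map .c) ++ .g :: [.re]) w [.h]
    rw [List.map_singleton] at h1
    rw [h1]
    have h2 : cs cl (ce e) w = c0 :: cb true ::
        (((e :: w.map Encodable.encode).flatMap un).map cb) := by
      simp [cs, ce, cl, List.flatMap_map, List.map_flatMap]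
    have h3 : (StateTransition.eval (TM0.step M) (TM0.init (cs cl (ce e) w))).Dom ↔ U e w := by
      rw [← hfU, ← num_flatMap, ← hM, h2]
      rfl
    rw [← h3]
    exact ⟨complete, sound⟩

end DominoB

/-- Every recursively enumerable predicate is given by dominoes. -/
theorem exists_domino {X : Type} [Finite X] [Primcodable X] (U : ℕ → List X → Prop)
    (hU : REPred fun p : ℕ × List X => U p.1 p.2) :
    ∃ (a b : ℕ) (top bot : Fin a → List (Fin b)) (lab : Fin a → Option X)
      (pt pb : ℕ → List (Fin b)), Computable pt ∧ Computable pb ∧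
      ∀ e w, U e w ↔ ∃ t : List (Fin a), t.filterMap lab = w ∧
        pt e ++ t.flatMap top = pb e ++ t.flatMap bot := by
  obtain ⟨n, rules, h, init, hne, hinit, hU2⟩ := DominoB.exists_semiThue U hU
  obtain ⟨a, b, top, bot, lab, pt, pb, h1, h2, h3⟩ := domino_of_derives n rules hne h init hinit
  exact ⟨a, b, top, bot, lab, pt, pb, h1, h2, fun e w => (hU2 e w).trans (h3 e w)⟩

end Pool.Agent.BH
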