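import Pool.Agent.BH.Words

set_option autoImplicit false

/-!
# Module G1: the fixed point
-/

namespace Pool.Agent.BH

open FreeGroup

namespace FixPt

section Mk

variable {J B Hg : Type}

lemma inclX_mk (l : List (XG × Bool)) :
    (inclX (FreeGroup.mk l) : FreeGroup (Gen J B Hg)) = FreeGroup.mk (xW l) := by
  rw [inclX, FreeGroup.lift_mk]
  induction l with
  | nil => rfl
  | cons p l ih =>
    rw [List.map_cons, List.prod_cons, ih]
    rcases p with ⟨x, _ | _⟩
    · rfl
    · rfl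

lemma phiX_mk (l : List (XG × Bool)) :
    (phiX (FreeGroup.mk l) : FreeGroup (Gen J B Hg)) = FreeGroup.mk (qW l) := by
  rw [phiX, FreeGroup.lift_mk]
  induction l with
  | nil => rfl
  | cons p l ih =>
    rw [List.map_cons, List.prod_cons, ih]
    rcases p with ⟨x, _ | _⟩
    · rfl
    · rfl

lemma homH_mk (l : List (Hg × Bool)) :
    (homH (FreeGroup.mk l) : FreeGroup (Gen J B Hg)) = FreeGroup.mk (hW l) := by
  rw [homH, FreeGroup.lift_mk]
  induction l with
  | nil => rfl
  | cons p l ih =>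
    rw [List.map_cons, List.prod_cons, ih]
    rcases p with ⟨x, _ | _⟩
    · rfl
    · rfl

variable {S : Sys J B Hg} {pt pb : List B} {HN : Set (FreeGroup Hg)}

lemma ker_mono {N M : Set (FreeGroup XG)} (h : N ⊆ M) : S.ker pt pb HN N ≤ S.ker pt pb HN M := by
  apply Subgroup.normalClosure_mono
  intro x hx
  cases hx with
  | a w h' => exact Sys.Rl.a w h'
  | u u w h' => exact Sys.Rl.u u w h'
  | h x h' => exact Sys.Rl.h x h'
  | q x h' => exact Sys.Rl.q x (h h')

lemma rel_mem {HT : Set (List (Hg × Bool))} {QT : Set (List (XG × Bool))}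
    {M : Set (FreeGroup XG)} (hHT : ∀ l ∈ HT, FreeGroup.mk l ∈ HN)
    (hQT : ∀ l ∈ QT, FreeGroup.mk l ∈ M) {ρ : W J B Hg} (h : S.Rel pt pb HT QT ρ) :
    FreeGroup.mk ρ ∈ S.ker pt pb HN M := by
  cases h with
  | free x ε =>
    have : FreeGroup.mk [(x, ε), (x, !ε)] = (1 : FreeGroup (Gen J B Hg)) := by
      have h1 : FreeGroup.mk ([] ++ (x, ε) :: (x, !ε) :: []) = FreeGroup.mk ([] ++ []) :=
        Quot.sound (Red.Step.not (L₁ := []) (L₂ := []) (x := x) (b := ε))
      exact h1
    rw [this]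
    exact one_mem _
  | a _ h => exact Subgroup.subset_normalClosure (Sys.Rl.a _ h)
  | u u _ h => exact Subgroup.subset_normalClosure (Sys.Rl.u u _ h)
  | h l h =>
    rw [← homH_mk]
    exact Subgroup.subset_normalClosure (Sys.Rl.h _ (hHT l h))
  | q l h =>
    rw [← phiX_mk]
    exact Subgroup.subset_normalClosure (Sys.Rl.q _ (hQT l h))

lemma step_sound {HT : Set (List (Hg × Bool))} {QT : Set (List (XG × Bool))}
    {M : Set (FreeGroup XG)} (hHT : ∀ l ∈ HT, FreeGroup.mk l ∈ HN)
    (hQT : ∀ l ∈ QT, FreeGroup.mk l ∈ M) {A : ℕ} {w w' : W J B Hg}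
    (h : Step (S.Rel pt pb HT QT) A w w') :
    FreeGroup.mk w ∈ S.ker pt pb HN M ↔ FreeGroup.mk w' ∈ S.ker pt pb HN M := by
  have key : ∀ u ρ v : W J B Hg, S.Rel pt pb HT QT ρ →
      (FreeGroup.mk (u ++ v) ∈ S.ker pt pb HN M ↔
        FreeGroup.mk (u ++ ρ ++ v) ∈ S.ker pt pb HN M) := by
    intro u ρ v hρ
    have h1 := rel_mem (S := S) (pt := pt) (pb := pb) hHT hQT hρ
    have h2 : FreeGroup.mk (u ++ ρ ++ v) =
        (FreeGroup.mk u * FreeGroup.mk ρ * (FreeGroup.mk u)⁻¹) * FreeGroup.mk (u ++ v) := by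
      simp only [← FreeGroup.mul_mk]
      group
    rw [h2]
    exact (Subgroup.mul_mem_cancel_left _
      ((ker_normal S pt pb HN M).conj_mem _ h1 _)).symm
  obtain ⟨-, -, u, ρ, v, hρ, ⟨rfl, rfl⟩ | ⟨rfl, rfl⟩⟩ := h
  · exact key u ρ v hρ
  · exact (key u ρ v hρ).symm

lemma der_sound {HT : Set (List (Hg × Bool))} {QT : Set (List (XG × Bool))}
    {M : Set (FreeGroup XG)} (hHT : ∀ l ∈ HT, FreeGroup.mk l ∈ HN)
    (hQT : ∀ l ∈ QT, FreeGroup.mk l ∈ M) {A : ℕ} {w w' : W J B Hg}
    (h : Der (S.Rel pt pb HT QT) A w w') :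
    FreeGroup.mk w ∈ S.ker pt pb HN M ↔ FreeGroup.mk w' ∈ S.ker pt pb HN M := by
  induction h with
  | refl => exact Iff.rfl
  | tail _ h2 ih => exact ih.trans (step_sound hHT hQT h2)

lemma xW_append (u v : List (XG × Bool)) : (xW (u ++ v) : W J B Hg) = xW u ++ xW v := by
  simp [xW]

/-- Free cancellations are derivations. -/
lemma der_of_red {HT : Set (List (Hg × Bool))} {QT : Set (List (XG × Bool))} {A : ℕ}
    {w w' : List (XG × Bool)} (h : FreeGroup.Red w w') (hA : w.length ≤ A) :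
    Der (S.Rel pt pb HT QT) A (xW w) (xW w') := by
  induction h with
  | refl => exact Relation.ReflTransGen.refl
  | @tail b c hb hc ih =>
    refine ih.tail ?_
    have hbl : b.length ≤ w.length := FreeGroup.Red.length_le hb
    obtain ⟨⟩ := hc
    rename_i L₁ L₂ x ε
    have hbl' : (L₁ ++ L₂).length ≤ A := by
      simp only [List.length_append, List.length_cons] at hbl ⊢
      omega
    refine ⟨by simpa [xW] using hbl.trans hA, by simpa [xW] using hbl', xW L₁,
      [(xg x, ε), (xg x, !ε)], xW L₂, Sys.Rel.free _ _, Or.inr ⟨xW_append _ _, ?_⟩⟩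
    rw [xW_append]
    simp [xW]

end Mk

/-- The approximations of the fixed point. -/
def Nk {J B Hg : Type} (S : Sys J B Hg) (pt pb : List B) (HN : Set (FreeGroup Hg)) :
    ℕ → Subgroup (FreeGroup XG)
  | 0 => ⊥
  | n + 1 => (S.ker pt pb HN (Nk S pt pb HN n : Set (FreeGroup XG))).comap inclX

section Nk

variable {J B Hg : Type} {S : Sys J B Hg} {pt pb : List B} {HN : Set (FreeGroup Hg)}

instance Nk_normal (n : ℕ) : (Nk S pt pb HN n).Normal := by
  rcases n with _ | n
  · exact Subgroup.normal_bot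
  · exact Subgroup.Normal.comap (ker_normal S pt pb HN _) _

lemma Nk_mono : Monotone (Nk S pt pb HN) := by
  apply monotone_nat_of_le_succ
  intro n
  induction n with
  | zero => exact bot_le
  | succ n ih => exact Subgroup.comap_mono (ker_mono ih)

lemma mem_sup {x : FreeGroup XG} : x ∈ ⨆ n, Nk S pt pb HN n ↔ ∃ n, x ∈ Nk S pt pb HN n :=
  Subgroup.mem_iSup_of_directed Nk_mono.directed_le

instance sup_normal : (⨆ n, Nk S pt pb HN n).Normal := by
  constructor
  intro x hx g
  rw [mem_sup] at hx ⊢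
  obtain ⟨n, hn⟩ := hx
  exact ⟨n, (Nk_normal n).conj_mem x hn g⟩

lemma ker_sup {x : FreeGroup (Gen J B Hg)}
    (hx : x ∈ S.ker pt pb HN ((⨆ n, Nk S pt pb HN n : Subgroup _) : Set (FreeGroup XG))) :
    ∃ n, x ∈ S.ker pt pb HN (Nk S pt pb HN n : Set (FreeGroup XG)) := by
  have hmono : Monotone fun n => S.ker pt pb HN (Nk S pt pb HN n : Set (FreeGroup XG)) := by
    intro m n hmn
    exact ker_mono (Nk_mono hmn)
  have hn : (⨆ n, S.ker pt pb HN (Nk S pt pb HN n : Set (FreeGroup XG))).Normal := by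
    constructor
    intro y hy g
    rw [Subgroup.mem_iSup_of_directed hmono.directed_le] at hy ⊢
    obtain ⟨n, hn⟩ := hy
    exact ⟨n, (ker_normal S pt pb HN _).conj_mem y hn g⟩
  have hle : S.ker pt pb HN ((⨆ n, Nk S pt pb HN n : Subgroup _) : Set (FreeGroup XG)) ≤
      ⨆ n, S.ker pt pb HN (Nk S pt pb HN n : Set (FreeGroup XG)) := by
    apply Subgroup.normalClosure_le_normal
    intro y hy
    change y ∈ ⨆ n, S.ker pt pb HN (Nk S pt pb HN n : Set (FreeGroup XG))
    rw [Subgroup.mem_iSup_of_directed hmono.directed_le]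
    cases hy with
    | a w h' => exact ⟨0, Subgroup.subset_normalClosure (Sys.Rl.a w h')⟩
    | u u w h' => exact ⟨0, Subgroup.subset_normalClosure (Sys.Rl.u u w h')⟩
    | h x h' => exact ⟨0, Subgroup.subset_normalClosure (Sys.Rl.h x h')⟩
    | q x h' =>
      obtain ⟨n, hn'⟩ := mem_sup.1 h'
      exact ⟨n, Subgroup.subset_normalClosure (Sys.Rl.q x hn')⟩
  exact (Subgroup.mem_iSup_of_directed hmono.directed_le).1 (hle hx)

end Nk

end FixPt

open FixPt in
/-- Module G1, from the statements of `exists_truth` and `complete`. -/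
theorem exists_fix_of {k : ℕ} {H : Type} [Group H] (hH : FreeGroup (Fin k) →* H)
    (htruth : ∀ cc : (∀ a b, Sys (Fin a) (Fin b) (Fin k) → ℕ),
      ∃ (a b : ℕ) (S : Sys (Fin a) (Fin b) (Fin k)) (pt pb : List (Fin b))
        (L : List (XG × Bool) → Prop),
        (∀ w, L w ↔ ∃ t, S.labs t = w ∧ S.Match pt pb t) ∧
        (∀ w, ¬ L w ↔ Der (S.Rel pt pb {l | hH (FreeGroup.mk l) = 1}
            {w' | w'.length < w.length ∧ ¬ L w'})
          ((cc a b S + w.length + pt.length + pb.length) ^ 12) (xW w) []))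
    (hcomplete : ∀ (a b : ℕ) (S : Sys (Fin a) (Fin b) (Fin k)),
      ∃ c : ℕ, ∀ (pt pb : List (Fin b)) (N : Subgroup (FreeGroup XG)) [N.Normal],
        (∀ t, FreeGroup.mk (S.labs t) ∈ N → ¬ S.Match pt pb t) →
        ∀ (QT : Set (List (XG × Bool))) (w : List (XG × Bool)),
          (∀ w', w'.length < w.length → FreeGroup.mk w' ∈ N → w' ∈ QT) →
          inclX (FreeGroup.mk w) ∈ S.ker pt pb hH.ker N →
          Der (S.Rel pt pb {l | hH (FreeGroup.mk l) = 1} QT)
            ((c + w.length + pt.length + pb.length) ^ 12) (xW w) []) :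
    ∃ (a b : ℕ) (S : Sys (Fin a) (Fin b) (Fin k)) (pt pb : List (Fin b))
      (N : Subgroup (FreeGroup XG)) (_ : N.Normal), Fix S hH pt pb N := by
  choose c hc using hcomplete
  obtain ⟨a, b, S, pt, pb, L, hL, hD⟩ := htruth c
  -- the words of the approximations are not accepted
  have claim : ∀ n w, FreeGroup.mk w ∈ Nk S pt pb hH.ker n → ¬ L w := by
    intro n
    induction n with
    | zero =>
      intro w hw
      rw [hD]
      have h1 : FreeGroup.mk w = FreeGroup.mk ([] : List (XG × Bool)) := by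
        have : FreeGroup.mk w ∈ (⊥ : Subgroup (FreeGroup XG)) := hw
        rw [Subgroup.mem_bot] at this
        exact this
      have h2 : FreeGroup.Red w [] := by
        obtain ⟨z, hz1, hz2⟩ := FreeGroup.Red.exact.1 h1
        rw [FreeGroup.Red.nil_iff] at hz2
        rw [← hz2]
        exact hz1
      refine der_of_red h2 ?_
      calc w.length ≤ c a b S + w.length + pt.length + pb.length := by omega
        _ ≤ _ := Nat.le_self_pow (by norm_num) _
    | succ n ih =>
      intro w hw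
      rw [hD]
      refine hc a b S pt pb (Nk S pt pb hH.ker n) ?_ _ w ?_ ?_
      · intro t ht hM
        exact ih _ ht ((hL _).2 ⟨t, rfl, hM⟩)
      · intro w' hw' hw''
        exact ⟨hw', ih _ hw''⟩
      · exact hw
  have conv : ∀ M : Subgroup (FreeGroup XG), M.Normal →
      (∀ x, inclX x ∈ S.ker pt pb hH.ker M → x ∈ M) → ∀ (m : ℕ) (w : List (XG × Bool)),
        w.length ≤ m → ¬ L w → FreeGroup.mk w ∈ M := by
    intro M _ hM m
    induction m with
    | zero =>
      intro w hw _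
      have : w = [] := List.length_eq_zero_iff.1 (by omega)
      subst this
      exact one_mem _
    | succ m ih =>
      intro w hw hLw
      have h1 := (hD w).1 hLw
      apply hM
      rw [inclX_mk]
      rw [der_sound (HN := hH.ker) (M := (M : Set (FreeGroup XG))) ?_ ?_ h1]
      · exact one_mem _
      · intro l hl
        exact hl
      · rintro l ⟨hl1, hl2⟩
        exact ih l (by omega) hl2
  have hfix : ∀ x, inclX x ∈ S.ker pt pb hH.ker
      ((⨆ n, Nk S pt pb hH.ker n : Subgroup _) : Set (FreeGroup XG)) →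
      x ∈ ⨆ n, Nk S pt pb hH.ker n := by
    intro x hx
    obtain ⟨n, hn⟩ := ker_sup hx
    exact mem_sup.2 ⟨n + 1, hn⟩
  refine ⟨a, b, S, pt, pb, ⨆ n, Nk S pt pb hH.ker n, sup_normal, ?_⟩
  constructor
  · intro t ht hM
    obtain ⟨n, hn⟩ := mem_sup.1 ht
    exact claim n _ hn ((hL _).2 ⟨t, rfl, hM⟩)
  · intro x
    refine ⟨hfix x, fun hx => ?_⟩
    obtain ⟨n, hn⟩ := mem_sup.1 hx
    have h1 : x ∈ Nk S pt pb hH.ker (n + 1) := Nk_mono (Nat.le_succ n) hn
    exact ker_mono (fun y hy => mem_sup.2 ⟨n, hy⟩) h1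
  · intro x hx
    by_contra hcon
    apply hx
    have h1 : ¬ L x.toWord := by
      intro hLx
      obtain ⟨t, ht1, ht2⟩ := (hL _).1 hLx
      exact hcon ⟨t, ht2, by rw [ht1, FreeGroup.mk_toWord]⟩
    have h2 := conv _ sup_normal hfix _ _ le_rfl h1
    rwa [FreeGroup.mk_toWord] at h2
  · intro M _ hM x hx
    obtain ⟨n, hn⟩ := mem_sup.1 hx
    induction n generalizing x with
    | zero =>
      have : x ∈ (⊥ : Subgroup (FreeGroup XG)) := hn
      rw [Subgroup.mem_bot] at this
      rw [this]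
      exact one_mem _
    | succ n ih =>
      apply hM
      exact ker_mono (fun y hy => ih (mem_sup.2 ⟨n, hy⟩) hy) hn

end Pool.Agent.BH
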