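import Pool.Agent.BH.Words

set_option autoImplicit false

/-!
# Modules G2 and G3: invariance and the closure property (perfect families)
-/

namespace Pool.Agent.BH

namespace G3

/-! ### Words without the letter `e` -/

section WordsNE

lemma mk_append {α : Type} (u v : List (α × Bool)) :
    FreeGroup.mk (u ++ v) = FreeGroup.mk u * FreeGroup.mk v := FreeGroup.mul_mk.symm

lemma mk_inv {α : Type} (u : List (α × Bool)) :
    FreeGroup.mk (inv u) = (FreeGroup.mk u)⁻¹ := FreeGroup.inv_mk.symm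

lemma mk_cj {α : Type} (p x : List (α × Bool)) :
    FreeGroup.mk (cj p x) = FreeGroup.mk p * FreeGroup.mk x * (FreeGroup.mk p)⁻¹ := by
  rw [cj, mk_append, mk_append, mk_inv]

lemma mk_cm {α : Type} (x y : List (α × Bool)) :
    FreeGroup.mk (cm x y) = FreeGroup.mk x * FreeGroup.mk y * (FreeGroup.mk x)⁻¹ *
      (FreeGroup.mk y)⁻¹ := by
  rw [cm, mk_append, mk_append, mk_append, mk_inv, mk_inv]

lemma mk_true {α : Type} (x : α) : FreeGroup.mk [(x, true)] = FreeGroup.of x := rfl

lemma mk_false {α : Type} (x : α) : FreeGroup.mk [(x, false)] = (FreeGroup.of x)⁻¹ := rfl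

variable {J B Hg : Type}

/-- The word does not contain the letter `e`. -/
def NE (w : W J B Hg) : Prop := ∀ p ∈ w, p.1 ≠ Gen.k KG.e

lemma NE.nil : NE ([] : W J B Hg) := by
  intro p hp
  simp at hp

lemma NE.append {u v : W J B Hg} (hu : NE u) (hv : NE v) : NE (u ++ v) := by
  intro p hp
  rcases List.mem_append.1 hp with h | h
  · exact hu p h
  · exact hv p h

lemma NE.inv {u : W J B Hg} (hu : NE u) : NE (inv u) := by
  intro p hp
  unfold Pool.Agent.BH.inv FreeGroup.invRev at hp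
  rw [List.mem_reverse, List.mem_map] at hp
  obtain ⟨q, hq, rfl⟩ := hp
  exact hu q hq

lemma NE.cj {u v : W J B Hg} (hu : NE u) (hv : NE v) : NE (cj u v) :=
  (hu.append hv).append hu.inv

lemma NE.cm {u v : W J B Hg} (hu : NE u) (hv : NE v) : NE (cm u v) :=
  ((hu.append hv).append hu.inv).append hv.inv

lemma NE.single {x : Gen J B Hg} (ε : Bool) (h : x ≠ Gen.k KG.e) : NE [(x, ε)] := by
  intro p hp
  rw [List.mem_singleton] at hp
  subst hp
  exact h

lemma NE.cons {x : Gen J B Hg} {ε : Bool} {w : W J B Hg} (h : x ≠ Gen.k KG.e) (hw : NE w) :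
    NE ((x, ε) :: w) := by
  have : ((x, ε) :: w) = [(x, ε)] ++ w := rfl
  rw [this]
  exact (NE.single ε h).append hw

lemma NE.xW {l : List (XG × Bool)} (h : ∀ p ∈ l, p.1 ≠ XG.e) : NE (xW l : W J B Hg) := by
  intro p hp
  unfold Pool.Agent.BH.xW at hp
  rw [List.mem_map] at hp
  obtain ⟨q, hq, rfl⟩ := hp
  have := h q hq
  rcases q with ⟨x, ε⟩
  cases x <;> simp_all [xg]

lemma gX_ne (k : ℕ) : ∀ p ∈ gX k, p.1 ≠ XG.e := by
  intro p hp
  unfold gX at hp
  rw [List.mem_flatten] at hp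
  obtain ⟨l, hl, hp⟩ := hp
  rw [List.mem_replicate] at hl
  rw [hl.2] at hp
  simp only [List.mem_cons, List.not_mem_nil, or_false] at hp
  rcases hp with rfl | rfl <;> simp

lemma inv_ne {l : List (XG × Bool)} (h : ∀ p ∈ l, p.1 ≠ XG.e) : ∀ p ∈ inv l, p.1 ≠ XG.e := by
  intro p hp
  unfold Pool.Agent.BH.inv FreeGroup.invRev at hp
  rw [List.mem_reverse, List.mem_map] at hp
  obtain ⟨q, hq, rfl⟩ := hp
  exact h q hq

lemma append_ne {l l' : List (XG × Bool)} (h : ∀ p ∈ l, p.1 ≠ XG.e) (h' : ∀ p ∈ l', p.1 ≠ XG.e) :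
    ∀ p ∈ l ++ l', p.1 ≠ XG.e := by
  intro p hp
  rcases List.mem_append.1 hp with hp | hp
  · exact h p hp
  · exact h' p hp

lemma bX_ne (i : ℕ) : ∀ p ∈ bX i, p.1 ≠ XG.e := by
  intro p hp
  unfold bX at hp
  rw [List.mem_flatMap] at hp
  obtain ⟨j, -, hp⟩ := hp
  have hz : ∀ ε : Bool, ∀ p ∈ [(XG.z ζ0, ε)], p.1 ≠ XG.e := by
    intro ε p hp
    simp only [List.mem_cons, List.not_mem_nil, or_false] at hp
    subst hp
    simp
  have hcj : ∀ k ε, ∀ p ∈ cj (gX k) [(XG.z ζ0, ε)], p.1 ≠ XG.e := fun k ε =>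
    append_ne (append_ne (gX_ne k) (hz ε)) (inv_ne (gX_ne k))
  exact append_ne (hcj _ _) (hcj _ _) p hp

lemma NE.gX (k : ℕ) : NE (Pool.Agent.BH.xW (gX k) : W J B Hg) := NE.xW (gX_ne k)

lemma NE.bX (k : ℕ) : NE (Pool.Agent.BH.xW (bX k) : W J B Hg) := NE.xW (bX_ne k)

lemma NE.qW (l : List (XG × Bool)) : NE (qW l : W J B Hg) := by
  intro p hp
  unfold Pool.Agent.BH.qW at hp
  rw [List.mem_map] at hp
  obtain ⟨q, hq, rfl⟩ := hp
  simp

lemma NE.hW (l : List (Hg × Bool)) : NE (hW l : W J B Hg) := by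
  intro p hp
  unfold Pool.Agent.BH.hW at hp
  rw [List.mem_map] at hp
  obtain ⟨q, hq, rfl⟩ := hp
  simp

lemma NE.bW (l : List B) : NE (bW l : W J B Hg) := by
  intro p hp
  unfold Pool.Agent.BH.bW at hp
  rw [List.mem_map] at hp
  obtain ⟨q, hq, rfl⟩ := hp
  simp

lemma NE.sW (l : List (Option J)) : NE (sW l : W J B Hg) := by
  intro p hp
  unfold Pool.Agent.BH.sW at hp
  rw [List.mem_map] at hp
  obtain ⟨q, hq, rfl⟩ := hp
  simp

lemma NE.rW : NE (rW : W J B Hg) := NE.single true (by simp)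

lemma NE.aW (S : Sys J B Hg) (j : J) : NE (S.aW j) := (NE.qW _).append (NE.bW _)

lemma NE.cW (S : Sys J B Hg) (j : J) : NE (S.cW j) := NE.bW _

lemma sW_append (u v : List (Option J)) : (sW (u ++ v) : W J B Hg) = sW u ++ sW v := by
  unfold sW
  rw [List.map_append]

/-! ### The endomorphisms `kap` on words -/

lemma kap_of_ne {x : Gen J B Hg} (h : x ≠ Gen.k KG.e) (σ : Option J) :
    kap σ (FreeGroup.of x) = FreeGroup.of x := by
  unfold kap
  rw [FreeGroup.lift_apply_of]
  rcases x with a | a | κ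
  · rfl
  · rfl
  · rcases κ with _ | _ | _ | n
    · exact absurd rfl h
    · rfl
    · rfl
    · rfl

lemma kap_e (σ : Option J) :
    kap σ (FreeGroup.of (Gen.k KG.e) : FreeGroup (Gen J B Hg)) =
      FreeGroup.of (.k (.y (.s σ))) * FreeGroup.of (.k .e) * (FreeGroup.of (.k (.y (.s σ))))⁻¹ := by
  unfold kap
  rw [FreeGroup.lift_apply_of]

lemma kap_NE {w : W J B Hg} (hw : NE w) (σ : Option J) :
    kap σ (FreeGroup.mk w) = FreeGroup.mk w := by
  induction w with
  | nil => exact map_one _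
  | cons p w ih =>
    have hp : p.1 ≠ Gen.k KG.e := hw p (by simp)
    have hw' : NE w := fun q hq => hw q (by simp [hq])
    have e1 : FreeGroup.mk (p :: w) = FreeGroup.mk [p] * FreeGroup.mk w := by
      rw [FreeGroup.mul_mk]; rfl
    rw [e1, map_mul, ih hw']
    congr 1
    rcases p with ⟨x, ε⟩
    cases ε
    · rw [mk_false, map_inv, kap_of_ne hp]
    · rw [mk_true, kap_of_ne hp]

lemma kap_single_e (σ : Option J) (ε : Bool) :
    kap σ (FreeGroup.mk [((Gen.k KG.e : Gen J B Hg), ε)]) =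
      FreeGroup.mk (sW [σ]) * FreeGroup.mk [(Gen.k KG.e, ε)] * (FreeGroup.mk (sW [σ]))⁻¹ := by
  have hs : FreeGroup.mk (sW [σ] : W J B Hg) = FreeGroup.of (.k (.y (.s σ))) := rfl
  rw [hs]
  cases ε
  · rw [mk_false, map_inv, kap_e]
    group
  · rw [mk_true, kap_e]

lemma kap_eW {h : W J B Hg} (hh : NE h) (σ : Option J) (ε : Bool) :
    kap σ (FreeGroup.mk (eW h ε)) = FreeGroup.mk (eW (h ++ sW [σ]) ε) := by
  unfold eW
  rw [mk_cj, mk_cj, map_mul, map_mul, map_inv, kap_NE hh, kap_single_e, mk_append]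
  group

end WordsNE

/-! ### Relators and the context endomorphisms -/

section Rel

variable {J B Hg : Type} {S : Sys J B Hg} {pt pb : List B}

lemma kap_mW (u : List (Option J)) (σ : Option J) :
    kap σ (FreeGroup.mk (mW pt pb u : W J B Hg)) = FreeGroup.mk (mW pt pb (u ++ [σ])) := by
  unfold mW
  rw [mk_append, mk_append, map_mul, kap_eW (((NE.bW _).append NE.rW).append (NE.sW _)),
    kap_eW ((NE.bW _).append (NE.sW _)), sW_append]
  simp only [List.append_assoc]

lemma kap_thM (u : List (Option J)) (i : Fin 5) (a : A5) (σ : Option J) :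
    kap σ (FreeGroup.mk (thM pt pb u i a : W J B Hg)) =
      FreeGroup.mk (thM pt pb (u ++ [σ]) i a) := by
  unfold thM
  rw [mk_cj, mk_cj, map_mul, map_mul, map_inv, mk_append, mk_append, map_mul, kap_mW,
    kap_NE (NE.gX _), kap_NE (NE.single _ (by simp))]

lemma NE.thD (i : Fin 5) (a : A5) : NE (thD i a : W J B Hg) :=
  (NE.gX _).cj (NE.single _ (by simp))

lemma NE.thC (n : YG J B Hg) (i : Fin 5) : NE (S.thC n i) := by
  unfold Sys.thC
  split_ifs
  · exact (NE.bX _).append (NE.single _ (by simp))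
  · exact (NE.gX _).cj (NE.bX _)

lemma NE.permW {x : Fin 5 → W J B Hg} (h : ∀ i, NE (x i)) (τ : A5) (i : Fin 5) :
    NE (permW x τ i) :=
  ((NE.single _ (by simp)).cj (h i)).append (h _).inv

lemma mk_permW (x : Fin 5 → W J B Hg) (τ : A5) (i : Fin 5) :
    FreeGroup.mk (permW x τ i) = FreeGroup.of (Gen.t τ) * FreeGroup.mk (x i) *
      (FreeGroup.of (Gen.t τ))⁻¹ * (FreeGroup.mk (x (τ.1 i)))⁻¹ := by
  unfold permW
  rw [mk_append, mk_cj, mk_inv, mk_true]

lemma kap_r1 (u : List (Option J)) (σ : Option J) (j : J) (ε : Bool) (a : A5) :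
    kap σ (FreeGroup.mk (cm [(.z a, true)]
      (eW (sW (some j :: u)) ε ++ eW (S.aW j ++ sW u) !ε))) =
    FreeGroup.mk (cm [(.z a, true)]
      (eW (sW (some j :: (u ++ [σ]))) ε ++ eW (S.aW j ++ sW (u ++ [σ])) !ε)) := by
  rw [mk_cm, mk_cm, map_mul, map_mul, map_mul, map_inv, map_inv, mk_append, mk_append, map_mul,
    kap_NE (NE.single _ (by simp)), kap_eW (NE.sW _), kap_eW ((NE.aW S j).append (NE.sW _)),
    sW_append]
  simp only [List.append_assoc, ← sW_append, List.cons_append]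

lemma kap_r2 (u : List (Option J)) (σ : Option J) (j : J) (ε : Bool) (a : A5) :
    kap σ (FreeGroup.mk (cm [(.z a, true)]
      (eW (rW ++ sW (some j :: u)) ε ++ eW (S.cW j ++ rW ++ sW u) !ε))) =
    FreeGroup.mk (cm [(.z a, true)]
      (eW (rW ++ sW (some j :: (u ++ [σ]))) ε ++ eW (S.cW j ++ rW ++ sW (u ++ [σ])) !ε)) := by
  rw [mk_cm, mk_cm, map_mul, map_mul, map_mul, map_inv, map_inv, mk_append, mk_append, map_mul,
    kap_NE (NE.single _ (by simp)), kap_eW (NE.rW.append (NE.sW _)),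
    kap_eW (((NE.cW S j).append NE.rW).append (NE.sW _))]
  simp only [List.append_assoc, ← sW_append, List.cons_append]

lemma kap_r3 (u : List (Option J)) (σ : Option J) (ε : Bool) (a : A5) :
    kap σ (FreeGroup.mk (cm [(.z a, true)]
      (eW (rW ++ sW (none :: u)) ε ++ eW (sW (none :: u)) !ε)) : FreeGroup (Gen J B Hg)) =
    FreeGroup.mk (cm [(.z a, true)]
      (eW (rW ++ sW (none :: (u ++ [σ]))) ε ++ eW (sW (none :: (u ++ [σ]))) !ε)) := by
  rw [mk_cm, mk_cm, map_mul, map_mul, map_mul, map_inv, map_inv, mk_append, mk_append, map_mul,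
    kap_NE (NE.single _ (by simp)), kap_eW (NE.rW.append (NE.sW _)), kap_eW (NE.sW _)]
  simp only [List.append_assoc, ← sW_append, List.cons_append]

lemma kap_m (u : List (Option J)) (σ : Option J) (τ : A5) (i : Fin 5) (a : A5) :
    kap σ (FreeGroup.mk (permW (fun i => thM pt pb u i a) τ i) : FreeGroup (Gen J B Hg)) =
    FreeGroup.mk (permW (fun i => thM pt pb (u ++ [σ]) i a) τ i) := by
  rw [mk_permW, mk_permW, map_mul, map_mul, map_mul, map_inv, map_inv, kap_thM, kap_thM,
    kap_of_ne (by simp)]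

/-- The relators with context: the context grows under `kap`. -/
lemma RelU.kap {u : List (Option J)} {w : W J B Hg} (h : S.RelU pt pb u w) (σ : Option J) :
    ∃ w', S.RelU pt pb (u ++ [σ]) w' ∧ kap σ (FreeGroup.mk w) = FreeGroup.mk w' := by
  rcases h with ⟨j, ε, a⟩ | ⟨j, ε, a⟩ | ⟨ε, a⟩ | ⟨τ, i, a⟩
  · exact ⟨_, Sys.RelU.r1 j ε a, kap_r1 u σ j ε a⟩
  · exact ⟨_, Sys.RelU.r2 j ε a, kap_r2 u σ j ε a⟩
  · exact ⟨_, Sys.RelU.r3 ε a, kap_r3 u σ ε a⟩
  · exact ⟨_, Sys.RelU.m τ i a, kap_m u σ τ i a⟩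

/-- The relators with a longer context come from the relators with a shorter one. -/
lemma RelU.of_append {u : List (Option J)} {σ : Option J} {w : W J B Hg}
    (h : S.RelU pt pb (u ++ [σ]) w) :
    ∃ w', S.RelU pt pb u w' ∧ FreeGroup.mk w = BH.kap σ (FreeGroup.mk w') := by
  rcases h with ⟨j, ε, a⟩ | ⟨j, ε, a⟩ | ⟨ε, a⟩ | ⟨τ, i, a⟩
  · exact ⟨_, Sys.RelU.r1 j ε a, (kap_r1 u σ j ε a).symm⟩
  · exact ⟨_, Sys.RelU.r2 j ε a, (kap_r2 u σ j ε a).symm⟩
  · exact ⟨_, Sys.RelU.r3 ε a, (kap_r3 u σ ε a).symm⟩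
  · exact ⟨_, Sys.RelU.m τ i a, (kap_m u σ τ i a).symm⟩

/-- The relators without context: either they do not contain `e`, or they are one of two. -/
lemma RelA.cases {w : W J B Hg} (h : S.RelA w) : NE w ∨
    w = [(.k .e, true), (.k .e, true), (.k .e, true)] ∨
    w = cj [(.k (.y .c), true)] [(.k .e, true)] ++ [(.k .e, true)] := by
  rcases h with ⟨a, b⟩ | ⟨a, b⟩ | _ | _ | _ | _ | ⟨x, β⟩ | ⟨n⟩ | _ | _ | _ | ⟨a, x⟩ | ⟨a, β⟩ |
    ⟨τ, i, a⟩ | ⟨τ, i, n⟩
  · left
    exact NE.cons (by simp) (NE.cons (by simp) (NE.single _ (by simp)))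
  · left
    exact NE.cons (by simp) (NE.cons (by simp) (NE.single _ (by simp)))
  · right; left; rfl
  · left
    exact NE.cons (by simp) (NE.cons (by simp) (NE.single _ (by simp)))
  · left
    exact NE.cons (by simp) (NE.cons (by simp) (NE.single _ (by simp)))
  · left
    exact NE.cons (by simp) (NE.single _ (by simp))
  · left
    exact (NE.single _ (by simp)).cm (NE.single _ (by simp))
  · left
    exact (NE.single _ (by simp)).cm (NE.single _ (by simp))
  · right; right; rfl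
  · left
    exact ((NE.single _ (by simp)).cj (NE.single _ (by simp))).append (NE.single _ (by simp))
  · left
    exact ((NE.single _ (by simp)).cj (NE.single _ (by simp))).append (NE.single _ (by simp))
  · left
    exact (NE.single _ (by simp)).cm (NE.single _ (by simp))
  · left
    exact (NE.single _ (by simp)).cm (NE.single _ (by simp))
  · left
    exact NE.permW (fun i => NE.thD i a) τ i
  · left
    exact NE.permW (fun i => NE.thC n i) τ i

lemma kap_homH (x : FreeGroup Hg) (σ : Option J) :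
    kap σ (homH x : FreeGroup (Gen J B Hg)) = homH x := by
  have : (kap σ).comp (homH : FreeGroup Hg →* FreeGroup (Gen J B Hg)) = homH := by
    ext η
    unfold homH
    rw [MonoidHom.comp_apply, FreeGroup.lift_apply_of, kap_of_ne (by simp)]
  exact DFunLike.congr_fun this x

lemma kap_phiX (x : FreeGroup XG) (σ : Option J) :
    kap σ (phiX x : FreeGroup (Gen J B Hg)) = phiX x := by
  have : (kap σ).comp (phiX : FreeGroup XG →* FreeGroup (Gen J B Hg)) = phiX := by
    ext η
    unfold phiX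
    rw [MonoidHom.comp_apply, FreeGroup.lift_apply_of, kap_of_ne (by simp)]
  exact DFunLike.congr_fun this x

lemma sub_inclX (x : FreeGroup XG) : S.sub (inclX x) = x := by
  have : S.sub.comp (inclX : FreeGroup XG →* FreeGroup (Gen J B Hg)) = MonoidHom.id _ := by
    ext x
    unfold inclX Sys.sub
    rw [MonoidHom.comp_apply, FreeGroup.lift_apply_of, FreeGroup.lift_apply_of]
    cases x <;> rfl
  exact DFunLike.congr_fun this x

lemma inclX_mk (l : List (XG × Bool)) :
    (inclX (FreeGroup.mk l) : FreeGroup (Gen J B Hg)) = FreeGroup.mk (xW l) := by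
  induction l with
  | nil => exact map_one _
  | cons p l ih =>
    have e1 : FreeGroup.mk (p :: l) = FreeGroup.mk [p] * FreeGroup.mk l := by
      rw [FreeGroup.mul_mk]; rfl
    have e2 : FreeGroup.mk (xW (p :: l) : W J B Hg) =
        FreeGroup.mk [(xg p.1, p.2)] * FreeGroup.mk (xW l) := by
      rw [FreeGroup.mul_mk]; rfl
    rw [e1, e2, map_mul, ih]
    congr 1
    rcases p with ⟨x, ε⟩
    unfold inclX
    cases ε
    · rw [mk_false, map_inv, FreeGroup.lift_apply_of, mk_false]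
    · rw [mk_true, FreeGroup.lift_apply_of, mk_true]

lemma rl_mem {HN : Set (FreeGroup Hg)} {M : Set (FreeGroup XG)} {x : FreeGroup (Gen J B Hg)}
    (h : S.Rl pt pb HN M x) : x ∈ S.ker pt pb HN M := Subgroup.subset_normalClosure h

lemma rlA_mem {HN : Set (FreeGroup Hg)} {M : Set (FreeGroup XG)} {w : W J B Hg}
    (h : S.RelA w) : FreeGroup.mk w ∈ S.ker pt pb HN M := rl_mem (.a w h)

end Rel

/-! ### The largest invariant subgroup inside `K` -/

section Inv

variable {J B Hg : Type} (S : Sys J B Hg) (K : Subgroup (FreeGroup (Gen J B Hg)))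

/-- One of the endomorphisms. -/
noncomputable def _root_.Pool.Agent.BH.Sys.en : Option (Option J) → FreeGroup (Gen J B Hg) →* FreeGroup (Gen J B Hg)
  | none => S.phi
  | some σ => kap σ

/-- A product of the endomorphisms. -/
noncomputable def _root_.Pool.Agent.BH.Sys.mu : List (Option (Option J)) →
    FreeGroup (Gen J B Hg) →* FreeGroup (Gen J B Hg)
  | [] => MonoidHom.id _
  | a :: l => (Sys.mu l).comp (S.en a)

/-- The largest invariant subgroup inside `K`. -/
noncomputable def _root_.Pool.Agent.BH.Sys.MM : Subgroup (FreeGroup (Gen J B Hg)) := ⨅ l, K.comap (S.mu l)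

variable {S K}

lemma mem_MM {x : FreeGroup (Gen J B Hg)} : x ∈ S.MM K ↔ ∀ l, S.mu l x ∈ K := by
  unfold Sys.MM
  rw [Subgroup.mem_iInf]
  rfl

lemma MM_le : S.MM K ≤ K := fun _ hx => mem_MM.1 hx []

lemma MM_en {x : FreeGroup (Gen J B Hg)} (hx : x ∈ S.MM K) (a : Option (Option J)) :
    S.en a x ∈ S.MM K := by
  rw [mem_MM] at hx ⊢
  intro l
  exact hx (a :: l)

lemma MM_normal (hK : K.Normal) : (S.MM K).Normal := by
  unfold Sys.MM
  exact Subgroup.normal_iInf_normal fun l => hK.comap _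

lemma kap_phi (x : FreeGroup (Gen J B Hg)) (σ : Option J) : kap σ (S.phi x) = S.phi x :=
  kap_phiX _ σ

/-- (i): elements fixed by all `kap`. -/
lemma MM_of_fixed (h3 : ∀ p ∈ K, (∀ σ, kap σ p ∈ K) → S.phi p ∈ K)
    {x : FreeGroup (Gen J B Hg)} (hx : x ∈ K) (hf : ∀ σ, kap σ x = x) : x ∈ S.MM K := by
  rw [mem_MM]
  intro l
  induction l generalizing x with
  | nil => exact hx
  | cons a l ih =>
    change S.mu l (S.en a x) ∈ K
    rcases a with _ | σ
    · refine ih (h3 x hx fun σ => ?_) fun σ => kap_phi x σ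
      rw [hf σ]
      exact hx
    · change S.mu l (kap σ x) ∈ K
      rw [hf σ]
      exact ih hx hf

/-- (ii): elements mapped by all `kap` to a conjugate, modulo `MM`. -/
lemma MM_of_conj (hK : K.Normal) (h3 : ∀ p ∈ K, (∀ σ, kap σ p ∈ K) → S.phi p ∈ K)
    {x : FreeGroup (Gen J B Hg)} (hx : x ∈ K)
    (hf : ∀ σ, ∃ g, ∃ m ∈ S.MM K, kap σ x = g * x * g⁻¹ * m) : x ∈ S.MM K := by
  rw [mem_MM]
  intro l
  induction l with
  | nil => exact hx
  | cons a l ih =>
    change S.mu l (S.en a x) ∈ K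
    rcases a with _ | σ
    · have h1 : S.phi x ∈ K := by
        refine h3 x hx fun σ => ?_
        obtain ⟨g, m, hm, e⟩ := hf σ
        rw [e]
        exact K.mul_mem (hK.conj_mem x hx g) (MM_le hm)
      exact mem_MM.1 (MM_of_fixed h3 h1 fun σ => kap_phi x σ) l
    · change S.mu l (kap σ x) ∈ K
      obtain ⟨g, m, hm, e⟩ := hf σ
      rw [e, map_mul, map_mul, map_mul, map_inv]
      exact K.mul_mem (hK.conj_mem _ ih _) (mem_MM.1 hm l)

/-- The alternating group of degree five has no nontrivial homomorphism to a group in which its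
image commutes. -/
lemma A5_hom_trivial {G : Type} [Group G] (f : A5 →* G) (hf : ∀ a b, f a * f b = f b * f a)
    (a : A5) : f a = 1 := by
  have h1 : commutator A5 ≤ f.ker := by
    rw [commutator_def, Subgroup.commutator_le]
    intro x _ y _
    rw [MonoidHom.mem_ker, commutatorElement_def, map_mul, map_mul, map_mul, map_inv, map_inv,
      hf x y]
    group
  have h2 : commutator A5 = ⊤ := by
    exact commutator_alternatingGroup_eq_top (by simp)
  rw [h2] at h1
  exact MonoidHom.mem_ker.1 (h1 (Subgroup.mem_top a))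

/-- (iii): perfect families. -/
lemma MM_of_family (hK : K.Normal)
    (h1 : ∀ p ∈ K, ∀ f σ, kap σ p * f * (kap σ p)⁻¹ * f⁻¹ ∈ K)
    (h2 : ∀ p ∈ K, ∀ f, S.phi p * f * (S.phi p)⁻¹ * f⁻¹ ∈ K)
    (ρ : A5 → FreeGroup (Gen J B Hg)) (hρ : ∀ a, ρ a ∈ K)
    (hm : ∀ a b, ∃ g, ∃ m ∈ S.MM K, ρ (a * b) = g * ρ b * g⁻¹ * ρ a * m) (a : A5) :
    ρ a ∈ S.MM K := by
  rw [mem_MM]
  intro l
  have hMn : (S.MM K).Normal := MM_normal hK
  induction l generalizing ρ with
  | nil => exact hρ a
  | cons b l ih =>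
    change S.mu l (S.en b (ρ a)) ∈ K
    -- all the endomorphisms map the family into `K`
    have hEn : ∀ c, ∀ p ∈ K, ∀ f, S.en c p * f * (S.en c p)⁻¹ * f⁻¹ ∈ K := by
      intro c p hp f
      rcases c with _ | σ
      · exact h2 p hp f
      · exact h1 p hp f σ
    let C : Subgroup (FreeGroup (Gen J B Hg)) := K ⊓ ⨅ c, K.comap (S.en c)
    have hC : C.Normal := by
      have : (⨅ c, K.comap (S.en c)).Normal := Subgroup.normal_iInf_normal fun c => hK.comap _
      exact Subgroup.normal_inf_normal _ _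
    have hCmem : ∀ x, x ∈ C ↔ x ∈ K ∧ ∀ c, S.en c x ∈ K := by
      intro x
      change x ∈ K ⊓ _ ↔ _
      rw [Subgroup.mem_inf, Subgroup.mem_iInf]
      rfl
    have hcomm : ∀ p ∈ K, ∀ f, p * f * p⁻¹ * f⁻¹ ∈ C := by
      intro p hp f
      rw [hCmem]
      refine ⟨?_, fun c => ?_⟩
      · have e : p * f * p⁻¹ * f⁻¹ = p * (f * p⁻¹ * f⁻¹) := by group
        rw [e]
        exact K.mul_mem hp (hK.conj_mem _ (K.inv_mem hp) f)
      · rw [map_mul, map_mul, map_mul, map_inv, map_inv]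
        exact hEn c p hp _
    have hMC : S.MM K ≤ C := by
      intro x hx
      rw [hCmem]
      exact ⟨MM_le hx, fun c => MM_le (MM_en hx c)⟩
    let π := QuotientGroup.mk' C
    have hπ : ∀ x, π x = 1 ↔ x ∈ C := fun x => QuotientGroup.eq_one_iff x
    have hcen : ∀ p ∈ K, ∀ f, π p * π f = π f * π p := by
      intro p hp f
      have := (hπ _).2 (hcomm p hp f)
      rw [map_mul, map_mul, map_mul, map_inv, map_inv, mul_inv_eq_one, mul_inv_eq_iff_eq_mul]
        at this
      exact this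
    have hmul : ∀ a b, π (ρ (a * b)) = π (ρ a) * π (ρ b) := by
      intro a b
      obtain ⟨g, m, hm, e⟩ := hm a b
      rw [e, map_mul, map_mul, map_mul, map_mul, map_inv, (hπ m).2 (hMC hm), mul_one,
        ← hcen _ (hρ b) g, mul_inv_cancel_right, hcen _ (hρ b)]
    let f : A5 →* (FreeGroup (Gen J B Hg)) ⧸ C := MonoidHom.mk' (fun a => π (ρ a)) hmul
    have hf : ∀ a, f a = 1 := A5_hom_trivial f fun a b => hcen _ (hρ a) _
    have hρC : ∀ a, ρ a ∈ C := fun a => (hπ _).1 (hf a)
    refine ih (fun a => S.en b (ρ a)) (fun a => ((hCmem _).1 (hρC a)).2 b) ?_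
    intro a a'
    obtain ⟨g, m, hm, e⟩ := hm a a'
    refine ⟨S.en b g, S.en b m, MM_en hm b, ?_⟩
    rw [e, map_mul, map_mul, map_mul, map_mul, map_inv]

end Inv

end G3

open G3

/-! ### The facts -/

section Facts

variable {J B Hg H : Type} [Finite J] [Finite B] [Finite Hg] [Group H] (S : Sys J B Hg)
  (hH : FreeGroup Hg →* H) (pt pb : List B) (N : Subgroup (FreeGroup XG)) [N.Normal]

variable {S hH pt pb N}

lemma G3.tau01_zero : τ01.1 0 = 1 := by decide

/-- G2: every letter `y` is equivalent to a word in the generators. -/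
theorem sub_mem (x : FreeGroup (Gen J B Hg)) (HN : Set (FreeGroup Hg)) (M : Set (FreeGroup XG)) :
    x⁻¹ * inclX (S.sub x) ∈ S.ker pt pb HN M := by
  let π := QuotientGroup.mk' (S.ker pt pb HN M)
  have key : π = (π.comp inclX).comp S.sub := by
    ext x
    rw [MonoidHom.comp_apply, MonoidHom.comp_apply]
    unfold Sys.sub
    rw [FreeGroup.lift_apply_of]
    rcases x with a | a | κ
    · change π _ = π (inclX (FreeGroup.of _))
      unfold inclX
      rw [FreeGroup.lift_apply_of]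
      rfl
    · change π _ = π (inclX (FreeGroup.of _))
      unfold inclX
      rw [FreeGroup.lift_apply_of]
      rfl
    · rcases κ with _ | _ | _ | n
      · change π _ = π (inclX (FreeGroup.of _))
        unfold inclX
        rw [FreeGroup.lift_apply_of]
        rfl
      · change π _ = π (inclX (FreeGroup.of _))
        unfold inclX
        rw [FreeGroup.lift_apply_of]
        rfl
      · change π _ = π (inclX (FreeGroup.of _))
        unfold inclX
        rw [FreeGroup.lift_apply_of]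
        rfl
      · change π _ = π (inclX (FreeGroup.mk (yX (S.idx n))))
        have h1 : π (FreeGroup.mk (permW (fun i => S.thC n i) τ01 0)) = 1 :=
          (QuotientGroup.eq_one_iff _).2 (rlA_mem (Sys.RelA.cst τ01 0 n))
        rw [mk_permW, tau01_zero] at h1
        have e0 : S.thC n 0 = xW (bX (S.idx n)) ++ [(.k (.y n), true)] := rfl
        have e1 : S.thC n 1 = cj (xW (gX 1)) (xW (bX (S.idx n))) := rfl
        rw [e0, e1, mk_append, mk_cj, mk_true] at h1
        simp only [map_mul, map_inv] at h1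
        unfold yX
        simp only [mk_append, mk_inv, mk_true, mk_false, map_mul, map_inv, inclX_mk]
        have e2 : (inclX (FreeGroup.of (XG.t τ01)) : FreeGroup (Gen J B Hg)) =
            FreeGroup.of (Gen.t τ01) := by
          unfold inclX
          rw [FreeGroup.lift_apply_of]
          rfl
        rw [e2]
        generalize π (FreeGroup.of (Gen.t τ01)) = t at h1 ⊢
        generalize π (FreeGroup.mk (xW (bX (S.idx n)))) = b at h1 ⊢
        generalize π (FreeGroup.mk (xW (gX 1))) = g at h1 ⊢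
        generalize π (FreeGroup.of (Gen.k (KG.y n))) = y at h1 ⊢
        have e3 : y = b⁻¹ * t⁻¹ * (t * (b * y) * t⁻¹ * (g * b * g⁻¹)⁻¹) *
            (g * b * g⁻¹) * t := by group
        rw [h1] at e3
        rw [e3]
        group
  have h2 := DFunLike.congr_fun key x
  rw [MonoidHom.comp_apply, MonoidHom.comp_apply] at h2
  exact QuotientGroup.eq.1 h2

/-- G2: invariance. -/
theorem Fix.kap_mem (hF : Fix S hH pt pb N) (σ : Option J) :
    S.ker pt pb hH.ker N ≤ (S.ker pt pb hH.ker N).comap (kap σ) := by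
  have hn : ((S.ker pt pb hH.ker N).comap (kap σ)).Normal :=
    (ker_normal S pt pb hH.ker N).comap _
  refine Subgroup.normalClosure_le_normal ?_
  intro x hx
  change kap σ x ∈ S.ker pt pb hH.ker N
  rcases hx with ⟨w, h⟩ | ⟨u, w, h⟩ | ⟨x, h⟩ | ⟨x, h⟩
  · rcases RelA.cases h with h1 | rfl | rfl
    · rw [kap_NE h1]
      exact rlA_mem h
    · have e1 : FreeGroup.mk [((.k .e : Gen J B Hg), true), (.k .e, true), (.k .e, true)] =
          FreeGroup.of (Gen.k .e) * FreeGroup.of (Gen.k .e) * FreeGroup.of (Gen.k .e) := rfl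
      have h' := rlA_mem (pt := pt) (pb := pb) (HN := hH.ker) (M := N) h
      rw [e1] at h' ⊢
      rw [map_mul, map_mul, kap_e]
      have := (ker_normal S pt pb hH.ker N).conj_mem _ h' (FreeGroup.of (.k (.y (.s σ))))
      convert this using 1
      group
    · have h' := rlA_mem (pt := pt) (pb := pb) (HN := hH.ker) (M := N) h
      have hc := rlA_mem (pt := pt) (pb := pb) (HN := hH.ker) (M := N)
        (Sys.RelA.cy (S := S) (.s σ))
      rw [mk_append, mk_cj, mk_true, mk_true] at h' ⊢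
      rw [mk_cm, mk_true, mk_true] at hc
      rw [map_mul, map_mul, map_mul, map_inv, kap_e, kap_of_ne (by simp)]
      let π := QuotientGroup.mk' (S.ker pt pb hH.ker N)
      have h1 := (QuotientGroup.eq_one_iff (N := S.ker pt pb hH.ker N) _).2 h'
      have h2 := (QuotientGroup.eq_one_iff (N := S.ker pt pb hH.ker N) _).2 hc
      rw [← QuotientGroup.eq_one_iff (N := S.ker pt pb hH.ker N)]
      change π _ = 1 at h1 h2 ⊢
      simp only [map_mul, map_inv] at h1 h2 ⊢
      generalize π (FreeGroup.of (Gen.k (KG.y YG.c))) = c at h1 h2 ⊢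
      generalize π (FreeGroup.of (Gen.k (KG.y (YG.s σ)))) = s at h1 h2 ⊢
      generalize π (FreeGroup.of (Gen.k KG.e)) = e at h1 h2 ⊢
      have h3 : c * s = s * c := by
        rwa [mul_inv_eq_one, mul_inv_eq_iff_eq_mul] at h2
      have h4 : s⁻¹ * c⁻¹ = c⁻¹ * s⁻¹ := by
        rw [← mul_inv_rev, h3, mul_inv_rev]
      calc c * (s * e * s⁻¹) * c⁻¹ * (s * e * s⁻¹) = (c * s) * e * (s⁻¹ * c⁻¹) * s * e * s⁻¹ := by
            group
        _ = (s * c) * e * (c⁻¹ * s⁻¹) * s * e * s⁻¹ := by rw [h3, h4]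
        _ = s * (c * e * c⁻¹ * e) * s⁻¹ := by group
        _ = 1 := by rw [h1]; group
  · obtain ⟨w', h', e⟩ := RelU.kap h σ
    rw [e]
    exact rl_mem (.u _ _ h')
  · rw [kap_homH]
    exact rl_mem (.h x h)
  · rw [kap_phiX]
    exact rl_mem (.q x h)

theorem Fix.phi_mem (hF : Fix S hH pt pb N) :
    S.ker pt pb hH.ker N ≤ (S.ker pt pb hH.ker N).comap S.phi := by
  intro x hx
  change phiX (S.sub x) ∈ S.ker pt pb hH.ker N
  have h1 : inclX (S.sub x) ∈ S.ker pt pb hH.ker N := by
    have h2 : x⁻¹ * inclX (S.sub x) ∈ S.ker pt pb hH.ker N := sub_mem x hH.ker N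
    have := (S.ker pt pb hH.ker N).mul_mem hx h2
    rwa [mul_inv_cancel_left] at this
  exact rl_mem (.q _ ((hF.fix _).1 h1))

lemma G3.relA_finite : {w | S.RelA w}.Finite := by
  have hsub : {w | S.RelA w} ⊆
      (Set.range fun p : A5 × A5 =>
        ([(.z p.1, true), (.z p.2, true), (.z (p.1 * p.2), false)] : W J B Hg)) ∪
      (Set.range fun p : A5 × A5 =>
        ([(.t p.1, true), (.t p.2, true), (.t (p.1 * p.2), false)] : W J B Hg)) ∪
      {[(.k .e, true), (.k .e, true), (.k .e, true)]} ∪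
      {[(.k .w, true), (.k .w, true), (.k .w, true)]} ∪
      {[(.k .v, true), (.k .v, true), (.k .v, true)]} ∪
      {[(.k (.y .c), true), (.k (.y .c), true)]} ∪
      (Set.range fun p : XG × B =>
        (cm [(.k (.y (.q p.1)), true)] [(.k (.y (.b p.2)), true)] : W J B Hg)) ∪
      (Set.range fun n : YG J B Hg => cm [(.k (.y .c), true)] [(.k (.y n), true)]) ∪
      {cj [(.k (.y .c), true)] [(.k .e, true)] ++ [(.k .e, true)]} ∪
      {cj [(.k (.y .c), true)] [(.k .w, true)] ++ [(.k .w, true)]} ∪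
      {cj [(.k (.y .c), true)] [(.k .v, true)] ++ [(.k .v, true)]} ∪
      (Set.range fun p : A5 × XG =>
        (cm [(.z p.1, true)] [(.k (.y (.q p.2)), true)] : W J B Hg)) ∪
      (Set.range fun p : A5 × B =>
        (cm [(.z p.1, true)] [(.k (.y (.b p.2)), true)] : W J B Hg)) ∪
      (Set.range fun p : A5 × Fin 5 × A5 =>
        (permW (fun i => thD i p.2.2) p.1 p.2.1 : W J B Hg)) ∪
      (Set.range fun p : A5 × Fin 5 × YG J B Hg =>
        permW (fun i => S.thC p.2.2 i) p.1 p.2.1) := by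
    intro w h
    rcases h with ⟨a, b⟩ | ⟨a, b⟩ | _ | _ | _ | _ | ⟨x, β⟩ | ⟨n⟩ | _ | _ | _ | ⟨a, x⟩ | ⟨a, β⟩ |
      ⟨τ, i, a⟩ | ⟨τ, i, n⟩
    · iterate 14 left
      exact ⟨(a, b), rfl⟩
    · iterate 13 left
      right
      exact ⟨(a, b), rfl⟩
    · iterate 12 left
      right
      rfl
    · iterate 11 left
      right
      rfl
    · iterate 10 left
      right
      rfl
    · iterate 9 left
      right
      rfl
    · iterate 8 left
      right
      exact ⟨(x, β), rfl⟩
    · iterate 7 left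
      right
      exact ⟨n, rfl⟩
    · iterate 6 left
      right
      rfl
    · iterate 5 left
      right
      rfl
    · iterate 4 left
      right
      rfl
    · iterate 3 left
      right
      exact ⟨(a, x), rfl⟩
    · iterate 2 left
      right
      exact ⟨(a, β), rfl⟩
    · left
      right
      exact ⟨(τ, i, a), rfl⟩
    · right
      exact ⟨(τ, i, n), rfl⟩
  refine Set.Finite.subset ?_ hsub
  repeat'
    first
      | exact Set.finite_range _
      | exact Set.finite_singleton _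
      | apply Set.Finite.union

lemma G3.relU_finite (u : List (Option J)) : {w | S.RelU pt pb u w}.Finite := by
  have hsub : {w | S.RelU pt pb u w} ⊆
      (Set.range fun p : J × Bool × A5 => cm [(.z p.2.2, true)]
        (eW (sW (some p.1 :: u)) p.2.1 ++ eW (S.aW p.1 ++ sW u) !p.2.1)) ∪
      (Set.range fun p : J × Bool × A5 => cm [(.z p.2.2, true)]
        (eW (rW ++ sW (some p.1 :: u)) p.2.1 ++ eW (S.cW p.1 ++ rW ++ sW u) !p.2.1)) ∪
      (Set.range fun p : Bool × A5 => cm [(.z p.2, true)]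
        (eW (rW ++ sW (none :: u)) p.1 ++ eW (sW (none :: u)) !p.1)) ∪
      (Set.range fun p : A5 × Fin 5 × A5 =>
        permW (fun i => thM pt pb u i p.2.2) p.1 p.2.1) := by
    intro w h
    rcases h with ⟨j, ε, a⟩ | ⟨j, ε, a⟩ | ⟨ε, a⟩ | ⟨τ, i, a⟩
    · iterate 3 left
      exact ⟨(j, ε, a), rfl⟩
    · iterate 2 left
      right
      exact ⟨(j, ε, a), rfl⟩
    · left
      right
      exact ⟨(ε, a), rfl⟩
    · right
      exact ⟨(τ, i, a), rfl⟩
  refine Set.Finite.subset ?_ hsub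
  repeat'
    first
      | exact Set.finite_range _
      | apply Set.Finite.union

theorem base_finite (RH : Set (FreeGroup Hg)) (hRH : RH.Finite) :
    {x | Base S pt pb RH x}.Finite := by
  have hsub : {x | Base S pt pb RH x} ⊆ (FreeGroup.mk '' {w | S.RelA w}) ∪
      (FreeGroup.mk '' {w | S.RelU pt pb [] w}) ∪ (homH '' RH) := by
    intro x h
    rcases h with ⟨w, h⟩ | ⟨w, h⟩ | ⟨x, h⟩
    · left; left
      exact ⟨w, h, rfl⟩
    · left; right
      exact ⟨w, h, rfl⟩
    · right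
      exact ⟨x, h, rfl⟩
  exact (((relA_finite.image _).union ((relU_finite []).image _)).union (hRH.image _)).subset hsub

/-- Commutators of `z a` with a fixed word are a perfect family. -/
lemma G3.family_comm {K : Subgroup (FreeGroup (Gen J B Hg))} (hK : K.Normal)
    (hzz : ∀ a b, FreeGroup.mk [((.z a : Gen J B Hg), true), (.z b, true), (.z (a * b), false)] ∈
      S.MM K) (X : W J B Hg) (a b : A5) :
    ∃ g, ∃ m ∈ S.MM K, FreeGroup.mk (cm [(.z (a * b), true)] X) =
      g * FreeGroup.mk (cm [(.z b, true)] X) * g⁻¹ * FreeGroup.mk (cm [(.z a, true)] X) * m := by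
  have hMn : (S.MM K).Normal := MM_normal hK
  refine ⟨FreeGroup.of (.z a), (FreeGroup.of (.z a) * FreeGroup.mk (cm [(.z b, true)] X) *
    (FreeGroup.of (.z a))⁻¹ * FreeGroup.mk (cm [(.z a, true)] X))⁻¹ *
    FreeGroup.mk (cm [(.z (a * b), true)] X), ?_, by group⟩
  have e1 : FreeGroup.mk [((.z a : Gen J B Hg), true), (.z b, true), (.z (a * b), false)] =
      FreeGroup.of (.z a) * FreeGroup.of (.z b) * (FreeGroup.of (.z (a * b)))⁻¹ := rfl
  have h1 := hzz a b
  rw [e1] at h1
  simp only [mk_cm, mk_true]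
  let π := QuotientGroup.mk' (S.MM K)
  have h2 := (QuotientGroup.eq_one_iff (N := S.MM K) _).2 h1
  rw [← QuotientGroup.eq_one_iff (N := S.MM K)]
  change π _ = 1 at h2 ⊢
  simp only [map_mul, map_inv] at h2 ⊢
  rw [mul_inv_eq_one] at h2
  rw [← h2]
  group

/-- The relators saying that a permutation maps conjugates of `z a` to each other are a perfect
family. -/
lemma G3.family_perm {K : Subgroup (FreeGroup (Gen J B Hg))} (hK : K.Normal)
    (hzz : ∀ a b, FreeGroup.mk [((.z a : Gen J B Hg), true), (.z b, true), (.z (a * b), false)] ∈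
      S.MM K) (t g h : FreeGroup (Gen J B Hg)) (a b : A5) :
    ∃ c, ∃ m ∈ S.MM K, t * (g * FreeGroup.of (.z (a * b)) * g⁻¹) * t⁻¹ *
        (h * FreeGroup.of (.z (a * b)) * h⁻¹)⁻¹ =
      c * (t * (g * FreeGroup.of (.z b) * g⁻¹) * t⁻¹ * (h * FreeGroup.of (.z b) * h⁻¹)⁻¹) * c⁻¹ *
        (t * (g * FreeGroup.of (.z a) * g⁻¹) * t⁻¹ * (h * FreeGroup.of (.z a) * h⁻¹)⁻¹) * m := by
  have hMn : (S.MM K).Normal := MM_normal hK
  refine ⟨t * (g * FreeGroup.of (.z a) * g⁻¹) * t⁻¹,
    ((t * (g * FreeGroup.of (.z a) * g⁻¹) * t⁻¹) * (t * (g * FreeGroup.of (.z b) * g⁻¹) * t⁻¹ *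
      (h * FreeGroup.of (.z b) * h⁻¹)⁻¹) * (t * (g * FreeGroup.of (.z a) * g⁻¹) * t⁻¹)⁻¹ *
      (t * (g * FreeGroup.of (.z a) * g⁻¹) * t⁻¹ * (h * FreeGroup.of (.z a) * h⁻¹)⁻¹))⁻¹ *
    (t * (g * FreeGroup.of (.z (a * b)) * g⁻¹) * t⁻¹ *
        (h * FreeGroup.of (.z (a * b)) * h⁻¹)⁻¹), ?_, by group⟩
  have e1 : FreeGroup.mk [((.z a : Gen J B Hg), true), (.z b, true), (.z (a * b), false)] =
      FreeGroup.of (.z a) * FreeGroup.of (.z b) * (FreeGroup.of (.z (a * b)))⁻¹ := rfl
  have h1 := hzz a b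
  rw [e1] at h1
  let π := QuotientGroup.mk' (S.MM K)
  have h2 := (QuotientGroup.eq_one_iff (N := S.MM K) _).2 h1
  rw [← QuotientGroup.eq_one_iff (N := S.MM K)]
  change π _ = 1 at h2 ⊢
  simp only [map_mul, map_inv] at h2 ⊢
  rw [mul_inv_eq_one] at h2
  rw [← h2]
  group

/-- G3: the closure property (perfect families). -/
theorem Fix.ker_le (hF : Fix S hH pt pb N) (RH : Set (FreeGroup Hg))
    (hRH : Subgroup.normalClosure RH = hH.ker)
    (K : Subgroup (FreeGroup (Gen J B Hg))) (hK : K.Normal) (hbase : ∀ x, Base S pt pb RH x → x ∈ K)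
    (h1 : ∀ p ∈ K, ∀ f σ, kap σ p * f * (kap σ p)⁻¹ * f⁻¹ ∈ K)
    (h2 : ∀ p ∈ K, ∀ f, S.phi p * f * (S.phi p)⁻¹ * f⁻¹ ∈ K)
    (h3 : ∀ p ∈ K, (∀ σ, kap σ p ∈ K) → S.phi p ∈ K) :
    S.ker pt pb hH.ker N ≤ K := by
  have hMn : (S.MM K).Normal := MM_normal hK
  -- relators without context
  have hA0 : ∀ w, S.RelA w → NE w → FreeGroup.mk w ∈ S.MM K := fun w h hw =>
    MM_of_fixed h3 (hbase _ (.a w h)) fun σ => kap_NE hw σ
  have hA : ∀ w, S.RelA w → FreeGroup.mk w ∈ S.MM K := by
    intro w h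
    rcases RelA.cases h with h' | rfl | rfl
    · exact hA0 w h h'
    · refine MM_of_conj hK h3 (hbase _ (.a _ h)) fun σ => ?_
      refine ⟨FreeGroup.of (.k (.y (.s σ))), 1, (S.MM K).one_mem, ?_⟩
      have e1 : FreeGroup.mk [((.k .e : Gen J B Hg), true), (.k .e, true), (.k .e, true)] =
          FreeGroup.of (Gen.k .e) * FreeGroup.of (Gen.k .e) * FreeGroup.of (Gen.k .e) := rfl
      rw [e1, map_mul, map_mul, kap_e]
      group
    · refine MM_of_conj hK h3 (hbase _ (.a _ h)) fun σ => ?_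
      have hc : FreeGroup.mk (cm [((.k (.y .c) : Gen J B Hg), true)] [(.k (.y (.s σ)), true)]) ∈
          S.MM K := hA0 _ (.cy (.s σ)) ((NE.single _ (by simp)).cm (NE.single _ (by simp)))
      rw [mk_append, mk_cj, mk_true, mk_true]
      rw [mk_cm, mk_true, mk_true] at hc
      generalize hx : (FreeGroup.of (Gen.k (KG.y YG.c)) * FreeGroup.of (Gen.k KG.e) *
        (FreeGroup.of (Gen.k (KG.y YG.c)))⁻¹ * FreeGroup.of (Gen.k KG.e) :
          FreeGroup (Gen J B Hg)) = x
      refine ⟨FreeGroup.of (.k (.y (.s σ))), (FreeGroup.of (.k (.y (.s σ))) * x *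
        (FreeGroup.of (.k (.y (.s σ))))⁻¹)⁻¹ * kap σ x, ?_, by group⟩
      rw [← hx, map_mul, map_mul, map_mul, map_inv, kap_e, kap_of_ne (by simp)]
      let π := QuotientGroup.mk' (S.MM K)
      have h2 := (QuotientGroup.eq_one_iff (N := S.MM K) _).2 hc
      rw [← QuotientGroup.eq_one_iff (N := S.MM K)]
      change π _ = 1 at h2 ⊢
      simp only [map_mul, map_inv] at h2 ⊢
      generalize π (FreeGroup.of (Gen.k (KG.y YG.c))) = c at h2 ⊢
      generalize π (FreeGroup.of (Gen.k (KG.y (YG.s σ)))) = s at h2 ⊢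
      generalize π (FreeGroup.of (Gen.k KG.e)) = e at h2 ⊢
      have h3 : c * s = s * c := by
        rwa [mul_inv_eq_one, mul_inv_eq_iff_eq_mul] at h2
      have h4 : s⁻¹ * c⁻¹ = c⁻¹ * s⁻¹ := by
        rw [← mul_inv_rev, h3, mul_inv_rev]
      have h5 : c * (s * e * s⁻¹) * c⁻¹ * (s * e * s⁻¹) = s * (c * e * c⁻¹ * e) * s⁻¹ := by
        calc c * (s * e * s⁻¹) * c⁻¹ * (s * e * s⁻¹) =
              (c * s) * e * (s⁻¹ * c⁻¹) * s * e * s⁻¹ := by group
          _ = (s * c) * e * (c⁻¹ * s⁻¹) * s * e * s⁻¹ := by rw [h3, h4]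
          _ = s * (c * e * c⁻¹ * e) * s⁻¹ := by group
      rw [h5]
      group
  have hzz : ∀ a b, FreeGroup.mk [((.z a : Gen J B Hg), true), (.z b, true),
      (.z (a * b), false)] ∈ S.MM K := fun a b => hA _ (.zz a b)
  -- relators with context
  have hU0 : ∀ w, S.RelU pt pb [] w → FreeGroup.mk w ∈ S.MM K := by
    intro w h
    rcases h with ⟨j, ε, a⟩ | ⟨j, ε, a⟩ | ⟨ε, a⟩ | ⟨τ, i, a⟩
    · exact MM_of_family hK h1 h2 (fun a => FreeGroup.mk (cm [(.z a, true)] _))
        (fun a => hbase _ (.u _ (.r1 j ε a))) (family_comm hK hzz _) a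
    · exact MM_of_family hK h1 h2 (fun a => FreeGroup.mk (cm [(.z a, true)] _))
        (fun a => hbase _ (.u _ (.r2 j ε a))) (family_comm hK hzz _) a
    · exact MM_of_family hK h1 h2 (fun a => FreeGroup.mk (cm [(.z a, true)] _))
        (fun a => hbase _ (.u _ (.r3 ε a))) (family_comm hK hzz _) a
    · refine MM_of_family hK h1 h2
        (fun a => FreeGroup.mk (permW (fun i => thM pt pb [] i a) τ i))
        (fun a => hbase _ (.u _ (.m τ i a))) ?_ a
      intro a b
      simp only [mk_permW, thM, mk_cj, mk_true]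
      exact family_perm hK hzz _ _ _ a b
  have hU : ∀ u w, S.RelU pt pb u w → FreeGroup.mk w ∈ S.MM K := by
    intro u
    induction u using List.reverseRecOn with
    | nil => exact hU0
    | append_singleton u σ ih =>
      intro w h
      obtain ⟨w', h', e⟩ := RelU.of_append h
      rw [e]
      exact MM_en (ih w' h') (some σ)
  -- relators of `H`
  have hHm : ∀ x ∈ hH.ker, homH x ∈ S.MM K := by
    have hn : ((S.MM K).comap homH).Normal := hMn.comap _
    have : Subgroup.normalClosure RH ≤ (S.MM K).comap homH := by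
      refine Subgroup.normalClosure_le_normal ?_
      intro x hx
      exact MM_of_fixed h3 (hbase _ (.h x hx)) fun σ => kap_homH x σ
    rw [hRH] at this
    exact this
  -- the trivial elements of `P`
  have hker : ∀ M : Subgroup (FreeGroup XG), (∀ x ∈ M, phiX x ∈ S.MM K) →
      S.ker pt pb hH.ker M ≤ S.MM K := by
    intro M hM
    refine Subgroup.normalClosure_le_normal ?_
    intro x hx
    rcases hx with ⟨w, h⟩ | ⟨u, w, h⟩ | ⟨x, h⟩ | ⟨x, h⟩
    · exact hA w h
    · exact hU u w h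
    · exact hHm x h
    · exact hM x h
  have hN : N ≤ (S.MM K).comap phiX := by
    have hn : ((S.MM K).comap phiX).Normal := hMn.comap _
    refine hF.min _ hn ?_
    intro x hx
    have h4 : inclX x ∈ S.MM K := hker _ (fun y hy => hy) hx
    have h5 := MM_en h4 none
    change phiX (S.sub (inclX x)) ∈ _ at h5
    rwa [sub_inclX] at h5
  exact (hker N fun x hx => hN hx).trans MM_le

end Facts

end Pool.Agent.BH
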