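import Pool.Agent.BH.MModel

set_option autoImplicit false

/-!
# Module M: more definitions
-/

namespace Pool.Agent.BH

open Monoid

attribute [-simp] FreeGroup.mul_mk FreeGroup.inv_mk

namespace Dat

variable (𝔇 : Dat)

/-- `N` is good. -/
def Good : Prop := ∀ t, FreeGroup.mk (𝔇.S.labs t) ∈ 𝔇.N → ¬ 𝔇.S.Match 𝔇.pt 𝔇.pb t

/-- The relators, with queries of length less than `n`. -/
def Rn (n : ℕ) : 𝔇.WW → Prop :=
  𝔇.S.Rel 𝔇.pt 𝔇.pb {l | 𝔇.hH (FreeGroup.mk l) = 1}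
    {w' | w'.length < n ∧ FreeGroup.mk w' ∈ 𝔇.N}

lemma Rn_free (n : ℕ) : FreeRel (𝔇.Rn n) := fun x ε => Sys.Rel.free x ε

/-- `X` is larger than everything. -/
structure Big (n X : ℕ) : Prop where
  hn : n ≤ X
  hpt : 𝔇.pt.length ≤ X
  hpb : 𝔇.pb.length ≤ X
  htop : ∀ j, (𝔇.S.top j).length ≤ X
  hbot : ∀ j, (𝔇.S.bot j).length ≤ X
  hidx : ∀ y, 10 * ((𝔇.S.idx y + 2) * rr) ≤ X
  h1000 : 1000 ≤ X

variable {𝔇}

/-! ### Words in the letters of `K` -/

/-- Number of `q`-letters. -/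
def nQ (x : 𝔇.KW) : ℕ := x.countP fun p => match p.1 with
  | .y (.q _) => true
  | _ => false

/-- Number of `s`-letters. -/
def nS (x : 𝔇.KW) : ℕ := x.countP fun p => match p.1 with
  | .y (.s _) => true
  | _ => false

/-- Number of `q`-letters and `s`-letters. -/
def nm (x : 𝔇.KW) : ℕ := nQ x + nS x

@[simp] lemma nQ_nil : nQ ([] : 𝔇.KW) = 0 := rfl
@[simp] lemma nS_nil : nS ([] : 𝔇.KW) = 0 := rfl
@[simp] lemma nm_nil : nm ([] : 𝔇.KW) = 0 := rfl
@[simp] lemma nQ_append (x y : 𝔇.KW) : nQ (x ++ y) = nQ x + nQ y := List.countP_append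
@[simp] lemma nS_append (x y : 𝔇.KW) : nS (x ++ y) = nS x + nS y := List.countP_append
@[simp] lemma nm_append (x y : 𝔇.KW) : nm (x ++ y) = nm x + nm y := by simp [nm]; omega
@[simp] lemma nQ_inv (x : 𝔇.KW) : nQ (inv x) = nQ x := by
  simp only [nQ, inv, FreeGroup.invRev, List.countP_reverse, List.countP_map]
  rfl
@[simp] lemma nS_inv (x : 𝔇.KW) : nS (inv x) = nS x := by
  simp only [nS, inv, FreeGroup.invRev, List.countP_reverse, List.countP_map]
  rfl
@[simp] lemma nm_inv (x : 𝔇.KW) : nm (inv x) = nm x := by simp [nm]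

/-- Words without the letters `e`, `c`. -/
def Lw (x : 𝔇.KW) : Prop := ∀ p ∈ x, p.1 ≠ KG.e ∧ p.1 ≠ KG.y .c

/-- Words in the letters `y`. -/
def Yw (x : 𝔇.KW) : Prop := ∀ p ∈ x, ∃ n, p.1 = KG.y n

/-- The value in `L` of a word without `e`, `c`. -/
def evL (x : 𝔇.KW) : 𝔇.L := FreeGroup.lift 𝔇.lv (FreeGroup.mk x)

@[simp] lemma evL_nil : evL ([] : 𝔇.KW) = 1 := map_one _
@[simp] lemma evL_append (x y : 𝔇.KW) : evL (x ++ y) = evL x * evL y := by
  rw [evL, mk_append, map_mul]; rfl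
@[simp] lemma evL_inv (x : 𝔇.KW) : evL (inv x) = (evL x)⁻¹ := by
  rw [evL, mk_inv, map_inv]; rfl

/-- The item `e_x ^ ε`. -/
def itK (p : 𝔇.KW × Bool) : 𝔇.KW := cj p.1 [(KG.e, p.2)]

/-- The word of a list of items. -/
def itsK (I : List (𝔇.KW × Bool)) : 𝔇.KW := (I.map itK).flatten

/-- The exponent of an item. -/
def eps (ε : Bool) : Z3 := if ε then g3 else g3⁻¹

/-- The values of a list of items. -/
def vlK (I : List (𝔇.KW × Bool)) : List (𝔇.L × Z3) := I.map fun i => (evL i.1, eps i.2)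

/-- The word `c ^ p`. -/
def cW (p : Bool) : 𝔇.KW := if p then [(KG.y .c, true)] else []

/-! ### Positions -/

/-- The description of a position: `g ^ k` or `g ^ k * m (u)`. -/
abbrev PD (𝔇 : Dat) := ℕ × Option (List (Option 𝔇.J))

/-- The word of a description. -/
def zD (d : 𝔇.PD) : 𝔇.KW := gK d.1 ++ (match d.2 with
  | none => []
  | some u => mK u)

/-- Items: the state, the description of the position, and the element of `A5`. -/
abbrev ZI (𝔇 : Dat) := 𝔇.KW × 𝔇.PD × A5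

/-- The position word of an item. -/
def pw (i : 𝔇.ZI) : 𝔇.KW := i.1 ++ zD i.2.1

/-- The word of an item. -/
def itZ (i : 𝔇.ZI) : 𝔇.WW := cj (𝔇.kW (pw i)) [(.z i.2.2, true)]

/-- The word of a list of items. -/
def itsZ (I : List 𝔇.ZI) : 𝔇.WW := (I.map itZ).flatten

/-- The position of a word. -/
def ps (x : 𝔇.KW) : 𝔇.Pos := ((evK x : 𝔇.K) : 𝔇.Pos)

/-- The values of a list of items. -/
def vlZ (I : List 𝔇.ZI) : List (𝔇.Pos × A5) := I.map fun i => (ps (pw i), i.2.2)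

/-- Segments. -/
abbrev Seg (𝔇 : Dat) := List 𝔇.ZI × 𝔇.KW

/-- The word of a segment. -/
def sgW (s : 𝔇.Seg) : 𝔇.WW := itsZ s.1 ++ 𝔇.kW s.2

/-- The value of a segment. -/
def evS (s : 𝔇.Seg) : 𝔇.Kz :=
  SemidirectProduct.inl (pr (vlZ s.1)) * SemidirectProduct.inr (evK s.2)

/-- Bounded segments. -/
structure Bd (n X wt : ℕ) (s : 𝔇.Seg) : Prop where
  len : s.1.length ≤ wt
  klen : s.2.length ≤ wt
  knm : 2 * rr * nm s.2 ≤ wt
  ilen : ∀ i ∈ s.1, i.1.length ≤ wt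
  inm : ∀ i ∈ s.1, 2 * rr * nm i.1 ≤ wt
  iexp : ∀ i ∈ s.1, i.2.1.1 ≤ X
  iu : ∀ i ∈ s.1, ∀ u ∈ i.2.1.2, rr * u.length ≤ n

/-! ### The base group of the amalgam -/

/-- Letters of the base group. -/
inductive ML (𝔇 : Dat) where
  | dum (i : Fin 5) (a : A5)
  | main (i : Fin 5) (u : List (Option 𝔇.J)) (a : A5)
  | cst (i : Fin 5) (n : YG 𝔇.J 𝔇.B 𝔇.Hg) (ε : Bool)

/-- The value of a letter. -/
def ML.val : ML 𝔇 → 𝔇.M
  | .dum i a => Coprod.inl (fp (i, none) a)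
  | .main i u a => Coprod.inl (fp (i, some u) a)
  | .cst i n true => Coprod.inr (FreeGroup.of (i, n))
  | .cst i n false => (Coprod.inr (FreeGroup.of (i, n)))⁻¹

/-- The value of a list of letters. -/
def vM (l : List (ML 𝔇)) : 𝔇.M := (l.map ML.val).prod

/-- The permutation action on letters. -/
def ML.perm (τ : A5) : ML 𝔇 → ML 𝔇
  | .dum i a => .dum (τ.1 i) a
  | .main i u a => .main (τ.1 i) u a
  | .cst i n ε => .cst (τ.1 i) n ε

/-- The word of a letter. -/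
noncomputable def ML.th : ML 𝔇 → 𝔇.WW
  | .dum i a => thD i a
  | .main i u a => thM 𝔇.pt 𝔇.pb u i a
  | .cst i n true => 𝔇.S.thC n i
  | .cst i n false => inv (𝔇.S.thC n i)

/-- The word of a list of letters. -/
noncomputable def thW (l : List (ML 𝔇)) : 𝔇.WW := (l.map ML.th).flatten

/-- The first exponents in the constants. -/
def ex (m j : ℕ) : ℕ := 10 * (m * rr + j + 1)

/-- The items of a constant, at the state `st`, shifted by `i`. -/
noncomputable def bIt (st : 𝔇.KW) (m i : ℕ) : List 𝔇.ZI :=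
  (List.range rr).flatMap fun j =>
    [(st, (i + ex m j, none), ζ0), (st, (i + (ex m j + 5), none), ζ0⁻¹)]

/-- The items of the inverse of a constant. -/
noncomputable def bItI (st : 𝔇.KW) (m i : ℕ) : List 𝔇.ZI :=
  ((bIt st m i).map fun p => (p.1, p.2.1, p.2.2⁻¹)).reverse

/-- The change of the state. -/
def ML.y : ML 𝔇 → 𝔇.KW
  | .cst i n ε => if i = 0 then [(KG.y n, ε)] else []
  | _ => []

/-- The items of a letter. -/
noncomputable def ML.its (st : 𝔇.KW) : ML 𝔇 → List 𝔇.ZI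
  | .dum i a => [(st, (i + 1, none), a)]
  | .main i u a => [(st, (em i, some u), a)]
  | .cst i n true => bIt st (𝔇.S.idx n) i
  | .cst i n false => bItI (st ++ (if i = 0 then [(KG.y n, false)] else [])) (𝔇.S.idx n) i

/-- The segment of a list of letters, starting with the state `st`. -/
noncomputable def Exp : 𝔇.KW → List (ML 𝔇) → 𝔇.Seg
  | st, [] => ([], st)
  | st, ℓ :: l => (ℓ.its st ++ (Exp (st ++ ℓ.y) l).1, (Exp (st ++ ℓ.y) l).2)

/-- The value of the word `pt`. -/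
def ptD (𝔇 : Dat) : 𝔇.D := (1, FreeGroup.mk (𝔇.pt.map (·, true)))

/-- The value of the word `pb`. -/
def pbD (𝔇 : Dat) : 𝔇.D := (1, FreeGroup.mk (𝔇.pb.map (·, true)))

/-- The two indices of `m (u)`. -/
def aU (u : List (Option 𝔇.J)) : 𝔇.L := inD 𝔇.ptD * inS (fo false u)

/-- The two indices of `m (u)`. -/
def bU (u : List (Option 𝔇.J)) : 𝔇.L := inD 𝔇.pbD * inS (fo true u)

/-- The element `m (u)`. -/
def mL (u : List (Option 𝔇.J)) : 𝔇.Nn := fp (bU u) g3 * (fp (aU u) g3)⁻¹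

/-- Words without the letters `t`. -/
def noT (x : 𝔇.WW) : Prop := ∀ p ∈ x, ∀ a, p.1 ≠ Gen.t a

end Dat

end Pool.Agent.BH
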