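import Pool.Agent.BH.MRel
import Pool.Agent.BH.MDefs

set_option autoImplicit false

/-!
# Module MA: values of segments and of the letters of the base group
-/

namespace Pool.Agent.BH

open Monoid

attribute [-simp] FreeGroup.mul_mk FreeGroup.inv_mk

namespace Dat

variable {𝔇 : Dat}

theorem π_noT {x : 𝔇.WW} (hx : noT x) :
    𝔇.π (FreeGroup.mk x) = 𝔇.oZ (𝔇.evZ (FreeGroup.mk x)) := π_noT' x hx

theorem evZ_itZ (i : 𝔇.ZI) : 𝔇.evZ (FreeGroup.mk (itZ i)) = zK (evK (pw i)) i.2.2 :=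
  evZ_cj_z _ _

lemma evZ_itsZ (I : List 𝔇.ZI) :
    𝔇.evZ (FreeGroup.mk (itsZ I)) = SemidirectProduct.inl (pr (vlZ I)) := by
  induction I with
  | nil => simp [itsZ, vlZ]
  | cons i I ih =>
    have h1 : itsZ (i :: I) = itZ i ++ itsZ I := rfl
    have h2 : vlZ (i :: I) = (ps (pw i), i.2.2) :: vlZ I := rfl
    rw [h1, h2, mk_append, map_mul, ih, evZ_itZ, pr_cons, map_mul]
    rfl

theorem evZ_sgW (s : 𝔇.Seg) : 𝔇.evZ (FreeGroup.mk (sgW s)) = evS s := by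
  rw [sgW, mk_append, map_mul, evZ_itsZ, evZ_kW]
  rfl

theorem noT_kW (x : 𝔇.KW) : noT (𝔇.kW x) := by
  intro p hp a
  simp only [kW, List.mem_map] at hp
  obtain ⟨q, -, rfl⟩ := hp
  simp

theorem noT_itsZ (I : List 𝔇.ZI) : noT (itsZ I) := by
  intro p hp a
  simp only [itsZ, List.mem_flatten, List.mem_map] at hp
  obtain ⟨l, ⟨i, -, rfl⟩, hp⟩ := hp
  exact noT_cj_z _ _ p hp a

theorem noT_sgW (s : 𝔇.Seg) : noT (sgW s) :=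
  noT_append (noT_itsZ _) (noT_kW _)

theorem θ_val (ℓ : ML 𝔇) : 𝔇.θ ℓ.val = 𝔇.evZ (FreeGroup.mk ℓ.th) := by
  rcases ℓ with ⟨i, a⟩ | ⟨i, u, a⟩ | ⟨i, n, _ | _⟩
  · change 𝔇.θ (mZ (i, none) a) = 𝔇.evZ (FreeGroup.mk (cj (xW (gX (i + 1))) [(.z a, true)]))
    rw [θ_mZ, ← kW_gK, evZ_cj_z]
    rfl
  · change 𝔇.θ (mZ (i, some u) a) = 𝔇.evZ (FreeGroup.mk (cj (xW (gX (if i = 0 then 6 else i + 1)) ++
      mW 𝔇.pt 𝔇.pb u) [(.z a, true)]))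
    rw [θ_mZ, ← kW_gK, ← kW_mK, ← kW_append, evZ_cj_z]
    rfl
  · change 𝔇.θ (Coprod.inr (FreeGroup.of (i, n)))⁻¹ = 𝔇.evZ (FreeGroup.mk (inv (𝔇.S.thC n i)))
    rw [map_inv, θ_y, mk_inv, map_inv]
  · exact θ_y i n

lemma tM_val (τ : A5) (ℓ : ML 𝔇) : 𝔇.tM τ ℓ.val = (ℓ.perm τ).val := by
  rcases ℓ with ⟨i, a⟩ | ⟨i, u, a⟩ | ⟨i, n, _ | _⟩
  · exact tM_mZ _ _ _
  · exact tM_mZ _ _ _
  · change 𝔇.tM τ (Coprod.inr (FreeGroup.of (i, n)))⁻¹ = _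
    rw [map_inv, tM_y]; rfl
  · exact tM_y _ _ _

theorem vM_perm (τ : A5) (l : List (ML 𝔇)) : vM (l.map (ML.perm τ)) = 𝔇.tM τ (vM l) := by
  induction l with
  | nil => simp [vM]
  | cons ℓ l ih =>
    have h1 : vM (ℓ :: l) = ℓ.val * vM l := by simp [vM]
    have h2 : vM ((ℓ :: l).map (ML.perm τ)) = (ℓ.perm τ).val * vM (l.map (ML.perm τ)) := by
      simp [vM]
    rw [h1, h2, map_mul, ih, tM_val]

theorem θ_vM (l : List (ML 𝔇)) : 𝔇.θ (vM l) = 𝔇.evZ (FreeGroup.mk (thW l)) := by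
  induction l with
  | nil => simp [vM, thW]
  | cons ℓ l ih =>
    have h1 : vM (ℓ :: l) = ℓ.val * vM l := by simp [vM]
    have h2 : thW (ℓ :: l) = ℓ.th ++ thW l := rfl
    rw [h1, h2, mk_append, map_mul, map_mul, ih, θ_val]

theorem oT_conj (τ : A5) (μ : 𝔇.M) :
    𝔇.oT (SemidirectProduct.inr τ) * 𝔇.oZ (𝔇.θ μ) * (𝔇.oT (SemidirectProduct.inr τ))⁻¹ =
      𝔇.oZ (𝔇.θ (𝔇.tM τ μ)) := by
  rw [oZ_θ, oZ_θ, ← map_inv, ← map_mul, ← map_mul, ← map_inv, ← SemidirectProduct.inl_aut]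

lemma homH_mk (l : List (𝔇.Hg × Bool)) :
    homH (J := 𝔇.J) (B := 𝔇.B) (FreeGroup.mk l) = FreeGroup.mk (hW l) := by
  rw [homH, FreeGroup.lift_mk]
  induction l with
  | nil => rfl
  | cons p l ih =>
    rw [List.map_cons, List.prod_cons, ih]
    have : (hW (p :: l) : 𝔇.WW) = (.k (.y (.h p.1)), p.2) :: hW l := rfl
    rw [this, mk_cons (Gen.k (KG.y (YG.h p.1)), p.2)]
    rcases p with ⟨x, _ | _⟩ <;> rfl

lemma phiX_mk (l : List (XG × Bool)) :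
    phiX (J := 𝔇.J) (B := 𝔇.B) (Hg := 𝔇.Hg) (FreeGroup.mk l) = FreeGroup.mk (qW l) := by
  rw [phiX, FreeGroup.lift_mk]
  induction l with
  | nil => rfl
  | cons p l ih =>
    rw [List.map_cons, List.prod_cons, ih]
    have : (qW (p :: l) : 𝔇.WW) = (.k (.y (.q p.1)), p.2) :: qW l := rfl
    rw [this, mk_cons (Gen.k (KG.y (YG.q p.1)), p.2)]
    rcases p with ⟨x, _ | _⟩ <;> rfl

/-- All relators have a trivial value. -/
theorem π_Rn {n : ℕ} {ρ : 𝔇.WW} (h : 𝔇.Rn n ρ) : 𝔇.π (FreeGroup.mk ρ) = 1 := by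
  rcases h with ⟨x, ε⟩ | ⟨_, h⟩ | ⟨u, _, h⟩ | ⟨l, h⟩ | ⟨l, h⟩
  · rw [mk_cons, map_mul]
    cases ε
    · rw [mk_false, map_inv]
      exact inv_mul_cancel _
    · rw [Bool.not_true, mk_false, map_inv]
      exact mul_inv_cancel _
  · exact π_Rl (.a _ h)
  · exact π_Rl (.u _ _ h)
  · rw [← homH_mk]
    exact π_Rl (.h _ h)
  · rw [← phiX_mk]
    exact π_Rl (.q _ h.2)

lemma π_Step {n A : ℕ} {x y : 𝔇.WW} (h : Step (𝔇.Rn n) A x y) :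
    𝔇.π (FreeGroup.mk x) = 𝔇.π (FreeGroup.mk y) := by
  obtain ⟨-, -, u, ρ, v, h3, h4⟩ := h
  have h5 := π_Rn h3
  have h6 : 𝔇.π (FreeGroup.mk (u ++ ρ ++ v)) = 𝔇.π (FreeGroup.mk (u ++ v)) := by
    rw [mk_append, mk_append, mk_append, map_mul, map_mul, map_mul, h5, mul_one]
  rcases h4 with ⟨rfl, rfl⟩ | ⟨rfl, rfl⟩
  · exact h6.symm
  · exact h6

theorem π_Der {n A : ℕ} {x y : 𝔇.WW} (h : Der (𝔇.Rn n) A x y) :
    𝔇.π (FreeGroup.mk x) = 𝔇.π (FreeGroup.mk y) := by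
  unfold Der at h
  induction h with
  | refl => rfl
  | tail _ h ih => exact ih.trans (π_Step h)

theorem π_E {n A : ℕ} {x y : 𝔇.WW} (h : E (𝔇.Rn n) A x y) :
    𝔇.π (FreeGroup.mk x) = 𝔇.π (FreeGroup.mk y) := π_Der h.der

end Dat

end Pool.Agent.BH
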