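import Mathlib

set_option autoImplicit false

/-!
# Amalgams of two groups: elements commuting with one element of each factor are in the base
-/

namespace Pool.Agent.BH

open Monoid

namespace Amal

variable {H : Type} [Group H] {G : Bool → Type} [∀ b, Group (G b)] {φ : ∀ b, H →* G b}

variable (φ) in
/-- Reduced lists of letters. -/
def RL (l : List (Σ b, G b)) : Prop :=
  (∀ g ∈ l, g.2 ∉ (φ g.1).range) ∧ l.IsChain (fun p q => p.1 ≠ q.1)

variable (φ) in
/-- The product of a list of letters. -/
def pl (l : List (Σ b, G b)) : PushoutI φ := (l.map fun g => PushoutI.of g.1 g.2).prod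

lemma pl_nil : pl φ [] = 1 := rfl

lemma pl_cons (g : Σ b, G b) (l : List (Σ b, G b)) : pl φ (g :: l) = PushoutI.of g.1 g.2 * pl φ l := by
  simp [pl]

lemma pl_append (l l' : List (Σ b, G b)) : pl φ (l ++ l') = pl φ l * pl φ l' := by
  simp [pl]

/-- The word of a reduced list. -/
def RL.word {l : List (Σ b, G b)} (h : RL φ l) : CoprodI.Word G where
  toList := l
  ne_one := by
    intro g hg h1
    apply h.1 g hg
    rw [h1]
    exact one_mem _
  chain_ne := h.2

lemma RL.not_mem (hφ : ∀ b, Function.Injective (φ b)) {l : List (Σ b, G b)} (h : RL φ l)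
    (hl : l ≠ []) : pl φ l ∉ (PushoutI.base φ).range := by
  intro hm
  have h1 : PushoutI.ofCoprodI (φ := φ) h.word.prod = pl φ l := by
    simp only [CoprodI.Word.prod, RL.word, pl, map_list_prod, List.map_map]
    rfl
  have h2 : PushoutI.Reduced φ h.word := fun g hg => h.1 g hg
  have h3 := h2.eq_empty_of_mem_range hφ (by rw [h1]; exact hm)
  exact hl (congrArg CoprodI.Word.toList h3)

lemma exists_RL (hφ : ∀ b, Function.Injective (φ b)) (p : PushoutI φ) :
    p ∈ (PushoutI.base φ).range ∨ ∃ l, RL φ l ∧ l ≠ [] ∧ pl φ l = p := by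
  classical
  obtain ⟨d⟩ := PushoutI.NormalWord.transversal_nonempty φ hφ
  obtain ⟨w, rfl⟩ : ∃ w : PushoutI.NormalWord d, w.prod = p :=
    ⟨PushoutI.NormalWord.equiv p, PushoutI.NormalWord.equiv.symm_apply_apply p⟩
  have hprod : w.prod = PushoutI.base φ w.head * pl φ w.toList := by
    simp only [PushoutI.NormalWord.prod, CoprodI.Word.prod, pl, map_list_prod, List.map_map]
    rfl
  have hred : ∀ g ∈ w.toList, g.2 ∉ (φ g.1).range := by
    rintro ⟨b, g⟩ hg hr
    have h1 : g ∈ d.set b := w.normalized b g hg
    have h2 := (d.compl b).1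
    have h3 : (⟨⟨g, hr⟩, ⟨1, d.one_mem b⟩⟩ : ((φ b).range : Set (G b)) × d.set b) =
        ⟨⟨1, one_mem _⟩, ⟨g, h1⟩⟩ := h2 (by simp)
    have h4 : g = 1 := by
      have := congrArg (fun x => (x.1 : G b)) h3
      simpa using this
    exact w.ne_one _ hg h4
  rcases hw : w.toList with _ | ⟨g, t⟩
  · left
    rw [hprod, hw, pl_nil, mul_one]
    exact ⟨_, rfl⟩
  · right
    have hch := w.chain_ne
    rw [hw] at hch hred
    refine ⟨⟨g.1, φ g.1 w.head * g.2⟩ :: t, ⟨?_, ?_⟩, by simp, ?_⟩
    · intro q hq
      rcases List.mem_cons.1 hq with rfl | hq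
      · intro hr
        apply hred g (by simp)
        have := mul_mem (inv_mem (⟨w.head, rfl⟩ : φ g.1 w.head ∈ (φ g.1).range)) hr
        simpa using this
      · exact hred q (by simp [hq])
    · rw [List.isChain_cons] at hch ⊢
      exact hch
    · rw [hprod, hw, pl_cons, pl_cons, map_mul, PushoutI.of_apply_eq_base]
      simp [mul_assoc]

lemma RL.ne_of (hφ : ∀ b, Function.Injective (φ b)) {l : List (Σ b, G b)} (h : RL φ l)
    (hl : l ≠ []) {b : Bool} (hb : ∀ q ∈ l.head?, q.1 ≠ b) (y : G b) :
    pl φ l ≠ PushoutI.of b y := by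
  intro he
  by_cases hy : y ∈ (φ b).range
  · obtain ⟨h', rfl⟩ := hy
    apply h.not_mem hφ hl
    rw [he, PushoutI.of_apply_eq_base]
    exact ⟨_, rfl⟩
  · have h1 : RL φ (⟨b, y⁻¹⟩ :: l) := by
      refine ⟨?_, ?_⟩
      · intro q hq
        rcases List.mem_cons.1 hq with rfl | hq
        · simpa using hy
        · exact h.1 q hq
      · rw [List.isChain_cons]
        exact ⟨fun q hq => (hb q hq).symm, h.2⟩
    apply h1.not_mem hφ (by simp)
    rw [pl_cons, he, ← map_mul]
    simp only [inv_mul_cancel, map_one]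
    exact one_mem _

/-- The inverse list. -/
def il (l : List (Σ b, G b)) : List (Σ b, G b) := (l.map fun g => ⟨g.1, g.2⁻¹⟩).reverse

lemma pl_il (l : List (Σ b, G b)) : pl φ (il l) = (pl φ l)⁻¹ := by
  simp only [pl, il, List.prod_inv_reverse, List.map_map, List.map_reverse]
  congr 2

lemma RL.il {l : List (Σ b, G b)} (h : RL φ l) : RL φ (Amal.il l) := by
  refine ⟨?_, ?_⟩
  · intro q hq
    simp only [Amal.il, List.mem_reverse, List.mem_map] at hq
    obtain ⟨g, hg, rfl⟩ := hq
    simpa using h.1 g hg
  · simp only [Amal.il, List.isChain_reverse, List.isChain_map]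
    exact h.2.imp fun p q hpq => hpq.symm

lemma RL.conj {l : List (Σ b, G b)} (h : RL φ l) {b : Bool} (hb : ∀ q ∈ l.getLast?, q.1 ≠ b)
    {x : G b} (hx : x ∉ (φ b).range) : RL φ (l ++ (⟨b, x⟩ :: Amal.il l)) := by
  refine ⟨?_, ?_⟩
  · intro q hq
    rcases List.mem_append.1 hq with hq | hq
    · exact h.1 q hq
    · rcases List.mem_cons.1 hq with rfl | hq
      · exact hx
      · exact h.il.1 q hq
  · rw [List.isChain_append]
    refine ⟨h.2, ?_, ?_⟩
    · rw [List.isChain_cons]
      refine ⟨?_, h.il.2⟩
      intro q hq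
      simp only [Amal.il, List.head?_reverse, List.getLast?_map, Option.mem_def,
        Option.map_eq_some_iff] at hq
      obtain ⟨g, hg, rfl⟩ := hq
      exact (hb g hg).symm
    · intro p hp q hq
      simp only [List.head?_cons, Option.mem_def, Option.some.injEq] at hq
      rw [← hq]
      exact hb p hp

lemma pl_conj (l : List (Σ b, G b)) (b : Bool) (x : G b) :
    pl φ (l ++ (⟨b, x⟩ :: il l)) = pl φ l * PushoutI.of b x * (pl φ l)⁻¹ := by
  rw [pl_append, pl_cons, pl_il, mul_assoc]

/-- An element that commutes with an element of each factor outside of the base is in the base. -/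
theorem mem_base (hφ : ∀ b, Function.Injective (φ b)) (p : PushoutI φ) (x : ∀ b, G b)
    (hx : ∀ b, x b ∉ (φ b).range) (hp : ∀ b, p * PushoutI.of b (x b) = PushoutI.of b (x b) * p) :
    p ∈ (PushoutI.base φ).range := by
  rcases exists_RL hφ p with h | ⟨l, hl, hne, rfl⟩
  · exact h
  · exfalso
    rcases l with _ | ⟨g, l⟩
    · exact hne rfl
    have hconj : ∀ b, pl φ (g :: l) * PushoutI.of b (x b) * (pl φ (g :: l))⁻¹ =
        PushoutI.of b (x b) := by
      intro b
      rw [hp, mul_inv_cancel_right]
    by_cases hlast : ∀ q ∈ (g :: l).getLast?, q.1 ≠ g.1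
    · -- the last index is different from the first one
      have hl' : l ≠ [] := by
        rintro rfl
        exact hlast g (by simp) rfl
      have hlr : RL φ l := ⟨fun q hq => hl.1 q (by simp [hq]), hl.2.tail⟩
      have hlast' : ∀ q ∈ l.getLast?, q.1 ≠ g.1 := by
        intro q hq
        apply hlast q
        rw [List.getLast?_cons]
        simp only [Option.mem_def] at hq ⊢
        rw [hq]; rfl
      have h1 := hlr.conj hlast' (hx g.1)
      have h2 := h1.ne_of hφ (b := g.1) (by simp) (by
        intro q hq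
        have h3 := hl.2
        rw [List.isChain_cons] at h3
        apply Ne.symm
        apply h3.1 q
        rcases l with _ | ⟨a, l⟩
        · exact absurd rfl hl'
        · simpa using hq) (g.2⁻¹ * x g.1 * g.2)
      apply h2
      rw [pl_conj]
      have h4 := hconj g.1
      rw [pl_cons] at h4
      rw [map_mul, map_mul, map_inv]
      generalize PushoutI.of (φ := φ) g.1 g.2 = A at h4 ⊢
      generalize PushoutI.of (φ := φ) g.1 (x g.1) = X at h4 ⊢
      generalize pl φ l = Y at h4 ⊢
      rw [mul_inv_eq_iff_eq_mul] at h4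
      rw [mul_inv_eq_iff_eq_mul]
      calc Y * X = A⁻¹ * (A * Y * X) := by group
        _ = A⁻¹ * (X * (A * Y)) := by rw [h4]
        _ = A⁻¹ * X * A * Y := by group
    · -- the last index is the first one
      push Not at hlast
      obtain ⟨q, hq, hqg⟩ := hlast
      have hb : ∀ q ∈ (g :: l).getLast?, q.1 ≠ !g.1 := by
        intro q' hq'
        have : q' = q := by
          simp only [Option.mem_def] at hq hq'
          rw [hq] at hq'
          exact (Option.some.inj hq').symm
        rw [this, hqg]
        cases g.1 <;> decide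
      have h1 := hl.conj hb (hx (!g.1))
      have h2 := h1.ne_of hφ (b := !g.1) (by simp) (by
        intro q hq
        simp only [List.cons_append, List.head?_cons, Option.mem_def, Option.some.injEq] at hq
        rw [← hq]
        cases g.1 <;> decide) (x (!g.1))
      exact h2 (by rw [pl_conj, hconj])

end Amal

end Pool.Agent.BH
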