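import Pool.Agent.BH.MDefs

set_option autoImplicit false

/-!
# MB1: membership in the subgroup `R1` through accumulators
-/

namespace Pool.Agent.BH

open Monoid

attribute [-simp] FreeGroup.mul_mk FreeGroup.inv_mk

namespace Dat

variable {𝔇 : Dat}

namespace MB1

/-- The accumulator: class `c` and exponent sum `s` of the current run. -/
def Ac (c : 𝔇.L) (s : Z3) : List (𝔇.L × Z3) → Prop
  | [] => s = 1
  | p :: l => (cl p.1 = c ∧ Ac c (s * p.2) l) ∨ (cl p.1 ≠ c ∧ s = 1 ∧ Ac (cl p.1) p.2 l)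

lemma Ac_cons_eq {c : 𝔇.L} {s : Z3} {p : 𝔇.L × Z3} {l : List (𝔇.L × Z3)} (h : cl p.1 = c) :
    Ac c s (p :: l) ↔ Ac c (s * p.2) l := by
  simp [Ac, h]

lemma Ac_cons_ne {c : 𝔇.L} {s : Z3} {p : 𝔇.L × Z3} {l : List (𝔇.L × Z3)} (h : cl p.1 ≠ c) :
    Ac c s (p :: l) ↔ s = 1 ∧ Ac (cl p.1) p.2 l := by
  simp [Ac, h]

/-- With exponent sum zero the class does not matter. -/
lemma Ac_one (c c' : 𝔇.L) (l : List (𝔇.L × Z3)) : Ac c 1 l ↔ Ac c' 1 l := by
  rcases l with _ | ⟨p, l⟩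
  · exact Iff.rfl
  · have aux : ∀ c : 𝔇.L, Ac c 1 (p :: l) ↔ Ac (cl p.1) p.2 l := by
      intro c
      by_cases h : cl p.1 = c
      · rw [Ac_cons_eq h, one_mul, h]
      · rw [Ac_cons_ne h]; simp
    rw [aux, aux]

lemma Ac_consR {c : 𝔇.L} {s : Z3} {p : 𝔇.L × Z3} {l : List (𝔇.L × Z3)} (h : cl p.1 = c) :
    Ac c s (consR p l) ↔ Ac c (s * p.2) l := by
  rcases l with _ | ⟨q, l⟩
  · simp only [consR]
    split_ifs with h1
    · rw [h1, mul_one]
    · rw [Ac_cons_eq h]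
  · simp only [consR]
    split_ifs with h1 h2 h3
    · rw [Ac_cons_eq (by rw [h1, h]), mul_assoc, h2, mul_one]
    · rw [Ac_cons_eq (p := (p.1, p.2 * q.2)) h, Ac_cons_eq (by rw [h1, h]), mul_assoc]
    · rw [h3, mul_one]
    · rw [Ac_cons_eq h]

/-- The accumulator of an element. -/
def An (c : 𝔇.L) (s : Z3) (n : 𝔇.Nn) : Prop := Ac c s (nf n)

lemma An_one_iff (c c' : 𝔇.L) (n : 𝔇.Nn) : An c 1 n ↔ An c' 1 n := Ac_one _ _ _

lemma An_fp {c h : 𝔇.L} (s a : Z3) (n : 𝔇.Nn) (hc : cl h = c) :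
    An c s (fp h a * n) ↔ An c (s * a) n := by
  rw [An, nf_fp_mul, Ac_consR (p := (h, a)) hc]
  exact Iff.rfl

lemma An_nil {c : 𝔇.L} {s : Z3} : An c s (1 : 𝔇.Nn) ↔ s = 1 := by
  rw [An, nf_one]
  exact Iff.rfl

lemma An_gen {h h' : 𝔇.L} (hc : cl h = cl h') (a : Z3) (n : 𝔇.Nn) :
    An 1 1 (fp h a * (fp h' a)⁻¹ * n) ↔ An 1 1 n := by
  rw [An_one_iff 1 (cl h), mul_assoc, An_fp _ _ _ rfl, ← map_inv, An_fp _ _ _ hc.symm,
    one_mul, mul_inv_cancel]
  exact An_one_iff _ _ _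

lemma Ac_mem {c h : 𝔇.L} {s : Z3} {l : List (𝔇.L × Z3)} (hl : Ac c s l) (hc : cl h = c) :
    fp h s * pr l ∈ 𝔇.R1 := by
  induction l generalizing c h s with
  | nil =>
    have : s = 1 := hl
    simp [this, one_mem]
  | cons p l ih =>
    by_cases h1 : cl p.1 = c
    · rw [Ac_cons_eq h1] at hl
      have e : fp h s * pr (p :: l) = (fp h s * (fp p.1 s)⁻¹) * (fp p.1 (s * p.2) * pr l) := by
        rw [pr_cons, map_mul]
        group
      rw [e]
      exact mul_mem (Subgroup.subset_closure ⟨h, p.1, s, hc.trans h1.symm, rfl⟩) (ih hl h1)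
    · rw [Ac_cons_ne h1] at hl
      rw [hl.1, map_one, one_mul, pr_cons]
      exact ih hl.2 rfl

/-- The run criterion. -/
lemma mem_R1_iff {n : 𝔇.Nn} : n ∈ 𝔇.R1 ↔ An 1 1 n := by
  constructor
  · intro hn
    have key : ∀ m : 𝔇.Nn, An 1 1 (n * m) ↔ An 1 1 m := by
      unfold R1 at hn
      induction hn using Subgroup.closure_induction with
      | mem y hy =>
        obtain ⟨h, h', a, hc, rfl⟩ := hy
        intro m
        exact An_gen hc a m
      | one => intro m; rw [one_mul]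
      | mul a b _ _ ha hb => intro m; rw [mul_assoc, ha, hb]
      | inv a _ ha => intro m; rw [← ha, mul_inv_cancel_left]
    have := (key 1).2 (An_nil.2 rfl)
    rwa [mul_one] at this
  · intro h
    have := Ac_mem (h := (1 : 𝔇.L)) ((An_one_iff 1 (cl (1 : 𝔇.L)) n).1 h) rfl
    rwa [map_one, one_mul, pr_nf] at this

/-! ### Values of words without `e` and `c` -/

lemma evL_cons' (a : KG 𝔇.J 𝔇.B 𝔇.Hg × Bool) (x : 𝔇.KW) : evL (a :: x) = evL [a] * evL x := by
  rw [← evL_append]; rfl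
lemma evL_true' (κ : KG 𝔇.J 𝔇.B 𝔇.Hg) : evL (𝔇 := 𝔇) [(κ, true)] = 𝔇.lv κ := by
  rw [evL, mk_true, FreeGroup.lift_apply_of]
lemma evL_false' (κ : KG 𝔇.J 𝔇.B 𝔇.Hg) : evL (𝔇 := 𝔇) [(κ, false)] = (𝔇.lv κ)⁻¹ := by
  rw [evL, mk_false, map_inv, FreeGroup.lift_apply_of]

lemma kv_L {κ : KG 𝔇.J 𝔇.B 𝔇.Hg} (h1 : κ ≠ .e) (h2 : κ ≠ .y .c) :
    𝔇.kv κ = SemidirectProduct.inr (SemidirectProduct.inl (𝔇.lv κ)) := by
  rcases κ with _ | _ | _ | y
  · exact absurd rfl h1
  · rfl
  · rfl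
  · rcases y with _ | _ | _ | _ | _ | _
    · rfl
    · rfl
    · rfl
    · rfl
    · rfl
    · exact absurd rfl h2

lemma evK_Laux {x : 𝔇.KW} (hx : ∀ p ∈ x, p.1 ≠ .e ∧ p.1 ≠ .y .c) :
    evK x = SemidirectProduct.inr (SemidirectProduct.inl (evL x)) := by
  induction x with
  | nil => simp
  | cons p x ih =>
    rw [evK_cons, evL_cons', map_mul, map_mul, ih fun q hq => hx q (by simp [hq])]
    congr 1
    have h := hx p (by simp)
    rcases p with ⟨κ, _ | _⟩
    · rw [evK_false, evL_false', kv_L h.1 h.2, map_inv, map_inv]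
    · rw [evK_true, evL_true', kv_L h.1 h.2]

/-- The value of a positive word in the letters `b`. -/
def vB (l : List 𝔇.B) : 𝔇.D := (1, FreeGroup.mk (l.map (·, true)))

lemma evL_b (l : List 𝔇.B) :
    evL (𝔇 := 𝔇) (l.map fun β => (KG.y (.b β), true)) = inD (vB l) := by
  induction l with
  | nil => exact (map_one (inD (𝔇 := 𝔇))).symm
  | cons a l ih =>
    rw [List.map_cons, evL_cons', ih, evL_true']
    change inD (1, FreeGroup.of a) * inD (vB l) = _
    rw [← map_mul]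
    congr 1

lemma evL_s (u : List (Option 𝔇.J)) :
    evL (𝔇 := 𝔇) (u.map fun σ => (KG.y (.s σ), true)) = inS (fo false u) := by
  induction u with
  | nil => exact (map_one (inS (𝔇 := 𝔇))).symm
  | cons a l ih =>
    rw [List.map_cons, evL_cons', ih, evL_true']
    change inS (FreeGroup.of (some a)) * inS (fo false l) = _
    rw [← map_mul]
    congr 1

lemma inS_r (u : List (Option 𝔇.J)) :
    (inS (FreeGroup.of none) : 𝔇.L) * inS (fo false u) = inS (fo true u) := by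
  rw [← map_mul]
  congr 1

lemma evK_cj (p x : 𝔇.KW) : evK (cj p x) = evK p * evK x * (evK p)⁻¹ := by
  rw [cj, evK_append, evK_append, evK_inv]

lemma conj_e (h : 𝔇.L) (a : Z3) :
    (SemidirectProduct.inr (SemidirectProduct.inl h) : 𝔇.K) * SemidirectProduct.inl (fp 1 a) *
      (SemidirectProduct.inr (SemidirectProduct.inl h))⁻¹ = SemidirectProduct.inl (fp h a) := by
  rw [← map_inv, ← SemidirectProduct.inl_aut]
  congr 1
  simp [aL_apply, bL]

theorem evK_mK (u : List (Option 𝔇.J)) : evK (mK u) = SemidirectProduct.inl (mL u) := by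
  rw [mK, evK_append, evK_cj, evK_cj]
  have h1 : evK (𝔇 := 𝔇) ((𝔇.pb.map fun β => (KG.y (.b β), true)) ++ [(KG.y .r, true)] ++
      (u.map fun σ => (KG.y (.s σ), true))) =
      SemidirectProduct.inr (SemidirectProduct.inl (bU u)) := by
    rw [evK_Laux, evL_append, evL_append, evL_b, evL_s, evL_true', mul_assoc]
    · congr 2
      change inD (vB 𝔇.pb) * (inS (FreeGroup.of none) * _) = _
      rw [inS_r]
      rfl
    · intro p hp
      simp only [List.mem_append, List.mem_map, List.mem_singleton] at hp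
      rcases hp with (⟨_, -, rfl⟩ | rfl) | ⟨_, -, rfl⟩ <;> simp
  have h2 : evK (𝔇 := 𝔇) ((𝔇.pt.map fun β => (KG.y (.b β), true)) ++
      (u.map fun σ => (KG.y (.s σ), true))) =
      SemidirectProduct.inr (SemidirectProduct.inl (aU u)) := by
    rw [evK_Laux, evL_append, evL_b, evL_s]
    · rfl
    · intro p hp
      simp only [List.mem_append, List.mem_map] at hp
      rcases hp with ⟨_, -, rfl⟩ | ⟨_, -, rfl⟩ <;> simp
  rw [h1, h2, evK_true, evK_false]
  change _ * SemidirectProduct.inl (fp 1 g3) * _ * (_ * (SemidirectProduct.inl (fp 1 g3))⁻¹ * _) = _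
  rw [conj_e, ← map_inv SemidirectProduct.inl, ← map_inv (fp 1), conj_e, ← map_mul, mL, map_inv]

/-! ### Classes of the elements in `m (u)` -/

lemma split_some (u : List (Option 𝔇.J)) : ∃ (t : List 𝔇.J) (v : List (Option 𝔇.J)),
    u = t.map some ++ v ∧ (v = [] ∨ ∃ v', v = none :: v') := by
  induction u with
  | nil => exact ⟨[], [], rfl, Or.inl rfl⟩
  | cons a u ih =>
    rcases a with _ | j
    · exact ⟨[], none :: u, rfl, Or.inr ⟨u, rfl⟩⟩
    · obtain ⟨t, v, rfl, h⟩ := ih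
      exact ⟨j :: t, v, rfl, h⟩

lemma rd_false (δ : 𝔇.D) (t : List 𝔇.J) {v : List (Option 𝔇.J)}
    (hv : v = [] ∨ ∃ v', v = none :: v') :
    rd δ false (t.map some ++ v) = inD (δ * (t.map 𝔇.α).prod) * inS (fo false v) := by
  induction t generalizing δ with
  | nil =>
    rw [List.map_nil, List.nil_append, List.map_nil, List.prod_nil, mul_one]
    rcases hv with rfl | ⟨v', rfl⟩ <;> rfl
  | cons j t ih =>
    rw [List.map_cons, List.cons_append, rd, ih, List.map_cons, List.prod_cons, mul_assoc]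

lemma rd_true_nil (δ : 𝔇.D) (t : List 𝔇.J) :
    rd δ true (t.map some) = inD (δ * (t.map 𝔇.β).prod) * inS (fo true []) := by
  induction t generalizing δ with
  | nil =>
    rw [List.map_nil, List.map_nil, List.prod_nil, mul_one]
    rfl
  | cons j t ih =>
    rw [List.map_cons, rd, ih, List.map_cons, List.prod_cons, mul_assoc]

lemma rd_true_none (δ : 𝔇.D) (t : List 𝔇.J) (v : List (Option 𝔇.J)) :
    rd δ true (t.map some ++ none :: v) =
      inD (δ * (t.map 𝔇.β).prod) * inS (fo false (none :: v)) := by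
  induction t generalizing δ with
  | nil =>
    rw [List.map_nil, List.nil_append, List.map_nil, List.prod_nil, mul_one]
    rfl
  | cons j t ih =>
    rw [List.map_cons, List.cons_append, rd, ih, List.map_cons, List.prod_cons, mul_assoc]

lemma prod_α (t : List 𝔇.J) : (t.map 𝔇.α).prod =
    (QuotientGroup.mk (FreeGroup.mk (𝔇.S.labs t)),
      FreeGroup.mk ((t.flatMap 𝔇.S.top).map (·, true))) := by
  induction t with
  | nil => rfl
  | cons j t ih =>
    rw [List.map_cons, List.prod_cons, ih, α, Prod.mk_mul_mk]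
    refine Prod.ext ?_ ?_
    · change QuotientGroup.mk _ * QuotientGroup.mk _ = (QuotientGroup.mk _ : 𝔇.Q)
      rw [← QuotientGroup.mk_mul, ← mk_append]
      congr 2
      rcases h : 𝔇.S.lab j with _ | x
      · simp [Sys.labs, h]
      · simp [Sys.labs, h]
    · change FreeGroup.mk _ * FreeGroup.mk _ = FreeGroup.mk _
      rw [← mk_append, List.flatMap_cons, List.map_append]

lemma prod_β (t : List 𝔇.J) : (t.map 𝔇.β).prod =
    ((1 : 𝔇.Q), FreeGroup.mk ((t.flatMap 𝔇.S.bot).map (·, true))) := by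
  induction t with
  | nil => rfl
  | cons j t ih =>
    rw [List.map_cons, List.prod_cons, ih, β, Prod.mk_mul_mk]
    refine Prod.ext (one_mul _) ?_
    change FreeGroup.mk _ * FreeGroup.mk _ = FreeGroup.mk _
    rw [← mk_append, List.flatMap_cons, List.map_append]

/-- Goodness: the classes of the two elements are different. -/
theorem cl_ne (hg : 𝔇.Good)
    (u : List (Option 𝔇.J)) : cl (aU u) ≠ cl (bU (𝔇 := 𝔇) u) := by
  intro h
  replace h := h.symm
  rw [bU, aU, cl_form, cl_form] at h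
  obtain ⟨t, v, rfl, hv⟩ := split_some u
  rw [rd_false _ _ hv] at h
  rcases hv with rfl | ⟨v', rfl⟩
  · rw [List.append_nil, rd_true_nil] at h
    exact absurd (form_inj h).2.1 (by simp)
  · rw [rd_true_none] at h
    have h1 := (form_inj h).1
    rw [prod_α, prod_β, ptD, pbD, Prod.mk_mul_mk, Prod.mk_mul_mk, one_mul, one_mul, Prod.mk.injEq,
      ← mk_append, ← mk_append, ← List.map_append, ← List.map_append] at h1
    refine hg t ((QuotientGroup.eq_one_iff _).1 h1.1.symm) ?_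
    have h2 := pos_inj h1.2 (by
        intro p hp
        obtain ⟨_, -, rfl⟩ := List.mem_map.1 hp
        rfl) (by
        intro p hp
        obtain ⟨_, -, rfl⟩ := List.mem_map.1 hp
        rfl)
    have hinj : Function.Injective fun b : 𝔇.B => (b, true) := fun a b hab => by simpa using hab
    exact (List.map_injective_iff.2 hinj h2).symm

lemma bU_inj {u u' : List (Option 𝔇.J)} (h : bU u = bU u') : u = u' :=
  (form_inj h).2.2

lemma aU_inj {u u' : List (Option 𝔇.J)} (h : aU u = aU u') : u = u' :=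
  (form_inj h).2.2

theorem head_R1 (hg : 𝔇.Good) (u : List (Option 𝔇.J)) {ρ : 𝔇.Nn} (hρ : ρ ∈ 𝔇.R1) :
    ∃ l, nf (mL u * ρ) = (bU u, g3) :: l := by
  have h1 : An (cl (aU u)) g3 (fp (aU u) g3⁻¹ * ρ) := by
    rw [An_fp _ _ _ rfl, mul_inv_cancel]
    exact (An_one_iff _ _ _).1 (mem_R1_iff.1 hρ)
  rw [mL, ← map_inv, mul_assoc, nf_fp_mul]
  rw [An] at h1
  rcases hx : nf (fp (aU u) g3⁻¹ * ρ) with _ | ⟨q, l⟩
  · rw [hx] at h1
    exact absurd h1 g3_ne
  · rw [hx] at h1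
    have h2 : cl q.1 = cl (aU u) := by
      by_contra h2
      rw [Ac_cons_ne h2] at h1
      exact g3_ne h1.1
    have h3 : q.1 ≠ bU u := fun h3 => cl_ne hg u (by rw [← h2, h3])
    refine ⟨q :: l, ?_⟩
    simp only [consR, if_neg h3, if_neg g3_ne]

theorem R1_list {l : List (𝔇.L × Z3)} (hl : Rd l) (h : pr l ∈ 𝔇.R1) :
    l = [] ∨ ∃ p q l', l = p :: q :: l' ∧ cl p.1 = cl q.1 := by
  rcases l with _ | ⟨p, l⟩
  · exact Or.inl rfl
  · right
    have hp : p.2 ≠ 1 := hl.1 p (by simp)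
    rw [mem_R1_iff, An, nf_eq hl rfl, Ac_one 1 (cl p.1), Ac_cons_eq rfl, one_mul] at h
    rcases l with _ | ⟨q, l⟩
    · exact absurd h hp
    · refine ⟨p, q, l, rfl, ?_⟩
      by_contra hne
      rw [Ac_cons_ne (fun h' => hne h'.symm)] at h
      exact hp h.1

/-- `m (u)` is not in `R1`. -/
theorem mL_R1 (hg : 𝔇.Good)
    (u : List (Option 𝔇.J)) : mL u ∉ 𝔇.R1 := by
  rw [mem_R1_iff, mL, An_one_iff 1 (cl (bU u)), An_fp _ _ _ rfl, one_mul, An, ← map_inv,
    nf_eq (l := [(aU u, g3⁻¹)]) ⟨by simp [g3_ne], List.IsChain.singleton _⟩ (by simp),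
    Ac_cons_ne (cl_ne hg u)]
  exact fun h => g3_ne h.1

/-- The elements `m (u)` are different modulo `R1`. -/
theorem mL_inj (hg : 𝔇.Good)
    {u u' : List (Option 𝔇.J)} (h : (mL u)⁻¹ * mL u' ∈ 𝔇.R1) : u = u' := by
  by_contra hne
  have e : (mL u)⁻¹ * mL u' = fp (aU u) g3 * pr [(bU u, g3⁻¹), (bU u', g3),
      (aU u', g3⁻¹)] := by
    simp only [mL, pr_cons, pr_nil, map_inv]
    group
  rw [mem_R1_iff, e, An_one_iff 1 (cl (aU u)), An_fp _ _ _ rfl, one_mul, An, nf_pr] at h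
  have hrd : Rd [(bU u, g3⁻¹), (bU u', g3), (aU u', g3⁻¹)] := by
    refine ⟨by simp [g3_ne], ?_⟩
    simp only [List.isChain_cons_cons, List.isChain_singleton, and_true]
    refine ⟨fun h => hne (bU_inj h), fun h => cl_ne hg u' (congrArg cl h.symm)⟩
  rw [show rdc [(bU u, g3⁻¹), (bU u', g3), (aU u', g3⁻¹)] =
      [(bU u, g3⁻¹), (bU u', g3), (aU u', g3⁻¹)] from
      Rd.inj (rdc_rd _) hrd (pr_rdc _), Ac_cons_ne (cl_ne hg u).symm] at h
  exact g3_ne h.1

end MB1

/-! ### The statements of the section MB1 -/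

theorem evK_mK (u : List (Option 𝔇.J)) : evK (mK u) = SemidirectProduct.inl (mL u) :=
  MB1.evK_mK u

theorem cl_ne (hg : 𝔇.Good) (u : List (Option 𝔇.J)) : cl (aU u) ≠ cl (bU (𝔇 := 𝔇) u) :=
  MB1.cl_ne hg u

theorem head_R1 (hg : 𝔇.Good) (u : List (Option 𝔇.J)) {ρ : 𝔇.Nn} (hρ : ρ ∈ 𝔇.R1) :
    ∃ l, nf (mL u * ρ) = (bU u, g3) :: l := MB1.head_R1 hg u hρ

theorem mL_R1 (hg : 𝔇.Good) (u : List (Option 𝔇.J)) : mL u ∉ 𝔇.R1 := MB1.mL_R1 hg u

theorem mL_inj (hg : 𝔇.Good) {u u' : List (Option 𝔇.J)} (h : (mL u)⁻¹ * mL u' ∈ 𝔇.R1) :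
    u = u' := MB1.mL_inj hg h

theorem R1_list {l : List (𝔇.L × Z3)} (hl : Rd l) (h : pr l ∈ 𝔇.R1) :
    l = [] ∨ ∃ p q l', l = p :: q :: l' ∧ cl p.1 = cl q.1 := MB1.R1_list hl h

end Dat

end Pool.Agent.BH
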