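import Pool.Agent.BH.MB1

set_option autoImplicit false

/-!
# Module M, section MB2: positions
-/

namespace Pool.Agent.BH

open Monoid

attribute [-simp] FreeGroup.mul_mk FreeGroup.inv_mk

namespace MB2

/-! ### Permutations of the plane -/

/-- A rotation of order three. -/
def wP : Equiv.Perm (ℤ × ℤ) where
  toFun p := (-p.2, p.1 - p.2)
  invFun p := (p.2 - p.1, -p.1)
  left_inv := by rintro ⟨x, y⟩; simp
  right_inv := by rintro ⟨x, y⟩; simp

/-- Another rotation of order three. -/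
def vP : Equiv.Perm (ℤ × ℤ) where
  toFun p := (p.2 - p.1 + 1, 2 - p.1)
  invFun p := (2 - p.2, p.1 - p.2 + 1)
  left_inv := by
    rintro ⟨x, y⟩
    ext <;> simp <;> ring
  right_inv := by
    rintro ⟨x, y⟩
    ext <;> simp <;> ring

/-- The reflection. -/
def cP : Equiv.Perm (ℤ × ℤ) := Equiv.prodComm ℤ ℤ

lemma wP_apply (x y : ℤ) : wP (x, y) = (-y, x - y) := rfl
lemma vP_apply (x y : ℤ) : vP (x, y) = (y - x + 1, 2 - x) := rfl
lemma cP_apply (x y : ℤ) : cP (x, y) = (y, x) := rfl

lemma wP3 : wP ^ 3 = 1 := by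
  ext1 ⟨x, y⟩
  simp only [pow_succ, pow_zero, one_mul, Equiv.Perm.mul_apply, wP_apply, Equiv.Perm.one_apply]
  ext <;> simp <;> ring

lemma vP3 : vP ^ 3 = 1 := by
  ext1 ⟨x, y⟩
  simp only [pow_succ, pow_zero, one_mul, Equiv.Perm.mul_apply, vP_apply, Equiv.Perm.one_apply]
  ext <;> simp <;> ring

lemma cP2 : cP * cP = 1 := by
  ext1 ⟨x, y⟩
  rfl

lemma cP_inv : cP⁻¹ = cP := inv_eq_of_mul_eq_one_left cP2

lemma cwc : cP * wP * cP⁻¹ = wP⁻¹ := by
  rw [cP_inv, eq_inv_iff_mul_eq_one]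
  ext1 ⟨x, y⟩
  simp only [Equiv.Perm.mul_apply, wP_apply, cP_apply, Equiv.Perm.one_apply]
  ext <;> simp

lemma cvc : cP * vP * cP⁻¹ = vP⁻¹ := by
  rw [cP_inv, eq_inv_iff_mul_eq_one]
  ext1 ⟨x, y⟩
  simp only [Equiv.Perm.mul_apply, vP_apply, cP_apply, Equiv.Perm.one_apply]
  ext <;> simp <;> ring

lemma gP_pow (k : ℕ) (x y : ℤ) : ((wP * vP) ^ k) (x, y) = (x - 2 * k, y - k) := by
  induction k with
  | zero => simp
  | succ k ih =>
    rw [pow_succ', Equiv.Perm.mul_apply, ih, Equiv.Perm.mul_apply, vP_apply, wP_apply]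
    push_cast
    ext <;> simp <;> ring

/-- Homomorphisms from the group of order three. -/
def z3h {G : Type} [Group G] (σ : G) (h : σ ^ 3 = 1) : Z3 →* G where
  toFun z := σ ^ (Multiplicative.toAdd z).val
  map_one' := by simp
  map_mul' a b := by
    rw [toAdd_mul, ZMod.val_add, ← pow_add]
    exact (pow_eq_pow_mod _ h).symm

lemma z3h_g3 {G : Type} [Group G] (σ : G) (h : σ ^ 3 = 1) : z3h σ h g3 = σ := by
  change σ ^ (1 : ZMod 3).val = σ
  rw [show (1 : ZMod 3).val = 1 from rfl, pow_one]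

lemma z3h_conj {G : Type} [Group G] (σ : G) (h : σ ^ 3 = 1) (c : G) (hc : c * σ * c⁻¹ = σ⁻¹)
    (z : Z3) : z3h σ h z⁻¹ = c * z3h σ h z * c⁻¹ := by
  rw [map_inv]
  change (σ ^ _)⁻¹ = c * σ ^ _ * c⁻¹
  rw [← conj_pow, hc, inv_pow]

end MB2

namespace Dat

open MB2

variable {𝔇 : Dat}

/-! ### The action on the plane -/

/-- The action of `L` on the plane. -/
def chiL (𝔇 : Dat) : 𝔇.L →* Equiv.Perm (ℤ × ℤ) := CoprodI.lift fun i => match i with
  | .w => (z3h wP wP3).comp ((MonoidHom.fst _ _).comp ((MonoidHom.snd _ _).comp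
      ((MonoidHom.snd _ _).comp (MonoidHom.snd _ _))))
  | .v => (z3h vP vP3).comp ((MonoidHom.snd _ _).comp ((MonoidHom.snd _ _).comp
      ((MonoidHom.snd _ _).comp (MonoidHom.snd _ _))))
  | _ => 1

lemma chiL_w (x : 𝔇.Γ) : 𝔇.chiL (fp LI.w x) = z3h wP wP3 x.2.2.2.1 := by
  simp [chiL, fp]
lemma chiL_v (x : 𝔇.Γ) : 𝔇.chiL (fp LI.v x) = z3h vP vP3 x.2.2.2.2 := by
  simp [chiL, fp]
lemma chiL_d (x : 𝔇.Γ) : 𝔇.chiL (fp LI.d x) = 1 := by
  simp [chiL, fp]
lemma chiL_h (x : 𝔇.Γ) : 𝔇.chiL (fp LI.h x) = 1 := by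
  simp [chiL, fp]
lemma chiL_s (x : 𝔇.Γ) : 𝔇.chiL (fp LI.s x) = 1 := by
  simp [chiL, fp]

lemma chiL_inD (x : 𝔇.D) : 𝔇.chiL (inD x) = 1 := chiL_d _
lemma chiL_inH (x : 𝔇.H) : 𝔇.chiL (inH x) = 1 := chiL_h _
lemma chiL_inS (x : 𝔇.FS) : 𝔇.chiL (inS x) = 1 := chiL_s _
lemma chiL_wL : 𝔇.chiL wL = wP := by
  rw [wL, chiL_w]
  exact z3h_g3 _ _
lemma chiL_vL : 𝔇.chiL vL = vP := by
  rw [vL, chiL_v]
  exact z3h_g3 _ _

/-- The sign acts by the reflection. -/
def chiC : ℤˣ →* Equiv.Perm (ℤ × ℤ) where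
  toFun u := if u = 1 then 1 else cP
  map_one' := by simp
  map_mul' u v := by
    have h0 : ((-1 : ℤˣ) = 1) = False := by decide
    rcases Int.units_eq_one_or u with rfl | rfl <;> rcases Int.units_eq_one_or v with rfl | rfl
    · simp
    · simp
    · simp
    · simp [h0, cP2]

lemma chiC_neg : chiC (-1) = cP := by
  have h0 : ((-1 : ℤˣ) = 1) = False := by decide
  simp [chiC, h0]

lemma chi_compat (u : ℤˣ) : (𝔇.chiL).comp (𝔇.cL u).toMonoidHom =
    (MulAut.conj (chiC u)).toMonoidHom.comp 𝔇.chiL := by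
  rcases Int.units_eq_one_or u with rfl | rfl
  · apply FP.hom_ext
    intro i x
    simp
  · apply FP.hom_ext
    intro i x
    rw [chiC_neg]
    change 𝔇.chiL (𝔇.cL (-1) (fp i x)) = cP * 𝔇.chiL (fp i x) * cP⁻¹
    rw [cL_fp]
    cases i
    · rw [chiL_d, chiL_d]; simp
    · rw [chiL_h, chiL_h]; simp
    · rw [chiL_s, chiL_s]; simp
    · rw [chiL_w, chiL_w]
      exact z3h_conj _ _ _ cwc _
    · rw [chiL_v, chiL_v]
      exact z3h_conj _ _ _ cvc _

/-- The action of the extension of `L` on the plane. -/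
def chiLC (𝔇 : Dat) : 𝔇.LC →* Equiv.Perm (ℤ × ℤ) :=
  SemidirectProduct.lift 𝔇.chiL chiC chi_compat

/-- The action of `K` on the plane. -/
def chi (𝔇 : Dat) : 𝔇.K →* Equiv.Perm (ℤ × ℤ) := 𝔇.chiLC.comp SemidirectProduct.rightHom

lemma chi_inr (x : 𝔇.LC) : 𝔇.chi (SemidirectProduct.inr x) = 𝔇.chiLC x := rfl

lemma chi_inl (x : 𝔇.Nn) : 𝔇.chi (SemidirectProduct.inl x) = 1 := by
  simp [chi]

lemma chi_R {k : 𝔇.K} (hk : k ∈ 𝔇.R) : 𝔇.chi k = 1 := by
  obtain ⟨δ, hδ⟩ := mem_DL.1 hk.2
  change 𝔇.chiLC k.right = 1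
  rw [← hδ, chiLC, SemidirectProduct.lift_inl, chiL_inD]

lemma ps_eq {x y : 𝔇.KW} (h : ps x = ps y) : (evK x)⁻¹ * evK y ∈ 𝔇.R := QuotientGroup.eq.1 h

lemma chi_ps {x y : 𝔇.KW} (h : ps x = ps y) : 𝔇.chi (evK x) = 𝔇.chi (evK y) := by
  have h1 := chi_R (ps_eq h)
  rw [map_mul, map_inv, inv_mul_eq_one] at h1
  exact h1

lemma chi_kv_e : 𝔇.chi (𝔇.kv .e) = 1 := chi_inl _
lemma chi_kv_w : 𝔇.chi (𝔇.kv .w) = wP := by
  change 𝔇.chiLC (SemidirectProduct.inl wL) = wP
  rw [chiLC, SemidirectProduct.lift_inl, chiL_wL]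
lemma chi_kv_v : 𝔇.chi (𝔇.kv .v) = vP := by
  change 𝔇.chiLC (SemidirectProduct.inl vL) = vP
  rw [chiLC, SemidirectProduct.lift_inl, chiL_vL]
lemma chi_kv_y (n : YG 𝔇.J 𝔇.B 𝔇.Hg) : 𝔇.chi (𝔇.kv (.y n)) = 1 ∨ 𝔇.chi (𝔇.kv (.y n)) = cP := by
  cases n
  case c =>
    right
    change 𝔇.chiLC (SemidirectProduct.inr (-1)) = cP
    rw [chiLC, SemidirectProduct.lift_inr, chiC_neg]
  all_goals
    left
    change 𝔇.chiLC (SemidirectProduct.inl _) = 1
    rw [chiLC, SemidirectProduct.lift_inl]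
  · exact chiL_inD _
  · exact chiL_inD _
  · exact chiL_inS _
  · exact chiL_inS _
  · exact chiL_inH _

/-- The subgroup generated by the reflection. -/
def CP : Subgroup (Equiv.Perm (ℤ × ℤ)) where
  carrier := {1, cP}
  one_mem' := by simp
  mul_mem' := by
    rintro a b (rfl | rfl) (rfl | rfl)
    · simp
    · simp
    · simp
    · left; exact cP2
  inv_mem' := by
    rintro a (rfl | rfl)
    · simp
    · right; exact cP_inv

lemma mem_CP {a : Equiv.Perm (ℤ × ℤ)} : a ∈ CP ↔ a = 1 ∨ a = cP := Iff.rfl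

lemma evK_mem {x : 𝔇.KW} {S : Subgroup 𝔇.K} (h : ∀ p ∈ x, 𝔇.kv p.1 ∈ S) : evK x ∈ S := by
  induction x with
  | nil => rw [evK_nil]; exact one_mem _
  | cons a x ih =>
    rw [evK_cons]
    refine mul_mem ?_ (ih fun p hp => h p (List.mem_cons_of_mem _ hp))
    have ha := h a List.mem_cons_self
    rcases a with ⟨κ, _ | _⟩
    · rw [evK_false]; exact inv_mem ha
    · rw [evK_true]; exact ha

lemma chi_Yw {x : 𝔇.KW} (hx : Yw x) : 𝔇.chi (evK x) = 1 ∨ 𝔇.chi (evK x) = cP := by
  have : evK x ∈ CP.comap 𝔇.chi := by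
    apply evK_mem
    intro p hp
    obtain ⟨n, hn⟩ := hx p hp
    rw [hn]
    exact chi_kv_y n
  exact this

lemma chi_gK (k : ℕ) : 𝔇.chi (evK (gK k)) = (wP * vP) ^ k := by
  induction k with
  | zero => simp [gK]
  | succ k ih =>
    have : (gK (k + 1) : 𝔇.KW) = [(KG.w, true)] ++ ([(KG.v, true)] ++ gK k) := by
      simp [gK, List.replicate_succ]
    rw [this, evK_append, evK_append, evK_true, evK_true, map_mul, map_mul, chi_kv_w, chi_kv_v, ih,
      pow_succ', mul_assoc]

/-- The element of `Nn` in the description of a position. -/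
def mO : Option (List (Option 𝔇.J)) → 𝔇.Nn
  | none => 1
  | some u => mL u

lemma evK_zD (d : 𝔇.PD) : evK (zD d) = evK (gK d.1) * SemidirectProduct.inl (mO d.2) := by
  rcases d with ⟨k, _ | u⟩
  · rw [zD, evK_append]
    simp [mO]
  · rw [zD, evK_append]
    exact congrArg (fun z => evK (gK k) * z) (evK_mK u)

lemma chi_zD (d : 𝔇.PD) : 𝔇.chi (evK (zD d)) = (wP * vP) ^ d.1 := by
  rw [evK_zD, map_mul, chi_gK, chi_inl, mul_one]

lemma g_ne_c {k k' : ℕ} (h : (wP * vP) ^ k = cP * (wP * vP) ^ k') : False := by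
  have h1 := DFunLike.congr_fun h (0, 0)
  have h2 := DFunLike.congr_fun h (1, 0)
  rw [Equiv.Perm.mul_apply, gP_pow, gP_pow, cP_apply] at h1 h2
  simp only [Prod.mk.injEq] at h1 h2
  omega

lemma g_inj {k k' : ℕ} (h : (wP * vP) ^ k = (wP * vP) ^ k') : k = k' := by
  have h1 := DFunLike.congr_fun h (0, 0)
  rw [gP_pow, gP_pow] at h1
  simp only [Prod.mk.injEq] at h1
  omega

theorem pos_exp {x y : 𝔇.KW} (hx : Yw x) (hy : Yw y) {d d' : 𝔇.PD} (h1 : 1 ≤ d.1) (h2 : 1 ≤ d'.1)
    (h : ps (x ++ zD d) = ps (y ++ zD d')) : d.1 = d'.1 := by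
  have h3 := chi_ps h
  rw [evK_append, evK_append, map_mul, map_mul, chi_zD, chi_zD] at h3
  rcases chi_Yw hx with e1 | e1 <;> rcases chi_Yw hy with e2 | e2
  · rw [e1, e2, one_mul, one_mul] at h3
    exact g_inj h3
  · rw [e1, e2, one_mul] at h3
    exact (g_ne_c h3).elim
  · rw [e1, e2, one_mul] at h3
    exact (g_ne_c h3.symm).elim
  · rw [e1, e2] at h3
    exact g_inj (mul_left_cancel h3)

theorem pos_main (hg : 𝔇.Good) {x : 𝔇.KW} {k : ℕ} {o o' : Option (List (Option 𝔇.J))}
    (h : ps (x ++ zD (k, o)) = ps (x ++ zD (k, o'))) : o = o' := by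
  have h1 := ps_eq h
  rw [evK_append, evK_append, evK_zD, evK_zD] at h1
  have h2 : ∀ a b c d : 𝔇.K, (a * (b * c))⁻¹ * (a * (b * d)) = c⁻¹ * d := by
    intro a b c d
    group
  rw [h2, ← map_inv, ← map_mul] at h1
  have h3 := h1.1
  rw [SemidirectProduct.left_inl] at h3
  rcases o with _ | u <;> rcases o' with _ | u'
  · rfl
  · simp only [mO, inv_one, one_mul] at h3
    exact (mL_R1 hg u' h3).elim
  · simp only [mO, mul_one] at h3
    exact (mL_R1 hg u (inv_mem_iff.1 h3)).elim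
  · rw [mL_inj hg h3]

/-! ### Indices -/

/-- Words without the letter `e` have a trivial left part. -/
lemma left_eq_one {x : 𝔇.KW} (hx : ∀ p ∈ x, p.1 ≠ KG.e) : (evK x).left = 1 := by
  have : evK x ∈ (SemidirectProduct.inr : 𝔇.LC →* 𝔇.K).range := by
    apply evK_mem
    intro p hp
    have := hx p hp
    cases hp1 : p.1
    case e => exact absurd hp1 this
    all_goals exact ⟨_, rfl⟩
  obtain ⟨l, hl⟩ := this
  rw [← hl, SemidirectProduct.left_inr]

lemma gK_letters (k : ℕ) : ∀ p ∈ (gK k : 𝔇.KW), p.1 = KG.w ∨ p.1 = KG.v := by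
  intro p hp
  simp only [gK, List.mem_flatten, List.mem_replicate] at hp
  obtain ⟨l, ⟨-, rfl⟩, hp⟩ := hp
  simp only [List.mem_cons, List.not_mem_nil, or_false] at hp
  rcases hp with rfl | rfl
  · exact Or.inl rfl
  · exact Or.inr rfl

/-- The indices of the left part of a word are given by its prefixes. -/
lemma index_prefix (x : 𝔇.KW) : ∀ q ∈ nf (evK x).left, ∃ p s : 𝔇.KW, x = p ++ s ∧
    q.1 = 𝔇.aL (evK p).right 1 := by
  induction x with
  | nil =>
    intro q hq
    rw [evK_nil, SemidirectProduct.one_left, nf_one] at hq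
    simp at hq
  | cons a x ih =>
    intro q hq
    rw [evK_cons, SemidirectProduct.mul_left] at hq
    rcases nf_mul_index hq with ⟨r, hr, e⟩ | ⟨r, hr, e⟩
    · refine ⟨[], a :: x, rfl, ?_⟩
      rw [← e, evK_nil, SemidirectProduct.one_right, map_one 𝔇.aL, Equiv.Perm.one_apply]
      by_cases ha : a.1 = KG.e
      · have h1 : (evK [a]).left = fp 1 g3 ∨ (evK [a]).left = (fp 1 g3)⁻¹ := by
          rcases a with ⟨κ, b⟩
          simp only at ha
          subst ha
          cases b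
          · right
            rw [evK_false]
            change (SemidirectProduct.inl (fp 1 g3) : 𝔇.K)⁻¹.left = _
            rw [← map_inv, SemidirectProduct.left_inl]
          · left
            rw [evK_true]
            rfl
        rcases h1 with h1 | h1
        · rw [h1] at hr
          exact nf_fp_index hr
        · rw [h1, ← map_inv] at hr
          exact nf_fp_index hr
      · rw [left_eq_one (by simpa using ha), nf_one] at hr
        simp at hr
    · rw [nf_act] at hr
      obtain ⟨q', hq', rfl⟩ := List.mem_map.1 hr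
      obtain ⟨p, s, rfl, h2⟩ := ih q' hq'
      refine ⟨a :: p, s, rfl, ?_⟩
      rw [← e, evK_cons a p, SemidirectProduct.mul_right, map_mul, Equiv.Perm.mul_apply, ← h2]

/-! ### The exponent sum of the letters `s` -/

/-- The exponent sum on the free group. -/
def eS0 (𝔇 : Dat) : 𝔇.FS →* Multiplicative ℤ :=
  FreeGroup.lift fun o => o.elim 1 fun _ => Multiplicative.ofAdd 1

lemma prS_cL (u : ℤˣ) (x : 𝔇.L) : prS (𝔇.cL u x) = prS x := by
  have : (prS (𝔇 := 𝔇)).comp (𝔇.cL u).toMonoidHom = prS := by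
    apply FP.hom_ext
    intro i y
    rcases Int.units_eq_one_or u with rfl | rfl
    · simp
    · change prS (𝔇.cL (-1) (fp i y)) = prS (fp i y)
      rw [cL_fp]
      cases i <;> simp [prS, fp, sΓ]
  exact DFunLike.congr_fun this x

/-- The exponent sum on the extension of `L`. -/
def eS (𝔇 : Dat) : 𝔇.LC →* Multiplicative ℤ :=
  SemidirectProduct.lift (𝔇.eS0.comp prS) 1 (by
    intro u
    refine MonoidHom.ext fun x => ?_
    change 𝔇.eS0 (prS (𝔇.cL u x)) = MulAut.conj 1 (𝔇.eS0 (prS x))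
    rw [prS_cL, map_one]
    rfl)

lemma eS_apply (x : 𝔇.LC) : 𝔇.eS x = 𝔇.eS0 (prS x.left) := by
  change 𝔇.eS0 (prS x.left) * 1 = _
  rw [mul_one]

lemma eS_fo (ρ : Bool) (u : List (Option 𝔇.J)) :
    𝔇.eS0 (fo ρ u) = Multiplicative.ofAdd (u.length : ℤ) := by
  have h1 : ∀ u : List (Option 𝔇.J), 𝔇.eS0 (FreeGroup.mk (u.map fun σ => (some σ, true))) =
      Multiplicative.ofAdd (u.length : ℤ) := by
    intro u
    induction u with
    | nil => simp
    | cons a u ih =>
      rw [List.map_cons, mk_cons, map_mul, ih, mk_true, eS0, FreeGroup.lift_apply_of]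
      simp only [Option.elim_some, List.length_cons, Nat.cast_add, Nat.cast_one, ofAdd_add]
      rw [mul_comm]
  rw [fo, mk_append, map_mul, h1]
  cases ρ
  · simp
  · simp only [if_true]
    rw [mk_true, eS0, FreeGroup.lift_apply_of]
    simp

lemma eS_letter (κ : KG 𝔇.J 𝔇.B 𝔇.Hg) : (∃ σ, κ = .y (.s σ)) ∧
    𝔇.eS (𝔇.kv κ).right = Multiplicative.ofAdd 1 ∨ 𝔇.eS (𝔇.kv κ).right = 1 := by
  cases κ
  case e =>
    right
    exact map_one _
  case w =>
    right
    change 𝔇.eS (SemidirectProduct.inl wL) = 1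
    rw [eS_apply, SemidirectProduct.left_inl, prS_wL, map_one]
  case v =>
    right
    change 𝔇.eS (SemidirectProduct.inl vL) = 1
    rw [eS_apply, SemidirectProduct.left_inl, prS_vL, map_one]
  case y n =>
    cases n
    case q =>
      right
      change 𝔇.eS (SemidirectProduct.inl (inD _)) = 1
      rw [eS_apply, SemidirectProduct.left_inl, prS_inD, map_one]
    case b =>
      right
      change 𝔇.eS (SemidirectProduct.inl (inD _)) = 1
      rw [eS_apply, SemidirectProduct.left_inl, prS_inD, map_one]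
    case s σ =>
      left
      refine ⟨⟨σ, rfl⟩, ?_⟩
      change 𝔇.eS (SemidirectProduct.inl (inS (FreeGroup.of (some σ)))) = _
      rw [eS_apply, SemidirectProduct.left_inl, prS_inS, eS0, FreeGroup.lift_apply_of]
      rfl
    case r =>
      right
      change 𝔇.eS (SemidirectProduct.inl (inS (FreeGroup.of none))) = _
      rw [eS_apply, SemidirectProduct.left_inl, prS_inS, eS0, FreeGroup.lift_apply_of]
      rfl
    case h =>
      right
      change 𝔇.eS (SemidirectProduct.inl (inH _)) = 1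
      rw [eS_apply, SemidirectProduct.left_inl, prS_inH, map_one]
    case c =>
      right
      change 𝔇.eS (SemidirectProduct.inr (-1)) = 1
      rw [eS_apply, SemidirectProduct.left_inr, map_one, map_one]

lemma nS_cons (a : KG 𝔇.J 𝔇.B 𝔇.Hg × Bool) (x : 𝔇.KW) : nS (a :: x) = nS [a] + nS x := by
  rw [← nS_append]
  rfl

lemma eS_le (x : 𝔇.KW) : |Multiplicative.toAdd (𝔇.eS (evK x).right)| ≤ nS x := by
  induction x with
  | nil => simp
  | cons a x ih =>
    rw [evK_cons, SemidirectProduct.mul_right, map_mul, toAdd_mul, nS_cons, Nat.cast_add]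
    refine (abs_add_le _ _).trans (add_le_add ?_ ih)
    rcases a with ⟨κ, b⟩
    rcases eS_letter κ with ⟨⟨σ, rfl⟩, h⟩ | h
    · have h1 : nS ([(KG.y (.s σ), b)] : 𝔇.KW) = 1 := rfl
      rw [h1]
      cases b
      · rw [evK_false, SemidirectProduct.inv_right, map_inv, h]
        simp
      · rw [evK_true, h]
        simp
    · cases b
      · rw [evK_false, SemidirectProduct.inv_right, map_inv, h]
        simp
      · rw [evK_true, h]
        simp

lemma nS_gK (k : ℕ) : nS (gK k : 𝔇.KW) = 0 := by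
  rw [nS, List.countP_eq_zero]
  intro p hp
  rcases gK_letters k p hp with h | h <;> simp [h]

theorem pos_norm (hg : 𝔇.Good) {x y : 𝔇.KW} (hy : Yw y) {k k' : ℕ}
    {o : Option (List (Option 𝔇.J))} {u : List (Option 𝔇.J)}
    (h : ps (x ++ zD (k', o)) = ps (y ++ zD (k, some u))) :
    o = some u ∨ u.length ≤ nS x + nS y := by
  have h1 := ps_eq h.symm
  set r := (evK (y ++ zD (k, some u)))⁻¹ * evK (x ++ zD (k', o)) with hr
  have h2 : evK (x ++ zD (k', o)) = evK (y ++ zD (k, some u)) * r := by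
    rw [hr, mul_inv_cancel_left]
  obtain ⟨hr1, hr2⟩ := h1
  obtain ⟨δ, hδ⟩ := mem_DL.1 hr2
  set mo : 𝔇.Nn := mO o with hmo
  have h3 : evK (x ++ gK k') * SemidirectProduct.inl mo =
      evK (y ++ gK k) * SemidirectProduct.inl (mL u) * r := by
    have e1 : evK (x ++ zD (k', o)) = evK (x ++ gK k') * SemidirectProduct.inl mo := by
      rw [evK_append, evK_zD, evK_append, mul_assoc]
    have e2 : evK (y ++ zD (k, some u)) = evK (y ++ gK k) * SemidirectProduct.inl (mL u) := by
      rw [evK_append, evK_zD, evK_append, mul_assoc]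
      rfl
    rw [← e1, ← e2, h2]
  have hyl : (evK (y ++ gK k)).left = 1 := by
    apply left_eq_one
    intro p hp
    rcases List.mem_append.1 hp with hp | hp
    · obtain ⟨n, hn⟩ := hy p hp
      rw [hn]
      simp
    · rcases gK_letters k p hp with h | h <;> rw [h] <;> simp
  set F := (evK (y ++ gK k)).right with hF
  have hR := congrArg SemidirectProduct.right h3
  have hL := congrArg SemidirectProduct.left h3
  simp only [SemidirectProduct.mul_right, SemidirectProduct.mul_left, SemidirectProduct.right_inl,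
    SemidirectProduct.left_inl, mul_one, hyl, one_mul] at hR hL
  rw [← hF] at hR hL
  rw [hR, map_mul, MulAut.mul_apply, ← map_mul] at hL
  -- apply the inverse of `F`
  have hL2 := congrArg (actFP 𝔇.aL 𝔇.bL F⁻¹) hL
  have hinv : ∀ n : 𝔇.Nn, actFP 𝔇.aL 𝔇.bL F⁻¹ (actFP 𝔇.aL 𝔇.bL F n) = n := by
    intro n
    rw [← MulAut.mul_apply, ← map_mul, inv_mul_cancel, map_one, MulAut.one_apply]
  rw [map_mul, hinv, hinv] at hL2
  obtain ⟨l, hl⟩ := head_R1 hg u hr1
  rw [← hL2] at hl
  have hmem : (bU u, g3) ∈ nf (actFP 𝔇.aL 𝔇.bL F⁻¹ (evK (x ++ gK k')).left *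
      actFP 𝔇.aL 𝔇.bL r.right mo) := by
    rw [hl]
    exact List.mem_cons_self
  rcases nf_mul_index hmem with ⟨q, hq, hq1⟩ | ⟨q, hq, hq1⟩
  · right
    rw [nf_act] at hq
    obtain ⟨q', hq', rfl⟩ := List.mem_map.1 hq
    obtain ⟨p, s, hps, hp⟩ := index_prefix _ q' hq'
    simp only at hq1
    rw [hp, ← Equiv.Perm.mul_apply, ← map_mul] at hq1
    have h4 : 𝔇.eS (F⁻¹ * (evK p).right) = Multiplicative.ofAdd (u.length : ℤ) := by
      have h5 := congrArg (fun z => 𝔇.eS0 (prS z)) hq1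
      simp only [aL_apply, map_one, mul_one] at h5
      rw [eS_apply, h5, bU, map_mul, prS_inD, prS_inS, one_mul, eS_fo]
    rw [map_mul, map_inv] at h4
    have h6 := congrArg Multiplicative.toAdd h4
    rw [toAdd_mul, toAdd_inv, toAdd_ofAdd] at h6
    have h7 := eS_le (y ++ gK k)
    rw [← hF, nS_append, nS_gK, add_zero] at h7
    have h8 := eS_le p
    have h9 : nS p ≤ nS x := by
      have := congrArg nS hps
      rw [nS_append, nS_append, nS_gK, add_zero] at this
      omega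
    rw [abs_le] at h7 h8
    omega
  · rcases o with _ | u'
    · simp only [hmo, mO] at hq
      rw [map_one, nf_one] at hq
      simp at hq
    · left
      simp only [hmo, mO] at hq
      rw [nf_act] at hq
      obtain ⟨q', hq', rfl⟩ := List.mem_map.1 hq
      simp only at hq1
      rw [← hδ, aL_apply, SemidirectProduct.left_inl, SemidirectProduct.right_inl, map_one,
        MulAut.one_apply] at hq1
      have hq2 : q'.1 = bU u' ∨ q'.1 = aU u' := by
        rcases nf_mul_index hq' with ⟨r', hr', e⟩ | ⟨r', hr', e⟩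
        · left
          rw [← e]
          exact nf_fp_index hr'
        · right
          rw [← e]
          rw [← map_inv] at hr'
          exact nf_fp_index hr'
      rcases hq2 with e | e
      · rw [e, bU, ← mul_assoc, ← map_mul] at hq1
        obtain ⟨-, -, h5⟩ := form_inj hq1
        rw [h5]
      · rw [e, aU, ← mul_assoc, ← map_mul] at hq1
        obtain ⟨-, h5, -⟩ := form_inj hq1
        exact absurd h5 (by simp)

/-! ### The letter `w` -/

lemma chi_thC (n : YG 𝔇.J 𝔇.B 𝔇.Hg) (i : Fin 5) :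
    𝔇.chi (𝔇.evZ (FreeGroup.mk (𝔇.S.thC n i))).right ∈ CP := by
  -- the composite homomorphism
  let f : FreeGroup (Gen 𝔇.J 𝔇.B 𝔇.Hg) →* Equiv.Perm (ℤ × ℤ) :=
    𝔇.chi.comp (SemidirectProduct.rightHom.comp 𝔇.evZ)
  change f (FreeGroup.mk (𝔇.S.thC n i)) ∈ CP
  have hz : ∀ (a : A5) (ε : Bool), f (FreeGroup.mk [(.z a, ε)]) = 1 := by
    intro a ε
    have h1 : f (FreeGroup.of (.z a)) = 1 := by
      simp only [f, MonoidHom.comp_apply, evZ, FreeGroup.lift_apply_of]
      change 𝔇.chi (SemidirectProduct.rightHom (SemidirectProduct.inl _)) = 1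
      rw [SemidirectProduct.rightHom_inl, map_one]
    cases ε
    · rw [mk_false, map_inv, h1, inv_one]
    · rw [mk_true, h1]
  have hb : ∀ m, f (FreeGroup.mk (xW (bX m))) = 1 := by
    intro m
    have h1 : ∀ l : List ℕ, f (FreeGroup.mk (xW (l.flatMap fun j =>
        cj (gX (10 * (m * rr + j + 1))) [(XG.z ζ0, true)] ++
          cj (gX (10 * (m * rr + j + 1) + 5)) [(XG.z ζ0, false)]))) = 1 := by
      intro l
      induction l with
      | nil => simp [xW]
      | cons j l ih =>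
        have h2 : ∀ (g : List (XG × Bool)) (ε : Bool),
            f (FreeGroup.mk (xW (cj g [(XG.z ζ0, ε)]))) = 1 := by
          intro g ε
          have h3 : (xW (cj g [(XG.z ζ0, ε)]) : 𝔇.WW) = cj (xW g) [(.z ζ0, ε)] := by
            simp only [cj, xW, List.map_append, inv, FreeGroup.invRev, List.map_reverse,
              List.map_map]
            rfl
          rw [h3, mk_cj, map_mul, map_mul, hz, mul_one, map_inv, mul_inv_cancel]
        rw [List.flatMap_cons]
        have h4 : ∀ a b : List (XG × Bool), (xW (a ++ b) : 𝔇.WW) = xW a ++ xW b := by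
          intro a b
          simp [xW]
        rw [h4, h4, mk_append, mk_append, map_mul, map_mul, h2, h2, ih]
        simp
    exact h1 _
  rw [Sys.thC]
  split_ifs with h
  · rw [mk_append, map_mul, hb, one_mul, mk_true]
    simp only [f, MonoidHom.comp_apply, evZ, FreeGroup.lift_apply_of]
    change 𝔇.chi (SemidirectProduct.rightHom (SemidirectProduct.inr _)) ∈ CP
    rw [SemidirectProduct.rightHom_inr]
    exact chi_kv_y n
  · rw [mk_cj, map_mul, map_mul, hb, mul_one, map_inv, mul_inv_cancel]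
    exact one_mem _

/-- The letter `w` is not in the base group. -/
theorem w_not_θ (μ : 𝔇.M) : 𝔇.θ μ ≠ SemidirectProduct.inr (𝔇.kv .w) := by
  intro h
  let f : 𝔇.M →* Equiv.Perm (ℤ × ℤ) :=
    𝔇.chi.comp (SemidirectProduct.rightHom.comp 𝔇.θ)
  have hf : ∀ μ, f μ ∈ CP := by
    intro μ
    induction μ using Coprod.induction_on with
    | inl m =>
      induction m using FP.induct with
      | h1 => rw [map_one, map_one]; exact one_mem _
      | h x a n ih =>
        rw [map_mul, map_mul]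
        refine mul_mem ?_ ih
        have : f (Coprod.inl (fp x a)) = 1 := by
          simp only [f, MonoidHom.comp_apply, θ, Coprod.lift_apply_inl, fp, CoprodI.lift_of,
            SemidirectProduct.rightHom_inl, map_one]
        rw [this]
        exact one_mem _
    | inr m =>
      induction m using FreeGroup.induction_on with
      | C1 => rw [map_one, map_one]; exact one_mem _
      | of p =>
        change 𝔇.chi (𝔇.θ (Coprod.inr (FreeGroup.of p))).right ∈ CP
        rw [θ, Coprod.lift_apply_inr, FreeGroup.lift_apply_of]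
        exact chi_thC _ _
      | inv_of p ih => rw [map_inv, map_inv]; exact inv_mem ih
      | mul a b iha ihb => rw [map_mul, map_mul]; exact mul_mem iha ihb
    | mul a b iha ihb => rw [map_mul]; exact mul_mem iha ihb
  have h1 := hf μ
  change 𝔇.chi (SemidirectProduct.rightHom (𝔇.θ μ)) ∈ CP at h1
  rw [h, SemidirectProduct.rightHom_inr, chi_kv_w] at h1
  rcases h1 with h1 | h1
  · have := DFunLike.congr_fun h1 (1, 0)
    rw [wP_apply] at this
    simp at this
  · have := DFunLike.congr_fun h1 (1, 0)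
    rw [wP_apply, cP_apply] at this
    simp at this
    have := DFunLike.congr_fun h1 (0, 1)
    rw [wP_apply, cP_apply] at this
    simp at this

end Dat

end Pool.Agent.BH
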