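import Pool.Agent.BH.MDefs

set_option autoImplicit false

/-!
# MC1: words in the letters of `L`
-/

namespace Pool.Agent.BH

open Monoid

attribute [-simp] FreeGroup.mul_mk FreeGroup.inv_mk

namespace Dat

variable {𝔇 : Dat}

theorem Lw.nil : Lw ([] : 𝔇.KW) := by
  intro p hp
  simp at hp

theorem Lw.cons {a : KG 𝔇.J 𝔇.B 𝔇.Hg × Bool} {x : 𝔇.KW} (h : Lw (a :: x)) :
    (a.1 ≠ KG.e ∧ a.1 ≠ KG.y .c) ∧ Lw x :=
  ⟨h a (by simp), fun p hp => h p (by simp [hp])⟩

theorem Lw.append {x y : 𝔇.KW} (hx : Lw x) (hy : Lw y) : Lw (x ++ y) := by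
  intro p hp
  rcases List.mem_append.1 hp with hp | hp
  · exact hx p hp
  · exact hy p hp

theorem Lw.left {x y : 𝔇.KW} (h : Lw (x ++ y)) : Lw x := fun p hp => h p (by simp [hp])

theorem Lw.right {x y : 𝔇.KW} (h : Lw (x ++ y)) : Lw y := fun p hp => h p (by simp [hp])

theorem Lw.inv {x : 𝔇.KW} (hx : Lw x) : Lw (BH.inv x) := by
  intro p hp
  simp only [BH.inv, FreeGroup.invRev, List.mem_reverse, List.mem_map] at hp
  obtain ⟨q, hq, rfl⟩ := hp
  exact hx q hq

lemma evL_cons (a : KG 𝔇.J 𝔇.B 𝔇.Hg × Bool) (x : 𝔇.KW) : evL (a :: x) = evL [a] * evL x := by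
  rw [← evL_append]; rfl

lemma evL_true (κ : KG 𝔇.J 𝔇.B 𝔇.Hg) : evL (𝔇 := 𝔇) [(κ, true)] = 𝔇.lv κ := by
  rw [evL, mk_true, FreeGroup.lift_apply_of]

lemma evL_false (κ : KG 𝔇.J 𝔇.B 𝔇.Hg) : evL (𝔇 := 𝔇) [(κ, false)] = (𝔇.lv κ)⁻¹ := by
  rw [evL, mk_false, map_inv, FreeGroup.lift_apply_of]

lemma kv_Lw {κ : KG 𝔇.J 𝔇.B 𝔇.Hg} (h1 : κ ≠ KG.e) (h2 : κ ≠ KG.y .c) :
    𝔇.kv κ = SemidirectProduct.inr (SemidirectProduct.inl (𝔇.lv κ)) := by
  rcases κ with _ | _ | _ | n
  · exact absurd rfl h1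
  · rfl
  · rfl
  · rcases n with _ | _ | _ | _ | _ | _
    · rfl
    · rfl
    · rfl
    · rfl
    · rfl
    · exact absurd rfl h2

theorem evK_Lw {x : 𝔇.KW} (hx : Lw x) :
    evK x = SemidirectProduct.inr (SemidirectProduct.inl (evL x)) := by
  induction x with
  | nil => simp
  | cons a x ih =>
    obtain ⟨⟨h1, h2⟩, h3⟩ := hx.cons
    rw [evK_cons, evL_cons, ih h3, map_mul, map_mul]
    congr 1
    rcases a with ⟨κ, _ | _⟩
    · rw [evK_false, evL_false, kv_Lw h1 h2, map_inv, map_inv]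
    · rw [evK_true, evL_true, kv_Lw h1 h2]

namespace MC1

/-- The type of a letter. -/
def ty : KG 𝔇.J 𝔇.B 𝔇.Hg → LI
  | .e => .d
  | .w => .w
  | .v => .v
  | .y (.q _) => .d
  | .y (.b _) => .d
  | .y (.s _) => .s
  | .y .r => .s
  | .y (.h _) => .h
  | .y .c => .d

/-- The value of a letter. -/
def ga : KG 𝔇.J 𝔇.B 𝔇.Hg → 𝔇.Γ
  | .e => 1
  | .w => (1, 1, 1, g3, 1)
  | .v => (1, 1, 1, 1, g3)
  | .y (.q x) => ((QuotientGroup.mk (FreeGroup.of x), 1), 1)
  | .y (.b β) => ((1, FreeGroup.of β), 1)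
  | .y (.s σ) => (1, 1, FreeGroup.of (some σ), 1)
  | .y .r => (1, 1, FreeGroup.of none, 1)
  | .y (.h η) => (1, 𝔇.hH (FreeGroup.of η), 1)
  | .y .c => 1

lemma lv_eq {κ : KG 𝔇.J 𝔇.B 𝔇.Hg} (h1 : κ ≠ KG.e) (h2 : κ ≠ KG.y .c) :
    𝔇.lv κ = fp (ty κ) (ga κ) := by
  rcases κ with _ | _ | _ | n
  · exact absurd rfl h1
  · rfl
  · rfl
  · rcases n with _ | _ | _ | _ | _ | _
    · rfl
    · rfl
    · rfl
    · rfl
    · rfl
    · exact absurd rfl h2

/-- The value of a word in the product of all factors. -/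
def gw (x : 𝔇.KW) : 𝔇.Γ := FreeGroup.lift ga (FreeGroup.mk x)

@[simp] lemma gw_nil : gw ([] : 𝔇.KW) = 1 := map_one _

lemma gw_append (x y : 𝔇.KW) : gw (x ++ y) = gw x * gw y := by
  rw [gw, mk_append, map_mul]; rfl

lemma gw_cons (a : KG 𝔇.J 𝔇.B 𝔇.Hg × Bool) (x : 𝔇.KW) : gw (a :: x) = gw [a] * gw x := by
  rw [← gw_append]; rfl

lemma gw_true (κ : KG 𝔇.J 𝔇.B 𝔇.Hg) : gw (𝔇 := 𝔇) [(κ, true)] = ga κ := by
  rw [gw, mk_true, FreeGroup.lift_apply_of]

lemma gw_false (κ : KG 𝔇.J 𝔇.B 𝔇.Hg) : gw (𝔇 := 𝔇) [(κ, false)] = (ga κ)⁻¹ := by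
  rw [gw, mk_false, map_inv, FreeGroup.lift_apply_of]

lemma evL_type {x : 𝔇.KW} (hx : Lw x) {i : LI} (hi : ∀ p ∈ x, ty p.1 = i) :
    evL x = fp i (gw x) := by
  induction x with
  | nil => simp
  | cons a x ih =>
    obtain ⟨⟨h1, h2⟩, h3⟩ := hx.cons
    have hty : ty a.1 = i := hi a (by simp)
    rw [evL_cons, gw_cons, map_mul, ih h3 fun p hp => hi p (by simp [hp])]
    congr 1
    rcases a with ⟨κ, _ | _⟩
    · rw [evL_false, gw_false, lv_eq h1 h2, map_inv]
      simp only at hty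
      rw [hty]
    · rw [evL_true, gw_true, lv_eq h1 h2]
      simp only at hty
      rw [hty]

/-- The syllables of a word. -/
def syl : 𝔇.KW → List (LI × 𝔇.KW)
  | [] => []
  | a :: x => match syl x with
    | [] => [(ty a.1, [a])]
    | (i, y) :: l => if ty a.1 = i then (i, a :: y) :: l else (ty a.1, [a]) :: (i, y) :: l

lemma syl_flatten (x : 𝔇.KW) : ((syl x).map Prod.snd).flatten = x := by
  induction x with
  | nil => rfl
  | cons a x ih =>
    simp only [syl]
    rcases h : syl x with _ | ⟨⟨i, y⟩, l⟩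
    · rw [h] at ih
      simp at ih
      simp [← ih]
    · rw [h] at ih
      simp only
      split_ifs with h1
      · simp only [List.map_cons, List.flatten_cons] at ih ⊢
        rw [List.cons_append, ih]
      · simp only [List.map_cons, List.flatten_cons] at ih ⊢
        rw [ih]
        rfl

lemma syl_type (x : 𝔇.KW) : ∀ s ∈ syl x, s.2 ≠ [] ∧ ∀ p ∈ s.2, ty p.1 = s.1 := by
  induction x with
  | nil => intro s hs; simp [syl] at hs
  | cons a x ih =>
    simp only [syl]
    rcases h : syl x with _ | ⟨⟨i, y⟩, l⟩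
    · intro s hs
      simp only [List.mem_singleton] at hs
      subst hs
      simp
    · rw [h] at ih
      simp only
      split_ifs with h1
      · intro s hs
        rcases List.mem_cons.1 hs with rfl | hs
        · refine ⟨by simp, fun p hp => ?_⟩
          rcases List.mem_cons.1 hp with rfl | hp
          · exact h1
          · exact (ih (i, y) (by simp)).2 p hp
        · exact ih s (by simp [hs])
      · intro s hs
        rcases List.mem_cons.1 hs with rfl | hs
        · simp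
        · exact ih s hs

lemma syl_chain (x : 𝔇.KW) : (syl x).IsChain fun s t => s.1 ≠ t.1 := by
  induction x with
  | nil => exact List.IsChain.nil
  | cons a x ih =>
    simp only [syl]
    rcases h : syl x with _ | ⟨⟨i, y⟩, l⟩
    · exact List.IsChain.singleton _
    · rw [h] at ih
      simp only
      split_ifs with h1
      · rw [List.isChain_cons] at ih ⊢
        exact ih
      · rw [List.isChain_cons_cons]
        exact ⟨h1, ih⟩

/-- The values of the syllables. -/
def sv (l : List (LI × 𝔇.KW)) : List (LI × 𝔇.Γ) := l.map fun s => (s.1, gw s.2)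

lemma pr_sv {l : List (LI × 𝔇.KW)} (h : ∀ s ∈ l, Lw s.2 ∧ ∀ p ∈ s.2, ty p.1 = s.1) :
    pr (sv l) = evL ((l.map Prod.snd).flatten) := by
  induction l with
  | nil => simp [sv]
  | cons s l ih =>
    have h1 := h s (by simp)
    have h2 := ih fun t ht => h t (by simp [ht])
    simp only [sv, List.map_cons, pr_cons, List.flatten_cons, evL_append] at h2 ⊢
    rw [h2, ← evL_type h1.1 h1.2]

lemma exists_trivial {x : 𝔇.KW} (hx : Lw x) (h : evL x = 1) (hne : x ≠ []) :
    ∃ A y B i, x = A ++ y ++ B ∧ y ≠ [] ∧ (∀ p ∈ y, ty p.1 = i) ∧ gw y = 1 := by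
  have hf := syl_flatten x
  have ht := syl_type x
  have hL : ∀ s ∈ syl x, Lw s.2 := by
    intro s hs p hp
    apply hx p
    rw [← hf]
    exact List.mem_flatten.2 ⟨s.2, List.mem_map.2 ⟨s, hs, rfl⟩, hp⟩
  have hex : ∃ s ∈ syl x, gw s.2 = 1 := by
    by_contra hcon
    push Not at hcon
    have h1 : Rd (sv (syl x)) := by
      constructor
      · intro p hp
        obtain ⟨s, hs, rfl⟩ := List.mem_map.1 hp
        exact hcon s hs
      · unfold sv
        rw [List.isChain_map]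
        exact syl_chain x
    have h2 : pr (sv (syl x)) = pr [] := by
      rw [pr_sv fun s hs => ⟨hL s hs, (ht s hs).2⟩, hf, h, pr_nil]
    have h3 := Rd.inj h1 Rd.nil h2
    have h4 : syl x = [] := List.map_eq_nil_iff.1 h3
    rw [h4] at hf
    exact hne hf.symm
  obtain ⟨s, hs, hs1⟩ := hex
  obtain ⟨l1, l2, hl⟩ := List.append_of_mem hs
  refine ⟨(l1.map Prod.snd).flatten, s.2, (l2.map Prod.snd).flatten, s.1, ?_, (ht s hs).1,
    (ht s hs).2, hs1⟩
  rw [← hf, hl]
  simp

/-! ### The syllables -/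

variable {n : ℕ}

/-- Powers of a letter of order three. -/
lemma pow_syl {κ : KG 𝔇.J 𝔇.B 𝔇.Hg}
    (hκ : 𝔇.Rn n [(.k κ, true), (.k κ, true), (.k κ, true)]) (h3 : ga κ ^ 3 = (1 : 𝔇.Γ))
    {y : 𝔇.KW} (hy : ∀ p ∈ y, p.1 = κ) :
    ∃ k : ℕ, k < 3 ∧ gw y = ga κ ^ k ∧
        E (𝔇.Rn n) (y.length + 10) (𝔇.kW y) (List.replicate k (.k κ, true)) := by
  have hf := 𝔇.Rn_free n
  induction y with
  | nil => exact ⟨0, by omega, by simp, E.refl (by simp)⟩
  | cons a y ih =>
    obtain ⟨k, hk, h1, h2⟩ := ih fun p hp => hy p (by simp [hp])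
    have ha : a.1 = κ := hy a (by simp)
    obtain ⟨a1, a2⟩ := a
    simp only at ha
    subst ha
    have h2' : E (𝔇.Rn n) (y.length + 11) (𝔇.kW ((a1, a2) :: y))
        ((.k a1, a2) :: List.replicate k (.k a1, true)) := h2.appL [(.k a1, a2)] (by simp)
    rcases a2 with _ | _
    · -- negative letter
      rcases k with _ | k
      · refine ⟨2, by omega, ?_, ?_⟩
        · rw [gw_cons, gw_false, h1]
          have : (ga a1 : 𝔇.Γ)⁻¹ = ga a1 ^ 2 := by
            rw [inv_eq_iff_mul_eq_one, ← pow_succ', h3]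
          simp [this]
        · refine (h2'.mono (by simp)).trans ?_
          have e1 : E (𝔇.Rn n) (y.length + 1 + 10) [(.k a1, false)]
              ([(.k a1, false)] ++ [(.k a1, true), (.k a1, true), (.k a1, true)]) :=
            (E.appL (E.rel (A := 3) hκ (by simp)) [(.k a1, false)] (by simp)).symm
          have e2 : E (𝔇.Rn n) (y.length + 1 + 10)
              ([(.k a1, false)] ++ [(.k a1, true), (.k a1, true), (.k a1, true)])
              [(.k a1, true), (.k a1, true)] :=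
            E.cancel hf [] [(.k a1, true), (.k a1, true)] (.k a1) false (by simp)
          exact e1.trans e2
      · refine ⟨k, by omega, ?_, ?_⟩
        · rw [gw_cons, gw_false, h1, pow_succ']
          group
        · refine (h2'.mono (by simp)).trans ?_
          exact E.cancel hf [] (List.replicate k (.k a1, true)) (.k a1) false (by simp; omega)
    · by_cases hk2 : k = 2
      · subst hk2
        refine ⟨0, by omega, ?_, ?_⟩
        · rw [gw_cons, gw_true, h1, ← pow_succ', h3, pow_zero]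
        · refine (h2'.mono (by simp)).trans ?_
          exact (E.rel (A := 3) hκ (by simp)).mono (by simp)
      · refine ⟨k + 1, by omega, ?_, ?_⟩
        · rw [gw_cons, gw_true, h1, ← pow_succ']
        · exact h2'.mono (by simp)

lemma ga_w3 : ga (KG.w : KG 𝔇.J 𝔇.B 𝔇.Hg) ^ 3 = (1 : 𝔇.Γ) := by
  have : g3 ^ 3 = 1 := by decide
  simp [ga, Prod.pow_mk, this]

lemma ga_v3 : ga (KG.v : KG 𝔇.J 𝔇.B 𝔇.Hg) ^ 3 = (1 : 𝔇.Γ) := by
  have : g3 ^ 3 = 1 := by decide
  simp [ga, Prod.pow_mk, this]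

lemma g3_pow_ne {k : ℕ} (hk : k < 3) (h : g3 ^ k = 1) : k = 0 := by
  interval_cases k
  · rfl
  · exact absurd h (by decide)
  · exact absurd h (by decide)

lemma syl_w {y : 𝔇.KW} (hL : Lw y) (hy : ∀ p ∈ y, ty p.1 = LI.w) (h : gw y = 1) :
    E (𝔇.Rn n) (y.length + 20) (𝔇.kW y) [] := by
  have hy' : ∀ p ∈ y, p.1 = KG.w := by
    intro p hp
    have h1 := hy p hp
    obtain ⟨κ, ε⟩ := p
    simp only at h1 ⊢
    rcases κ with _ | _ | _ | m
    · simp [ty] at h1
    · rfl
    · simp [ty] at h1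
    · rcases m with _ | _ | _ | _ | _ | _ <;> simp [ty] at h1
  obtain ⟨k, hk, h1, h2⟩ := pow_syl (n := n) (Sys.Rel.a _ Sys.RelA.w3) ga_w3 hy'
  rw [h] at h1
  have h3 : g3 ^ k = 1 := by
    have := congrArg (fun x : 𝔇.Γ => x.2.2.2.1) h1
    simpa [ga, Prod.pow_mk] using this.symm
  rw [g3_pow_ne hk h3] at h2
  exact h2.mono (by omega)

lemma syl_v {y : 𝔇.KW} (hL : Lw y) (hy : ∀ p ∈ y, ty p.1 = LI.v) (h : gw y = 1) :
    E (𝔇.Rn n) (y.length + 20) (𝔇.kW y) [] := by
  have hy' : ∀ p ∈ y, p.1 = KG.v := by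
    intro p hp
    have h1 := hy p hp
    obtain ⟨κ, ε⟩ := p
    simp only at h1 ⊢
    rcases κ with _ | _ | _ | m
    · simp [ty] at h1
    · simp [ty] at h1
    · rfl
    · rcases m with _ | _ | _ | _ | _ | _ <;> simp [ty] at h1
  obtain ⟨k, hk, h1, h2⟩ := pow_syl (n := n) (Sys.Rel.a _ Sys.RelA.v3) ga_v3 hy'
  rw [h] at h1
  have h3 : g3 ^ k = 1 := by
    have := congrArg (fun x : 𝔇.Γ => x.2.2.2.2) h1
    simpa [ga, Prod.pow_mk] using this.symm
  rw [g3_pow_ne hk h3] at h2
  exact h2.mono (by omega)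

lemma syl_h {y : 𝔇.KW} (hL : Lw y) (hy : ∀ p ∈ y, ty p.1 = LI.h) (h : gw y = 1) :
    E (𝔇.Rn n) (y.length + 20) (𝔇.kW y) [] := by
  have key : ∀ {y : 𝔇.KW}, (∀ p ∈ y, ty p.1 = LI.h) → ∃ l : List (𝔇.Hg × Bool),
      𝔇.kW y = hW l ∧ gw y = (1, 𝔇.hH (FreeGroup.mk l), 1) := by
    intro y hy
    induction y with
    | nil => exact ⟨[], rfl, by simp; rfl⟩
    | cons a y ih =>
      obtain ⟨l, h1, h2⟩ := ih fun p hp => hy p (by simp [hp])
      have h3 := hy a (by simp)
      obtain ⟨κ, ε⟩ := a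
      simp only at h3
      obtain ⟨η, rfl⟩ : ∃ η, κ = KG.y (.h η) := by
        rcases κ with _ | _ | _ | m
        · simp [ty] at h3
        · simp [ty] at h3
        · simp [ty] at h3
        · rcases m with _ | _ | _ | _ | η | _ <;> simp [ty] at h3
          exact ⟨η, rfl⟩
      refine ⟨(η, ε) :: l, ?_, ?_⟩
      · rw [kW_cons, h1]
        rfl
      · rw [gw_cons, h2, mk_cons (η, ε) l, map_mul]
        rcases ε with _ | _
        · rw [gw_false, mk_false, map_inv]
          simp [ga]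
        · rw [gw_true, mk_true]
          simp [ga]
  obtain ⟨l, h1, h2⟩ := key hy
  have h3 : 𝔇.hH (FreeGroup.mk l) = 1 := by
    rw [h] at h2
    exact (congrArg (fun x : 𝔇.Γ => x.2.1) h2).symm
  have h4 : (hW l : 𝔇.WW).length = y.length := by rw [← h1, kW_length]
  rw [h1]
  exact (E.rel (A := (hW l : 𝔇.WW).length) (Sys.Rel.h l h3) le_rfl).mono (by omega)

/-- The letters of the free group. -/
def sl : Option (Option 𝔇.J) → Gen 𝔇.J 𝔇.B 𝔇.Hg
  | none => .k (.y .r)
  | some σ => .k (.y (.s σ))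

lemma syl_s {y : 𝔇.KW} (hL : Lw y) (hy : ∀ p ∈ y, ty p.1 = LI.s) (h : gw y = 1) :
    E (𝔇.Rn n) (y.length + 20) (𝔇.kW y) [] := by
  have key : ∀ {y : 𝔇.KW}, (∀ p ∈ y, ty p.1 = LI.s) → ∃ l : List (Option (Option 𝔇.J) × Bool),
      𝔇.kW y = l.map (fun p => (sl p.1, p.2)) ∧ gw y = (1, 1, FreeGroup.mk l, 1) := by
    intro y hy
    induction y with
    | nil => exact ⟨[], rfl, by simp; rfl⟩
    | cons a y ih =>
      obtain ⟨l, h1, h2⟩ := ih fun p hp => hy p (by simp [hp])
      have h3 := hy a (by simp)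
      obtain ⟨κ, ε⟩ := a
      simp only at h3
      obtain ⟨o, ho1, ho2⟩ : ∃ o : Option (Option 𝔇.J), Gen.k κ = sl (𝔇 := 𝔇) o ∧
          ga κ = (1, 1, FreeGroup.of o, 1) := by
        rcases κ with _ | _ | _ | m
        · simp [ty] at h3
        · simp [ty] at h3
        · simp [ty] at h3
        · rcases m with _ | _ | σ | _ | _ | _ <;> simp [ty] at h3
          · exact ⟨some σ, rfl, rfl⟩
          · exact ⟨none, rfl, rfl⟩
      refine ⟨(o, ε) :: l, ?_, ?_⟩
      · rw [kW_cons, h1, ho1]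
        rfl
      · rw [gw_cons, h2, mk_cons (o, ε) l]
        rcases ε with _ | _
        · rw [gw_false, mk_false, ho2]
          simp
        · rw [gw_true, mk_true, ho2]
          simp
  obtain ⟨l, h1, h2⟩ := key hy
  have h3 : FreeGroup.mk l = 1 := by
    rw [h] at h2
    exact (congrArg (fun x : 𝔇.Γ => x.2.2.1) h2).symm
  have h5 : FreeGroup.mk (l.map (fun p => (sl (𝔇 := 𝔇) p.1, p.2))) = FreeGroup.mk [] := by
    have := congrArg (FreeGroup.map (sl (𝔇 := 𝔇))) h3
    rw [map_one, FreeGroup.map.mk] at this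
    exact this
  have h4 : (l.map (fun p => (sl (𝔇 := 𝔇) p.1, p.2))).length = y.length := by rw [← h1, kW_length]
  rw [h1]
  exact E.free (𝔇.Rn_free n) h5 (by omega) (by simp)

/-- The words in the letters `b`, of both signs. -/
def bl (l : List (𝔇.B × Bool)) : 𝔇.WW := l.map fun p => (.k (.y (.b p.1)), p.2)

@[simp] lemma bl_length (l : List (𝔇.B × Bool)) : (bl l).length = l.length := by simp [bl]

@[simp] lemma qW_length (l : List (XG × Bool)) : (qW l : 𝔇.WW).length = l.length := by simp [qW]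

lemma cm_qb (x : XG) (ε : Bool) (β : 𝔇.B) (δ : Bool) :
    Cm (𝔇.Rn n) 10 [(.k (.y (.b β)), δ)] [(.k (.y (.q x)), ε)] := by
  have hf := 𝔇.Rn_free n
  have h0 : Cm (𝔇.Rn n) 6 [(.k (.y (.q x)), true)] [(.k (.y (.b β)), true)] :=
    Cm.of_rel hf (Sys.Rel.a _ (Sys.RelA.qb x β)) (by simp)
  have h1 : Cm (𝔇.Rn n) 8 [(.k (.y (.q x)), ε)] [(.k (.y (.b β)), true)] := by
    rcases ε with _ | _
    · exact Cm.inv_left hf h0 (by simp)
    · exact h0.mono (by omega)
  have h2 : Cm (𝔇.Rn n) 10 [(.k (.y (.q x)), ε)] [(.k (.y (.b β)), δ)] := by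
    rcases δ with _ | _
    · exact Cm.inv_right hf h1 (by simp)
    · exact h1.mono (by omega)
  exact h2.symm

lemma syl_d {y : 𝔇.KW} (hL : Lw y) (hy : ∀ p ∈ y, ty p.1 = LI.d) (h : gw y = 1)
    (hn : nQ y < n) : E (𝔇.Rn n) (y.length + 20) (𝔇.kW y) [] := by
  have hf := 𝔇.Rn_free n
  have key : ∀ {y : 𝔇.KW}, Lw y → (∀ p ∈ y, ty p.1 = LI.d) → ∃ (l1 : List (XG × Bool))
      (l2 : List (𝔇.B × Bool)), l1.length + l2.length = y.length ∧ nQ y = l1.length ∧
      gw y = ((QuotientGroup.mk (FreeGroup.mk l1), FreeGroup.mk l2), 1) ∧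
      E (𝔇.Rn n) (y.length + 10) (𝔇.kW y) (qW l1 ++ bl l2) := by
    intro y hL hy
    induction y with
    | nil => exact ⟨[], [], rfl, rfl, by simp; rfl, E.refl (by simp)⟩
    | cons a y ih =>
      obtain ⟨l1, l2, h0, hq, h1, h2⟩ := ih hL.cons.2 fun p hp => hy p (by simp [hp])
      have h3 := hy a (by simp)
      obtain ⟨⟨h4, h5⟩, -⟩ := hL.cons
      obtain ⟨κ, ε⟩ := a
      simp only at h3 h4 h5
      have h2' : E (𝔇.Rn n) (y.length + 1 + 10) (𝔇.kW ((κ, ε) :: y))
          ((.k κ, ε) :: (qW l1 ++ bl l2)) := h2.appL [(.k κ, ε)] (by simp)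
      rcases κ with _ | _ | _ | m
      · exact absurd rfl h4
      · simp [ty] at h3
      · simp [ty] at h3
      · rcases m with x | β | _ | _ | _ | _
        · refine ⟨(x, ε) :: l1, l2, by simp; omega, ?_, ?_, ?_⟩
          · simp only [nQ, List.countP_cons] at hq ⊢
            simp [hq]
          · rw [gw_cons, h1, mk_cons (x, ε) l1]
            rcases ε with _ | _
            · rw [gw_false, mk_false]
              simp [ga]
            · rw [gw_true, mk_true]
              simp [ga]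
          · exact h2'.mono (by simp)
        · refine ⟨l1, (β, ε) :: l2, by simp; omega, ?_, ?_, ?_⟩
          · simp only [nQ, List.countP_cons] at hq ⊢
            simp [hq]
          · rw [gw_cons, h1, mk_cons (β, ε) l2]
            rcases ε with _ | _
            · rw [gw_false, mk_false]
              simp [ga]
            · rw [gw_true, mk_true]
              simp [ga]
          · refine (h2'.mono (by simp)).trans ?_
            have c1 : Cm (𝔇.Rn n) (10 + (qW l1 : 𝔇.WW).length) [(.k (.y (.b β)), ε)] (qW l1) := by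
              apply Cm.letters
              · intro p hp
                obtain ⟨q, -, rfl⟩ := List.mem_map.1 hp
                exact cm_qb _ _ _ _
              · simp
            rw [qW_length] at c1
            have c2 := E.appR c1 (bl l2) (B := y.length + 1 + 10) (by simp; omega)
            simpa [bl] using c2
        · simp [ty] at h3
        · simp [ty] at h3
        · simp [ty] at h3
        · exact absurd rfl h5
  obtain ⟨l1, l2, h0, hq, h1, h2⟩ := key hL hy
  rw [h] at h1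
  have h3 : (QuotientGroup.mk (FreeGroup.mk l1) : 𝔇.Q) = 1 :=
    (congrArg (fun x : 𝔇.Γ => x.1.1) h1).symm
  have h4 : FreeGroup.mk l2 = 1 := (congrArg (fun x : 𝔇.Γ => x.1.2) h1).symm
  rw [QuotientGroup.eq_one_iff] at h3
  have h5 : E (𝔇.Rn n) (y.length + 10) (qW l1 ++ bl l2) (bl l2) := by
    have := (E.rel (A := l1.length) (R := 𝔇.Rn n) (Sys.Rel.q l1 ⟨by omega, h3⟩)
      (by simp)).appR (bl l2) (B := y.length + 10) (by simp; omega)
    simpa using this
  have h6 : FreeGroup.mk (bl l2) = FreeGroup.mk [] := by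
    have := congrArg (FreeGroup.map (fun β => (Gen.k (.y (.b β)) : Gen 𝔇.J 𝔇.B 𝔇.Hg))) h4
    rw [map_one, FreeGroup.map.mk] at this
    exact this
  have h7 : E (𝔇.Rn n) (y.length + 10) (bl l2) [] := E.free hf h6 (by simp; omega) (by simp)
  exact ((h2.trans h5).trans h7).mono (by omega)

lemma syl_all {y : 𝔇.KW} {i : LI} (hL : Lw y) (hy : ∀ p ∈ y, ty p.1 = i) (h : gw y = 1)
    (hn : nQ y < n) : E (𝔇.Rn n) (y.length + 20) (𝔇.kW y) [] := by
  rcases i with _ | _ | _ | _ | _
  · exact syl_d hL hy h hn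
  · exact syl_h hL hy h
  · exact syl_s hL hy h
  · exact syl_w hL hy h
  · exact syl_v hL hy h

end MC1

open MC1 in
theorem LN0 {n : ℕ} {x : 𝔇.KW} (hx : Lw x) (h : evL x = 1) (hn : nQ x < n) :
    E (𝔇.Rn n) (x.length + 20) (𝔇.kW x) [] := by
  induction hl : x.length using Nat.strong_induction_on generalizing x with
  | _ m ih =>
    by_cases hne : x = []
    · subst hne
      exact E.refl (by simp)
    obtain ⟨A, y, B, i, rfl, hy0, hyi, hy1⟩ := exists_trivial hx h hne
    have hyL : Lw y := hx.left.right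
    have hABL : Lw (A ++ B) := hx.left.left.append hx.right
    have e1 : evL (A ++ B) = 1 := by
      have h1 : evL y = 1 := by rw [evL_type hyL hyi, hy1, map_one]
      rw [evL_append, evL_append, h1, mul_one] at h
      rw [evL_append, h]
    simp only [nQ_append] at hn
    have hypos : 0 < y.length := List.length_pos_iff.2 hy0
    simp only [List.length_append] at hl
    have e2 := ih (A ++ B).length (by simp; omega) hABL e1 (by simp; omega) rfl
    have e3 : E (𝔇.Rn n) (m + 20) (𝔇.kW (A ++ y ++ B)) (𝔇.kW (A ++ B)) := by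
      have := (syl_all (n := n) hyL hyi hy1 (by omega)).ctx (𝔇.kW A) (𝔇.kW B) (B := m + 20)
        (by simp; omega)
      simpa using this
    exact e3.trans (e2.mono (by simp; omega))

theorem LNeq {n : ℕ} {x y : 𝔇.KW} (hx : Lw x) (hy : Lw y) (h : evL x = evL y)
    (hn : nQ x + nQ y < n) :
    E (𝔇.Rn n) (x.length + 2 * y.length + 20) (𝔇.kW x) (𝔇.kW y) := by
  have h1 : E (𝔇.Rn n) ((x ++ inv y).length + 20) (𝔇.kW (x ++ inv y)) [] := by
    refine LN0 (hx.append hy.inv) ?_ (by simpa using hn)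
    rw [evL_append, evL_inv, h, mul_inv_cancel]
  rw [kW_append, kW_inv] at h1
  exact E.of_mul_inv (𝔇.Rn_free n) h1 (by simp; omega)

end Dat

end Pool.Agent.BH
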