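import Pool.Agent.BH.MC1

set_option autoImplicit false

/-!
# Words in the letters of `K`
-/

namespace Pool.Agent.BH

open Monoid

attribute [-simp] FreeGroup.mul_mk FreeGroup.inv_mk

namespace Dat

variable {𝔇 : Dat}

/-! ### Lists of items -/

namespace MC2

@[simp] lemma itsK_nil : itsK ([] : List (𝔇.KW × Bool)) = [] := rfl

@[simp] lemma itsK_cons (i : 𝔇.KW × Bool) (I : List (𝔇.KW × Bool)) :
    itsK (i :: I) = itK i ++ itsK I := by simp [itsK]

@[simp] lemma vlK_nil : vlK ([] : List (𝔇.KW × Bool)) = [] := rfl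

@[simp] lemma vlK_cons (i : 𝔇.KW × Bool) (I : List (𝔇.KW × Bool)) :
    vlK (i :: I) = (evL i.1, eps i.2) :: vlK I := rfl

lemma itK_length (i : 𝔇.KW × Bool) : (itK i).length = 2 * i.1.length + 1 := by
  simp [itK, cj_length]

lemma itsK_length {ℓ : ℕ} {I : List (𝔇.KW × Bool)} (h : ∀ i ∈ I, i.1.length ≤ ℓ) :
    (itsK I).length ≤ I.length * (2 * ℓ + 1) := by
  induction I with
  | nil => simp
  | cons i I ih =>
    have h1 := ih fun j hj => h j (by simp [hj])
    have h2 := h i (by simp)
    rw [itsK_cons, List.length_append, itK_length, List.length_cons, add_mul, one_mul]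
    omega

lemma eps_ne (ε : Bool) : eps ε ≠ 1 := by cases ε <;> decide

lemma eps_mul_not (ε : Bool) : eps ε * eps (!ε) = 1 := by cases ε <;> decide

lemma eps_sq (ε : Bool) : eps ε * eps ε = eps (!ε) := by cases ε <;> decide

lemma eps_inv (ε : Bool) : (eps ε)⁻¹ = eps (!ε) := by cases ε <;> decide

lemma evK_e (ε : Bool) : evK (𝔇 := 𝔇) [(KG.e, ε)] = SemidirectProduct.inl (fp 1 (eps ε)) := by
  cases ε
  · rw [evK_false]
    simp only [eps, Bool.false_eq_true, if_false, map_inv]
    rfl
  · rw [evK_true]; rfl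

lemma evK_itK {u : 𝔇.KW} (hu : Lw u) (ε : Bool) :
    evK (itK (u, ε)) = SemidirectProduct.inl (fp (evL u) (eps ε)) := by
  rw [itK, cj, evK_append, evK_append, evK_inv, evK_Lw hu, evK_e, ← map_inv,
    ← SemidirectProduct.inl_aut, actFP_fp, aL_apply]
  congr 1
  simp [bL]

end MC2

open MC2

theorem evK_itsK {I : List (𝔇.KW × Bool)} (hI : ∀ i ∈ I, Lw i.1) :
    evK (itsK I) = SemidirectProduct.inl (pr (vlK I)) := by
  induction I with
  | nil => simp
  | cons i I ih =>
    rw [itsK_cons, evK_append, ih fun j hj => hI j (by simp [hj]), evK_itK (hI i (by simp)),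
      vlK_cons, pr_cons, map_mul]

/-! ### Moving the letter `c` -/

namespace MC2

/-- The effect of the letter `c` on words. -/
def sg (x : 𝔇.KW) : 𝔇.KW := x.map fun p => match p.1 with
  | .y n => (.y n, p.2)
  | κ => (κ, !p.2)

@[simp] lemma sg_nil : sg ([] : 𝔇.KW) = [] := rfl
@[simp] lemma sg_append (x y : 𝔇.KW) : sg (x ++ y) = sg x ++ sg y := by simp [sg]
@[simp] lemma sg_length (x : 𝔇.KW) : (sg x).length = x.length := by simp [sg]

lemma sg_inv (x : 𝔇.KW) : sg (inv x) = inv (sg x) := by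
  simp only [sg, inv, FreeGroup.invRev, List.map_reverse, List.map_map]
  congr 2
  funext p
  rcases p with ⟨κ, ε⟩
  cases κ <;> rfl

lemma sg_cj (x y : 𝔇.KW) : sg (cj x y) = cj (sg x) (sg y) := by
  simp [cj, sg_inv]

lemma sg_itK (u : 𝔇.KW) (ε : Bool) : sg (itK (u, ε)) = itK (sg u, !ε) := by
  rw [itK, sg_cj]; rfl

lemma sg_itsK (I : List (𝔇.KW × Bool)) :
    sg (itsK I) = itsK (I.map fun i => (sg i.1, !i.2)) := by
  induction I with
  | nil => rfl
  | cons i I ih => rw [itsK_cons, sg_append, ih, sg_itK, List.map_cons, itsK_cons]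

lemma sg_Lw {x : 𝔇.KW} (hx : Lw x) : Lw (sg x) := by
  intro p hp
  obtain ⟨q, hq, rfl⟩ := List.mem_map.1 hp
  have := hx q hq
  rcases q with ⟨κ, ε⟩
  cases κ <;> simp_all

lemma sg_nQ (x : 𝔇.KW) : nQ (sg x) = nQ x := by
  rw [nQ, nQ, sg, List.countP_map]
  congr 1
  funext p
  rcases p with ⟨κ, ε⟩
  cases κ <;> rfl

lemma sg_nS (x : 𝔇.KW) : nS (sg x) = nS x := by
  rw [nS, nS, sg, List.countP_map]
  congr 1
  funext p
  rcases p with ⟨κ, ε⟩
  cases κ <;> rfl

lemma sg_nm (x : 𝔇.KW) : nm (sg x) = nm x := by rw [nm, nm, sg_nQ, sg_nS]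

section

variable {α : Type} {R : List (α × Bool) → Prop}

/-- From `a b a⁻¹ b'⁻¹ = 1` to `a b = b' a`. -/
lemma comm1 (hf : FreeRel R) {A B : ℕ} {a b b' : List (α × Bool)}
    (h : E R A (a ++ b ++ inv a ++ inv b') []) (hB : A + b'.length + a.length ≤ B) :
    E R B (a ++ b) (b' ++ a) := by
  have h1 := h.left
  simp only [List.length_append, inv_length] at h1
  have a1 : E R B (a ++ b) (a ++ b ++ inv a ++ inv b' ++ (b' ++ a)) :=
    E.free hf (by simp only [mk_append, mk_inv]; group) (by simp; omega) (by simp; omega)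
  have a2 : E R B (a ++ b ++ inv a ++ inv b' ++ (b' ++ a)) ([] ++ (b' ++ a)) :=
    h.appR _ (by simp; omega)
  exact a1.trans a2

end

/-- Moving the letter `c` over a letter. -/
lemma c_letter (n : ℕ) (g : KG 𝔇.J 𝔇.B 𝔇.Hg × Bool) :
    E (𝔇.Rn n) 20 (𝔇.kW ([(.y .c, true)] ++ [g])) (𝔇.kW (sg [g] ++ [(.y .c, true)])) := by
  have hf := 𝔇.Rn_free n
  -- the case of the letters that are inverted
  have key : ∀ κ : KG 𝔇.J 𝔇.B 𝔇.Hg,
      𝔇.Rn n (cj [(.k (.y .c), true)] [(.k κ, true)] ++ [(.k κ, true)]) →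
      ∀ ε : Bool, E (𝔇.Rn n) 20 [(.k (.y .c), true), (.k κ, ε)] [(.k κ, !ε), (.k (.y .c), true)] := by
    intro κ h ε
    have h1 : E (𝔇.Rn n) 4
        ([(.k (.y .c), true)] ++ [(.k κ, true)] ++ inv [(.k (.y .c), true)] ++ inv [(.k κ, false)])
        [] := E.rel h (by simp)
    have h2 := comm1 (B := 6) hf h1 (by simp)
    cases ε
    · -- c κ⁻¹ = κ c
      have a1 : E (𝔇.Rn n) 20 [(.k (.y .c), true), (.k κ, false)]
          ([(.k κ, true)] ++ ([(.k κ, false)] ++ [(.k (.y .c), true)]) ++ [(.k κ, false)]) :=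
        E.free hf (by simp only [List.cons_append, List.nil_append, mk_cons2, mk_true, mk_false];
                      group) (by simp) (by simp)
      have a2 := (h2.symm.ctx [(.k κ, true)] [(.k κ, false)] (B := 20) (by simp))
      have a3 : E (𝔇.Rn n) 20
          ([(.k κ, true)] ++ ([(.k (.y .c), true)] ++ [(.k κ, true)]) ++ [(.k κ, false)])
          [(.k κ, true), (.k (.y .c), true)] :=
        E.free hf (by simp only [List.cons_append, List.nil_append, mk_cons2, mk_true, mk_false];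
                      group) (by simp) (by simp)
      exact (a1.trans a2).trans a3
    · exact h2.mono (by norm_num)
  rcases g with ⟨κ, ε⟩
  cases κ with
  | e => exact key _ (Sys.Rel.a _ Sys.RelA.ce) ε
  | w => exact key _ (Sys.Rel.a _ Sys.RelA.cw) ε
  | v => exact key _ (Sys.Rel.a _ Sys.RelA.cv) ε
  | y m =>
    have h1 : Cm (𝔇.Rn n) 6 [(.k (.y .c), true)] [(.k (.y m), true)] :=
      Cm.of_rel hf (Sys.Rel.a _ (Sys.RelA.cy m)) (by simp)
    cases ε
    · exact (Cm.inv_right hf h1 (B := 8) (by simp)).mono (by norm_num)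
    · exact h1.mono (by norm_num)

/-- Moving the letter `c` over a word. -/
lemma c_word (n : ℕ) (x : 𝔇.KW) : E (𝔇.Rn n) (x.length + 20)
    (𝔇.kW ([(.y .c, true)] ++ x)) (𝔇.kW (sg x ++ [(.y .c, true)])) := by
  induction x with
  | nil => exact E.refl (by simp)
  | cons g x ih =>
    have a1 : E (𝔇.Rn n) ((g :: x).length + 20)
        (𝔇.kW ([(.y .c, true)] ++ [g]) ++ 𝔇.kW x)
        (𝔇.kW (sg [g] ++ [(.y .c, true)]) ++ 𝔇.kW x) :=
      (c_letter n g).appR _ (by rw [kW_length, List.length_cons]; omega)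
    have a2 : E (𝔇.Rn n) ((g :: x).length + 20)
        (𝔇.kW (sg [g]) ++ 𝔇.kW ([(.y .c, true)] ++ x))
        (𝔇.kW (sg [g]) ++ 𝔇.kW (sg x ++ [(.y .c, true)])) :=
      ih.appL _ (by
        rw [kW_length, sg_length]
        simp only [List.length_cons, List.length_nil]
        omega)
    have e1 : 𝔇.kW ([(.y .c, true)] ++ g :: x) = 𝔇.kW ([(.y .c, true)] ++ [g]) ++ 𝔇.kW x := by
      rw [← kW_append]; rfl
    have e2 : 𝔇.kW (sg [g] ++ [(.y .c, true)]) ++ 𝔇.kW x =
        𝔇.kW (sg [g]) ++ 𝔇.kW ([(.y .c, true)] ++ x) := by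
      simp only [kW_append, List.append_assoc]
    have e3 : 𝔇.kW (sg (g :: x) ++ [(.y .c, true)]) =
        𝔇.kW (sg [g]) ++ 𝔇.kW (sg x ++ [(.y .c, true)]) := by
      rw [← kW_append, ← List.append_assoc, ← sg_append]; rfl
    rw [e1, e3]
    rw [e2] at a1
    exact a1.trans a2

/-- The letter `c⁻¹`. -/
lemma c_false (n : ℕ) (ε : Bool) :
    E (𝔇.Rn n) 3 (𝔇.kW [(.y .c, ε)]) (𝔇.kW [(.y .c, true)]) := by
  cases ε
  · have hf := 𝔇.Rn_free n
    have h1 : E (𝔇.Rn n) 2 [(.k (.y .c), true), (.k (.y .c), true)] [] :=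
      E.rel (Sys.Rel.a _ Sys.RelA.c2) (by simp)
    have a1 : E (𝔇.Rn n) 3 ([(.k (.y .c), false)] ++ [])
        ([(.k (.y .c), false)] ++ [(.k (.y .c), true), (.k (.y .c), true)]) :=
      h1.symm.appL _ (by simp)
    have a2 : E (𝔇.Rn n) 3
        ([(.k (.y .c), false)] ++ [(.k (.y .c), true), (.k (.y .c), true)])
        [(.k (.y .c), true)] :=
      E.free hf (by simp only [List.cons_append, List.nil_append, mk_cons2, mk_true, mk_false];
                    group) (by simp) (by simp)
    exact a1.trans a2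
  · exact E.refl (by simp)

lemma cL_apply_apply (x : 𝔇.L) : 𝔇.cL (-1) (𝔇.cL (-1) x) = x := by
  rw [← MulAut.mul_apply, ← map_mul]
  simp

lemma evK_c (ε : Bool) : evK (𝔇 := 𝔇) [(.y .c, ε)] =
    SemidirectProduct.inr (SemidirectProduct.inr (-1)) := by
  cases ε
  · rw [evK_false]
    change (SemidirectProduct.inr (SemidirectProduct.inr (-1)))⁻¹ = _
    rw [← map_inv, ← map_inv]
    rfl
  · rw [evK_true]; rfl

lemma alg1 {G : Type*} [Group G] {C k : G} (h : C * k * C⁻¹ = k⁻¹) :
    C * k⁻¹ = k * C ∧ C * k = k⁻¹ * C := by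
  rw [mul_inv_eq_iff_eq_mul] at h
  refine ⟨?_, h⟩
  rw [mul_inv_eq_iff_eq_mul, mul_assoc, h, mul_inv_cancel_left]

lemma alg2 {G : Type*} [Group G] {C k : G} (h : C * k * C⁻¹ = k) :
    C * k⁻¹ = k⁻¹ * C ∧ C * k = k * C := by
  rw [mul_inv_eq_iff_eq_mul] at h
  refine ⟨?_, h⟩
  rw [mul_inv_eq_iff_eq_mul, mul_assoc, h, inv_mul_cancel_left]

/-- The value of a word with the letter `c` moved. -/
lemma evK_sg (x : 𝔇.KW) : evK [(.y .c, true)] * evK x = evK (sg x) * evK [(.y .c, true)] := by
  induction x with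
  | nil => simp
  | cons g x ih =>
    have e1 : sg (g :: x) = sg [g] ++ sg x := rfl
    rw [evK_cons g x, e1, evK_append, mul_assoc, ← ih, ← mul_assoc, ← mul_assoc]
    congr 1
    -- one letter
    have key : ∀ κ : KG 𝔇.J 𝔇.B 𝔇.Hg,
        evK [(.y .c, true)] * 𝔇.kv κ * (evK [(.y .c, true)])⁻¹ = (𝔇.kv κ)⁻¹ → ∀ ε : Bool,
        evK [(.y .c, true)] * evK [(κ, ε)] = evK [(κ, !ε)] * evK [(.y .c, true)] := by
      intro κ h ε
      cases ε
      · rw [evK_false κ, Bool.not_false, evK_true κ]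
        exact (alg1 h).1
      · rw [evK_true κ, Bool.not_true, evK_false κ]
        exact (alg1 h).2
    have key2 : ∀ κ : KG 𝔇.J 𝔇.B 𝔇.Hg,
        evK [(.y .c, true)] * 𝔇.kv κ * (evK [(.y .c, true)])⁻¹ = 𝔇.kv κ → ∀ ε : Bool,
        evK [(.y .c, true)] * evK [(κ, ε)] = evK [(κ, ε)] * evK [(.y .c, true)] := by
      intro κ h ε
      cases ε
      · rw [evK_false κ]
        exact (alg2 h).1
      · rw [evK_true κ]
        exact (alg2 h).2
    have hL : ∀ y : 𝔇.L, evK [(.y .c, true)] * SemidirectProduct.inr (SemidirectProduct.inl y) *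
        (evK [(.y .c, true)])⁻¹ =
        (SemidirectProduct.inr (SemidirectProduct.inl (𝔇.cL (-1) y)) : 𝔇.K) := by
      intro y
      rw [evK_c, ← map_inv, ← map_mul, ← map_mul, ← map_inv, ← SemidirectProduct.inl_aut]
    rcases g with ⟨κ, ε⟩
    cases κ with
    | e =>
      refine key _ ?_ ε
      rw [evK_c]
      change SemidirectProduct.inr _ * SemidirectProduct.inl (fp 1 g3) * _ =
        (SemidirectProduct.inl (fp 1 g3))⁻¹
      rw [← map_inv, ← SemidirectProduct.inl_aut, actFP_fp, aL_apply, ← map_inv, ← map_inv]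
      simp [bL, iv3]
    | w =>
      refine key _ ?_ ε
      refine (hL wL).trans ?_
      rw [cL_wL, map_inv, map_inv]; rfl
    | v =>
      refine key _ ?_ ε
      refine (hL vL).trans ?_
      rw [cL_vL, map_inv, map_inv]; rfl
    | y m =>
      refine key2 _ ?_ ε
      have hK : ∀ m, m ≠ YG.c → 𝔇.cL (-1) (𝔇.lv (.y m)) = 𝔇.lv (.y m) →
          evK [(.y .c, true)] * 𝔇.kv (.y m) * (evK [(.y .c, true)])⁻¹ = 𝔇.kv (.y m) := by
        intro m hm h
        have e : 𝔇.kv (.y m) = SemidirectProduct.inr (SemidirectProduct.inl (𝔇.lv (.y m))) := by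
          cases m <;> first | rfl | exact absurd rfl hm
        rw [e, hL, h]
      cases m with
      | q x => exact hK _ (by simp) (cL_inD _)
      | b β => exact hK _ (by simp) (cL_inD _)
      | s σ => exact hK _ (by simp) (cL_inS _)
      | r => exact hK _ (by simp) (cL_inS _)
      | h η => exact hK _ (by simp) (cL_inH _)
      | c => rw [evK_true]; group

/-- Prefix a letter to all items. -/
def sh (g : KG 𝔇.J 𝔇.B 𝔇.Hg × Bool) (I : List (𝔇.KW × Bool)) : List (𝔇.KW × Bool) :=
  I.map fun i => ([g] ++ i.1, i.2)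

lemma mk_sh (g : KG 𝔇.J 𝔇.B 𝔇.Hg × Bool) (I : List (𝔇.KW × Bool)) :
    FreeGroup.mk ([g] ++ itsK I) = FreeGroup.mk (itsK (sh g I) ++ [g]) := by
  induction I with
  | nil => simp [sh]
  | cons i I ih =>
    have e1 : sh g (i :: I) = ([g] ++ i.1, i.2) :: sh g I := rfl
    have e2 : itK ([g] ++ i.1, i.2) = cj ([g] ++ i.1) [(KG.e, i.2)] := rfl
    have e3 : itK i = cj i.1 [(KG.e, i.2)] := rfl
    rw [e1, itsK_cons, itsK_cons, List.append_assoc, mk_append (itK _), ← ih, e2, e3,
      mk_append, mk_append, mk_append, mk_cj, mk_cj, mk_append]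
    group

lemma mk_kW (x : 𝔇.KW) : FreeGroup.mk (𝔇.kW x) = FreeGroup.map Gen.k (FreeGroup.mk x) := by
  rw [FreeGroup.map.mk]; rfl

lemma kfree {n A : ℕ} {x y : 𝔇.KW} (h : FreeGroup.mk x = FreeGroup.mk y) (hx : x.length ≤ A)
    (hy : y.length ≤ A) : E (𝔇.Rn n) A (𝔇.kW x) (𝔇.kW y) :=
  E.free (𝔇.Rn_free n) (by rw [mk_kW, mk_kW, h]) (by simpa using hx) (by simpa using hy)

lemma evK_mk {x y : 𝔇.KW} (h : FreeGroup.mk x = FreeGroup.mk y) : evK x = evK y := by
  rw [evK, evK, h]

/-- The letter `c` at the end. -/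
lemma c_end (n : ℕ) (p : Bool) :
    E (𝔇.Rn n) 2 (𝔇.kW ([(.y .c, true)] ++ cW p)) (𝔇.kW (cW (!p))) := by
  cases p
  · exact E.refl (by simp [cW])
  · exact E.rel (Sys.Rel.a _ Sys.RelA.c2) (by simp [cW])

lemma evK_c_end (p : Bool) : evK ([(.y .c, true)] ++ cW p) = evK (𝔇 := 𝔇) (cW (!p)) := by
  cases p
  · simp [cW]
  · simp only [cW, if_true, Bool.not_true, Bool.false_eq_true, if_false, evK_append, evK_nil]
    rw [evK_c, ← map_mul, ← map_mul]
    simp

lemma form_length {L : ℕ} {I : List (𝔇.KW × Bool)} {l : 𝔇.KW} {p : Bool}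
    (h1 : ∀ i ∈ I, i.1.length ≤ L) (h2 : I.length ≤ L) (h3 : l.length ≤ L) :
    (itsK I ++ l ++ cW p).length ≤ L * (2 * L + 1) + L + 1 := by
  have a1 := itsK_length h1
  have a2 : (cW (𝔇 := 𝔇) p).length ≤ 1 := by cases p <;> simp [cW]
  have a3 : I.length * (2 * L + 1) ≤ L * (2 * L + 1) := Nat.mul_le_mul_right _ h2
  rw [List.length_append, List.length_append]
  omega

end MC2

theorem K_form {n : ℕ} (hn : 0 < n) (x : 𝔇.KW) : ∃ (I : List (𝔇.KW × Bool)) (l : 𝔇.KW) (p : Bool),
    (∀ i ∈ I, Lw i.1 ∧ i.1.length ≤ x.length ∧ nm i.1 ≤ nm x) ∧ I.length ≤ x.length ∧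
    Lw l ∧ l.length ≤ x.length ∧ nm l ≤ nm x ∧ evK x = evK (itsK I ++ l ++ cW p) ∧
    E (𝔇.Rn n) (4 * (x.length + 4) ^ 2) (𝔇.kW x) (𝔇.kW (itsK I ++ l ++ cW p)) := by
  induction x with
  | nil =>
    refine ⟨[], [], false, by simp, by simp, ?_, by simp, by simp, by simp [cW], ?_⟩
    · intro p hp; simp at hp
    · exact E.refl (by simp)
  | cons g x ih =>
    obtain ⟨I, l, p, hI, hIl, hl, hll, hlm, hev, hE⟩ := ih
    have hB : 4 * ((g :: x).length + 4) ^ 2 = 4 * (x.length + 4) ^ 2 + 8 * (x.length + 4) + 4 := by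
      rw [List.length_cons]; ring
    have hB' : (x.length + 4) ^ 2 = x.length * x.length + 8 * x.length + 16 := by ring
    have hnm : nm (g :: x) = nm [g] + nm x := nm_append [g] x
    have hlen := form_length (p := p) (fun i hi => (hI i hi).2.1) hIl hll
    have hlen' : x.length * (2 * x.length + 1) = 2 * (x.length * x.length) + x.length := by ring
    have e0 : 𝔇.kW (g :: x) = 𝔇.kW [g] ++ 𝔇.kW x := by rw [← kW_append]; rfl
    have a1 : E (𝔇.Rn n) (4 * ((g :: x).length + 4) ^ 2) (𝔇.kW (g :: x))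
        (𝔇.kW ([g] ++ (itsK I ++ l ++ cW p))) := by
      rw [e0, kW_append [g]]
      exact hE.appL _ (by rw [hB]; simp; omega)
    have v1 : evK (g :: x) = evK [g] * evK (itsK I ++ l ++ cW p) := by rw [evK_cons, hev]
    have hlx : (g :: x).length = x.length + 1 := rfl
    by_cases he : g.1 = KG.e
    · refine ⟨([], g.2) :: I, l, p, ?_, by simp; omega, hl, by rw [hlx]; omega, by omega, ?_, ?_⟩
      · intro i hi
        rcases List.mem_cons.1 hi with rfl | hi
        · refine ⟨?_, by simp, by simp⟩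
          intro p hp; simp at hp
        · obtain ⟨b1, b2, b3⟩ := hI i hi
          exact ⟨b1, by rw [hlx]; omega, by omega⟩
      · rw [v1, ← evK_append]
        congr 1
        rcases g with ⟨κ, ε⟩
        subst he
        simp [itK, cj]
      · have e1 : itsK (([], g.2) :: I) ++ l ++ cW p = [g] ++ (itsK I ++ l ++ cW p) := by
          rcases g with ⟨κ, ε⟩
          subst he
          simp [itK, cj]
        rw [e1]
        exact a1
    · by_cases hc : g.1 = KG.y .c
      · -- the letter `c`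
        refine ⟨I.map fun i => (sg i.1, !i.2), sg l, !p, ?_, by simp; omega, sg_Lw hl,
          by rw [hlx, sg_length]; omega, by rw [sg_nm]; omega, ?_, ?_⟩
        · intro i hi
          obtain ⟨j, hj, rfl⟩ := List.mem_map.1 hi
          obtain ⟨b1, b2, b3⟩ := hI j hj
          exact ⟨sg_Lw b1, by rw [sg_length, hlx]; omega, by rw [sg_nm]; omega⟩
        · have e1 : evK [g] = evK (𝔇 := 𝔇) [(.y .c, true)] := by
            rcases g with ⟨κ, ε⟩
            subst hc
            rw [evK_c, evK_c]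
          rw [v1, e1, evK_append (_ ++ _), ← mul_assoc, evK_sg, mul_assoc, ← evK_append [_],
            evK_c_end, ← evK_append, sg_append, sg_itsK]
        · have a2 : E (𝔇.Rn n) (4 * ((g :: x).length + 4) ^ 2)
              (𝔇.kW [g] ++ 𝔇.kW (itsK I ++ l ++ cW p))
              (𝔇.kW [(.y .c, true)] ++ 𝔇.kW (itsK I ++ l ++ cW p)) := by
            rcases g with ⟨κ, ε⟩
            subst hc
            exact (c_false n ε).appR _ (by rw [hB, kW_length]; omega)
          have a3 : E (𝔇.Rn n) (4 * ((g :: x).length + 4) ^ 2)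
              (𝔇.kW ([(.y .c, true)] ++ (itsK I ++ l)) ++ 𝔇.kW (cW p))
              (𝔇.kW (sg (itsK I ++ l) ++ [(.y .c, true)]) ++ 𝔇.kW (cW p)) := by
            refine (c_word n _).appR _ ?_
            rw [kW_length, hB]
            rw [List.length_append] at hlen
            omega
          have a4 : E (𝔇.Rn n) (4 * ((g :: x).length + 4) ^ 2)
              (𝔇.kW (sg (itsK I ++ l)) ++ 𝔇.kW ([(.y .c, true)] ++ cW p))
              (𝔇.kW (sg (itsK I ++ l)) ++ 𝔇.kW (cW (!p))) := by
            refine (c_end n p).appL _ ?_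
            rw [kW_length, sg_length, hB]
            rw [List.length_append] at hlen
            omega
          have e1 : 𝔇.kW ([g] ++ (itsK I ++ l ++ cW p)) =
              𝔇.kW [g] ++ 𝔇.kW (itsK I ++ l ++ cW p) := kW_append _ _
          have e2 : 𝔇.kW [(.y .c, true)] ++ 𝔇.kW (itsK I ++ l ++ cW p) =
              𝔇.kW ([(.y .c, true)] ++ (itsK I ++ l)) ++ 𝔇.kW (cW p) := by
            simp only [kW_append, List.append_assoc]
          have e3 : 𝔇.kW (sg (itsK I ++ l) ++ [(.y .c, true)]) ++ 𝔇.kW (cW p) =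
              𝔇.kW (sg (itsK I ++ l)) ++ 𝔇.kW ([(.y .c, true)] ++ cW p) := by
            simp only [kW_append, List.append_assoc]
          have e4 : 𝔇.kW (itsK (I.map fun i => (sg i.1, !i.2)) ++ sg l ++ cW (!p)) =
              𝔇.kW (sg (itsK I ++ l)) ++ 𝔇.kW (cW (!p)) := by
            rw [kW_append (_ ++ _), sg_append, sg_itsK]
          rw [e1] at a1
          rw [e2] at a2
          rw [e3] at a3
          rw [e4]
          exact ((a1.trans a2).trans a3).trans a4
      · -- the other letters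
        have hg : Lw (𝔇 := 𝔇) [g] := by
          intro q hq
          rw [List.mem_singleton] at hq
          rw [hq]
          exact ⟨he, hc⟩
        have hLw : ∀ {u : 𝔇.KW}, Lw u → Lw ([g] ++ u) := by
          intro u hu q hq
          rcases List.mem_append.1 hq with hq | hq
          · exact hg q hq
          · exact hu q hq
        have hfree : FreeGroup.mk ([g] ++ (itsK I ++ l ++ cW p)) =
            FreeGroup.mk (itsK (sh g I) ++ ([g] ++ l) ++ cW p) := by
          have := mk_sh g I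
          rw [mk_append, mk_append] at this
          simp only [mk_append, ← mul_assoc, this]
        have hI' : ∀ i ∈ sh g I, Lw i.1 ∧ i.1.length ≤ (g :: x).length ∧ nm i.1 ≤ nm (g :: x) := by
          intro i hi
          obtain ⟨j, hj, rfl⟩ := List.mem_map.1 hi
          obtain ⟨b1, b2, b3⟩ := hI j hj
          refine ⟨hLw b1, ?_, ?_⟩
          · simp; omega
          · rw [nm_append]; omega
        have hl' : (sh g I).length ≤ (g :: x).length := by simp [sh]; omega
        have hll' : ([g] ++ l).length ≤ (g :: x).length := by simp; omega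
        refine ⟨sh g I, [g] ++ l, p, hI', hl', hLw hl, hll', by rw [nm_append]; omega, ?_, ?_⟩
        · rw [v1, ← evK_append]
          exact evK_mk hfree
        · refine a1.trans (kfree hfree ?_ ?_)
          · rw [hB, List.length_append, List.length_singleton]
            omega
          · have := form_length (p := p) (fun i hi => (hI' i hi).2.1) hl' hll'
            refine this.trans ?_
            rw [hlx]
            nlinarith

/-! ### Reducing lists of items -/

namespace MC2

lemma nQ_le_nm (x : 𝔇.KW) : nQ x ≤ nm x := by rw [nm]; omega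

lemma Lw_append {x y : 𝔇.KW} (hx : Lw x) (hy : Lw y) : Lw (x ++ y) := by
  intro q hq
  rcases List.mem_append.1 hq with hq | hq
  · exact hx q hq
  · exact hy q hq

lemma Lw_inv {x : 𝔇.KW} (hx : Lw x) : Lw (inv x) := by
  intro q hq
  simp only [inv, FreeGroup.invRev, List.mem_reverse, List.mem_map] at hq
  obtain ⟨r, hr, rfl⟩ := hq
  exact hx r hr

/-- Items with the same index. -/
lemma itK_congr {n ℓ : ℕ} {u v : 𝔇.KW} (hu : Lw u) (hv : Lw v) (h : evL u = evL v)
    (hn : nQ u + nQ v < n) (hul : u.length ≤ ℓ) (hvl : v.length ≤ ℓ) (ε : Bool) :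
    E (𝔇.Rn n) (6 * ℓ + 41) (𝔇.kW (itK (u, ε))) (𝔇.kW (itK (v, ε))) := by
  have a1 := LNeq (n := n) hu hv h hn
  have a2 := LNeq (n := n) (Lw_inv hu) (Lw_inv hv) (by rw [evL_inv, evL_inv, h])
    (by rw [nQ_inv, nQ_inv]; exact hn)
  have a3 := (a1.appR (𝔇.kW [(KG.e, ε)]) le_rfl).mul a2
  rw [← kW_append, ← kW_append, ← kW_append, ← kW_append] at a3
  refine a3.mono ?_
  simp only [inv_length, kW_length, List.length_singleton]
  omega

lemma e_sq (n : ℕ) (ε : Bool) :
    E (𝔇.Rn n) 5 (𝔇.kW [(KG.e, ε), (KG.e, ε)]) (𝔇.kW [(KG.e, !ε)]) := by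
  have hf := 𝔇.Rn_free n
  have h1 : E (𝔇.Rn n) 3 [(.k .e, true), (.k .e, true), (.k .e, true)] [] :=
    E.rel (Sys.Rel.a _ Sys.RelA.e3) (by simp)
  cases ε
  · have a1 : E (𝔇.Rn n) 5 ([(.k .e, false), (.k .e, false)] ++ [])
        ([(.k .e, false), (.k .e, false)] ++ [(.k .e, true), (.k .e, true), (.k .e, true)]) :=
      h1.symm.appL _ (by simp)
    have a2 : E (𝔇.Rn n) 5
        ([(.k .e, false), (.k .e, false)] ++ [(.k .e, true), (.k .e, true), (.k .e, true)])
        [(.k .e, true)] :=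
      E.free hf (by simp only [List.cons_append, List.nil_append, mk_cons2, mk_true, mk_false];
                    group) (by simp) (by simp)
    exact a1.trans a2
  · have a1 : E (𝔇.Rn n) 5 [(.k .e, true), (.k .e, true)]
        ([(.k .e, true), (.k .e, true), (.k .e, true)] ++ [(.k .e, false)]) :=
      E.free hf (by simp only [List.cons_append, List.nil_append, mk_cons2, mk_true, mk_false];
                    group) (by simp) (by simp)
    have a2 : E (𝔇.Rn n) 5
        ([(.k .e, true), (.k .e, true), (.k .e, true)] ++ [(.k .e, false)])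
        ([] ++ [(.k .e, false)]) := h1.appR _ (by simp)
    exact a1.trans a2

/-- Cancelling two items. -/
lemma itK_cancel {n ℓ : ℕ} {u v : 𝔇.KW} (hu : Lw u) (hv : Lw v) (h : evL u = evL v)
    (hn : nQ u + nQ v < n) (hul : u.length ≤ ℓ) (hvl : v.length ≤ ℓ) (ε : Bool) :
    E (𝔇.Rn n) (8 * ℓ + 42) (𝔇.kW (itK (u, ε) ++ itK (v, !ε))) (𝔇.kW []) := by
  have a1 := (itK_congr hu hv h hn hul hvl ε).appR (𝔇.kW (itK (v, !ε))) (B := 8 * ℓ + 42)
    (by rw [kW_length, itK_length]; simp only; omega)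
  rw [← kW_append, ← kW_append] at a1
  refine a1.trans (kfree ?_ ?_ ?_)
  · rw [mk_append, itK, itK, mk_cj, mk_cj]
    cases ε
    · simp only [Bool.not_false, mk_true, mk_false]; group; rfl
    · simp only [Bool.not_true, mk_true, mk_false]; group; rfl
  · rw [List.length_append, itK_length, itK_length]; simp only; omega
  · simp

/-- Merging two items. -/
lemma itK_merge {n ℓ : ℕ} {u v : 𝔇.KW} (hu : Lw u) (hv : Lw v) (h : evL u = evL v)
    (hn : nQ u + nQ v < n) (hul : u.length ≤ ℓ) (hvl : v.length ≤ ℓ) (ε : Bool) :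
    E (𝔇.Rn n) (8 * ℓ + 42) (𝔇.kW (itK (u, ε) ++ itK (v, ε))) (𝔇.kW (itK (v, !ε))) := by
  have a1 := (itK_congr hu hv h hn hul hvl ε).appR (𝔇.kW (itK (v, ε))) (B := 8 * ℓ + 42)
    (by rw [kW_length, itK_length]; simp only; omega)
  rw [← kW_append, ← kW_append] at a1
  refine a1.trans ?_
  have a2 : E (𝔇.Rn n) (8 * ℓ + 42) (𝔇.kW (itK (v, ε) ++ itK (v, ε)))
      (𝔇.kW (v ++ [(KG.e, ε), (KG.e, ε)] ++ inv v)) := by
    refine kfree ?_ ?_ ?_
    · rw [mk_append, itK, mk_cj, mk_append, mk_append, mk_inv, mk_cons2]; group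
    · rw [List.length_append, itK_length]; simp only; omega
    · simp only [List.length_append, inv_length, List.length_cons, List.length_nil]; omega
  refine a2.trans ?_
  have a3 := (e_sq (𝔇 := 𝔇) n ε).ctx (𝔇.kW v) (𝔇.kW (inv v)) (B := 8 * ℓ + 42)
    (by rw [kW_length, kW_length, inv_length]; omega)
  rw [← kW_append, ← kW_append, ← kW_append, ← kW_append] at a3
  exact a3

end MC2

theorem its_reduce {n ℓ m : ℕ} (hm : 2 * m < n) (I : List (𝔇.KW × Bool))
    (hI : ∀ i ∈ I, Lw i.1 ∧ i.1.length ≤ ℓ ∧ nm i.1 ≤ m) : ∃ I' : List (𝔇.KW × Bool),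
    (∀ i ∈ I', ∃ j ∈ I, j.1 = i.1) ∧ I'.length ≤ I.length ∧ Rd (vlK I') ∧
    pr (vlK I') = pr (vlK I) ∧
    E (𝔇.Rn n) ((I.length + 20) * (2 * ℓ + 8)) (𝔇.kW (itsK I)) (𝔇.kW (itsK I')) := by
  induction I with
  | nil => exact ⟨[], by simp, by simp, Rd.nil, rfl, E.refl (by simp)⟩
  | cons i I ih =>
    obtain ⟨J, hJ, hJl, hJr, hJp, hJE⟩ := ih fun j hj => hI j (by simp [hj])
    obtain ⟨hi1, hi2, hi3⟩ := hI i (by simp)
    have hJ' : ∀ j ∈ J, Lw j.1 ∧ j.1.length ≤ ℓ ∧ nm j.1 ≤ m := by
      intro j hj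
      obtain ⟨k, hk, hkj⟩ := hJ j hj
      rw [← hkj]
      exact hI k (by simp [hk])
    have hB : ((i :: I).length + 20) * (2 * ℓ + 8) = (I.length + 20) * (2 * ℓ + 8) + (2 * ℓ + 8) := by
      rw [List.length_cons]; ring
    have hB2 : (I.length + 20) * (2 * ℓ + 8) = I.length * (2 * ℓ + 8) + (40 * ℓ + 160) := by ring
    have a1 : E (𝔇.Rn n) (((i :: I).length + 20) * (2 * ℓ + 8)) (𝔇.kW (itsK (i :: I)))
        (𝔇.kW (itsK (i :: J))) := by
      rw [itsK_cons, itsK_cons, kW_append, kW_append]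
      exact hJE.appL _ (by rw [hB, kW_length, itK_length]; omega)
    rcases J with _ | ⟨j, K⟩
    · refine ⟨[i], ?_, by simp, ?_, ?_, a1⟩
      · intro k hk
        rw [List.mem_singleton] at hk
        exact ⟨i, by simp, by rw [hk]⟩
      · refine ⟨?_, List.IsChain.singleton _⟩
        intro p hp
        rw [vlK_cons, vlK_nil, List.mem_singleton] at hp
        rw [hp]
        exact eps_ne _
      · rw [vlK_cons, vlK_cons, pr_cons, pr_cons, hJp]
    · obtain ⟨hj1, hj2, hj3⟩ := hJ' j (by simp)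
      by_cases hij : evL i.1 = evL j.1
      · -- same index
        have hnn : nQ i.1 + nQ j.1 < n := by
          have := nQ_le_nm i.1
          have := nQ_le_nm j.1
          omega
        have hKl : K.length + 1 ≤ I.length := by simpa using hJl
        have hKs : (itsK K).length ≤ K.length * (2 * ℓ + 1) :=
          itsK_length fun k hk => (hJ' k (by simp [hk])).2.1
        have hKB : 8 * ℓ + 42 + (itsK K).length ≤ ((i :: I).length + 20) * (2 * ℓ + 8) := by
          have h1 : K.length * (2 * ℓ + 1) ≤ I.length * (2 * ℓ + 8) :=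
            Nat.mul_le_mul (by omega) (by omega)
          rw [hB, hB2]
          omega
        by_cases he : j.2 = !i.2
        · refine ⟨K, ?_, by rw [List.length_cons]; omega, hJr.tail, ?_, ?_⟩
          · intro k hk
            obtain ⟨k', hk', h⟩ := hJ k (by simp [hk])
            exact ⟨k', by simp [hk'], h⟩
          · rw [vlK_cons, pr_cons, ← hJp, vlK_cons, pr_cons, ← mul_assoc]
            simp only
            rw [hij, ← map_mul, he, eps_mul_not, map_one, one_mul]
          · refine a1.trans ?_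
            have a2 := (itK_cancel (n := n) hi1 hj1 hij hnn hi2 hj2 i.2).appR (𝔇.kW (itsK K))
              (B := ((i :: I).length + 20) * (2 * ℓ + 8)) (by rw [kW_length]; exact hKB)
            rw [← he, ← kW_append, List.append_assoc] at a2
            exact a2
        · have he' : j.2 = i.2 := by
            cases h1 : j.2 <;> cases h2 : i.2 <;> simp_all
          refine ⟨(j.1, !i.2) :: K, ?_, by simp only [List.length_cons]; omega, ?_, ?_, ?_⟩
          · intro k hk
            rcases List.mem_cons.1 hk with rfl | hk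
            · obtain ⟨k', hk', h⟩ := hJ j (by simp)
              exact ⟨k', by simp [hk'], h⟩
            · obtain ⟨k', hk', h⟩ := hJ k (by simp [hk])
              exact ⟨k', by simp [hk'], h⟩
          · refine ⟨?_, ?_⟩
            · intro p hp
              rw [vlK_cons, List.mem_cons] at hp
              rcases hp with rfl | hp
              · exact eps_ne _
              · exact hJr.1 p (by rw [vlK_cons]; simp [hp])
            · have := hJr.2
              rw [vlK_cons, List.isChain_cons] at this ⊢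
              exact ⟨fun y hy => this.1 y hy, this.2⟩
          · rw [vlK_cons, vlK_cons, pr_cons, pr_cons, ← hJp, vlK_cons, pr_cons, ← mul_assoc]
            simp only
            rw [hij, ← map_mul, he', eps_sq]
          · refine a1.trans ?_
            have a2 := (itK_merge (n := n) hi1 hj1 hij hnn hi2 hj2 i.2).appR (𝔇.kW (itsK K))
              (B := ((i :: I).length + 20) * (2 * ℓ + 8)) (by rw [kW_length]; exact hKB)
            rw [← kW_append, ← kW_append, List.append_assoc] at a2
            have e1 : j = (j.1, i.2) := Prod.ext rfl he'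
            have e2 : itsK (i :: j :: K) = itK (i.1, i.2) ++ (itK (j.1, i.2) ++ itsK K) := by
              rw [itsK_cons, itsK_cons, ← e1]
            have e3 : itsK ((j.1, !i.2) :: K) = itK (j.1, !i.2) ++ itsK K := itsK_cons _ _
            rw [e2, e3]
            exact a2
      · refine ⟨i :: j :: K, ?_, by simp only [List.length_cons] at hJl ⊢; omega, ?_, ?_, a1⟩
        · intro k hk
          rcases List.mem_cons.1 hk with rfl | hk
          · exact ⟨k, by simp, rfl⟩
          · obtain ⟨k', hk', h⟩ := hJ k hk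
            exact ⟨k', by simp [hk'], h⟩
        · refine ⟨?_, ?_⟩
          · intro p hp
            rw [vlK_cons, List.mem_cons] at hp
            rcases hp with rfl | hp
            · exact eps_ne _
            · exact hJr.1 p hp
          · rw [vlK_cons, vlK_cons, List.isChain_cons_cons]
            exact ⟨hij, by rw [← vlK_cons]; exact hJr.2⟩
        · rw [vlK_cons, vlK_cons i I, pr_cons, pr_cons, hJp]

/-! ### Trivial words -/

namespace MC2

lemma evK_form {I : List (𝔇.KW × Bool)} {l : 𝔇.KW} {p : Bool} (hI : ∀ i ∈ I, Lw i.1)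
    (hl : Lw l) (h : evK (itsK I ++ l ++ cW p) = 1) :
    pr (vlK I) = 1 ∧ evL l = 1 ∧ p = false := by
  have hc : evK (𝔇 := 𝔇) (cW p) =
      SemidirectProduct.inr (SemidirectProduct.inr (if p then -1 else 1)) := by
    cases p
    · simp [cW]
    · exact evK_c true
  rw [evK_append, evK_append, evK_itsK hI, evK_Lw hl, hc] at h
  have h1 := congrArg SemidirectProduct.left h
  have h2 := congrArg SemidirectProduct.right h
  simp only [SemidirectProduct.mul_left, SemidirectProduct.mul_right, SemidirectProduct.left_inl,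
    SemidirectProduct.right_inl, SemidirectProduct.left_inr, SemidirectProduct.right_inr,
    SemidirectProduct.one_left, SemidirectProduct.one_right, map_one, mul_one, one_mul] at h1 h2
  have h3 := congrArg SemidirectProduct.left h2
  have h4 := congrArg SemidirectProduct.right h2
  simp only [SemidirectProduct.mul_left, SemidirectProduct.mul_right, SemidirectProduct.left_inl,
    SemidirectProduct.right_inl, SemidirectProduct.left_inr, SemidirectProduct.right_inr,
    SemidirectProduct.one_left, SemidirectProduct.one_right, map_one, mul_one, one_mul] at h3 h4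
  refine ⟨h1, h3, ?_⟩
  cases p
  · rfl
  · simp only [if_true] at h4
    exact absurd h4 (by decide)

end MC2

theorem K0 {n : ℕ} (x : 𝔇.KW) (h : evK x = 1) (hn : 2 * nm x < n) :
    E (𝔇.Rn n) (100 * (x.length + 4) ^ 2) (𝔇.kW x) [] := by
  obtain ⟨I, l, p, hI, hIl, hl, hll, hlm, hev, hE⟩ := K_form (n := n) (by omega) x
  rw [hev] at h
  obtain ⟨h1, h2, rfl⟩ := evK_form (fun i hi => (hI i hi).1) hl h
  obtain ⟨J, hJ, hJl, hJr, hJp, hJE⟩ := its_reduce (n := n) hn I hI
  have hJ0 : J = [] := by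
    have : vlK J = [] := hJr.inj Rd.nil (by rw [hJp, h1]; rfl)
    rcases J with _ | ⟨j, J⟩
    · rfl
    · simp at this
  subst hJ0
  have hB1 : 4 * (x.length + 4) ^ 2 ≤ 100 * (x.length + 4) ^ 2 := by omega
  have hB2 : (I.length + 20) * (2 * x.length + 8) + x.length + 20 ≤ 100 * (x.length + 4) ^ 2 := by
    have h3 : (I.length + 20) * (2 * x.length + 8) ≤ (x.length + 20) * (2 * x.length + 8) :=
      Nat.mul_le_mul_right _ (by omega)
    nlinarith
  have a1 := hE.mono hB1
  have a2 := hJE.appR (𝔇.kW l) (B := 100 * (x.length + 4) ^ 2) (by rw [kW_length]; omega)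
  have a3 := (LN0 (n := n) hl h2 (by have := nQ_le_nm l; omega)).mono
    (B := 100 * (x.length + 4) ^ 2) (by omega)
  have e1 : 𝔇.kW (itsK I ++ l ++ cW false) = 𝔇.kW (itsK I) ++ 𝔇.kW l := by
    simp [cW]
  rw [e1] at a1
  exact (a1.trans a2).trans a3

theorem Keq {n : ℕ} (x y : 𝔇.KW) (h : evK x = evK y) (hn : 2 * (nm x + nm y) < n) :
    E (𝔇.Rn n) (100 * (x.length + y.length + 4) ^ 2 + y.length) (𝔇.kW x) (𝔇.kW y) := by
  have a1 := K0 (n := n) (x ++ inv y) (by rw [evK_append, evK_inv, h, mul_inv_cancel])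
    (by rw [nm_append, nm_inv]; exact hn)
  rw [kW_append, kW_inv] at a1
  refine E.of_mul_inv (𝔇.Rn_free n) a1 ?_
  rw [kW_length, List.length_append, inv_length]

end Dat

end Pool.Agent.BH
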