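import Pool.Agent.BH.MRel
import Pool.Agent.BH.MB1
import Pool.Agent.BH.MC2

set_option autoImplicit false

/-!
# Reading and Lemma R
-/

namespace Pool.Agent.BH

open Monoid

attribute [-simp] FreeGroup.mul_mk FreeGroup.inv_mk

namespace Dat

variable {𝔇 : Dat}

namespace RR

/-! ### Evaluation in `L`, letter by letter -/

lemma evL_cons (p : KG 𝔇.J 𝔇.B 𝔇.Hg × Bool) (x : 𝔇.KW) : evL (p :: x) = evL [p] * evL x := by
  rw [← evL_append]; rfl

lemma evL_true (κ : KG 𝔇.J 𝔇.B 𝔇.Hg) : evL (𝔇 := 𝔇) [(κ, true)] = 𝔇.lv κ := by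
  rw [evL, mk_true, FreeGroup.lift_apply_of]

lemma evL_false (κ : KG 𝔇.J 𝔇.B 𝔇.Hg) : evL (𝔇 := 𝔇) [(κ, false)] = (𝔇.lv κ)⁻¹ := by
  rw [evL, mk_false, map_inv, FreeGroup.lift_apply_of]

/-- The `q`-letters of a word. -/
def qP (x : 𝔇.KW) : List (XG × Bool) := x.filterMap fun p => match p.1 with
  | .y (.q a) => some (a, p.2)
  | _ => none

/-- The `b`-letters of a word. -/
def bP (x : 𝔇.KW) : List (𝔇.B × Bool) := x.filterMap fun p => match p.1 with
  | .y (.b a) => some (a, p.2)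
  | _ => none

/-- The letters `s`, `r` of a word. -/
def sP (x : 𝔇.KW) : List (Option (Option 𝔇.J) × Bool) := x.filterMap fun p => match p.1 with
  | .y (.s σ) => some (some σ, p.2)
  | .y .r => some (none, p.2)
  | _ => none

lemma len_parts (x : 𝔇.KW) : (qP x).length + (bP x).length + (sP x).length ≤ x.length := by
  induction x with
  | nil => simp [qP, bP, sP]
  | cons p x ih =>
    obtain ⟨κ, ε⟩ := p
    rcases κ with _ | _ | _ | n
    · simp only [qP, bP, sP, List.filterMap_cons, List.length_cons] at ih ⊢; omega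
    · simp only [qP, bP, sP, List.filterMap_cons, List.length_cons] at ih ⊢; omega
    · simp only [qP, bP, sP, List.filterMap_cons, List.length_cons] at ih ⊢; omega
    · rcases n with _ | _ | _ | _ | _ | _ <;>
        simp only [qP, bP, sP, List.filterMap_cons, List.length_cons] at ih ⊢ <;> omega

lemma nQ_eq (x : 𝔇.KW) : nQ x = (qP x).length := by
  induction x with
  | nil => simp [qP]
  | cons p x ih =>
    obtain ⟨κ, ε⟩ := p
    rcases κ with _ | _ | _ | n
    · simpa [nQ, qP, List.filterMap_cons] using ih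
    · simpa [nQ, qP, List.filterMap_cons] using ih
    · simpa [nQ, qP, List.filterMap_cons] using ih
    · rcases n with _ | _ | _ | _ | _ | _ <;>
        simpa [nQ, qP, List.filterMap_cons] using ih

lemma nS_eq (x : 𝔇.KW) : nS x = (sP x).countP fun p => p.1.isSome := by
  induction x with
  | nil => simp [sP]
  | cons p x ih =>
    obtain ⟨κ, ε⟩ := p
    rcases κ with _ | _ | _ | n
    · simpa [nS, sP, List.filterMap_cons] using ih
    · simpa [nS, sP, List.filterMap_cons] using ih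
    · simpa [nS, sP, List.filterMap_cons] using ih
    · rcases n with _ | _ | _ | _ | _ | _ <;>
        simpa [nS, sP, List.filterMap_cons] using ih

lemma inD_mk_nil : (inD (QuotientGroup.mk (FreeGroup.mk ([] : List (XG × Bool))), 1) : 𝔇.L) = 1 := by
  have : ((QuotientGroup.mk (FreeGroup.mk ([] : List (XG × Bool))), 1) : 𝔇.D) = 1 := rfl
  rw [this, map_one]

lemma lv_q (a : XG) : 𝔇.lv (.y (.q a)) = inD (QuotientGroup.mk (FreeGroup.of a), 1) := rfl
lemma lv_b (a : 𝔇.B) : 𝔇.lv (.y (.b a)) = inD (1, FreeGroup.of a) := rfl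
lemma lv_s (σ : Option 𝔇.J) : 𝔇.lv (.y (.s σ)) = inS (FreeGroup.of (some σ)) := rfl
lemma lv_r : 𝔇.lv (.y .r) = inS (FreeGroup.of none) := rfl

/-- A word in the letters `q`. -/
def qKW (l : List (XG × Bool)) : 𝔇.KW := l.map fun p => (KG.y (.q p.1), p.2)

/-- A word in the letters `b`. -/
def bKW (l : List (𝔇.B × Bool)) : 𝔇.KW := l.map fun p => (KG.y (.b p.1), p.2)

lemma evL_qKW (l : List (XG × Bool)) :
    evL (qKW l) = (inD (QuotientGroup.mk (FreeGroup.mk l), 1) : 𝔇.L) := by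
  induction l with
  | nil => rw [inD_mk_nil]; rfl
  | cons p l ih =>
    have h2 : ((QuotientGroup.mk (FreeGroup.mk (p :: l)), 1) : 𝔇.D) =
        (QuotientGroup.mk (FreeGroup.mk [p]), 1) * (QuotientGroup.mk (FreeGroup.mk l), 1) := by
      rw [Prod.mk_mul_mk, one_mul, mk_cons, QuotientGroup.mk_mul]
    have h1 : (qKW (p :: l) : 𝔇.KW) = (KG.y (.q p.1), p.2) :: qKW l := rfl
    rw [h1, evL_cons, ih, h2, map_mul]
    congr 1
    rcases p with ⟨x, _ | _⟩
    · rw [evL_false, lv_q, mk_false, QuotientGroup.mk_inv, ← map_inv]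
      congr 2
    · rw [evL_true, lv_q, mk_true]

lemma evL_bKW (l : List (𝔇.B × Bool)) :
    evL (bKW l) = (inD (1, FreeGroup.mk l) : 𝔇.L) := by
  induction l with
  | nil =>
    have : ((1, FreeGroup.mk ([] : List (𝔇.B × Bool))) : 𝔇.D) = 1 := rfl
    rw [this, map_one]; rfl
  | cons p l ih =>
    have h2 : ((1, FreeGroup.mk (p :: l)) : 𝔇.D) =
        (1, FreeGroup.mk [p]) * (1, FreeGroup.mk l) := by
      rw [Prod.mk_mul_mk, one_mul, mk_cons]
    have h1 : (bKW (p :: l) : 𝔇.KW) = (KG.y (.b p.1), p.2) :: bKW l := rfl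
    rw [h1, evL_cons, ih, h2, map_mul]
    congr 1
    rcases p with ⟨x, _ | _⟩
    · rw [evL_false, lv_b, mk_false, ← map_inv]
      congr 2
    · rw [evL_true, lv_b, mk_true]

lemma prD_evL (x : 𝔇.KW) :
    prD (evL x) = (QuotientGroup.mk (FreeGroup.mk (qP x)), FreeGroup.mk (bP x)) := by
  induction x with
  | nil => rfl
  | cons p x ih =>
    rw [evL_cons, map_mul, ih]
    obtain ⟨κ, ε⟩ := p
    have key : ∀ (δ : 𝔇.D), δ = 1 → δ * (QuotientGroup.mk (FreeGroup.mk (qP x)),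
        FreeGroup.mk (bP x)) = (QuotientGroup.mk (FreeGroup.mk (qP x)), FreeGroup.mk (bP x)) := by
      rintro δ rfl; rw [one_mul]
    have k1 : prD (evL [(κ, ε)]) = if ε then prD (𝔇.lv κ) else (prD (𝔇.lv κ))⁻¹ := by
      cases ε
      · rw [evL_false, map_inv]; simp
      · rw [evL_true]; simp
    rw [k1]
    rcases κ with _ | _ | _ | n
    · rw [key _ (by cases ε <;> simp [lv])]; rfl
    · rw [key _ (by cases ε <;> simp [lv])]; rfl
    · rw [key _ (by cases ε <;> simp [lv])]; rfl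
    · rcases n with a | a | a | _ | a | _
      · rw [lv_q, prD_inD]
        have h3 : qP ((KG.y (YG.q a), ε) :: x) = (a, ε) :: qP x := rfl
        have h4 : bP ((KG.y (YG.q a), ε) :: x) = bP x := rfl
        rw [h3, h4, mk_cons, QuotientGroup.mk_mul]
        cases ε
        · rw [mk_false]; simp
        · rw [mk_true]; simp
      · rw [lv_b, prD_inD]
        have h3 : bP ((KG.y (YG.b a), ε) :: x) = (a, ε) :: bP x := rfl
        have h4 : qP ((KG.y (YG.b a), ε) :: x) = qP x := rfl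
        rw [h3, h4, mk_cons]
        cases ε
        · rw [mk_false]; simp
        · rw [mk_true]; simp
      · rw [key _ (by cases ε <;> simp [lv])]; rfl
      · rw [key _ (by cases ε <;> simp [lv])]; rfl
      · rw [key _ (by cases ε <;> simp [lv])]; rfl
      · rw [key _ (by cases ε <;> simp [lv])]; rfl

lemma prS_evL (x : 𝔇.KW) : prS (evL x) = FreeGroup.mk (sP x) := by
  induction x with
  | nil => rfl
  | cons p x ih =>
    rw [evL_cons, map_mul, ih]
    obtain ⟨κ, ε⟩ := p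
    have key : ∀ (δ : 𝔇.FS), δ = 1 → δ * FreeGroup.mk (sP x) = FreeGroup.mk (sP x) := by
      rintro δ rfl; rw [one_mul]
    have k1 : prS (evL [(κ, ε)]) = if ε then prS (𝔇.lv κ) else (prS (𝔇.lv κ))⁻¹ := by
      cases ε
      · rw [evL_false, map_inv]; simp
      · rw [evL_true]; simp
    rw [k1]
    rcases κ with _ | _ | _ | n
    · rw [key _ (by cases ε <;> simp [lv])]; rfl
    · rw [key _ (by cases ε <;> simp [lv])]; rfl
    · rw [key _ (by cases ε <;> simp [lv])]; rfl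
    · rcases n with a | a | a | _ | a | _
      · rw [key _ (by cases ε <;> simp [lv])]; rfl
      · rw [key _ (by cases ε <;> simp [lv])]; rfl
      · rw [lv_s, prS_inS]
        have h3 : sP ((KG.y (YG.s a), ε) :: x) = (some a, ε) :: sP x := rfl
        rw [h3, mk_cons]
        cases ε
        · rw [mk_false]; simp
        · rw [mk_true]; simp
      · rw [lv_r, prS_inS]
        have h3 : sP ((KG.y YG.r, ε) :: x) = (none, ε) :: sP x := rfl
        rw [h3, mk_cons]
        cases ε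
        · rw [mk_false]; simp
        · rw [mk_true]; simp
      · rw [key _ (by cases ε <;> simp [lv])]; rfl
      · rw [key _ (by cases ε <;> simp [lv])]; rfl

/-- The part in `D` of a word. -/
def dW (x : 𝔇.KW) : 𝔇.KW := qKW (qP x) ++ bKW (bP x)

lemma evL_dW (x : 𝔇.KW) : evL (dW x) = inD (prD (evL x)) := by
  rw [dW, evL_append, evL_qKW, evL_bKW, ← map_mul, prD_evL, Prod.mk_mul_mk, mul_one, one_mul]

lemma dW_length (x : 𝔇.KW) : (dW x).length = (qP x).length + (bP x).length := by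
  simp [dW, qKW, bKW]

/-- Words in the letters `q`, `b`. -/
def Dw (x : 𝔇.KW) : Prop := ∀ p ∈ x, (∃ a, p.1 = KG.y (.q a)) ∨ ∃ a, p.1 = KG.y (.b a)

lemma Dw.append {x y : 𝔇.KW} (hx : Dw x) (hy : Dw y) : Dw (x ++ y) := by
  intro p hp
  rcases List.mem_append.1 hp with h | h
  · exact hx p h
  · exact hy p h

lemma Dw.Lw {x : 𝔇.KW} (hx : Dw x) : Lw x := by
  intro p hp
  rcases hx p hp with ⟨a, ha⟩ | ⟨a, ha⟩ <;> rw [ha] <;> simp

lemma Lw_append {x y : 𝔇.KW} (hx : Lw x) (hy : Lw y) : Lw (x ++ y) := by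
  intro p hp
  rcases List.mem_append.1 hp with h | h
  · exact hx p h
  · exact hy p h

lemma dW_Dw (x : 𝔇.KW) : Dw (dW x) := by
  apply Dw.append
  · intro p hp
    obtain ⟨q, -, rfl⟩ := List.mem_map.1 hp
    exact Or.inl ⟨_, rfl⟩
  · intro p hp
    obtain ⟨q, -, rfl⟩ := List.mem_map.1 hp
    exact Or.inr ⟨_, rfl⟩

lemma nQ_qKW (l : List (XG × Bool)) : nQ (qKW l : 𝔇.KW) = l.length := by
  induction l with
  | nil => rfl
  | cons p l ih =>
    have : (qKW (p :: l) : 𝔇.KW) = [(KG.y (.q p.1), p.2)] ++ qKW l := rfl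
    rw [this, nQ_append, ih, List.length_cons, Nat.add_comm]
    rfl

lemma nQ_bKW (l : List (𝔇.B × Bool)) : nQ (bKW l : 𝔇.KW) = 0 := by
  induction l with
  | nil => rfl
  | cons p l ih =>
    have : (bKW (p :: l) : 𝔇.KW) = [(KG.y (.b p.1), p.2)] ++ bKW l := rfl
    rw [this, nQ_append, ih]
    rfl

lemma nQ_dW (x : 𝔇.KW) : nQ (dW x) = nQ x := by
  rw [dW, nQ_append, nQ_qKW, nQ_bKW, nQ_eq, Nat.add_zero]

/-! ### The form of a word with value `d * r ^ ρ * u` -/

/-- The letter `r` or nothing. -/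
def rK (ρ : Bool) : 𝔇.KW := if ρ then [(KG.y .r, true)] else []

lemma evL_sK (u : List (Option 𝔇.J)) : evL (sK u) = (inS (fo false u) : 𝔇.L) := by
  induction u with
  | nil => simp [sK, fo]
  | cons σ u ih =>
    have h1 : (sK (σ :: u) : 𝔇.KW) = (.y (.s σ), true) :: sK u := rfl
    have h2 : fo (J := 𝔇.J) false (σ :: u) = FreeGroup.of (some σ) * fo false u := by
      simp only [fo, Bool.false_eq_true, if_false, List.nil_append, List.map_cons]
      rw [mk_cons, mk_true]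
    rw [h1, evL_cons, ih, evL_true, lv_s, h2, map_mul]

lemma evL_rs (ρ : Bool) (u : List (Option 𝔇.J)) :
    evL (rK ρ ++ sK u) = (inS (fo ρ u) : 𝔇.L) := by
  rw [evL_append, evL_sK]
  cases ρ
  · simp [rK]
  · rw [fo_true, map_mul]
    simp only [rK, if_true]
    rw [evL_true, lv_r]

lemma Lw_sK (u : List (Option 𝔇.J)) : Lw (sK u : 𝔇.KW) := by
  intro p hp
  obtain ⟨q, -, rfl⟩ := List.mem_map.1 hp
  simp

lemma Lw_rK (ρ : Bool) : Lw (rK ρ : 𝔇.KW) := by
  intro p hp
  cases ρ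
  · simp [rK] at hp
  · simp only [rK, if_true, List.mem_singleton] at hp
    subst hp
    simp

lemma nQ_sK (u : List (Option 𝔇.J)) : nQ (sK u : 𝔇.KW) = 0 := by
  induction u with
  | nil => rfl
  | cons σ u ih =>
    have : (sK (σ :: u) : 𝔇.KW) = [(KG.y (.s σ), true)] ++ sK u := rfl
    rw [this, nQ_append, ih]
    rfl

lemma nQ_rK (ρ : Bool) : nQ (rK ρ : 𝔇.KW) = 0 := by
  cases ρ <;> rfl

lemma sK_length (u : List (Option 𝔇.J)) : (sK u : 𝔇.KW).length = u.length := by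
  simp [sK]

lemma rK_length (ρ : Bool) : (rK ρ : 𝔇.KW).length ≤ 1 := by
  cases ρ <;> simp [rK]

/-- A word whose value has the form `d * r ^ ρ * u`. -/
lemma form {n : ℕ} {κ : 𝔇.KW} (hκ : Lw κ) (hn : 2 * nm κ < n) {δ : 𝔇.D} {ρ : Bool}
    {u : List (Option 𝔇.J)} (h : evL κ = inD δ * inS (fo ρ u)) :
    u.length ≤ nS κ ∧ (dW κ).length + u.length ≤ κ.length ∧ evL (dW κ) = inD δ ∧
    E (𝔇.Rn n) (3 * κ.length + 22) (𝔇.kW κ) (𝔇.kW (dW κ ++ rK ρ ++ sK u)) := by
  have h1 : prD (evL κ) = δ := by rw [h]; simp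
  have h2 : FreeGroup.mk (sP κ) = fo ρ u := by rw [← prS_evL, h]; simp
  have h3 : List.Sublist ((if ρ then [(none, true)] else []) ++
      u.map fun σ => ((some σ, true) : Option (Option 𝔇.J) × Bool)) (sP κ) := by
    rw [fo, FreeGroup.Red.exact] at h2
    obtain ⟨z, h4, h5⟩ := h2
    have h6 := pos_red h5 (by
      intro p hp
      rcases List.mem_append.1 hp with hp | hp
      · cases ρ
        · simp at hp
        · simp at hp; rw [hp]
      · obtain ⟨σ, -, rfl⟩ := List.mem_map.1 hp; rfl)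
    rw [h6] at h4
    exact h4.sublist
  have hu : u.length ≤ (sP κ).length := by
    have := h3.length_le
    rw [List.length_append, List.length_map] at this
    omega
  have hc : u.length ≤ nS κ := by
    have h4 := h3.countP_le (p := fun p => p.1.isSome)
    rw [nS_eq]
    refine le_trans ?_ h4
    rw [List.countP_append, List.countP_map]
    have : (List.countP ((fun p : Option (Option 𝔇.J) × Bool => p.1.isSome) ∘
        fun σ => (some σ, true)) u) = u.length := by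
      rw [List.countP_eq_length]
      intro a _
      rfl
    omega
  have hp := len_parts κ
  have hd := dW_length κ
  refine ⟨hc, by omega, by rw [evL_dW, h1], ?_⟩
  have hl : (dW κ ++ rK ρ ++ sK u).length ≤ κ.length + 1 := by
    have := rK_length (𝔇 := 𝔇) ρ
    simp only [List.length_append, sK_length]
    omega
  have e1 := LNeq (n := n) hκ (Lw_append (Lw_append (dW_Dw κ).Lw (Lw_rK ρ)) (Lw_sK u)) (by
    rw [List.append_assoc, evL_append, evL_dW, h1, evL_rs, h]) (by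
    rw [nQ_append, nQ_append, nQ_dW, nQ_sK, nQ_rK]
    have : nQ κ ≤ nm κ := Nat.le_add_right _ _
    omega)
  exact e1.mono (by omega)

/-! ### Commutation -/

lemma kW_not (ε : Bool) : 𝔇.kW [(KG.e, !ε)] = inv (𝔇.kW [(KG.e, ε)]) := rfl

lemma Cm_letter {n : ℕ} (a : A5) {p : KG 𝔇.J 𝔇.B 𝔇.Hg × Bool}
    (hp : (∃ a, p.1 = KG.y (.q a)) ∨ ∃ a, p.1 = KG.y (.b a)) :
    Cm (𝔇.Rn n) 8 [(.z a, true)] [(.k p.1, p.2)] := by
  obtain ⟨κ, ε⟩ := p
  have key : Cm (𝔇.Rn n) 6 [(.z a, true)] [(.k κ, true)] := by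
    rcases hp with ⟨x, hx⟩ | ⟨x, hx⟩
    · simp only at hx
      subst hx
      exact Cm.of_rel (𝔇.Rn_free n) (Sys.Rel.a _ (Sys.RelA.zq a x)) (by simp)
    · simp only at hx
      subst hx
      exact Cm.of_rel (𝔇.Rn_free n) (Sys.Rel.a _ (Sys.RelA.zb a x)) (by simp)
  cases ε
  · have h := Cm.inv_right (𝔇.Rn_free n) (B := 8) key (by simp)
    exact h
  · exact key.mono (by norm_num)

lemma Cm_D {n : ℕ} (a : A5) {d : 𝔇.KW} (hd : Dw d) :
    Cm (𝔇.Rn n) (d.length + 8) [(.z a, true)] (𝔇.kW d) := by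
  have h := Cm.letters (R := 𝔇.Rn n) (A := 8) (x := [(.z a, true)]) (l := 𝔇.kW d) (by
    intro p hp
    obtain ⟨q, hq, rfl⟩ := List.mem_map.1 hp
    exact Cm_letter a (hd q hq)) (by simp)
  exact h.mono (by rw [kW_length]; omega)

lemma Cm_step {n : ℕ} (a : A5) {d h h' : 𝔇.KW} (hd : Dw d) (ε : Bool)
    (hR : 𝔇.Rn n (cm [(.z a, true)] (𝔇.kW (cj h [(KG.e, ε)] ++ cj h' [(KG.e, !ε)])))) {Y : ℕ}
    (h1 : (d ++ h).length ≤ Y) (h2 : (d ++ h').length ≤ Y) :
    Cm (𝔇.Rn n) (16 * Y + 40) [(.z a, true)]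
      (𝔇.kW (cj (d ++ h) [(KG.e, ε)] ++ cj (d ++ h') [(KG.e, !ε)])) := by
  have c1 := Cm_D (n := n) a hd
  have c2 : Cm (𝔇.Rn n) (3 * d.length + 8) [(.z a, true)] (inv (𝔇.kW d)) :=
    Cm.inv_right (𝔇.Rn_free n) c1 (by rw [kW_length]; omega)
  set m : 𝔇.KW := cj h [(KG.e, ε)] ++ cj h' [(KG.e, !ε)] with hm
  have hml : m.length = 2 * h.length + 1 + (2 * h'.length + 1) := by
    rw [hm, List.length_append, cj_length, cj_length]; rfl
  have c3 : Cm (𝔇.Rn n) (3 * (1 + m.length)) [(.z a, true)] (𝔇.kW m) :=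
    Cm.of_rel (𝔇.Rn_free n) hR (by rw [kW_length]; simp)
  rw [List.length_append] at h1 h2
  have c4 : Cm (𝔇.Rn n) (13 * Y + 20) [(.z a, true)] (𝔇.kW d ++ 𝔇.kW m) :=
    Cm.mul_right c1 c3 (by rw [kW_length, kW_length]; omega)
  have c5 : Cm (𝔇.Rn n) (14 * Y + 20) [(.z a, true)] (𝔇.kW d ++ 𝔇.kW m ++ inv (𝔇.kW d)) :=
    Cm.mul_right c4 c2 (by
      rw [List.length_append, inv_length, kW_length, kW_length]; omega)
  refine Cm.congr_right (B := 6 * Y + 10) c5 ?_ (by simp; omega)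
  refine E.free (𝔇.Rn_free n) ?_ ?_ ?_
  · rw [hm]
    simp only [kW_append, kW_cj, mk_append, mk_inv, mk_cj]
    group
  · rw [List.length_append, List.length_append, inv_length, kW_length, kW_length]; omega
  · rw [kW_length, List.length_append, cj_length, cj_length, List.length_append,
      List.length_append]
    simp only [List.length_cons, List.length_nil]
    omega

lemma Cm_tele {n A B C Y : ℕ} (a : A5) {x y w : 𝔇.KW} (ε : Bool)
    (h1 : Cm (𝔇.Rn n) A [(.z a, true)] (𝔇.kW (cj x [(KG.e, ε)] ++ cj y [(KG.e, !ε)])))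
    (h2 : Cm (𝔇.Rn n) B [(.z a, true)] (𝔇.kW (cj y [(KG.e, ε)] ++ cj w [(KG.e, !ε)])))
    (hx : x.length ≤ Y) (hy : y.length ≤ Y) (hw : w.length ≤ Y)
    (hC : max A B + (4 * Y + 2) ≤ C) (hC' : 8 * Y + 10 ≤ C) :
    Cm (𝔇.Rn n) C [(.z a, true)] (𝔇.kW (cj x [(KG.e, ε)] ++ cj w [(KG.e, !ε)])) := by
  have l1 : (𝔇.kW (cj x [(KG.e, ε)] ++ cj y [(KG.e, !ε)])).length =
      2 * x.length + 1 + (2 * y.length + 1) := by
    rw [kW_length, List.length_append, cj_length, cj_length]; rfl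
  have l2 : (𝔇.kW (cj y [(KG.e, ε)] ++ cj w [(KG.e, !ε)])).length =
      2 * y.length + 1 + (2 * w.length + 1) := by
    rw [kW_length, List.length_append, cj_length, cj_length]; rfl
  have l3 : (𝔇.kW (cj x [(KG.e, ε)] ++ cj w [(KG.e, !ε)])).length =
      2 * x.length + 1 + (2 * w.length + 1) := by
    rw [kW_length, List.length_append, cj_length, cj_length]; rfl
  have c := Cm.mul_right (C := C) h1 h2 (by rw [l1, l2]; omega)
  refine Cm.congr_right (B := 8 * Y + 4) c ?_ (by simp; omega)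
  refine E.free (𝔇.Rn_free n) ?_ ?_ ?_
  · simp only [kW_append, kW_cj, kW_not, mk_append, mk_inv, mk_cj]
    group
  · rw [List.length_append, l1, l2]; omega
  · rw [l3]; omega

lemma Cm_self {n C Y : ℕ} (a : A5) (x : 𝔇.KW) (ε : Bool) (hx : x.length ≤ Y)
    (hC : 4 * Y + 10 ≤ C) :
    Cm (𝔇.Rn n) C [(.z a, true)] (𝔇.kW (cj x [(KG.e, ε)] ++ cj x [(KG.e, !ε)])) := by
  have l1 : (𝔇.kW (cj x [(KG.e, ε)] ++ cj x [(KG.e, !ε)])).length =
      2 * x.length + 1 + (2 * x.length + 1) := by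
    rw [kW_length, List.length_append, cj_length, cj_length]; rfl
  refine Cm.congr_right (A := 1) (B := 4 * Y + 4) (Cm.nil (by simp)) ?_ (by simp; omega)
  refine (E.free (𝔇.Rn_free n) ?_ (by simp) (by rw [l1]; omega))
  simp only [kW_append, kW_cj, kW_not, mk_append, mk_inv, mk_cj, mk_nil]
  group

/-! ### Reading -/

/-- The word multiplied to the register. -/
def aK (ρ : Bool) (j : 𝔇.J) : 𝔇.KW :=
  if ρ then bK (𝔇.S.bot j) else lK (𝔇.S.lab j) ++ bK (𝔇.S.top j)

/-- The value multiplied to the register. -/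
def aD (ρ : Bool) (j : 𝔇.J) : 𝔇.D := if ρ then 𝔇.β j else 𝔇.α j

lemma bK_eq (l : List 𝔇.B) : (bK l : 𝔇.KW) = bKW (l.map (·, true)) := by
  simp [bK, bKW, Function.comp_def]

lemma lK_eq (x : Option (XG × Bool)) : (lK x : 𝔇.KW) = qKW x.toList := rfl

lemma evL_aK (ρ : Bool) (j : 𝔇.J) : evL (aK ρ j) = (inD (aD ρ j) : 𝔇.L) := by
  cases ρ
  · simp only [aK, aD, Bool.false_eq_true, if_false]
    rw [bK_eq, lK_eq, evL_append, evL_qKW, evL_bKW, ← map_mul, Prod.mk_mul_mk, mul_one, one_mul]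
    rfl
  · simp only [aK, aD, if_true]
    rw [bK_eq, evL_bKW]
    rfl

lemma Dw_bKW (l : List (𝔇.B × Bool)) : Dw (bKW l : 𝔇.KW) := by
  intro p hp
  obtain ⟨q, -, rfl⟩ := List.mem_map.1 hp
  exact Or.inr ⟨_, rfl⟩

lemma Dw_qKW (l : List (XG × Bool)) : Dw (qKW l : 𝔇.KW) := by
  intro p hp
  obtain ⟨q, -, rfl⟩ := List.mem_map.1 hp
  exact Or.inl ⟨_, rfl⟩

lemma Dw_aK (ρ : Bool) (j : 𝔇.J) : Dw (aK ρ j : 𝔇.KW) := by
  cases ρ
  · simp only [aK, Bool.false_eq_true, if_false]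
    rw [bK_eq, lK_eq]
    exact (Dw_qKW _).append (Dw_bKW _)
  · simp only [aK, if_true]
    rw [bK_eq]
    exact Dw_bKW _

lemma nQ_aK (ρ : Bool) (j : 𝔇.J) : nQ (aK ρ j : 𝔇.KW) ≤ 1 := by
  have h : (𝔇.S.lab j).toList.length ≤ 1 := by
    cases 𝔇.S.lab j <;> simp
  cases ρ
  · simp only [aK, Bool.false_eq_true, if_false]
    rw [bK_eq, lK_eq, nQ_append, nQ_qKW, nQ_bKW]
    exact h
  · simp only [aK, if_true]
    rw [bK_eq, nQ_bKW]
    norm_num

lemma aK_length {n X : ℕ} (hX : 𝔇.Big n X) (ρ : Bool) (j : 𝔇.J) :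
    (aK ρ j : 𝔇.KW).length ≤ X + 1 := by
  have h : (𝔇.S.lab j).toList.length ≤ 1 := by
    cases 𝔇.S.lab j <;> simp
  have h1 := hX.htop j
  have h2 := hX.hbot j
  cases ρ
  · simp only [aK, Bool.false_eq_true, if_false]
    simp only [lK, bK, List.length_append, List.length_map]
    omega
  · simp only [aK, if_true]
    simp only [bK, List.length_map]
    omega

/-- The relators of the readers. -/
lemma rel_read {n : ℕ} (a : A5) (ε ρ : Bool) (j : 𝔇.J) (u : List (Option 𝔇.J)) :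
    𝔇.Rn n (cm [(.z a, true)] (𝔇.kW (cj (rK ρ ++ sK (some j :: u)) [(KG.e, ε)] ++
      cj (aK ρ j ++ rK ρ ++ sK u) [(KG.e, !ε)]))) := by
  cases ρ
  · have h1 : 𝔇.kW (cj (rK false ++ sK (some j :: u)) [(KG.e, ε)] ++
      cj (aK false j ++ rK false ++ sK u) [(KG.e, !ε)]) =
      (eW (sW (some j :: u)) ε ++ eW (𝔇.S.aW j ++ sW u) !ε : 𝔇.WW) := by
      simp only [rK, aK, Bool.false_eq_true, if_false, List.nil_append, List.append_nil,
        kW_append, kW_e, kW_sK, kW_bK, kW_lK, Sys.aW]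
    rw [h1]
    exact Sys.Rel.u u _ (Sys.RelU.r1 j ε a)
  · have h1 : 𝔇.kW (cj (rK true ++ sK (some j :: u)) [(KG.e, ε)] ++
      cj (aK true j ++ rK true ++ sK u) [(KG.e, !ε)]) =
      (eW (rW ++ sW (some j :: u)) ε ++ eW (𝔇.S.cW j ++ rW ++ sW u) !ε : 𝔇.WW) := by
      simp only [rK, aK, if_true, kW_append, kW_e, kW_sK, kW_bK, Sys.cW]
      rfl
    rw [h1]
    exact Sys.Rel.u u _ (Sys.RelU.r2 j ε a)

lemma rel_none {n : ℕ} (a : A5) (ε : Bool) (u : List (Option 𝔇.J)) :
    𝔇.Rn n (cm [(.z a, true)] (𝔇.kW (cj (rK true ++ sK (none :: u)) [(KG.e, ε)] ++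
      cj (sK (none :: u)) [(KG.e, !ε)]))) := by
  have h1 : 𝔇.kW (cj (rK true ++ sK (none :: u)) [(KG.e, ε)] ++
      cj (sK (none :: u)) [(KG.e, !ε)]) =
      (eW (rW ++ sW (none :: u)) ε ++ eW (sW (none :: u)) !ε : 𝔇.WW) := by
    simp only [rK, if_true, kW_append, kW_e, kW_sK]
    rfl
  rw [h1]
  exact Sys.Rel.u u _ (Sys.RelU.r3 ε a)

lemma readW {n X : ℕ} (hX : 𝔇.Big n X) (u : List (Option 𝔇.J)) :
    ∀ (ρ : Bool) (d : 𝔇.KW) (δ : 𝔇.D) (Y : ℕ), Dw d → evL d = inD δ →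
    d.length + 1 + u.length * (X + 1) ≤ Y →
    ∃ T : 𝔇.KW, Lw T ∧ evL T = rd δ ρ u ∧ nQ T ≤ nQ d + u.length ∧ T.length ≤ Y ∧
    ∀ (a : A5) (ε : Bool), Cm (𝔇.Rn n) (16 * Y + 40 + u.length * (4 * Y + 2)) [(.z a, true)]
      (𝔇.kW (cj (d ++ rK ρ ++ sK u) [(KG.e, ε)] ++ cj T [(KG.e, !ε)])) := by
  induction u with
  | nil =>
    intro ρ d δ Y hd hδ hY
    have hl : (d ++ rK ρ ++ sK []).length ≤ Y := by
      have := rK_length (𝔇 := 𝔇) ρ
      simp only [List.length_append, sK_length, List.length_nil] at hY ⊢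
      omega
    refine ⟨d ++ rK ρ ++ sK [], Lw_append (Lw_append hd.Lw (Lw_rK ρ)) (Lw_sK _), ?_, ?_, hl, ?_⟩
    · rw [List.append_assoc, evL_append, evL_rs, hδ, rd]
    · rw [nQ_append, nQ_append, nQ_rK, nQ_sK]
      omega
    · intro a ε
      exact Cm_self a _ ε hl (by omega)
  | cons σ u ih =>
    intro ρ d δ Y hd hδ hY
    rw [List.length_cons, Nat.add_one_mul] at hY
    have hu : u.length ≤ u.length * (X + 1) := Nat.le_mul_of_pos_right _ (Nat.succ_pos _)
    rcases σ with _ | j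
    · have hl : ∀ ρ, (d ++ rK ρ ++ sK (none :: u)).length ≤ Y := by
        intro ρ
        have := rK_length (𝔇 := 𝔇) ρ
        have := hX.h1000
        simp only [List.length_append, sK_length, List.length_cons]
        omega
      refine ⟨d ++ rK false ++ sK (none :: u),
        Lw_append (Lw_append hd.Lw (Lw_rK false)) (Lw_sK _), ?_, ?_, hl _, ?_⟩
      · rw [List.append_assoc, evL_append, evL_rs, hδ]
        cases ρ <;> simp [rd]
      · rw [nQ_append, nQ_append, nQ_rK, nQ_sK]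
        omega
      · intro a ε
        rcases ρ with _ | _
        · exact Cm_self a _ ε (hl _) (by omega)
        · have h := Cm_step (n := n) a (h := rK true ++ sK (none :: u))
            (h' := sK (none :: u)) hd ε (rel_none a ε u) (Y := Y)
            (by have := hl true; rwa [List.append_assoc] at this)
            (by have := hl false; simpa [rK] using this)
          have e1 : d ++ rK true ++ sK (none :: u) = d ++ (rK true ++ sK (none :: u)) :=
            List.append_assoc _ _ _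
          have e2 : d ++ rK false ++ sK (none :: u) = d ++ sK (none :: u) := by simp [rK]
          rw [e1, e2]
          exact h.mono (Nat.le_add_right _ _)
    · obtain ⟨T, hT1, hT2, hT3, hT4, hT5⟩ := ih ρ (d ++ aK ρ j) (δ * aD ρ j) Y
        (hd.append (Dw_aK ρ j)) (by rw [evL_append, hδ, evL_aK, map_mul]) (by
          have := aK_length hX ρ j
          rw [List.length_append]
          omega)
      refine ⟨T, hT1, ?_, ?_, hT4, ?_⟩
      · rw [hT2]
        cases ρ <;> simp [rd, aD]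
      · have := nQ_aK (𝔇 := 𝔇) ρ j
        rw [nQ_append] at hT3
        rw [List.length_cons]
        omega
      · intro a ε
        have hr := rK_length (𝔇 := 𝔇) ρ
        have ha := aK_length hX ρ j
        have hx0 := hX.h1000
        have l1 : (d ++ (rK ρ ++ sK (some j :: u))).length ≤ Y := by
          simp only [List.length_append, sK_length, List.length_cons]
          omega
        have l2 : (d ++ (aK ρ j ++ rK ρ ++ sK u)).length ≤ Y := by
          simp only [List.length_append, sK_length]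
          omega
        have h := Cm_step (n := n) a (h := rK ρ ++ sK (some j :: u))
            (h' := aK ρ j ++ rK ρ ++ sK u) hd ε (rel_read a ε ρ j u) (Y := Y) l1 l2
        have h' := hT5 a ε
        have e1 : d ++ aK ρ j ++ rK ρ ++ sK u = d ++ (aK ρ j ++ rK ρ ++ sK u) := by
          simp only [List.append_assoc]
        have e2 : d ++ rK ρ ++ sK (some j :: u) = d ++ (rK ρ ++ sK (some j :: u)) :=
          List.append_assoc _ _ _
        rw [e1] at h'
        rw [e2]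
        refine Cm_tele a ε h h' l1 l2 hT4 ?_ (by
          rw [List.length_cons, Nat.add_one_mul u.length]; omega)
        rw [List.length_cons, Nat.add_one_mul u.length]
        have : max (16 * Y + 40) (16 * Y + 40 + u.length * (4 * Y + 2)) =
            16 * Y + 40 + u.length * (4 * Y + 2) := max_eq_right (Nat.le_add_right _ _)
        rw [this]
        omega

lemma E_cj {n A : ℕ} {x y : 𝔇.WW} (m : 𝔇.WW) (h : E (𝔇.Rn n) A x y) :
    E (𝔇.Rn n) (4 * A + m.length) (cj x m) (cj y m) := by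
  unfold cj
  exact ((h.mul (E.refl (le_refl m.length))).mul (h.inv' (𝔇.Rn_free n))).mono (by omega)

end RR

/-! ## The theorems -/

theorem read {n X : ℕ} (hX : 𝔇.Big n X) (κ : 𝔇.KW) (hκ : Lw κ) (hl : κ.length ≤ 16 * X)
    (hn : 2 * nm κ < n) : ∃ T : 𝔇.KW, Lw T ∧ evL T = cl (evL κ) ∧ nQ T ≤ nm κ ∧
      T.length ≤ 20 * X ^ 2 ∧ ∀ (a : A5) (ε : Bool), Cm (𝔇.Rn n) (X ^ 4) [(.z a, true)]
        (𝔇.kW (cj κ [(KG.e, ε)] ++ cj T [(KG.e, !ε)])) := by
  have hX0 := hX.h1000
  have hnX := hX.hn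
  have x2 : 1000 * X ≤ X ^ 2 := by rw [sq]; exact Nat.mul_le_mul_right _ hX0
  have x3 : 1000 * X ^ 2 ≤ X ^ 3 := by
    rw [pow_succ X 2, Nat.mul_comm]; exact Nat.mul_le_mul_left _ hX0
  have x4 : 1000 * X ^ 3 ≤ X ^ 4 := by
    rw [pow_succ X 3, Nat.mul_comm]; exact Nat.mul_le_mul_left _ hX0
  by_cases hh : ∃ (δ : 𝔇.D) (ρ : Bool) (u : List (Option 𝔇.J)),
      evL κ = inD δ * inS (fo ρ u)
  · obtain ⟨δ, ρ, u, h⟩ := hh
    obtain ⟨h1, h2, h3, h4⟩ := RR.form (n := n) hκ hn h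
    have h5 : nS κ ≤ nm κ := Nat.le_add_left _ _
    have hu : 2 * u.length ≤ X := by omega
    have hY : (RR.dW κ).length + 1 + u.length * (X + 1) ≤ X ^ 2 := by
      have : 2 * (u.length * (X + 1)) ≤ X * (X + 1) := by
        rw [← Nat.mul_assoc]; exact Nat.mul_le_mul_right _ hu
      have h6 : X * (X + 1) = X ^ 2 + X := by ring
      omega
    obtain ⟨T, t1, t2, t3, t4, t5⟩ := RR.readW hX u ρ (RR.dW κ) δ (X ^ 2) (RR.dW_Dw κ) h3 hY
    refine ⟨T, t1, by rw [t2, h, cl_form], ?_, by omega, ?_⟩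
    · rw [RR.nQ_dW] at t3
      have : nQ κ + u.length ≤ nm κ := by unfold nm; omega
      omega
    · intro a ε
      have hT : (𝔇.kW (cj T [(KG.e, !ε)])).length ≤ 2 * X ^ 2 + 1 := by
        rw [kW_length, cj_length]; simp only [List.length_cons, List.length_nil]; omega
      have e1 := RR.E_cj (𝔇.kW [(KG.e, ε)]) h4.symm
      have e2 := e1.appR (𝔇.kW (cj T [(KG.e, !ε)])) (B := 4 * (3 * κ.length + 22) + 1 +
        (2 * X ^ 2 + 1)) (by rw [kW_length]; simp only [List.length_cons, List.length_nil]; omega)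
      rw [← kW_cj, ← kW_cj, ← kW_append, ← kW_append] at e2
      refine Cm.congr_right (t5 a ε) e2 ?_
      have h6 : 2 * (u.length * (4 * X ^ 2 + 2)) ≤ X * (4 * X ^ 2 + 2) := by
        rw [← Nat.mul_assoc]; exact Nat.mul_le_mul_right _ hu
      have h7 : X * (4 * X ^ 2 + 2) = 4 * X ^ 3 + 2 * X := by ring
      simp only [List.length_cons, List.length_nil]
      omega
  · refine ⟨κ, hκ, (cl_not_form hh).symm, Nat.le_add_right _ _, by omega, ?_⟩
    intro a ε
    exact RR.Cm_self a κ ε le_rfl (by omega)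

namespace RR

/-- Two positions of the same class. -/
lemma pair {n X : ℕ} (hX : 𝔇.Big n X) {κ₁ κ₂ : 𝔇.KW} (h1 : Lw κ₁) (h2 : Lw κ₂)
    (l1 : κ₁.length ≤ 16 * X) (l2 : κ₂.length ≤ 16 * X) (n1 : 2 * nm κ₁ < n) (n2 : 2 * nm κ₂ < n)
    (hc : cl (evL κ₁) = cl (evL κ₂)) (a : A5) (ε : Bool) :
    Cm (𝔇.Rn n) (2 * X ^ 4) [(.z a, true)] (𝔇.kW (cj κ₁ [(KG.e, ε)] ++ cj κ₂ [(KG.e, !ε)])) := by
  have hX0 := hX.h1000
  have x2 : 1000 * X ≤ X ^ 2 := by rw [sq]; exact Nat.mul_le_mul_right _ hX0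
  have x3 : 1000 * X ^ 2 ≤ X ^ 3 := by
    rw [pow_succ X 2, Nat.mul_comm]; exact Nat.mul_le_mul_left _ hX0
  have x4 : 1000 * X ^ 3 ≤ X ^ 4 := by
    rw [pow_succ X 3, Nat.mul_comm]; exact Nat.mul_le_mul_left _ hX0
  obtain ⟨T₁, t1, e1, q1, s1, c1⟩ := read hX κ₁ h1 l1 n1
  obtain ⟨T₂, t2, e2, q2, s2, c2⟩ := read hX κ₂ h2 l2 n2
  have eT := LNeq (n := n) t2 t1 (by rw [e1, e2, hc]) (by omega)
  -- the second one, inverted
  have c3 := Cm.inv_right (𝔇.Rn_free n) (B := X ^ 4 + 100 * X ^ 2) (c2 a ε) (by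
    rw [kW_length, List.length_append, cj_length, cj_length]
    simp only [List.length_cons, List.length_nil]
    omega)
  have lz : (([(.z a, true)] : 𝔇.WW)).length = 1 := rfl
  have c4 : Cm (𝔇.Rn n) (X ^ 4 + 100 * X ^ 2) [(.z a, true)]
      (𝔇.kW (cj T₂ [(KG.e, ε)] ++ cj κ₂ [(KG.e, !ε)])) := by
    refine Cm.congr_right (B := 100 * X ^ 2) c3 ?_ (by rw [lz]; omega)
    refine E.free (𝔇.Rn_free n) ?_ ?_ ?_
    · simp only [kW_append, kW_cj, kW_not, mk_append, mk_inv, mk_cj]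
      group
    · rw [inv_length, kW_length, List.length_append, cj_length, cj_length]
      simp only [List.length_cons, List.length_nil]
      omega
    · rw [kW_length, List.length_append, cj_length, cj_length]
      simp only [List.length_cons, List.length_nil]
      omega
  have c5 : Cm (𝔇.Rn n) (X ^ 4 + 100 * X ^ 2) [(.z a, true)]
      (𝔇.kW (cj T₁ [(KG.e, ε)] ++ cj κ₂ [(KG.e, !ε)])) := by
    have g1 := (E_cj (𝔇.kW [(KG.e, ε)]) eT).appR (𝔇.kW (cj κ₂ [(KG.e, !ε)]))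
      (B := 300 * X ^ 2) (by
        rw [kW_length, kW_length, cj_length]
        simp only [List.length_cons, List.length_nil]
        omega)
    rw [← kW_cj, ← kW_cj, ← kW_append, ← kW_append] at g1
    exact Cm.congr_right c4 g1 (by rw [lz]; omega)
  exact Cm_tele a ε (c1 a ε) c5 (Y := 20 * X ^ 2) (by omega) s1 (by omega) (by omega) (by omega)

lemma e_sq {n : ℕ} (ε : Bool) :
    E (𝔇.Rn n) 12 (𝔇.kW [(KG.e, ε), (KG.e, ε)]) (𝔇.kW [(KG.e, !ε)]) := by
  have h3 : E (𝔇.Rn n) 3 (𝔇.kW [(KG.e, true), (KG.e, true), (KG.e, true)]) [] :=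
    E.rel (Sys.Rel.a _ Sys.RelA.e3) le_rfl
  cases ε
  · refine E.of_mul_inv (𝔇.Rn_free n) (A := 9) ?_ (by simp)
    exact h3.inv' (𝔇.Rn_free n)
  · exact E.of_mul_inv (𝔇.Rn_free n) (A := 3) h3 (by simp)

lemma eps_ne (ε : Bool) : eps ε ≠ 1 := by
  cases ε <;> decide

lemma eps_not (ε : Bool) : eps (!ε) = (eps ε)⁻¹ := by
  cases ε <;> simp [eps]

lemma eps_sq (ε : Bool) : eps ε * eps ε = eps (!ε) := by
  cases ε <;> decide

lemma Rd_head {A X : Type} [Group A] {x : X} {a b : A} {l : List (X × A)} (h : Rd ((x, a) :: l))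
    (hb : b ≠ 1) : Rd ((x, b) :: l) := by
  refine ⟨?_, ?_⟩
  · intro p hp
    rcases List.mem_cons.1 hp with rfl | hp
    · exact hb
    · exact h.1 p (List.mem_cons_of_mem _ hp)
  · have h2 := h.2
    rw [List.isChain_cons] at h2 ⊢
    exact h2

lemma itsK_cons (i : 𝔇.KW × Bool) (I : List (𝔇.KW × Bool)) :
    itsK (i :: I) = cj i.1 [(KG.e, i.2)] ++ itsK I := rfl

lemma itsK_length {ℓ : ℕ} (I : List (𝔇.KW × Bool)) (hI : ∀ i ∈ I, i.1.length ≤ ℓ) :
    (itsK I).length ≤ I.length * (2 * ℓ + 1) := by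
  induction I with
  | nil => simp [itsK]
  | cons i I ih =>
    have e : (i :: I).length = I.length + 1 := rfl
    rw [itsK_cons, List.length_append, cj_length, e, Nat.add_one_mul I.length]
    have h1 := ih fun j hj => hI j (List.mem_cons_of_mem _ hj)
    have h2 := hI i List.mem_cons_self
    simp only [List.length_cons, List.length_nil]
    omega

lemma vlK_cons (i : 𝔇.KW × Bool) (I : List (𝔇.KW × Bool)) :
    vlK (i :: I) = (evL i.1, eps i.2) :: vlK I := rfl

/-- Reduced lists of items with value in `R1`. -/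
lemma front {n X m : ℕ} (hX : 𝔇.Big n X) (hm : 2 * m < n) (a : A5) :
    ∀ (k : ℕ) (I : List (𝔇.KW × Bool)), I.length ≤ k → k ≤ 16 * X →
    (∀ i ∈ I, Lw i.1 ∧ i.1.length ≤ 16 * X ∧ nm i.1 ≤ m) → Rd (vlK I) → pr (vlK I) ∈ 𝔇.R1 →
    Cm (𝔇.Rn n) (2 * X ^ 4 + 600 * X ^ 2 + k * (100 * X)) [(.z a, true)] (𝔇.kW (itsK I)) := by
  have hX0 := hX.h1000
  have x2 : 1000 * X ≤ X ^ 2 := by rw [sq]; exact Nat.mul_le_mul_right _ hX0
  have x3 : 1000 * X ^ 2 ≤ X ^ 3 := by
    rw [pow_succ X 2, Nat.mul_comm]; exact Nat.mul_le_mul_left _ hX0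
  have x4 : 1000 * X ^ 3 ≤ X ^ 4 := by
    rw [pow_succ X 3, Nat.mul_comm]; exact Nat.mul_le_mul_left _ hX0
  have lz : (([(.z a, true)] : 𝔇.WW)).length = 1 := rfl
  intro k
  induction k using Nat.strong_induction_on with
  | _ k ih =>
    intro I hk hkX hI hR hP
    rcases R1_list hR hP with h0 | ⟨p, q, l', h0, hc⟩
    · have : I = [] := by
        rw [vlK, List.map_eq_nil_iff] at h0
        exact h0
      subst this
      exact Cm.nil (by rw [lz]; omega)
    · rcases I with _ | ⟨⟨κ₁, ε₁⟩, _ | ⟨⟨κ₂, ε₂⟩, I⟩⟩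
      · exact absurd h0 (by simp [vlK])
      · exact absurd h0 (by simp [vlK])
      rw [vlK_cons, vlK_cons] at h0 hR hP
      simp only [List.cons.injEq] at h0
      obtain ⟨rfl, rfl, rfl⟩ := h0
      simp only at hc hR hP
      obtain ⟨w1, w2, w3⟩ := hI (κ₁, ε₁) (by simp)
      obtain ⟨w4, w5, w6⟩ := hI (κ₂, ε₂) (by simp)
      simp only at w1 w2 w3 w4 w5 w6
      simp only [List.length_cons] at hk
      have hI' : ∀ i ∈ I, Lw i.1 ∧ i.1.length ≤ 16 * X ∧ nm i.1 ≤ m := fun i hi =>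
        hI i (by simp [hi])
      have cp := pair hX w1 w4 w2 w5 (by omega) (by omega) hc a ε₁
      have gen : fp (evL κ₁) (eps ε₁) * (fp (evL κ₂) (eps ε₁))⁻¹ ∈ 𝔇.R1 :=
        Subgroup.subset_closure ⟨_, _, _, hc, rfl⟩
      have hIl : (itsK I).length ≤ 16 * X * (2 * (16 * X) + 1) :=
        (itsK_length I fun i hi => (hI' i hi).2.1).trans
          (Nat.mul_le_mul_right _ (by omega))
      have hIl' : 16 * X * (2 * (16 * X) + 1) = 512 * X ^ 2 + 16 * X := by ring
      have lp : (𝔇.kW (cj κ₁ [(KG.e, ε₁)] ++ cj κ₂ [(KG.e, !ε₁)])).length =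
          2 * κ₁.length + 1 + (2 * κ₂.length + 1) := by
        rw [kW_length, List.length_append, cj_length, cj_length]; rfl
      have hk1 : (k - 1) * (100 * X) + 100 * X = k * (100 * X) := by
        rw [← Nat.add_one_mul (k - 1), Nat.sub_add_cancel (by omega)]
      by_cases hε : ε₂ = ε₁
      · subst hε
        -- merge
        have hR' : Rd (vlK ((κ₂, !ε₂) :: I)) := by
          rw [vlK_cons]
          exact Rd_head hR.tail (eps_ne _)
        have hP' : pr (vlK ((κ₂, !ε₂) :: I)) ∈ 𝔇.R1 := by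
          have h5 := mul_mem (inv_mem gen) hP
          rw [vlK_cons, pr_cons]
          rw [pr_cons, pr_cons] at h5
          simp only at h5 ⊢
          rw [← eps_sq, map_mul]
          have h6 : (fp (evL κ₁) (eps ε₂) * (fp (evL κ₂) (eps ε₂))⁻¹)⁻¹ *
              (fp (evL κ₁) (eps ε₂) * (fp (evL κ₂) (eps ε₂) * pr (vlK I))) =
              fp (evL κ₂) (eps ε₂) * fp (evL κ₂) (eps ε₂) * pr (vlK I) := by group
          rw [h6] at h5
          exact h5
        have hI2 : ∀ i ∈ (κ₂, !ε₂) :: I, Lw i.1 ∧ i.1.length ≤ 16 * X ∧ nm i.1 ≤ m := by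
          intro i hi
          rcases List.mem_cons.1 hi with rfl | hi
          · exact ⟨w4, w5, w6⟩
          · exact hI' i hi
        have c1 := ih (k - 1) (by omega) ((κ₂, !ε₂) :: I) (by
          rw [List.length_cons]; omega) (by omega) hI2 hR' hP'
        have l2 : (𝔇.kW (itsK ((κ₂, !ε₂) :: I))).length ≤ 512 * X ^ 2 + 100 * X := by
          rw [kW_length, itsK_cons, List.length_append, cj_length]
          simp only [List.length_cons, List.length_nil]
          omega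
        have c2 := Cm.mul_right (C := 2 * X ^ 4 + 600 * X ^ 2 + k * (100 * X)) cp c1 (by
          rw [lp]
          omega)
        refine Cm.congr_right (B := 600 * X ^ 2) c2 ?_ (by rw [lz]; omega)
        -- the equality of words
        have f1 : E (𝔇.Rn n) (600 * X ^ 2) (𝔇.kW (cj κ₁ [(KG.e, ε₂)] ++ cj κ₂ [(KG.e, !ε₂)]) ++
            𝔇.kW (itsK ((κ₂, !ε₂) :: I)))
            (𝔇.kW (cj κ₁ [(KG.e, ε₂)] ++ κ₂) ++ 𝔇.kW [(KG.e, !ε₂), (KG.e, !ε₂)] ++
              𝔇.kW (inv κ₂ ++ itsK I)) := by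
          have a1 : 𝔇.kW [(KG.e, !ε₂), (KG.e, !ε₂)] =
              𝔇.kW [(KG.e, !ε₂)] ++ 𝔇.kW [(KG.e, !ε₂)] := rfl
          refine E.free (𝔇.Rn_free n) ?_ ?_ ?_
          · rw [a1, itsK_cons]
            simp only [kW_append, kW_cj, kW_inv, mk_append, mk_inv, mk_cj]
            group
          · rw [List.length_append, lp]
            omega
          · simp only [List.length_append, kW_length, cj_length, inv_length, List.length_cons,
              List.length_nil]
            omega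
        have f2 := (e_sq (𝔇 := 𝔇) (n := n) (!ε₂)).ctx (𝔇.kW (cj κ₁ [(KG.e, ε₂)] ++ κ₂))
          (𝔇.kW (inv κ₂ ++ itsK I)) (B := 600 * X ^ 2) (by
            simp only [List.length_append, kW_length, cj_length, inv_length, List.length_cons,
              List.length_nil]
            omega)
        have f3 : 𝔇.kW (cj κ₁ [(KG.e, ε₂)] ++ κ₂) ++ 𝔇.kW [(KG.e, !!ε₂)] ++
            𝔇.kW (inv κ₂ ++ itsK I) = 𝔇.kW (itsK ((κ₁, ε₂) :: (κ₂, ε₂) :: I)) := by
          rw [itsK_cons, itsK_cons]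
          simp only [← kW_append, Bool.not_not, cj, List.append_assoc]
        rw [f3] at f2
        exact f1.trans f2
      · -- cancel
        have hε' : ε₂ = !ε₁ := by
          cases ε₁ <;> cases ε₂ <;> simp_all
        subst hε'
        have hP' : pr (vlK I) ∈ 𝔇.R1 := by
          have h5 := mul_mem (inv_mem gen) hP
          rw [pr_cons, pr_cons] at h5
          simp only at h5
          rw [eps_not, map_inv] at h5
          have h6 : (fp (evL κ₁) (eps ε₁) * (fp (evL κ₂) (eps ε₁))⁻¹)⁻¹ *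
              (fp (evL κ₁) (eps ε₁) * ((fp (evL κ₂) (eps ε₁))⁻¹ * pr (vlK I))) =
              pr (vlK I) := by group
          rw [h6] at h5
          exact h5
        have c1 := ih (k - 1) (by omega) I (by omega) (by omega) hI' hR.tail.tail hP'
        have c2 := Cm.mul_right (C := 2 * X ^ 4 + 600 * X ^ 2 + k * (100 * X)) cp c1 (by
          rw [lp, kW_length]
          omega)
        have f3 : 𝔇.kW (cj κ₁ [(KG.e, ε₁)] ++ cj κ₂ [(KG.e, !ε₁)]) ++ 𝔇.kW (itsK I) =
            𝔇.kW (itsK ((κ₁, ε₁) :: (κ₂, !ε₁) :: I)) := by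
          rw [itsK_cons, itsK_cons]
          simp only [← kW_append, List.append_assoc]
        rw [f3] at c2
        exact c2

end RR

theorem lemR {n X : ℕ} (hX : 𝔇.Big n X) (x : 𝔇.KW) (hx : x.length ≤ 16 * X) (h : evK x ∈ 𝔇.R)
    (hn : 4 * nm x < n) (a : A5) : Cm (𝔇.Rn n) (X ^ 6) [(.z a, true)] (𝔇.kW x) := by
  have hX0 := hX.h1000
  have x2 : 1000 * X ≤ X ^ 2 := by rw [sq]; exact Nat.mul_le_mul_right _ hX0
  have x3 : 1000 * X ^ 2 ≤ X ^ 3 := by
    rw [pow_succ X 2, Nat.mul_comm]; exact Nat.mul_le_mul_left _ hX0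
  have x4 : 1000 * X ^ 3 ≤ X ^ 4 := by
    rw [pow_succ X 3, Nat.mul_comm]; exact Nat.mul_le_mul_left _ hX0
  have x5 : 1000 * X ^ 4 ≤ X ^ 5 := by
    rw [pow_succ X 4, Nat.mul_comm]; exact Nat.mul_le_mul_left _ hX0
  have x6 : 1000 * X ^ 5 ≤ X ^ 6 := by
    rw [pow_succ X 5, Nat.mul_comm]; exact Nat.mul_le_mul_left _ hX0
  have lz : (([(.z a, true)] : 𝔇.WW)).length = 1 := rfl
  obtain ⟨I, l, p, hI, hIl, hl, hll, hlm, hev, hE⟩ := K_form (n := n) (by omega) x
  obtain ⟨I', hI', hIl', hR, hpr, hE'⟩ := its_reduce (n := n) (ℓ := x.length) (m := nm x)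
    (by omega) I hI
  have hI2 : ∀ i ∈ I', Lw i.1 ∧ i.1.length ≤ 16 * X ∧ nm i.1 ≤ nm x := by
    intro i hi
    obtain ⟨j, hj, hji⟩ := hI' i hi
    obtain ⟨g1, g2, g3⟩ := hI j hj
    rw [← hji]
    exact ⟨g1, by omega, g3⟩
  -- the value
  rw [hev, evK_append, evK_append, evK_itsK (fun i hi => (hI i hi).1), evK_Lw hl, ← hpr] at h
  have hp : p = false := by
    cases p
    · rfl
    · exfalso
      obtain ⟨-, δ, hδ⟩ := mem_R.1 h
      have h1 := congrArg SemidirectProduct.right hδ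
      have h2 : evK (𝔇 := 𝔇) (cW true) = SemidirectProduct.inr (SemidirectProduct.inr (-1)) := by
        rw [cW, if_pos rfl, evK_true]
        rfl
      rw [h2] at h1
      simp at h1
  subst hp
  have h2 : evK (𝔇 := 𝔇) (cW false) = 1 := rfl
  rw [h2, mul_one] at h
  obtain ⟨hP, δ, hδ⟩ := mem_R.1 h
  have hP' : pr (vlK I') ∈ 𝔇.R1 := by simpa using hP
  have hδ' : inD δ = evL l := by
    have := congrArg SemidirectProduct.left hδ
    simpa using this
  -- the two parts
  have c1 := RR.front hX (m := nm x) (by omega) a I'.length I' le_rfl (by omega) hI2 hR hP'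
  obtain ⟨-, d2, -, d4⟩ := RR.form (n := n) (u := []) (ρ := false) (δ := δ) hl (by omega) (by
    rw [← hδ', show fo (J := 𝔇.J) false [] = 1 from rfl, map_one, mul_one])
  have e0 : RR.dW l ++ RR.rK false ++ sK [] = RR.dW l := by simp [RR.rK, sK]
  rw [e0] at d4
  have d3 := RR.Cm_D (n := n) a (RR.dW_Dw l)
  have hl16 : l.length ≤ 16 * X := by omega
  simp only [List.length_nil, Nat.add_zero] at d2
  have c2 : Cm (𝔇.Rn n) (X ^ 2) [(.z a, true)] (𝔇.kW l) :=
    Cm.congr_right d3 d4.symm (by rw [lz]; omega)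
  have k1 : I'.length * (100 * X) ≤ 16 * X * (100 * X) := Nat.mul_le_mul_right _ (by omega)
  have k2 : 16 * X * (100 * X) = 1600 * X ^ 2 := by ring
  have k3 : (𝔇.kW (itsK I')).length ≤ 16 * X * (2 * (16 * X) + 1) := by
    rw [kW_length]
    exact (RR.itsK_length I' fun i hi => (hI2 i hi).2.1).trans (Nat.mul_le_mul_right _ (by omega))
  have k4 : 16 * X * (2 * (16 * X) + 1) = 512 * X ^ 2 + 16 * X := by ring
  have c3 := Cm.mul_right (C := X ^ 5) c1 c2 (by rw [kW_length]; omega)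
  -- the equality of words
  have k5 : (I.length + 20) * (2 * x.length + 8) ≤ (16 * X + 20) * (2 * (16 * X) + 8) :=
    Nat.mul_le_mul (by omega) (by omega)
  have k6 : (16 * X + 20) * (2 * (16 * X) + 8) = 512 * X ^ 2 + 768 * X + 160 := by ring
  have k7 : 4 * (x.length + 4) ^ 2 ≤ 4 * (16 * X + 4) ^ 2 :=
    Nat.mul_le_mul_left _ (Nat.pow_le_pow_left (by omega) 2)
  have k8 : 4 * (16 * X + 4) ^ 2 = 1024 * X ^ 2 + 512 * X + 64 := by ring
  have g1 := hE'.symm.appR (𝔇.kW l) (B := X ^ 4) (by rw [kW_length]; omega)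
  have g2 : E (𝔇.Rn n) (X ^ 4) (𝔇.kW (itsK I) ++ 𝔇.kW l) (𝔇.kW x) := by
    have g3 := (hE.symm).mono (B := X ^ 4) (by omega)
    have g4 : 𝔇.kW (itsK I ++ l ++ cW false) = 𝔇.kW (itsK I) ++ 𝔇.kW l := by
      rw [kW_append, kW_append]
      simp [cW]
    rw [g4] at g3
    exact g3
  exact Cm.congr_right c3 (g1.trans g2) (by rw [lz]; omega)

end Dat

end Pool.Agent.BH
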