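import Pool.Agent.BH.MC3

set_option autoImplicit false

/-!
# MD1: items over positions
-/

namespace Pool.Agent.BH

open Monoid

attribute [-simp] FreeGroup.mul_mk FreeGroup.inv_mk

namespace Dat

variable {𝔇 : Dat}

namespace MD1

lemma z_mul (n : ℕ) (a b : A5) :
    E (𝔇.Rn n) 4 [(.z a, true), (.z b, true)] [(.z (a * b), true)] := by
  have h : 𝔇.Rn n [(.z a, true), (.z b, true), (.z (a * b), false)] :=
    Sys.Rel.a _ (Sys.RelA.zz a b)
  have h1 : E (𝔇.Rn n) 3 ([(.z a, true), (.z b, true)] ++ inv [(.z (a * b), true)]) [] := by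
    have := E.rel h (A := 3) (by simp)
    simpa using this
  exact E.of_mul_inv (𝔇.Rn_free n) h1 (by simp)

lemma z_one (n : ℕ) : E (𝔇.Rn n) 5 [(.z 1, true)] [] := by
  have h1 : E (𝔇.Rn n) 5 [(.z 1, true)] ([(.z 1, true), (.z 1, true)] ++ [(.z 1, false)]) :=
    E.free (𝔇.Rn_free n) (by
      simp only [List.cons_append, List.nil_append]
      rw [mk_cons2, mk_cons2, mk_true, mk_false]; group) (by simp) (by simp)
  have h2 := (z_mul (𝔇 := 𝔇) n 1 1).appR [(.z 1, false)] (B := 5) (by simp)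
  rw [mul_one] at h2
  have h3 : E (𝔇.Rn n) 5 ([(.z 1, true)] ++ [(.z 1, false)]) [] :=
    E.free (𝔇.Rn_free n) (by
      simp only [List.cons_append, List.nil_append]
      rw [mk_cons2, mk_true, mk_false, mk_nil]; group) (by simp) (by simp)
  exact (h1.trans h2).trans h3

lemma cj_mul (n : ℕ) (p : 𝔇.WW) (a b : A5) {A : ℕ} (hA : 4 * p.length + 4 ≤ A) :
    E (𝔇.Rn n) A (cj p [(.z a, true)] ++ cj p [(.z b, true)]) (cj p [(.z (a * b), true)]) := by
  have h1 : E (𝔇.Rn n) A (cj p [(.z a, true)] ++ cj p [(.z b, true)])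
      (p ++ [(.z a, true), (.z b, true)] ++ inv p) :=
    E.free (𝔇.Rn_free n) (by
      simp only [mk_append, mk_cj, mk_inv, mk_cons2]; group)
      (by simp [cj_length]; omega) (by simp; omega)
  have h2 : E (𝔇.Rn n) A (p ++ [(.z a, true), (.z b, true)] ++ inv p)
      (p ++ [(.z (a * b), true)] ++ inv p) :=
    (z_mul n a b).ctx _ _ (by simp; omega)
  exact h1.trans h2

lemma cj_one (n : ℕ) (p : 𝔇.WW) {A : ℕ} (hA : 2 * p.length + 5 ≤ A) :
    E (𝔇.Rn n) A (cj p [(.z 1, true)]) [] := by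
  have h1 : E (𝔇.Rn n) A (p ++ [(.z 1, true)] ++ inv p) (p ++ [] ++ inv p) :=
    (z_one n).ctx _ _ (by simp; omega)
  have h2 : E (𝔇.Rn n) A (p ++ [] ++ inv p) [] :=
    E.free (𝔇.Rn_free n) (by simp only [mk_append, mk_inv, mk_nil]; group) (by simp; omega)
      (by simp)
  exact h1.trans h2

/-- Items with the same position, with a sharper bound. -/
lemma item_eq' {n X : ℕ} (hX : 𝔇.Big n X) {x y : 𝔇.KW} (hx : x.length ≤ 8 * X)
    (hy : y.length ≤ 8 * X) (h : ps x = ps y) (hn : 4 * (nm x + nm y) < n) (a : A5) :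
    E (𝔇.Rn n) (X ^ 6 + 40 * X) (cj (𝔇.kW x) [(.z a, true)]) (cj (𝔇.kW y) [(.z a, true)]) := by
  have h1000 := hX.h1000
  have hm : evK (inv x ++ y) ∈ 𝔇.R := by
    rw [evK_append, evK_inv]
    exact QuotientGroup.eq.1 h
  have hl : (inv x ++ y).length ≤ 16 * X := by simp; omega
  have hc := lemR hX (inv x ++ y) hl hm (by simpa using hn) a
  have e1 : E (𝔇.Rn n) (X ^ 6 + 40 * X) (cj (𝔇.kW x) [(.z a, true)])
      (𝔇.kW x ++ ([(.z a, true)] ++ 𝔇.kW (inv x ++ y)) ++ inv (𝔇.kW y)) :=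
    E.free (𝔇.Rn_free n) (by
      simp only [kW_append, kW_inv, mk_append, mk_cj, mk_inv]; group)
      (by simp [cj_length]; omega) (by simp; omega)
  have e2 : E (𝔇.Rn n) (X ^ 6 + 40 * X)
      (𝔇.kW x ++ ([(.z a, true)] ++ 𝔇.kW (inv x ++ y)) ++ inv (𝔇.kW y))
      (𝔇.kW x ++ (𝔇.kW (inv x ++ y) ++ [(.z a, true)]) ++ inv (𝔇.kW y)) :=
    E.ctx hc _ _ (by simp; omega)
  have e3 : E (𝔇.Rn n) (X ^ 6 + 40 * X)
      (𝔇.kW x ++ (𝔇.kW (inv x ++ y) ++ [(.z a, true)]) ++ inv (𝔇.kW y))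
      (cj (𝔇.kW y) [(.z a, true)]) :=
    E.free (𝔇.Rn_free n) (by
      simp only [kW_append, kW_inv, mk_append, mk_cj, mk_inv]; group)
      (by simp; omega) (by simp [cj_length]; omega)
  exact (e1.trans e2).trans e3

lemma bounds {X : ℕ} (h : 1000 ≤ X) : X ≤ X ^ 6 ∧ X * X ≤ X ^ 6 ∧ 1000 * X ^ 6 ≤ X ^ 7 ∧
    X ^ 7 ≤ X ^ 8 := by
  have h0 : 0 < X := by omega
  have h1 : 1 ≤ X := h0
  refine ⟨?_, ?_, ?_, ?_⟩
  · calc X = X ^ 1 := (pow_one X).symm
      _ ≤ X ^ 6 := Nat.pow_le_pow_right h0 (by norm_num)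
  · calc X * X = X ^ 2 := (sq X).symm
      _ ≤ X ^ 6 := Nat.pow_le_pow_right h0 (by norm_num)
  · calc 1000 * X ^ 6 ≤ X * X ^ 6 := Nat.mul_le_mul_right _ h
      _ = X ^ 7 := by ring
  · exact Nat.pow_le_pow_right h0 (by norm_num)

@[simp] lemma itsZ_nil : itsZ ([] : List 𝔇.ZI) = [] := rfl
@[simp] lemma itsZ_cons (i : 𝔇.ZI) (I : List 𝔇.ZI) : itsZ (i :: I) = itZ i ++ itsZ I := by
  simp [itsZ]
@[simp] lemma vlZ_nil : vlZ ([] : List 𝔇.ZI) = [] := rfl
@[simp] lemma vlZ_cons (i : 𝔇.ZI) (I : List 𝔇.ZI) :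
    vlZ (i :: I) = (ps (pw i), i.2.2) :: vlZ I := rfl

lemma itZ_length (i : 𝔇.ZI) : (itZ i).length = 2 * (pw i).length + 1 := by
  simp [itZ, cj_length]

lemma itsZ_length {X : ℕ} {I : List 𝔇.ZI} (h : ∀ i ∈ I, (pw i).length ≤ 8 * X) :
    (itsZ I).length ≤ I.length * (16 * X + 1) := by
  induction I with
  | nil => simp
  | cons i I ih =>
    have h1 := ih fun j hj => h j (by simp [hj])
    have h2 := h i (by simp)
    rw [itsZ_cons, List.length_append, itZ_length, List.length_cons, Nat.add_mul, one_mul]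
    omega

/-- Add one item to a reduced list. -/
lemma step {n X : ℕ} (hX : 𝔇.Big n X) (i : 𝔇.ZI) (I : List 𝔇.ZI)
    (hi : (pw i).length ≤ 8 * X ∧ 8 * nm (pw i) < n)
    (hI : ∀ j ∈ I, (pw j).length ≤ 8 * X ∧ 8 * nm (pw j) < n) : ∃ I' : List 𝔇.ZI,
    (∀ j ∈ I', (j.1 = i.1 ∧ j.2.1 = i.2.1) ∨ ∃ j' ∈ I, j'.1 = j.1 ∧ j'.2.1 = j.2.1) ∧
    I'.length ≤ I.length + 1 ∧ vlZ I' = consR (ps (pw i), i.2.2) (vlZ I) ∧
    E (𝔇.Rn n) (X ^ 6 + 100 * X + I.length * (16 * X + 1)) (itZ i ++ itsZ I) (itsZ I') := by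
  have h1000 := hX.h1000
  have hlen := itsZ_length (X := X) (I := I) fun j hj => (hI j hj).1
  have hfr := 𝔇.Rn_free n
  rcases I with _ | ⟨q, I⟩
  · by_cases ha : i.2.2 = 1
    · refine ⟨[], by simp, by simp, by simp [consR, ha], ?_⟩
      have := cj_one n (𝔇.kW (pw i)) (A := X ^ 6 + 100 * X + 0 * (16 * X + 1)) (by simp; omega)
      simpa [itZ, ha] using this
    · refine ⟨[i], by simp, by simp, by simp [consR, ha], ?_⟩
      apply E.of_eq _ (by simp)
      simp [itZ_length]; omega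
  · have hq := hI q (by simp)
    have hI' : ∀ j ∈ I, (pw j).length ≤ 8 * X ∧ 8 * nm (pw j) < n := fun j hj => hI j (by simp [hj])
    have hlen' := itsZ_length (X := X) (I := I) fun j hj => (hI' j hj).1
    simp only [List.length_cons, Nat.add_mul, one_mul] at hlen ⊢
    by_cases hp : ps (pw q) = ps (pw i)
    · -- merge
      have e0 := item_eq' hX hi.1 hq.1 hp.symm (by omega) i.2.2
      have e1 : E (𝔇.Rn n) (X ^ 6 + 100 * X) (itZ i ++ itZ q)
          (cj (𝔇.kW (pw q)) [(.z i.2.2, true)] ++ itZ q) :=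
        e0.appR _ (by rw [itZ_length]; omega)
      have e2 : E (𝔇.Rn n) (X ^ 6 + 100 * X) (cj (𝔇.kW (pw q)) [(.z i.2.2, true)] ++ itZ q)
          (cj (𝔇.kW (pw q)) [(.z (i.2.2 * q.2.2), true)]) :=
        cj_mul n _ _ _ (by simp; omega)
      by_cases ha : i.2.2 * q.2.2 = 1
      · refine ⟨I, ?_, by omega, by simp [consR, hp, ha], ?_⟩
        · intro j hj
          exact Or.inr ⟨j, by simp [hj], rfl, rfl⟩
        · have e3 : E (𝔇.Rn n) (X ^ 6 + 100 * X)
              (cj (𝔇.kW (pw q)) [(.z (i.2.2 * q.2.2), true)]) [] := by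
            rw [ha]
            exact cj_one n _ (by simp; omega)
          have e4 := ((e1.trans e2).trans e3).appR (itsZ I)
            (B := X ^ 6 + 100 * X + (I.length * (16 * X + 1) + (16 * X + 1))) (by omega)
          simpa using e4
      · refine ⟨(q.1, q.2.1, i.2.2 * q.2.2) :: I, ?_, by simp, ?_, ?_⟩
        · intro j hj
          rcases List.mem_cons.1 hj with rfl | hj
          · exact Or.inr ⟨q, by simp, rfl, rfl⟩
          · exact Or.inr ⟨j, by simp [hj], rfl, rfl⟩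
        · have : pw ((q.1, q.2.1, i.2.2 * q.2.2) : 𝔇.ZI) = pw q := rfl
          simp [consR, hp, ha, this]
        · have e4 := (e1.trans e2).appR (itsZ I)
            (B := X ^ 6 + 100 * X + (I.length * (16 * X + 1) + (16 * X + 1))) (by omega)
          have : itZ ((q.1, q.2.1, i.2.2 * q.2.2) : 𝔇.ZI) =
            cj (𝔇.kW (pw q)) [(.z (i.2.2 * q.2.2), true)] := rfl
          rw [itsZ_cons, itsZ_cons, this]
          simpa using e4
    · by_cases ha : i.2.2 = 1
      · refine ⟨q :: I, ?_, by simp, by simp [consR, hp, ha], ?_⟩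
        · intro j hj
          exact Or.inr ⟨j, hj, rfl, rfl⟩
        · have e1 := (cj_one n (𝔇.kW (pw i)) (A := X ^ 6 + 100 * X) (by simp; omega)).appR
            (itsZ (q :: I)) (B := X ^ 6 + 100 * X + (I.length * (16 * X + 1) + (16 * X + 1)))
            (by omega)
          have : itZ i = cj (𝔇.kW (pw i)) [(.z 1, true)] := by rw [itZ, ha]
          rw [this]
          simpa using e1
      · refine ⟨i :: q :: I, ?_, by simp, by simp [consR, hp, ha], ?_⟩
        · intro j hj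
          rcases List.mem_cons.1 hj with rfl | hj
          · exact Or.inl ⟨rfl, rfl⟩
          · exact Or.inr ⟨j, hj, rfl, rfl⟩
        · apply E.of_eq _ (by simp)
          rw [List.length_append, itZ_length]
          omega

end MD1

theorem item_eq {n X : ℕ} (hX : 𝔇.Big n X) {x y : 𝔇.KW} (hx : x.length ≤ 8 * X)
    (hy : y.length ≤ 8 * X) (h : ps x = ps y) (hn : 4 * (nm x + nm y) < n) (a : A5) :
    E (𝔇.Rn n) (X ^ 7) (cj (𝔇.kW x) [(.z a, true)]) (cj (𝔇.kW y) [(.z a, true)]) := by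
  have hb := MD1.bounds hX.h1000
  exact (MD1.item_eq' hX hx hy h hn a).mono (by omega)

theorem its_red {n X : ℕ} (hX : 𝔇.Big n X) (I : List 𝔇.ZI) (hl : I.length ≤ X)
    (hI : ∀ i ∈ I, (pw i).length ≤ 8 * X ∧ 8 * nm (pw i) < n) : ∃ I' : List 𝔇.ZI,
    (∀ i ∈ I', ∃ j ∈ I, j.1 = i.1 ∧ j.2.1 = i.2.1) ∧ I'.length ≤ I.length ∧ Rd (vlZ I') ∧
    pr (vlZ I') = pr (vlZ I) ∧ E (𝔇.Rn n) (X ^ 8) (itsZ I) (itsZ I') := by
  have key : ∀ I : List 𝔇.ZI, (∀ i ∈ I, (pw i).length ≤ 8 * X ∧ 8 * nm (pw i) < n) →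
      ∃ I' : List 𝔇.ZI,
      (∀ i ∈ I', ∃ j ∈ I, j.1 = i.1 ∧ j.2.1 = i.2.1) ∧ I'.length ≤ I.length ∧ Rd (vlZ I') ∧
      pr (vlZ I') = pr (vlZ I) ∧
      E (𝔇.Rn n) (X ^ 6 + 100 * X + I.length * (16 * X + 1)) (itsZ I) (itsZ I') := by
    intro I
    induction I with
    | nil =>
      intro _
      exact ⟨[], by simp, by simp, Rd.nil, rfl, E.refl (by simp)⟩
    | cons i I ih =>
      intro hI
      have hI0 : ∀ j ∈ I, (pw j).length ≤ 8 * X ∧ 8 * nm (pw j) < n :=
        fun j hj => hI j (by simp [hj])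
      have hi := hI i (by simp)
      obtain ⟨I1, h1, h2, h3, h4, h5⟩ := ih hI0
      have hI1 : ∀ j ∈ I1, (pw j).length ≤ 8 * X ∧ 8 * nm (pw j) < n := by
        intro j hj
        obtain ⟨j', hj', e1, e2⟩ := h1 j hj
        have : pw j = pw j' := by rw [pw, pw, e1, e2]
        rw [this]
        exact hI0 j' hj'
      obtain ⟨I', g1, g2, g3, g4⟩ := MD1.step hX i I1 hi hI1
      refine ⟨I', ?_, ?_, ?_, ?_, ?_⟩
      · intro j hj
        rcases g1 j hj with ⟨e1, e2⟩ | ⟨j', hj', e1, e2⟩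
        · exact ⟨i, by simp, e1.symm, e2.symm⟩
        · obtain ⟨j'', hj'', e3, e4⟩ := h1 j' hj'
          exact ⟨j'', by simp [hj''], e3.trans e1, e4.trans e2⟩
      · simp; omega
      · rw [g3]; exact h3.consR
      · rw [g3, pr_consR, h4]; simp
      · rw [MD1.itsZ_cons]
        have a1 := h5.appL (itZ i)
          (B := X ^ 6 + 100 * X + (i :: I).length * (16 * X + 1)) (by
            rw [MD1.itZ_length, List.length_cons, Nat.add_mul, one_mul]; omega)
        refine a1.trans (g4.mono ?_)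
        have : I1.length * (16 * X + 1) ≤ (i :: I).length * (16 * X + 1) :=
          Nat.mul_le_mul_right _ (by simp; omega)
        omega
  obtain ⟨I', h1, h2, h3, h4, h5⟩ := key I hI
  refine ⟨I', h1, h2, h3, h4, h5.mono ?_⟩
  have hb := MD1.bounds hX.h1000
  have h6 : I.length * (16 * X + 1) ≤ X * (16 * X + 1) := Nat.mul_le_mul_right _ hl
  have h7 : X * (16 * X + 1) = 16 * (X * X) + X := by ring
  omega

theorem its_match {n X : ℕ} (hX : 𝔇.Big n X) (I I' : List 𝔇.ZI) (hl : I.length ≤ X)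
    (hI : ∀ i ∈ I ++ I', (pw i).length ≤ 8 * X ∧ 8 * nm (pw i) < n) (h : vlZ I = vlZ I') :
    E (𝔇.Rn n) (X ^ 8) (itsZ I) (itsZ I') := by
  have key : ∀ I I' : List 𝔇.ZI, (∀ i ∈ I ++ I', (pw i).length ≤ 8 * X ∧ 8 * nm (pw i) < n) →
      vlZ I = vlZ I' → E (𝔇.Rn n) (I.length * X ^ 7) (itsZ I) (itsZ I') := by
    intro I
    induction I with
    | nil =>
      intro I' _ h
      rcases I' with _ | ⟨i', I'⟩
      · exact E.refl (by simp)
      · simp at h
    | cons i I ih =>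
      intro I' hI h
      rcases I' with _ | ⟨i', I'⟩
      · simp at h
      · rw [MD1.vlZ_cons, MD1.vlZ_cons, List.cons.injEq, Prod.mk.injEq] at h
        obtain ⟨⟨h1, h2⟩, h3⟩ := h
        have hi := hI i (by simp)
        have hi' := hI i' (by simp)
        have e1 := item_eq hX hi.1 hi'.1 h1 (by omega) i.2.2
        have e2 := ih I' (fun j hj => hI j (by
          rcases List.mem_append.1 hj with hj | hj
          · simp [hj]
          · simp [hj])) h3
        rw [MD1.itsZ_cons, MD1.itsZ_cons, List.length_cons, Nat.add_mul, one_mul, Nat.add_comm]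
        refine E.mul ?_ e2
        rw [itZ, itZ, ← h2]
        exact e1
  refine (key I I' hI h).mono ?_
  calc I.length * X ^ 7 ≤ X * X ^ 7 := Nat.mul_le_mul_right _ hl
    _ = X ^ 8 := by ring

end Dat

end Pool.Agent.BH
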