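import Pool.Agent.BH.MD2a
import Pool.Agent.BH.MB2

set_option autoImplicit false

/-!
# Module M, part MD2: the embedding of the base group is injective
-/

namespace Pool.Agent.BH

open Monoid

attribute [-simp] FreeGroup.mul_mk FreeGroup.inv_mk

namespace Dat

variable {𝔇 : Dat}

theorem d2_junction (hg : 𝔇.Good) {st : 𝔇.KW} (hst : Yw st) {ℓ ℓ' : ML 𝔇} (h : ℓ.Adm ℓ') :
    ps (ℓ.s1 st ++ zD ℓ.lD) ≠ ps (ℓ'.s1 (st ++ ℓ.y) ++ zD ℓ'.fD) := by
  intro he
  have h1 := pos_exp (d2_Yw_s1 hst ℓ) (d2_Yw_s1 (d2_Yw_append hst (d2_Yw_y ℓ)) ℓ') (d2_lD_pos ℓ) (d2_fD_pos ℓ') he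
  rcases ℓ with ⟨i, a⟩ | ⟨i, u, a⟩ | ⟨i, n, _ | _⟩ <;>
    rcases ℓ' with ⟨i', a'⟩ | ⟨i', u', a'⟩ | ⟨i', n', _ | _⟩
  · simp only [ML.lD, ML.fD] at h1
    exact h (Fin.ext (by omega))
  · simp only [ML.lD, ML.fD, ML.s1, ML.y, List.append_nil] at h1 he
    rw [h1] at he
    have := pos_main hg he
    simp at this
  · have := d2_ex_pos (𝔇.S.idx n') 63
    simp only [ML.lD, ML.fD] at h1
    omega
  · have := d2_ex_pos (𝔇.S.idx n') 0
    simp only [ML.lD, ML.fD] at h1
    omega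
  · simp only [ML.lD, ML.fD, ML.s1, ML.y, List.append_nil] at h1 he
    rw [h1] at he
    have := pos_main hg he
    simp at this
  · simp only [ML.lD, ML.fD, ML.s1, ML.y, List.append_nil] at h1 he
    rw [h1] at he
    have := pos_main hg he
    exact h ⟨d2_em_inj h1, by simpa using this⟩
  · have := d2_ex_pos (𝔇.S.idx n') 63
    have := d2_em_lt i
    simp only [ML.lD, ML.fD] at h1
    omega
  · have := d2_ex_pos (𝔇.S.idx n') 0
    have := d2_em_lt i
    simp only [ML.lD, ML.fD] at h1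
    omega
  · have := d2_ex_pos (𝔇.S.idx n) 0
    simp only [ML.lD, ML.fD] at h1
    omega
  · have := d2_ex_pos (𝔇.S.idx n) 0
    have := d2_em_lt i'
    simp only [ML.lD, ML.fD] at h1
    omega
  · simp only [ML.lD, ML.fD, ex] at h1
    omega
  · simp only [ML.lD, ML.fD, ex, rr] at h1
    exact h ⟨Fin.ext (by omega), 𝔇.S.idx_inj (by omega), rfl⟩
  · have := d2_ex_pos (𝔇.S.idx n) 63
    simp only [ML.lD, ML.fD] at h1
    omega
  · have := d2_ex_pos (𝔇.S.idx n) 63
    have := d2_em_lt i'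
    simp only [ML.lD, ML.fD] at h1
    omega
  · simp only [ML.lD, ML.fD, ex, rr] at h1
    exact h ⟨Fin.ext (by omega), 𝔇.S.idx_inj (by omega), rfl⟩
  · simp only [ML.lD, ML.fD, ex] at h1
    omega

theorem d2_bIt_rd {st : 𝔇.KW} (hst : Yw st) (m i : ℕ) : (vlZ (bIt st m i)).Pairwise
    fun p q => p.1 ≠ q.1 := by
  unfold vlZ
  rw [List.pairwise_map]
  refine (List.Pairwise.and_mem.1 (d2_bIt_pw st m i)).imp ?_
  rintro p q ⟨hp, hq, hlt⟩ he
  obtain ⟨h1, h2, -⟩ := d2_bIt_mem hp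
  obtain ⟨h3, h4, -⟩ := d2_bIt_mem hq
  have := pos_exp (x := p.1) (y := q.1) (by rw [h1]; exact hst) (by rw [h3]; exact hst) h2 h4 he
  omega

theorem d2_its_rd {st : 𝔇.KW} (hst : Yw st) {ℓ : ML 𝔇} (h : ℓ.NT) : Rd (vlZ (ℓ.its st)) := by
  rcases ℓ with ⟨i, a⟩ | ⟨i, u, a⟩ | ⟨i, n, _ | _⟩
  · refine ⟨?_, List.IsChain.singleton _⟩
    intro p hp
    simp only [vlZ, ML.its, List.map_cons, List.map_nil, List.mem_singleton] at hp
    rw [hp]; exact h
  · refine ⟨?_, List.IsChain.singleton _⟩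
    intro p hp
    simp only [vlZ, ML.its, List.map_cons, List.map_nil, List.mem_singleton] at hp
    rw [hp]; exact h
  · have hI : vlZ (bItI (st ++ (if i = 0 then [(KG.y n, false)] else [])) (𝔇.S.idx n) i) =
        ((vlZ (bIt (st ++ (if i = 0 then [(KG.y n, false)] else [])) (𝔇.S.idx n) i)).map
          fun p => (p.1, p.2⁻¹)).reverse := by
      simp only [vlZ, bItI, List.map_reverse, List.map_map]
      rfl
    simp only [ML.its, hI]
    refine ⟨?_, ?_⟩
    · intro p hp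
      rw [List.mem_reverse, List.mem_map] at hp
      obtain ⟨q, hq, rfl⟩ := hp
      obtain ⟨r, hr, rfl⟩ := List.mem_map.1 hq
      simpa using (d2_bIt_mem hr).2.2
    · apply List.Pairwise.isChain
      rw [List.pairwise_reverse, List.pairwise_map]
      exact (d2_bIt_rd (d2_Yw_append hst (d2_Yw_ite i n false)) _ _).imp fun h => h.symm
  · refine ⟨?_, (d2_bIt_rd hst _ _).isChain⟩
    intro p hp
    obtain ⟨r, hr, rfl⟩ := List.mem_map.1 hp
    exact (d2_bIt_mem hr).2.2

theorem d2_Exp_rd' (hg : 𝔇.Good) (l : List (ML 𝔇)) (h1 : ∀ ℓ ∈ l, ℓ.NT) (h2 : l.IsChain ML.Adm)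
    {st : 𝔇.KW} (hst : Yw st) : Rd (vlZ (Exp st l).1) := by
  induction l generalizing st with
  | nil => exact Rd.nil
  | cons ℓ l ih =>
    have ih' := ih (fun x hx => h1 x (by simp [hx])) h2.tail (d2_Yw_append hst (d2_Yw_y ℓ))
    have hℓ := d2_its_rd hst (h1 ℓ (by simp))
    simp only [Exp, d2_vlZ_append]
    refine ⟨?_, ?_⟩
    · intro p hp
      rcases List.mem_append.1 hp with hp | hp
      · exact hℓ.1 p hp
      · exact ih'.1 p hp
    · rw [List.isChain_append]
      refine ⟨hℓ.2, ih'.2, ?_⟩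
      intro p hp q hq
      obtain ⟨a, ha⟩ := d2_its_last st ℓ
      have hp' : p = (ps (ℓ.s1 st ++ zD ℓ.lD), a) := by
        unfold vlZ at hp
        rw [List.getLast?_map, ha] at hp
        simpa [eq_comm, pw] using hp
      rcases l with _ | ⟨ℓ', l⟩
      · simp [Exp, vlZ] at hq
      · obtain ⟨b, hb⟩ := d2_its_head (st ++ ℓ.y) ℓ'
        have hq' : q = (ps (ℓ'.s1 (st ++ ℓ.y) ++ zD ℓ'.fD), b) := by
          simp only [Exp] at hq
          unfold vlZ at hq
          rw [List.head?_map, List.head?_append, hb] at hq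
          simpa [eq_comm, pw] using hq
        rw [hp', hq']
        exact d2_junction hg hst (List.isChain_cons_cons.1 h2).1

/-- A shortest list of letters has a reduced expansion. -/
theorem Exp_rd (hg : 𝔇.Good) (l : List (ML 𝔇)) (hmin : ∀ l', vM l' = vM l → l.length ≤ l'.length) :
    Rd (vlZ (Exp [] l).1) := by
  apply d2_Exp_rd' hg
  · intro ℓ hℓ
    by_contra hn
    obtain ⟨l1, l2, rfl⟩ := List.append_of_mem hℓ
    have := hmin (l1 ++ l2) (by rw [d2_vM_append, d2_vM_append, d2_vM_cons, d2_NT_val hn, one_mul])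
    simp at this
  · by_contra hn
    obtain ⟨p, a, b, s, rfl, hab⟩ := exists_not_chain hn
    obtain ⟨l, hl, hv⟩ := d2_Adm_val hab
    have := hmin (p ++ l ++ s) (by
      rw [d2_vM_append, d2_vM_append, d2_vM_append, d2_vM_cons, d2_vM_cons, hv]
      simp only [mul_assoc])
    simp at this
    omega
  · intro p hp; simp at hp

theorem θ_inj (hg : 𝔇.Good) : Function.Injective 𝔇.θ := by
  rw [injective_iff_map_eq_one]
  intro μ hμ
  obtain ⟨l, hl, hmin⟩ := d2_exists_min μ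
  have h1 := Exp_ev [] l
  rw [hl, hμ, evK_nil, map_one, mul_one, evS] at h1
  have h2 := congrArg SemidirectProduct.right h1
  simp only [SemidirectProduct.mul_right, SemidirectProduct.right_inl, one_mul,
    SemidirectProduct.right_inr, SemidirectProduct.one_right] at h2
  rw [h2, map_one, mul_one] at h1
  have h3 : pr (vlZ (Exp [] l).1) = 1 := SemidirectProduct.inl_injective (by rw [h1, map_one])
  have h4 : vlZ (Exp [] l).1 = [] := Rd.inj (Exp_rd hg l hmin) Rd.nil (by rw [h3]; rfl)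
  rcases l with _ | ⟨ℓ, l⟩
  · rw [← hl]; rfl
  · exfalso
    obtain ⟨a, ha⟩ := d2_its_head [] ℓ
    simp only [Exp, d2_vlZ_append, List.append_eq_nil_iff] at h4
    have h5 := h4.1
    unfold vlZ at h5
    rw [List.map_eq_nil_iff] at h5
    rw [h5] at ha
    simp at ha

end Dat

end Pool.Agent.BH
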