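import Pool.Agent.BH.MA

set_option autoImplicit false

/-!
# Module M, part MD2a: expansions of lists of letters
-/

namespace Pool.Agent.BH

open Monoid

attribute [-simp] FreeGroup.mul_mk FreeGroup.inv_mk

namespace Dat

variable {𝔇 : Dat}

/-! ## MD2: expansions, injectivity of `θ` -/

theorem d2_vM_nil : vM ([] : List (ML 𝔇)) = 1 := rfl

theorem d2_vM_cons (ℓ : ML 𝔇) (l : List (ML 𝔇)) : vM (ℓ :: l) = ℓ.val * vM l := by
  simp [vM]

theorem d2_vM_append (l l' : List (ML 𝔇)) : vM (l ++ l') = vM l * vM l' := by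
  simp [vM]

theorem vM_surj (μ : 𝔇.M) : ∃ l, vM l = μ := by
  induction μ using Coprod.induction_on with
  | inl m =>
    induction m using FP.induct with
    | h1 => exact ⟨[], by simp [d2_vM_nil]⟩
    | h x a n ih =>
      obtain ⟨l, hl⟩ := ih
      obtain ⟨i, o⟩ := x
      rcases o with _ | u
      · exact ⟨.dum i a :: l, by rw [d2_vM_cons, hl, map_mul]; rfl⟩
      · exact ⟨.main i u a :: l, by rw [d2_vM_cons, hl, map_mul]; rfl⟩
  | inr m =>
    induction m using FreeGroup.induction_on with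
    | C1 => exact ⟨[], by simp [d2_vM_nil]⟩
    | of x => exact ⟨[.cst x.1 x.2 true], by rw [d2_vM_cons, d2_vM_nil, mul_one]; rfl⟩
    | inv_of x _ =>
      exact ⟨[.cst x.1 x.2 false], by rw [d2_vM_cons, d2_vM_nil, mul_one]; rfl⟩
    | mul x y hx hy =>
      obtain ⟨l, hl⟩ := hx
      obtain ⟨l', hl'⟩ := hy
      exact ⟨l ++ l', by rw [d2_vM_append, hl, hl', map_mul]⟩
  | mul x y hx hy =>
    obtain ⟨l, hl⟩ := hx
    obtain ⟨l', hl'⟩ := hy
    exact ⟨l ++ l', by rw [d2_vM_append, hl, hl']⟩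

theorem d2_gK_add (i k : ℕ) : (gK (i + k) : 𝔇.KW) = gK i ++ gK k := by
  rw [gK, List.replicate_add, List.flatten_append]; rfl

theorem d2_evZ_kWinv (x : 𝔇.KW) (a : A5) : 𝔇.evZ (FreeGroup.mk (cj (𝔇.kW x) [(.z a, true)])) =
    zK (evK x) a := by
  rw [mk_cj, map_mul, map_mul, map_inv, evZ_kW, evZ_z, zK_conj, mul_one]

theorem d2_evZ_kWinv' (x : 𝔇.KW) (a : A5) : 𝔇.evZ (FreeGroup.mk (cj (𝔇.kW x) [(.z a, false)])) =
    zK (evK x) a⁻¹ := by
  have h : 𝔇.evZ (FreeGroup.mk [(.z a, false)]) = zK 1 a⁻¹ := by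
    rw [mk_false, map_inv, evZ, FreeGroup.lift_apply_of, zK_inv]; rfl
  rw [mk_cj, map_mul, map_mul, map_inv, evZ_kW, h, zK_conj, mul_one]

/-- The value of a constant, shifted. -/
noncomputable def d2_bV (𝔇 : Dat) (m i : ℕ) : 𝔇.Kz :=
  ((List.range rr).map fun j => zK (evK (gK (i + ex m j))) ζ0 *
    zK (evK (gK (i + (ex m j + 5)))) ζ0⁻¹).prod

theorem d2_bV_conj (m i : ℕ) :
    SemidirectProduct.inr (evK (gK i)) * d2_bV 𝔇 m 0 * (SemidirectProduct.inr (evK (gK i)))⁻¹ =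
      d2_bV 𝔇 m i := by
  unfold d2_bV
  generalize List.range rr = l
  induction l with
  | nil => simp
  | cons j l ih =>
    simp only [Nat.zero_add] at ih ⊢
    rw [List.map_cons, List.prod_cons, List.map_cons, List.prod_cons, ← ih, d2_gK_add i (ex m j),
      d2_gK_add i (ex m j + 5), evK_append, evK_append, ← zK_conj, ← zK_conj]
    group

theorem d2_evZ_bX (m : ℕ) : 𝔇.evZ (FreeGroup.mk (xW (bX m))) = d2_bV 𝔇 m 0 := by
  unfold d2_bV bX ex
  generalize List.range rr = l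
  induction l with
  | nil => simp [xW]
  | cons j l ih =>
    rw [List.flatMap_cons, List.map_cons, List.prod_cons, ← ih]
    have h1 : ∀ (k : ℕ) (ε : Bool), (xW (cj (gX k) [(XG.z ζ0, ε)]) : 𝔇.WW) =
        cj (𝔇.kW (gK k)) [(.z ζ0, ε)] := by
      intro k ε
      rw [kW_gK]
      simp [xW, cj, inv, FreeGroup.invRev, xg, Function.comp_def, List.map_reverse]
    have h2 : ∀ (x y : List (XG × Bool)), (xW (x ++ y) : 𝔇.WW) = xW x ++ xW y := by
      intro x y; simp [xW]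
    rw [h2, h2, mk_append, mk_append, map_mul, map_mul, h1, h1, d2_evZ_kWinv, d2_evZ_kWinv',
      Nat.zero_add, Nat.zero_add]

theorem d2_vlZ_append (I I' : List 𝔇.ZI) : vlZ (I ++ I') = vlZ I ++ vlZ I' := by
  simp [vlZ]

theorem d2_vlZ_nil : vlZ ([] : List 𝔇.ZI) = [] := rfl

theorem d2_vlZ_cons (i : 𝔇.ZI) (I : List 𝔇.ZI) : vlZ (i :: I) = (ps (pw i), i.2.2) :: vlZ I := rfl

theorem d2_inl_fp (x y : 𝔇.KW) (a : A5) :
    (SemidirectProduct.inl (fp (ps (x ++ y)) a) : 𝔇.Kz) = SemidirectProduct.inr (evK x) *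
      zK (evK y) a * (SemidirectProduct.inr (evK x))⁻¹ := by
  rw [zK_conj, ← evK_append]; rfl

theorem d2_bIt_ev (st : 𝔇.KW) (m i : ℕ) : (SemidirectProduct.inl (pr (vlZ (bIt st m i))) : 𝔇.Kz) =
    SemidirectProduct.inr (evK st) * d2_bV 𝔇 m i * (SemidirectProduct.inr (evK st))⁻¹ := by
  unfold d2_bV bIt
  generalize List.range rr = l
  induction l with
  | nil => simp [vlZ]
  | cons j l ih =>
    rw [List.flatMap_cons, List.map_cons, List.prod_cons, d2_vlZ_append, pr_append, map_mul, ih]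
    simp only [d2_vlZ_cons, pr_cons, d2_vlZ_nil, pr_nil, mul_one, map_mul, pw, zD,
      List.append_nil, d2_inl_fp]
    group

theorem d2_pr_inv_rev (l : List (𝔇.Pos × A5)) :
    pr ((l.map fun p => (p.1, p.2⁻¹)).reverse) = (pr l)⁻¹ := by
  induction l with
  | nil => simp
  | cons p l ih => simp [ih]

theorem d2_bItI_ev (st : 𝔇.KW) (m i : ℕ) : (SemidirectProduct.inl (pr (vlZ (bItI st m i))) : 𝔇.Kz) =
    SemidirectProduct.inr (evK st) * (d2_bV 𝔇 m i)⁻¹ * (SemidirectProduct.inr (evK st))⁻¹ := by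
  have h : vlZ (bItI st m i) = ((vlZ (bIt st m i)).map fun p => (p.1, p.2⁻¹)).reverse := by
    simp only [vlZ, bItI, List.map_reverse, List.map_map]
    rfl
  rw [h, d2_pr_inv_rev, map_inv, d2_bIt_ev]
  group

theorem d2_its_ev (st : 𝔇.KW) (ℓ : ML 𝔇) :
    (SemidirectProduct.inl (pr (vlZ (ℓ.its st))) : 𝔇.Kz) * SemidirectProduct.inr (evK (st ++ ℓ.y)) =
      SemidirectProduct.inr (evK st) * 𝔇.θ ℓ.val := by
  rcases ℓ with ⟨i, a⟩ | ⟨i, u, a⟩ | ⟨i, n, ε⟩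
  · rw [θ_val]
    simp only [ML.its, ML.y, ML.th, thD, List.append_nil]
    rw [← kW_gK, d2_evZ_kWinv, d2_vlZ_cons]
    simp only [vlZ, List.map_nil, pr_cons, pr_nil, mul_one, pw, zD, List.append_nil]
    rw [d2_inl_fp]
    group
  · rw [θ_val]
    simp only [ML.its, ML.y, ML.th, thM, List.append_nil]
    rw [← kW_gK, ← kW_mK, ← kW_append, d2_evZ_kWinv, d2_vlZ_cons]
    simp only [vlZ, List.map_nil, pr_cons, pr_nil, mul_one, pw, zD, em]
    rw [d2_inl_fp]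
    group
  · have hth : 𝔇.θ (ML.cst i n true).val = (if i = 0 then
        d2_bV 𝔇 (𝔇.S.idx n) i * SemidirectProduct.inr (evK [(KG.y n, true)]) else
        d2_bV 𝔇 (𝔇.S.idx n) i) := by
      rw [θ_val]
      simp only [ML.th, Sys.thC]
      split_ifs with hi
      · have h9 : 𝔇.evZ (FreeGroup.mk [(Gen.k (KG.y n), true)]) =
            SemidirectProduct.inr (evK [(KG.y n, true)]) := evZ_kW [(KG.y n, true)]
        have h0 : (i : ℕ) = 0 := by rw [hi]; rfl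
        rw [mk_append, map_mul, d2_evZ_bX, h0, h9]
      · rw [mk_cj, map_mul, map_mul, map_inv, d2_evZ_bX, ← kW_gK, evZ_kW, d2_bV_conj]
    rcases ε with _ | _
    · have h2 : (ML.cst i n false : ML 𝔇).val = ((ML.cst i n true : ML 𝔇).val)⁻¹ := rfl
      rw [h2, map_inv, hth]
      simp only [ML.its, ML.y, d2_bItI_ev]
      split_ifs with hi
      · rw [evK_append, evK_false, evK_true, map_mul, map_inv]
        group
      · rw [List.append_nil]
        group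
    · rw [hth]
      simp only [ML.its, ML.y, d2_bIt_ev]
      split_ifs with hi
      · rw [evK_append, map_mul]
        group
      · rw [List.append_nil]
        group

theorem Exp_ev (st : 𝔇.KW) (l : List (ML 𝔇)) :
    evS (Exp st l) = SemidirectProduct.inr (evK st) * 𝔇.θ (vM l) := by
  induction l generalizing st with
  | nil => simp [Exp, evS, vlZ, d2_vM_nil]
  | cons ℓ l ih =>
    have h := ih (st ++ ℓ.y)
    simp only [Exp, evS, d2_vlZ_append, pr_append, map_mul, d2_vM_cons] at h ⊢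
    rw [mul_assoc, h, ← mul_assoc, d2_its_ev, mul_assoc]


/-! ### Reduced expansions -/

theorem d2_Yw_append {x y : 𝔇.KW} (hx : Yw x) (hy : Yw y) : Yw (x ++ y) := by
  intro p hp
  rcases List.mem_append.1 hp with hp | hp
  · exact hx p hp
  · exact hy p hp

theorem d2_Yw_ite (i : Fin 5) (n : YG 𝔇.J 𝔇.B 𝔇.Hg) (ε : Bool) :
    Yw (𝔇 := 𝔇) (if i = 0 then [(KG.y n, ε)] else []) := by
  intro p hp
  split_ifs at hp with hi
  · simp only [List.mem_singleton] at hp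
    exact ⟨n, by rw [hp]⟩
  · simp at hp

theorem d2_Yw_y (ℓ : ML 𝔇) : Yw ℓ.y := by
  rcases ℓ with ⟨i, a⟩ | ⟨i, u, a⟩ | ⟨i, n, ε⟩
  · intro p hp; simp [ML.y] at hp
  · intro p hp; simp [ML.y] at hp
  · exact d2_Yw_ite i n ε

/-- The state of the items of a letter. -/
def ML.s1 (st : 𝔇.KW) : ML 𝔇 → 𝔇.KW
  | .cst i n false => st ++ (if i = 0 then [(KG.y n, false)] else [])
  | _ => st

theorem d2_Yw_s1 {st : 𝔇.KW} (hst : Yw st) (ℓ : ML 𝔇) : Yw (ℓ.s1 st) := by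
  rcases ℓ with ⟨i, a⟩ | ⟨i, u, a⟩ | ⟨i, n, _ | _⟩
  · exact hst
  · exact hst
  · exact d2_Yw_append hst (d2_Yw_ite i n false)
  · exact hst

/-- The description of the first item. -/
def ML.fD : ML 𝔇 → 𝔇.PD
  | .dum i _ => (i + 1, none)
  | .main i u _ => (em i, some u)
  | .cst i n true => (i + ex (𝔇.S.idx n) 0, none)
  | .cst i n false => (i + (ex (𝔇.S.idx n) 63 + 5), none)

/-- The description of the last item. -/
def ML.lD : ML 𝔇 → 𝔇.PD
  | .dum i _ => (i + 1, none)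
  | .main i u _ => (em i, some u)
  | .cst i n true => (i + (ex (𝔇.S.idx n) 63 + 5), none)
  | .cst i n false => (i + ex (𝔇.S.idx n) 0, none)

/-- The letters of type `A5` are not trivial. -/
def ML.NT : ML 𝔇 → Prop
  | .dum _ a => a ≠ 1
  | .main _ _ a => a ≠ 1
  | .cst _ _ _ => True

/-- Two letters that cannot be merged. -/
def ML.Adm : ML 𝔇 → ML 𝔇 → Prop
  | .dum i _, .dum i' _ => i ≠ i'
  | .main i u _, .main i' u' _ => ¬ (i = i' ∧ u = u')
  | .cst i n ε, .cst i' n' ε' => ¬ (i = i' ∧ n = n' ∧ ε' = !ε)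
  | _, _ => True

theorem d2_ex_pos (m j : ℕ) : 10 ≤ ex m j := by
  unfold ex; omega

theorem d2_bIt_head (st : 𝔇.KW) (m i : ℕ) :
    (bIt st m i).head? = some (st, (i + ex m 0, none), ζ0) := by
  unfold bIt rr
  rw [show (64 : ℕ) = 63 + 1 from rfl, List.range_succ_eq_map, List.flatMap_cons]
  rfl

theorem d2_bIt_last (st : 𝔇.KW) (m i : ℕ) :
    (bIt st m i).getLast? = some (st, (i + (ex m 63 + 5), none), ζ0⁻¹) := by
  unfold bIt rr
  rw [show (64 : ℕ) = 63 + 1 from rfl, List.range_succ, List.flatMap_append]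
  simp

theorem d2_its_head (st : 𝔇.KW) (ℓ : ML 𝔇) : ∃ a, (ℓ.its st).head? = some (ℓ.s1 st, ℓ.fD, a) := by
  rcases ℓ with ⟨i, a⟩ | ⟨i, u, a⟩ | ⟨i, n, _ | _⟩
  · exact ⟨a, rfl⟩
  · exact ⟨a, rfl⟩
  · refine ⟨ζ0⁻¹⁻¹, ?_⟩
    simp only [ML.its, bItI, List.head?_reverse, List.getLast?_map, d2_bIt_last]
    rfl
  · exact ⟨ζ0, d2_bIt_head _ _ _⟩

theorem d2_its_last (st : 𝔇.KW) (ℓ : ML 𝔇) : ∃ a, (ℓ.its st).getLast? = some (ℓ.s1 st, ℓ.lD, a) := by
  rcases ℓ with ⟨i, a⟩ | ⟨i, u, a⟩ | ⟨i, n, _ | _⟩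
  · exact ⟨a, rfl⟩
  · exact ⟨a, rfl⟩
  · refine ⟨ζ0⁻¹, ?_⟩
    simp only [ML.its, bItI, List.getLast?_reverse, List.head?_map, d2_bIt_head]
    rfl
  · exact ⟨ζ0⁻¹, d2_bIt_last _ _ _⟩

theorem d2_fD_pos (ℓ : ML 𝔇) : 1 ≤ ℓ.fD.1 := by
  rcases ℓ with ⟨i, a⟩ | ⟨i, u, a⟩ | ⟨i, n, _ | _⟩
  · simp [ML.fD]
  · simp only [ML.fD, em]; split_ifs <;> omega
  · have := d2_ex_pos (𝔇.S.idx n) 63; simp only [ML.fD]; omega
  · have := d2_ex_pos (𝔇.S.idx n) 0; simp only [ML.fD]; omega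

theorem d2_lD_pos (ℓ : ML 𝔇) : 1 ≤ ℓ.lD.1 := by
  rcases ℓ with ⟨i, a⟩ | ⟨i, u, a⟩ | ⟨i, n, _ | _⟩
  · simp [ML.lD]
  · simp only [ML.lD, em]; split_ifs <;> omega
  · have := d2_ex_pos (𝔇.S.idx n) 0; simp only [ML.lD]; omega
  · have := d2_ex_pos (𝔇.S.idx n) 63; simp only [ML.lD]; omega

theorem d2_em_lt (i : Fin 5) : em i ≤ 6 := by
  unfold em; split_ifs <;> omega

theorem d2_em_inj {i i' : Fin 5} (h : em i = em i') : i = i' := by
  revert i i'; decide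

theorem d2_bIt_pw (st : 𝔇.KW) (m i : ℕ) :
    (bIt st m i).Pairwise fun p q => p.2.1.1 < q.2.1.1 := by
  unfold bIt
  rw [List.pairwise_flatMap]
  refine ⟨?_, ?_⟩
  · intro j _
    simp
  · refine List.pairwise_lt_range.imp ?_
    intro j j' hj p hp q hq
    simp only [List.mem_cons, List.not_mem_nil, or_false] at hp hq
    unfold ex at hp hq
    rcases hp with rfl | rfl <;> rcases hq with rfl | rfl <;> simp only <;> omega

theorem d2_bIt_mem {st : 𝔇.KW} {m i : ℕ} {p : 𝔇.ZI} (hp : p ∈ bIt st m i) :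
    p.1 = st ∧ 1 ≤ p.2.1.1 ∧ p.2.2 ≠ 1 := by
  unfold bIt at hp
  rw [List.mem_flatMap] at hp
  obtain ⟨j, -, hp⟩ := hp
  have := d2_ex_pos m j
  simp only [List.mem_cons, List.not_mem_nil, or_false] at hp
  rcases hp with rfl | rfl
  · exact ⟨rfl, by simp only; omega, ζ0_ne⟩
  · exact ⟨rfl, by simp only; omega, by simpa using ζ0_ne⟩

theorem d2_NT_val {ℓ : ML 𝔇} (h : ¬ ℓ.NT) : ℓ.val = 1 := by
  rcases ℓ with ⟨i, a⟩ | ⟨i, u, a⟩ | ⟨i, n, ε⟩
  · have h' : a = 1 := not_not.1 h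
    simp [ML.val, h']
  · have h' : a = 1 := not_not.1 h
    simp [ML.val, h']
  · exact absurd trivial h

theorem d2_Adm_val {ℓ ℓ' : ML 𝔇} (h : ¬ ℓ.Adm ℓ') :
    ∃ l : List (ML 𝔇), l.length ≤ 1 ∧ vM l = ℓ.val * ℓ'.val := by
  rcases ℓ with ⟨i, a⟩ | ⟨i, u, a⟩ | ⟨i, n, ε⟩ <;>
    rcases ℓ' with ⟨i', a'⟩ | ⟨i', u', a'⟩ | ⟨i', n', ε'⟩
  · have h' : i = i' := not_not.1 h
    subst h'
    exact ⟨[.dum i (a * a')], le_rfl, by simp [vM, ML.val]⟩
  · exact absurd trivial h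
  · exact absurd trivial h
  · exact absurd trivial h
  · obtain ⟨rfl, rfl⟩ : i = i' ∧ u = u' := not_not.1 h
    exact ⟨[.main i u (a * a')], le_rfl, by simp [vM, ML.val]⟩
  · exact absurd trivial h
  · exact absurd trivial h
  · exact absurd trivial h
  · obtain ⟨rfl, rfl, rfl⟩ : i = i' ∧ n = n' ∧ ε' = !ε := not_not.1 h
    refine ⟨[], Nat.zero_le _, ?_⟩
    cases ε <;> simp [vM, ML.val]

theorem d2_exists_min (μ : 𝔇.M) : ∃ l, vM l = μ ∧ ∀ l', vM l' = vM l → l.length ≤ l'.length := by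
  classical
  obtain ⟨l0, hl0⟩ := vM_surj μ
  have hex : ∃ n, ∃ l, vM l = μ ∧ l.length = n := ⟨_, l0, hl0, rfl⟩
  obtain ⟨l, hl, hn⟩ := Nat.find_spec hex
  refine ⟨l, hl, ?_⟩
  intro l' hl'
  rw [hn]
  exact Nat.find_min' hex ⟨l', hl'.trans hl, rfl⟩

end Dat

end Pool.Agent.BH
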