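import Pool.Agent.BH.MDefs

set_option autoImplicit false

/-!
# MODULE M, section MD3: bookkeeping for the expansions, derivations with the letters `t`
-/

namespace Pool.Agent.BH

open Monoid

attribute [-simp] FreeGroup.mul_mk FreeGroup.inv_mk

namespace Dat

namespace MD3
end MD3

open MD3

variable {𝔇 : Dat}

/-! ### Bookkeeping -/

theorem MD3.Exp_nil (st : 𝔇.KW) : Exp st ([] : List (ML 𝔇)) = ([], st) := rfl

theorem MD3.Exp_cons (st : 𝔇.KW) (ℓ : ML 𝔇) (l : List (ML 𝔇)) :
    Exp st (ℓ :: l) = (ℓ.its st ++ (Exp (st ++ ℓ.y) l).1, (Exp (st ++ ℓ.y) l).2) := rfl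

theorem MD3.Yw_append {x y : 𝔇.KW} (hx : Yw x) (hy : Yw y) : Yw (x ++ y) := by
  intro p hp
  rcases List.mem_append.1 hp with h | h
  · exact hx p h
  · exact hy p h

theorem MD3.Yw_y (ℓ : ML 𝔇) : Yw ℓ.y := by
  intro p hp
  cases ℓ with
  | dum i a => simp [ML.y] at hp
  | main i u a => simp [ML.y] at hp
  | cst i n ε =>
    simp only [ML.y] at hp
    split_ifs at hp with h
    · rw [List.mem_singleton] at hp
      exact ⟨n, by rw [hp]⟩
    · simp at hp

theorem MD3.mem_bIt {st : 𝔇.KW} {m i : ℕ} {p : 𝔇.ZI} (hp : p ∈ bIt st m i) :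
    p.1 = st ∧ ∃ j < rr, (p.2.1 = (i + ex m j, none) ∨ p.2.1 = (i + (ex m j + 5), none)) := by
  simp only [bIt, List.mem_flatMap, List.mem_range] at hp
  obtain ⟨j, hj, hp⟩ := hp
  simp only [List.mem_cons, List.not_mem_nil, or_false] at hp
  rcases hp with rfl | rfl
  · exact ⟨rfl, j, hj, Or.inl rfl⟩
  · exact ⟨rfl, j, hj, Or.inr rfl⟩

theorem MD3.mem_bItI {st : 𝔇.KW} {m i : ℕ} {p : 𝔇.ZI} (hp : p ∈ bItI st m i) :
    p.1 = st ∧ ∃ j < rr, (p.2.1 = (i + ex m j, none) ∨ p.2.1 = (i + (ex m j + 5), none)) := by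
  simp only [bItI, List.mem_reverse, List.mem_map] at hp
  obtain ⟨q, hq, rfl⟩ := hp
  have h := mem_bIt hq
  exact h

theorem MD3.bIt_length (st : 𝔇.KW) (m i : ℕ) : (bIt st m i).length = 2 * rr := by
  simp [bIt, List.length_flatMap, mul_comm]

theorem MD3.bItI_length (st : 𝔇.KW) (m i : ℕ) : (bItI st m i).length = 2 * rr := by
  simp [bItI, bIt_length]

/-- The state of the items of a letter. -/
theorem MD3.its_state {st : 𝔇.KW} {ℓ : ML 𝔇} {p : 𝔇.ZI} (hp : p ∈ ℓ.its st) :
    p.1 = st ∨ (∃ i n, ℓ = .cst i n false ∧ p.1 = st ++ [(KG.y n, false)]) := by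
  cases ℓ with
  | dum i a =>
    simp only [ML.its, List.mem_singleton] at hp
    left; rw [hp]
  | main i u a =>
    simp only [ML.its, List.mem_singleton] at hp
    left; rw [hp]
  | cst i n ε =>
    cases ε with
    | true => exact Or.inl (mem_bIt hp).1
    | false =>
      have h := (mem_bItI hp).1
      split_ifs at h with h0
      · exact Or.inr ⟨i, n, rfl, h⟩
      · left; rw [h, List.append_nil]

theorem MD3.its_length (st : 𝔇.KW) (ℓ : ML 𝔇) : (ℓ.its st).length =
    match ℓ with
    | .cst _ _ _ => 2 * rr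
    | _ => 1 := by
  cases ℓ with
  | dum i a => rfl
  | main i u a => rfl
  | cst i n ε =>
    cases ε with
    | true => exact bIt_length _ _ _
    | false => exact bItI_length _ _ _

theorem MD3.y_length (ℓ : ML 𝔇) : 2 * rr * ℓ.y.length ≤
    match ℓ with
    | .cst _ _ _ => 2 * rr
    | _ => 0 := by
  cases ℓ with
  | dum i a => simp [ML.y]
  | main i u a => simp [ML.y]
  | cst i n ε =>
    simp only [ML.y]
    split_ifs <;> simp

theorem MD3.y_length_le (ℓ : ML 𝔇) : ℓ.y.length ≤ 1 := by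
  cases ℓ with
  | dum i a => simp [ML.y]
  | main i u a => simp [ML.y]
  | cst i n ε =>
    simp only [ML.y]
    split_ifs <;> simp

theorem Exp_state {st : 𝔇.KW} (hst : Yw st) (l : List (ML 𝔇)) :
    Yw (Exp st l).2 ∧ ∀ i ∈ (Exp st l).1, Yw i.1 := by
  induction l generalizing st with
  | nil => exact ⟨hst, fun i hi => by simp [Exp_nil] at hi⟩
  | cons ℓ l ih =>
    have h := ih (Yw_append hst (Yw_y ℓ))
    rw [Exp_cons]
    refine ⟨h.1, fun i hi => ?_⟩
    rcases List.mem_append.1 hi with hi | hi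
    · rcases its_state hi with h1 | ⟨j, n, -, h1⟩
      · rw [h1]; exact hst
      · rw [h1]
        refine Yw_append hst ?_
        intro p hp
        rw [List.mem_singleton] at hp
        exact ⟨n, by rw [hp]⟩
    · exact h.2 i hi

theorem Exp_len (st : 𝔇.KW) (l : List (ML 𝔇)) : l.length ≤ (Exp st l).1.length ∧
    2 * rr * (Exp st l).2.length ≤ 2 * rr * st.length + (Exp st l).1.length ∧
    ∀ i ∈ (Exp st l).1, 2 * rr * i.1.length ≤ 2 * rr * st.length + (Exp st l).1.length := by
  induction l generalizing st with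
  | nil => exact ⟨by simp, by simp [Exp_nil], fun i hi => by simp [Exp_nil] at hi⟩
  | cons ℓ l ih =>
    obtain ⟨h1, h2, h3⟩ := ih (st ++ ℓ.y)
    rw [Exp_cons]
    simp only [List.length_append, List.length_cons, List.mem_append] at h1 h2 h3 ⊢
    have h4 := its_length st ℓ
    have h5 := y_length ℓ
    have h6 : 1 ≤ (ℓ.its st).length := by
      rw [h4]
      cases ℓ <;> simp [rr]
    have h7 : 2 * rr * ℓ.y.length ≤ (ℓ.its st).length := by
      rw [h4]
      refine h5.trans ?_
      cases ℓ <;> simp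
    refine ⟨by omega, ?_, ?_⟩
    · rw [mul_add] at h2
      omega
    · intro i hi
      rcases hi with hi | hi
      · rcases its_state hi with h8 | ⟨j, n, h9, h8⟩
        · rw [h8]; omega
        · rw [h8, List.length_append, mul_add]
          subst h9
          simp only [List.length_singleton, mul_one] at *
          omega
      · have := h3 i hi
        rw [mul_add] at this
        omega

theorem Exp_perm_len (st st' : 𝔇.KW) (l : List (ML 𝔇)) (τ : A5) :
    (Exp st' (l.map (ML.perm τ))).1.length = (Exp st l).1.length := by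
  induction l generalizing st st' with
  | nil => rfl
  | cons ℓ l ih =>
    rw [List.map_cons, Exp_cons, Exp_cons, List.length_append, List.length_append,
      ih (st ++ ℓ.y), its_length, its_length]
    cases ℓ <;> rfl

theorem MD3.em_le (i : Fin 5) : 1 ≤ em i ∧ em i ≤ 6 := by
  unfold em
  split_ifs <;> omega

theorem MD3.ex_le {n X : ℕ} (hX : 𝔇.Big n X) (y : YG 𝔇.J 𝔇.B 𝔇.Hg) {j : ℕ} (hj : j < rr) :
    1 ≤ ex (𝔇.S.idx y) j ∧ ex (𝔇.S.idx y) j + 9 ≤ X := by
  have h := hX.hidx y
  unfold ex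
  have hr : (64:ℕ) = rr := rfl
  constructor
  · omega
  · have e : (𝔇.S.idx y + 2) * rr = 𝔇.S.idx y * rr + 2 * rr := by ring
    rw [e] at h
    omega

theorem MD3.its_exp {n X : ℕ} (hX : 𝔇.Big n X) {st : 𝔇.KW} {ℓ : ML 𝔇} {p : 𝔇.ZI}
    (hp : p ∈ ℓ.its st) : 1 ≤ p.2.1.1 ∧ p.2.1.1 ≤ X := by
  have h0 := hX.h1000
  cases ℓ with
  | dum i a =>
    simp only [ML.its, List.mem_singleton] at hp
    subst hp
    have := i.2
    constructor
    · simp
    · simp only
      omega
  | main i u a =>
    simp only [ML.its, List.mem_singleton] at hp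
    subst hp
    have := em_le i
    simp only
    omega
  | cst i y ε =>
    have hi := i.2
    cases ε with
    | true =>
      obtain ⟨-, j, hj, h⟩ := mem_bIt hp
      have := ex_le hX y hj
      rcases h with h | h <;> rw [h] <;> simp only <;> omega
    | false =>
      obtain ⟨-, j, hj, h⟩ := mem_bItI hp
      have := ex_le hX y hj
      rcases h with h | h <;> rw [h] <;> simp only <;> omega

theorem Exp_exp {n X : ℕ} (hX : 𝔇.Big n X) (st : 𝔇.KW) (l : List (ML 𝔇)) :
    ∀ i ∈ (Exp st l).1, 1 ≤ i.2.1.1 ∧ i.2.1.1 ≤ X := by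
  induction l generalizing st with
  | nil => intro i hi; simp [Exp_nil] at hi
  | cons ℓ l ih =>
    intro i hi
    rw [Exp_cons] at hi
    rcases List.mem_append.1 hi with hi | hi
    · exact its_exp hX hi
    · exact ih _ i hi

theorem MD3.its_u (st : 𝔇.KW) (ℓ : ML 𝔇) (u : List (Option 𝔇.J)) :
    (∃ p ∈ ℓ.its st, p.2.1.2 = some u) ↔ ∃ i a, ML.main i u a = ℓ := by
  constructor
  · rintro ⟨p, hp, h⟩
    cases ℓ with
    | dum i a =>
      simp only [ML.its, List.mem_singleton] at hp
      subst hp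
      simp at h
    | main i u' a =>
      simp only [ML.its, List.mem_singleton] at hp
      subst hp
      simp only [Option.some.injEq] at h
      exact ⟨i, a, by rw [h]⟩
    | cst i y ε =>
      cases ε with
      | true =>
        obtain ⟨-, j, hj, h'⟩ := mem_bIt hp
        rcases h' with h' | h' <;> rw [h'] at h <;> simp at h
      | false =>
        obtain ⟨-, j, hj, h'⟩ := mem_bItI hp
        rcases h' with h' | h' <;> rw [h'] at h <;> simp at h
  · rintro ⟨i, a, rfl⟩
    exact ⟨(st, (em i, some u), a), by simp [ML.its], rfl⟩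

/-- The main items in the expansion are the main letters of the list. -/
theorem Exp_u (st : 𝔇.KW) (l : List (ML 𝔇)) (u : List (Option 𝔇.J)) :
    (∃ i ∈ (Exp st l).1, i.2.1.2 = some u) ↔ ∃ i a, ML.main i u a ∈ l := by
  induction l generalizing st with
  | nil => simp [Exp_nil]
  | cons ℓ l ih =>
    have h1 := its_u st ℓ u
    have h2 := ih (st ++ ℓ.y)
    rw [Exp_cons]
    constructor
    · rintro ⟨p, hp, h⟩
      rcases List.mem_append.1 hp with hp | hp
      · obtain ⟨i, a, rfl⟩ := h1.1 ⟨p, hp, h⟩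
        exact ⟨i, a, by simp⟩
      · obtain ⟨i, a, h3⟩ := h2.1 ⟨p, hp, h⟩
        exact ⟨i, a, by simp [h3]⟩
    · rintro ⟨i, a, h⟩
      rcases List.mem_cons.1 h with h | h
      · obtain ⟨p, hp, h3⟩ := h1.2 ⟨i, a, h⟩
        exact ⟨p, List.mem_append_left _ hp, h3⟩
      · obtain ⟨p, hp, h3⟩ := h2.2 ⟨i, a, h⟩
        exact ⟨p, List.mem_append_right _ hp, h3⟩

/-! ### Derivations -/

/-- `z a ^ -1 = z (a ^ -1)` -/
theorem MD3.z_inv {n : ℕ} (a : A5) :
    E (𝔇.Rn n) 20 [((.z a : Gen 𝔇.J 𝔇.B 𝔇.Hg), false)] [(.z a⁻¹, true)] := by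
  have hf := 𝔇.Rn_free n
  have r1 : 𝔇.Rn n [(.z 1, true), (.z 1, true), (.z 1, false)] := by
    have := Sys.Rel.a (S := 𝔇.S) (pt := 𝔇.pt) (pb := 𝔇.pb)
      (HT := {l | 𝔇.hH (FreeGroup.mk l) = 1})
      (QT := {w' | w'.length < n ∧ FreeGroup.mk w' ∈ 𝔇.N}) _ (Sys.RelA.zz 1 1)
    rwa [mul_one] at this
  have r2 : 𝔇.Rn n [(.z a, true), (.z a⁻¹, true), (.z 1, false)] := by
    have := Sys.Rel.a (S := 𝔇.S) (pt := 𝔇.pt) (pb := 𝔇.pb)
      (HT := {l | 𝔇.hH (FreeGroup.mk l) = 1})
      (QT := {w' | w'.length < n ∧ FreeGroup.mk w' ∈ 𝔇.N}) _ (Sys.RelA.zz a a⁻¹)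
    rwa [mul_inv_cancel] at this
  have e1 : E (𝔇.Rn n) 10 [((.z 1 : Gen 𝔇.J 𝔇.B 𝔇.Hg), true)] [] :=
    (E.free hf (x := [((.z 1 : Gen 𝔇.J 𝔇.B 𝔇.Hg), true)])
      (y := [(.z 1, true), (.z 1, true), (.z 1, false)])
      (by rw [mk_cons2, mk_cons2, mk_true, mk_false]; group) (by simp) (by simp)).trans
      (E.rel r1 (by simp))
  have e2 : E (𝔇.Rn n) 10 [((.z a : Gen 𝔇.J 𝔇.B 𝔇.Hg), true), (.z a⁻¹, true)] [] := by
    have a1 : E (𝔇.Rn n) 10 [((.z a : Gen 𝔇.J 𝔇.B 𝔇.Hg), true), (.z a⁻¹, true)]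
        ([(.z a, true), (.z a⁻¹, true), (.z 1, false)] ++ [(.z 1, true)]) :=
      E.free hf (by
        simp only [List.cons_append, List.nil_append]
        rw [mk_cons2, mk_cons2, mk_cons2, mk_cons2, mk_true, mk_true, mk_false, mk_true]
        group) (by simp) (by simp)
    have a2 : E (𝔇.Rn n) 10 ([((.z a : Gen 𝔇.J 𝔇.B 𝔇.Hg), true), (.z a⁻¹, true), (.z 1, false)] ++
        [(.z 1, true)]) ([] ++ [(.z 1, true)]) :=
      (E.rel r2 (A := 3) (by simp)).appR _ (by simp)
    exact (a1.trans a2).trans e1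
  have b1 : E (𝔇.Rn n) 20 [((.z a⁻¹ : Gen 𝔇.J 𝔇.B 𝔇.Hg), true)]
      ([(.z a, false)] ++ [(.z a, true), (.z a⁻¹, true)]) :=
    E.free hf (by
      simp only [List.cons_append, List.nil_append]
      rw [mk_cons2, mk_cons2, mk_true, mk_false, mk_true]
      group) (by simp) (by simp)
  have e2' : E (𝔇.Rn n) 20 ([((.z a : Gen 𝔇.J 𝔇.B 𝔇.Hg), false)] ++ [(.z a, true), (.z a⁻¹, true)])
      ([(.z a, false)] ++ []) := e2.appL _ (by simp)
  exact (b1.trans e2').symm

/-- The element of `A5` of a sign. -/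
noncomputable def MD3.zs (ε : Bool) : A5 := if ε then ζ0 else ζ0⁻¹

theorem MD3.z_zs {n : ℕ} (ε : Bool) :
    E (𝔇.Rn n) 20 [((.z ζ0 : Gen 𝔇.J 𝔇.B 𝔇.Hg), ε)] [(.z (zs ε), true)] := by
  cases ε with
  | true => exact E.refl (by simp)
  | false => exact z_inv ζ0

/-- The factors of the constant words. -/
def MD3.raw (m : ℕ) : List (ℕ × Bool) :=
  (List.range rr).flatMap fun j => [(ex m j, true), (ex m j + 5, false)]

/-- The inverse of a list of factors. -/
def MD3.iraw (l : List (ℕ × Bool)) : List (ℕ × Bool) := (l.map fun p => (p.1, !p.2)).reverse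

/-- The word of a list of factors. -/
noncomputable def MD3.rawW (l : List (ℕ × Bool)) : List (XG × Bool) :=
  (l.map fun p => cj (gX p.1) [(XG.z ζ0, p.2)]).flatten

theorem MD3.rawW_cons (p : ℕ × Bool) (l : List (ℕ × Bool)) :
    rawW (p :: l) = cj (gX p.1) [(XG.z ζ0, p.2)] ++ rawW l := by
  simp [rawW]

theorem MD3.rawW_append (l l' : List (ℕ × Bool)) : rawW (l ++ l') = rawW l ++ rawW l' := by
  simp [rawW]

theorem MD3.bX_raw (m : ℕ) : bX m = rawW (raw m) := by
  have h : ∀ L : List ℕ, (L.flatMap fun j =>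
      cj (gX (10 * (m * rr + j + 1))) [(XG.z ζ0, true)] ++
        cj (gX (10 * (m * rr + j + 1) + 5)) [(XG.z ζ0, false)]) =
      rawW (L.flatMap fun j => [(ex m j, true), (ex m j + 5, false)]) := by
    intro L
    induction L with
    | nil => rfl
    | cons j L ih =>
      rw [List.flatMap_cons, List.flatMap_cons, rawW_append, ih]
      congr 1
      simp [rawW, ex]
  exact h _

theorem MD3.inv_cj {α : Type} (p x : List (α × Bool)) : inv (cj p x) = cj p (inv x) := by
  simp [cj]

theorem MD3.inv_rawW (l : List (ℕ × Bool)) : inv (rawW l) = rawW (iraw l) := by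
  induction l with
  | nil => rfl
  | cons p l ih =>
    have h1 : iraw (p :: l) = iraw l ++ [(p.1, !p.2)] := by simp [iraw]
    rw [rawW_cons, inv_append, ih, h1, rawW_append, inv_cj]
    simp [rawW]

/-- The items of a list of factors. -/
noncomputable def MD3.rIt (st : 𝔇.KW) (i : ℕ) (l : List (ℕ × Bool)) : List 𝔇.ZI :=
  l.map fun p => (st, (i + p.1, none), zs p.2)

theorem MD3.bIt_raw (st : 𝔇.KW) (m i : ℕ) : bIt st m i = rIt st i (raw m) := by
  simp [bIt, rIt, raw, List.map_flatMap, zs]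

theorem MD3.bItI_raw (st : 𝔇.KW) (m i : ℕ) : bItI st m i = rIt st i (iraw (raw m)) := by
  rw [bItI, bIt_raw, rIt, rIt, iraw, List.map_map, List.map_reverse, List.map_map]
  have h : ∀ p : ℕ × Bool, zs (!p.2) = (zs p.2)⁻¹ := by
    intro p
    cases h : p.2 <;> simp [zs]
  simp only [Function.comp_def, h]

theorem MD3.gX_add (i k : ℕ) : gX (i + k) = gX i ++ gX k := by
  rw [gX, gX, gX, List.replicate_add, List.flatten_append]

theorem MD3.gX_length (k : ℕ) : (gX k).length = 2 * k := by
  simp [gX, mul_comm]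

theorem MD3.xW_append {J B Hg : Type} (x y : List (XG × Bool)) :
    (xW (x ++ y) : W J B Hg) = xW x ++ xW y := by simp [xW]

theorem MD3.xW_inv {J B Hg : Type} (x : List (XG × Bool)) :
    (xW (inv x) : W J B Hg) = inv (xW x) := by
  simp [xW, inv, FreeGroup.invRev, List.map_reverse, Function.comp_def]

theorem MD3.xW_cj {J B Hg : Type} (p x : List (XG × Bool)) :
    (xW (cj p x) : W J B Hg) = cj (xW p) (xW x) := by
  simp only [cj, xW_append, xW_inv]

theorem MD3.xW_length {J B Hg : Type} (x : List (XG × Bool)) :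
    (xW x : W J B Hg).length = x.length := by simp [xW]

theorem MD3.itsZ_cons (i : 𝔇.ZI) (I : List 𝔇.ZI) : itsZ (i :: I) = itZ i ++ itsZ I := by
  simp [itsZ]

theorem MD3.itsZ_append (I I' : List 𝔇.ZI) : itsZ (I ++ I') = itsZ I ++ itsZ I' := by
  simp [itsZ]

theorem MD3.itsZ_single (i : 𝔇.ZI) : itsZ [i] = itZ i := by
  simp [itsZ]

theorem MD3.itZ_none (st : 𝔇.KW) (k : ℕ) (a : A5) :
    itZ ((st, (k, none), a) : 𝔇.ZI) = cj (𝔇.kW st ++ xW (gX k)) [(.z a, true)] := by
  simp [itZ, pw, zD, kW_gK]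

theorem MD3.itZ_some (st : 𝔇.KW) (k : ℕ) (u : List (Option 𝔇.J)) (a : A5) :
    itZ ((st, (k, some u), a) : 𝔇.ZI) =
      cj (𝔇.kW st ++ xW (gX k) ++ mW 𝔇.pt 𝔇.pb u) [(.z a, true)] := by
  simp [itZ, pw, zD, kW_gK, kW_mK]

/-- Length of the word of a list of factors. -/
theorem MD3.rawW_length {X : ℕ} (l : List (ℕ × Bool)) (hl : ∀ p ∈ l, p.1 ≤ X) :
    (rawW l).length ≤ l.length * (4 * X + 1) := by
  induction l with
  | nil => simp [rawW]
  | cons p l ih =>
    have h1 := ih fun q hq => hl q (by simp [hq])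
    have h2 := hl p (by simp)
    rw [rawW_cons, List.length_append, cj_length, gX_length, List.length_cons, List.length_cons,
      List.length_nil]
    have e : (l.length + 1) * (4 * X + 1) = l.length * (4 * X + 1) + (4 * X + 1) := by ring
    rw [e]
    omega

theorem MD3.rIt_length {X : ℕ} (st : 𝔇.KW) (i : ℕ) (l : List (ℕ × Bool))
    (hl : ∀ p ∈ l, i + p.1 ≤ X) :
    (itsZ (rIt st i l)).length ≤ l.length * (2 * st.length + 4 * X + 1) := by
  induction l with
  | nil => simp [rIt, itsZ]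
  | cons p l ih =>
    have h1 := ih fun q hq => hl q (by simp [hq])
    have h2 := hl p (by simp)
    have h3 : rIt st i (p :: l) = (st, (i + p.1, none), zs p.2) :: rIt st i l := rfl
    rw [h3, itsZ_cons, List.length_append, itZ_none, cj_length, List.length_append, kW_length,
      xW_length, gX_length, List.length_cons, List.length_cons, List.length_nil]
    have e : (l.length + 1) * (2 * st.length + 4 * X + 1) =
      l.length * (2 * st.length + 4 * X + 1) + (2 * st.length + 4 * X + 1) := by ring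
    rw [e]
    omega

/-- Expansion of a list of factors. -/
theorem MD3.raw_exp {n X C : ℕ} (st : 𝔇.KW) (i : ℕ) (hi : i ≤ X) (hC : 3 * st.length + 8 * X + 22 ≤ C)
    (l : List (ℕ × Bool)) (hl : ∀ p ∈ l, i + p.1 ≤ X) :
    E (𝔇.Rn n) ((l.length + 1) * C)
      (𝔇.kW st ++ cj (xW (gX i)) (xW (rawW l))) (itsZ (rIt st i l) ++ 𝔇.kW st) := by
  have hf := 𝔇.Rn_free n
  induction l with
  | nil =>
    refine E.free hf ?_ ?_ ?_
    · simp only [rawW, rIt, itsZ, List.map_nil, List.flatten_nil, List.nil_append]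
      rw [mk_append, mk_cj]
      simp [xW]
    · simp [cj_length, xW_length, gX_length, rawW]
      omega
    · simp [rIt, itsZ]
      omega
  | cons p l ih =>
    have h1 := ih fun q hq => hl q (by simp [hq])
    have h2 := hl p (by simp)
    have h3 : rIt st i (p :: l) = (st, (i + p.1, none), zs p.2) :: rIt st i l := rfl
    have h4 := rawW_length (X := X) l fun q hq => by have := hl q (by simp [hq]); omega
    have e1 : (l.length + 1 + 1) * C = l.length * C + 2 * C := by ring
    have e2 : (l.length + 1) * C = l.length * C + C := by ring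
    have e3 : l.length * (4 * X + 1) ≤ l.length * C := Nat.mul_le_mul_left _ (by omega)
    rw [e2] at h1
    rw [h3, itsZ_cons, itZ_none, rawW_cons, xW_append, xW_cj, List.length_cons, e1]
    have a1 : E (𝔇.Rn n) (l.length * C + 2 * C)
        (𝔇.kW st ++ cj (xW (gX i)) (cj (xW (gX p.1)) (xW [(XG.z ζ0, p.2)]) ++ xW (rawW l)))
        (cj (𝔇.kW st ++ xW (gX (i + p.1))) [(.z ζ0, p.2)] ++
          (𝔇.kW st ++ cj (xW (gX i)) (xW (rawW l)))) := by
      refine E.free hf ?_ ?_ ?_
      · rw [gX_add, xW_append]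
        simp only [mk_append, mk_cj]
        have : (xW [(XG.z ζ0, p.2)] : 𝔇.WW) = [(.z ζ0, p.2)] := rfl
        rw [this]
        group
      · simp only [List.length_append, cj_length, kW_length, xW_length, gX_length,
          List.length_cons, List.length_nil]
        omega
      · simp only [List.length_append, cj_length, kW_length, xW_length, gX_length,
          List.length_cons, List.length_nil]
        omega
    have a2 : E (𝔇.Rn n) (l.length * C + 2 * C)
        (cj (𝔇.kW st ++ xW (gX (i + p.1))) [(.z ζ0, p.2)] ++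
          (𝔇.kW st ++ cj (xW (gX i)) (xW (rawW l))))
        (cj (𝔇.kW st ++ xW (gX (i + p.1))) [(.z (zs p.2), true)] ++
          (𝔇.kW st ++ cj (xW (gX i)) (xW (rawW l)))) := by
      refine E.appR (A := 20 + 2 * (st.length + 2 * (i + p.1))) ?_ _ ?_
      · exact (z_zs p.2).ctx _ _ (by simp [gX_length, xW_length]; omega)
      · simp only [List.length_append, cj_length, kW_length, xW_length, gX_length]
        omega
    have a3 : E (𝔇.Rn n) (l.length * C + 2 * C)
        (cj (𝔇.kW st ++ xW (gX (i + p.1))) [(.z (zs p.2), true)] ++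
          (𝔇.kW st ++ cj (xW (gX i)) (xW (rawW l))))
        (cj (𝔇.kW st ++ xW (gX (i + p.1))) [(.z (zs p.2), true)] ++
          (itsZ (rIt st i l) ++ 𝔇.kW st)) := by
      refine E.appL h1 _ ?_
      simp only [List.length_append, cj_length, kW_length, xW_length, gX_length,
          List.length_cons, List.length_nil]
      omega
    rw [List.append_assoc]
    exact (a1.trans a2).trans a3

theorem MD3.raw_length (m : ℕ) : (raw m).length = 2 * rr := by
  simp [raw, List.length_flatMap, mul_comm]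

theorem MD3.iraw_length (l : List (ℕ × Bool)) : (iraw l).length = l.length := by
  simp [iraw]

theorem MD3.raw_le {n X : ℕ} (hX : 𝔇.Big n X) (y : YG 𝔇.J 𝔇.B 𝔇.Hg) (i : Fin 5) :
    ∀ p ∈ raw (𝔇.S.idx y), (i : ℕ) + p.1 ≤ X := by
  intro p hp
  simp only [raw, List.mem_flatMap, List.mem_range, List.mem_cons, List.not_mem_nil, or_false] at hp
  obtain ⟨j, hj, hp⟩ := hp
  have h1 := ex_le hX y hj
  have h2 := i.2
  rcases hp with rfl | rfl <;> simp only <;> omega

theorem MD3.iraw_le {n X : ℕ} (hX : 𝔇.Big n X) (y : YG 𝔇.J 𝔇.B 𝔇.Hg) (i : Fin 5) :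
    ∀ p ∈ iraw (raw (𝔇.S.idx y)), (i : ℕ) + p.1 ≤ X := by
  intro p hp
  simp only [iraw, List.mem_reverse, List.mem_map] at hp
  obtain ⟨q, hq, rfl⟩ := hp
  exact raw_le hX y i q hq

theorem MD3.mW_length (pt pb : List 𝔇.B) (u : List (Option 𝔇.J)) :
    (mW pt pb u : 𝔇.WW).length = 2 * pb.length + 2 * pt.length + 4 * u.length + 4 := by
  simp [mW, eW, cj_length, bW, rW, sW]
  omega

theorem MD3.bX_length {n X : ℕ} (hX : 𝔇.Big n X) (y : YG 𝔇.J 𝔇.B 𝔇.Hg) :
    (bX (𝔇.S.idx y)).length ≤ 128 * (4 * X + 1) := by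
  rw [bX_raw]
  have h := rawW_length (X := X) (raw (𝔇.S.idx y)) fun p hp => by
    have := raw_le hX y 0 p hp
    simpa using this
  rw [raw_length] at h
  exact h

theorem MD3.thC_length {n X : ℕ} (hX : 𝔇.Big n X) (y : YG 𝔇.J 𝔇.B 𝔇.Hg) (i : Fin 5) :
    (𝔇.S.thC y i).length ≤ 128 * (4 * X + 1) + 16 := by
  have h1 := bX_length hX y
  have h2 := i.2
  unfold Sys.thC
  split_ifs
  · simp only [List.length_append, xW_length, List.length_cons, List.length_nil]
    omega
  · rw [cj_length, xW_length, xW_length, gX_length]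
    omega

/-- Length of the words of the letters. -/
theorem MD3.th_length {n X : ℕ} (hX : 𝔇.Big n X) (ℓ : ML 𝔇)
    (hu : ∀ i u a, ℓ = .main i u a → u.length ≤ X) : ℓ.th.length ≤ 600 * X := by
  have h0 := hX.h1000
  cases ℓ with
  | dum i a =>
    have := i.2
    simp only [ML.th, thD, cj_length, xW_length, gX_length, List.length_cons, List.length_nil]
    omega
  | main i u a =>
    have h1 := hu i u a rfl
    have h2 := hX.hpt
    have h3 := hX.hpb
    have h4 := em_le i
    have h5 : (if i = 0 then 6 else (i : ℕ) + 1) ≤ 6 := h4.2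
    simp only [ML.th, thM, cj_length, List.length_append, xW_length, gX_length, mW_length,
      List.length_cons, List.length_nil]
    omega
  | cst i y ε =>
    have h1 := thC_length hX y i
    cases ε with
    | true => simp only [ML.th]; omega
    | false => simp only [ML.th, inv_length]; omega

theorem MD3.its_word_length {n X : ℕ} (hX : 𝔇.Big n X) (st : 𝔇.KW) (hst : st.length ≤ 2 * X) (ℓ : ML 𝔇)
    (hu : ∀ i u a, ℓ = .main i u a → u.length ≤ X) : (itsZ (ℓ.its st)).length ≤ 2000 * X := by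
  have h0 := hX.h1000
  cases ℓ with
  | dum i a =>
    have := i.2
    simp only [ML.its, itsZ_single, itZ_none, List.length_append, cj_length, kW_length, xW_length,
      gX_length, List.length_cons, List.length_nil]
    omega
  | main i u a =>
    have h1 := hu i u a rfl
    have h2 := hX.hpt
    have h3 := hX.hpb
    have h4 := em_le i
    simp only [ML.its, itsZ_single, itZ_some, List.length_append, cj_length, kW_length, xW_length,
      gX_length, mW_length, List.length_cons, List.length_nil]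
    omega
  | cst i y ε =>
    cases ε with
    | true =>
      have h1 := rIt_length (X := X) st i (raw (𝔇.S.idx y)) (raw_le hX y i)
      rw [raw_length] at h1
      simp only [ML.its, bIt_raw]
      have hr : (64:ℕ) = rr := rfl
      rw [← hr] at h1
      omega
    | false =>
      have h1 := rIt_length (X := X) (st ++ (if i = 0 then [(KG.y y, false)] else [])) i
        (iraw (raw (𝔇.S.idx y))) (iraw_le hX y i)
      rw [iraw_length, raw_length] at h1
      simp only [ML.its, bItI_raw]
      have hr : (64:ℕ) = rr := rfl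
      rw [← hr] at h1
      have h2 : (st ++ (if i = 0 then [(KG.y y, false)] else []) : 𝔇.KW).length ≤ st.length + 1 := by
        rw [List.length_append]
        split_ifs <;> simp
      omega

/-- Expansion of one letter. -/
theorem MD3.letter_exp {n X : ℕ} (hX : 𝔇.Big n X) (st : 𝔇.KW) (hst : st.length ≤ 2 * X) (ℓ : ML 𝔇)
    (hu : ∀ i u a, ℓ = .main i u a → u.length ≤ X) :
    E (𝔇.Rn n) (3000 * X) (𝔇.kW st ++ ℓ.th) (itsZ (ℓ.its st) ++ 𝔇.kW (st ++ ℓ.y)) := by
  have hf := 𝔇.Rn_free n
  have h0 := hX.h1000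
  have hr : (64:ℕ) = rr := rfl
  have l1 := th_length hX ℓ hu
  have l2 := its_word_length hX st hst ℓ hu
  have l3 := y_length_le ℓ
  have l4 : (𝔇.kW st ++ ℓ.th).length ≤ 3000 * X := by
    rw [List.length_append, kW_length]; omega
  have l5 : (itsZ (ℓ.its st) ++ 𝔇.kW (st ++ ℓ.y)).length ≤ 3000 * X := by
    rw [List.length_append, kW_length, List.length_append]; omega
  cases ℓ with
  | dum i a =>
    refine E.free hf ?_ l4 l5
    simp only [ML.th, thD, ML.its, ML.y, itsZ_single, itZ_none, List.append_nil, mk_append, mk_cj]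
    group
  | main i u a =>
    refine E.free hf ?_ l4 l5
    have h5 : (if i = 0 then 6 else (i : ℕ) + 1) = em i := rfl
    simp only [ML.th, thM, ML.its, ML.y, itsZ_single, itZ_some, List.append_nil, mk_append, mk_cj,
      h5]
    group
  | cst i y ε =>
    have hi := i.2
    cases ε with
    | true =>
      have h1 := raw_exp (n := n) (C := 14 * X + 22) st i (by omega) (by omega)
        (raw (𝔇.S.idx y)) (raw_le hX y i)
      rw [raw_length, ← hr, ← bX_raw] at h1
      simp only [ML.th, ML.its, bIt_raw, ML.y] at l4 l5 ⊢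
      by_cases h : i = 0
      · subst h
        simp only [Sys.thC, if_true, Fin.val_zero] at h1 ⊢
        have h2 : (gX 0) = [] := rfl
        have h3 : cj ([] : 𝔇.WW) (xW (bX (𝔇.S.idx y))) = xW (bX (𝔇.S.idx y)) := by simp [cj]
        rw [h2] at h1
        have h4 : (xW [] : 𝔇.WW) = [] := rfl
        rw [h4, h3] at h1
        have h5 := h1.appR [(.k (.y y), true)] (B := 3000 * X) (by simp; omega)
        rw [kW_append]
        simp only [List.append_assoc] at h5 ⊢
        exact h5
      · simp only [Sys.thC, if_neg h, List.append_nil] at h1 ⊢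
        exact h1.mono (by omega)
    | false =>
      simp only [ML.th, ML.its, bItI_raw, ML.y] at l4 l5 ⊢
      by_cases h : i = 0
      · subst h
        simp only [if_true] at l4 l5 ⊢
        have h1 := raw_exp (n := n) (X := X) (C := 14 * X + 25) (st ++ [(KG.y y, false)]) 0
          (by omega) (by simp; omega) (iraw (raw (𝔇.S.idx y)))
          (by have := iraw_le hX y 0; simpa using this)
        rw [iraw_length, raw_length, ← hr, ← inv_rawW, ← bX_raw] at h1
        have h2 : (gX 0) = [] := rfl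
        have h3 : cj ([] : 𝔇.WW) (xW (inv (bX (𝔇.S.idx y)))) = xW (inv (bX (𝔇.S.idx y))) := by
          simp [cj]
        have h4 : (xW [] : 𝔇.WW) = [] := rfl
        rw [h2, h4, h3] at h1
        have h5 := h1.mono (B := 3000 * X) (by omega)
        simp only [Sys.thC, if_true, inv_append, xW_inv, kW_append, List.append_assoc] at h5 ⊢
        exact h5
      · simp only [if_neg h, List.append_nil] at l4 l5 ⊢
        have h1 := raw_exp (n := n) (C := 14 * X + 22) st i (by omega) (by omega)
          (iraw (raw (𝔇.S.idx y))) (iraw_le hX y i)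
        rw [iraw_length, raw_length, ← hr, ← inv_rawW, ← bX_raw, xW_inv] at h1
        simp only [Sys.thC, if_neg h, inv_cj]
        exact h1.mono (by omega)

theorem MD3.cube_ge {X : ℕ} (hX : 1000 ≤ X) : 1000000 * X ≤ X ^ 3 := by
  have h1 : 1000 * 1000 ≤ X * X := Nat.mul_le_mul hX hX
  calc 1000000 * X = 1000 * 1000 * X := by ring
    _ ≤ X * X * X := Nat.mul_le_mul_right _ h1
    _ = X ^ 3 := by ring

theorem MD3.five_ge {X : ℕ} (hX : 1000 ≤ X) : (X + 1) * X ^ 3 ≤ X ^ 5 := by
  have h1 : X + 1 ≤ X * X := by nlinarith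
  calc (X + 1) * X ^ 3 ≤ X * X * X ^ 3 := Nat.mul_le_mul_right _ h1
    _ = X ^ 5 := by ring

theorem MD3.Exp_th_aux {n X : ℕ} (hX : 𝔇.Big n X) (l : List (ML 𝔇)) :
    ∀ st : 𝔇.KW, st.length + l.length ≤ 2 * X →
    (∀ i u a, ML.main i u a ∈ l → u.length ≤ X) →
    (thW l).length ≤ l.length * (600 * X) ∧
    E (𝔇.Rn n) ((l.length + 1) * X ^ 3) (𝔇.kW st ++ thW l) (sgW (Exp st l)) := by
  have h0 := hX.h1000
  have hc := cube_ge h0
  induction l with
  | nil =>
    intro st hst _
    simp only [List.length_nil] at hst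
    refine ⟨by simp [thW], E.of_eq ?_ ?_⟩
    · simp [thW]
      omega
    · simp [thW, Exp_nil, sgW, itsZ]
  | cons ℓ l ih =>
    intro st hst hu
    rw [List.length_cons] at hst
    have hu1 : ∀ i u a, ℓ = .main i u a → u.length ≤ X := fun i u a h => hu i u a (by simp [h])
    have l1 := th_length hX ℓ hu1
    have l2 := its_word_length hX st (by omega) ℓ hu1
    have l3 := y_length_le ℓ
    obtain ⟨h1, h2⟩ := ih (st ++ ℓ.y) (by rw [List.length_append]; omega)
      fun i u a h => hu i u a (by simp [h])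
    have h3 := letter_exp hX st (by omega) ℓ hu1
    have e1 : thW (ℓ :: l) = ℓ.th ++ thW l := by simp [thW]
    have e2 : (l.length + 1 + 1) * X ^ 3 = l.length * X ^ 3 + 2 * X ^ 3 := by ring
    have e3 : (l.length + 1) * X ^ 3 = l.length * X ^ 3 + X ^ 3 := by ring
    have e4 : l.length * (600 * X) ≤ l.length * X ^ 3 := Nat.mul_le_mul_left _ (by omega)
    have e5 : (l.length + 1) * (600 * X) = l.length * (600 * X) + 600 * X := by ring
    rw [e3] at h2
    rw [e1, List.length_cons, e2]
    refine ⟨by rw [List.length_append, e5]; omega, ?_⟩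
    have a1 : E (𝔇.Rn n) (l.length * X ^ 3 + 2 * X ^ 3) (𝔇.kW st ++ ℓ.th ++ thW l)
        (itsZ (ℓ.its st) ++ 𝔇.kW (st ++ ℓ.y) ++ thW l) := h3.appR _ (by omega)
    have a2 : E (𝔇.Rn n) (l.length * X ^ 3 + 2 * X ^ 3)
        (itsZ (ℓ.its st) ++ (𝔇.kW (st ++ ℓ.y) ++ thW l))
        (itsZ (ℓ.its st) ++ sgW (Exp (st ++ ℓ.y) l)) := h2.appL _ (by omega)
    have e6 : sgW (Exp st (ℓ :: l)) = itsZ (ℓ.its st) ++ sgW (Exp (st ++ ℓ.y) l) := by
      rw [Exp_cons, sgW, sgW, itsZ_append, List.append_assoc]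
    rw [e6]
    simp only [List.append_assoc] at a1 a2 ⊢
    exact a1.trans a2

theorem Exp_th {n X : ℕ} (hX : 𝔇.Big n X) (st : 𝔇.KW) (hst : st.length ≤ X) (l : List (ML 𝔇))
    (hl : l.length ≤ X) (hu : ∀ i u a, ML.main i u a ∈ l → u.length ≤ X) :
    E (𝔇.Rn n) (X ^ 5) (𝔇.kW st ++ thW l) (sgW (Exp st l)) :=
  (Exp_th_aux hX l st (by omega) hu).2.mono
    ((Nat.mul_le_mul_right _ (by omega)).trans (five_ge hX.h1000))

/-- Length of the words of the lists of letters. -/
theorem MD3.thW_length {n X : ℕ} (hX : 𝔇.Big n X) (l : List (ML 𝔇))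
    (hu : ∀ i u a, ML.main i u a ∈ l → u.length ≤ X) : (thW l).length ≤ l.length * (600 * X) := by
  induction l with
  | nil => simp [thW]
  | cons ℓ l ih =>
    have h1 := ih fun i u a h => hu i u a (by simp [h])
    have h2 := th_length hX ℓ fun i u a h => hu i u a (by simp [h])
    have e1 : thW (ℓ :: l) = ℓ.th ++ thW l := by simp [thW]
    have e5 : (l.length + 1) * (600 * X) = l.length * (600 * X) + 600 * X := by ring
    rw [e1, List.length_append, List.length_cons, e5]
    omega

theorem MD3.perm_rel {n A : ℕ} (x : Fin 5 → 𝔇.WW) (τ : A5) (i : Fin 5)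
    (h : 𝔇.Rn n (permW x τ i)) (hx : ∀ i, (x i).length ≤ A) :
    E (𝔇.Rn n) (3 * A + 2) ([(.t τ, true)] ++ x i ++ [(.t τ, false)]) (x (τ.1 i)) := by
  have hf := 𝔇.Rn_free n
  have h1 := hx i
  have h2 := hx (τ.1 i)
  refine E.of_mul_inv (A := 2 * A + 2) hf ?_ (by omega)
  refine E.rel (ρ := permW x τ i) h ?_
  simp only [permW, cj_length, List.length_append, List.length_cons, List.length_nil, inv_length]
  omega

theorem th_conj {n X : ℕ} (hX : 𝔇.Big n X) (ℓ : ML 𝔇) (hu : ∀ i u a, ℓ = .main i u a → u.length ≤ X)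
    (τ : A5) : E (𝔇.Rn n) (X ^ 3) ([(.t τ, true)] ++ ℓ.th ++ [(.t τ, false)]) (ℓ.perm τ).th := by
  have hf := 𝔇.Rn_free n
  have h0 := hX.h1000
  have hc := cube_ge h0
  cases ℓ with
  | dum i a =>
    refine (perm_rel (A := 600 * X) (fun i => thD i a) τ i ?_ ?_).mono (by omega)
    · exact Sys.Rel.a _ (Sys.RelA.dum τ i a)
    · intro j
      exact th_length hX (.dum j a) (fun _ _ _ h => by cases h)
  | main i u a =>
    refine (perm_rel (A := 600 * X) (fun i => thM 𝔇.pt 𝔇.pb u i a) τ i ?_ ?_).mono (by omega)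
    · exact Sys.Rel.u u _ (Sys.RelU.m τ i a)
    · intro j
      refine th_length hX (.main j u a) (fun j' u' a' h => ?_)
      cases h
      exact hu i u a rfl
  | cst i y ε =>
    have h1 : E (𝔇.Rn n) (3 * (600 * X) + 2)
        ([(.t τ, true)] ++ 𝔇.S.thC y i ++ [(.t τ, false)]) (𝔇.S.thC y (τ.1 i)) := by
      refine perm_rel (A := 600 * X) (fun i => 𝔇.S.thC y i) τ i ?_ ?_
      · exact Sys.Rel.a _ (Sys.RelA.cst τ i y)
      · intro j
        exact th_length hX (.cst j y true) (fun _ _ _ h => by cases h)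
    cases ε with
    | true => exact h1.mono (by omega)
    | false =>
      have h2 := E.inv' hf h1
      have h3 : inv ([(.t τ, true)] ++ 𝔇.S.thC y i ++ [(.t τ, false)]) =
          [(.t τ, true)] ++ inv (𝔇.S.thC y i) ++ [(.t τ, false)] := by
        simp only [inv_append, inv_single, Bool.not_false, Bool.not_true, List.append_assoc]
      rw [h3] at h2
      exact h2.mono (by omega)

theorem MD3.thW_conj_aux {n X : ℕ} (hX : 𝔇.Big n X) (τ : A5) (l : List (ML 𝔇)) :
    (∀ i u a, ML.main i u a ∈ l → u.length ≤ X) →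
    E (𝔇.Rn n) ((l.length + 1) * X ^ 3) ([(.t τ, true)] ++ thW l ++ [(.t τ, false)])
      (thW (l.map (ML.perm τ))) := by
  have hf := 𝔇.Rn_free n
  have h0 := hX.h1000
  have hc := cube_ge h0
  induction l with
  | nil =>
    intro _
    refine E.free hf ?_ ?_ ?_
    · simp only [thW, List.map_nil, List.flatten_nil, List.append_nil, mk_append, mk_true,
        mk_false, mk_nil]
      group
    · simp [thW]
      omega
    · simp [thW]
  | cons ℓ l ih =>
    intro hu
    have hu1 : ∀ i u a, ℓ = .main i u a → u.length ≤ X := fun i u a h => hu i u a (by simp [h])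
    have h1 := ih fun i u a h => hu i u a (by simp [h])
    have h2 := th_conj hX ℓ hu1 τ
    have l1 := th_length hX ℓ hu1
    have l2 := thW_length hX l fun i u a h => hu i u a (by simp [h])
    have e1 : thW (ℓ :: l) = ℓ.th ++ thW l := by simp [thW]
    have e2 : (l.length + 1 + 1) * X ^ 3 = (l.length + 1) * X ^ 3 + X ^ 3 := by ring
    have e3 : thW ((ℓ :: l).map (ML.perm τ)) = (ℓ.perm τ).th ++ thW (l.map (ML.perm τ)) := by
      simp [thW]
    have e4 : l.length * (600 * X) ≤ l.length * X ^ 3 := Nat.mul_le_mul_left _ (by omega)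
    have e5 : (l.length + 1) * X ^ 3 = l.length * X ^ 3 + X ^ 3 := by ring
    rw [e1, e3, List.length_cons, e2]
    have a1 : E (𝔇.Rn n) ((l.length + 1) * X ^ 3 + X ^ 3)
        ([(.t τ, true)] ++ (ℓ.th ++ thW l) ++ [(.t τ, false)])
        (([(.t τ, true)] ++ ℓ.th ++ [(.t τ, false)]) ++
          ([(.t τ, true)] ++ thW l ++ [(.t τ, false)])) := by
      refine E.free hf ?_ ?_ ?_
      · simp only [mk_append, mk_true, mk_false]
        group
      · simp only [List.length_append, List.length_cons, List.length_nil]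
        omega
      · simp only [List.length_append, List.length_cons, List.length_nil]
        omega
    exact a1.trans ((h2.mul h1).mono (by omega))

theorem thW_conj {n X : ℕ} (hX : 𝔇.Big n X) (l : List (ML 𝔇)) (hl : l.length ≤ X)
    (hu : ∀ i u a, ML.main i u a ∈ l → u.length ≤ X) (τ : A5) :
    E (𝔇.Rn n) (X ^ 5) ([(.t τ, true)] ++ thW l ++ [(.t τ, false)]) (thW (l.map (ML.perm τ))) :=
  (thW_conj_aux hX τ l hu).mono
    ((Nat.mul_le_mul_right _ (by omega)).trans (five_ge hX.h1000))

end Dat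

end Pool.Agent.BH
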