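import Pool.Agent.BH.MLen
import Pool.Agent.BH.MA
import Pool.Agent.BH.MB2
import Pool.Agent.BH.MC2
import Pool.Agent.BH.MD1
import Pool.Agent.BH.MD2
import Pool.Agent.BH.MD3

set_option autoImplicit false

/-!
# Module M: the T-step
-/

namespace Pool.Agent.BH

open Monoid

attribute [-simp] FreeGroup.mul_mk FreeGroup.inv_mk

namespace Dat

variable {𝔇 : Dat}

theorem T_step {n X : ℕ} (hX : 𝔇.Big n X) (hg : 𝔇.Good) (hn : 0 < n) {wt : ℕ} (hwt : wt ≤ n)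
    {s : 𝔇.Seg} (hs : Bd n X wt s) {μ : 𝔇.M} (hμ : evS s = 𝔇.θ μ) (τ : A5) :
    ∃ s' : 𝔇.Seg, Bd n X wt s' ∧ evS s' = 𝔇.θ (𝔇.tM τ μ) ∧
      E (𝔇.Rn n) (X ^ 9) ([(.t τ, true)] ++ sgW s ++ [(.t τ, false)]) (sgW s') := by
  have hX1 := hX.hn
  have hX2 := hX.h1000
  -- the reduced segment
  have hpw1 : ∀ i ∈ s.1, (pw i).length ≤ 8 * X ∧ 8 * nm (pw i) < n := fun i hi =>
    pw_bd hX hn ((hs.ilen i hi).trans hwt) ((hs.inm i hi).trans hwt) (hs.iexp i hi) (hs.iu i hi)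
  obtain ⟨I', hI1, hI2, hI3, hI4, hI5⟩ := its_red hX s.1 (hs.len.trans (hwt.trans hX1)) hpw1
  have hpw' : ∀ i ∈ I', (pw i).length ≤ 8 * X ∧ 8 * nm (pw i) < n := by
    intro i hi
    obtain ⟨j, hj, h1, h2⟩ := hI1 i hi
    have := hpw1 j hj
    unfold pw at this ⊢
    rwa [h1, h2] at this
  -- a shortest list of letters
  obtain ⟨l, hl1, hl2⟩ : ∃ l : List (ML 𝔇), vM l = μ ∧
      ∀ l', vM l' = vM l → l.length ≤ l'.length := by
    classical
    have hex : ∃ m, ∃ l : List (ML 𝔇), vM l = μ ∧ l.length = m := by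
      obtain ⟨l, hl⟩ := vM_surj μ
      exact ⟨_, l, hl, rfl⟩
    obtain ⟨l, hl, hlen⟩ := Nat.find_spec hex
    refine ⟨l, hl, fun l' hl' => ?_⟩
    rw [hlen]
    exact Nat.find_min' hex ⟨l', hl'.trans hl, rfl⟩
  have hrd := Exp_rd hg l hl2
  have hev : evS (Exp ([] : 𝔇.KW) l) = 𝔇.θ μ := by
    rw [Exp_ev, hl1, evK_nil, map_one, one_mul]
  have hleft : pr (vlZ I') = pr (vlZ (Exp ([] : 𝔇.KW) l).1) := by
    have h1 := congrArg SemidirectProduct.left (hμ.trans hev.symm)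
    simp only [evS, SemidirectProduct.mul_left, SemidirectProduct.left_inl,
      SemidirectProduct.right_inl, SemidirectProduct.left_inr, map_one, mul_one] at h1
    rw [hI4, h1]
  have hright : evK s.2 = evK (Exp ([] : 𝔇.KW) l).2 := by
    have h1 := congrArg SemidirectProduct.right (hμ.trans hev.symm)
    simpa only [evS, SemidirectProduct.mul_right, SemidirectProduct.right_inl,
      SemidirectProduct.right_inr, one_mul] using h1
  have hvl : vlZ I' = vlZ (Exp ([] : 𝔇.KW) l).1 := Rd.inj hI3 hrd hleft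
  -- bounds for the expansion
  have hlen : (Exp ([] : 𝔇.KW) l).1.length = I'.length := by
    have := congrArg List.length hvl
    simpa [vlZ] using this.symm
  have hlen' : (Exp ([] : 𝔇.KW) l).1.length ≤ wt := by rw [hlen]; exact hI2.trans hs.len
  obtain ⟨hL1, hL2, hL3⟩ := Exp_len ([] : 𝔇.KW) l
  simp only [List.length_nil, Nat.mul_zero, Nat.zero_add] at hL2 hL3
  have hYw : Yw ([] : 𝔇.KW) := fun p hp => by simp at hp
  obtain ⟨hS1, hS2⟩ := Exp_state hYw l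
  have hu : ∀ u, (∃ i ∈ (Exp ([] : 𝔇.KW) l).1, i.2.1.2 = some u) → rr * u.length ≤ n := by
    rintro u ⟨i2, hi2, hiu⟩
    have hmem : (ps (pw i2), i2.2.2) ∈ vlZ I' := by
      rw [hvl]; exact List.mem_map.2 ⟨i2, hi2, rfl⟩
    obtain ⟨i1, hi1, hi1'⟩ := List.mem_map.1 hmem
    have hps : ps (pw i1) = ps (pw i2) := congrArg Prod.fst hi1'
    obtain ⟨j, hj, hj1, hj2⟩ := hI1 i1 hi1
    obtain ⟨x2, ⟨k2, o2⟩, a2⟩ := i2
    obtain ⟨x1, ⟨k1, o1⟩, a1⟩ := i1
    simp only at hiu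
    subst hiu
    have h1 := hL3 _ hi2
    have h2 : Yw x2 := hS2 _ hi2
    simp only at hj1 hj2 h1
    have h3 := hs.inm j hj
    have h4 := hs.iu j hj
    rw [hj1] at h3
    rw [hj2] at h4
    rcases pos_norm hg h2 hps with rfl | h5
    · exact h4 u rfl
    · have h6 : nS x1 ≤ nm x1 := Nat.le_add_left _ _
      have h7 : nS x2 ≤ x2.length := (Nat.le_add_left _ _).trans (nm_le_length x2)
      simp only [rr] at *
      omega
  have hpw2 : ∀ i ∈ (Exp ([] : 𝔇.KW) l).1, (pw i).length ≤ 8 * X ∧ 8 * nm (pw i) < n := by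
    intro i hi
    have h1 := hL3 i hi
    have h2 := nm_le_length i.1
    refine pw_bd hX hn ?_ ?_ (Exp_exp hX _ _ i hi).2 fun u hu' => hu u ⟨i, hi, hu'⟩
    · simp only [rr] at h1; omega
    · simp only [rr] at h1 ⊢; omega
  have hE1 : E (𝔇.Rn n) (X ^ 8) (itsZ I') (itsZ (Exp ([] : 𝔇.KW) l).1) :=
    its_match hX _ _ (hI2.trans (hs.len.trans (hwt.trans hX1))) (fun i hi => by
      rcases List.mem_append.1 hi with hi | hi
      · exact hpw' i hi
      · exact hpw2 i hi) hvl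
  have hkn : nm (Exp ([] : 𝔇.KW) l).2 ≤ (Exp ([] : 𝔇.KW) l).2.length := nm_le_length _
  have hk1 := hs.klen
  have hk2 := hs.knm
  have hE2 : E (𝔇.Rn n) (X ^ 8) (𝔇.kW s.2) (𝔇.kW (Exp ([] : 𝔇.KW) l).2) := by
    refine (Keq s.2 (Exp ([] : 𝔇.KW) l).2 hright ?_).mono ?_
    · simp only [rr] at hL2 hk2; omega
    · have h1 : s.2.length + (Exp ([] : 𝔇.KW) l).2.length + 4 ≤ 3 * X := by
        simp only [rr] at hL2; omega
      have h2 : (Exp ([] : 𝔇.KW) l).2.length ≤ X := by simp only [rr] at hL2; omega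
      calc 100 * (s.2.length + (Exp ([] : 𝔇.KW) l).2.length + 4) ^ 2 +
            (Exp ([] : 𝔇.KW) l).2.length ≤ 100 * (3 * X) ^ 2 + X := by gcongr
        _ ≤ 1000 * X * X ^ 2 := by nlinarith
        _ ≤ X * X * X ^ 2 := by gcongr
        _ = X ^ 4 * 1 := by ring
        _ ≤ X ^ 4 * X ^ 4 := by gcongr; exact Nat.one_le_pow _ _ (by omega)
        _ = X ^ 8 := by ring
  have hE3 : E (𝔇.Rn n) (2 * X ^ 8) (sgW s) (sgW (Exp ([] : 𝔇.KW) l)) := by
    have := (hI5.trans hE1).mul hE2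
    exact this.mono (by omega)
  -- the letters
  have hlX : l.length ≤ X := hL1.trans (hlen'.trans (hwt.trans hX1))
  have huX : ∀ i u a, ML.main i u a ∈ l → u.length ≤ X := by
    intro i u a hm
    have h1 := hu u ((Exp_u ([] : 𝔇.KW) l u).2 ⟨i, a, hm⟩)
    simp only [rr] at h1
    omega
  have hperm : ∀ i u a, ML.main i u a ∈ l.map (ML.perm τ) → ∃ i', ML.main i' u a ∈ l := by
    intro i u a hm
    obtain ⟨ℓ, hℓ, h⟩ := List.mem_map.1 hm
    rcases ℓ with ⟨j, b⟩ | ⟨j, u', b⟩ | ⟨j, m, ε⟩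
    · simp [ML.perm] at h
    · simp only [ML.perm, ML.main.injEq] at h
      obtain ⟨-, rfl, rfl⟩ := h
      exact ⟨j, hℓ⟩
    · simp [ML.perm] at h
  have huX' : ∀ i u a, ML.main i u a ∈ l.map (ML.perm τ) → u.length ≤ X := by
    intro i u a hm
    obtain ⟨i', hi'⟩ := hperm i u a hm
    exact huX i' u a hi'
  have hE4 : E (𝔇.Rn n) (X ^ 5) (thW l) (sgW (Exp ([] : 𝔇.KW) l)) := by
    have := Exp_th (n := n) hX ([] : 𝔇.KW) (by simp) l hlX huX
    simpa using this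
  have hE5 : E (𝔇.Rn n) (X ^ 5) (thW (l.map (ML.perm τ)))
      (sgW (Exp ([] : 𝔇.KW) (l.map (ML.perm τ)))) := by
    have := Exp_th (n := n) hX ([] : 𝔇.KW) (by simp) (l.map (ML.perm τ)) (by simpa using hlX) huX'
    simpa using this
  have hE6 := thW_conj (n := n) hX l hlX huX τ
  have hpl := Exp_perm_len ([] : 𝔇.KW) ([] : 𝔇.KW) l τ
  obtain ⟨hM1, hM2, hM3⟩ := Exp_len ([] : 𝔇.KW) (l.map (ML.perm τ))
  simp only [List.length_nil, Nat.mul_zero, Nat.zero_add] at hM2 hM3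
  have hkn' : nm (Exp ([] : 𝔇.KW) (l.map (ML.perm τ))).2 ≤
    (Exp ([] : 𝔇.KW) (l.map (ML.perm τ))).2.length := nm_le_length _
  refine ⟨Exp ([] : 𝔇.KW) (l.map (ML.perm τ)), ⟨?_, ?_, ?_, ?_, ?_, ?_, ?_⟩, ?_, ?_⟩
  · omega
  · simp only [rr] at hM2; omega
  · simp only [rr] at hM2 ⊢; omega
  · intro i hi
    have := hM3 i hi
    simp only [rr] at this; omega
  · intro i hi
    have h1 := hM3 i hi
    have h2 := nm_le_length i.1
    simp only [rr] at h1 ⊢; omega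
  · intro i hi
    exact (Exp_exp hX _ _ i hi).2
  · intro i hi u hiu
    obtain ⟨i', a, hm⟩ := (Exp_u ([] : 𝔇.KW) (l.map (ML.perm τ)) u).1 ⟨i, hi, hiu⟩
    obtain ⟨i'', hm'⟩ := hperm i' u a hm
    exact hu u ((Exp_u ([] : 𝔇.KW) l u).2 ⟨i'', a, hm'⟩)
  · rw [Exp_ev, evK_nil, map_one, one_mul, vM_perm, hl1]
  · have hb1 : X ^ 8 * 1000 ≤ X ^ 9 := by
      rw [pow_succ X 8]; gcongr
    have hb2 : X ^ 5 ≤ X ^ 8 := Nat.pow_le_pow_right (by omega) (by omega)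
    have hb3 : 1 ≤ X ^ 8 := Nat.one_le_pow _ _ (by omega)
    have s1 : E (𝔇.Rn n) (X ^ 9) ([(Gen.t τ, true)] ++ sgW s ++ [(Gen.t τ, false)])
        ([(Gen.t τ, true)] ++ sgW (Exp ([] : 𝔇.KW) l) ++ [(Gen.t τ, false)]) :=
      hE3.ctx _ _ (by simp only [List.length_cons, List.length_nil]; omega)
    have s2 : E (𝔇.Rn n) (X ^ 9) ([(Gen.t τ, true)] ++ sgW (Exp ([] : 𝔇.KW) l) ++
        [(Gen.t τ, false)]) ([(Gen.t τ, true)] ++ thW l ++ [(Gen.t τ, false)]) :=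
      hE4.symm.ctx _ _ (by simp only [List.length_cons, List.length_nil]; omega)
    have s3 := E.mono hE6 (show X ^ 5 ≤ X ^ 9 by omega)
    have s4 := E.mono hE5 (show X ^ 5 ≤ X ^ 9 by omega)
    exact ((s1.trans s2).trans s3).trans s4

end Dat

end Pool.Agent.BH
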