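import Pool.Agent.BH.Words

set_option autoImplicit false

/-!
# Tools for bounded derivations
-/

namespace Pool.Agent.BH

open FreeGroup

attribute [-simp] FreeGroup.mul_mk FreeGroup.inv_mk

section Tools

variable {α : Type} {R : List (α × Bool) → Prop}

/-- Derivable equality inside words of length at most `A`. -/
structure E (R : List (α × Bool) → Prop) (A : ℕ) (x y : List (α × Bool)) : Prop where
  left : x.length ≤ A
  right : y.length ≤ A
  der : Der R A x y

/-- The free cancellations are relators. -/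
def FreeRel (R : List (α × Bool) → Prop) : Prop := ∀ x ε, R [(x, ε), (x, !ε)]

lemma Step.symm' {A : ℕ} {x y : List (α × Bool)} (h : Step R A x y) : Step R A y x := by
  obtain ⟨h1, h2, u, ρ, v, h3, h4⟩ := h
  exact ⟨h2, h1, u, ρ, v, h3, h4.symm⟩

lemma Step.mono' {A B : ℕ} (hAB : A ≤ B) {x y : List (α × Bool)} (h : Step R A x y) :
    Step R B x y := by
  obtain ⟨h1, h2, h3⟩ := h
  exact ⟨h1.trans hAB, h2.trans hAB, h3⟩

lemma Step.context {A : ℕ} {x y : List (α × Bool)} (h : Step R A x y) (p s : List (α × Bool)) :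
    Step R (A + p.length + s.length) (p ++ x ++ s) (p ++ y ++ s) := by
  obtain ⟨h1, h2, u, ρ, v, h3, h4⟩ := h
  refine ⟨by simp; omega, by simp; omega, p ++ u, ρ, v ++ s, h3, ?_⟩
  rcases h4 with ⟨rfl, rfl⟩ | ⟨rfl, rfl⟩
  · left; simp
  · right; simp

lemma E.refl {A : ℕ} {x : List (α × Bool)} (h : x.length ≤ A) : E R A x x :=
  ⟨h, h, Relation.ReflTransGen.refl⟩

lemma E.of_eq {A : ℕ} {x y : List (α × Bool)} (h : x.length ≤ A) (e : x = y) : E R A x y := by
  subst e; exact E.refl h

lemma E.symm {A : ℕ} {x y : List (α × Bool)} (h : E R A x y) : E R A y x := by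
  refine ⟨h.right, h.left, ?_⟩
  have h3 := h.der
  unfold Der at h3 ⊢
  induction h3 with
  | refl => exact Relation.ReflTransGen.refl
  | @tail b c h1 h2 ih =>
    have hb : E R A x b := ⟨h.left, h2.1, h1⟩
    exact Relation.ReflTransGen.head h2.symm' (ih hb)

lemma E.trans {A : ℕ} {x y z : List (α × Bool)} (h : E R A x y) (h' : E R A y z) : E R A x z :=
  ⟨h.left, h'.right, Relation.ReflTransGen.trans h.der h'.der⟩

lemma E.mono {A B : ℕ} {x y : List (α × Bool)} (h : E R A x y) (hAB : A ≤ B) : E R B x y :=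
  ⟨h.left.trans hAB, h.right.trans hAB, Relation.ReflTransGen.mono (fun _ _ h => h.mono' hAB) _ _ h.der⟩

lemma E.mono_rel {R' : List (α × Bool) → Prop} (hR : ∀ ρ, R ρ → R' ρ) {A : ℕ}
    {x y : List (α × Bool)} (h : E R A x y) : E R' A x y :=
  ⟨h.left, h.right, Relation.ReflTransGen.mono (fun _ _ ⟨h1, h2, u, ρ, v, h3, h4⟩ => ⟨h1, h2, u, ρ, v, hR _ h3, h4⟩) _ _ h.der⟩

lemma E.trans' {A B : ℕ} {x y z : List (α × Bool)} (h : E R A x y) (h' : E R B y z) :
    E R (max A B) x z :=
  (h.mono (le_max_left _ _)).trans (h'.mono (le_max_right _ _))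

lemma E.context {A : ℕ} {x y : List (α × Bool)} (h : E R A x y) (p s : List (α × Bool)) :
    E R (A + p.length + s.length) (p ++ x ++ s) (p ++ y ++ s) := by
  refine ⟨by have := h.left; simp; omega, by have := h.right; simp; omega, ?_⟩
  have h3 := h.der
  unfold Der at h3 ⊢
  exact Relation.ReflTransGen.lift (fun x => p ++ x ++ s) (fun a b hab => Step.context hab p s) _ _ h3

lemma E.ctx {A B : ℕ} {x y : List (α × Bool)} (h : E R A x y) (p s : List (α × Bool))
    (hB : A + p.length + s.length ≤ B) : E R B (p ++ x ++ s) (p ++ y ++ s) :=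
  (h.context p s).mono hB

lemma E.appL {A B : ℕ} {x y : List (α × Bool)} (h : E R A x y) (p : List (α × Bool))
    (hB : A + p.length ≤ B) : E R B (p ++ x) (p ++ y) := by
  have := h.ctx p [] (B := B) (by simpa using hB)
  simpa using this

lemma E.appR {A B : ℕ} {x y : List (α × Bool)} (h : E R A x y) (s : List (α × Bool))
    (hB : A + s.length ≤ B) : E R B (x ++ s) (y ++ s) := by
  have := h.ctx [] s (B := B) (by simpa using hB)
  simpa using this

lemma E.mul {A B : ℕ} {x x' y y' : List (α × Bool)} (h : E R A x x') (h' : E R B y y') :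
    E R (A + B) (x ++ y) (x' ++ y') :=
  (h.appR y (by have := h'.left; omega)).trans (h'.appL x' (by have := h.right; omega))

lemma E.rel {A : ℕ} {ρ : List (α × Bool)} (h : R ρ) (hA : ρ.length ≤ A) : E R A ρ [] :=
  ⟨hA, Nat.zero_le _, Relation.ReflTransGen.single
    ⟨hA, Nat.zero_le _, [], ρ, [], h, Or.inr (by simp)⟩⟩

/-- One free cancellation. -/
lemma E.cancel (hf : FreeRel R) {A : ℕ} (u v : List (α × Bool)) (x : α) (ε : Bool)
    (hA : u.length + v.length + 2 ≤ A) : E R A (u ++ (x, ε) :: (x, !ε) :: v) (u ++ v) := by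
  refine ⟨by simp; omega, by simp; omega, Relation.ReflTransGen.single
    ⟨by simp; omega, by simp; omega, u, [(x, ε), (x, !ε)], v, hf x ε, Or.inr (by simp)⟩⟩

lemma E.of_red_step (hf : FreeRel R) {A : ℕ} {x y : List (α × Bool)} (h : FreeGroup.Red.Step x y)
    (hA : x.length ≤ A) : E R A x y := by
  cases h with
  | @not L₁ L₂ a b =>
    exact E.cancel hf _ _ _ _ (by simpa [Nat.add_assoc] using hA)

lemma E.of_red (hf : FreeRel R) {A : ℕ} {x y : List (α × Bool)} (h : FreeGroup.Red x y)
    (hA : x.length ≤ A) : E R A x y := by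
  induction h with
  | refl => exact E.refl hA
  | tail h1 h2 ih => exact ih.trans (E.of_red_step hf h2 ih.right)

lemma E.free (hf : FreeRel R) {A : ℕ} {x y : List (α × Bool)}
    (h : FreeGroup.mk x = FreeGroup.mk y) (hx : x.length ≤ A) (hy : y.length ≤ A) : E R A x y := by
  rw [FreeGroup.Red.exact] at h
  obtain ⟨z, h1, h2⟩ := h
  exact (E.of_red hf h1 hx).trans (E.of_red hf h2 hy).symm

@[simp] lemma inv_length (x : List (α × Bool)) : (inv x).length = x.length := FreeGroup.invRev_length

lemma mk_inv (x : List (α × Bool)) : FreeGroup.mk (inv x) = (FreeGroup.mk x)⁻¹ :=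
  FreeGroup.inv_mk.symm

lemma mk_append (x y : List (α × Bool)) :
    FreeGroup.mk (x ++ y) = FreeGroup.mk x * FreeGroup.mk y := FreeGroup.mul_mk.symm

@[simp] lemma mk_nil : FreeGroup.mk ([] : List (α × Bool)) = 1 := rfl

lemma mk_cons (a : α × Bool) (x : List (α × Bool)) :
    FreeGroup.mk (a :: x) = FreeGroup.mk [a] * FreeGroup.mk x := by
  rw [FreeGroup.mul_mk]; rfl

lemma mk_cons2 (a b : α × Bool) (x : List (α × Bool)) :
    FreeGroup.mk (a :: b :: x) = FreeGroup.mk [a] * FreeGroup.mk (b :: x) := mk_cons a _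

lemma mk_true (a : α) : FreeGroup.mk [(a, true)] = FreeGroup.of a := rfl

lemma mk_false (a : α) : FreeGroup.mk [(a, false)] = (FreeGroup.of a)⁻¹ := rfl

@[simp] lemma inv_append (x y : List (α × Bool)) : inv (x ++ y) = inv y ++ inv x :=
  FreeGroup.invRev_append

@[simp] lemma inv_inv (x : List (α × Bool)) : inv (inv x) = x := FreeGroup.invRev_invRev

@[simp] lemma inv_nil : inv ([] : List (α × Bool)) = [] := rfl

@[simp] lemma inv_single (a : α) (ε : Bool) : inv [(a, ε)] = [(a, !ε)] := rfl

lemma inv_cons (a : α × Bool) (x : List (α × Bool)) : inv (a :: x) = inv x ++ [(a.1, !a.2)] := by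
  have : a :: x = [a] ++ x := rfl
  rw [this, inv_append]; rfl

lemma cj_length (p x : List (α × Bool)) : (cj p x).length = 2 * p.length + x.length := by
  simp [cj]; omega

lemma cm_length (p x : List (α × Bool)) : (cm p x).length = 2 * p.length + 2 * x.length := by
  simp [cm]; omega

lemma mk_cj (p x : List (α × Bool)) :
    FreeGroup.mk (cj p x) = FreeGroup.mk p * FreeGroup.mk x * (FreeGroup.mk p)⁻¹ := by
  simp [cj, mk_append, mk_inv, mul_assoc]

lemma mk_cm (p x : List (α × Bool)) : FreeGroup.mk (cm p x) =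
    FreeGroup.mk p * FreeGroup.mk x * (FreeGroup.mk p)⁻¹ * (FreeGroup.mk x)⁻¹ := by
  simp [cm, mk_append, mk_inv, mul_assoc]

lemma E.invL (hf : FreeRel R) {A : ℕ} (x : List (α × Bool)) (hA : 2 * x.length ≤ A) :
    E R A (inv x ++ x) [] :=
  E.free hf (by simp [mk_append, mk_inv]) (by simp; omega) (by simp)

lemma E.invR (hf : FreeRel R) {A : ℕ} (x : List (α × Bool)) (hA : 2 * x.length ≤ A) :
    E R A (x ++ inv x) [] :=
  E.free hf (by simp [mk_append, mk_inv]) (by simp; omega) (by simp)

lemma E.inv' (hf : FreeRel R) {A : ℕ} {x y : List (α × Bool)} (h : E R A x y) :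
    E R (3 * A) (inv x) (inv y) := by
  have h1 := h.left
  have h2 := h.right
  have a1 : E R (3 * A) (BH.inv x) (BH.inv x ++ y ++ BH.inv y) :=
    E.free hf (by simp [mk_append, mk_inv]) (by simp; omega) (by simp; omega)
  have a2 : E R (3 * A) (BH.inv x ++ y ++ BH.inv y) (BH.inv x ++ x ++ BH.inv y) :=
    h.symm.ctx _ _ (by simp; omega)
  have a3 : E R (3 * A) (BH.inv x ++ x ++ BH.inv y) (BH.inv y) :=
    E.free hf (by simp [mk_append, mk_inv]) (by simp; omega) (by simp; omega)
  exact (a1.trans a2).trans a3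

/-- From a trivial quotient to an equality. -/
lemma E.of_mul_inv (hf : FreeRel R) {A B : ℕ} {x y : List (α × Bool)}
    (h : E R A (x ++ inv y) []) (hB : A + y.length ≤ B) : E R B x y := by
  have h1 := h.left
  simp only [List.length_append, inv_length] at h1
  have a1 : E R B x (x ++ BH.inv y ++ y) :=
    E.free hf (by simp [mk_append, mk_inv]) (by omega) (by simp; omega)
  have a2 : E R B (x ++ BH.inv y ++ y) ([] ++ y) := h.appR y hB
  exact a1.trans a2

/-- Commutation. -/
def Cm (R : List (α × Bool) → Prop) (A : ℕ) (x y : List (α × Bool)) : Prop :=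
  E R A (x ++ y) (y ++ x)

lemma Cm.symm {A : ℕ} {x y : List (α × Bool)} (h : Cm R A x y) : Cm R A y x := E.symm h

lemma Cm.mono {A B : ℕ} {x y : List (α × Bool)} (h : Cm R A x y) (hAB : A ≤ B) : Cm R B x y :=
  E.mono h hAB

lemma Cm.nil {A : ℕ} {x : List (α × Bool)} (h : x.length ≤ A) : Cm R A x [] :=
  E.of_eq (by simpa using h) (by simp)

lemma Cm.of_rel (hf : FreeRel R) {A : ℕ} {x y : List (α × Bool)} (h : R (cm x y))
    (hA : 3 * (x.length + y.length) ≤ A) : Cm R A x y := by
  have a1 : E R A (x ++ y) (cm x y ++ (y ++ x)) :=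
    E.free hf (by simp [mk_append, mk_inv, cm]) (by simp; omega) (by simp [cm]; omega)
  have a2 : E R A (cm x y ++ (y ++ x)) ([] ++ (y ++ x)) :=
    (E.rel h le_rfl).appR _ (by simp [cm]; omega)
  exact a1.trans a2

lemma Cm.mul_right {A B C : ℕ} {x y z : List (α × Bool)} (h : Cm R A x y)
    (h' : Cm R B x z) (hC : max (A + z.length) (B + y.length) ≤ C) : Cm R C x (y ++ z) := by
  have a1 : E R C (x ++ y ++ z) (y ++ x ++ z) := E.appR h z (by omega)
  have a2 : E R C (y ++ (x ++ z)) (y ++ (z ++ x)) := E.appL h' y (by omega)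
  unfold Cm
  simp only [List.append_assoc] at a1 a2 ⊢
  exact a1.trans a2

lemma Cm.mul_left {A B C : ℕ} {x y z : List (α × Bool)} (h : Cm R A x z)
    (h' : Cm R B y z) (hC : max (A + y.length) (B + x.length) ≤ C) : Cm R C (x ++ y) z :=
  (Cm.mul_right h.symm h'.symm hC).symm

lemma Cm.inv_right (hf : FreeRel R) {A B : ℕ} {x y : List (α × Bool)} (h : Cm R A x y)
    (hB : A + 2 * y.length ≤ B) : Cm R B x (BH.inv y) := by
  have h1 := E.left h
  simp only [List.length_append] at h1
  have a1 : E R B (x ++ BH.inv y) (BH.inv y ++ (y ++ x) ++ BH.inv y) :=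
    E.free hf (by simp [mk_append, mk_inv]) (by simp; omega) (by simp; omega)
  have a2 : E R B (BH.inv y ++ (y ++ x) ++ BH.inv y) (BH.inv y ++ (x ++ y) ++ BH.inv y) :=
    (E.symm h).ctx _ _ (by simp; omega)
  have a3 : E R B (BH.inv y ++ (x ++ y) ++ BH.inv y) (BH.inv y ++ x) :=
    E.free hf (by simp [mk_append, mk_inv]) (by simp; omega) (by simp; omega)
  exact (a1.trans a2).trans a3

lemma Cm.inv_left (hf : FreeRel R) {A B : ℕ} {x y : List (α × Bool)} (h : Cm R A x y)
    (hB : A + 2 * x.length ≤ B) : Cm R B (BH.inv x) y :=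
  (Cm.inv_right hf h.symm hB).symm

lemma Cm.congr_right {A B C : ℕ} {x y z : List (α × Bool)} (h : Cm R A x y) (h' : E R B y z)
    (hC : max A (B + x.length) ≤ C) : Cm R C x z := by
  have a1 : E R C (x ++ z) (x ++ y) := h'.symm.appL x (by omega)
  have a2 : E R C (y ++ x) (z ++ x) := h'.appR x (by omega)
  exact (a1.trans (E.mono h (by omega))).trans a2

/-- Commutation with all letters of a word. -/
lemma Cm.letters {A : ℕ} {x : List (α × Bool)} {l : List (α × Bool)}
    (h : ∀ p ∈ l, Cm R A x [p]) (hA : x.length ≤ A) : Cm R (A + l.length) x l := by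
  induction l with
  | nil => exact Cm.nil (by simpa using hA)
  | cons p l ih =>
    have h1 := h p (by simp)
    have h2 := ih fun q hq => h q (by simp [hq])
    exact Cm.mul_right (y := [p]) (z := l) h1 h2 (by simp only [List.length_cons, List.length_nil]; omega)

end Tools

end Pool.Agent.BH
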