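import Pool.Agent.BH.MDefs

set_option autoImplicit false

/-!
# Module M, section ME1: the amalgam
-/

namespace Pool.Agent.BH

open Monoid

attribute [-simp] FreeGroup.mul_mk FreeGroup.inv_mk

namespace Dat

variable {𝔇 : Dat}

namespace ME1

/-- A letter of the first vertex group. -/
def lK (k : 𝔇.Kz) : Σ b, 𝔇.GG b := ⟨true, k⟩

/-- A letter of the second vertex group. -/
def lT (τ : A5) : Σ b, 𝔇.GG b := ⟨false, (SemidirectProduct.inr τ : 𝔇.MT)⟩

/-- The alternating list of letters. -/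
def alt : List (𝔇.Kz × A5) → List (Σ b, 𝔇.GG b)
  | [] => []
  | p :: l => lK p.1 :: lT p.2 :: alt l

/-- The value of a list of letters. -/
noncomputable def pv (l : List (Σ b, 𝔇.GG b)) : 𝔇.Md :=
  (l.map fun g => PushoutI.of (φ := 𝔇.φφ) g.1 g.2).prod

lemma pv_nil : pv ([] : List (Σ b, 𝔇.GG b)) = 1 := rfl

lemma pv_cons (g : Σ b, 𝔇.GG b) (l : List (Σ b, 𝔇.GG b)) :
    pv (g :: l) = PushoutI.of (φ := 𝔇.φφ) g.1 g.2 * pv l := by
  simp [pv]

lemma pv_append (l l' : List (Σ b, 𝔇.GG b)) : pv (l ++ l') = pv l * pv l' := by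
  simp [pv]

lemma pv_alt (l : List (𝔇.Kz × A5)) : pv (alt l) =
    (l.map fun p => 𝔇.oZ p.1 * 𝔇.oT (SemidirectProduct.inr p.2)).prod := by
  induction l with
  | nil => rfl
  | cons p l ih =>
    rw [alt, pv_cons, pv_cons, ih, List.map_cons, List.prod_cons, mul_assoc]
    rfl

lemma chain_alt (l : List (𝔇.Kz × A5)) (τ : A5) (t : List (Σ b, 𝔇.GG b))
    (ht : (lT τ :: t).IsChain fun g g' => g.1 ≠ g'.1) (ht' : ∀ σ : A5,
      (lT σ :: t).IsChain fun g g' => g.1 ≠ g'.1) :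
    (lT τ :: (alt l ++ t)).IsChain fun g g' => g.1 ≠ g'.1 := by
  induction l generalizing τ with
  | nil => exact ht
  | cons p l ih =>
    have h1 := ih p.2 (ht' p.2)
    refine List.isChain_cons_cons.mpr ⟨?_, ?_⟩
    · change false ≠ true
      decide
    · refine List.isChain_cons_cons.mpr ⟨?_, h1⟩
      change true ≠ false
      decide

lemma lT_range {τ : A5} (h : τ ≠ 1) : (lT (𝔇 := 𝔇) τ).2 ∉ (𝔇.φφ (lT (𝔇 := 𝔇) τ).1).range := by
  rintro ⟨x, hx⟩
  change (SemidirectProduct.inl x : 𝔇.MT) = SemidirectProduct.inr τ at hx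
  have := congrArg SemidirectProduct.right hx
  simp only [SemidirectProduct.right_inl, SemidirectProduct.right_inr] at this
  exact h this.symm

lemma lK_range {k : 𝔇.Kz} (h : k ∉ 𝔇.θ.range) : (lK k).2 ∉ (𝔇.φφ (lK k).1).range := h

lemma φφ_inj (hθ : Function.Injective 𝔇.θ) : ∀ b, Function.Injective (𝔇.φφ b)
  | true => hθ
  | false => SemidirectProduct.inl_injective

/-- A nonempty alternating list of letters outside the base group has value outside the base
group. -/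
lemma not_base (hθ : Function.Injective 𝔇.θ) (l : List (Σ b, 𝔇.GG b)) (hl : l ≠ [])
    (hr : ∀ g ∈ l, g.2 ∉ (𝔇.φφ g.1).range) (hc : l.IsChain fun g g' => g.1 ≠ g'.1)
    (h : pv l ∈ (PushoutI.base 𝔇.φφ).range) : False := by
  let w : CoprodI.Word 𝔇.GG := ⟨l, fun g hg h1 => hr g hg (by rw [h1]; exact one_mem _), hc⟩
  have hw : PushoutI.Reduced 𝔇.φφ w := hr
  have hp : PushoutI.ofCoprodI (φ := 𝔇.φφ) w.prod = pv l := by
    rw [CoprodI.Word.prod, map_list_prod, List.map_map]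
    rfl
  have := hw.eq_empty_of_mem_range (φφ_inj hθ) (by rw [hp]; exact h)
  exact hl (congrArg CoprodI.Word.toList this)

end ME1

open ME1 in
/-- The normal form theorem for the amalgam, given that `θ` is injective. -/
theorem amalgam_of (hθ : Function.Injective 𝔇.θ) (l : List (𝔇.Kz × A5)) (k : 𝔇.Kz) (hl : l ≠ [])
    (h : (l.map fun p => 𝔇.oZ p.1 * 𝔇.oT (SemidirectProduct.inr p.2)).prod * 𝔇.oZ k = 1) :
    (∃ p ∈ l, p.2 = 1) ∨
      ∃ l1 a b l2, l = l1 ++ a :: b :: l2 ∧ b.1 ∈ 𝔇.θ.range := by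
  by_contra hcon
  push Not at hcon
  obtain ⟨h1, h2⟩ := hcon
  obtain ⟨p, l', rfl⟩ := List.exists_cons_of_ne_nil hl
  have h3 : ∀ q ∈ l', q.1 ∉ 𝔇.θ.range := by
    intro q hq
    obtain ⟨s, t, rfl⟩ := List.append_of_mem hq
    rcases List.eq_nil_or_concat s with rfl | ⟨s', a, rfl⟩
    · exact h2 [] p q t rfl
    · exact h2 (p :: s') a q t (by simp)
  have h4 : ∀ g ∈ (lT p.2 :: alt l'), g.2 ∉ (𝔇.φφ g.1).range := by
    intro g hg
    rcases List.mem_cons.mp hg with rfl | hg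
    · exact lT_range (h1 p List.mem_cons_self)
    · have h5 : ∀ q ∈ l', q.2 ≠ 1 := fun q hq => h1 q (List.mem_cons_of_mem _ hq)
      clear h h1 h2 hl
      induction l' with
      | nil => simp [alt] at hg
      | cons q l' ih =>
        rw [alt] at hg
        rcases List.mem_cons.mp hg with rfl | hg
        · exact lK_range (h3 q List.mem_cons_self)
        · rcases List.mem_cons.mp hg with rfl | hg
          · exact lT_range (h5 q List.mem_cons_self)
          · exact ih (fun r hr => h3 r (List.mem_cons_of_mem _ hr))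
              (List.mem_cons_of_mem _ hg) hg (fun r hr => h5 r (List.mem_cons_of_mem _ hr))
  have h5 : 𝔇.oZ p.1 * pv (lT p.2 :: alt l') * 𝔇.oZ k = 1 := by
    rw [pv_cons, pv_alt, ← h, List.map_cons, List.prod_cons]
    simp only [mul_assoc]
    rfl
  have h6 : pv (lT p.2 :: alt l') = 𝔇.oZ (p.1⁻¹ * k⁻¹) := by
    rw [map_mul, map_inv, map_inv]
    exact eq_inv_mul_of_mul_eq (mul_eq_one_iff_eq_inv.mp h5)
  have hnil : ∀ σ : A5, ([lT σ] : List (Σ b, 𝔇.GG b)).IsChain fun g g' => g.1 ≠ g'.1 :=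
    fun σ => List.isChain_singleton _
  by_cases hx : p.1⁻¹ * k⁻¹ ∈ 𝔇.θ.range
  · obtain ⟨y, hy⟩ := hx
    refine not_base hθ (lT p.2 :: alt l') (List.cons_ne_nil _ _) h4 ?_ ⟨y, ?_⟩
    · have := chain_alt l' p.2 [] (hnil _) hnil
      rwa [List.append_nil] at this
    · rw [h6, ← hy, ← PushoutI.of_apply_eq_base 𝔇.φφ true y]
      rfl
  · have hx' : (p.1⁻¹ * k⁻¹)⁻¹ ∉ 𝔇.θ.range := fun h => hx (by
      have := inv_mem h
      rwa [_root_.inv_inv] at this)
    have hc1 : ∀ σ : A5, ([lT σ, lK (p.1⁻¹ * k⁻¹)⁻¹] : List (Σ b, 𝔇.GG b)).IsChain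
        fun g g' => g.1 ≠ g'.1 := by
      intro σ
      refine List.isChain_cons_cons.mpr ⟨?_, List.isChain_singleton _⟩
      change false ≠ true
      decide
    refine not_base hθ (lT p.2 :: (alt l' ++ [lK (p.1⁻¹ * k⁻¹)⁻¹])) (List.cons_ne_nil _ _) ?_
      (chain_alt l' p.2 _ (hc1 _) hc1) ⟨1, ?_⟩
    · intro g hg
      rw [← List.cons_append] at hg
      rcases List.mem_append.mp hg with hg | hg
      · exact h4 g hg
      · rw [List.mem_singleton] at hg
        rw [hg]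
        exact lK_range hx'
    · rw [map_one, ← List.cons_append, pv_append, h6, pv_cons, pv_nil, mul_one]
      change 1 = 𝔇.oZ (p.1⁻¹ * k⁻¹) * 𝔇.oZ (p.1⁻¹ * k⁻¹)⁻¹
      rw [← map_mul, mul_inv_cancel, map_one]

end Dat

end Pool.Agent.BH
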