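import Pool.Agent.BH.ME1
import Pool.Agent.BH.MD2

set_option autoImplicit false

/-!
# Module M, section ME1: the amalgam, with the injectivity of `θ` from section MD2
-/

namespace Pool.Agent.BH

namespace Dat

variable {𝔇 : Dat}

theorem amalgam (hg : 𝔇.Good) (l : List (𝔇.Kz × A5)) (k : 𝔇.Kz) (hl : l ≠ [])
    (h : (l.map fun p => 𝔇.oZ p.1 * 𝔇.oT (SemidirectProduct.inr p.2)).prod * 𝔇.oZ k = 1) :
    (∃ p ∈ l, p.2 = 1) ∨
      ∃ l1 a b l2, l = l1 ++ a :: b :: l2 ∧ b.1 ∈ 𝔇.θ.range :=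
  amalgam_of (θ_inj hg) l k hl h

end Dat

end Pool.Agent.BH
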