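import Pool.Agent.BH.MA
import Pool.Agent.BH.MC2
import Pool.Agent.BH.MD1
import Pool.Agent.BH.MD2
import Pool.Agent.BH.MD4
import Pool.Agent.BH.ME1

set_option autoImplicit false

/-!
# Module ME2: the final induction
-/

namespace Pool.Agent.BH

open Monoid

attribute [-simp] FreeGroup.mul_mk FreeGroup.inv_mk

namespace Dat

namespace ME2

variable {𝔇 : Dat}

/-! ### Concatenation of segments -/

/-- Concatenation of segments. -/
def mg (s s' : 𝔇.Seg) : 𝔇.Seg :=
  (s.1 ++ s'.1.map (fun i => (s.2 ++ i.1, i.2)), s.2 ++ s'.2)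

lemma mk_itsZ_map (x : 𝔇.KW) (I : List 𝔇.ZI) :
    FreeGroup.mk (itsZ (I.map fun i => (x ++ i.1, i.2))) =
      FreeGroup.mk (𝔇.kW x) * FreeGroup.mk (itsZ I) * (FreeGroup.mk (𝔇.kW x))⁻¹ := by
  induction I with
  | nil => simp [itsZ]
  | cons i I ih =>
    have h1 : itsZ ((i :: I).map fun i => (x ++ i.1, i.2)) =
        itZ (x ++ i.1, i.2) ++ itsZ (I.map fun i => (x ++ i.1, i.2)) := by simp [itsZ]
    have h2 : itsZ (i :: I) = itZ i ++ itsZ I := by simp [itsZ]
    rw [h1, h2, mk_append, mk_append, ih]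
    have h3 : FreeGroup.mk (itZ (𝔇 := 𝔇) (x ++ i.1, i.2)) =
        FreeGroup.mk (𝔇.kW x) * FreeGroup.mk (itZ i) * (FreeGroup.mk (𝔇.kW x))⁻¹ := by
      simp only [itZ, pw, mk_cj, kW_append, mk_append]
      group
    rw [h3]
    group

lemma mk_sgW_mg (s s' : 𝔇.Seg) :
    FreeGroup.mk (sgW (mg s s')) = FreeGroup.mk (sgW s ++ sgW s') := by
  have h1 : sgW (mg s s') = itsZ s.1 ++ itsZ (s'.1.map fun i => (s.2 ++ i.1, i.2)) ++
      (𝔇.kW s.2 ++ 𝔇.kW s'.2) := by
    simp [sgW, mg, itsZ]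
  rw [h1]
  simp only [sgW, mk_append, mk_itsZ_map]
  group

lemma Bd_mg {n X wt wt' : ℕ} {s s' : 𝔇.Seg} (h : Bd n X wt s) (h' : Bd n X wt' s') :
    Bd n X (wt + wt') (mg s s') where
  len := by
    have h1 := h.len
    have h2 := h'.len
    simp only [mg, List.length_append, List.length_map]
    omega
  klen := by
    have h1 := h.klen
    have h2 := h'.klen
    simp only [mg, List.length_append]
    omega
  knm := by
    have h1 := h.knm
    have h2 := h'.knm
    simp only [mg, nm_append]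
    rw [Nat.mul_add]
    omega
  ilen := by
    intro i hi
    simp only [mg, List.mem_append, List.mem_map] at hi
    rcases hi with hi | ⟨j, hj, rfl⟩
    · have := h.ilen i hi
      omega
    · have h1 := h.klen
      have h2 := h'.ilen j hj
      simp only [List.length_append]
      omega
  inm := by
    intro i hi
    simp only [mg, List.mem_append, List.mem_map] at hi
    rcases hi with hi | ⟨j, hj, rfl⟩
    · have := h.inm i hi
      omega
    · have h1 := h.knm
      have h2 := h'.inm j hj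
      simp only [nm_append]
      rw [Nat.mul_add]
      omega
  iexp := by
    intro i hi
    simp only [mg, List.mem_append, List.mem_map] at hi
    rcases hi with hi | ⟨j, hj, rfl⟩
    · exact h.iexp i hi
    · exact h'.iexp j hj
  iu := by
    intro i hi
    simp only [mg, List.mem_append, List.mem_map] at hi
    rcases hi with hi | ⟨j, hj, rfl⟩
    · exact h.iu i hi
    · exact h'.iu j hj

lemma Bd_empty (n X : ℕ) : Bd n X 0 (([], []) : 𝔇.Seg) where
  len := by simp
  klen := by simp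
  knm := by simp
  ilen := by simp
  inm := by simp
  iexp := by simp
  iu := by simp

/-! ### Lengths -/

lemma gK_length (k : ℕ) : (gK k : 𝔇.KW).length = 2 * k := by
  simp [gK]; omega

lemma mK_length (u : List (Option 𝔇.J)) :
    (mK u : 𝔇.KW).length = 4 * u.length + 2 * 𝔇.pb.length + 2 * 𝔇.pt.length + 4 := by
  simp [mK, cj_length]; omega

lemma nm_gK (k : ℕ) : nm (gK k : 𝔇.KW) = 0 := by
  have h : ∀ p ∈ (gK k : 𝔇.KW), p = (KG.w, true) ∨ p = (KG.v, true) := by
    intro p hp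
    simp only [gK, List.mem_flatten, List.mem_replicate] at hp
    obtain ⟨l, ⟨-, rfl⟩, hp⟩ := hp
    simpa using hp
  have h1 : nQ (gK k : 𝔇.KW) = 0 := by
    rw [nQ, List.countP_eq_zero]
    intro p hp
    rcases h p hp with rfl | rfl <;> simp
  have h2 : nS (gK k : 𝔇.KW) = 0 := by
    rw [nS, List.countP_eq_zero]
    intro p hp
    rcases h p hp with rfl | rfl <;> simp
  simp [nm, h1, h2]

lemma nm_mK (u : List (Option 𝔇.J)) : nm (mK u : 𝔇.KW) = 4 * u.length := by
  have h1 : ∀ l : List 𝔇.B, nm (𝔇 := 𝔇) (l.map fun β => (KG.y (.b β), true)) = 0 := by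
    intro l
    induction l with
    | nil => rfl
    | cons a l ih =>
      simp only [nm, nQ, nS, List.map_cons, List.countP_cons] at ih ⊢
      simp
  have h2 : nm (𝔇 := 𝔇) (u.map fun σ => (KG.y (.s σ), true)) = u.length := by
    induction u with
    | nil => rfl
    | cons a l ih =>
      simp only [nm, nQ, nS, List.map_cons, List.countP_cons, List.length_cons] at ih ⊢
      simp only [Bool.false_eq_true, if_false, if_true]
      omega
  have h3 : nm (𝔇 := 𝔇) [(KG.y .r, true)] = 0 := rfl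
  have h4 : ∀ ε, nm (𝔇 := 𝔇) [(KG.e, ε)] = 0 := fun ε => rfl
  simp only [mK, cj, nm_append, nm_inv, h1, h2, h3, h4]
  omega

lemma zD_length {n X : ℕ} (hX : 𝔇.Big n X) {d : 𝔇.PD} (h1 : d.1 ≤ X)
    (h2 : ∀ u ∈ d.2, rr * u.length ≤ n) : (zD d).length ≤ 7 * X := by
  have hn := hX.hn
  have hpt := hX.hpt
  have hpb := hX.hpb
  have h1000 := hX.h1000
  rcases d with ⟨k, _ | u⟩
  · simp only [zD, List.append_nil, gK_length]
    simp only at h1
    omega
  · have h3 := h2 u rfl
    simp only [zD, List.length_append, gK_length, mK_length]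
    simp only at h1
    simp only [rr] at h3
    omega

lemma pw_length {n X wt : ℕ} (hX : 𝔇.Big n X) (hwt : wt ≤ n) {s : 𝔇.Seg} (hs : Bd n X wt s)
    {i : 𝔇.ZI} (hi : i ∈ s.1) : (pw i).length ≤ 8 * X := by
  have h1 := hs.ilen i hi
  have h2 := zD_length hX (hs.iexp i hi) (hs.iu i hi)
  have hn := hX.hn
  simp only [pw, List.length_append]
  omega

lemma zD_nm {n : ℕ} {d : 𝔇.PD} (h2 : ∀ u ∈ d.2, rr * u.length ≤ n) :
    16 * nm (zD d) ≤ n := by
  rcases d with ⟨k, _ | u⟩
  · simp [zD, nm_gK]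
  · have h3 := h2 u rfl
    simp only [zD, nm_append, nm_gK, nm_mK]
    simp only [rr] at h3
    omega

lemma pw_nm {n X wt : ℕ} (hn0 : 0 < n) (hwt : wt ≤ n) {s : 𝔇.Seg} (hs : Bd n X wt s)
    {i : 𝔇.ZI} (hi : i ∈ s.1) : 8 * nm (pw i) < n := by
  have h1 := hs.inm i hi
  have h2 := zD_nm (hs.iu i hi)
  simp only [pw, nm_append]
  simp only [rr] at h1
  omega

lemma itZ_length (i : 𝔇.ZI) : (itZ i).length = 2 * (pw i).length + 1 := by
  simp [itZ, cj_length]

lemma itsZ_length {Y : ℕ} (I : List 𝔇.ZI) (h : ∀ i ∈ I, (pw i).length ≤ Y) :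
    (itsZ I).length ≤ I.length * (2 * Y + 1) := by
  induction I with
  | nil => simp [itsZ]
  | cons i I ih =>
    have h2 : itsZ (i :: I) = itZ i ++ itsZ I := by simp [itsZ]
    have h3 := ih fun j hj => h j (List.mem_cons_of_mem _ hj)
    have h4 := h i (by simp)
    rw [h2, List.length_append, itZ_length, List.length_cons, Nat.add_mul]
    omega

lemma sgW_length {n X wt : ℕ} (hX : 𝔇.Big n X) (hwt : wt ≤ n) {s : 𝔇.Seg} (hs : Bd n X wt s) :
    (sgW s).length ≤ wt * (17 * X) := by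
  have h1 := itsZ_length s.1 fun i hi => pw_length hX hwt hs hi
  have h2 := hs.len
  have h3 := hs.klen
  have h1000 := hX.h1000
  have h4 : s.1.length * (2 * (8 * X) + 1) ≤ wt * (2 * (8 * X) + 1) := Nat.mul_le_mul_right _ h2
  simp only [sgW, List.length_append, kW_length]
  have h5 : wt * (2 * (8 * X) + 1) + wt ≤ wt * (17 * X) := by
    have : wt * (2 * (8 * X) + 1) + wt = wt * (2 * (8 * X) + 2) := by ring
    rw [this]
    apply Nat.mul_le_mul_left
    omega
  omega

/-! ### States -/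

/-- A part of a state: a segment, its weight and a letter `t`. -/
abbrev Pt (𝔇 : Dat) := (𝔇.Seg × ℕ) × A5

/-- The word of the parts. -/
def ptW (l : List (Pt 𝔇)) : 𝔇.WW := l.flatMap fun p => sgW p.1.1 ++ [(.t p.2, true)]

@[simp] lemma ptW_nil : ptW ([] : List (Pt 𝔇)) = [] := rfl

lemma ptW_cons (p : Pt 𝔇) (l : List (Pt 𝔇)) :
    ptW (p :: l) = sgW p.1.1 ++ [(.t p.2, true)] ++ ptW l := by
  simp [ptW]

@[simp] lemma ptW_append (l l' : List (Pt 𝔇)) : ptW (l ++ l') = ptW l ++ ptW l' := by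
  simp [ptW]

/-- The weight of the parts. -/
def ptN (l : List (Pt 𝔇)) : ℕ := (l.map fun p => p.1.2 + 1).sum

@[simp] lemma ptN_nil : ptN ([] : List (Pt 𝔇)) = 0 := rfl

@[simp] lemma ptN_cons (p : Pt 𝔇) (l : List (Pt 𝔇)) : ptN (p :: l) = p.1.2 + 1 + ptN l := by
  simp [ptN]

@[simp] lemma ptN_append (l l' : List (Pt 𝔇)) : ptN (l ++ l') = ptN l + ptN l' := by
  simp [ptN]

lemma ptW_length {n X : ℕ} (hX : 𝔇.Big n X) (l : List (Pt 𝔇)) (hl : ∀ p ∈ l, Bd n X p.1.2 p.1.1)
    (hn : ptN l ≤ n) : (ptW l).length ≤ ptN l * (17 * X) := by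
  induction l with
  | nil => simp
  | cons p l ih =>
    have h1000 := hX.h1000
    rw [ptN_cons] at hn
    have h1 := ih (fun q hq => hl q (List.mem_cons_of_mem _ hq)) (by omega)
    have h2 := sgW_length hX (by omega) (hl p (by simp))
    rw [ptW_cons, ptN_cons, List.length_append, List.length_append, List.length_singleton,
      Nat.add_mul, Nat.add_mul]
    omega

/-- The whole word. -/
def stW (l : List (Pt 𝔇)) (k : 𝔇.Seg × ℕ) : 𝔇.WW := ptW l ++ sgW k.1

/-- The values of the parts. -/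
def ptV (l : List (Pt 𝔇)) : List (𝔇.Kz × A5) := l.map fun p => (evS p.1.1, p.2)

lemma π_ptW (l : List (Pt 𝔇)) : 𝔇.π (FreeGroup.mk (ptW l)) =
    ((ptV l).map fun p => 𝔇.oZ p.1 * 𝔇.oT (SemidirectProduct.inr p.2)).prod := by
  unfold ptV
  induction l with
  | nil => simp
  | cons p l ih =>
    rw [ptW_cons, mk_append, mk_append, map_mul, map_mul, ih, π_noT (noT_sgW _), evZ_sgW]
    have : 𝔇.π (FreeGroup.mk [(.t p.2, true)]) = 𝔇.oT (SemidirectProduct.inr p.2) := by
      rw [mk_true, π, FreeGroup.lift_apply_of]; rfl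
    rw [this]
    simp [mul_assoc]

lemma π_stW (l : List (Pt 𝔇)) (k : 𝔇.Seg × ℕ) : 𝔇.π (FreeGroup.mk (stW l k)) =
    ((ptV l).map fun p => 𝔇.oZ p.1 * 𝔇.oT (SemidirectProduct.inr p.2)).prod *
      𝔇.oZ (evS k.1) := by
  rw [stW, mk_append, map_mul, π_ptW, π_noT (noT_sgW _), evZ_sgW]

/-! ### Derivations with the letters `t` and `z` -/

lemma E_tt (n : ℕ) (a b : A5) :
    E (𝔇.Rn n) 4 [(.t a, true), (.t b, true)] [(.t (a * b), true)] := by
  refine E.of_mul_inv (A := 3) (𝔇.Rn_free n) ?_ (by simp)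
  exact E.rel (Sys.Rel.a _ (Sys.RelA.tt a b)) (by simp)

lemma E_t_one (n : ℕ) : E (𝔇.Rn n) 4 [(.t (1 : A5), true)] [] := by
  have h1 : E (𝔇.Rn n) 4 [(.t (1 : A5), true)]
      [(.t (1 : A5), true), (.t (1 : A5), true), (.t ((1 : A5) * 1), false)] := by
    refine E.free (𝔇.Rn_free n) ?_ (by simp) (by simp)
    rw [mul_one]
    simp only [mk_cons2, mk_true, mk_false]
    group
  exact h1.trans (E.rel (Sys.Rel.a _ (Sys.RelA.tt 1 1)) (by simp))

lemma E_t_inv (n : ℕ) (a : A5) : E (𝔇.Rn n) 6 [(.t a, false)] [(.t a⁻¹, true)] := by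
  have h1 : E (𝔇.Rn n) 6 [(.t a, false)] ([(.t a, false)] ++ [(.t a, true), (.t a⁻¹, true)]) := by
    have h2 := ((E_tt (𝔇 := 𝔇) n a a⁻¹).trans (by
      rw [mul_inv_cancel]; exact E_t_one n)).symm.appL (B := 6) [(.t a, false)] (by simp)
    simpa using h2
  refine h1.trans (E.free (𝔇.Rn_free n) ?_ (by simp) (by simp))
  simp only [mk_append, mk_cons2, mk_true, mk_false]
  group

lemma E_z_one (n : ℕ) : E (𝔇.Rn n) 4 [(.z (1 : A5), true)] [] := by
  have h1 : E (𝔇.Rn n) 4 [(.z (1 : A5), true)]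
      [(.z (1 : A5), true), (.z (1 : A5), true), (.z ((1 : A5) * 1), false)] := by
    refine E.free (𝔇.Rn_free n) ?_ (by simp) (by simp)
    rw [mul_one]
    simp only [mk_cons2, mk_true, mk_false]
    group
  exact h1.trans (E.rel (Sys.Rel.a _ (Sys.RelA.zz 1 1)) (by simp))

lemma E_zz (n : ℕ) (a b : A5) :
    E (𝔇.Rn n) 4 [(.z a, true), (.z b, true)] [(.z (a * b), true)] := by
  refine E.of_mul_inv (A := 3) (𝔇.Rn_free n) ?_ (by simp)
  exact E.rel (Sys.Rel.a _ (Sys.RelA.zz a b)) (by simp)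

lemma E_z_inv (n : ℕ) (a : A5) : E (𝔇.Rn n) 6 [(.z a, false)] [(.z a⁻¹, true)] := by
  have h1 : E (𝔇.Rn n) 6 [(.z a, false)] ([(.z a, false)] ++ [(.z a, true), (.z a⁻¹, true)]) := by
    have h2 := ((E_zz (𝔇 := 𝔇) n a a⁻¹).trans (by
      rw [mul_inv_cancel]; exact E_z_one n)).symm.appL (B := 6) [(.z a, false)] (by simp)
    simpa using h2
  refine h1.trans (E.free (𝔇.Rn_free n) ?_ (by simp) (by simp))
  simp only [mk_append, mk_cons2, mk_true, mk_false]
  group

/-! ### The induction -/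

lemma φφ_inj (hg : 𝔇.Good) : ∀ b, Function.Injective (𝔇.φφ b)
  | true => θ_inj hg
  | false => SemidirectProduct.inl_injective

lemma oZ_inj (hg : 𝔇.Good) : Function.Injective 𝔇.oZ :=
  PushoutI.of_injective (φφ_inj hg) true

/-- The last step: a segment with trivial value. -/
lemma last {n X : ℕ} (hX : 𝔇.Big n X) (hn0 : 0 < n) {k : 𝔇.Seg × ℕ} (hk : Bd n X k.2 k.1)
    (hkn : k.2 ≤ n) (h : evS k.1 = 1) : E (𝔇.Rn n) (X ^ 9) (sgW k.1) [] := by
  have hX0 := hX.h1000
  have hnX := hX.hn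
  have h1 : pr (vlZ k.1.1) = 1 := by
    have := congrArg (fun x : 𝔇.Kz => x.left) h
    simpa [evS] using this
  have h2 : evK k.1.2 = 1 := by
    have := congrArg (fun x : 𝔇.Kz => x.right) h
    simpa [evS] using this
  obtain ⟨I', -, -, h3, h4, h5⟩ := its_red hX k.1.1 (by have := hk.len; omega)
    (fun i hi => ⟨pw_length hX hkn hk hi, pw_nm hn0 hkn hk hi⟩)
  have h6 : vlZ I' = [] := by
    rw [h1] at h4
    exact h3.inj Rd.nil h4
  have h7 : I' = [] := by
    rcases I' with _ | ⟨i, I'⟩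
    · rfl
    · simp [vlZ] at h6
  subst h7
  have h8 : 2 * nm k.1.2 < n := by
    have := hk.knm
    simp only [rr] at this
    omega
  have h9 := K0 k.1.2 h2 h8
  have h10 := hk.klen
  have e1 : (100 * (k.1.2.length + 4) ^ 2) ≤ X ^ 4 := by
    have : k.1.2.length + 4 ≤ 2 * X := by omega
    calc 100 * (k.1.2.length + 4) ^ 2 ≤ 100 * (2 * X) ^ 2 := by gcongr
      _ = 400 * X ^ 2 := by ring
      _ ≤ X ^ 2 * X ^ 2 := by
        apply Nat.mul_le_mul_right
        nlinarith
      _ = X ^ 4 := by ring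
  have h11 : E (𝔇.Rn n) (X ^ 9) (sgW k.1) (𝔇.kW k.1.2) := by
    have := h5.appR (B := X ^ 9) (𝔇.kW k.1.2) (by
      rw [kW_length]
      have h12 : k.1.2.length ≤ X ^ 8 := by
        calc k.1.2.length ≤ X := by omega
          _ ≤ X ^ 8 := Nat.le_self_pow (by norm_num) X
      calc X ^ 8 + k.1.2.length ≤ X ^ 8 + X ^ 8 := by omega
        _ = 2 * X ^ 8 := by ring
        _ ≤ X * X ^ 8 := Nat.mul_le_mul_right _ (by omega)
        _ = X ^ 9 := by ring)
    simpa [sgW, itsZ] using this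
  exact h11.trans (h9.mono (e1.trans (Nat.pow_le_pow_right (by omega) (by norm_num))))

lemma pow_bound {X A B : ℕ} (hX : 1000 ≤ X) (hA : A ≤ X ^ 9) (hB : B ≤ 40 * X ^ 2) :
    A + B ≤ X ^ 10 := by
  have h1 : 40 * X ^ 2 ≤ X ^ 9 := by
    calc 40 * X ^ 2 ≤ X ^ 7 * X ^ 2 := by
          apply Nat.mul_le_mul_right
          calc 40 ≤ X := by omega
            _ ≤ X ^ 7 := Nat.le_self_pow (by norm_num) X
      _ = X ^ 9 := by ring
  calc A + B ≤ X ^ 9 + X ^ 9 := by omega
    _ = 2 * X ^ 9 := by ring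
    _ ≤ X * X ^ 9 := Nat.mul_le_mul_right _ (by omega)
    _ = X ^ 10 := by ring

/-- A letter `t` with the trivial index joins two segments. -/
lemma join {n X : ℕ} (hX : 𝔇.Big n X) {s s' : 𝔇.Seg} {wt wt' : ℕ} (hs : Bd n X wt s)
    (hs' : Bd n X wt' s') (hn : wt + wt' ≤ n) :
    E (𝔇.Rn n) (X ^ 9) (sgW s ++ [(.t (1 : A5), true)] ++ sgW s') (sgW (mg s s')) := by
  have hX0 := hX.h1000
  have hnX := hX.hn
  have h1 := sgW_length hX (by omega) hs
  have h2 := sgW_length hX (by omega) hs'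
  have h3 := sgW_length hX hn (Bd_mg hs hs')
  have h4 : (wt + wt') * (17 * X) ≤ 17 * X ^ 2 := by
    calc (wt + wt') * (17 * X) ≤ X * (17 * X) := Nat.mul_le_mul_right _ (by omega)
      _ = 17 * X ^ 2 := by ring
  have h5 : (wt + wt') * (17 * X) = wt * (17 * X) + wt' * (17 * X) := by ring
  have h6 : 4 + 17 * X ^ 2 ≤ X ^ 9 := by
    calc 4 + 17 * X ^ 2 ≤ 18 * X ^ 2 := by nlinarith
      _ ≤ X ^ 7 * X ^ 2 := by
        apply Nat.mul_le_mul_right
        calc 18 ≤ X := by omega
          _ ≤ X ^ 7 := Nat.le_self_pow (by norm_num) X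
      _ = X ^ 9 := by ring
  have e1 : E (𝔇.Rn n) (X ^ 9) (sgW s ++ [(.t (1 : A5), true)] ++ sgW s')
      (sgW s ++ [] ++ sgW s') := (E_t_one n).ctx _ _ (by omega)
  refine e1.trans (E.free (𝔇.Rn_free n) ?_ ?_ ?_)
  · rw [mk_sgW_mg, List.append_nil]
  · simp only [List.append_nil, List.length_append]; omega
  · omega

/-- The T-step in a word. -/
lemma step {n X : ℕ} (hX : 𝔇.Big n X) (hg : 𝔇.Good) (hn0 : 0 < n) {s s' : 𝔇.Seg} {wt wt' : ℕ}
    (hs : Bd n X wt s) (hs' : Bd n X wt' s') (hn : wt + wt' ≤ n) (τ τ' : A5)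
    (hθ : evS s' ∈ 𝔇.θ.range) : ∃ s'' : 𝔇.Seg, Bd n X (wt + wt') s'' ∧
      E (𝔇.Rn n) (X ^ 10) (sgW s ++ [(.t τ, true)] ++ sgW s' ++ [(.t τ', true)])
        (sgW s'' ++ [(.t (τ * τ'), true)]) := by
  have hX0 := hX.h1000
  have hnX := hX.hn
  obtain ⟨μ, hμ⟩ := hθ
  obtain ⟨r, hr, -, he⟩ := T_step hX hg hn0 (by omega) hs' hμ.symm τ
  refine ⟨mg s r, Bd_mg hs hr, ?_⟩
  have h1 := sgW_length hX (by omega) hs
  have h2 := sgW_length hX (by omega) hs'
  have h2' := sgW_length hX (by omega) hr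
  have h3 := sgW_length hX hn (Bd_mg hs hr)
  have h4 : (wt + wt') * (17 * X) ≤ 17 * X ^ 2 := by
    calc (wt + wt') * (17 * X) ≤ X * (17 * X) := Nat.mul_le_mul_right _ (by omega)
      _ = 17 * X ^ 2 := by ring
  have h5 : (wt + wt') * (17 * X) = wt * (17 * X) + wt' * (17 * X) := by ring
  have hX2 : 10 ≤ X ^ 2 := by nlinarith
  have hb : ∀ A B : ℕ, A ≤ X ^ 9 → B ≤ 40 * X ^ 2 → A + B ≤ X ^ 10 := fun A B => pow_bound hX0
  have h40 : ∀ B : ℕ, B ≤ 40 * X ^ 2 → B ≤ X ^ 10 := fun B hB => by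
    have := hb 0 B (Nat.zero_le _) hB
    omega
  -- insert `t⁻¹ t`
  have e1 : E (𝔇.Rn n) (X ^ 10) (sgW s ++ [(.t τ, true)] ++ sgW s' ++ [(.t τ', true)])
      (sgW s ++ ([(.t τ, true)] ++ sgW s' ++ [(.t τ, false)]) ++
        ([(.t τ, true), (.t τ', true)])) := by
    refine E.free (𝔇.Rn_free n) ?_ ?_ ?_
    · simp only [mk_append, mk_cons2, mk_true, mk_false]
      group
    · apply h40
      simp only [List.length_append, List.length_cons, List.length_nil]
      omega
    · apply h40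
      simp only [List.length_append, List.length_cons, List.length_nil]
      omega
  have e2 : E (𝔇.Rn n) (X ^ 10) (sgW s ++ ([(.t τ, true)] ++ sgW s' ++ [(.t τ, false)]) ++
        ([(.t τ, true), (.t τ', true)])) (sgW s ++ sgW r ++ [(.t τ, true), (.t τ', true)]) := by
    refine he.ctx _ _ ?_
    rw [Nat.add_assoc]
    apply hb _ _ le_rfl
    simp only [List.length_cons, List.length_nil]
    omega
  have e3 : E (𝔇.Rn n) (X ^ 10) (sgW s ++ sgW r ++ [(.t τ, true), (.t τ', true)])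
      (sgW s ++ sgW r ++ [(.t (τ * τ'), true)]) := by
    refine (E_tt n τ τ').appL _ ?_
    apply h40
    simp only [List.length_append]
    omega
  refine ((e1.trans e2).trans e3).trans (E.free (𝔇.Rn_free n) ?_ ?_ ?_)
  · rw [mk_append, mk_append _ [(Gen.t (τ * τ'), true)], mk_sgW_mg]
  · exact e3.right
  · apply h40
    simp only [List.length_append, List.length_cons, List.length_nil]
    omega

/-- Derivations inside states. -/
lemma in_state {n X : ℕ} (hX : 𝔇.Big n X) {x y : 𝔇.WW} (h : E (𝔇.Rn n) (X ^ 10) x y)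
    (p q : 𝔇.WW) (hp : p.length ≤ 17 * X ^ 2) (hq : q.length ≤ 17 * X ^ 2) :
    E (𝔇.Rn n) (X ^ 11) (p ++ x ++ q) (p ++ y ++ q) := by
  have hX0 := hX.h1000
  refine h.ctx _ _ ?_
  have h1 : 34 * X ^ 2 ≤ X ^ 10 := by
    calc 34 * X ^ 2 ≤ X ^ 8 * X ^ 2 := by
          apply Nat.mul_le_mul_right
          calc 34 ≤ X := by omega
            _ ≤ X ^ 8 := Nat.le_self_pow (by norm_num) X
      _ = X ^ 10 := by ring
  calc X ^ 10 + p.length + q.length ≤ X ^ 10 + X ^ 10 := by omega
    _ = 2 * X ^ 10 := by ring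
    _ ≤ X * X ^ 10 := Nat.mul_le_mul_right _ (by omega)
    _ = X ^ 11 := by ring

lemma map_split {α β : Type*} (f : α → β) {l : List α} {l1 l2 : List β} {a b : β}
    (h : l.map f = l1 ++ a :: b :: l2) : ∃ m1 x y m2, l = m1 ++ x :: y :: m2 ∧ f x = a ∧ f y = b := by
  induction l1 generalizing l with
  | nil =>
    rcases l with _ | ⟨x, _ | ⟨y, l⟩⟩
    · simp at h
    · simp at h
    · simp only [List.map_cons, List.nil_append, List.cons.injEq] at h
      exact ⟨[], x, y, l, rfl, h.1, h.2.1⟩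
  | cons c l1 ih =>
    rcases l with _ | ⟨x, l⟩
    · simp at h
    · simp only [List.map_cons, List.cons_append, List.cons.injEq] at h
      obtain ⟨m1, y, z, m2, rfl, h1, h2⟩ := ih h.2
      exact ⟨x :: m1, y, z, m2, rfl, h1, h2⟩

theorem final {n X : ℕ} (hX : 𝔇.Big n X) (hg : 𝔇.Good) (hn0 : 0 < n) (m : ℕ) :
    ∀ (l : List (Pt 𝔇)) (k : 𝔇.Seg × ℕ), l.length = m → (∀ p ∈ l, Bd n X p.1.2 p.1.1) →
      Bd n X k.2 k.1 → ptN l + k.2 ≤ n → 𝔇.π (FreeGroup.mk (stW l k)) = 1 →
      E (𝔇.Rn n) (X ^ 11) (stW l k) [] := by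
  have hX0 := hX.h1000
  have hnX := hX.hn
  have hN : ∀ N : ℕ, N ≤ n → N * (17 * X) ≤ 17 * X ^ 2 := fun N hN => by
    calc N * (17 * X) ≤ X * (17 * X) := Nat.mul_le_mul_right _ (by omega)
      _ = 17 * X ^ 2 := by ring
  induction m with
  | zero =>
    intro l k hl _ hk hN hπ
    rw [List.length_eq_zero_iff] at hl
    subst hl
    rw [π_stW] at hπ
    simp only [ptV, List.map_nil, List.prod_nil, one_mul] at hπ
    have h1 : evS k.1 = 1 := oZ_inj hg (by rw [hπ, map_one])
    rw [ptN_nil, Nat.zero_add] at hN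
    have h2 := last hX hn0 hk hN h1
    exact h2.mono (Nat.pow_le_pow_right (by omega) (by norm_num))
  | succ m ih =>
    intro l k hl hB hk hN' hπ
    -- it suffices to find a shorter state
    have key : ∀ (l' : List (Pt 𝔇)) (k' : 𝔇.Seg × ℕ), l'.length = m →
        (∀ p ∈ l', Bd n X p.1.2 p.1.1) → Bd n X k'.2 k'.1 → ptN l' + k'.2 ≤ n →
        E (𝔇.Rn n) (X ^ 11) (stW l k) (stW l' k') → E (𝔇.Rn n) (X ^ 11) (stW l k) [] := by
      intro l' k' h1 h2 h3 h4 h5
      refine h5.trans (ih l' k' h1 h2 h3 h4 ?_)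
      rw [← π_E h5]
      exact hπ
    have hπ' := hπ
    rw [π_stW] at hπ'
    have hne : ptV l ≠ [] := by
      intro h
      rw [ptV, List.map_eq_nil_iff] at h
      subst h
      simp at hl
    rcases amalgam_of (θ_inj hg) (ptV l) (evS k.1) hne hπ' with
      ⟨p, hp, hp1⟩ | ⟨l1, a, b, l2, hl1, hb⟩
    · -- a trivial letter `t`
      obtain ⟨⟨⟨s, wt⟩, τ⟩, hp2, rfl⟩ := List.mem_map.1 hp
      simp only at hp1
      subst hp1
      obtain ⟨l1, l2, rfl⟩ := List.append_of_mem hp2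
      rcases l2 with _ | ⟨⟨⟨s', wt'⟩, τ'⟩, l2⟩
      · -- join with the last segment
        have hs : Bd n X wt s := hB ((s, wt), 1) (by simp)
        simp only [ptN_append, ptN_cons, ptN_nil] at hN'
        refine key l1 (mg s k.1, wt + k.2) (by simpa using hl)
          (fun p hp => hB p (by simp [hp])) (Bd_mg hs hk) (by simp only; omega) ?_
        have h1 := join hX hs hk (by omega)
        have h2 := in_state hX (h1.mono (Nat.pow_le_pow_right (by omega) (by norm_num)))
          (ptW l1) [] ((ptW_length hX l1 (fun p hp => hB p (by simp [hp])) (by omega)).trans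
            (hN _ (by omega))) (by simp)
        simpa [stW, ptW_cons] using h2
      · have hs : Bd n X wt s := hB ((s, wt), 1) (by simp)
        have hs' : Bd n X wt' s' := hB ((s', wt'), τ') (by simp)
        simp only [ptN_append, ptN_cons] at hN'
        refine key (l1 ++ ((mg s s', wt + wt'), τ') :: l2) k
          (by simp only [List.length_append, List.length_cons] at hl ⊢; omega) ?_ hk
          (by simp only [ptN_append, ptN_cons]; omega) ?_
        · intro p hp
          rcases List.mem_append.1 hp with hp | hp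
          · exact hB p (by simp [hp])
          · rcases List.mem_cons.1 hp with rfl | hp
            · exact Bd_mg hs hs'
            · exact hB p (by simp [hp])
        · have h1 := join hX hs hs' (by omega)
          have hl2 := ptW_length hX l2 (fun p hp => hB p (by simp [hp])) (by omega)
          have hk2 := sgW_length hX (by omega) hk
          have h2 := in_state hX (h1.mono (Nat.pow_le_pow_right (by omega) (by norm_num)))
            (ptW l1) ([(.t τ', true)] ++ ptW l2 ++ sgW k.1)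
            ((ptW_length hX l1 (fun p hp => hB p (by simp [hp])) (by omega)).trans
              (hN _ (by omega))) (by
              have h3 := hN (ptN l2 + k.2 + 1) (by omega)
              have h4 : (ptN l2 + k.2 + 1) * (17 * X) =
                ptN l2 * (17 * X) + k.2 * (17 * X) + 17 * X := by ring
              simp only [List.length_append, List.length_singleton]
              omega)
          simpa [stW, ptW_cons] using h2
    · -- a T-step
      obtain ⟨m1, ⟨⟨s, wt⟩, τ⟩, ⟨⟨s', wt'⟩, τ'⟩, m2, hm, -, hb'⟩ := map_split _ hl1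
      subst hm
      rw [← hb'] at hb
      · have hs : Bd n X wt s := hB ((s, wt), τ) (by simp)
        have hs' : Bd n X wt' s' := hB ((s', wt'), τ') (by simp)
        simp only [ptN_append, ptN_cons] at hN'
        obtain ⟨s'', hs'', he⟩ := step hX hg hn0 hs hs' (by omega) τ τ' hb
        refine key (m1 ++ ((s'', wt + wt'), τ * τ') :: m2) k
          (by simp only [List.length_append, List.length_cons] at hl ⊢; omega) ?_ hk
          (by simp only [ptN_append, ptN_cons]; omega) ?_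
        · intro p hp
          rcases List.mem_append.1 hp with hp | hp
          · exact hB p (by simp [hp])
          · rcases List.mem_cons.1 hp with rfl | hp
            · exact hs''
            · exact hB p (by simp [hp])
        · have hl2 := ptW_length hX m2 (fun p hp => hB p (by simp [hp])) (by omega)
          have hk2 := sgW_length hX (by omega) hk
          have h2 := in_state hX he (ptW m1) (ptW m2 ++ sgW k.1)
            ((ptW_length hX m1 (fun p hp => hB p (by simp [hp])) (by omega)).trans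
              (hN _ (by omega))) (by
              have h3 := hN (ptN m2 + k.2) (by omega)
              have h4 : (ptN m2 + k.2) * (17 * X) =
                ptN m2 * (17 * X) + k.2 * (17 * X) := by ring
              simp only [List.length_append]
              omega)
          simpa [stW, ptW_cons] using h2

/-! ### The start -/

/-- Add a segment at the front. -/
def addF (s : 𝔇.Seg) (wt : ℕ) (r : List (Pt 𝔇) × (𝔇.Seg × ℕ)) : List (Pt 𝔇) × (𝔇.Seg × ℕ) :=
  match r with
  | ([], k) => ([], (mg s k.1, wt + k.2))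
  | (p :: l, k) => (((mg s p.1.1, wt + p.1.2), p.2) :: l, k)

/-- Add a letter at the front. -/
def addL (x : XG × Bool) (r : List (Pt 𝔇) × (𝔇.Seg × ℕ)) : List (Pt 𝔇) × (𝔇.Seg × ℕ) :=
  match x.1 with
  | .t a => (((([], []), 0), if x.2 then a else a⁻¹) :: r.1, r.2)
  | .z a => addF ([([], (0, none), if x.2 then a else a⁻¹)], []) 1 r
  | .e => addF ([], [(KG.e, x.2)]) 1 r
  | .w => addF ([], [(KG.w, x.2)]) 1 r
  | .v => addF ([], [(KG.v, x.2)]) 1 r

/-- Valid states. -/
structure Vd (n X : ℕ) (N : ℕ) (r : List (Pt 𝔇) × (𝔇.Seg × ℕ)) : Prop where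
  parts : ∀ p ∈ r.1, Bd n X p.1.2 p.1.1
  last : Bd n X r.2.2 r.2.1
  le : ptN r.1 + r.2.2 ≤ N

lemma addF_mk (s : 𝔇.Seg) (wt : ℕ) (r : List (Pt 𝔇) × (𝔇.Seg × ℕ)) :
    FreeGroup.mk (stW (addF s wt r).1 (addF s wt r).2) =
      FreeGroup.mk (sgW s ++ stW r.1 r.2) := by
  rcases r with ⟨_ | ⟨p, l⟩, k⟩
  · simp only [addF, stW, ptW_nil, List.nil_append, mk_sgW_mg]
  · simp only [addF, stW, ptW_cons, mk_append, mk_sgW_mg]
    group

lemma addF_vd {n X N : ℕ} {s : 𝔇.Seg} {wt : ℕ} {r : List (Pt 𝔇) × (𝔇.Seg × ℕ)}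
    (hs : Bd n X wt s) (hr : Vd n X N r) : Vd n X (N + wt) (addF s wt r) := by
  obtain ⟨h1, h2, h3⟩ := hr
  rcases r with ⟨_ | ⟨p, l⟩, k⟩
  · refine ⟨by simp [addF], Bd_mg hs h2, ?_⟩
    simp only [addF, ptN_nil] at h3 ⊢
    omega
  · refine ⟨?_, h2, ?_⟩
    · intro q hq
      rcases List.mem_cons.1 hq with rfl | hq
      · exact Bd_mg hs (h1 p (by simp))
      · exact h1 q (by simp [hq])
    · simp only [addF, ptN_cons] at h3 ⊢
      omega

lemma Bd_z (n X : ℕ) (a : A5) : Bd n X 1 (([([], (0, none), a)], []) : 𝔇.Seg) where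
  len := by simp
  klen := by simp
  knm := by simp
  ilen := by simp
  inm := by simp
  iexp := by simp
  iu := by simp

lemma Bd_k (n X : ℕ) (p : KG 𝔇.J 𝔇.B 𝔇.Hg × Bool) (hp : nm (𝔇 := 𝔇) [p] = 0) :
    Bd n X 1 (([], [p]) : 𝔇.Seg) where
  len := by simp
  klen := by simp
  knm := by simp [hp]
  ilen := by simp
  inm := by simp
  iexp := by simp
  iu := by simp

lemma addL_vd {n X N : ℕ} (x : XG × Bool) {r : List (Pt 𝔇) × (𝔇.Seg × ℕ)}
    (hr : Vd n X N r) : Vd n X (N + 1) (addL x r) := by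
  rcases x with ⟨_ | _ | _ | _ | _, ε⟩
  · exact addF_vd (Bd_z n X _) hr
  · obtain ⟨h1, h2, h3⟩ := hr
    refine ⟨?_, h2, ?_⟩
    · intro q hq
      rcases List.mem_cons.1 hq with rfl | hq
      · exact Bd_empty n X
      · exact h1 q hq
    · simp only [addL, ptN_cons]
      omega
  · exact addF_vd (Bd_k n X _ rfl) hr
  · exact addF_vd (Bd_k n X _ rfl) hr
  · exact addF_vd (Bd_k n X _ rfl) hr

lemma stW_length {n X N : ℕ} (hX : 𝔇.Big n X) {r : List (Pt 𝔇) × (𝔇.Seg × ℕ)}
    (hr : Vd n X N r) (hN : N ≤ n) : (stW r.1 r.2).length ≤ N * (17 * X) := by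
  have h3 := hr.le
  have h1 := ptW_length hX r.1 hr.parts (by omega)
  have h2 := sgW_length hX (by omega) hr.last
  rw [stW, List.length_append]
  calc (ptW r.1).length + (sgW r.2.1).length ≤ ptN r.1 * (17 * X) + r.2.2 * (17 * X) := by omega
    _ = (ptN r.1 + r.2.2) * (17 * X) := by ring
    _ ≤ N * (17 * X) := Nat.mul_le_mul_right _ h3

/-- The word of a letter. -/
lemma addL_E {n X N A : ℕ} (hX : 𝔇.Big n X) (x : XG × Bool) {r : List (Pt 𝔇) × (𝔇.Seg × ℕ)}
    (hr : Vd n X N r) (hN : N + 1 ≤ n) (h4 : 17 * X ^ 2 + 10 ≤ A) :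
    E (𝔇.Rn n) A ((xg x.1, x.2) :: stW r.1 r.2) (stW (addL x r).1 (addL x r).2) := by
  have hX0 := hX.h1000
  have hnX := hX.hn
  have h1 := stW_length hX hr (by omega)
  have h2 := stW_length hX (addL_vd x hr) hN
  have h3 : N * (17 * X) + 17 * X ≤ 17 * X ^ 2 := by
    calc N * (17 * X) + 17 * X = (N + 1) * (17 * X) := by ring
      _ ≤ X * (17 * X) := Nat.mul_le_mul_right _ (by omega)
      _ = 17 * X ^ 2 := by ring
  have h3' : (N + 1) * (17 * X) = N * (17 * X) + 17 * X := by ring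
  -- the words of the new segments
  have key : ∀ (s : 𝔇.Seg), sgW s = [(xg x.1, x.2)] → addL x r = addF s 1 r →
      E (𝔇.Rn n) A ((xg x.1, x.2) :: stW r.1 r.2) (stW (addL x r).1 (addL x r).2) := by
    intro s hs hr'
    refine E.free (𝔇.Rn_free n) ?_ ?_ ?_
    · rw [hr', addF_mk, hs]; rfl
    · rw [List.length_cons]; omega
    · omega
  have key2 : ∀ (y : 𝔇.WW), y.length = 1 → E (𝔇.Rn n) 6 [(xg x.1, x.2)] y →
      FreeGroup.mk (stW (addL x r).1 (addL x r).2) = FreeGroup.mk (y ++ stW r.1 r.2) →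
      E (𝔇.Rn n) A ((xg x.1, x.2) :: stW r.1 r.2) (stW (addL x r).1 (addL x r).2) := by
    intro y hy hy2 hy3
    have h5 := hy2.appR (B := A) (stW r.1 r.2) (by omega)
    refine E.trans h5 (E.free (𝔇.Rn_free n) hy3.symm ?_ ?_)
    · rw [List.length_append]; omega
    · omega
  rcases x with ⟨a | a | _ | _ | _, _ | _⟩
  · refine key2 [(.z a⁻¹, true)] rfl (E_z_inv n a) ?_
    simp only [addL]
    rw [addF_mk]
    rfl
  · refine key2 [(.z a, true)] rfl (E.refl (by simp)) ?_
    simp only [addL]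
    rw [addF_mk]
    rfl
  · refine key2 [(.t a⁻¹, true)] rfl (E_t_inv n a) ?_
    simp only [addL, stW, ptW_cons, mk_append]
    simp [sgW, itsZ, mul_assoc]
  · refine key2 [(.t a, true)] rfl (E.refl (by simp)) ?_
    simp only [addL, stW, ptW_cons, mk_append]
    simp [sgW, itsZ, mul_assoc]
  · exact key ([], [(KG.e, false)]) rfl rfl
  · exact key ([], [(KG.e, true)]) rfl rfl
  · exact key ([], [(KG.w, false)]) rfl rfl
  · exact key ([], [(KG.w, true)]) rfl rfl
  · exact key ([], [(KG.v, false)]) rfl rfl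
  · exact key ([], [(KG.v, true)]) rfl rfl

theorem start {n X : ℕ} (hX : 𝔇.Big n X) (w : List (XG × Bool)) (hw : w.length ≤ n) :
    ∃ r : List (Pt 𝔇) × (𝔇.Seg × ℕ), Vd n X w.length r ∧
      E (𝔇.Rn n) (17 * X ^ 2 + 10 + w.length) (xW w) (stW r.1 r.2) := by
  induction w with
  | nil =>
    refine ⟨([], (([], []), 0)), ⟨by simp, Bd_empty n X, by simp⟩, ?_⟩
    exact E.refl (by simp [xW])
  | cons x w ih =>
    rw [List.length_cons] at hw
    obtain ⟨r, hr, he⟩ := ih (by omega)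
    refine ⟨addL x r, addL_vd x hr, ?_⟩
    have h1 := addL_E (A := 17 * X ^ 2 + 10 + (w.length + 1)) hX x hr (by omega) (by omega)
    have h2 := he.appL (B := 17 * X ^ 2 + 10 + (w.length + 1)) [(xg x.1, x.2)]
      (by simp only [List.length_singleton]; omega)
    exact h2.trans h1

end ME2

open ME2 in
theorem complete' {𝔇 : Dat} {n X : ℕ} (hX : 𝔇.Big n X) (hg : 𝔇.Good) (w : List (XG × Bool))
    (hn : w.length = n) (h : 𝔇.π (inclX (FreeGroup.mk w)) = 1) :
    Der (𝔇.Rn n) (X ^ 12) (xW w) [] := by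
  rcases Nat.eq_zero_or_pos n with rfl | hn0
  · rw [List.length_eq_zero_iff] at hn
    subst hn
    exact Relation.ReflTransGen.refl
  have hX0 := hX.h1000
  have hnX := hX.hn
  obtain ⟨r, hr, he⟩ := start hX w hn.le
  have h4 : 17 * X ^ 2 + 10 + w.length ≤ X ^ 11 := by
    calc 17 * X ^ 2 + 10 + w.length ≤ 19 * X ^ 2 := by nlinarith
      _ ≤ X ^ 9 * X ^ 2 := by
        apply Nat.mul_le_mul_right
        calc 19 ≤ X := by omega
          _ ≤ X ^ 9 := Nat.le_self_pow (by norm_num) X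
      _ = X ^ 11 := by ring
  have he' := he.mono h4
  have hπ : 𝔇.π (FreeGroup.mk (stW r.1 r.2)) = 1 := by
    rw [← π_E he', ← h]
    congr 1
    -- `mk (xW w) = inclX (mk w)`
    clear he' he hr h hn h4
    induction w with
    | nil => simp [xW]
    | cons x w ih =>
      have h1 : (xW (x :: w) : 𝔇.WW) = [(xg x.1, x.2)] ++ xW w := rfl
      rw [h1, mk_append, ih, mk_cons x w, map_mul]
      congr 1
      rcases x with ⟨x, _ | _⟩
      · rw [mk_false, mk_false, map_inv, inclX, FreeGroup.lift_apply_of]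
      · rw [mk_true, mk_true, inclX, FreeGroup.lift_apply_of]
  have h5 := final hX hg hn0 r.1.length r.1 r.2 rfl hr.parts hr.last (by have := hr.le; omega) hπ
  exact ((he'.trans h5).mono (Nat.pow_le_pow_right (by omega) (by norm_num))).der

end Dat

end Pool.Agent.BH
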