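import Pool.Agent.BH.MModel

set_option autoImplicit false

/-!
# Module M, section MG: the embedding of the given group and of a free group in the model
-/

namespace Pool.Agent.BH

open Monoid

namespace Dat

variable {𝔇 : Dat}

/-- A projection from `L`. -/
def prHS (𝔇 : Dat) : 𝔇.L →* Coprod 𝔇.H 𝔇.FS := CoprodI.lift fun i => match i with
  | .h => Coprod.inl.comp ((MonoidHom.fst _ _).comp (MonoidHom.snd _ _))
  | .s => Coprod.inr.comp ((MonoidHom.fst _ _).comp ((MonoidHom.snd _ _).comp
      (MonoidHom.snd _ _)))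
  | _ => 1

/-- The embedding of the free product. -/
def inHS (𝔇 : Dat) : Coprod 𝔇.H 𝔇.FS →* 𝔇.L := Coprod.lift inH inS

lemma prHS_inHS (x : Coprod 𝔇.H 𝔇.FS) : 𝔇.prHS (𝔇.inHS x) = x := by
  have : 𝔇.prHS.comp 𝔇.inHS = MonoidHom.id _ := by
    apply Coprod.hom_ext
    · ext x
      simp [prHS, inHS, inH, fp]
    · ext x
      simp [prHS, inHS, inS, fp]
  exact DFunLike.congr_fun this x

/-- The two letters of the free group. -/
def f2 (𝔇 : Dat) : Fin 2 → Option (Option 𝔇.J) := fun i => if i = 0 then some none else none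

/-- The map to the factor. -/
def inF2 (𝔇 : Dat) : Coprod 𝔇.H (FreeGroup (Fin 2)) →* 𝔇.L :=
  𝔇.inHS.comp (Coprod.map (MonoidHom.id _) (FreeGroup.map 𝔇.f2))

lemma inF2_inj : Function.Injective 𝔇.inF2 := by
  have h1 : Function.Injective 𝔇.inHS := Function.LeftInverse.injective (g := 𝔇.prHS) prHS_inHS
  have h2 : Function.Injective (Coprod.map (MonoidHom.id 𝔇.H) (FreeGroup.map 𝔇.f2)) := by
    let g : Option (Option 𝔇.J) → Fin 2 := fun x => match x with
      | some none => 0
      | _ => 1
    have hg : ∀ i, g (𝔇.f2 i) = i := by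
      intro i
      fin_cases i <;> simp [f2, g]
    have : (Coprod.map (MonoidHom.id 𝔇.H) (FreeGroup.map g)).comp
        (Coprod.map (MonoidHom.id 𝔇.H) (FreeGroup.map 𝔇.f2)) = MonoidHom.id _ := by
      apply Coprod.hom_ext
      · ext x; simp
      · ext i; simp [hg]
    exact Function.LeftInverse.injective
      (g := Coprod.map (MonoidHom.id 𝔇.H) (FreeGroup.map g)) fun x => DFunLike.congr_fun this x
  exact h1.comp h2

/-- The group `H` and the free group embed in the model. -/
theorem embed_π_of (hth : Function.Injective 𝔇.θ) :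
    ∃ lam : Coprod 𝔇.H (FreeGroup (Fin 2)) →* 𝔇.Md,
    Function.Injective lam ∧ (∀ η, lam (Coprod.inl (𝔇.hH (FreeGroup.of η))) =
      𝔇.π (FreeGroup.of (.k (.y (.h η))))) ∧
    lam (Coprod.inr (FreeGroup.of 0)) = 𝔇.π (FreeGroup.of (.k (.y (.s none)))) ∧
    lam (Coprod.inr (FreeGroup.of 1)) = 𝔇.π (FreeGroup.of (.k (.y .r))) := by
  have h0 : ∀ b, Function.Injective (𝔇.φφ b)
    | true => hth
    | false => SemidirectProduct.inl_injective
  have h1 : Function.Injective 𝔇.oZ := PushoutI.of_injective h0 true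
  refine ⟨𝔇.oZ.comp ((SemidirectProduct.inr).comp ((SemidirectProduct.inr).comp
    ((SemidirectProduct.inl).comp 𝔇.inF2))), ?_, ?_, ?_, ?_⟩
  · intro x y hxy
    exact inF2_inj (SemidirectProduct.inl_injective (SemidirectProduct.inr_injective
      (SemidirectProduct.inr_injective (h1 hxy))))
  · intro η
    simp [inF2, inHS, π, mv, kv, lc, lv]
  · simp [inF2, inHS, π, mv, kv, lc, lv, f2]
  · simp [inF2, inHS, π, mv, kv, lc, lv, f2]

end Dat

end Pool.Agent.BH
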