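import Pool.Agent.BH.MDefs
import Pool.Agent.BH.MAmal

set_option autoImplicit false

/-!
# Module M, section MF: the center of the model
-/

namespace Pool.Agent.BH

open Monoid

attribute [-simp] FreeGroup.mul_mk FreeGroup.inv_mk

namespace MFaux

section FP

open scoped Classical

variable {X A : Type} [Group A]

/-- Reduced lists are stable under reversal and inversion. -/
lemma rd_inv {l : List (X × A)} (h : Rd l) : Rd (l.map fun p => (p.1, p.2⁻¹)).reverse := by
  refine ⟨?_, ?_⟩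
  · intro q hq
    simp only [List.mem_reverse, List.mem_map] at hq
    obtain ⟨p, hp, rfl⟩ := hq
    simpa using h.1 p hp
  · simp only [List.isChain_reverse, List.isChain_map]
    exact h.2.imp fun p q hpq => hpq.symm

lemma pr_inv (l : List (X × A)) : pr (l.map fun p => (p.1, p.2⁻¹)).reverse = (pr l)⁻¹ := by
  simp only [pr, List.prod_inv_reverse, List.map_map, List.map_reverse]
  congr 2

/-- Split off the last letter if it has the index `x`. -/
lemma exists_split (x : X) (n : FP X A) : ∃ (l : List (X × A)) (c : A), Rd l ∧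
    (∀ q ∈ l.getLast?, q.1 ≠ x) ∧ n = pr l * fp x c := by
  rcases List.eq_nil_or_concat (nf n) with h | ⟨l, q, h⟩
  · refine ⟨[], 1, Rd.nil, by simp, ?_⟩
    rw [nf_eq_nil.1 h]; simp
  · have hr := nf_rd n
    have hn := pr_nf n
    rw [h] at hr hn
    by_cases hq : q.1 = x
    · have hch := hr.2
      rw [List.concat_eq_append, List.isChain_append] at hch
      refine ⟨l, q.2, ⟨fun p hp => hr.1 p (by simp [hp]), hch.1⟩, ?_, ?_⟩
      · intro p hp
        rw [← hq]
        exact hch.2.2 p hp q (by simp)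
      · rw [← hn, List.concat_eq_append, pr_append, pr_cons, pr_nil, mul_one, hq]
    · refine ⟨l.concat q, 1, hr, ?_, ?_⟩
      · intro p hp
        rw [List.concat_eq_append, List.getLast?_append] at hp
        simp at hp
        rw [← hp]
        exact hq
      · rw [hn, map_one, mul_one]

/-- Conjugate elements of the free factors. -/
lemma conj_fp {n : FP X A} {x y : X} {a b : A} (ha : a ≠ 1) (h : n * fp x a = fp y b * n) :
    x = y ∧ ∃ c, n = fp x c := by
  obtain ⟨l, c, hl, hlast, rfl⟩ := exists_split x n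
  have hcac : c * a * c⁻¹ ≠ 1 := by
    intro h1
    apply ha
    have := congrArg (fun z => c⁻¹ * z * c) h1
    simpa [mul_assoc] using this
  have h1 : pr (l ++ ((x, c * a * c⁻¹) :: (l.map fun p => (p.1, p.2⁻¹)).reverse)) = fp y b := by
    rw [pr_append, pr_cons, pr_inv]
    simp only [map_mul, map_inv]
    have h2 : pr l * fp x c * fp x a = fp y b * (pr l * fp x c) := h
    calc pr l * (fp x c * fp x a * (fp x c)⁻¹ * (pr l)⁻¹)
        = (pr l * fp x c * fp x a) * (pr l * fp x c)⁻¹ := by group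
      _ = fp y b := by rw [h2]; group
  have h2 : Rd (l ++ ((x, c * a * c⁻¹) :: (l.map fun p => (p.1, p.2⁻¹)).reverse)) := by
    refine ⟨?_, ?_⟩
    · intro q hq
      rcases List.mem_append.1 hq with hq | hq
      · exact hl.1 q hq
      · rcases List.mem_cons.1 hq with rfl | hq
        · exact hcac
        · exact (rd_inv hl).1 q hq
    · rw [List.isChain_append]
      refine ⟨hl.2, ?_, ?_⟩
      · rw [List.isChain_cons]
        refine ⟨?_, (rd_inv hl).2⟩
        intro q hq
        simp only [List.head?_reverse, List.getLast?_map, Option.mem_def,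
          Option.map_eq_some_iff] at hq
        obtain ⟨g, hg, rfl⟩ := hq
        exact (hlast g hg).symm
      · intro p hp q hq
        simp only [List.head?_cons, Option.mem_def, Option.some.injEq] at hq
        rw [← hq]
        exact hlast p hp
  have h3 := nf_eq h2 h1.symm
  by_cases hb : b = 1
  · rw [hb, map_one, nf_one] at h3
    exact absurd h3.symm (by simp)
  have h4 : nf (fp y b) = [(y, b)] := nf_eq ⟨by simpa using hb, List.IsChain.singleton _⟩ (by simp)
  rw [h4] at h3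
  have h5 : l = [] := by
    rcases l with _ | ⟨q, l⟩
    · rfl
    · simp at h3
  subst h5
  simp only [List.nil_append, List.map_nil, List.reverse_nil, List.cons.injEq, Prod.mk.injEq,
    and_true] at h3
  exact ⟨h3.1.symm, c, by simp⟩

lemma fp_inj {x y : X} {a b : A} (hxy : x ≠ y) (h : fp x a = fp y b) : a = 1 := by
  by_contra ha
  have h1 : nf (fp x a) = [(x, a)] := nf_eq ⟨by simpa using ha, List.IsChain.singleton _⟩ (by simp)
  have h2 := nf_fp_index (x := y) (a := b) (q := (x, a)) (by rw [← h, h1]; simp)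
  exact hxy h2

lemma fp_injective (x : X) : Function.Injective (fp (A := A) x) := by
  rw [injective_iff_map_eq_one]
  intro a h
  by_contra ha
  have h1 : nf (fp x a) = [(x, a)] := nf_eq ⟨by simpa using ha, List.IsChain.singleton _⟩ (by simp)
  rw [h, nf_one] at h1
  simp at h1

end FP

end MFaux

namespace Dat

open MFaux

variable {𝔇 : Dat}

lemma kv_wF : 𝔇.kv .w = SemidirectProduct.inr (SemidirectProduct.inl wL) := rfl

/-- An element of `DL` whose image commutes with `w` is trivial. -/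
lemma inD_comm_w {δ : 𝔇.D} (h : inD δ * wL = wL * inD δ) : δ = 1 := by
  have hw : (wL : 𝔇.L) = fp LI.w (1, 1, 1, g3, 1) := rfl
  have hd : (inD δ : 𝔇.L) = fp LI.d (δ, 1) := rfl
  have h1 := conj_fp (n := (inD δ : 𝔇.L)) (x := LI.w) (y := LI.w) (a := (1, 1, 1, g3, 1))
    (b := (1, 1, 1, g3, 1)) (by
      intro h'
      exact g3_ne (congrArg (fun z => z.2.2.2.1) h')) h
  obtain ⟨c, hc⟩ := h1.2
  rw [hd] at hc
  have h2 := fp_inj (by decide) hc
  exact congrArg Prod.fst h2

/-- The index shift by `w` has no fixed points. -/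
lemma fix_w {ρ : 𝔇.Nn} (h : actFP 𝔇.aL 𝔇.bL (SemidirectProduct.inl wL) ρ = ρ) : ρ = 1 := by
  have h1 := nf_act 𝔇.aL 𝔇.bL (SemidirectProduct.inl wL) ρ
  rw [h] at h1
  rw [← nf_eq_nil]
  rcases hn : nf ρ with _ | ⟨q, l⟩
  · rfl
  · exfalso
    rw [hn] at h1
    simp only [List.map_cons, List.cons.injEq] at h1
    have h2 := congrArg Prod.fst h1.1
    simp only [aL_apply, SemidirectProduct.left_inl, SemidirectProduct.right_inl, map_one] at h2
    have h3 : (wL : 𝔇.L) = 1 := by
      have h4 : q.1 = wL * q.1 := h2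
      exact (mul_eq_right.1 h4.symm)
    have hw : (wL : 𝔇.L) = fp LI.w (1, 1, 1, g3, 1) := rfl
    rw [hw] at h3
    have h5 := fp_injective LI.w (h3.trans (map_one _).symm)
    exact g3_ne (congrArg (fun z => z.2.2.2.1) h5)

/-- The centralizer of `w` in the stabilizer of the base position is trivial. -/
lemma R_comm_w {κ : 𝔇.K} (hR : κ ∈ 𝔇.R) (h : κ * 𝔇.kv .w = 𝔇.kv .w * κ) : κ = 1 := by
  obtain ⟨hl, hr⟩ := mem_R.1 hR
  obtain ⟨δ, hδ⟩ := mem_DL.1 hr
  have h1 := congrArg SemidirectProduct.right h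
  rw [SemidirectProduct.mul_right, SemidirectProduct.mul_right, kv_wF,
    SemidirectProduct.right_inr, ← hδ, ← map_mul, ← map_mul] at h1
  have h2 := inD_comm_w (SemidirectProduct.inl_injective h1)
  rw [h2, map_one, map_one] at hδ
  have h3 := congrArg SemidirectProduct.left h
  rw [SemidirectProduct.mul_left, SemidirectProduct.mul_left, kv_wF,
    SemidirectProduct.left_inr, SemidirectProduct.right_inr, map_one, mul_one, one_mul] at h3
  have h4 := fix_w h3.symm
  exact SemidirectProduct.ext h4 hδ.symm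

lemma w_not_R : 𝔇.kv .w ∉ 𝔇.R := by
  intro h
  obtain ⟨-, hr⟩ := mem_R.1 h
  obtain ⟨δ, hδ⟩ := mem_DL.1 hr
  rw [kv_wF, SemidirectProduct.right_inr] at hδ
  have h1 : (inD δ : 𝔇.L) = wL := SemidirectProduct.inl_injective hδ
  have hw : (wL : 𝔇.L) = fp LI.w (1, 1, 1, g3, 1) := rfl
  have hd : (inD δ : 𝔇.L) = fp LI.d (δ, 1) := rfl
  rw [hw, hd] at h1
  have h2 := fp_inj (by decide) h1.symm
  exact g3_ne (congrArg (fun z => z.2.2.2.1) h2)

/-- An element of the vertex group that commutes with the letters `z` and `w` is trivial. -/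
lemma Kz_comm {ξ : 𝔇.Kz} (hz : ∀ a, Commute ξ (zK 1 a))
    (hw : Commute ξ (SemidirectProduct.inr (𝔇.kv .w))) : ξ = 1 := by
  obtain ⟨n, κ⟩ := ξ
  obtain ⟨a, ha⟩ := exists_ne (1 : A5)
  have hz' : ∀ k : 𝔇.K, Commute (⟨n, κ⟩ : 𝔇.Kz) (SemidirectProduct.inr k) →
      ((κ * k : 𝔇.K) : 𝔇.Pos) = (k : 𝔇.Pos) ∧ ∃ c, n = fp ((κ * k : 𝔇.K) : 𝔇.Pos) c := by
    intro k hk
    have h1 : Commute (⟨n, κ⟩ : 𝔇.Kz) (zK k a) := by
      have h2 := zK_conj k 1 a
      rw [mul_one] at h2
      rw [← h2]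
      exact (hk.mul_right (hz a)).mul_right hk.inv_right
    have h2 := congrArg SemidirectProduct.left h1.eq
    rw [SemidirectProduct.mul_left, SemidirectProduct.mul_left] at h2
    simp only [zK, SemidirectProduct.left_inl, SemidirectProduct.right_inl, map_one,
      MulAut.one_apply, actFP_fp, aK_apply] at h2
    exact conj_fp ha h2
  obtain ⟨h1, c, hc⟩ := hz' 1 (by rw [map_one]; exact Commute.one_right _)
  obtain ⟨h2, c', hc'⟩ := hz' (𝔇.kv .w) hw
  have hκ : κ ∈ 𝔇.R := by
    rw [mul_one] at h1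
    have := QuotientGroup.eq.1 h1
    rw [mul_one] at this
    exact inv_mem_iff.1 this
  have hne : ((κ * 1 : 𝔇.K) : 𝔇.Pos) ≠ ((κ * 𝔇.kv .w : 𝔇.K) : 𝔇.Pos) := by
    rw [h1, h2]
    intro h
    have := QuotientGroup.eq.1 h
    rw [inv_one, one_mul] at this
    exact w_not_R this
  have hn : n = 1 := by
    have h3 : fp ((κ * 1 : 𝔇.K) : 𝔇.Pos) c = fp ((κ * 𝔇.kv .w : 𝔇.K) : 𝔇.Pos) c' := by
      rw [← hc, ← hc']
    rw [hc, fp_inj hne h3, map_one]
  have hκ1 : κ = 1 := by
    apply R_comm_w hκ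
    have h3 := congrArg SemidirectProduct.right hw.eq
    simpa using h3
  rw [hn, hκ1]
  rfl

/-- The second vertex group is larger than the base. -/
lemma inr_not_inl {τ : A5} (hτ : τ ≠ 1) :
    (SemidirectProduct.inr τ : 𝔇.MT) ∉ (SemidirectProduct.inl : 𝔇.M →* 𝔇.MT).range := by
  rintro ⟨μ, hμ⟩
  have := congrArg SemidirectProduct.right hμ
  simp only [SemidirectProduct.right_inl, SemidirectProduct.right_inr] at this
  exact hτ this.symm

lemma φφ_inj (hθ : Function.Injective 𝔇.θ) : ∀ b, Function.Injective (𝔇.φφ b)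
  | true => hθ
  | false => SemidirectProduct.inl_injective

lemma oZ_inj (hθ : Function.Injective 𝔇.θ) : Function.Injective 𝔇.oZ :=
  PushoutI.of_injective (φφ_inj hθ) true

lemma π_zF (a : A5) : 𝔇.π (FreeGroup.of (.z a)) = 𝔇.oZ (zK 1 a) := by
  rw [π, FreeGroup.lift_apply_of]; rfl

lemma π_tF (a : A5) : 𝔇.π (FreeGroup.of (.t a)) = 𝔇.oT (SemidirectProduct.inr a) := by
  rw [π, FreeGroup.lift_apply_of]; rfl

lemma π_k (κ : KG 𝔇.J 𝔇.B 𝔇.Hg) :
    𝔇.π (FreeGroup.of (.k κ)) = 𝔇.oZ (SemidirectProduct.inr (𝔇.kv κ)) := by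
  rw [π, FreeGroup.lift_apply_of]; rfl

theorem center_π_of (hw : ∀ μ : 𝔇.M, 𝔇.θ μ ≠ SemidirectProduct.inr (𝔇.kv .w))
    (hθ : Function.Injective 𝔇.θ) (x : FreeGroup (Gen 𝔇.J 𝔇.B 𝔇.Hg))
    (hx : ∀ y, 𝔇.π x * 𝔇.π y = 𝔇.π y * 𝔇.π x) : 𝔇.π x = 1 := by
  obtain ⟨τ, hτ⟩ := exists_ne (1 : A5)
  have hx1 : ∀ b, (match b with
      | true => (SemidirectProduct.inr (𝔇.kv .w) : 𝔇.Kz)
      | false => (SemidirectProduct.inr τ : 𝔇.MT) : 𝔇.GG b) ∉ (𝔇.φφ b).range := by
    intro b
    cases b
    · exact inr_not_inl hτ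
    · rintro ⟨μ, hμ⟩
      exact hw μ hμ
  have h1 := Amal.mem_base (φφ_inj hθ) (𝔇.π x) (fun b => match b with
      | true => (SemidirectProduct.inr (𝔇.kv .w) : 𝔇.Kz)
      | false => (SemidirectProduct.inr τ : 𝔇.MT)) hx1 (by
    intro b
    cases b
    · have := hx (FreeGroup.of (.t τ))
      rw [π_tF] at this
      exact this
    · have := hx (FreeGroup.of (.k .w))
      rw [π_k] at this
      exact this)
  obtain ⟨μ, hμ⟩ := h1
  have hμ' : 𝔇.oZ (𝔇.θ μ) = 𝔇.π x := by
    rw [← hμ]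
    exact PushoutI.of_apply_eq_base 𝔇.φφ true μ
  have hξ : 𝔇.θ μ = 1 := by
    apply Kz_comm
    · intro a
      apply oZ_inj hθ
      rw [map_mul, map_mul, hμ', ← π_zF]
      exact hx _
    · apply oZ_inj hθ
      rw [map_mul, map_mul, hμ', ← π_k]
      exact hx _
  rw [← hμ', hξ, map_one]

end Dat

end Pool.Agent.BH
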