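import Mathlib

set_option autoImplicit false

/-!
# Free powers of a group: `FP X A` is the free product of copies of `A` indexed by `X`
-/

namespace Pool.Agent.BH

open Monoid

section FPdef

open scoped Classical

variable {X A : Type} [Group A]

variable (X A) in
/-- The free power. -/
abbrev FP := CoprodI (fun _ : X => A)

/-- The copy of `A` with index `x`. -/
def fp (x : X) : A →* FP X A := CoprodI.of (M := fun _ : X => A) (i := x)

/-- The product of a list of letters. -/
def pr (l : List (X × A)) : FP X A := (l.map fun p => fp p.1 p.2).prod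

@[simp] lemma pr_nil : pr ([] : List (X × A)) = 1 := rfl
@[simp] lemma pr_cons (p : X × A) (l : List (X × A)) : pr (p :: l) = fp p.1 p.2 * pr l := by
  simp [pr]
@[simp] lemma pr_append (l l' : List (X × A)) : pr (l ++ l') = pr l * pr l' := by
  simp [pr]

/-- Reduced lists. -/
def Rd (l : List (X × A)) : Prop := (∀ p ∈ l, p.2 ≠ 1) ∧ l.IsChain (fun p q => p.1 ≠ q.1)

lemma Rd.nil : Rd ([] : List (X × A)) := ⟨by simp, List.IsChain.nil⟩

lemma Rd.tail {p : X × A} {l : List (X × A)} (h : Rd (p :: l)) : Rd l :=
  ⟨fun q hq => h.1 q (by simp [hq]), h.2.tail⟩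

/-- The word of a reduced list. -/
def Rd.word {l : List (X × A)} (h : Rd l) : CoprodI.Word (fun _ : X => A) where
  toList := l.map fun p => ⟨p.1, p.2⟩
  ne_one := by
    intro q hq
    obtain ⟨p, hp, rfl⟩ := List.mem_map.1 hq
    exact h.1 p hp
  chain_ne := by
    rw [List.isChain_map]
    exact h.2

lemma Rd.word_prod {l : List (X × A)} (h : Rd l) : h.word.prod = pr l := by
  simp only [CoprodI.Word.prod, Rd.word, List.map_map]
  rfl

lemma Rd.inj {l l' : List (X × A)} (h : Rd l) (h' : Rd l') (e : pr l = pr l') : l = l' := by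
  have h1 : h.word.prod = h'.word.prod := by rw [h.word_prod, h'.word_prod, e]
  have h2 : h.word = h'.word := CoprodI.Word.equiv.symm.injective h1
  have h3 : l.map (fun p => (⟨p.1, p.2⟩ : Σ _ : X, A)) = l'.map fun p => ⟨p.1, p.2⟩ :=
    congrArg CoprodI.Word.toList h2
  refine List.map_injective_iff.2 ?_ h3
  intro p q hpq
  simp only [Sigma.mk.injEq, heq_eq_eq] at hpq
  exact Prod.ext hpq.1 hpq.2

/-- Add a letter to a reduced list. -/
noncomputable def consR (p : X × A) : List (X × A) → List (X × A)
  | [] => if p.2 = 1 then [] else [p]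
  | q :: l => if q.1 = p.1 then (if p.2 * q.2 = 1 then l else (p.1, p.2 * q.2) :: l)
      else if p.2 = 1 then q :: l else p :: q :: l

lemma pr_consR (p : X × A) (l : List (X × A)) : pr (consR p l) = fp p.1 p.2 * pr l := by
  rcases l with _ | ⟨q, l⟩
  · simp only [consR]
    split_ifs with h
    · simp [h]
    · simp
  · simp only [consR]
    split_ifs with h1 h2 h3
    · rw [pr_cons, ← mul_assoc, h1, ← map_mul, h2, map_one, one_mul]
    · rw [pr_cons, pr_cons, ← mul_assoc, h1, ← map_mul]
    · rw [h3, map_one, one_mul]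
    · rw [pr_cons]

lemma Rd.consR {p : X × A} {l : List (X × A)} (h : Rd l) : Rd (BH.consR p l) := by
  rcases l with _ | ⟨q, l⟩
  · simp only [BH.consR]
    split_ifs with h'
    · exact Rd.nil
    · exact ⟨by simpa using h', List.IsChain.singleton _⟩
  · simp only [BH.consR]
    split_ifs with h1 h2 h3
    · exact h.tail
    · refine ⟨?_, ?_⟩
      · intro r hr
        rcases List.mem_cons.1 hr with rfl | hr
        · exact h2
        · exact h.1 r (by simp [hr])
      · have := h.2
        rw [List.isChain_cons] at this ⊢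
        refine ⟨?_, this.2⟩
        intro y hy
        rw [← h1]
        exact this.1 y hy
    · exact h
    · refine ⟨?_, ?_⟩
      · intro r hr
        rcases List.mem_cons.1 hr with rfl | hr
        · exact h3
        · exact h.1 r hr
      · rw [List.isChain_cons_cons]
        exact ⟨fun h => h1 h.symm, h.2⟩

/-- The reduced form of a list. -/
noncomputable def rdc (l : List (X × A)) : List (X × A) := l.foldr consR []

@[simp] lemma rdc_nil : rdc ([] : List (X × A)) = [] := rfl
@[simp] lemma rdc_cons (p : X × A) (l : List (X × A)) : rdc (p :: l) = consR p (rdc l) := rfl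

lemma rdc_rd (l : List (X × A)) : Rd (rdc l) := by
  induction l with
  | nil => exact Rd.nil
  | cons p l ih => exact ih.consR

@[simp] lemma pr_rdc (l : List (X × A)) : pr (rdc l) = pr l := by
  induction l with
  | nil => rfl
  | cons p l ih => rw [rdc_cons, pr_consR, ih, pr_cons]

lemma consR_index {p q : X × A} {l : List (X × A)} (h : q ∈ consR p l) :
    q.1 = p.1 ∨ ∃ r ∈ l, r.1 = q.1 := by
  rcases l with _ | ⟨r, l⟩
  · simp only [consR] at h
    split_ifs at h with h'
    · simp at h
    · simp at h; left; rw [h]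
  · simp only [consR] at h
    split_ifs at h with h1 h2 h3
    · right; exact ⟨q, by simp [h], rfl⟩
    · rcases List.mem_cons.1 h with rfl | h
      · left; rfl
      · right; exact ⟨q, by simp [h], rfl⟩
    · right; exact ⟨q, h, rfl⟩
    · rcases List.mem_cons.1 h with rfl | h
      · left; rfl
      · right; exact ⟨q, h, rfl⟩

lemma rdc_index {l : List (X × A)} : ∀ {q : X × A}, q ∈ rdc l → ∃ r ∈ l, r.1 = q.1 := by
  induction l with
  | nil => intro q h; simp at h
  | cons p l ih =>
    intro q h
    rcases consR_index h with h | ⟨r, hr, h'⟩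
    · exact ⟨p, by simp, h.symm⟩
    · obtain ⟨r', h1, h2⟩ := ih hr
      exact ⟨r', by simp [h1], h2.trans h'⟩

lemma exists_list (n : FP X A) : ∃ l : List (X × A), pr l = n := by
  induction n using CoprodI.induction_on with
  | one => exact ⟨[], rfl⟩
  | of i m => exact ⟨[(i, m)], by simp [fp]⟩
  | mul x y hx hy =>
    obtain ⟨l, rfl⟩ := hx
    obtain ⟨l', rfl⟩ := hy
    exact ⟨l ++ l', by simp⟩

/-- The reduced form of an element. -/
noncomputable def nf (n : FP X A) : List (X × A) := rdc (Classical.choose (exists_list n))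

lemma nf_rd (n : FP X A) : Rd (nf n) := rdc_rd _

@[simp] lemma pr_nf (n : FP X A) : pr (nf n) = n := by
  rw [nf, pr_rdc]
  exact Classical.choose_spec (exists_list n)

lemma nf_pr (l : List (X × A)) : nf (pr l) = rdc l :=
  Rd.inj (nf_rd _) (rdc_rd _) (by simp)

lemma nf_eq {n : FP X A} {l : List (X × A)} (h : Rd l) (e : n = pr l) : nf n = l :=
  Rd.inj (nf_rd _) h (by simp [e])

@[simp] lemma nf_one : nf (1 : FP X A) = [] := nf_eq Rd.nil rfl

lemma nf_fp_mul (x : X) (a : A) (n : FP X A) : nf (fp x a * n) = consR (x, a) (nf n) :=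
  nf_eq (nf_rd n).consR (by rw [pr_consR, pr_nf])

lemma nf_eq_nil {n : FP X A} : nf n = [] ↔ n = 1 := by
  constructor
  · intro h
    have := pr_nf n
    rw [h] at this
    exact this.symm
  · rintro rfl; exact nf_one

/-- Induction on the elements, by left multiplication. -/
lemma FP.induct {P : FP X A → Prop} (h1 : P 1) (h : ∀ x a n, P n → P (fp x a * n)) (n : FP X A) :
    P n := by
  obtain ⟨l, rfl⟩ := exists_list n
  induction l with
  | nil => exact h1
  | cons p l ih => rw [pr_cons]; exact h _ _ _ ih

lemma nf_mul_index {n m : FP X A} {q : X × A} (h : q ∈ nf (n * m)) :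
    (∃ r ∈ nf n, r.1 = q.1) ∨ ∃ r ∈ nf m, r.1 = q.1 := by
  have : nf (n * m) = rdc (nf n ++ nf m) := by
    rw [← nf_pr, pr_append, pr_nf, pr_nf]
  rw [this] at h
  obtain ⟨r, hr, h'⟩ := rdc_index h
  rcases List.mem_append.1 hr with hr | hr
  · exact Or.inl ⟨r, hr, h'⟩
  · exact Or.inr ⟨r, hr, h'⟩

lemma nf_fp_index {x : X} {a : A} {q : X × A} (h : q ∈ nf (fp x a)) : q.1 = x := by
  have h1 := nf_fp_mul x a 1
  rw [mul_one, nf_one] at h1
  rw [h1] at h
  rcases consR_index h with h | ⟨r, hr, -⟩
  · exact h
  · simp at hr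

lemma nf_inv_index {n : FP X A} {q : X × A} (h : q ∈ nf n⁻¹) : ∃ r ∈ nf n, r.1 = q.1 := by
  have : n⁻¹ = pr ((nf n).reverse.map fun p => (p.1, p.2⁻¹)) := by
    conv_lhs => rw [← pr_nf n]
    simp only [pr, List.prod_inv_reverse, List.map_map, List.map_reverse]
    congr 2
  rw [this, nf_pr] at h
  obtain ⟨r, hr, h'⟩ := rdc_index h
  obtain ⟨s, hs, rfl⟩ := List.mem_map.1 hr
  exact ⟨s, by simpa using hs, h'⟩

end FPdef

section Map

variable {X A X' A' X'' A'' : Type} [Group A] [Group A'] [Group A'']

/-- Functoriality. -/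
def mapFP (f : X → X') (β : A →* A') : FP X A →* FP X' A' :=
  CoprodI.lift fun x => (fp (f x)).comp β

@[simp] lemma mapFP_fp (f : X → X') (β : A →* A') (x : X) (a : A) :
    mapFP f β (fp x a) = fp (f x) (β a) := by
  simp [mapFP, fp]

lemma FP.hom_ext {N : Type*} [Monoid N] {f g : FP X A →* N}
    (h : ∀ x a, f (fp x a) = g (fp x a)) : f = g := by
  apply CoprodI.ext_hom
  intro x
  ext a
  exact h x a

lemma mapFP_comp (f : X → X') (β : A →* A') (f' : X' → X'') (β' : A' →* A'') :
    (mapFP f' β').comp (mapFP f β) = mapFP (f' ∘ f) (β'.comp β) :=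
  FP.hom_ext fun x a => by simp

lemma mapFP_id : mapFP (id : X → X) (MonoidHom.id A) = MonoidHom.id _ :=
  FP.hom_ext fun x a => by simp

variable {G : Type} [Group G]

/-- The action of a group on a free power. -/
def actFP (a : G →* Equiv.Perm X) (b : G →* MulAut A) : G →* MulAut (FP X A) where
  toFun g :=
    { toFun := mapFP (a g) (b g).toMonoidHom
      invFun := mapFP (a g⁻¹) (b g⁻¹).toMonoidHom
      left_inv := by
        intro n
        have : (mapFP (a g⁻¹) (b g⁻¹).toMonoidHom).comp (mapFP (a g) (b g).toMonoidHom) =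
            MonoidHom.id _ := FP.hom_ext fun x c => by simp
        exact DFunLike.congr_fun this n
      right_inv := by
        intro n
        have : (mapFP (a g) (b g).toMonoidHom).comp (mapFP (a g⁻¹) (b g⁻¹).toMonoidHom) =
            MonoidHom.id _ := FP.hom_ext fun x c => by simp
        exact DFunLike.congr_fun this n
      map_mul' := map_mul _ }
  map_one' := by
    apply MulEquiv.ext
    intro n
    have : mapFP (a 1) (b 1).toMonoidHom = MonoidHom.id (FP X A) :=
      FP.hom_ext fun x c => by simp
    exact DFunLike.congr_fun this n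
  map_mul' g h := by
    apply MulEquiv.ext
    intro n
    have : mapFP (a (g * h)) (b (g * h)).toMonoidHom =
        (mapFP (a g) (b g).toMonoidHom).comp (mapFP (a h) (b h).toMonoidHom) :=
      FP.hom_ext fun x c => by simp
    exact DFunLike.congr_fun this n

@[simp] lemma actFP_fp (a : G →* Equiv.Perm X) (b : G →* MulAut A) (g : G) (x : X) (c : A) :
    actFP a b g (fp x c) = fp (a g x) (b g c) := by
  change mapFP (a g) (b g).toMonoidHom (fp x c) = _
  simp

lemma actFP_pr (a : G →* Equiv.Perm X) (b : G →* MulAut A) (g : G) (l : List (X × A)) :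
    actFP a b g (pr l) = pr (l.map fun p => (a g p.1, b g p.2)) := by
  induction l with
  | nil => simp
  | cons p l ih => simp [ih]

lemma Rd.act (a : G →* Equiv.Perm X) (b : G →* MulAut A) (g : G) {l : List (X × A)} (h : Rd l) :
    Rd (l.map fun p => (a g p.1, b g p.2)) := by
  refine ⟨?_, ?_⟩
  · intro q hq
    obtain ⟨p, hp, rfl⟩ := List.mem_map.1 hq
    simpa using h.1 p hp
  · rw [List.isChain_map]
    refine h.2.imp ?_
    intro p q hpq
    simpa using hpq

lemma nf_act (a : G →* Equiv.Perm X) (b : G →* MulAut A) (g : G) (n : FP X A) :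
    nf (actFP a b g n) = (nf n).map fun p => (a g p.1, b g p.2) :=
  nf_eq ((nf_rd n).act a b g) (by rw [← actFP_pr, pr_nf])

end Map

/-- Decompose a list that is not a chain. -/
lemma exists_not_chain {β : Type} {r : β → β → Prop} {l : List β} (h : ¬ l.IsChain r) :
    ∃ p a b s, l = p ++ a :: b :: s ∧ ¬ r a b := by
  induction l with
  | nil => exact absurd List.IsChain.nil h
  | cons a l ih =>
    rcases l with _ | ⟨b, l⟩
    · exact absurd (List.IsChain.singleton _) h
    · by_cases hab : r a b
      · have : ¬ (b :: l).IsChain r := fun h' => h (List.isChain_cons_cons.2 ⟨hab, h'⟩)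
        obtain ⟨p, c, d, s, hl, hcd⟩ := ih this
        exact ⟨a :: p, c, d, s, by rw [hl]; rfl, hcd⟩
      · exact ⟨[], a, b, l, rfl, hab⟩

end Pool.Agent.BH
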