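import Pool.Agent.BH.MF
import Pool.Agent.BH.MB2
import Pool.Agent.BH.MD2

set_option autoImplicit false

/-!
# Module M, section MF: the center of the model
-/

namespace Pool.Agent.BH

open Monoid

namespace Dat

variable {𝔇 : Dat}

theorem center_π (hg : 𝔇.Good) (x : FreeGroup (Gen 𝔇.J 𝔇.B 𝔇.Hg))
    (hx : ∀ y, 𝔇.π x * 𝔇.π y = 𝔇.π y * 𝔇.π x) : 𝔇.π x = 1 :=
  center_π_of w_not_θ (θ_inj hg) x hx

end Dat

end Pool.Agent.BH
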