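import Pool.Agent.BH.ME2
import Pool.Agent.BH.MF
import Pool.Agent.BH.MEmbed
import Pool.Agent.BH.MB2
import Pool.Agent.BH.FixPt
import Pool.Agent.BH.KerLe

set_option autoImplicit false

/-!
# Module MH: completeness, the center, the embedding
-/

namespace Pool.Agent.BH

open Monoid

attribute [-simp] FreeGroup.mul_mk FreeGroup.inv_mk

namespace MH

section

variable {J B Hg H : Type} [Finite J] [Finite B] [Finite Hg] [Group H] (S : Sys J B Hg)
  (hH : FreeGroup Hg →* H) (pt pb : List B) (N : Subgroup (FreeGroup XG)) [hN : N.Normal]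

/-- The data. -/
abbrev dat : Dat where
  J := J
  B := B
  Hg := Hg
  H := H
  gH := inferInstance
  S := S
  hH := hH
  pt := pt
  pb := pb
  N := N
  nN := hN

/-- Factorisation of an injective homomorphism. -/
theorem factor {A B C : Type*} [Group A] [Group B] [Group C] (f : A →* C) (g : B →* C)
    (hf : Function.Injective f) (hg : Function.Injective g) (h : ∀ b, g b ∈ f.range) :
    ∃ k : B →* A, Function.Injective k := by
  choose k hk using h
  refine ⟨MonoidHom.mk' k fun a b => hf (by rw [map_mul, hk, hk, hk, map_mul]), ?_⟩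
  intro a b hab
  apply hg
  rw [← hk a, ← hk b]
  exact congrArg f hab

/-- A constant that depends on the system only. -/
theorem exists_const : ∃ c : ℕ, 1000 ≤ c ∧ (∀ j, (S.top j).length ≤ c) ∧
    (∀ j, (S.bot j).length ≤ c) ∧ ∀ y, 10 * ((S.idx y + 2) * rr) ≤ c := by
  obtain ⟨c1, h1⟩ := (Set.finite_range fun j => (S.top j).length).bddAbove
  obtain ⟨c2, h2⟩ := (Set.finite_range fun j => (S.bot j).length).bddAbove
  obtain ⟨c3, h3⟩ := (Set.finite_range fun y => 10 * ((S.idx y + 2) * rr)).bddAbove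
  refine ⟨1000 + c1 + c2 + c3, by omega, fun j => ?_, fun j => ?_, fun y => ?_⟩
  · have := h1 ⟨j, rfl⟩
    simp only at this
    omega
  · have := h2 ⟨j, rfl⟩
    simp only at this
    omega
  · have := h3 ⟨y, rfl⟩
    simp only at this
    omega

variable {S hH pt pb N}

lemma big {c : ℕ} (hc : 1000 ≤ c ∧ (∀ j, (S.top j).length ≤ c) ∧
    (∀ j, (S.bot j).length ≤ c) ∧ ∀ y, 10 * ((S.idx y + 2) * rr) ≤ c) (n : ℕ) :
    (dat S hH pt pb N).Big n (c + n + pt.length + pb.length) := by
  obtain ⟨h1, h2, h3, h4⟩ := hc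
  refine ⟨by omega, ?_, ?_, fun j => ?_, fun j => ?_, fun y => ?_, by omega⟩
  · change pt.length ≤ _
    omega
  · change pb.length ≤ _
    omega
  · have := h2 j
    change (S.top j).length ≤ _
    omega
  · have := h3 j
    change (S.bot j).length ≤ _
    omega
  · have := h4 y
    change 10 * ((S.idx y + 2) * rr) ≤ _
    omega

end

end MH

open MH

theorem complete {J B Hg H : Type} [Finite J] [Finite B] [Finite Hg] [Group H]
    (S : Sys J B Hg) (hH : FreeGroup Hg →* H) :
    ∃ c : ℕ, ∀ (pt pb : List B) (N : Subgroup (FreeGroup XG)) [N.Normal],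
      (∀ t, FreeGroup.mk (S.labs t) ∈ N → ¬ S.Match pt pb t) →
      ∀ (QT : Set (List (XG × Bool))) (w : List (XG × Bool)),
        (∀ w', w'.length < w.length → FreeGroup.mk w' ∈ N → w' ∈ QT) →
        inclX (FreeGroup.mk w) ∈ S.ker pt pb hH.ker N →
        Der (S.Rel pt pb {l | hH (FreeGroup.mk l) = 1} QT)
          ((c + w.length + pt.length + pb.length) ^ 12) (xW w) [] := by
  obtain ⟨c, hc⟩ := exists_const S
  refine ⟨c, ?_⟩
  intro pt pb N _ hgood QT w hQT hw
  have hπ : (dat S hH pt pb N).π (inclX (FreeGroup.mk w)) = 1 := Dat.ker_le_π hw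
  have h1 := Dat.complete' (𝔇 := dat S hH pt pb N) (big hc w.length) hgood w rfl hπ
  have h2 : E ((dat S hH pt pb N).Rn w.length) ((c + w.length + pt.length + pb.length) ^ 12)
      (xW w) [] := by
    refine ⟨?_, Nat.zero_le _, h1⟩
    have h3 : (xW w : W J B Hg).length = w.length := by simp [xW]
    have h4 : w.length ≤ c + w.length + pt.length + pb.length := by omega
    exact (h3.le.trans h4).trans (Nat.le_self_pow (by norm_num) _)
  refine (E.mono_rel (R' := S.Rel pt pb {l | hH (FreeGroup.mk l) = 1} QT) ?_ h2).der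
  intro ρ hρ
  cases hρ with
  | free x ε => exact Sys.Rel.free x ε
  | a _ h => exact Sys.Rel.a _ h
  | u u _ h => exact Sys.Rel.u u _ h
  | h l h => exact Sys.Rel.h l h
  | q l h => exact Sys.Rel.q l (hQT l h.1 h.2)

section

variable {J B Hg H : Type} [Finite J] [Finite B] [Finite Hg] [Group H] {S : Sys J B Hg}
  {hH : FreeGroup Hg →* H} {pt pb : List B} {N : Subgroup (FreeGroup XG)} [N.Normal]

/-- The model is faithful. -/
theorem MH.mem_ker (hF : Fix S hH pt pb N) {x : FreeGroup (Gen J B Hg)}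
    (h : (dat S hH pt pb N).π x = 1) : x ∈ S.ker pt pb hH.ker N := by
  have h1 : x⁻¹ * inclX (S.sub x) ∈ S.ker pt pb hH.ker N := sub_mem x hH.ker N
  have h2 : (dat S hH pt pb N).π (x⁻¹ * inclX (S.sub x)) = 1 := Dat.ker_le_π h1
  rw [map_mul, map_inv, inv_mul_eq_one, h] at h2
  replace h2 := h2.symm
  obtain ⟨w, hw⟩ : ∃ w, FreeGroup.mk w = S.sub x := ⟨_, FreeGroup.mk_toWord⟩
  rw [← hw] at h2 h1
  obtain ⟨c, hc⟩ := exists_const S
  have h3 := Dat.complete' (𝔇 := dat S hH pt pb N) (big hc w.length) hF.good w rfl h2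
  have h4 : inclX (FreeGroup.mk w) ∈ S.ker pt pb hH.ker N := by
    rw [FixPt.inclX_mk]
    refine (FixPt.der_sound (S := S) (pt := pt) (pb := pb) (HN := (hH.ker : Set (FreeGroup Hg)))
      (M := (N : Set (FreeGroup XG))) (fun l hl => hl) (fun l hl => hl.2) h3).2 ?_
    exact one_mem _
  have h5 := (S.ker pt pb hH.ker N).mul_mem h4 (inv_mem h1)
  have h6 : inclX (FreeGroup.mk w) * (x⁻¹ * inclX (FreeGroup.mk w))⁻¹ = x := by group
  rwa [h6] at h5

theorem Fix.center (hF : Fix S hH pt pb N) (x : FreeGroup (Gen J B Hg))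
    (hx : ∀ y, x * y * x⁻¹ * y⁻¹ ∈ S.ker pt pb hH.ker N) : x ∈ S.ker pt pb hH.ker N := by
  apply MH.mem_ker hF
  apply Dat.center_π_of (𝔇 := dat S hH pt pb N) Dat.w_not_θ (Dat.θ_inj hF.good)
  intro y
  have h1 : (dat S hH pt pb N).π (x * y * x⁻¹ * y⁻¹) = 1 := Dat.ker_le_π (hx y)
  rw [map_mul, map_mul, map_mul, map_inv, map_inv, mul_inv_eq_one, mul_inv_eq_iff_eq_mul] at h1
  exact h1

theorem Fix.embed (hF : Fix S hH pt pb N) (hs : Function.Surjective hH) :
    ∃ lam : Coprod H (FreeGroup (Fin 2)) →* FreeGroup (Gen J B Hg) ⧸ S.ker pt pb hH.ker N,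
      Function.Injective lam := by
  obtain ⟨lam, hinj, h1, h2, h3⟩ := Dat.embed_π_of (𝔇 := dat S hH pt pb N) (Dat.θ_inj hF.good)
  -- the model is a quotient of the free group by the kernel
  have hle : S.ker pt pb hH.ker N ≤ (dat S hH pt pb N).π.ker :=
    Dat.ker_le_π (𝔇 := dat S hH pt pb N)
  let πb : FreeGroup (Gen J B Hg) ⧸ S.ker pt pb hH.ker N →* (dat S hH pt pb N).Md :=
    QuotientGroup.lift _ (dat S hH pt pb N).π hle
  have hπb : Function.Injective πb := by
    rw [injective_iff_map_eq_one]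
    intro y hy
    obtain ⟨x, rfl⟩ := QuotientGroup.mk'_surjective _ y
    exact (QuotientGroup.eq_one_iff x).2 (MH.mem_ker hF hy)
  -- the range of `lam`
  have hrange : ∀ z, lam z ∈ πb.range := by
    have hr : ∀ x, (dat S hH pt pb N).π x ∈ πb.range := fun x =>
      ⟨QuotientGroup.mk' _ x, rfl⟩
    have hl : ∀ m : H, lam (Coprod.inl m) ∈ πb.range := by
      intro m
      obtain ⟨y, rfl⟩ := hs m
      have : (lam.comp Coprod.inl).comp hH = ((dat S hH pt pb N).π).comp homH := by
        ext η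
        rw [MonoidHom.comp_apply, MonoidHom.comp_apply, MonoidHom.comp_apply, homH,
          FreeGroup.lift_apply_of]
        exact h1 η
      have h4 : lam (Coprod.inl (hH y)) = (dat S hH pt pb N).π (homH y) :=
        DFunLike.congr_fun this y
      rw [h4]
      exact hr _
    have hr2 : ∀ m : FreeGroup (Fin 2), lam (Coprod.inr m) ∈ πb.range := by
      intro m
      let f : FreeGroup (Fin 2) →* FreeGroup (Gen J B Hg) := FreeGroup.lift
        ![FreeGroup.of (.k (.y (.s none))), FreeGroup.of (.k (.y .r))]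
      have : lam.comp Coprod.inr = ((dat S hH pt pb N).π).comp f := by
        ext i
        rw [MonoidHom.comp_apply, MonoidHom.comp_apply]
        simp only [f, FreeGroup.lift_apply_of]
        fin_cases i
        · exact h2
        · exact h3
      have h4 : lam (Coprod.inr m) = (dat S hH pt pb N).π (f m) := DFunLike.congr_fun this m
      rw [h4]
      exact hr _
    intro z
    induction z using Coprod.induction_on with
    | inl m => exact hl m
    | inr m => exact hr2 m
    | mul a b ha hb => rw [map_mul]; exact mul_mem ha hb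
  exact MH.factor (A := FreeGroup (Gen J B Hg) ⧸ S.ker pt pb hH.ker N)
    (B := Coprod H (FreeGroup (Fin 2))) (C := (dat S hH pt pb N).Md) πb lam hπb hinj hrange

end

end Pool.Agent.BH
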