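import Pool.Agent.BH.MDefs

set_option autoImplicit false

/-!
# Module M: lengths and norms of position words
-/

namespace Pool.Agent.BH

open Monoid

attribute [-simp] FreeGroup.mul_mk FreeGroup.inv_mk

namespace Dat

variable {𝔇 : Dat}

lemma gK_length (k : ℕ) : (gK (𝔇 := 𝔇) k).length = 2 * k := by
  simp [gK, List.length_flatten]; omega

lemma nm_gK (k : ℕ) : nm (gK (𝔇 := 𝔇) k) = 0 := by
  induction k with
  | zero => rfl
  | succ k ih =>
    have : gK (𝔇 := 𝔇) (k + 1) = [(KG.w, true), (KG.v, true)] ++ gK k := by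
      simp [gK, List.replicate_succ]
    rw [this, nm_append, ih]
    rfl

lemma mK_length (u : List (Option 𝔇.J)) :
    (mK u).length = 2 * 𝔇.pb.length + 2 * 𝔇.pt.length + 4 * u.length + 4 := by
  simp [mK, cj_length]; omega

lemma nm_mK (u : List (Option 𝔇.J)) : nm (mK u) = 4 * u.length := by
  have h1 : ∀ l : List 𝔇.B, nm (𝔇 := 𝔇) (l.map fun β => (KG.y (.b β), true)) = 0 := by
    intro l
    induction l with
    | nil => rfl
    | cons a l ih => 
      have : (List.map (fun β => (KG.y (.b β), true)) (a :: l) : 𝔇.KW) =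
        [(KG.y (.b a), true)] ++ l.map fun β => (KG.y (.b β), true) := rfl
      rw [this, nm_append, ih]; rfl
  have h2 : ∀ l : List (Option 𝔇.J), nm (𝔇 := 𝔇) (l.map fun σ => (KG.y (.s σ), true)) = l.length := by
    intro l
    induction l with
    | nil => rfl
    | cons a l ih => 
      have : (List.map (fun β => (KG.y (.s β), true)) (a :: l) : 𝔇.KW) =
        [(KG.y (.s a), true)] ++ l.map fun β => (KG.y (.s β), true) := rfl
      rw [this, nm_append, ih, List.length_cons, Nat.add_comm]; rfl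
  have h3 : nm (𝔇 := 𝔇) [(KG.y .r, true)] = 0 := rfl
  have h4 : ∀ ε, nm (𝔇 := 𝔇) [(KG.e, ε)] = 0 := fun ε => rfl
  simp only [mK, cj, nm_append, nm_inv, h1, h2, h3, h4]
  omega

lemma nm_le_length (x : 𝔇.KW) : nm x ≤ x.length := by
  induction x with
  | nil => rfl
  | cons a x ih =>
    have : a :: x = [a] ++ x := rfl
    rw [this, nm_append, List.length_append]
    have h : nm [a] ≤ 1 := by
      rcases a with ⟨κ, ε⟩
      rcases κ with _ | _ | _ | n
      · exact Nat.zero_le _
      · exact Nat.zero_le _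
      · exact Nat.zero_le _
      · rcases n with _ | _ | _ | _ | _ | _ <;> first | exact le_rfl | exact Nat.zero_le _
    simp only [List.length_cons, List.length_nil]
    omega

lemma pw_bd {n X : ℕ} (hX : 𝔇.Big n X) (hn : 0 < n) {i : 𝔇.ZI} (h1 : i.1.length ≤ n)
    (h2 : 2 * rr * nm i.1 ≤ n) (h3 : i.2.1.1 ≤ X) (h4 : ∀ u ∈ i.2.1.2, rr * u.length ≤ n) :
    (pw i).length ≤ 8 * X ∧ 8 * nm (pw i) < n := by
  obtain ⟨x, ⟨k, o⟩, a⟩ := i
  simp only [rr] at h1 h2 h3 h4
  have a1 := hX.hn
  have a2 := hX.hpt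
  have a3 := hX.hpb
  have a4 := hX.h1000
  rcases o with _ | u
  · simp only [pw, zD, List.append_nil, List.length_append, nm_append, gK_length, nm_gK]
    omega
  · have h5 := h4 u rfl
    simp only [pw, zD, List.length_append, nm_append, gK_length, nm_gK, mK_length, nm_mK]
    omega

end Dat

end Pool.Agent.BH
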