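import Pool.Agent.BH.MDer
import Pool.Agent.BH.MFP

set_option autoImplicit false

/-!
# The model
-/

namespace Pool.Agent.BH

open Monoid

attribute [-simp] FreeGroup.mul_mk FreeGroup.inv_mk

/-- An involution as an action of `ℤˣ`. -/
def invo {G : Type} [Group G] (σ : MulAut G) (h : σ * σ = 1) : ℤˣ →* MulAut G where
  toFun u := if u = 1 then 1 else σ
  map_one' := by simp
  map_mul' u v := by
    rcases Int.units_eq_one_or u with rfl | rfl <;> rcases Int.units_eq_one_or v with rfl | rfl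
    · simp
    · simp
    · simp
    · have : ((-1 : ℤˣ) = 1) = False := by decide
      simp [this, h]

@[simp] lemma invo_neg {G : Type} [Group G] (σ : MulAut G) (h : σ * σ = 1) :
    invo σ h (-1) = σ := by
  have : ((-1 : ℤˣ) = 1) = False := by decide
  simp [invo, this]

/-- The cyclic group of order three. -/
abbrev Z3 := Multiplicative (ZMod 3)

/-- Its generator. -/
def g3 : Z3 := Multiplicative.ofAdd 1

lemma g3_pow : g3 * g3 * g3 = 1 := by decide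

lemma g3_ne : g3 ≠ 1 := by decide

/-- The data of the construction. -/
structure Dat where
  J : Type
  B : Type
  Hg : Type
  H : Type
  gH : Group H
  S : Sys J B Hg
  hH : FreeGroup Hg →* H
  pt : List B
  pb : List B
  N : Subgroup (FreeGroup XG)
  nN : N.Normal

attribute [instance] Dat.gH Dat.nN

namespace Dat

variable (𝔇 : Dat)

/-- The words in the letters of `K`. -/
abbrev KW := List (KG 𝔇.J 𝔇.B 𝔇.Hg × Bool)

/-- The words in all letters. -/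
abbrev WW := W 𝔇.J 𝔇.B 𝔇.Hg

/-- The group generated by the letters `q`. -/
abbrev Q := FreeGroup XG ⧸ 𝔇.N

/-- The group generated by the letters `q`, `b`. -/
abbrev D := 𝔇.Q × FreeGroup 𝔇.B

/-- The free group on the letters `s` and `r` (`r` is the letter `none`). -/
abbrev FS := FreeGroup (Option (Option 𝔇.J))

/-- All factors of `L` together. -/
abbrev Γ := 𝔇.D × 𝔇.H × 𝔇.FS × Z3 × Z3

end Dat

/-- Names of the free factors of `L`. -/
inductive LI | d | h | s | w | v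
  deriving DecidableEq

namespace Dat

variable (𝔇 : Dat)

/-- The free product `L`. -/
abbrev L := FP LI 𝔇.Γ

/-- Inversion of the last two factors. -/
def sΓ : MulAut 𝔇.Γ where
  toFun x := (x.1, x.2.1, x.2.2.1, x.2.2.2.1⁻¹, x.2.2.2.2⁻¹)
  invFun x := (x.1, x.2.1, x.2.2.1, x.2.2.2.1⁻¹, x.2.2.2.2⁻¹)
  left_inv x := by simp
  right_inv x := by simp
  map_mul' x y := by simp [mul_comm]

lemma sΓ_mul : 𝔇.sΓ * 𝔇.sΓ = 1 := by
  ext x <;> simp [sΓ]

/-- The automorphism of `L`. -/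
def cL : ℤˣ →* MulAut 𝔇.L := actFP 1 (invo 𝔇.sΓ 𝔇.sΓ_mul)

/-- The extension of `L`. -/
abbrev LC := 𝔇.L ⋊[𝔇.cL] ℤˣ

/-- Inversion in a commutative group. -/
def iv3 : MulAut Z3 := MulEquiv.inv Z3

lemma iv3_mul : iv3 * iv3 = 1 := by
  ext x; simp [iv3]

/-- The action on the indices. -/
def aL : 𝔇.LC →* Equiv.Perm 𝔇.L :=
  SemidirectProduct.lift (MulAction.toPermHom 𝔇.L 𝔇.L)
    ((MulAut.toPerm 𝔇.L).comp 𝔇.cL) (by
      intro u
      refine MonoidHom.ext fun x => Equiv.ext fun y => ?_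
      change 𝔇.cL u x * y = 𝔇.cL u (x * (𝔇.cL u).symm y)
      rw [map_mul, MulEquiv.apply_symm_apply])

lemma aL_apply (x : 𝔇.LC) (h : 𝔇.L) : 𝔇.aL x h = x.left * 𝔇.cL x.right h := rfl

/-- The action on the exponents. -/
def bL : 𝔇.LC →* MulAut Z3 := (invo iv3 iv3_mul).comp SemidirectProduct.rightHom

/-- The free product of the copies of the group of order three. -/
abbrev Nn := FP 𝔇.L Z3

/-- The base group. -/
abbrev K := 𝔇.Nn ⋊[actFP 𝔇.aL 𝔇.bL] 𝔇.LC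

variable {𝔇}

/-- Embedding of `D`. -/
def inD : 𝔇.D →* 𝔇.L := (fp LI.d).comp (MonoidHom.inl _ _)

/-- Embedding of `H`. -/
def inH : 𝔇.H →* 𝔇.L := (fp LI.h).comp ((MonoidHom.inr _ _).comp (MonoidHom.inl _ _))

/-- Embedding of the free group. -/
def inS : 𝔇.FS →* 𝔇.L :=
  (fp LI.s).comp ((MonoidHom.inr _ _).comp ((MonoidHom.inr _ _).comp (MonoidHom.inl _ _)))

/-- The letter `w`. -/
def wL : 𝔇.L := fp LI.w (1, 1, 1, g3, 1)

/-- The letter `v`. -/
def vL : 𝔇.L := fp LI.v (1, 1, 1, 1, g3)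

/-- Projection to `D`. -/
def prD : 𝔇.L →* 𝔇.D := CoprodI.lift fun i => match i with
  | .d => MonoidHom.fst _ _
  | _ => 1

/-- Projection to `H`. -/
def prH : 𝔇.L →* 𝔇.H := CoprodI.lift fun i => match i with
  | .h => (MonoidHom.fst _ _).comp (MonoidHom.snd _ _)
  | _ => 1

/-- Projection to the free group. -/
def prS : 𝔇.L →* 𝔇.FS := CoprodI.lift fun i => match i with
  | .s => (MonoidHom.fst _ _).comp ((MonoidHom.snd _ _).comp (MonoidHom.snd _ _))
  | _ => 1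

@[simp] lemma prD_inD (x : 𝔇.D) : prD (inD x) = x := by simp [prD, inD, fp]
@[simp] lemma prS_inD (x : 𝔇.D) : prS (inD x) = 1 := by simp [prS, inD, fp]
@[simp] lemma prS_inS (x : 𝔇.FS) : prS (𝔇 := 𝔇) (inS x) = x := by simp [prS, inS, fp]
@[simp] lemma prD_inS (x : 𝔇.FS) : prD (𝔇 := 𝔇) (inS x) = 1 := by simp [prD, inS, fp]
@[simp] lemma prD_wL : prD (wL : 𝔇.L) = 1 := by simp [prD, wL, fp]
@[simp] lemma prD_vL : prD (vL : 𝔇.L) = 1 := by simp [prD, vL, fp]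
@[simp] lemma prS_wL : prS (wL : 𝔇.L) = 1 := by simp [prS, wL, fp]
@[simp] lemma prS_vL : prS (vL : 𝔇.L) = 1 := by simp [prS, vL, fp]
@[simp] lemma prD_inH (x : 𝔇.H) : prD (𝔇 := 𝔇) (inH x) = 1 := by simp [prD, inH, fp]
@[simp] lemma prS_inH (x : 𝔇.H) : prS (𝔇 := 𝔇) (inH x) = 1 := by simp [prS, inH, fp]

lemma cL_fp (i : LI) (x : 𝔇.Γ) : 𝔇.cL (-1) (fp i x) = fp i (𝔇.sΓ x) := by
  simp [cL]

@[simp] lemma cL_inD (x : 𝔇.D) : 𝔇.cL (-1) (inD x) = inD x := by
  rw [inD, MonoidHom.comp_apply, cL_fp]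
  congr 1
  simp [sΓ]
@[simp] lemma cL_inH (x : 𝔇.H) : 𝔇.cL (-1) (inH x) = inH x := by
  rw [inH, MonoidHom.comp_apply, cL_fp]
  congr 1
  simp [sΓ]
@[simp] lemma cL_inS (x : 𝔇.FS) : 𝔇.cL (-1) (inS x) = inS x := by
  rw [inS, MonoidHom.comp_apply, cL_fp]
  congr 1
  simp [sΓ]
@[simp] lemma cL_wL : 𝔇.cL (-1) wL = wL⁻¹ := by
  rw [wL, cL_fp, ← map_inv]
  congr 1
  simp [sΓ]
@[simp] lemma cL_vL : 𝔇.cL (-1) vL = vL⁻¹ := by
  rw [vL, cL_fp, ← map_inv]
  congr 1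
  simp [sΓ]

variable (𝔇)

/-- The value of a label. -/
def α (j : 𝔇.J) : 𝔇.D :=
  (QuotientGroup.mk (FreeGroup.mk (𝔇.S.lab j).toList), FreeGroup.mk ((𝔇.S.top j).map (·, true)))

/-- The value of the bottom of a domino. -/
def β (j : 𝔇.J) : 𝔇.D := (1, FreeGroup.mk ((𝔇.S.bot j).map (·, true)))

variable {𝔇}

/-- The element of a positive word. -/
def sF {J : Type} (u : List (Option J)) : FreeGroup (Option (Option J)) :=
  FreeGroup.mk (u.map fun σ => (some σ, true))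

/-- The element of a reader position. -/
def fo {J : Type} (ρ : Bool) (u : List (Option J)) : FreeGroup (Option (Option J)) :=
  FreeGroup.mk ((if ρ then [(none, true)] else []) ++ u.map fun σ => (some σ, true))

/-- Reading. -/
def rd (δ : 𝔇.D) : Bool → List (Option 𝔇.J) → 𝔇.L
  | ρ, [] => inD δ * inS (fo ρ [])
  | _, none :: u => inD δ * inS (fo false (none :: u))
  | false, some j :: u => rd (δ * 𝔇.α j) false u
  | true, some j :: u => rd (δ * 𝔇.β j) true u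

open scoped Classical in
/-- The class of an element. -/
noncomputable def cl (h : 𝔇.L) : 𝔇.L :=
  if hh : ∃ q : Bool × List (Option 𝔇.J), h = inD (prD h) * inS (fo q.1 q.2) then
    rd (prD h) hh.choose.1 hh.choose.2 else h

/-- Words with positive letters are reduced. -/
lemma pos_red {α : Type} {l l' : List (α × Bool)} (h : FreeGroup.Red l l')
    (hl : ∀ p ∈ l, p.2 = true) : l' = l := by
  induction h using Relation.ReflTransGen.head_induction_on with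
  | refl => rfl
  | head h1 h2 ih =>
    exfalso
    cases h1 with
    | @not L₁ L₂ a b =>
      have h1 := hl (a, b) (by simp)
      have h2 := hl (a, !b) (by simp)
      simp_all

lemma pos_inj {α : Type} {l l' : List (α × Bool)} (h : FreeGroup.mk l = FreeGroup.mk l')
    (hl : ∀ p ∈ l, p.2 = true) (hl' : ∀ p ∈ l', p.2 = true) : l = l' := by
  rw [FreeGroup.Red.exact] at h
  obtain ⟨z, h1, h2⟩ := h
  rw [← pos_red h1 hl, pos_red h2 hl']

lemma fo_inj {J : Type} {ρ ρ' : Bool} {u u' : List (Option J)} (h : fo ρ u = fo ρ' u') :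
    ρ = ρ' ∧ u = u' := by
  have aux : ∀ (ρ : Bool) (u : List (Option J)), ∀ p ∈ ((if ρ then [(none, true)] else []) ++
      u.map fun σ => (some σ, true) : List (Option (Option J) × Bool)), p.2 = true := by
    intro ρ u p hp
    rcases List.mem_append.1 hp with hp | hp
    · cases ρ
      · simp at hp
      · simp at hp; rw [hp]
    · obtain ⟨σ, -, rfl⟩ := List.mem_map.1 hp; rfl
  have h1 := pos_inj h (aux ρ u) (aux ρ' u')
  have hinj : Function.Injective fun σ : Option J => ((some σ, true) : Option (Option J) × Bool) :=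
    fun a b hab => by simpa using hab
  cases ρ <;> cases ρ'
  · simp only [Bool.false_eq_true, if_false, List.nil_append] at h1
    exact ⟨rfl, List.map_injective_iff.2 hinj h1⟩
  · exfalso
    rcases u with _ | ⟨a, u⟩ <;> simp at h1
  · exfalso
    rcases u' with _ | ⟨a, u'⟩ <;> simp at h1
  · simp only [if_true, List.cons_append, List.nil_append, List.cons.injEq, true_and] at h1
    exact ⟨rfl, List.map_injective_iff.2 hinj h1⟩

lemma form_inj {δ δ' : 𝔇.D} {ρ ρ' : Bool} {u u' : List (Option 𝔇.J)}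
    (h : inD δ * inS (fo ρ u) = inD δ' * inS (fo ρ' u')) : δ = δ' ∧ ρ = ρ' ∧ u = u' := by
  have h1 := congrArg prD h
  have h2 := congrArg prS h
  simp only [map_mul, prD_inD, prD_inS, mul_one, prS_inD, prS_inS, one_mul] at h1 h2
  exact ⟨h1, fo_inj h2⟩

lemma cl_form (δ : 𝔇.D) (ρ : Bool) (u : List (Option 𝔇.J)) :
    cl (inD δ * inS (fo ρ u)) = rd δ ρ u := by
  have hp : prD (inD δ * inS (fo ρ u)) = δ := by simp
  have hh : ∃ q : Bool × List (Option 𝔇.J), inD δ * inS (fo ρ u) =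
      inD (prD (inD δ * inS (fo ρ u))) * inS (fo q.1 q.2) := ⟨(ρ, u), by rw [hp]⟩
  rw [cl, dif_pos hh]
  obtain ⟨h2, h3, h4⟩ := form_inj hh.choose_spec
  exact (congrArg (fun x => rd x hh.choose.1 hh.choose.2) h2.symm).trans
    (congrArg₂ (fun x y => rd δ x y) h3.symm h4.symm)

lemma cl_not_form {h : 𝔇.L} (hh : ¬ ∃ (δ : 𝔇.D) (ρ : Bool) (u : List (Option 𝔇.J)),
    h = inD δ * inS (fo ρ u)) : cl h = h := by
  rw [cl, dif_neg]
  rintro ⟨q, hq⟩
  exact hh ⟨_, _, _, hq⟩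

lemma rd_mul (δ δ' : 𝔇.D) (ρ : Bool) (u : List (Option 𝔇.J)) :
    rd (δ * δ') ρ u = inD δ * rd δ' ρ u := by
  induction u generalizing ρ δ' with
  | nil => cases ρ <;> simp [rd, mul_assoc]
  | cons σ u ih =>
    rcases σ with _ | j <;> cases ρ
    · simp [rd, mul_assoc]
    · simp [rd, mul_assoc]
    · simp only [rd, mul_assoc, ih]
    · simp only [rd, mul_assoc, ih]

lemma rd_form (δ : 𝔇.D) (ρ : Bool) (u : List (Option 𝔇.J)) :
    ∃ (δ' : 𝔇.D) (ρ' : Bool) (u' : List (Option 𝔇.J)), rd δ ρ u = inD δ' * inS (fo ρ' u') := by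
  induction u generalizing ρ δ with
  | nil => cases ρ <;> exact ⟨_, _, _, rfl⟩
  | cons σ u ih =>
    rcases σ with _ | j <;> cases ρ
    · exact ⟨_, _, _, rfl⟩
    · exact ⟨_, _, _, rfl⟩
    · exact ih _ _
    · exact ih _ _

lemma cl_mul (δ : 𝔇.D) (h : 𝔇.L) : cl (inD δ * h) = inD δ * cl h := by
  by_cases hh : ∃ (δ : 𝔇.D) (ρ : Bool) (u : List (Option 𝔇.J)), h = inD δ * inS (fo ρ u)
  · obtain ⟨δ', ρ, u, rfl⟩ := hh
    rw [← mul_assoc, ← map_mul, cl_form, cl_form, rd_mul]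
  · rw [cl_not_form hh, cl_not_form]
    rintro ⟨δ', ρ, u, h'⟩
    apply hh
    refine ⟨δ⁻¹ * δ', ρ, u, ?_⟩
    rw [map_mul, mul_assoc, ← h', map_inv, inv_mul_cancel_left]

variable (𝔇)

/-- The subgroup of reader relations. -/
def R1 : Subgroup 𝔇.Nn :=
  Subgroup.closure {x | ∃ h h' a, cl h = cl h' ∧ x = fp h a * (fp h' a)⁻¹}

/-- The subgroup `D` of the extension of `L`. -/
def DL : Subgroup 𝔇.LC := (SemidirectProduct.inl.comp inD).range

variable {𝔇}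

lemma mem_DL {x : 𝔇.LC} : x ∈ 𝔇.DL ↔ ∃ δ : 𝔇.D, SemidirectProduct.inl (inD δ) = x := Iff.rfl

lemma R1_act {x : 𝔇.LC} (hx : x ∈ 𝔇.DL) {n : 𝔇.Nn} (hn : n ∈ 𝔇.R1) :
    actFP 𝔇.aL 𝔇.bL x n ∈ 𝔇.R1 := by
  obtain ⟨δ, rfl⟩ := hx
  unfold R1 at hn ⊢
  induction hn using Subgroup.closure_induction with
  | mem y hy =>
    obtain ⟨h, h', a, hc, rfl⟩ := hy
    apply Subgroup.subset_closure
    refine ⟨inD δ * h, inD δ * h', a, by rw [cl_mul, cl_mul, hc], ?_⟩
    simp [aL_apply, bL]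
  | one => rw [map_one]; exact one_mem _
  | mul a b _ _ ha hb => rw [map_mul]; exact mul_mem ha hb
  | inv a _ ha => rw [map_inv]; exact inv_mem ha

variable (𝔇)

/-- The stabilizer of the base position. -/
def R : Subgroup 𝔇.K where
  carrier := {k | k.left ∈ 𝔇.R1 ∧ k.right ∈ 𝔇.DL}
  one_mem' := ⟨one_mem _, one_mem _⟩
  mul_mem' := by
    rintro a b ⟨h1, h2⟩ ⟨h3, h4⟩
    exact ⟨mul_mem h1 (R1_act h2 h3), mul_mem h2 h4⟩
  inv_mem' := by
    rintro a ⟨h1, h2⟩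
    exact ⟨R1_act (inv_mem h2) (inv_mem h1), inv_mem h2⟩

variable {𝔇}

lemma mem_R {k : 𝔇.K} : k ∈ 𝔇.R ↔ k.left ∈ 𝔇.R1 ∧ k.right ∈ 𝔇.DL := Iff.rfl

variable (𝔇)

/-- The set of positions. -/
abbrev Pos := 𝔇.K ⧸ 𝔇.R

/-- The action on positions. -/
def aK : 𝔇.K →* Equiv.Perm 𝔇.Pos := MulAction.toPermHom _ _

@[simp] lemma aK_apply (k : 𝔇.K) (x : 𝔇.K) : 𝔇.aK k (x : 𝔇.Pos) = ((k * x : 𝔇.K) : 𝔇.Pos) := rfl

/-- The vertex group. -/
abbrev Kz := FP 𝔇.Pos A5 ⋊[actFP 𝔇.aK 1] 𝔇.K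

/-- The letters of `K` in `L`. -/
def lv : KG 𝔇.J 𝔇.B 𝔇.Hg → 𝔇.L
  | .e => 1
  | .w => wL
  | .v => vL
  | .y (.q x) => inD (QuotientGroup.mk (FreeGroup.of x), 1)
  | .y (.b β) => inD (1, FreeGroup.of β)
  | .y (.s σ) => inS (FreeGroup.of (some σ))
  | .y .r => inS (FreeGroup.of none)
  | .y (.h η) => inH (𝔇.hH (FreeGroup.of η))
  | .y .c => 1

/-- The letters of `K` in the extension of `L`. -/
def lc : KG 𝔇.J 𝔇.B 𝔇.Hg → 𝔇.LC
  | .y .c => SemidirectProduct.inr (-1)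
  | κ => SemidirectProduct.inl (𝔇.lv κ)

/-- The letters of `K` in `K`. -/
def kv : KG 𝔇.J 𝔇.B 𝔇.Hg → 𝔇.K
  | .e => SemidirectProduct.inl (fp 1 g3)
  | κ => SemidirectProduct.inr (𝔇.lc κ)

/-- Evaluation of words in `K`. -/
def ev : FreeGroup (KG 𝔇.J 𝔇.B 𝔇.Hg) →* 𝔇.K := FreeGroup.lift 𝔇.kv

variable {𝔇}

/-- Evaluation of a list. -/
def evK (x : 𝔇.KW) : 𝔇.K := 𝔇.ev (FreeGroup.mk x)

@[simp] lemma evK_nil : evK ([] : 𝔇.KW) = 1 := map_one _
@[simp] lemma evK_append (x y : 𝔇.KW) : evK (x ++ y) = evK x * evK y := by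
  rw [evK, mk_append, map_mul]; rfl
@[simp] lemma evK_inv (x : 𝔇.KW) : evK (inv x) = (evK x)⁻¹ := by
  rw [evK, mk_inv, map_inv]; rfl
lemma evK_cons (a : KG 𝔇.J 𝔇.B 𝔇.Hg × Bool) (x : 𝔇.KW) : evK (a :: x) = evK [a] * evK x := by
  rw [← evK_append]; rfl
@[simp] lemma evK_true (κ : KG 𝔇.J 𝔇.B 𝔇.Hg) : evK (𝔇 := 𝔇) [(κ, true)] = 𝔇.kv κ := by
  rw [evK, mk_true, ev, FreeGroup.lift_apply_of]
@[simp] lemma evK_false (κ : KG 𝔇.J 𝔇.B 𝔇.Hg) : evK (𝔇 := 𝔇) [(κ, false)] = (𝔇.kv κ)⁻¹ := by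
  rw [evK, mk_false, map_inv, ev, FreeGroup.lift_apply_of]

/-- The word `g ^ k` in the letters of `K`. -/
def gK (k : ℕ) : 𝔇.KW := (List.replicate k [(KG.w, true), (KG.v, true)]).flatten

/-- The word `m (u)` in the letters of `K`. -/
def mK (u : List (Option 𝔇.J)) : 𝔇.KW :=
  cj ((𝔇.pb.map fun β => (KG.y (.b β), true)) ++ [(KG.y .r, true)] ++
    (u.map fun σ => (KG.y (.s σ), true))) [(KG.e, true)] ++
  cj ((𝔇.pt.map fun β => (KG.y (.b β), true)) ++
    (u.map fun σ => (KG.y (.s σ), true))) [(KG.e, false)]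

variable (𝔇)

/-- Words in the letters of `K` as words in all letters. -/
def kW (x : 𝔇.KW) : 𝔇.WW := x.map fun p => (.k p.1, p.2)

variable {𝔇}

@[simp] lemma kW_nil : 𝔇.kW [] = [] := rfl
@[simp] lemma kW_append (x y : 𝔇.KW) : 𝔇.kW (x ++ y) = 𝔇.kW x ++ 𝔇.kW y := by simp [kW]
@[simp] lemma kW_length (x : 𝔇.KW) : (𝔇.kW x).length = x.length := by simp [kW]
@[simp] lemma kW_inv (x : 𝔇.KW) : 𝔇.kW (inv x) = inv (𝔇.kW x) := by
  simp [kW, inv, FreeGroup.invRev, List.map_reverse, Function.comp_def]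
@[simp] lemma kW_cj (p x : 𝔇.KW) : 𝔇.kW (cj p x) = cj (𝔇.kW p) (𝔇.kW x) := by simp [cj]
lemma kW_cons (a : KG 𝔇.J 𝔇.B 𝔇.Hg × Bool) (x : 𝔇.KW) :
    𝔇.kW (a :: x) = (.k a.1, a.2) :: 𝔇.kW x := rfl

lemma kW_gK (k : ℕ) : 𝔇.kW (gK k) = xW (gX k) := by
  simp [kW, gK, gX, xW, List.map_flatten, xg]

lemma kW_mK (u : List (Option 𝔇.J)) : 𝔇.kW (mK u) = mW 𝔇.pt 𝔇.pb u := by
  simp only [mK, mW, eW, kW_append, kW_cj]
  simp [kW, bW, rW, sW, Function.comp_def]

/-- The copies of `A5` in the vertex group. -/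
def zK (k : 𝔇.K) (a : A5) : 𝔇.Kz := SemidirectProduct.inl (fp (k : 𝔇.Pos) a)

variable (𝔇)

/-- Evaluation in the vertex group (the letters `t` have the value `1`). -/
def zv : Gen 𝔇.J 𝔇.B 𝔇.Hg → 𝔇.Kz
  | .z a => zK 1 a
  | .t _ => 1
  | .k κ => SemidirectProduct.inr (𝔇.kv κ)

/-- Evaluation of words in the vertex group. -/
def evZ : FreeGroup (Gen 𝔇.J 𝔇.B 𝔇.Hg) →* 𝔇.Kz := FreeGroup.lift 𝔇.zv

variable {𝔇}

lemma evZ_kW (x : 𝔇.KW) : 𝔇.evZ (FreeGroup.mk (𝔇.kW x)) = SemidirectProduct.inr (evK x) := by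
  induction x with
  | nil => simp
  | cons a x ih =>
    rw [kW_cons, mk_cons, map_mul, ih, evK_cons, map_mul]
    congr 1
    rcases a with ⟨κ, _ | _⟩
    · rw [mk_false, map_inv, evZ, FreeGroup.lift_apply_of, evK_false, map_inv]; rfl
    · rw [mk_true, evZ, FreeGroup.lift_apply_of, evK_true]; rfl

lemma evZ_z (a : A5) : 𝔇.evZ (FreeGroup.mk [(.z a, true)]) = zK 1 a := by
  rw [mk_true, evZ, FreeGroup.lift_apply_of]; rfl

lemma zK_conj (k k' : 𝔇.K) (a : A5) :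
    SemidirectProduct.inr k * zK k' a * (SemidirectProduct.inr k)⁻¹ = zK (𝔇 := 𝔇) (k * k') a := by
  rw [zK, ← map_inv, ← SemidirectProduct.inl_aut, actFP_fp]; rfl

lemma zK_mul (k : 𝔇.K) (a b : A5) : zK k (a * b) = zK (𝔇 := 𝔇) k a * zK k b := by
  simp [zK]

lemma zK_one (k : 𝔇.K) : zK (𝔇 := 𝔇) k 1 = 1 := by simp [zK]

lemma zK_inv (k : 𝔇.K) (a : A5) : zK k a⁻¹ = (zK (𝔇 := 𝔇) k a)⁻¹ := by simp [zK]

/-- The free product of the copies of `A5` in the base group of the amalgam. -/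
abbrev MI (𝔇 : Dat) := Fin 5 × Option (List (Option 𝔇.J))

/-- The base group of the amalgam. -/
abbrev M (𝔇 : Dat) := Coprod (FP 𝔇.MI A5) (FreeGroup (Fin 5 × YG 𝔇.J 𝔇.B 𝔇.Hg))

/-- The permutation action on the base group, as endomorphisms. -/
def tE (𝔇 : Dat) : A5 →* Monoid.End 𝔇.M where
  toFun τ := Coprod.map (mapFP (fun p => (τ.1 p.1, p.2)) (MonoidHom.id _))
    (FreeGroup.map fun p => (τ.1 p.1, p.2))
  map_one' := by
    apply Coprod.hom_ext
    · apply FP.hom_ext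
      intro x a
      simp; rfl
    · ext x
      simp; rfl
  map_mul' τ τ' := by
    apply Coprod.hom_ext
    · apply FP.hom_ext
      intro x a
      simp only [MonoidHom.comp_apply, Monoid.End.coe_mul, Function.comp_apply, Coprod.map_apply_inl,
        mapFP_fp]
      rfl
    · ext x
      simp only [MonoidHom.comp_apply, Monoid.End.coe_mul, Function.comp_apply, Coprod.map_apply_inr,
        FreeGroup.map.of]
      rfl

/-- The permutation action on the base group. -/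
def tM (𝔇 : Dat) : A5 →* MulAut 𝔇.M where
  toFun τ :=
    { toFun := 𝔇.tE τ
      invFun := 𝔇.tE τ⁻¹
      left_inv := fun x => by
        have := DFunLike.congr_fun (map_mul 𝔇.tE τ⁻¹ τ) x
        rw [inv_mul_cancel, map_one] at this
        exact this.symm
      right_inv := fun x => by
        have := DFunLike.congr_fun (map_mul 𝔇.tE τ τ⁻¹) x
        rw [mul_inv_cancel, map_one] at this
        exact this.symm
      map_mul' := map_mul _ }
  map_one' := by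
    apply MulEquiv.ext
    intro x
    exact DFunLike.congr_fun (map_one 𝔇.tE) x
  map_mul' τ τ' := by
    apply MulEquiv.ext
    intro x
    exact DFunLike.congr_fun (map_mul 𝔇.tE τ τ') x

/-- The other vertex group. -/
abbrev MT (𝔇 : Dat) := 𝔇.M ⋊[𝔇.tM] A5

/-- The exponent of the main generators. -/
def em (i : Fin 5) : ℕ := if i = 0 then 6 else i + 1

/-- The position of a letter of type `A5` of the base group. -/
def pM (p : 𝔇.MI) : 𝔇.K := match p.2 with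
  | none => evK (gK (p.1 + 1))
  | some u => evK (gK (em p.1) ++ mK u)

/-- The embedding of the base group. -/
noncomputable def θ (𝔇 : Dat) : 𝔇.M →* 𝔇.Kz :=
  Coprod.lift (CoprodI.lift fun p => (SemidirectProduct.inl.comp (fp ((pM p : 𝔇.K) : 𝔇.Pos))))
    (FreeGroup.lift fun p => 𝔇.evZ (FreeGroup.mk (𝔇.S.thC p.2 p.1)))

/-- The vertex groups. -/
def GG (𝔇 : Dat) : Bool → Type
  | true => 𝔇.Kz
  | false => 𝔇.MT

instance (𝔇 : Dat) : ∀ b, Group (𝔇.GG b)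
  | true => inferInstanceAs (Group 𝔇.Kz)
  | false => inferInstanceAs (Group 𝔇.MT)

/-- The embeddings of the base group. -/
noncomputable def φφ (𝔇 : Dat) : ∀ b, 𝔇.M →* 𝔇.GG b
  | true => 𝔇.θ
  | false => (SemidirectProduct.inl : 𝔇.M →* 𝔇.MT)

/-- The model. -/
abbrev Md (𝔇 : Dat) := PushoutI 𝔇.φφ

/-- The first vertex group in the model. -/
noncomputable def oZ (𝔇 : Dat) : 𝔇.Kz →* 𝔇.Md := PushoutI.of (φ := 𝔇.φφ) true

/-- The second vertex group in the model. -/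
noncomputable def oT (𝔇 : Dat) : 𝔇.MT →* 𝔇.Md := PushoutI.of (φ := 𝔇.φφ) false

lemma oZ_θ (x : 𝔇.M) : 𝔇.oZ (𝔇.θ x) = 𝔇.oT (SemidirectProduct.inl x) := by
  have h1 := PushoutI.of_apply_eq_base 𝔇.φφ true x
  have h2 := PushoutI.of_apply_eq_base 𝔇.φφ false x
  exact h1.trans h2.symm

/-- The letters in the model. -/
noncomputable def mv (𝔇 : Dat) : Gen 𝔇.J 𝔇.B 𝔇.Hg → 𝔇.Md
  | .z a => 𝔇.oZ (zK 1 a)
  | .t a => 𝔇.oT (SemidirectProduct.inr a)
  | .k κ => 𝔇.oZ (SemidirectProduct.inr (𝔇.kv κ))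

/-- Evaluation in the model. -/
noncomputable def π (𝔇 : Dat) : FreeGroup (Gen 𝔇.J 𝔇.B 𝔇.Hg) →* 𝔇.Md := FreeGroup.lift 𝔇.mv

end Dat

end Pool.Agent.BH
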