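import Pool.Agent.BH.MModel

set_option autoImplicit false

/-!
# The relators vanish in the model
-/

namespace Pool.Agent.BH

open Monoid

attribute [-simp] FreeGroup.mul_mk FreeGroup.inv_mk

namespace Dat

variable {𝔇 : Dat}

/-- The letters without the letters `t` have their values in the first vertex group. -/
lemma mv_noT (g : Gen 𝔇.J 𝔇.B 𝔇.Hg) (h : ∀ a, g ≠ .t a) : 𝔇.mv g = 𝔇.oZ (𝔇.zv g) := by
  cases g with
  | z a => rfl
  | t a => exact absurd rfl (h a)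
  | k κ => rfl

lemma π_noT' (w : 𝔇.WW) (h : ∀ p ∈ w, ∀ a, p.1 ≠ .t a) :
    𝔇.π (FreeGroup.mk w) = 𝔇.oZ (𝔇.evZ (FreeGroup.mk w)) := by
  induction w with
  | nil => simp
  | cons a w ih =>
    rw [mk_cons, map_mul, map_mul, map_mul, ih fun p hp => h p (by simp [hp])]
    congr 1
    rcases a with ⟨g, _ | _⟩
    · rw [mk_false, map_inv, map_inv, map_inv, π, evZ, FreeGroup.lift_apply_of,
        FreeGroup.lift_apply_of, mv_noT g (h (g, false) (by simp))]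
    · rw [mk_true, π, evZ, FreeGroup.lift_apply_of, FreeGroup.lift_apply_of,
        mv_noT g (h (g, true) (by simp))]

lemma π_t (a : A5) : 𝔇.π (FreeGroup.mk [(.t a, true)]) = 𝔇.oT (SemidirectProduct.inr a) := by
  rw [mk_true, π, FreeGroup.lift_apply_of]; rfl

lemma π_z (a : A5) : 𝔇.π (FreeGroup.mk [(.z a, true)]) = 𝔇.oZ (zK 1 a) := by
  rw [mk_true, π, FreeGroup.lift_apply_of]; rfl

lemma π_kW (x : 𝔇.KW) :
    𝔇.π (FreeGroup.mk (𝔇.kW x)) = 𝔇.oZ (SemidirectProduct.inr (evK x)) := by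
  rw [π_noT', evZ_kW]
  intro p hp a
  simp only [kW, List.mem_map] at hp
  obtain ⟨q, -, rfl⟩ := hp
  simp

/-- Elements of the stabilizer commute with the base copy. -/
lemma zK_eq {k k' : 𝔇.K} (h : k⁻¹ * k' ∈ 𝔇.R) (a : A5) : zK k a = zK (𝔇 := 𝔇) k' a := by
  rw [zK, zK, QuotientGroup.eq.2 h]

lemma zK_comm {k : 𝔇.K} (h : k ∈ 𝔇.R) (a : A5) :
    SemidirectProduct.inr k * zK 1 a * (SemidirectProduct.inr k)⁻¹ = zK (𝔇 := 𝔇) 1 a := by
  rw [zK_conj]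
  exact zK_eq (by simpa using h) a

/-! ### values of words in the letters of `K` -/

/-- A positive word in the letters `s`. -/
def sK (u : List (Option 𝔇.J)) : 𝔇.KW := u.map fun σ => (KG.y (.s σ), true)

/-- A positive word in the letters `b`. -/
def bK (l : List 𝔇.B) : 𝔇.KW := l.map fun β => (KG.y (.b β), true)

/-- The embedding of `L` in `K`. -/
def inL : 𝔇.L →* 𝔇.K := SemidirectProduct.inr.comp SemidirectProduct.inl

lemma inL_apply (x : 𝔇.L) : inL x = (SemidirectProduct.inr (SemidirectProduct.inl x) : 𝔇.K) := rfl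

lemma evK_y (n : YG 𝔇.J 𝔇.B 𝔇.Hg) (hn : n ≠ .c) :
    evK (𝔇 := 𝔇) [(.y n, true)] = inL (𝔇.lv (.y n)) := by
  rw [evK_true]
  cases n <;> first | rfl | exact absurd rfl hn

lemma evK_s (σ : Option 𝔇.J) :
    evK (𝔇 := 𝔇) [(.y (.s σ), true)] = inL (inS (FreeGroup.of (some σ))) := by
  rw [evK_y _ (by simp)]; rfl

lemma evK_b (β : 𝔇.B) :
    evK (𝔇 := 𝔇) [(.y (.b β), true)] = inL (inD (1, FreeGroup.of β)) := by
  rw [evK_y _ (by simp)]; rfl

lemma evK_r : evK (𝔇 := 𝔇) [(.y .r, true)] = inL (inS (FreeGroup.of none)) := by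
  rw [evK_y _ (by simp)]; rfl

lemma evK_q (x : XG) :
    evK (𝔇 := 𝔇) [(.y (.q x), true)] = inL (inD (QuotientGroup.mk (FreeGroup.of x), 1)) := by
  rw [evK_y _ (by simp)]; rfl

lemma evK_h (η : 𝔇.Hg) :
    evK (𝔇 := 𝔇) [(.y (.h η), true)] = inL (inH (𝔇.hH (FreeGroup.of η))) := by
  rw [evK_y _ (by simp)]; rfl

lemma evK_sK (u : List (Option 𝔇.J)) : evK (sK u) = inL (𝔇 := 𝔇) (inS (fo false u)) := by
  induction u with
  | nil => simp [sK, fo]
  | cons σ u ih =>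
    have h1 : (sK (σ :: u) : 𝔇.KW) = [(.y (.s σ), true)] ++ sK u := rfl
    have h2 : fo (J := 𝔇.J) false (σ :: u) = FreeGroup.of (some σ) * fo false u := by
      simp only [fo, Bool.false_eq_true, if_false, List.nil_append, List.map_cons]
      rw [mk_cons, mk_true]
    rw [h1, evK_append, ih, evK_s, h2, map_mul, map_mul]

lemma evK_bK (l : List 𝔇.B) :
    evK (bK l) = inL (𝔇 := 𝔇) (inD (1, FreeGroup.mk (l.map (·, true)))) := by
  induction l with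
  | nil =>
    have : ((1, FreeGroup.mk (([] : List 𝔇.B).map (·, true))) : 𝔇.D) = 1 := rfl
    rw [this]; simp [bK]
  | cons β l ih =>
    have h1 : (bK (β :: l) : 𝔇.KW) = [(.y (.b β), true)] ++ bK l := rfl
    have h2 : ((1, FreeGroup.mk ((β :: l).map (·, true))) : 𝔇.D) =
        (1, FreeGroup.of β) * (1, FreeGroup.mk (l.map (·, true))) := by
      rw [Prod.mk_mul_mk, one_mul, List.map_cons, mk_cons, mk_true]
    rw [h1, evK_append, ih, evK_b, h2, map_mul, map_mul]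

lemma evK_qK (l : List (XG × Bool)) :
    evK (l.map fun p => (.y (.q p.1), p.2)) =
      inL (𝔇 := 𝔇) (inD (QuotientGroup.mk (FreeGroup.mk l), 1)) := by
  induction l with
  | nil =>
    have : ((QuotientGroup.mk (FreeGroup.mk ([] : List (XG × Bool))), 1) : 𝔇.D) = 1 := rfl
    rw [this]; simp
  | cons p l ih =>
    have h1 : (((p :: l).map fun p => (.y (.q p.1), p.2)) : 𝔇.KW) =
        [(.y (.q p.1), p.2)] ++ (l.map fun p => (.y (.q p.1), p.2)) := rfl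
    have h2 : ((QuotientGroup.mk (FreeGroup.mk (p :: l)), 1) : 𝔇.D) =
        (QuotientGroup.mk (FreeGroup.mk [p]), 1) * (QuotientGroup.mk (FreeGroup.mk l), 1) := by
      rw [Prod.mk_mul_mk, one_mul, mk_cons, QuotientGroup.mk_mul]
    rw [h1, evK_append, ih, h2, map_mul, map_mul]
    congr 1
    rcases p with ⟨x, _ | _⟩
    · rw [evK_false, ← evK_true, evK_q, mk_false, QuotientGroup.mk_inv, ← map_inv, ← map_inv]
      congr 2
    · rw [evK_q, mk_true]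

lemma fo_true (u : List (Option 𝔇.J)) :
    fo (J := 𝔇.J) true u = FreeGroup.of none * fo false u := by
  simp only [fo, if_true, Bool.false_eq_true, if_false, List.nil_append]
  rw [mk_append, mk_true]

/-- A conjugate of the letter `e`. -/
lemma evK_cj_e {p : 𝔇.KW} {x : 𝔇.L} (hp : evK p = inL x) (ε : Bool) :
    evK (cj p [(.e, ε)]) = SemidirectProduct.inl (fp x (if ε then g3 else g3⁻¹)) := by
  rw [cj, evK_append, evK_append, evK_inv, hp]
  have h1 : evK (𝔇 := 𝔇) [(.e, ε)] = SemidirectProduct.inl (fp 1 (if ε then g3 else g3⁻¹)) := by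
    cases ε
    · rw [evK_false]
      simp only [Bool.false_eq_true, if_false, map_inv]
      rfl
    · rw [evK_true]; rfl
  rw [h1, inL_apply, ← map_inv, ← SemidirectProduct.inl_aut, actFP_fp, aL_apply]
  congr 1
  simp [bL]

lemma cl_eq_R {h h' : 𝔇.L} (hc : cl h = cl h') (a : Z3) :
    (SemidirectProduct.inl (fp h a * (fp h' a)⁻¹) : 𝔇.K) ∈ 𝔇.R := by
  rw [mem_R]
  refine ⟨?_, ?_⟩
  · rw [SemidirectProduct.left_inl]
    exact Subgroup.subset_closure ⟨h, h', a, hc, rfl⟩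
  · rw [SemidirectProduct.right_inl]
    exact one_mem _

lemma mem_R_D (δ : 𝔇.D) : inL (inD δ) ∈ 𝔇.R := by
  rw [mem_R]
  exact ⟨one_mem _, ⟨δ, rfl⟩⟩

/-- The elements of the reader relators are in the stabilizer. -/
lemma reader_mem {p p' : 𝔇.KW} {x x' : 𝔇.L} (hp : evK p = inL x) (hp' : evK p' = inL x')
    (hc : cl x = cl x') (ε : Bool) :
    evK (cj p [(.e, ε)] ++ cj p' [(.e, !ε)]) ∈ 𝔇.R := by
  rw [evK_append, evK_cj_e hp, evK_cj_e hp', ← map_mul]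
  have h1 : (if (!ε) = true then g3 else g3⁻¹) = (if ε = true then g3 else g3⁻¹)⁻¹ := by
    cases ε <;> simp
  rw [h1, map_inv]
  exact cl_eq_R hc _

/-- Commutators of `z` with words in the stabilizer vanish. -/
lemma π_cm_z {x : 𝔇.KW} (hx : evK x ∈ 𝔇.R) (a : A5) :
    𝔇.π (FreeGroup.mk (cm [(.z a, true)] (𝔇.kW x))) = 1 := by
  rw [mk_cm, map_mul, map_mul, map_mul, map_inv, map_inv, π_kW, π_z, ← map_inv, ← map_inv,
    ← map_mul, ← map_mul, ← map_mul]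
  have h1 := zK_comm hx a
  have h2 : zK 1 a * SemidirectProduct.inr (evK x) * (zK (𝔇 := 𝔇) 1 a)⁻¹ *
      (SemidirectProduct.inr (evK x))⁻¹ = 1 := by
    rw [mul_inv_eq_iff_eq_mul] at h1
    rw [mul_inv_eq_one, mul_inv_eq_iff_eq_mul]
    exact h1.symm
  rw [h2, map_one]

lemma π_kW_eq_one {x : 𝔇.KW} (hx : evK x = 1) : 𝔇.π (FreeGroup.mk (𝔇.kW x)) = 1 := by
  rw [π_kW, hx, map_one, map_one]

/-- The relators of permutation type. -/
lemma π_permW {x : Fin 5 → 𝔇.WW} {m : Fin 5 → 𝔇.M}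
    (hx : ∀ i, 𝔇.π (FreeGroup.mk (x i)) = 𝔇.oT (SemidirectProduct.inl (m i)))
    {τ : A5} (hm : ∀ i, 𝔇.tM τ (m i) = m (τ.1 i)) (i : Fin 5) :
    𝔇.π (FreeGroup.mk (permW x τ i)) = 1 := by
  rw [permW, mk_append, mk_inv, mk_cj, map_mul, map_mul, map_mul, map_inv, map_inv, hx, hx, π_t,
    ← map_inv, ← map_mul, ← map_mul, ← map_inv, ← SemidirectProduct.inl_aut, hm, mul_inv_cancel]

lemma evZ_cj_z (x : 𝔇.KW) (a : A5) :
    𝔇.evZ (FreeGroup.mk (cj (𝔇.kW x) [(.z a, true)])) = zK (evK x) a := by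
  rw [mk_cj, map_mul, map_mul, map_inv, evZ_kW, evZ_z, zK_conj, mul_one]

lemma noT_cj_z (x : 𝔇.KW) (a : A5) :
    ∀ p ∈ cj (𝔇.kW x) [((.z a : Gen 𝔇.J 𝔇.B 𝔇.Hg), true)], ∀ b, p.1 ≠ .t b := by
  intro p hp b
  simp only [cj, kW, inv, FreeGroup.invRev, List.mem_append, List.mem_map, List.mem_singleton,
    List.mem_reverse] at hp
  rcases hp with (⟨q, -, rfl⟩ | rfl) | ⟨q, ⟨q', -, rfl⟩, rfl⟩ <;> simp

lemma π_cj_z (x : 𝔇.KW) (a : A5) :
    𝔇.π (FreeGroup.mk (cj (𝔇.kW x) [(.z a, true)])) = 𝔇.oZ (zK (evK x) a) := by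
  rw [π_noT' _ (noT_cj_z x a), evZ_cj_z]

/-- The letters of the base group. -/
def mZ (p : 𝔇.MI) (a : A5) : 𝔇.M := Coprod.inl (fp p a)

lemma θ_mZ (p : 𝔇.MI) (a : A5) : 𝔇.θ (mZ p a) = zK (pM p) a := by
  rw [mZ, θ, Coprod.lift_apply_inl, fp, CoprodI.lift_of]
  rfl

lemma tM_mZ (τ : A5) (p : 𝔇.MI) (a : A5) : 𝔇.tM τ (mZ p a) = mZ (τ.1 p.1, p.2) a := by
  change Coprod.map (mapFP (fun p : 𝔇.MI => (τ.1 p.1, p.2)) (MonoidHom.id A5)) _
    (Coprod.inl (fp p a)) = _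
  rw [Coprod.map_apply_inl, mapFP_fp]
  rfl

lemma tM_y (τ : A5) (i : Fin 5) (n : YG 𝔇.J 𝔇.B 𝔇.Hg) :
    𝔇.tM τ (Coprod.inr (FreeGroup.of (i, n))) = Coprod.inr (FreeGroup.of (τ.1 i, n)) := by
  change Coprod.map _ (FreeGroup.map fun p : Fin 5 × YG 𝔇.J 𝔇.B 𝔇.Hg => (τ.1 p.1, p.2))
    (Coprod.inr (FreeGroup.of (i, n))) = _
  rw [Coprod.map_apply_inr, FreeGroup.map.of]

lemma θ_y (i : Fin 5) (n : YG 𝔇.J 𝔇.B 𝔇.Hg) :
    𝔇.θ (Coprod.inr (FreeGroup.of (i, n))) = 𝔇.evZ (FreeGroup.mk (𝔇.S.thC n i)) := by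
  rw [θ, Coprod.lift_apply_inr, FreeGroup.lift_apply_of]

lemma oT_mZ (p : 𝔇.MI) (a : A5) : 𝔇.oT (SemidirectProduct.inl (mZ p a)) = 𝔇.oZ (zK (pM p) a) := by
  rw [← oZ_θ, θ_mZ]

/-! ### the relators -/

lemma noT_xW {l : List (XG × Bool)} (h : ∀ p ∈ l, ∀ a, p.1 ≠ .t a) :
    ∀ p ∈ (xW l : 𝔇.WW), ∀ b, p.1 ≠ .t b := by
  intro p hp b
  simp only [xW, List.mem_map] at hp
  obtain ⟨q, hq, rfl⟩ := hp
  have := h q hq
  rcases q with ⟨x, ε⟩
  cases x <;> simp_all [xg]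

lemma noT_inv {l : 𝔇.WW} (h : ∀ p ∈ l, ∀ a, p.1 ≠ .t a) :
    ∀ p ∈ inv l, ∀ b, p.1 ≠ .t b := by
  intro p hp b
  simp only [inv, FreeGroup.invRev, List.mem_reverse, List.mem_map] at hp
  obtain ⟨q, hq, rfl⟩ := hp
  exact h q hq b

lemma noT_append {l l' : 𝔇.WW} (h : ∀ p ∈ l, ∀ a, p.1 ≠ .t a) (h' : ∀ p ∈ l', ∀ a, p.1 ≠ .t a) :
    ∀ p ∈ l ++ l', ∀ b, p.1 ≠ .t b := by
  intro p hp b
  rcases List.mem_append.1 hp with hp | hp
  · exact h p hp b
  · exact h' p hp b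

lemma noT_gX (k : ℕ) : ∀ p ∈ gX k, ∀ a, p.1 ≠ .t a := by
  intro p hp a
  simp only [gX, List.mem_flatten, List.mem_replicate] at hp
  obtain ⟨l, ⟨-, rfl⟩, hp⟩ := hp
  simp only [List.mem_cons, List.not_mem_nil, or_false] at hp
  rcases hp with rfl | rfl <;> simp

lemma noT_bX (i : ℕ) : ∀ p ∈ bX i, ∀ a, p.1 ≠ .t a := by
  intro p hp a
  simp only [bX, List.mem_flatMap, List.mem_append, cj, inv, FreeGroup.invRev, List.mem_singleton,
    List.mem_reverse, List.mem_map] at hp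
  obtain ⟨j, -, hp⟩ := hp
  rcases hp with ((hp | rfl) | ⟨q, hq, rfl⟩) | ((hp | rfl) | ⟨q, hq, rfl⟩)
  · exact noT_gX _ p hp a
  · simp
  · exact noT_gX _ q hq a
  · exact noT_gX _ p hp a
  · simp
  · exact noT_gX _ q hq a

lemma noT_thC (n : YG 𝔇.J 𝔇.B 𝔇.Hg) (i : Fin 5) : ∀ p ∈ 𝔇.S.thC n i, ∀ b, p.1 ≠ .t b := by
  unfold Sys.thC
  split_ifs
  · apply noT_append (noT_xW (noT_bX _))
    intro p hp b
    simp only [List.mem_singleton] at hp
    rw [hp]; simp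
  · rw [cj]
    exact noT_append (noT_append (noT_xW (noT_gX _)) (noT_xW (noT_bX _)))
      (noT_inv (noT_xW (noT_gX _)))

lemma oT_y (i : Fin 5) (n : YG 𝔇.J 𝔇.B 𝔇.Hg) :
    𝔇.π (FreeGroup.mk (𝔇.S.thC n i)) =
      𝔇.oT (SemidirectProduct.inl (Coprod.inr (FreeGroup.of (i, n)))) := by
  rw [← oZ_θ, θ_y, π_noT' _ (noT_thC n i)]

lemma kv_c : 𝔇.kv (.y .c) = SemidirectProduct.inr (SemidirectProduct.inr (-1)) := rfl

lemma kv_w : 𝔇.kv .w = inL wL := rfl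

lemma kv_v : 𝔇.kv .v = inL vL := rfl

lemma kv_e : 𝔇.kv .e = SemidirectProduct.inl (fp 1 g3) := rfl

/-- The letter `c` acts on `L`. -/
lemma c_inL (x : 𝔇.L) : 𝔇.kv (.y .c) * inL x * (𝔇.kv (.y .c))⁻¹ = inL (𝔇.cL (-1) x) := by
  rw [kv_c, inL_apply, inL_apply, ← map_inv, ← map_mul, ← map_mul, ← map_inv,
    ← SemidirectProduct.inl_aut]

lemma c_comm {x : 𝔇.L} (h : 𝔇.cL (-1) x = x) :
    𝔇.kv (.y .c) * inL x * (𝔇.kv (.y .c))⁻¹ * (inL x)⁻¹ = 1 := by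
  rw [c_inL, h, mul_inv_cancel]

lemma evK_cm (x y : 𝔇.KW) : evK (cm x y) = evK x * evK y * (evK x)⁻¹ * (evK y)⁻¹ := by
  rw [cm, evK_append, evK_append, evK_append, evK_inv, evK_inv]

lemma evK_cj (x y : 𝔇.KW) : evK (cj x y) = evK x * evK y * (evK x)⁻¹ := by
  rw [cj, evK_append, evK_append, evK_inv]

lemma kW_cm (x y : 𝔇.KW) : 𝔇.kW (cm x y) = cm (𝔇.kW x) (𝔇.kW y) := by
  simp [cm]

lemma wL_cube : wL * wL * wL = (1 : 𝔇.L) := by
  rw [wL, ← map_mul, ← map_mul]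
  have : ((1, 1, 1, g3, 1) * (1, 1, 1, g3, 1) * (1, 1, 1, g3, 1) : 𝔇.Γ) = 1 := by
    simp only [Prod.mk_mul_mk, one_mul, g3_pow]
    rfl
  rw [this, map_one]

lemma vL_cube : vL * vL * vL = (1 : 𝔇.L) := by
  rw [vL, ← map_mul, ← map_mul]
  have : ((1, 1, 1, 1, g3) * (1, 1, 1, 1, g3) * (1, 1, 1, 1, g3) : 𝔇.Γ) = 1 := by
    simp only [Prod.mk_mul_mk, one_mul, g3_pow]
    rfl
  rw [this, map_one]

lemma π_RelA {w : 𝔇.WW} (h : 𝔇.S.RelA w) : 𝔇.π (FreeGroup.mk w) = 1 := by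
  cases h with
  | zz a b =>
    rw [mk_cons, mk_cons (Gen.z b, true), map_mul, map_mul, mk_false, ← mk_true, map_inv, π_z, π_z,
      π_z, zK_mul, map_mul]
    group
  | tt a b =>
    rw [mk_cons, mk_cons (Gen.t b, true), map_mul, map_mul, mk_false, ← mk_true, map_inv, π_t, π_t,
      π_t, map_mul, map_mul]
    group
  | e3 =>
    change 𝔇.π (FreeGroup.mk (𝔇.kW [(.e, true), (.e, true), (.e, true)])) = 1
    apply π_kW_eq_one
    rw [evK_cons, evK_cons (.e, true) [(.e, true)], evK_true, kv_e, ← map_mul, ← map_mul,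
      ← map_mul, ← map_mul, ← mul_assoc, g3_pow, map_one, map_one]
  | w3 =>
    change 𝔇.π (FreeGroup.mk (𝔇.kW [(.w, true), (.w, true), (.w, true)])) = 1
    apply π_kW_eq_one
    rw [evK_cons, evK_cons (.w, true) [(.w, true)], evK_true, kv_w, ← map_mul, ← map_mul,
      ← mul_assoc, wL_cube, map_one]
  | v3 =>
    change 𝔇.π (FreeGroup.mk (𝔇.kW [(.v, true), (.v, true), (.v, true)])) = 1
    apply π_kW_eq_one
    rw [evK_cons, evK_cons (.v, true) [(.v, true)], evK_true, kv_v, ← map_mul, ← map_mul,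
      ← mul_assoc, vL_cube, map_one]
  | c2 =>
    change 𝔇.π (FreeGroup.mk (𝔇.kW [(.y .c, true), (.y .c, true)])) = 1
    apply π_kW_eq_one
    rw [evK_cons, evK_true, kv_c, ← map_mul, ← map_mul]
    simp
  | qb x β =>
    change 𝔇.π (FreeGroup.mk (𝔇.kW (cm [(.y (.q x), true)] [(.y (.b β), true)]))) = 1
    apply π_kW_eq_one
    rw [evK_cm, evK_q, evK_b, ← map_inv, ← map_inv, ← map_mul, ← map_mul, ← map_mul, ← map_inv,
      ← map_inv, ← map_mul, ← map_mul, ← map_mul]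
    have : (((QuotientGroup.mk (FreeGroup.of x), 1) * (1, FreeGroup.of β) *
        (QuotientGroup.mk (FreeGroup.of x), 1)⁻¹ * (1, FreeGroup.of β)⁻¹ : 𝔇.D)) = 1 := by
      simp
    rw [this, map_one, map_one]
  | cy n =>
    change 𝔇.π (FreeGroup.mk (𝔇.kW (cm [(.y .c, true)] [(.y n, true)]))) = 1
    apply π_kW_eq_one
    rw [evK_cm]
    cases n with
    | q x => rw [evK_q, evK_true]; exact c_comm (cL_inD _)
    | b β => rw [evK_b, evK_true]; exact c_comm (cL_inD _)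
    | s σ => rw [evK_s, evK_true]; exact c_comm (cL_inS _)
    | r => rw [evK_r, evK_true]; exact c_comm (cL_inS _)
    | h η => rw [evK_h, evK_true]; exact c_comm (cL_inH _)
    | c => simp
  | ce =>
    change 𝔇.π (FreeGroup.mk (𝔇.kW (cj [(.y .c, true)] [(.e, true)] ++ [(.e, true)]))) = 1
    apply π_kW_eq_one
    rw [evK_append, evK_cj, evK_true, evK_true, kv_c, kv_e, ← map_inv, ← SemidirectProduct.inl_aut,
      actFP_fp, aL_apply, ← map_mul]
    have h1 : fp (SemidirectProduct.left (SemidirectProduct.inr (-1) : 𝔇.LC) *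
        𝔇.cL (SemidirectProduct.right (SemidirectProduct.inr (-1) : 𝔇.LC)) 1)
        (𝔇.bL (SemidirectProduct.inr (-1)) g3) * fp (A := Z3) 1 g3 = (1 : 𝔇.Nn) := by
      rw [SemidirectProduct.left_inr, one_mul, map_one, ← map_mul]
      have h2 : 𝔇.bL (SemidirectProduct.inr (-1)) g3 = g3⁻¹ := by
        rw [bL, MonoidHom.comp_apply, SemidirectProduct.rightHom_inr, invo_neg]
        rfl
      rw [h2, inv_mul_cancel, map_one]
    rw [h1, map_one]
  | cw =>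
    change 𝔇.π (FreeGroup.mk (𝔇.kW (cj [(.y .c, true)] [(.w, true)] ++ [(.w, true)]))) = 1
    apply π_kW_eq_one
    rw [evK_append, evK_cj, evK_true, evK_true, kv_w, c_inL, cL_wL, ← map_mul, inv_mul_cancel,
      map_one]
  | cv =>
    change 𝔇.π (FreeGroup.mk (𝔇.kW (cj [(.y .c, true)] [(.v, true)] ++ [(.v, true)]))) = 1
    apply π_kW_eq_one
    rw [evK_append, evK_cj, evK_true, evK_true, kv_v, c_inL, cL_vL, ← map_mul, inv_mul_cancel,
      map_one]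
  | zq a x =>
    change 𝔇.π (FreeGroup.mk (cm [(.z a, true)] (𝔇.kW [(.y (.q x), true)]))) = 1
    apply π_cm_z
    rw [evK_q]
    exact mem_R_D _
  | zb a β =>
    change 𝔇.π (FreeGroup.mk (cm [(.z a, true)] (𝔇.kW [(.y (.b β), true)]))) = 1
    apply π_cm_z
    rw [evK_b]
    exact mem_R_D _
  | dum τ i a =>
    refine π_permW (x := fun i => thD i a) (m := fun i => mZ (i, none) a) (fun i => ?_)
      (fun i => tM_mZ _ _ _) i
    rw [oT_mZ, thD, ← kW_gK, π_cj_z]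
    rfl
  | cst τ i n =>
    exact π_permW (x := fun i => 𝔇.S.thC n i)
      (m := fun i => Coprod.inr (FreeGroup.of (i, n))) (fun i => oT_y i n)
      (fun i => tM_y _ _ _) i

/-! ### readers -/

lemma cl_s (j : 𝔇.J) (u : List (Option 𝔇.J)) :
    cl (𝔇 := 𝔇) (inS (fo false (some j :: u))) = cl (inD (𝔇.α j) * inS (fo false u)) := by
  have h1 : inS (fo false (some j :: u)) = inD (1 : 𝔇.D) * inS (fo false (some j :: u)) := by
    rw [map_one, one_mul]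
  rw [h1, cl_form, cl_form]
  simp [rd]

lemma cl_r (j : 𝔇.J) (u : List (Option 𝔇.J)) :
    cl (𝔇 := 𝔇) (inS (fo true (some j :: u))) = cl (inD (𝔇.β j) * inS (fo true u)) := by
  have h1 : inS (fo true (some j :: u)) = inD (1 : 𝔇.D) * inS (fo true (some j :: u)) := by
    rw [map_one, one_mul]
  rw [h1, cl_form, cl_form]
  simp [rd]

lemma cl_n (u : List (Option 𝔇.J)) :
    cl (𝔇 := 𝔇) (inS (fo true (none :: u))) = cl (inS (fo false (none :: u))) := by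
  have h1 : ∀ ρ, inS (fo ρ (none :: u)) = inD (1 : 𝔇.D) * inS (fo ρ (none :: u)) := by
    intro ρ
    rw [map_one, one_mul]
  rw [h1 true, h1 false, cl_form, cl_form]
  simp [rd]

/-- The word of a label. -/
def lK (x : Option (XG × Bool)) : 𝔇.KW := x.toList.map fun p => (.y (.q p.1), p.2)

lemma evK_aK (j : 𝔇.J) : evK (lK (𝔇.S.lab j) ++ bK (𝔇.S.top j)) = inL (inD (𝔇.α j)) := by
  rw [evK_append, lK, evK_qK, evK_bK, ← map_mul, ← map_mul]
  congr 2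
  simp [α]

lemma evK_cK (j : 𝔇.J) : evK (bK (𝔇.S.bot j)) = inL (inD (𝔇.β j)) := by
  rw [evK_bK]
  rfl

lemma kW_sK (u : List (Option 𝔇.J)) : 𝔇.kW (sK u) = sW u := by
  simp [kW, sK, sW, Function.comp_def]

lemma kW_bK (l : List 𝔇.B) : 𝔇.kW (bK l) = bW l := by
  simp [kW, bK, bW, Function.comp_def]

lemma kW_lK (x : Option (XG × Bool)) : 𝔇.kW (lK x) = lW x := by
  simp [kW, lK, lW, qW, Function.comp_def]

lemma kW_e (p : 𝔇.KW) (ε : Bool) : 𝔇.kW (cj p [(.e, ε)]) = eW (𝔇.kW p) ε := by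
  rw [kW_cj, eW]; rfl

lemma π_RelU {u : List (Option 𝔇.J)} {w : 𝔇.WW} (h : 𝔇.S.RelU 𝔇.pt 𝔇.pb u w) :
    𝔇.π (FreeGroup.mk w) = 1 := by
  cases h with
  | r1 j ε a =>
    have h1 : (eW (sW (some j :: u)) ε ++ eW (𝔇.S.aW j ++ sW u) !ε : 𝔇.WW) =
        𝔇.kW (cj (sK (some j :: u)) [(.e, ε)] ++
          cj ((lK (𝔇.S.lab j) ++ bK (𝔇.S.top j)) ++ sK u) [(.e, !ε)]) := by
      simp only [kW_append, kW_e, kW_sK, kW_bK, kW_lK, Sys.aW]
    rw [h1]
    apply π_cm_z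
    refine reader_mem (evK_sK _) ?_ (cl_s j u) ε
    rw [evK_append, evK_aK, evK_sK, ← map_mul]
  | r2 j ε a =>
    have h1 : (eW (rW ++ sW (some j :: u)) ε ++ eW (𝔇.S.cW j ++ rW ++ sW u) !ε : 𝔇.WW) =
        𝔇.kW (cj ([(.y .r, true)] ++ sK (some j :: u)) [(.e, ε)] ++
          cj (bK (𝔇.S.bot j) ++ [(.y .r, true)] ++ sK u) [(.e, !ε)]) := by
      simp only [kW_append, kW_e, kW_sK, kW_bK, Sys.cW]
      rfl
    rw [h1]
    apply π_cm_z
    refine reader_mem ?_ ?_ (cl_r j u) ε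
    · rw [evK_append, evK_r, evK_sK, ← map_mul, ← map_mul, ← fo_true]
    · rw [evK_append, evK_append, evK_cK, evK_r, evK_sK, ← map_mul, ← map_mul, mul_assoc,
        ← map_mul, ← fo_true]
  | r3 ε a =>
    have h1 : (eW (rW ++ sW (none :: u)) ε ++ eW (sW (none :: u)) !ε : 𝔇.WW) =
        𝔇.kW (cj ([(.y .r, true)] ++ sK (none :: u)) [(.e, ε)] ++
          cj (sK (none :: u)) [(.e, !ε)]) := by
      simp only [kW_append, kW_e, kW_sK]
      rfl
    rw [h1]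
    apply π_cm_z
    refine reader_mem ?_ (evK_sK _) (cl_n u) ε
    rw [evK_append, evK_r, evK_sK, ← map_mul, ← map_mul, ← fo_true]
  | m τ i a =>
    refine π_permW (x := fun i => thM 𝔇.pt 𝔇.pb u i a) (m := fun i => mZ (i, some u) a)
      (fun i => ?_) (fun i => tM_mZ _ _ _) i
    have h1 : (thM 𝔇.pt 𝔇.pb u i a : 𝔇.WW) =
        cj (𝔇.kW (gK (em i) ++ mK u)) [(.z a, true)] := by
      rw [thM, kW_append, kW_gK, kW_mK]
      rfl
    rw [oT_mZ, h1, π_cj_z]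
    rfl

/-- The homomorphism on the letters `h`. -/
lemma π_homH (x : FreeGroup 𝔇.Hg) :
    𝔇.π (homH x) = 𝔇.oZ (SemidirectProduct.inr (inL (inH (𝔇.hH x)))) := by
  have : 𝔇.π.comp homH = (𝔇.oZ.comp (SemidirectProduct.inr.comp (inL.comp inH))).comp 𝔇.hH := by
    ext η
    simp only [MonoidHom.comp_apply, homH, FreeGroup.lift_apply_of]
    rw [π, FreeGroup.lift_apply_of]
    rfl
  exact DFunLike.congr_fun this x

lemma π_phiX (x : FreeGroup XG) :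
    𝔇.π (phiX x) = 𝔇.oZ (SemidirectProduct.inr (inL (inD (QuotientGroup.mk x, 1)))) := by
  have : 𝔇.π.comp phiX = ((𝔇.oZ.comp (SemidirectProduct.inr.comp (inL.comp inD))).comp
      (MonoidHom.inl _ _)).comp (QuotientGroup.mk' 𝔇.N) := by
    ext x
    simp only [MonoidHom.comp_apply, phiX, FreeGroup.lift_apply_of]
    rw [π, FreeGroup.lift_apply_of]
    rfl
  exact DFunLike.congr_fun this x

/-- The relators vanish in the model. -/
theorem π_Rl {x : FreeGroup (Gen 𝔇.J 𝔇.B 𝔇.Hg)}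
    (h : 𝔇.S.Rl 𝔇.pt 𝔇.pb (𝔇.hH.ker : Set (FreeGroup 𝔇.Hg)) (𝔇.N : Set (FreeGroup XG)) x) :
    𝔇.π x = 1 := by
  cases h with
  | a w h => exact π_RelA h
  | u u w h => exact π_RelU h
  | h x h =>
    have : 𝔇.hH x = 1 := h
    rw [π_homH, this, map_one, map_one, map_one, map_one]
  | q x h =>
    have h1 : (QuotientGroup.mk x : 𝔇.Q) = 1 := (QuotientGroup.eq_one_iff x).2 h
    have h2 : ((QuotientGroup.mk x, 1) : 𝔇.D) = 1 := by rw [h1]; rfl
    rw [π_phiX, h2, map_one, map_one, map_one, map_one]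

/-- The kernel is contained in the kernel of the evaluation in the model. -/
theorem ker_le_π : 𝔇.S.ker 𝔇.pt 𝔇.pb (𝔇.hH.ker : Set (FreeGroup 𝔇.Hg))
    (𝔇.N : Set (FreeGroup XG)) ≤ 𝔇.π.ker :=
  Subgroup.normalClosure_le_normal fun _ hx => π_Rl hx

end Dat

end Pool.Agent.BH
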