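import Mathlib
import Pool.Agent.BH.Words
import Pool.Agent.BH.CompDer

set_option autoImplicit false

/-!
# The course-of-values recursion and the recursion theorem
-/

namespace Pool.Agent.BH

namespace Truth

open CompDer Nat.Partrec

section Core

variable {X Y C : Type}

open Classical in
/-- The list of the words of length less than `n` with a derivation. -/
noncomputable def tab (R : C → List (List X) → List Y → Prop) (bd : C → ℕ → ℕ)
    (x : List X → List Y) (as : List X) (c : C) : ℕ → List (List X)
  | 0 => []
  | n + 1 => tab R bd x as c n ++ (wds as n).filter (fun w =>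
      decide (w.length = n ∧ Der (R c (tab R bd x as c n)) (bd c n) (x w) []))

/-- The predicate defined by course-of-values recursion. -/
def DD (R : C → List (List X) → List Y → Prop) (bd : C → ℕ → ℕ)
    (x : List X → List Y) (as : List X) (c : C) (w : List X) : Prop :=
  Der (R c (tab R bd x as c w.length)) (bd c w.length) (x w) []

variable {R : C → List (List X) → List Y → Prop} {bd : C → ℕ → ℕ}
    {x : List X → List Y} {as : List X}

open Classical in
theorem mem_tab (has : ∀ y, y ∈ as) (c : C) (n : ℕ) (w : List X) :
    w ∈ tab R bd x as c n ↔ w.length < n ∧ DD R bd x as c w := by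
  induction n with
  | zero => simp [tab]
  | succ n ih =>
    rw [tab, List.mem_append, List.mem_filter, mem_wds has, ih]
    constructor
    · rintro (⟨h1, h2⟩ | ⟨h1, h2⟩)
      · exact ⟨by omega, h2⟩
      · rw [decide_eq_true_eq] at h2
        obtain ⟨h3, h4⟩ := h2
        subst h3
        exact ⟨by omega, h4⟩
    · rintro ⟨h1, h2⟩
      rcases Nat.lt_succ_iff_lt_or_eq.1 h1 with h3 | h3
      · exact Or.inl ⟨h3, h2⟩
      · right
        subst h3
        refine ⟨le_rfl, ?_⟩
        rw [decide_eq_true_eq]
        exact ⟨rfl, h2⟩

variable [Finite Y] [Primcodable X] [Primcodable Y] [Primcodable C]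

theorem computable_one
    (hR : ComputablePred fun p : (C × List (List X)) × List Y => R p.1.1 p.1.2 p.2)
    (hbd : Computable₂ bd) (hx : Computable x) :
    ComputablePred fun p : ((C × List (List X)) × ℕ) × List X =>
      Der (R p.1.1.1 p.1.1.2) (bd p.1.1.1 p.1.2) (x p.2) [] := by
  have h1 := computable_der (a := Y) (b := (C × List (List X)) × ℕ)
    (fun q ρ => R q.1.1 q.1.2 ρ)
    (by
      obtain ⟨h0, h1⟩ := hR
      refine ⟨fun p => h0 ((p.1.1, p.2)), ?_⟩
      exact (h1.comp (f := fun a : (C × List (List X)) × List Y => decide (R a.1.1 a.1.2 a.2))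
        (g := fun p : ((C × List (List X)) × ℕ) × List Y => (p.1.1, p.2))
        ((Computable.fst.comp Computable.fst).pair Computable.snd)))
    (fun q => bd q.1.1 q.2)
    (hbd.comp (Computable.fst.comp Computable.fst) Computable.snd)
  obtain ⟨h2, h3⟩ := h1
  refine ⟨fun p => h2 (p.1, x p.2, []), ?_⟩
  exact h3.comp (g := fun p : ((C × List (List X)) × ℕ) × List X => (p.1, x p.2, ([] : List Y)))
    (Computable.fst.pair ((hx.comp Computable.snd).pair (Computable.const [])))

theorem computable_tab
    (hR : ComputablePred fun p : (C × List (List X)) × List Y => R p.1.1 p.1.2 p.2)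
    (hbd : Computable₂ bd) (hx : Computable x) :
    Computable fun p : C × ℕ => tab R bd x as p.1 p.2 := by
  classical
  have h1 := computable_one hR hbd hx
  have h2 : Computable₂ fun (q : (C × ℕ) × ℕ × List (List X)) (w : List X) =>
      decide (w.length = q.2.1 ∧ Der (R q.1.1 q.2.2) (bd q.1.1 q.2.1) (x w) []) := by
    have h3 := h1.decide.comp
      (g := fun p : ((C × ℕ) × ℕ × List (List X)) × List X =>
        (((p.1.1.1, p.1.2.2), p.1.2.1), p.2))
      ((((Computable.fst.comp (Computable.fst.comp Computable.fst)).pair
        (Computable.snd.comp (Computable.snd.comp Computable.fst))).pair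
        (Computable.fst.comp (Computable.snd.comp Computable.fst))).pair Computable.snd)
    have h4 : Computable fun p : ((C × ℕ) × ℕ × List (List X)) × List X =>
        decide (p.2.length = p.1.2.1) := by
      exact (Primrec.eq (α := ℕ)).decide.to_comp.comp (Computable.list_length.comp Computable.snd)
        (Computable.fst.comp (Computable.snd.comp Computable.fst))
    have h5 := Primrec.and.to_comp.comp h4 h3
    exact h5.of_eq fun p => by simp
  have h6 : Computable fun p : C × ℕ => Nat.rec (motive := fun _ => List (List X)) []
      (fun n acc => acc ++ (wds as n).filter (fun w =>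
        decide (w.length = n ∧ Der (R p.1 acc) (bd p.1 n) (x w) []))) p.2 := by
    refine Computable.nat_rec (f := fun p : C × ℕ => p.2) (g := fun _ => ([] : List (List X)))
      (h := fun (p : C × ℕ) (q : ℕ × List (List X)) => q.2 ++ (wds as q.1).filter (fun w =>
        decide (w.length = q.1 ∧ Der (R p.1 q.2) (bd p.1 q.1) (x w) [])))
      Computable.snd (Computable.const _) ?_
    refine Computable.list_append.comp (Computable.snd.comp Computable.snd) ?_
    exact computable_filter ((primrec_wds as).to_comp.comp (Computable.fst.comp Computable.snd)) h2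
  refine h6.of_eq fun p => ?_
  obtain ⟨c, n⟩ := p
  induction n with
  | zero => rfl
  | succ n ih =>
    simp only at ih
    simp only [tab]
    rw [← ih]

theorem computable_DD
    (hR : ComputablePred fun p : (C × List (List X)) × List Y => R p.1.1 p.1.2 p.2)
    (hbd : Computable₂ bd) (hx : Computable x) :
    ComputablePred fun p : C × List X => DD R bd x as p.1 p.2 := by
  obtain ⟨h1, h2⟩ := computable_one hR hbd hx
  refine ⟨fun p => h1 (((p.1, tab R bd x as p.1 p.2.length), p.2.length), p.2), ?_⟩
  exact h2.comp (g := fun p : C × List X =>
      (((p.1, tab R bd x as p.1 p.2.length), p.2.length), p.2))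
    (((Computable.fst.pair ((computable_tab hR hbd hx).comp (Computable.fst.pair
      (Computable.list_length.comp Computable.snd)))).pair
      (Computable.list_length.comp Computable.snd)).pair Computable.snd)

end Core

/-- The universal predicate. -/
def UU {X : Type} [Primcodable X] (e : ℕ) (w : List X) : Prop :=
  (Code.eval (Denumerable.ofNat Code e) (Encodable.encode w)).Dom

theorem UU_re {X : Type} [Primcodable X] : REPred fun p : ℕ × List X => UU p.1 p.2 := by
  have h : Partrec fun p : ℕ × List X =>
      Code.eval (Denumerable.ofNat Code p.1) (Encodable.encode p.2) :=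
    Code.eval_part.comp ((Computable.ofNat Code).comp Computable.fst)
      (Computable.encode.comp Computable.snd)
  exact h.dom_re

/-- The recursion theorem: there is an index of a given uniformly computable complement. -/
theorem exists_index {X C : Type} [Primcodable X] [Primcodable C] (D : C → List X → Prop)
    (hD : ComputablePred fun p : C × List X => D p.1 p.2) (pr : ℕ → C) (hpr : Computable pr) :
    ∃ e, ∀ w, UU e w ↔ ¬ D (pr e) w := by
  have h1 : REPred fun p : C × List X => ¬ D p.1 p.2 := hD.not.to_re
  have h2 : Partrec₂ fun (c : Code) (n : ℕ) =>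
      ((Encodable.decode n : Option (List X)) : Part (List X)).bind fun w =>
        (Part.assert (¬ D (pr (Encodable.encode c)) w) fun _ => Part.some ()).map fun _ => 0 := by
    refine Partrec.bind (f := fun p : Code × ℕ =>
        ((Encodable.decode p.2 : Option (List X)) : Part (List X)))
      (g := fun (p : Code × ℕ) (w : List X) =>
        (Part.assert (¬ D (pr (Encodable.encode p.1)) w) fun _ => Part.some ()).map fun _ => 0)
      ?_ ?_
    · exact (Computable.decode.comp Computable.snd).ofOption
    · have h3 : Partrec fun q : (Code × ℕ) × List X =>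
          Part.assert (¬ D (pr (Encodable.encode q.1.1)) q.2) fun _ => Part.some () :=
        Partrec.comp h1 (g := fun q : (Code × ℕ) × List X => (pr (Encodable.encode q.1.1), q.2))
          ((hpr.comp (Computable.encode.comp (Computable.fst.comp Computable.fst))).pair
            Computable.snd)
      exact h3.map (Computable.const 0).to₂
  obtain ⟨c, hc⟩ := Code.fixed_point₂ h2
  refine ⟨Encodable.encode c, fun w => ?_⟩
  unfold UU
  rw [Denumerable.ofNat_encode, hc]
  simp only [Encodable.encodek, Part.coe_some, Part.bind_some, Part.map_Dom]
  constructor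
  · rintro ⟨h, -⟩
    exact h
  · intro h
    exact ⟨h, trivial⟩

end Truth

end Pool.Agent.BH
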