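import Mathlib
import Pool.Agent.BH.Words
import Pool.Agent.BH.TruthCore
import Pool.Agent.BH.CompRel
import Pool.Agent.BH.DominoB

set_option autoImplicit false

/-!
# The self-referential domino system
-/

namespace Pool.Agent.BH

open Truth CompDer

/-- C3: the self-referential domino system. -/
theorem exists_truth {k : ℕ} (HT : Set (List (Fin k × Bool)))
    (hHT : ComputablePred fun l : List (Fin k × Bool) => l ∈ HT)
    (cc : ∀ a b, Sys (Fin a) (Fin b) (Fin k) → ℕ) :
    ∃ (a b : ℕ) (S : Sys (Fin a) (Fin b) (Fin k)) (pt pb : List (Fin b))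
      (L : List (XG × Bool) → Prop),
      (∀ w, L w ↔ ∃ t, S.labs t = w ∧ S.Match pt pb t) ∧
      (∀ w, ¬ L w ↔ Der (S.Rel pt pb HT {w' | w'.length < w.length ∧ ¬ L w'})
        ((cc a b S + w.length + pt.length + pb.length) ^ 12) (xW w) []) := by
  classical
  obtain ⟨a, b, top, bot, lab, pt, pb, hpt, hpb, hdom⟩ :=
    exists_domino (X := XG × Bool) (fun e w => UU e w) UU_re
  obtain ⟨idx, hidx⟩ : ∃ idx : YG (Fin a) (Fin b) (Fin k) → ℕ, Function.Injective idx := by
    obtain ⟨n, ⟨e⟩⟩ := Finite.exists_equiv_fin (YG (Fin a) (Fin b) (Fin k))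
    exact ⟨fun y => (e y : ℕ), fun y y' h => e.injective (Fin.ext h)⟩
  let S : Sys (Fin a) (Fin b) (Fin k) := ⟨top, bot, lab, idx, hidx⟩
  obtain ⟨as, -, has⟩ := Finite.exists_univ_list (XG × Bool)
  let C := List (Fin b) × List (Fin b)
  let R : C → List (List (XG × Bool)) → List (Gen (Fin a) (Fin b) (Fin k) × Bool) → Prop :=
    fun c T ρ => S.Rel c.1 c.2 HT {w | w ∈ T} ρ
  let bd : C → ℕ → ℕ := fun c n => (cc a b S + n + c.1.length + c.2.length) ^ 12
  have hR : ComputablePred fun p : (C × List (List (XG × Bool))) ×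
      List (Gen (Fin a) (Fin b) (Fin k) × Bool) => R p.1.1 p.1.2 p.2 := by
    obtain ⟨h0, h1⟩ := computable_rel S HT hHT
    refine ⟨fun p => h0 ((p.1.1.1, p.1.1.2, p.1.2), p.2), ?_⟩
    exact h1.comp (g := fun p : (C × List (List (XG × Bool))) ×
        List (Gen (Fin a) (Fin b) (Fin k) × Bool) => ((p.1.1.1, p.1.1.2, p.1.2), p.2))
      (((Computable.fst.comp (Computable.fst.comp Computable.fst)).pair
        ((Computable.snd.comp (Computable.fst.comp Computable.fst)).pair
          (Computable.snd.comp Computable.fst))).pair Computable.snd)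
  have hbd : Computable₂ bd := by
    have hpow : Primrec fun m : ℕ => m ^ 12 := by
      have hm := Primrec.nat_mul
      have h2 : Primrec fun m : ℕ => m * m := hm.comp Primrec.id Primrec.id
      have h3 : Primrec fun m : ℕ => m * m * m := hm.comp h2 Primrec.id
      have h6 : Primrec fun m : ℕ => (m * m * m) * (m * m * m) := hm.comp h3 h3
      have h12 : Primrec fun m : ℕ => ((m * m * m) * (m * m * m)) * ((m * m * m) * (m * m * m)) :=
        hm.comp h6 h6
      exact h12.of_eq fun m => by ring
    have h1 : Primrec fun p : C × ℕ => cc a b S + p.2 + p.1.1.length + p.1.2.length := by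
      refine Primrec.nat_add.comp (Primrec.nat_add.comp (Primrec.nat_add.comp (Primrec.const _)
        Primrec.snd) ?_) ?_
      · exact Primrec.list_length.comp (Primrec.fst.comp Primrec.fst)
      · exact Primrec.list_length.comp (Primrec.snd.comp Primrec.fst)
    exact (hpow.comp h1).to_comp
  have hx : Computable (xW : List (XG × Bool) → W (Fin a) (Fin b) (Fin k)) := by
    have : Primrec fun l : List (XG × Bool) => l.map fun p : XG × Bool =>
        ((xg p.1, p.2) : Gen (Fin a) (Fin b) (Fin k) × Bool) :=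
      Primrec.list_map Primrec.id ((Primrec.dom_finite (fun p : XG × Bool =>
        ((xg p.1, p.2) : Gen (Fin a) (Fin b) (Fin k) × Bool))).comp Primrec.snd)
    exact this.to_comp
  obtain ⟨e, he⟩ := exists_index (DD R bd xW as) (computable_DD hR hbd hx)
    (fun e => (pt e, pb e)) (hpt.pair hpb)
  refine ⟨a, b, S, pt e, pb e, fun w => UU e w, fun w => hdom e w, fun w => ?_⟩
  change ¬ UU e w ↔ _
  rw [he w, not_not]
  have hset : {w' : List (XG × Bool) | w'.length < w.length ∧ ¬ UU e w'} =
      {w' | w' ∈ tab R bd xW as (pt e, pb e) w.length} := by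
    ext w'
    simp only [Set.mem_ofPred_eq]
    rw [mem_tab has, he w', not_not]
  rw [hset]
  rfl

end Pool.Agent.BH
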