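import Pool.Agent.BH.VOneRayStd

set_option autoImplicit false

/-!
# The one-ray group is the stabilizer of the base point
-/

namespace Pool.Agent.BH

open Equiv Subgroup

section Words

variable {d : ℕ} [NeZero d]

lemma app_rc_append (i : ℕ) (w : List (Ch d)) (z : Dy) :
    app (rc d i ++ w) z = i :: app w z := by
  rw [app_append, app_rc]

lemma rc_append_inj {i j : ℕ} {w w' : List (Ch d)} (h : rc d i ++ w = rc d j ++ w') :
    i = j ∧ w = w' := by
  have h1 : ∀ z, (i :: app w z : Dy) = j :: app w' z := fun z => by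
    rw [← app_rc_append, ← app_rc_append, h]
  constructor
  · have := h1 []
    simp only [List.cons.injEq] at this
    exact this.1
  · apply app_word_inj
    intro z
    have := h1 z
    simp only [List.cons.injEq] at this
    exact this.2

lemma zw_append_rc (k i : ℕ) : zw k ++ rc d i = rc d (i + k * d) := by
  apply app_word_inj
  intro z
  rw [app_append, app_rc, app_zw_cons, app_rc]

lemma some_eq_rc (c : Fin d) : [some c] = rc d c.1 := by
  apply app_word_inj
  intro z
  simp

lemma word_cases (u : List (Ch d)) : (∃ k, u = zw k) ∨ ∃ i w, u = rc d i ++ w := by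
  induction u with
  | nil => exact Or.inl ⟨0, rfl⟩
  | cons b u ih =>
    rcases b with _ | c
    · rcases ih with ⟨k, rfl⟩ | ⟨i, w, rfl⟩
      · exact Or.inl ⟨k + 1, rfl⟩
      · right
        refine ⟨i + 1 * d, w, ?_⟩
        rw [← zw_append_rc]
        rfl
    · right
      refine ⟨c.1, u, ?_⟩
      rw [← some_eq_rc]
      rfl

lemma rc_length (i : ℕ) : (rc d i).length = i / d + 1 := by
  simp [rc]

lemma hp_cone (p : Perm ℕ) (i : ℕ) (w : List (Ch d)) :
    NCone (hp p) (rc d i ++ w) (rc d (p i) ++ w) := fun z => by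
  rw [app_rc_append, app_rc_append, hp_cons]

omit [NeZero d] in
lemma hp_cone_zw (p : Perm ℕ) (k : ℕ) (h : ∀ i, k * d ≤ i → p i = i) :
    NCone (hp p) (zw (d := d) k) (zw k) := fun z => by
  rcases z with _ | ⟨i, z⟩
  · simp
  · rw [app_zw_cons, hp_cons, h _ (by omega)]

lemma tsp_cone_zw : NCone (tsp d 0) (zw (d := d) 1) (zw 2) := fun z => by
  have hd := Nat.pos_of_neZero d
  rcases z with _ | ⟨i, z⟩
  · simp [tsp_apply]
  · rw [app_zw_cons, app_zw_cons, tsp_apply, spl_gt d (by omega)]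
    congr 1
    omega

lemma tsp_cone_none : NCone (tsp d 0) (rc d 0 ++ [none]) (rc d 0) := fun z => by
  rw [app_rc_append, app_rc]
  rcases z with _ | ⟨i, z⟩
  · simp [tsp_apply]
  · rw [app_cons, app_nil, bz_none_cons, tsp_apply, spl_self_ge]

lemma tsp_cone_some (c : Fin d) : NCone (tsp d 0) (rc d 0 ++ [some c]) (rc d (c.1 + 1)) :=
  fun z => by
    rw [app_rc_append, app_rc, app_cons, app_nil, bz_some, tsp_apply, spl_self_lt d c.2]
    congr 1
    omega

lemma tsp_cone_succ (i : ℕ) : NCone (tsp d 0) (rc d (i + 1)) (rc d (i + 1 + d)) := fun z => by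
  rw [app_rc, app_rc, tsp_apply, spl_gt d (by omega)]

/-- Membership criterion. -/
lemma mem_VN_of {g : Perm Dy} (k : ℕ) (hz : NCL g (zw (d := d) k))
    (hr : ∀ i (w : List (Ch d)), i / d + 1 + w.length = k → NCL g (rc d i ++ w)) : g ∈ VN d := by
  refine ⟨k, fun u hu => ?_⟩
  rcases word_cases u with ⟨l, rfl⟩ | ⟨i, w, rfl⟩
  · rw [zw_length] at hu
    subst hu
    exact hz
  · exact hr i w (by rw [← hu, List.length_append, rc_length])

lemma hp_mem (p : Perm ℕ) (k : ℕ) (h : ∀ i, k ≤ i → p i = i) : hp p ∈ VN d := by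
  have hd := Nat.pos_of_neZero d
  refine mem_VN_of k ⟨_, hp_cone_zw p k fun i hi => h i ?_⟩ (fun i w _ => ⟨_, hp_cone p i w⟩)
  exact le_trans (Nat.le_mul_of_pos_right k hd) hi

lemma tsp_cl (i : ℕ) (w : List (Ch d)) (h : i = 0 → w ≠ []) : NCL (tsp d 0) (rc d i ++ w) := by
  rcases i with _ | i
  · rcases w with _ | ⟨b, w⟩
    · exact absurd rfl (h rfl)
    · rw [show rc d 0 ++ b :: w = (rc d 0 ++ [b]) ++ w by simp]
      apply NCL.append
      rcases b with _ | c
      · exact ⟨_, tsp_cone_none⟩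
      · exact ⟨_, tsp_cone_some c⟩
  · exact NCL.append ⟨_, tsp_cone_succ i⟩ w

lemma tsp_mem : tsp d 0 ∈ VN d := by
  refine mem_VN_of 2 ?_ (fun i w h => ?_)
  · exact NCL.append (u := zw 1) ⟨_, tsp_cone_zw⟩ [none]
  · apply tsp_cl
    rintro rfl rfl
    simp at h

end Words

section Range

variable (d : ℕ)

/-- The subgroup generated by the standard elements. -/
def Gb : Subgroup (Perm Dy) := closure (Set.range sA ∪ {tsp d 0})

lemma Gb_t : tsp d 0 ∈ Gb d := subset_closure (Or.inr rfl)

lemma Gb_adj (n : ℕ) : hp (swap n (n + 1)) ∈ Gb d := subset_closure (Or.inl ⟨n, rfl⟩)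

lemma Gb_swap (m k : ℕ) : hp (swap m (m + k)) ∈ Gb d := by
  induction k with
  | zero =>
    rw [Nat.add_zero, swap_self]
    change hp (1 : Perm ℕ) ∈ _
    rw [map_one]
    exact one_mem _
  | succ k ih =>
    rcases Nat.eq_zero_or_pos k with rfl | hd
    · exact Gb_adj d m
    · have e : swap m (m + (k + 1)) = swap (m + k) (m + k + 1) * swap m (m + k) *
          swap (m + k) (m + k + 1) := by
        rw [swap_mul_swap_mul_swap (x := m) (y := m + k) (z := m + k + 1) (by omega) (by omega),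
          swap_comm, show m + (k + 1) = m + k + 1 by omega]
      rw [e, map_mul, map_mul]
      exact mul_mem (mul_mem (Gb_adj d _) ih) (Gb_adj d _)

lemma Gb_swap' (i j : ℕ) : hp (swap i j) ∈ Gb d := by
  rcases le_total i j with h | h
  · obtain ⟨k, rfl⟩ := Nat.exists_eq_add_of_le h
    exact Gb_swap d i k
  · obtain ⟨k, rfl⟩ := Nat.exists_eq_add_of_le h
    rw [swap_comm]
    exact Gb_swap d j k

lemma Gb_hp (k : ℕ) : ∀ p : Perm ℕ, (∀ i, k ≤ i → p i = i) → hp p ∈ Gb d := by
  induction k with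
  | zero =>
    intro p hp'
    have : p = 1 := by
      ext i
      simpa using hp' i (Nat.zero_le _)
    rw [this, map_one]
    exact one_mem _
  | succ k ih =>
    intro p hp'
    have h1 : hp (swap (p k) k * p) ∈ Gb d := by
      apply ih
      intro i hi
      rw [Perm.mul_apply]
      rcases eq_or_lt_of_le hi with rfl | hi
      · exact swap_apply_left _ _
      · rw [hp' i hi, swap_apply_of_ne_of_ne]
        · intro h
          rw [← hp' i hi] at h
          have := p.injective h
          omega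
        · omega
    rw [map_mul] at h1
    have := mul_mem (inv_mem (Gb_swap' d (p k) k)) h1
    rwa [inv_mul_cancel_left] at this

variable {d}

lemma Gb_fix {g : Perm Dy} (hg : g ∈ Gb d) : g [] = [] := by
  unfold Gb at hg
  induction hg using closure_induction with
  | mem x hx =>
    rcases hx with ⟨i, rfl⟩ | rfl
    · rfl
    · rfl
  | one => rfl
  | mul x y _ _ hx hy => rw [Perm.mul_apply, hy, hx]
  | inv x _ hx => rw [Perm.inv_eq_iff_eq, hx]

variable [NeZero d]

lemma Gb_le_VN : Gb d ≤ VN d := by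
  unfold Gb
  rw [closure_le]
  rintro _ (⟨i, rfl⟩ | rfl)
  · exact hp_mem _ (i + 2) (fun j hj => swap_apply_of_ne_of_ne (by omega) (by omega))
  · exact tsp_mem

/-- The set of bad cones. -/
def bad (d : ℕ) [NeZero d] (g : Perm Dy) : Set (ℕ × List (Ch d)) := {p | ¬ NCL g (rc d p.1 ++ p.2)}

lemma bad_finite {g : Perm Dy} (hg : g ∈ VN d) : (bad d g).Finite := by
  obtain ⟨k, hk⟩ := hg
  have hd := Nat.pos_of_neZero d
  apply Set.Finite.subset ((Set.finite_Iio (k * d)).prod (List.finite_length_lt (Ch d) k))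
  rintro ⟨i, w⟩ h
  by_contra hcon
  apply h
  apply NCL.of_length hk
  simp only [List.length_append, rc_length]
  by_contra h2
  apply hcon
  have h3 : i / d < k := by omega
  refine ⟨?_, ?_⟩
  · change i < k * d
    rwa [← Nat.div_lt_iff_lt_mul hd]
  · change w.length < k
    generalize i / d = q at h2 h3
    omega

omit [NeZero d] in
lemma NCL.mul_of_cone {g h : Perm Dy} {u v : List (Ch d)} (hh : NCone h u v)
    (hg : NCL g v) : NCL (g * h) u := by
  obtain ⟨w, hw⟩ := hg
  exact ⟨w, hw.mul hh⟩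

omit [NeZero d] in
lemma NCL.of_mul_cone {g h : Perm Dy} {u v : List (Ch d)} (hh : NCone h u v)
    (hg : NCL (g * h) u) : NCL g v := by
  obtain ⟨w, hw⟩ := hg
  refine ⟨w, ?_⟩
  have := hw.mul hh.inv
  rwa [mul_inv_cancel_right] at this

omit [NeZero d] in
lemma NCL.mul_iff {g h : Perm Dy} {u v : List (Ch d)} (hh : NCone h u v) :
    NCL (g * h) u ↔ NCL g v := ⟨NCL.of_mul_cone hh, NCL.mul_of_cone hh⟩

/-- The basic reduction step on the right. -/
lemma bad_step {g : Perm Dy} (hg : g ∈ VN d) {j : ℕ} (hj : ¬ NCL g (rc d j)) :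
    (bad d (g * (hp (swap 0 j) * (tsp d 0)⁻¹))).ncard < (bad d g).ncard := by
  let φ : ℕ × List (Ch d) → ℕ × List (Ch d) := fun p =>
    if p.1 = 0 then (j, none :: p.2) else if h : p.1 - 1 < d then (j, some ⟨p.1 - 1, h⟩ :: p.2)
      else (swap 0 j (p.1 - d), p.2)
  have φ0 : ∀ w, φ (0, w) = (j, none :: w) := fun w => by simp [φ]
  have φ1 : ∀ (c : Fin d) w, φ (c.1 + 1, w) = (j, some c :: w) := fun c w => by
    simp [φ, c.2]
  have φ2 : ∀ i w, φ (i + 1 + d, w) = (swap 0 j (i + 1), w) := fun i w => by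
    simp only [φ]
    rw [if_neg (by omega), dif_neg (by omega), Nat.add_sub_cancel]
  have hcase : ∀ p : ℕ × List (Ch d), (∃ w, p = (0, w)) ∨ (∃ (c : Fin d) (w : List (Ch d)),
      p = (c.1 + 1, w)) ∨ ∃ i w, p = (i + 1 + d, w) := by
    rintro ⟨i, w⟩
    rcases Nat.eq_zero_or_pos i with rfl | hi
    · exact Or.inl ⟨w, rfl⟩
    · rcases Nat.lt_or_ge (i - 1) d with h | h
      · exact Or.inr (Or.inl ⟨⟨i - 1, h⟩, w, by simp; omega⟩)
      · exact Or.inr (Or.inr ⟨i - 1 - d, w, by simp; omega⟩)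
  have key : ∀ p : ℕ × List (Ch d), NCL (g * (hp (swap 0 j) * (tsp d 0)⁻¹)) (rc d p.1 ++ p.2) ↔
      NCL g (rc d (φ p).1 ++ (φ p).2) := by
    intro p
    rcases hcase p with ⟨w, rfl⟩ | ⟨c, w, rfl⟩ | ⟨i, w, rfl⟩
    · rw [φ0]
      have h1 := (hp_cone (d := d) (swap 0 j) 0 [none]).mul tsp_cone_none.inv
      have h2 := h1.append w
      rw [swap_apply_left, List.append_assoc] at h2
      exact NCL.mul_iff h2
    · rw [φ1]
      have h1 := (hp_cone (d := d) (swap 0 j) 0 [some c]).mul (tsp_cone_some c).inv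
      have h2 := h1.append w
      rw [swap_apply_left, List.append_assoc] at h2
      exact NCL.mul_iff h2
    · rw [φ2]
      have h0 := hp_cone (d := d) (swap 0 j) (i + 1) []
      rw [List.append_nil, List.append_nil] at h0
      have h1 := h0.mul (tsp_cone_succ i).inv
      exact NCL.mul_iff (h1.append w)
  have hsw : ∀ i, swap 0 j (i + 1) ≠ j := by
    intro i h
    have := congrArg (swap 0 j) h
    rw [swap_apply_self, swap_apply_right] at this
    omega
  have hφ : Function.Injective φ := by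
    intro p q h
    rcases hcase p with ⟨w, rfl⟩ | ⟨c, w, rfl⟩ | ⟨i, w, rfl⟩ <;>
      rcases hcase q with ⟨w', rfl⟩ | ⟨c', w', rfl⟩ | ⟨i', w', rfl⟩ <;>
      simp only [φ0, φ1, φ2, Prod.mk.injEq, List.cons.injEq, reduceCtorEq, false_and, and_false,
        Option.some.injEq, true_and] at h
    · rw [h]
    · exact absurd h.1.symm (hsw i')
    · rw [h.1, h.2]
    · exact absurd h.1.symm (hsw i')
    · exact absurd h.1 (hsw i)
    · exact absurd h.1 (hsw i)
    · have := (swap 0 j).injective h.1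
      rw [this, h.2]
  have hmiss : ∀ p, φ p ≠ (j, []) := by
    intro p h
    rcases hcase p with ⟨w, rfl⟩ | ⟨c, w, rfl⟩ | ⟨i, w, rfl⟩ <;>
      simp only [φ0, φ1, φ2, Prod.mk.injEq, reduceCtorEq, and_false] at h
    exact hsw i h.1
  have hbj : ((j, []) : ℕ × List (Ch d)) ∈ bad d g := by
    change ¬ NCL g (rc d j ++ [])
    rwa [List.append_nil]
  rw [← Set.ncard_image_of_injective _ hφ]
  apply Set.ncard_lt_ncard _ (bad_finite hg)
  rw [Set.ssubset_iff_of_subset]
  · exact ⟨_, hbj, by rintro ⟨p, -, hp⟩; exact hmiss p hp⟩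
  · rintro _ ⟨p, hp, rfl⟩
    intro h
    exact hp ((key p).2 h)

lemma reduce_right (n : ℕ) : ∀ g : Perm Dy, g ∈ VN d → (bad d g).ncard = n →
    ∃ h ∈ Gb d, ∀ i, NCL (g * h) (rc d i) := by
  induction n using Nat.strong_induction_on with
  | _ n ih =>
    intro g hg hn
    by_cases hall : ∀ i, NCL g (rc d i)
    · exact ⟨1, one_mem _, by simpa using hall⟩
    · push Not at hall
      obtain ⟨j, hj⟩ := hall
      have h1 : hp (swap 0 j) * (tsp d 0)⁻¹ ∈ Gb d :=
        mul_mem (Gb_swap' _ _ _) (inv_mem (Gb_t d))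
      have h2 := bad_step hg hj
      obtain ⟨h, hh, hc⟩ := ih _ (hn ▸ h2) (g * (hp (swap 0 j) * (tsp d 0)⁻¹))
        (mul_mem hg (Gb_le_VN h1)) rfl
      exact ⟨_, mul_mem h1 hh, fun i => by rw [← mul_assoc]; exact hc i⟩

/-- an element fixing the base point does not map a ray cone on a cone of the base point -/
lemma not_zw {g : Perm Dy} (h0 : g [] = []) {i : ℕ} {v : List (Ch d)} (hv : NCone g (rc d i) v)
    (k : ℕ) : v ≠ zw k := by
  rintro rfl
  have h4 := hv.inv []
  rw [app_zw_nil] at h4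
  have h5 : g⁻¹ [] = [] := by rw [Perm.inv_eq_iff_eq, h0]
  rw [h5, app_rc] at h4
  simp at h4

lemma reduce_left (n : ℕ) : ∀ g : Perm Dy, g ∈ VN d → g [] = [] → (∀ i, NCL g (rc d i)) →
    (bad d g⁻¹).ncard = n →
    ∃ h ∈ Gb d, (∀ i, NCL (h * g) (rc d i)) ∧ ∀ i, NCL (h * g)⁻¹ (rc d i) := by
  induction n using Nat.strong_induction_on with
  | _ n ih =>
    intro g hg h0 hc hn
    by_cases hall : ∀ i, NCL g⁻¹ (rc d i)
    · exact ⟨1, one_mem _, by simpa using hc, by simpa using hall⟩
    · push Not at hall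
      obtain ⟨j, hj⟩ := hall
      have h1 : hp (swap 0 j) * (tsp d 0)⁻¹ ∈ Gb d :=
        mul_mem (Gb_swap' _ _ _) (inv_mem (Gb_t d))
      have h2 := bad_step (inv_mem hg) hj
      have e : g⁻¹ * (hp (swap 0 j) * (tsp d 0)⁻¹) =
          ((hp (swap 0 j) * (tsp d 0)⁻¹)⁻¹ * g)⁻¹ := by group
      have h3 := inv_mem h1
      have hc0 : ∀ i, NCL ((hp (swap 0 j) * (tsp d 0)⁻¹)⁻¹ * g) (rc d i) := by
        intro i
        obtain ⟨v, hv⟩ := hc i
        apply NCL.mul_of_cone hv
        rcases word_cases v with ⟨k, rfl⟩ | ⟨m, w, rfl⟩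
        · exact absurd rfl (not_zw h0 hv k)
        · have e2 : (hp (swap 0 j) * (tsp d 0)⁻¹)⁻¹ = tsp d 0 * hp (swap 0 j) := by
            rw [mul_inv_rev, inv_inv, ← map_inv, swap_inv]
          rw [e2]
          apply NCL.mul_of_cone (hp_cone (swap 0 j) m w)
          apply tsp_cl
          rintro h6 rfl
          apply hj
          have : m = j := by
            have := congrArg (swap 0 j) h6
            rwa [swap_apply_self, swap_apply_left] at this
          subst this
          rw [List.append_nil] at hv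
          exact ⟨_, hv.inv⟩
      obtain ⟨h, hh, hc1, hc2⟩ := ih _ (hn ▸ h2) ((hp (swap 0 j) * (tsp d 0)⁻¹)⁻¹ * g)
        (mul_mem (Gb_le_VN h3) hg) (by rw [Perm.mul_apply, h0, Gb_fix h3]) hc0 (by rw [e])
      exact ⟨h * (hp (swap 0 j) * (tsp d 0)⁻¹)⁻¹, mul_mem hh h3,
        fun i => by rw [mul_assoc]; exact hc1 i, fun i => by rw [mul_assoc]; exact hc2 i⟩

/-- a cone-like element whose inverse is cone-like maps ray cones on ray cones -/
lemma exists_rc {g : Perm Dy} (h0 : g [] = []) (hc : ∀ i, NCL g (rc d i))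
    (hc' : ∀ i, NCL g⁻¹ (rc d i)) (i : ℕ) : ∃ j, NCone g (rc d i) (rc d j) := by
  have h0' : g⁻¹ [] = [] := by rw [Perm.inv_eq_iff_eq, h0]
  obtain ⟨v, hv⟩ := hc i
  rcases word_cases v with ⟨k, hk⟩ | ⟨m, w, hm⟩
  · exact absurd hk (not_zw h0 hv k)
  · obtain ⟨v', hv'⟩ := hc' m
    rcases word_cases v' with ⟨k, hk⟩ | ⟨m', w', hm'⟩
    · exact absurd hk (not_zw h0' hv' k)
    · have h1 := hv'.append w
      have h2 := hv.inv
      rw [hm] at h2
      have h3 := h1.unique h2
      rw [hm', List.append_assoc] at h3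
      have h4 : rc d m' ++ (w' ++ w) = rc d i ++ [] := by rw [h3, List.append_nil]
      have h5 := (rc_append_inj h4).2
      have h6 : w = [] := (List.append_eq_nil_iff.1 h5).2
      refine ⟨m, ?_⟩
      rw [hm, h6, List.append_nil] at hv
      exact hv

theorem Gb_of_good {g : Perm Dy} (hg : g ∈ VN d) (h0 : g [] = [])
    (hc : ∀ i, NCL g (rc d i)) (hc' : ∀ i, NCL g⁻¹ (rc d i)) : g ∈ Gb d := by
  have hd := Nat.pos_of_neZero d
  have h0' : g⁻¹ [] = [] := by rw [Perm.inv_eq_iff_eq, h0]
  choose f hf using exists_rc h0 hc hc'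
  choose f' hf' using exists_rc h0' hc' (by rw [inv_inv]; exact hc)
  have hl : ∀ i, f' (f i) = i := by
    intro i
    have h3 := (hf' (f i)).unique (hf i).inv
    have h4 : rc d (f' (f i)) ++ [] = rc d i ++ [] := by rw [h3]
    exact (rc_append_inj h4).1
  have hr : ∀ i, f (f' i) = i := by
    intro i
    have h2 := (hf' i).inv
    rw [inv_inv] at h2
    have h3 := (hf (f' i)).unique h2
    have h4 : rc d (f (f' i)) ++ [] = rc d i ++ [] := by rw [h3]
    exact (rc_append_inj h4).1
  let p : Perm ℕ := ⟨f, f', hl, hr⟩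
  -- behaviour near the base point
  obtain ⟨k, hk⟩ := hg
  obtain ⟨w, hw⟩ := hk (zw k) (zw_length k)
  obtain ⟨l, rfl⟩ : ∃ l, w = zw l := by
    rcases word_cases w with h | ⟨m, w', rfl⟩
    · exact h
    · exfalso
      have h1 := hw []
      rw [app_zw_nil, app_rc_append, h0] at h1
      simp at h1
  have hfs : ∀ i, f (i + k * d) = i + l * d := by
    intro i
    have h1 := hw.append (rc d i)
    rw [zw_append_rc, zw_append_rc] at h1
    have h2 := (hf (i + k * d)).unique h1
    have h3 : rc d (f (i + k * d)) ++ [] = rc d (i + l * d) ++ [] := by rw [h2]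
    exact (rc_append_inj h3).1
  have hkl : k * d = l * d := by
    -- `f` maps `{i < k d}` onto `{i < l d}`
    have h1 : (Finset.range (k * d)).image f = Finset.range (l * d) := by
      ext j
      simp only [Finset.mem_image, Finset.mem_range]
      constructor
      · rintro ⟨i, hi, rfl⟩
        by_contra hcon
        obtain ⟨e, he⟩ := Nat.exists_eq_add_of_le (not_lt.1 hcon)
        have h2 := hfs e
        have h3 : f i = f (e + k * d) := by rw [h2, he, Nat.add_comm]
        have h4 := p.injective h3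
        omega
      · intro hj
        refine ⟨f' j, ?_, hr j⟩
        by_contra hcon
        obtain ⟨e, he⟩ := Nat.exists_eq_add_of_le (not_lt.1 hcon)
        have h2 := hfs e
        rw [Nat.add_comm, ← he, hr] at h2
        omega
    have h2 := congrArg Finset.card h1
    rwa [Finset.card_image_of_injective _ (show Function.Injective f from p.injective),
      Finset.card_range, Finset.card_range] at h2
  have hfk : ∀ i, k * d ≤ i → f i = i := by
    intro i hi
    obtain ⟨e, rfl⟩ := Nat.exists_eq_add_of_le hi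
    have := hfs e
    rwa [← hkl, Nat.add_comm e] at this
  have e : g = hp p := by
    ext1 z
    rcases z with _ | ⟨i, z⟩
    · rw [h0, hp_nil]
    · have := hf i z
      rw [app_rc, app_rc] at this
      exact this
  rw [e]
  exact Gb_hp d (k * d) p hfk

/-- The stabilizer of the base point is generated by the standard elements. -/
theorem mem_Gb_iff {g : Perm Dy} : g ∈ Gb d ↔ g ∈ VN d ∧ g [] = [] := by
  refine ⟨fun h => ⟨Gb_le_VN h, Gb_fix h⟩, fun ⟨hg, h0⟩ => ?_⟩
  obtain ⟨h, hh, hc⟩ := reduce_right _ g hg rfl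
  obtain ⟨h', hh', hc1, hc2⟩ := reduce_left _ (g * h) (mul_mem hg (Gb_le_VN hh))
    (by rw [Perm.mul_apply, Gb_fix hh, h0]) hc rfl
  have h1 := Gb_of_good (mul_mem (Gb_le_VN hh') (mul_mem hg (Gb_le_VN hh)))
    (by rw [Perm.mul_apply, Perm.mul_apply, Gb_fix hh, h0, Gb_fix hh']) hc1 hc2
  have h2 := mul_mem (inv_mem hh') (mul_mem h1 (inv_mem hh))
  have e : h'⁻¹ * (h' * (g * h) * h⁻¹) = g := by group
  rwa [e] at h2

end Range

end Pool.Agent.BH
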