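import Pool.Agent.BH.VOneRayInj
import Pool.Agent.BH.VOneRayRange

set_option autoImplicit false

/-!
# The stabilizer of the base point in the Higman-Thompson group is finitely presented
-/

namespace Pool.Agent.BH

open Subgroup Equiv

section FP

variable {W : Type*} [Group W]

/-- The relators. -/
def relR (d : ℕ) (A T : ℕ → W) (i j : ℕ) : Set W :=
  {w | w = A i * A i ∨ w = A i * A (i + 1) * A i * (A (i + 1) * A i * A (i + 1))⁻¹ ∨
    (i + 2 ≤ j ∧ w = A i * A j * (A j * A i)⁻¹) ∨
    (i < j ∧ w = T i * A j * (A (j + d) * T i)⁻¹) ∨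
    (i < j ∧ w = T i * T j * (T (j + d) * T i)⁻¹) ∨
    (i + 1 < j ∧ w = T j * A i * (A i * T j)⁻¹)}

lemma relR_finite (d : ℕ) (A T : ℕ → W) (i j : ℕ) : (relR d A T i j).Finite := by
  apply Set.Finite.subset (s := ({A i * A i, A i * A (i + 1) * A i *
    (A (i + 1) * A i * A (i + 1))⁻¹, A i * A j * (A j * A i)⁻¹, T i * A j * (A (j + d) * T i)⁻¹,
    T i * T j * (T (j + d) * T i)⁻¹, T j * A i * (A i * T j)⁻¹} : Set W))
  · exact Set.toFinite _
  · rintro w (h | h | ⟨-, h⟩ | ⟨-, h⟩ | ⟨-, h⟩ | ⟨-, h⟩) <;> simp [h]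

lemma GRel_iff {P : Type*} [Group P] (F : W →* P) (d : ℕ) (A T : ℕ → W) (N : ℕ) :
    GRel d (fun i => F (A i)) (fun i => F (T i)) N ↔
      ∀ i ≤ N, ∀ j ≤ N, ∀ w ∈ relR d A T i j, F w = 1 := by
  constructor
  · rintro R i hi j hj w (rfl | rfl | ⟨h, rfl⟩ | ⟨h, rfl⟩ | ⟨h, rfl⟩ | ⟨h, rfl⟩)
    · rw [map_mul]; exact R.sq i hi
    · rw [map_mul, map_inv, mul_inv_eq_one]; simpa using R.braid i hi
    · rw [map_mul, map_inv, mul_inv_eq_one]; simpa using R.comm i hi j hj h
    · rw [map_mul, map_inv, mul_inv_eq_one]; simpa using R.TA i hi j hj h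
    · rw [map_mul, map_inv, mul_inv_eq_one]; simpa using R.TT i hi j hj h
    · rw [map_mul, map_inv, mul_inv_eq_one]; simpa using R.AT i hi j hj h
  · intro H
    refine ⟨?_, ?_, ?_, ?_, ?_, ?_⟩
    · intro i hi
      have := H i hi i hi _ (Or.inl rfl)
      rwa [map_mul] at this
    · intro i hi
      have := H i hi i hi _ (Or.inr (Or.inl rfl))
      rw [map_mul, map_inv, mul_inv_eq_one] at this
      simpa using this
    · intro i hi j hj h
      have := H i hi j hj _ (Or.inr (Or.inr (Or.inl ⟨h, rfl⟩)))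
      rw [map_mul, map_inv, mul_inv_eq_one] at this
      simpa using this
    · intro i hi j hj h
      have := H i hi j hj _ (Or.inr (Or.inr (Or.inr (Or.inl ⟨h, rfl⟩))))
      rw [map_mul, map_inv, mul_inv_eq_one] at this
      simpa using this
    · intro i hi j hj h
      have := H i hi j hj _ (Or.inr (Or.inr (Or.inr (Or.inr (Or.inl ⟨h, rfl⟩)))))
      rw [map_mul, map_inv, mul_inv_eq_one] at this
      simpa using this
    · intro i hi j hj h
      have := H i hi j hj _ (Or.inr (Or.inr (Or.inr (Or.inr (Or.inr ⟨h, rfl⟩)))))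
      rw [map_mul, map_inv, mul_inv_eq_one] at this
      simpa using this

lemma gA_congr (d : ℕ) (hd : 0 < d) {x y : ℕ → W} (t : W) (h : ∀ i ≤ d, x i = y i) (n : ℕ) :
    gA d x t n = gA d y t n := by
  rcases n with _ | n
  · exact h 0 (by omega)
  · simp only [gA]
    rw [h _ (by have := Nat.mod_lt n hd; omega)]

/-- **Module V1.** The stabilizer of the base point in the Higman-Thompson group is finitely
presented. -/
theorem VN_stab_fp (d : ℕ) [NeZero d] :
    Group.IsFinitelyPresented (MulAction.stabilizer (VN d) ([] : Dy)) := by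
  classical
  have hd := Nat.pos_of_neZero d
  let x : ℕ → FreeGroup (Option (Fin (d + 1))) := fun i =>
    if h : i < d + 1 then FreeGroup.of (some ⟨i, h⟩) else 1
  let t : FreeGroup (Option (Fin (d + 1))) := FreeGroup.of none
  let A := gA d x t
  let T := gT d A t
  let N := 3 * d + 2
  let R : Set (FreeGroup (Option (Fin (d + 1)))) :=
    ⋃ q ∈ (Finset.Iic N ×ˢ Finset.Iic N : Finset (ℕ × ℕ)), relR d A T q.1 q.2
  have hRfin : R.Finite := Set.Finite.biUnion
    (Finset.Iic N ×ˢ Finset.Iic N : Finset (ℕ × ℕ)).finite_toSet (fun q _ => relR_finite d A T _ _)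
  have hRiff : ∀ {P : Type} [Group P] (F : FreeGroup (Option (Fin (d + 1))) →* P),
      GRel d (fun i => F (A i)) (fun i => F (T i)) N ↔ ∀ w ∈ R, F w = 1 := by
    intro P _ F
    rw [GRel_iff]
    constructor
    · intro H w hw
      obtain ⟨q, hq, hw⟩ := Set.mem_iUnion₂.1 hw
      have hq' := Finset.mem_product.1 hq
      exact H q.1 (Finset.mem_Iic.1 hq'.1) q.2 (Finset.mem_Iic.1 hq'.2) w hw
    · intro H i hi j hj w hw
      apply H
      apply Set.mem_biUnion (x := (i, j)) _ hw
      simpa using ⟨hi, hj⟩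
  let K := normalClosure R
  let π := QuotientGroup.mk' K
  have hfpK : Group.IsFinitelyPresented (FreeGroup (Option (Fin (d + 1))) ⧸ K) :=
    Group.IsFinitelyPresented.quotient K ⟨R, hRfin, rfl⟩
  -- the relations in the quotient
  let A' : ℕ → FreeGroup (Option (Fin (d + 1))) ⧸ K := fun i => π (A i)
  let t' : FreeGroup (Option (Fin (d + 1))) ⧸ K := π t
  have hT' : (fun i => π (T i)) = gT d A' t' := by
    funext i
    exact gT_map π d A t i
  have hRel : GRel d A' (gT d A' t') N := by
    rw [← hT']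
    exact (hRiff π).2 fun w hw => (QuotientGroup.eq_one_iff w).2 (subset_normalClosure hw)
  have hs : ∀ n, 1 ≤ n → t' * A' n * t'⁻¹ = A' (n + d) := by
    intro n hn
    change π t * π (A n) * (π t)⁻¹ = π (A (n + d))
    rw [← map_inv, ← map_mul, ← map_mul]
    exact congrArg π (gA_shift d hd x t n hn)
  -- the standard representation
  let ρF : FreeGroup (Option (Fin (d + 1))) →* Perm Dy :=
    FreeGroup.lift fun o => match o with
      | none => tsp d 0
      | some i => sA i.1
  have et : ρF t = tsp d 0 := by simp [ρF, t]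
  have ex : ∀ i ≤ d, ρF (x i) = sA i := by
    intro i hi
    simp only [x]
    rw [dif_pos (by omega)]
    simp [ρF]
  have eA : ∀ i, ρF (A i) = sA i := by
    intro i
    change ρF (gA d x t i) = _
    rw [gA_map, et, gA_congr d hd _ ex, std_gA]
  have eT : ∀ i, ρF (T i) = tsp d i := by
    intro i
    change ρF (gT d A t i) = _
    rw [gT_map, et, funext eA, std_gT]
  have hK : K ≤ ρF.ker := by
    apply normalClosure_le_normal
    have h1 := std_GRel d N
    rw [← funext eA, ← funext eT] at h1
    exact (hRiff ρF).1 h1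
  let ρ : FreeGroup (Option (Fin (d + 1))) ⧸ K →* Perm Dy := QuotientGroup.lift K ρF hK
  have hSR : StdRep d A' t' ρ := ⟨fun i => eA i, et⟩
  have hgen : closure (Set.range A' ∪ {t'}) = ⊤ := by
    rw [eq_top_iff]
    intro γ _
    obtain ⟨w, rfl⟩ := QuotientGroup.mk'_surjective K γ
    induction w using FreeGroup.induction_on with
    | C1 => rw [map_one]; exact one_mem _
    | of q =>
      apply Subgroup.subset_closure
      rcases q with _ | q
      · exact Or.inr rfl
      · left
        refine ⟨q.1, ?_⟩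
        change π (gA d x t q.1) = _
        rw [gA_small d x t q.1 (by have := q.2; omega)]
        simp only [x]
        rw [dif_pos q.2]
    | inv_of q ih => rw [map_inv]; exact inv_mem (ih trivial)
    | mul x y hx hy => rw [map_mul]; exact mul_mem (hx trivial) (hy trivial)
  have hinj : Function.Injective ρ := oneRay_injective (hRel.cox hd hs le_rfl) hs
    (hRel.basic_diamond hd hs le_rfl) hSR hgen
  have hrange : ∀ γ, ρ γ ∈ Gb d := by
    intro γ
    have hγ : γ ∈ closure (Set.range A' ∪ {t'}) := by rw [hgen]; trivial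
    have hle : closure (Set.range A' ∪ {t'}) ≤ (Gb d).comap ρ := by
      rw [closure_le]
      rintro _ (⟨i, rfl⟩ | h)
      · change ρ (A' i) ∈ Gb d
        rw [hSR.rA]
        exact Gb_adj d i
      · rw [Set.mem_singleton_iff] at h
        rw [h]
        change ρ t' ∈ Gb d
        rw [hSR.rt]
        exact Gb_t d
    exact hle hγ
  have hsurj : ∀ g ∈ Gb d, ∃ γ, ρ γ = g := by
    intro g hg
    have hle : Gb d ≤ ρ.range := by
      unfold Gb
      rw [closure_le]
      rintro _ (⟨i, rfl⟩ | rfl)
      · exact ⟨A' i, hSR.rA i⟩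
      · exact ⟨t', hSR.rt⟩
    exact hle hg
  let e : (FreeGroup (Option (Fin (d + 1))) ⧸ K) →* MulAction.stabilizer (VN d) ([] : Dy) :=
    { toFun := fun γ => ⟨⟨ρ γ, (mem_Gb_iff.1 (hrange γ)).1⟩, (mem_Gb_iff.1 (hrange γ)).2⟩
      map_one' := by
        apply Subtype.ext
        apply Subtype.ext
        exact map_one ρ
      map_mul' := by
        intro a b
        apply Subtype.ext
        apply Subtype.ext
        exact map_mul ρ a b }
  have hbij : Function.Bijective e := by
    constructor
    · intro a b h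
      apply hinj
      exact congrArg (fun g => g.1.1) h
    · rintro ⟨⟨g, hg⟩, h0⟩
      obtain ⟨γ, hγ⟩ := hsurj g (mem_Gb_iff.2 ⟨hg, h0⟩)
      exact ⟨γ, by
        apply Subtype.ext
        apply Subtype.ext
        exact hγ⟩
  exact Group.IsFinitelyPresented.equiv (MulEquiv.ofBijective e hbij)

end FP

end Pool.Agent.BH
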