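import Pool.Agent.BH.VFG
import Pool.Agent.BH.VOneRayFP

set_option autoImplicit false

/-!
# Finiteness properties of the Higman-Thompson groups
-/

namespace Pool.Agent.BH

/-- The Higman-Thompson group is finitely presented. -/
theorem VN_fp (d : ℕ) [NeZero d] : Group.IsFinitelyPresented (VN d) :=
  VN_fp_of d (VN_stab_fp d)

/-- The stabilizer of the base point is finitely generated. -/
theorem VN_stab_fg (d : ℕ) [NeZero d] : (MulAction.stabilizer (VN d) ([] : Dy)).FG :=
  fg_of_fp_subgroup (VN_stab_fp d)

/-- The stabilizer of two points is finitely generated. -/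
theorem VN_stab_two_fg (d : ℕ) [NeZero d] :
    (MulAction.stabilizer (VN d) ([] : Dy) ⊓ MulAction.stabilizer (VN d) ([0] : Dy)).FG :=
  two_stab_fg d (VN_stab_fg d)

/-- The pointwise stabilizer of a proper cone is finitely generated. -/
theorem VN_fix_fg (d : ℕ) [NeZero d] (u : List (Ch d)) (hu : u ≠ []) :
    (fixCone u).FG :=
  VN_fix_fg_of d (VN_stab_fp d) u hu

end Pool.Agent.BH
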