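import Pool.Agent.BH.VLabTrans
import Pool.Agent.BH.VMain

set_option autoImplicit false

/-!
# Labelled Higman-Thompson groups with labels in a free group are finitely presented
-/

namespace Pool.Agent.BH

theorem VL_free_fp {d : ℕ} [NeZero d] {X : Type} [Finite X]
    (ε : Fin d → FreeGroup X →* FreeGroup X) : Group.IsFinitelyPresented (VL ε) :=
  VL_free_fp_of (VN_fp d) (VN_fix_fg d (u0 d) u0_ne) ε

end Pool.Agent.BH
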