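import Pool.Agent.BH.VDefs
import Pool.Agent.Helper13.RegisterMain

set_option autoImplicit false

/-!
# From a labelled Higman-Thompson group to an action of type (A)
-/

namespace Pool.Agent.BH

open Equiv MulAction Monoid Function

namespace NormB

section Trans

variable {d : ℕ} [NeZero d]

/-- Permutations of the words of a given length. -/
theorem exists_VN_perm (k : ℕ) (σ : Perm {u : List (Ch d) // u.length = k}) :
    ∃ g : VN d, ∀ u, NCone g.1 u.1 (σ u).1 := by
  let e : {u : List (Ch d) // u.length = k} × Dy ≃ Dy :=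
    Equiv.ofBijective (fun p => app p.1.1 p.2) (by
      constructor
      · rintro ⟨⟨u, hu⟩, z⟩ ⟨⟨v, hv⟩, z'⟩ h
        obtain ⟨h1, h2⟩ := app_eq_length h (hu.trans hv.symm)
        exact Prod.ext (Subtype.ext h1) h2
      · intro z
        obtain ⟨u, z', hu, rfl⟩ := exists_app (d := d) k z
        exact ⟨(⟨u, hu⟩, z'), rfl⟩)
  let g : Perm Dy := e.symm.trans ((σ.prodCongr (Equiv.refl Dy)).trans e)
  have hg : ∀ u, NCone g u.1 (σ u).1 := by
    intro u z
    have h1 : e.symm (app u.1 z) = (u, z) := by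
      rw [Equiv.symm_apply_eq]
      rfl
    change e ((σ.prodCongr (Equiv.refl Dy)) (e.symm (app u.1 z))) = _
    rw [h1]
    rfl
  exact ⟨⟨g, k, fun u hu => ⟨_, hg ⟨u, hu⟩⟩⟩, hg⟩

/-- Every point is the base point of a cone of every large depth. -/
lemma exists_base (z : Dy) :
    ∃ k0, ∀ k, k0 ≤ k → ∃ u : List (Ch d), u.length = k ∧ app u [] = z := by
  induction z with
  | nil => exact ⟨0, fun k _ => ⟨zw k, zw_length k, app_zw_nil k⟩⟩
  | cons i z ih =>
    obtain ⟨k0, h⟩ := ih
    refine ⟨k0 + (rc d i).length, fun k hk => ?_⟩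
    obtain ⟨u, hu, hz⟩ := h (k - (rc d i).length) (by omega)
    refine ⟨rc d i ++ u, by simp only [List.length_append]; omega, ?_⟩
    rw [app_append, hz, app_rc]

lemma exists_base_fin {r : ℕ} (p : Fin r → Dy) :
    ∃ k0, ∀ k, k0 ≤ k → ∃ u : Fin r → List (Ch d), (∀ i, (u i).length = k) ∧
      ∀ i, app (u i) [] = p i := by
  choose k hk using fun i => exists_base (d := d) (p i)
  refine ⟨Finset.univ.sup k, fun m hm => ?_⟩
  have : ∀ i, ∃ u : List (Ch d), u.length = m ∧ app u [] = p i := fun i =>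
    hk i m (le_trans (Finset.le_sup (Finset.mem_univ i)) hm)
  choose u hu using this
  exact ⟨u, fun i => (hu i).1, fun i => (hu i).2⟩

lemma exists_perm_extend {W : Type*} [Finite W] {r : ℕ} (x y : Fin r → W)
    (hx : Function.Injective x) (hy : Function.Injective y) : ∃ σ : Perm W, ∀ i, σ (x i) = y i := by
  classical
  let e : {w // w ∈ Set.range x} ≃ {w // w ∈ Set.range y} :=
    (Equiv.ofInjective x hx).symm.trans (Equiv.ofInjective y hy)
  haveI := Fintype.ofFinite W
  refine ⟨e.extendSubtype, fun i => ?_⟩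
  rw [Equiv.extendSubtype_apply_of_mem e (x i) ⟨i, rfl⟩]
  have : (Equiv.ofInjective x hx).symm ⟨x i, i, rfl⟩ = i := by
    rw [Equiv.symm_apply_eq]
    rfl
  change ((Equiv.ofInjective y hy) ((Equiv.ofInjective x hx).symm ⟨x i, i, rfl⟩) : W) = y i
  rw [this]
  rfl

variable (d) in
/-- High transitivity on points. -/
theorem highly {r : ℕ} (p q : Fin r → Dy) (hp : Function.Injective p)
    (hq : Function.Injective q) : ∃ g : VN d, ∀ i, g • p i = q i := by
  obtain ⟨k, hk⟩ := exists_base_fin (d := d) p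
  obtain ⟨l, hl⟩ := exists_base_fin (d := d) q
  obtain ⟨u, hu, hup⟩ := hk (k + l) (by omega)
  obtain ⟨v, hv, hvq⟩ := hl (k + l) (by omega)
  let W := {w : List (Ch d) // w.length = k + l}
  have hfin : Finite W := Set.Finite.to_subtype (List.finite_length_eq (Ch d) (k + l))
  obtain ⟨σ, hσ⟩ := exists_perm_extend (W := W) (fun i => ⟨u i, hu i⟩) (fun i => ⟨v i, hv i⟩)
    (by
      intro i j h
      apply hp
      rw [← hup, ← hup]
      rw [show u i = u j from congrArg Subtype.val h])
    (by
      intro i j h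
      apply hq
      rw [← hvq, ← hvq]
      rw [show v i = v j from congrArg Subtype.val h])
  obtain ⟨g, hg⟩ := exists_VN_perm (k + l) σ
  refine ⟨g, fun i => ?_⟩
  have h1 : g.1 (app (u i) []) = app (σ ⟨u i, hu i⟩).1 [] := hg ⟨u i, hu i⟩ []
  rw [hσ] at h1
  rw [← hup, ← hvq]
  exact h1

variable (d) in
/-- Two points. -/
lemma two {a b c e : Dy} (hab : a ≠ b) (hcd : c ≠ e) : ∃ g : VN d, g • a = c ∧ g • b = e := by
  obtain ⟨g, hg⟩ := highly d ![a, b] ![c, e]
    (by
      intro i j h
      fin_cases i <;> fin_cases j <;> simp_all)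
    (by
      intro i j h
      fin_cases i <;> fin_cases j <;> simp_all)
  exact ⟨g, hg 0, hg 1⟩

variable (d) in
/-- Three points. -/
lemma three {a b c p e f : Dy} (hab : a ≠ b) (hac : a ≠ c) (hbc : b ≠ c) (hde : p ≠ e)
    (hdf : p ≠ f) (hef : e ≠ f) : ∃ g : VN d, g • a = p ∧ g • b = e ∧ g • c = f := by
  obtain ⟨g, hg⟩ := highly d ![a, b, c] ![p, e, f]
    (by
      intro i j h
      fin_cases i <;> fin_cases j <;> simp_all)
    (by
      intro i j h
      fin_cases i <;> fin_cases j <;> simp_all)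
  exact ⟨g, hg 0, hg 1, hg 2⟩

end Trans

section Labels

variable {d : ℕ} [NeZero d] {P : Type*} [Group P] (ε : Fin d → P →* P)

/-- The label `a` on the whole space. -/
def rootP : P →* Perm (Dy × P) where
  toFun a :=
    { toFun := fun x => (x.1, tw ε x.1 a * x.2)
      invFun := fun x => (x.1, (tw ε x.1 a)⁻¹ * x.2)
      left_inv := by rintro ⟨z, s⟩; simp
      right_inv := by rintro ⟨z, s⟩; simp }
  map_one' := by
    ext1 ⟨z, s⟩
    change (z, tw ε z 1 * s) = (z, s)
    rw [map_one, one_mul]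
  map_mul' a b := by
    ext1 ⟨z, s⟩
    change (z, tw ε z (a * b) * s) = (z, tw ε z a * (tw ε z b * s))
    rw [map_mul, mul_assoc]

lemma rootP_cone (a : P) : LCone ε (rootP ε a) [] [] a := fun z s => rfl

lemma rootP_mem (a : P) : rootP ε a ∈ VL ε :=
  ⟨0, fun u hu => by
    obtain rfl := List.length_eq_zero_iff.1 hu
    exact ⟨_, _, rootP_cone ε a⟩⟩

/-- The label `a` on the whole space. -/
def rootL : P →* VL ε := (rootP ε).codRestrict (VL ε) (rootP_mem ε)

lemma rootL_smul (a : P) (z : Dy) : rootL ε a • z = z := rfl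

lemma rootL_lab (a : P) (z : Dy) : lab (rootL ε a).1 z = tw ε z a := by
  change tw ε z a * 1 = _
  rw [mul_one]

/-- Elements with given labels on the children. -/
theorem exists_children (a : Ch d → P) : ∃ g : VL ε, ∀ c : Ch d, LCone ε g.1 [c] [c] (a c) := by
  let e : Ch d × Dy ≃ Dy := Equiv.ofBijective (fun p => bz p.1 p.2) (by
    constructor
    · rintro ⟨c, z⟩ ⟨c', z'⟩ h
      obtain ⟨h1, h2⟩ := bz_inj h
      exact Prod.ext h1 h2
    · intro z
      obtain ⟨c, z', rfl⟩ := bz_surj (d := d) z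
      exact ⟨(c, z'), rfl⟩)
  let t : Dy → P := fun z => tw ε (e.symm z).2 (a (e.symm z).1)
  let g : Perm (Dy × P) :=
    { toFun := fun x => (x.1, t x.1 * x.2)
      invFun := fun x => (x.1, (t x.1)⁻¹ * x.2)
      left_inv := by rintro ⟨z, s⟩; simp
      right_inv := by rintro ⟨z, s⟩; simp }
  have hg : ∀ c : Ch d, LCone ε g [c] [c] (a c) := by
    intro c z s
    change (bz c z, t (bz c z) * s) = (bz c z, tw ε z (a c) * s)
    have h1 : e.symm (bz c z) = (c, z) := by
      rw [Equiv.symm_apply_eq]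
      rfl
    simp only [t]
    rw [h1]
  refine ⟨⟨g, 1, fun u hu => ?_⟩, hg⟩
  obtain ⟨c, rfl⟩ := List.length_eq_one_iff.1 hu
  exact ⟨_, _, hg c⟩

lemma toVL_smul (g : VN d) (z : Dy) : (VN.toVL (ε := ε) g) • z = g • z := rfl

lemma toVL_lab (g : VN d) (z : Dy) : lab (VN.toVL (ε := ε) g).1 z = 1 := rfl

variable {ε}

/-- Compare the label at the base point with a homomorphism. -/
def labSub {A : Type*} [Group A] (Ψ : A →* VL ε) (χ : A →* P) : Subgroup A where
  carrier := {x | Ψ x • ([] : Dy) = [] ∧ lab (Ψ x).1 [] = χ x}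
  one_mem' := by
    refine ⟨by rw [map_one, one_smul], ?_⟩
    rw [map_one, map_one]
    rfl
  mul_mem' := by
    rintro x y ⟨hx1, hx2⟩ ⟨hy1, hy2⟩
    refine ⟨?_, ?_⟩
    · rw [map_mul, mul_smul, hy1, hx1]
    · rw [map_mul, VL.lab_mul, hy1, hx2, hy2, map_mul]
  inv_mem' := by
    rintro x ⟨hx1, hx2⟩
    have h1 : (Ψ x)⁻¹ • ([] : Dy) = [] := by rw [inv_smul_eq_iff, hx1]
    refine ⟨by rw [map_inv, h1], ?_⟩
    have h2 := VL.lab_mul (Ψ x)⁻¹ (Ψ x) []
    rw [inv_mul_cancel, hx1, hx2] at h2
    have h3 : lab (1 : VL ε).1 [] = (1 : P) := rfl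
    rw [h3] at h2
    rw [map_inv, map_inv]
    exact eq_inv_of_mul_eq_one_left h2.symm

/-- An element commuting with the stabilizer of the base point on points acts trivially. -/
lemma smul_eq_of_comm {g : VL ε} (h : ∀ k : VN d, k • ([] : Dy) = [] → ∀ z : Dy,
    g • k • z = k • g • z) (z : Dy) : g • z = z := by
  have h0 : g • ([] : Dy) = [] := by
    by_contra hcon
    obtain ⟨w, hw⟩ := Infinite.exists_notMem_finset ({[], g • ([] : Dy)} : Finset Dy)
    simp only [Finset.mem_insert, Finset.mem_singleton, not_or] at hw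
    obtain ⟨k, hk0, hk1⟩ := two d (a := []) (b := g • ([] : Dy)) (c := []) (e := w)
      (Ne.symm hcon) (Ne.symm hw.1)
    have := h k hk0 []
    rw [hk0, hk1] at this
    exact hw.2 this.symm
  by_cases hz : z = []
  · rw [hz, h0]
  by_contra hcon
  have h1 : g • z ≠ [] := by
    intro h'
    rw [← h0] at h'
    exact hz (smul_left_cancel g h')
  obtain ⟨w, hw⟩ := Infinite.exists_notMem_finset ({[], z, g • z} : Finset Dy)
  simp only [Finset.mem_insert, Finset.mem_singleton, not_or] at hw
  obtain ⟨k, hk0, hk1, hk2⟩ := three d (a := []) (b := z) (c := g • z) (p := []) (e := z)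
    (f := w) (Ne.symm hz) (Ne.symm h1) (Ne.symm hcon) (Ne.symm hz) (Ne.symm hw.1)
    (Ne.symm hw.2.1)
  have := h k hk0 z
  rw [hk1, hk2] at this
  exact hw.2.2 this.symm

end Labels

end NormB

open NormB

/-- The final step, with the classification of the normal subgroups and the finite generation of
the stabilizer of the base point as hypotheses. -/
theorem typeA_of_label_aux {d : ℕ} [NeZero d] {P : Type} [Group P] [Group.FG P]
    (ε : Fin d → P →* P) (h0 : ε 0 = MonoidHom.id _) (hfp : Group.IsFinitelyPresented (VL ε))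
    (hstab : (MulAction.stabilizer (VN d) ([] : Dy)).FG)
    (hcases : ∀ N : Subgroup (VL ε), N.Normal → N = ⊤ ∨ ∃ R : Subgroup P, R.Normal ∧
      (∀ i, R ≤ R.comap (ε i)) ∧ ∀ g : VL ε, g ∈ N ↔ (∀ z : Dy, g • z = z) ∧ ∀ z, lab g.1 z ∈ R)
    (hinv : Finite {R : Subgroup P // R.Normal ∧ ∀ i, R ≤ R.comap (ε i)})
    (hcent : ∀ R : Subgroup P, R.Normal → (∀ i, R ≤ R.comap (ε i)) →
      ∀ x, (∀ y, x * y * x⁻¹ * y⁻¹ ∈ R) → x ∈ R)
    {H : Type} [Group H] [Group.IsFinitelyPresented H] (lam : Coprod H (FreeGroup ℕ) →* P)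
    (hlam : Function.Injective lam) : Helper13.EmbedsInTypeA H := by
  classical
  -- generators
  obtain ⟨T, hT⟩ : ∃ T : Finset P, Subgroup.closure (T : Set P) = ⊤ :=
    (inferInstance : Group.FG P).out
  obtain ⟨Q, hQ⟩ := hstab
  let K := T ⊕ Q
  obtain ⟨e⟩ : Nonempty (K ⊕ ℕ ≃ ℕ) := nonempty_equiv_of_countable
  let c : P →* VL ε := rootL ε
  have hcp : ∀ (a : P) (z : Dy), c a • z = z := fun a z => rfl
  have hcl : ∀ (a : P), lab (c a).1 [] = a := fun a => rootL_lab ε a []
  let zz : ℕ → P := fun n => lam (Coprod.inr (FreeGroup.of n))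
  choose bb hbb using fun p : P × P => exists_children ε
    (fun o : Ch d => if o = none then p.2 else if o = some 0 then p.1 else 1)
  have hb0 : ∀ p, LCone ε (bb p).1 [none] [none] p.2 := fun p => by
    have := hbb p none
    rwa [if_pos rfl] at this
  have hb1 : ∀ p, LCone ε (bb p).1 [some 0] [some 0] p.1 := fun p => by
    have := hbb p (some 0)
    rwa [if_neg (by simp), if_pos rfl] at this
  let y : K → VL ε := Sum.elim (fun t => bb (t.1, zz (e (Sum.inl (Sum.inl t)))))
    (fun q => VN.toVL (ε := ε) q.1 * c (zz (e (Sum.inl (Sum.inr q)))))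
  let ι : Coprod H (FreeGroup K) →* VL ε :=
    Coprod.lift (c.comp (lam.comp Coprod.inl)) (FreeGroup.lift y)
  let Ψ : Coprod (Coprod H (FreeGroup K)) (FreeGroup ℕ) →* VL ε :=
    Coprod.lift ι (FreeGroup.lift fun n => c (zz (e (Sum.inr n))))
  have hΨι : ∀ m, Ψ (Coprod.inl m) = ι m := fun m => Coprod.lift_apply_inl _ _ m
  have hιy : ∀ k, ι (Coprod.inr (FreeGroup.of k)) = y k := by
    intro k
    have h1 : ι (Coprod.inr (FreeGroup.of k)) = FreeGroup.lift y (FreeGroup.of k) :=
      Coprod.lift_apply_inr _ _ _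
    rw [h1, FreeGroup.lift_apply_of]
  -- the comparison isomorphism
  let Θ : Coprod (Coprod H (FreeGroup K)) (FreeGroup ℕ) →* Coprod H (FreeGroup ℕ) :=
    Coprod.lift (Coprod.lift Coprod.inl (FreeGroup.lift fun k =>
      Coprod.inr (FreeGroup.of (e (Sum.inl k)))))
      (FreeGroup.lift fun n => Coprod.inr (FreeGroup.of (e (Sum.inr n))))
  let Θ' : Coprod H (FreeGroup ℕ) →* Coprod (Coprod H (FreeGroup K)) (FreeGroup ℕ) :=
    Coprod.lift (Coprod.inl.comp Coprod.inl) (FreeGroup.lift fun n =>
      Sum.elim (fun k => Coprod.inl (Coprod.inr (FreeGroup.of k)))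
        (fun n => Coprod.inr (FreeGroup.of n)) (e.symm n))
  have hΘ : Injective Θ := by
    have h1 : Θ'.comp Θ = MonoidHom.id _ := by
      apply Coprod.hom_ext
      · apply Coprod.hom_ext
        · ext h
          simp [Θ, Θ']
        · ext k
          simp [Θ, Θ']
      · ext n
        simp [Θ, Θ']
    intro a b hab'
    have h2 := congrArg Θ' hab'
    have h3 : ∀ x, Θ' (Θ x) = x := fun x => DFunLike.congr_fun h1 x
    rwa [h3, h3] at h2
  -- the label at the base point
  have hΨL : ∀ x, x ∈ labSub Ψ (lam.comp Θ) := by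
    intro x
    induction x using Coprod.induction_on with
    | inl m =>
      induction m using Coprod.induction_on with
      | inl h =>
        refine ⟨?_, ?_⟩
        · rw [hΨι]
          have : ι (Coprod.inl h) = c (lam (Coprod.inl h)) := Coprod.lift_apply_inl _ _ _
          rw [this, hcp]
        · rw [hΨι]
          have : ι (Coprod.inl h) = c (lam (Coprod.inl h)) := Coprod.lift_apply_inl _ _ _
          rw [this, hcl]
          simp [Θ]
      | inr f =>
        induction f using FreeGroup.induction_on with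
        | C1 => rw [map_one, map_one]; exact one_mem _
        | of k =>
          have h1 : (lam.comp Θ) (Coprod.inl (Coprod.inr (FreeGroup.of k))) =
              zz (e (Sum.inl k)) := by
            simp [Θ, zz]
          change Ψ (Coprod.inl (Coprod.inr (FreeGroup.of k))) • ([] : Dy) = [] ∧
            lab (Ψ (Coprod.inl (Coprod.inr (FreeGroup.of k)))).1 [] = _
          rw [hΨι, hιy, h1]
          rcases k with t | q
          · have e1 : LCone ε (y (Sum.inl t)).1 [none] [none] (zz (e (Sum.inl (Sum.inl t)))) :=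
              hb0 _
            exact ⟨e1.smul [], e1.lab_eq []⟩
          · have hq : (q.1 : VN d) • ([] : Dy) = [] := by
              have : q.1 ∈ stabilizer (VN d) ([] : Dy) := by
                rw [← hQ]
                exact Subgroup.subset_closure q.2
              exact this
            refine ⟨?_, ?_⟩
            · change (VN.toVL (ε := ε) q.1 * c _) • ([] : Dy) = []
              rw [mul_smul, hcp, toVL_smul, hq]
            · change lab (VN.toVL (ε := ε) q.1 * c _).1 [] = _
              rw [VL.lab_mul, hcp, hcl, toVL_lab, one_mul]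
        | inv_of k ih => rw [map_inv, map_inv]; exact inv_mem ih
        | mul a b iha ihb => rw [map_mul, map_mul]; exact mul_mem iha ihb
      | mul a b iha ihb => rw [map_mul]; exact mul_mem iha ihb
    | inr f =>
      induction f using FreeGroup.induction_on with
      | C1 => rw [map_one]; exact one_mem _
      | of n =>
        have h1 : (lam.comp Θ) (Coprod.inr (FreeGroup.of n)) = zz (e (Sum.inr n)) := by
          simp [Θ, zz]
        have h2 : Ψ (Coprod.inr (FreeGroup.of n)) = c (zz (e (Sum.inr n))) := by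
          have h3 : Ψ (Coprod.inr (FreeGroup.of n)) =
              FreeGroup.lift (fun n => c (zz (e (Sum.inr n)))) (FreeGroup.of n) :=
            Coprod.lift_apply_inr _ _ _
          rw [h3, FreeGroup.lift_apply_of]
        change Ψ (Coprod.inr (FreeGroup.of n)) • ([] : Dy) = [] ∧
            lab (Ψ (Coprod.inr (FreeGroup.of n))).1 [] = _
        rw [h1, h2]
        exact ⟨hcp _ _, hcl _⟩
      | inv_of n ih => rw [map_inv]; exact inv_mem ih
      | mul a b iha ihb => rw [map_mul]; exact mul_mem iha ihb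
    | mul a b iha ihb => exact mul_mem iha ihb
  have hΨ : Injective Ψ := by
    rw [injective_iff_map_eq_one]
    intro x hx
    have h1 := (hΨL x).2
    rw [hx] at h1
    have h2 : lab (1 : VL ε).1 [] = (1 : P) := rfl
    rw [h2] at h1
    have h3 : lam (Θ x) = 1 := h1.symm
    rw [← map_one lam] at h3
    have h4 := hlam h3
    rw [← map_one Θ] at h4
    exact hΘ h4
  -- the action of `M` on points is that of the stabilizer of the base point
  have hact : ∀ g : VN d, g • ([] : Dy) = [] → ∃ m, ∀ z : Dy, ι m • z = g • z := by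
    intro g hg
    have hg' : g ∈ Subgroup.closure (Q : Set (VN d)) := by
      rw [hQ]
      exact hg
    induction hg' using Subgroup.closure_induction with
    | mem q hq =>
      refine ⟨Coprod.inr (FreeGroup.of (Sum.inr ⟨q, hq⟩)), fun z => ?_⟩
      rw [hιy]
      change (VN.toVL (ε := ε) q * c _) • z = q • z
      rw [mul_smul, hcp, toVL_smul]
    | one => exact ⟨1, fun z => by rw [map_one, one_smul, one_smul]⟩
    | mul a b ha hb iha ihb =>
      have ha' : a • ([] : Dy) = [] := by
        rw [hQ] at ha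
        exact ha
      have hb' : b • ([] : Dy) = [] := by
        rw [hQ] at hb
        exact hb
      obtain ⟨m, hm⟩ := iha ha'
      obtain ⟨m', hm'⟩ := ihb hb'
      exact ⟨m * m', fun z => by rw [map_mul, mul_smul, mul_smul, hm', hm]⟩
    | inv a ha iha =>
      have ha' : a • ([] : Dy) = [] := by
        rw [hQ] at ha
        exact ha
      obtain ⟨m, hm⟩ := iha ha'
      refine ⟨m⁻¹, fun z => ?_⟩
      rw [map_inv, inv_smul_eq_iff, hm, smul_inv_smul]
  have hncl : Subgroup.normalClosure (Set.range ι) = ⊤ := by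
    rcases hcases (Subgroup.normalClosure (Set.range ι)) inferInstance with h | ⟨R, -, -, h⟩
    · exact h
    · exfalso
      obtain ⟨g, hg0, hg1⟩ := two d (a := []) (b := [0]) (c := []) (e := [1]) (by simp) (by simp)
      obtain ⟨m, hm⟩ := hact g hg0
      have h1 := ((h _).1 (Subgroup.subset_normalClosure ⟨m, rfl⟩)).1 [0]
      rw [hm, hg1] at h1
      simp at h1
  have hfin : Finite {N : Subgroup (VL ε) // N.Normal} := by
    have hch : ∀ N : {N : Subgroup (VL ε) // N.Normal},
        ∃ R : Option {R : Subgroup P // R.Normal ∧ ∀ i, R ≤ R.comap (ε i)},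
          (R = none ∧ N.1 = ⊤) ∨ ∃ R', R = some R' ∧
            ∀ g : VL ε, g ∈ N.1 ↔ (∀ z : Dy, g • z = z) ∧ ∀ z, lab g.1 z ∈ R'.1 := by
      rintro ⟨N, hN⟩
      rcases hcases N hN with h | ⟨R, hR1, hR2, h⟩
      · exact ⟨none, Or.inl ⟨rfl, h⟩⟩
      · exact ⟨some ⟨R, hR1, hR2⟩, Or.inr ⟨_, rfl, h⟩⟩
    choose f hf using hch
    refine Finite.of_injective f ?_
    intro N N' hNN
    apply Subtype.ext
    rcases hf N with ⟨h1, h2⟩ | ⟨R, h1, h2⟩
    · rcases hf N' with ⟨h3, h4⟩ | ⟨R', h3, h4⟩
      · rw [h2, h4]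
      · rw [hNN, h3] at h1
        simp at h1
    · rcases hf N' with ⟨h3, h4⟩ | ⟨R', h3, h4⟩
      · rw [hNN, h3] at h1
        simp at h1
      · rw [hNN, h3, Option.some.injEq] at h1
        subst h1
        ext g
        rw [h2, h4]
  have hcent' : ∀ N : Subgroup (VL ε), N.Normal → N ≠ ⊤ → ∀ g,
      (∀ m, g * ι m * g⁻¹ * (ι m)⁻¹ ∈ N) → g ∈ N := by
    intro N hN hNtop g hg
    rcases hcases N hN with h | ⟨R, hR1, hR2, hNR⟩
    · exact absurd h hNtop
    have hgB : ∀ z : Dy, g • z = z := by
      apply smul_eq_of_comm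
      intro k hk z
      obtain ⟨m, hm⟩ := hact k hk
      have h1 := ((hNR _).1 (hg m)).1 (ι m • g • z)
      rw [mul_smul, mul_smul, mul_smul, inv_smul_smul, inv_smul_smul, hm, hm] at h1
      exact h1
    -- commutation of the labels modulo `R`
    have hcomm : ∀ m z, lab g.1 (ι m • z) * lab (ι m).1 z * (lab (ι m).1 z * lab g.1 z)⁻¹ ∈ R := by
      intro m z
      have h1 := ((hNR _).1 (hg m)).2 (ι m • g • z)
      have h2 := VL.lab_mul g (ι m) z
      have h3 := VL.lab_mul (ι m) g z
      have h4 := VL.lab_mul (g * ι m * g⁻¹ * (ι m)⁻¹) (ι m * g) z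
      have e1 : g * ι m * g⁻¹ * (ι m)⁻¹ * (ι m * g) = g * ι m := by group
      rw [e1, h2, h3, mul_smul] at h4
      rw [hgB z] at h4 h1
      rw [h4, mul_inv_cancel_right]
      exact h1
    have hx0 : lab g.1 [0] ∈ R := by
      apply hcent R hR1 hR2
      intro p
      have hp : p ∈ Subgroup.closure (T : Set P) := by rw [hT]; trivial
      -- the elements commuting with the label modulo `R`
      have key : ∀ t ∈ T, lab g.1 [0] * t * (lab g.1 [0])⁻¹ * t⁻¹ ∈ R := by
        intro t ht
        have h1 := hcomm (Coprod.inr (FreeGroup.of (Sum.inl ⟨t, ht⟩))) [0]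
        rw [hιy] at h1
        have e1 : LCone ε (y (Sum.inl ⟨t, ht⟩)).1 [some 0] [some 0] t := hb1 _
        have e2 := e1.smul []
        have e3 := e1.lab_eq []
        have e4 : app [(some 0 : Ch d)] [] = [0] := rfl
        rw [e4] at e2 e3
        rw [e2, e3, tw_nil, mul_inv_rev] at h1
        rwa [← mul_assoc] at h1
      induction hp using Subgroup.closure_induction with
      | mem t ht => exact key t ht
      | one =>
        have : lab g.1 [0] * 1 * (lab g.1 [0])⁻¹ * 1⁻¹ = 1 := by group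
        rw [this]
        exact one_mem _
      | mul a b _ _ iha ihb =>
        have : lab g.1 [0] * (a * b) * (lab g.1 [0])⁻¹ * (a * b)⁻¹ =
            (lab g.1 [0] * a * (lab g.1 [0])⁻¹ * a⁻¹) *
            (a * (lab g.1 [0] * b * (lab g.1 [0])⁻¹ * b⁻¹) * a⁻¹) := by group
        rw [this]
        exact mul_mem iha (hR1.conj_mem _ ihb a)
      | inv a _ iha =>
        have : lab g.1 [0] * a⁻¹ * (lab g.1 [0])⁻¹ * (a⁻¹)⁻¹ =
            a⁻¹ * (lab g.1 [0] * a * (lab g.1 [0])⁻¹ * a⁻¹)⁻¹ * (a⁻¹)⁻¹ := by group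
        rw [this]
        exact hR1.conj_mem _ (inv_mem iha) a⁻¹
    have hl2 : ∀ z, z ≠ [] → lab g.1 z ∈ R := by
      intro z hz
      obtain ⟨k, hk0, hk1⟩ := two d (a := []) (b := [0]) (c := []) (e := z) (by simp)
        (Ne.symm hz)
      obtain ⟨m, hm⟩ := hact k hk0
      have h1 := hcomm m [0]
      rw [hm, hk1, mul_inv_rev] at h1
      set L := lab (ι m).1 [0]
      -- `lab g z = h1 * L * lab g [0] * L⁻¹`
      have h2 : lab g.1 z = lab g.1 z * L * ((lab g.1 [0])⁻¹ * L⁻¹) *
          (L * lab g.1 [0] * L⁻¹) := by group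
      rw [h2]
      exact mul_mem h1 (hR1.conj_mem _ hx0 L)
    rw [hNR]
    refine ⟨hgB, fun z => ?_⟩
    by_cases hz : z = []
    · subst hz
      obtain ⟨k, hk⟩ := g.2
      obtain ⟨v, a, hv⟩ := hk (zw k) (zw_length k)
      have h4 := LCone.lab_eq hv []
      have h5 := LCone.lab_eq hv [0]
      rw [app_zw_nil, tw_nil] at h4
      have h6 : tw ε [0] a = a := by
        rw [tw_cons, tw_nil]
        have : (⟨0 % d, Nat.mod_lt _ (Nat.pos_of_neZero d)⟩ : Fin d) = 0 := by
          ext
          simp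
        rw [this, h0]
        rfl
      rw [app_zw_cons, h6] at h5
      rw [h4, ← h5]
      exact hl2 _ (by simp)
    · exact hl2 z hz
  have hM := Helper13.register_typeA ι hfin hncl hcent' Ψ hΨ hΨι
  obtain ⟨G, X, _, _, hA, φ, hφ⟩ := hM
  exact ⟨G, X, _, _, hA, φ.comp Coprod.inl, hφ.comp Coprod.inl_injective⟩

end Pool.Agent.BH
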