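import Pool.Agent.BH.VNormA
import Pool.Agent.BH.VNormB
import Pool.Agent.BH.VMain

set_option autoImplicit false

/-!
# The final step for the labelled Higman-Thompson groups
-/

namespace Pool.Agent.BH

open Monoid

/-- The classification of the normal subgroups. -/
theorem normal_cases {d : ℕ} [NeZero d] (hd : Odd d) {P : Type*} [Group P] {ε : Fin d → P →* P}
    (hperf : commutator P = ⊤)
    (hcent : ∀ R : Subgroup P, R.Normal → (∀ i, R ≤ R.comap (ε i)) →
      ∀ x, (∀ y, x * y * x⁻¹ * y⁻¹ ∈ R) → x ∈ R) (N : Subgroup (VL ε)) (hN : N.Normal) :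
    N = ⊤ ∨ ∃ R : Subgroup P, R.Normal ∧
      (∀ i, R ≤ R.comap (ε i)) ∧
        ∀ g : VL ε, g ∈ N ↔ (∀ z : Dy, g • z = z) ∧ ∀ z, lab g.1 z ∈ R := by
  by_cases h : N ≤ NP.Bk ε
  · right
    obtain ⟨R, hR1, hR2, rfl⟩ := NP.normal_le hcent h
    exact ⟨R, hR1, hR2, fun g => Iff.rfl⟩
  · exact Or.inl (NP.normal_top hd hperf h)

theorem typeA_of_label {d : ℕ} [NeZero d] (hd : Odd d) {P : Type} [Group P] [Group.FG P]
    (ε : Fin d → P →* P) (h0 : ε 0 = MonoidHom.id _) (hfp : Group.IsFinitelyPresented (VL ε))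
    (hperf : commutator P = ⊤)
    (hinv : Finite {R : Subgroup P // R.Normal ∧ ∀ i, R ≤ R.comap (ε i)})
    (hcent : ∀ R : Subgroup P, R.Normal → (∀ i, R ≤ R.comap (ε i)) →
      ∀ x, (∀ y, x * y * x⁻¹ * y⁻¹ ∈ R) → x ∈ R)
    {H : Type} [Group H] [Group.IsFinitelyPresented H] (lam : Coprod H (FreeGroup ℕ) →* P)
    (hlam : Function.Injective lam) : Helper13.EmbedsInTypeA H :=
  typeA_of_label_aux ε h0 hfp (VN_stab_fg d) (normal_cases hd hperf hcent) hinv hcent lam hlam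

end Pool.Agent.BH
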