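import Pool.Agent.BH.VDefs

set_option autoImplicit false

/-!
# MODULE Q: labels in a quotient
-/

namespace Pool.Agent.BH

open Equiv

namespace VQuot

/-! ### Permutations with given point part and labels -/

section mkP

variable {P : Type*} [Group P]

/-- the permutation with point part `π` and labels `ℓ` -/
def mkP (π : Perm Dy) (ℓ : Dy → P) : Perm (Dy × P) where
  toFun x := (π x.1, ℓ x.1 * x.2)
  invFun x := (π.symm x.1, (ℓ (π.symm x.1))⁻¹ * x.2)
  left_inv x := by
    rcases x with ⟨z, s⟩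
    simp
  right_inv x := by
    rcases x with ⟨z, s⟩
    simp

@[simp] lemma mkP_apply (π : Perm Dy) (ℓ : Dy → P) (z : Dy) (s : P) :
    mkP π ℓ (z, s) = (π z, ℓ z * s) := rfl

variable {d : ℕ} [NeZero d] (ε : Fin d → P →* P)

lemma LCone_mkP {π : Perm Dy} {ℓ : Dy → P} {u v : List (Ch d)} {a : P}
    (h1 : ∀ z, π (app u z) = app v z) (h2 : ∀ z, ℓ (app u z) = tw ε z a) :
    LCone ε (mkP π ℓ) u v a := by
  intro z s
  rw [mkP_apply, h1, h2]

end mkP

/-! ### Swapping two disjoint cones -/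

section swap

variable {d : ℕ}

/-- two words are incomparable -/
def Inc (u v : List (Ch d)) : Prop := ∀ z z', app u z ≠ app v z'

lemma Inc.symm {u v : List (Ch d)} (h : Inc u v) : Inc v u := fun z z' e => h z' z e.symm

lemma inc_of_ne {b c : Ch d} (h : b ≠ c) (u v : List (Ch d)) : Inc (b :: u) (c :: v) := by
  intro z z' e
  exact h (bz_inj e).1

open Classical in
/-- swap the cones of `u` and `v` -/
noncomputable def swf (u v : List (Ch d)) (z : Dy) : Dy :=
  if h : ∃ z', z = app u z' then app v h.choose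
  else if h' : ∃ z', z = app v z' then app u h'.choose
  else z

lemma swf_left (u v : List (Ch d)) (z : Dy) : swf u v (app u z) = app v z := by
  unfold swf
  have h : ∃ z', app u z = app u z' := ⟨z, rfl⟩
  rw [dif_pos h, ← app_inj h.choose_spec]

lemma swf_right {u v : List (Ch d)} (huv : Inc u v) (z : Dy) : swf u v (app v z) = app u z := by
  unfold swf
  have h0 : ¬ ∃ z', app v z = app u z' := fun ⟨z', e⟩ => huv z' z e.symm
  have h : ∃ z', app v z = app v z' := ⟨z, rfl⟩
  rw [dif_neg h0, dif_pos h, ← app_inj h.choose_spec]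

lemma swf_out {u v : List (Ch d)} {z : Dy} (h1 : ∀ z', z ≠ app u z') (h2 : ∀ z', z ≠ app v z') :
    swf u v z = z := by
  unfold swf
  rw [dif_neg (fun ⟨z', e⟩ => h1 z' e), dif_neg (fun ⟨z', e⟩ => h2 z' e)]

lemma swf_invol {u v : List (Ch d)} (huv : Inc u v) : Function.Involutive (swf u v) := by
  intro z
  by_cases h1 : ∃ z', z = app u z'
  · obtain ⟨z', rfl⟩ := h1
    rw [swf_left, swf_right huv]
  · by_cases h2 : ∃ z', z = app v z'
    · obtain ⟨z', rfl⟩ := h2
      rw [swf_right huv, swf_left]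
    · have h3 : swf u v z = z := swf_out (fun z' e => h1 ⟨z', e⟩) (fun z' e => h2 ⟨z', e⟩)
      rw [h3, h3]

/-- swap two disjoint cones -/
noncomputable def sw {u v : List (Ch d)} (huv : Inc u v) : Perm Dy := (swf_invol huv).toPerm

lemma sw_left {u v : List (Ch d)} (huv : Inc u v) : NCone (sw huv) u v := fun z => swf_left u v z

lemma sw_right {u v : List (Ch d)} (huv : Inc u v) : NCone (sw huv) v u :=
  fun z => swf_right huv z

lemma sw_mem [NeZero d] {u v : List (Ch d)} (huv : Inc u v) : sw huv ∈ VN d := by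
  refine ⟨max u.length v.length, fun w hw => ?_⟩
  by_cases h1 : ∃ t, w = u ++ t
  · obtain ⟨t, rfl⟩ := h1
    exact ⟨v ++ t, (sw_left huv).append t⟩
  by_cases h2 : ∃ t, w = v ++ t
  · obtain ⟨t, rfl⟩ := h2
    exact ⟨u ++ t, (sw_right huv).append t⟩
  refine ⟨w, fun z => ?_⟩
  apply swf_out
  · intro z' e
    obtain ⟨t, ht, -⟩ := app_prefix e.symm (by rw [hw]; exact le_max_left _ _)
    exact h1 ⟨t, ht⟩
  · intro z' e
    obtain ⟨t, ht, -⟩ := app_prefix e.symm (by rw [hw]; exact le_max_right _ _)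
    exact h2 ⟨t, ht⟩

lemma exists_ne_ch [NeZero d] (b b' : Ch d) (hbb : b = b') : ∃ c : Ch d, c ≠ b ∧ c ≠ b' := by
  subst hbb
  rcases b with _ | b
  · exact ⟨some 0, by simp, by simp⟩
  · exact ⟨none, by simp, by simp⟩

/-- the group acts transitively on proper cones -/
lemma transport [NeZero d] {u v : List (Ch d)} (hu : u ≠ []) (hv : v ≠ []) :
    ∃ g ∈ VN d, NCone g u v := by
  obtain ⟨b, u, rfl⟩ := List.exists_cons_of_ne_nil hu
  obtain ⟨b', v, rfl⟩ := List.exists_cons_of_ne_nil hv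
  by_cases h : b = b'
  · obtain ⟨c, hc, hc'⟩ := exists_ne_ch b b' h
    have h1 : Inc (b :: u) [c] := inc_of_ne (Ne.symm hc) _ _
    have h2 : Inc [c] (b' :: v) := inc_of_ne hc' _ _
    exact ⟨sw h2 * sw h1, mul_mem (sw_mem h2) (sw_mem h1), (sw_left h2).mul (sw_left h1)⟩
  · have h1 : Inc (b :: u) (b' :: v) := inc_of_ne h _ _
    exact ⟨sw h1, sw_mem h1, sw_left h1⟩

end swap

/-! ### Diagonal elements -/

section diag

variable {d : ℕ} [NeZero d] {P : Type*} [Group P]

variable (d) in
/-- the splitting of a point at depth `k` -/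
noncomputable def spl (k : ℕ) (z : Dy) : List (Ch d) × Dy :=
  ((exists_app (d := d) k z).choose, (exists_app (d := d) k z).choose_spec.choose)

lemma spl_length (k : ℕ) (z : Dy) : (spl d k z).1.length = k :=
  (exists_app (d := d) k z).choose_spec.choose_spec.1

lemma app_spl (k : ℕ) (z : Dy) : app (spl d k z).1 (spl d k z).2 = z :=
  (exists_app (d := d) k z).choose_spec.choose_spec.2.symm

lemma spl_app {k : ℕ} {u : List (Ch d)} (hu : u.length = k) (z : Dy) :
    spl d k (app u z) = (u, z) := by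
  have h := app_spl (d := d) k (app u z)
  have := app_eq_length h ((spl_length k _).trans hu.symm)
  exact Prod.ext this.1 this.2

variable (ε : Fin d → P →* P)

/-- the label function of a diagonal element -/
noncomputable def dl (k : ℕ) (L : List (Ch d) → P) (z : Dy) : P := tw ε (spl d k z).2 (L (spl d k z).1)

lemma dl_app {k : ℕ} (L : List (Ch d) → P) {u : List (Ch d)} (hu : u.length = k) (z : Dy) :
    dl ε k L (app u z) = tw ε z (L u) := by
  rw [dl, spl_app hu]

lemma dg_mem (k : ℕ) (L : List (Ch d) → P) : mkP 1 (dl ε k L) ∈ VL ε :=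
  ⟨k, fun u hu => ⟨u, L u, LCone_mkP ε (fun _ => rfl) (fun z => dl_app ε L hu z)⟩⟩

lemma dg_smul' (k : ℕ) (L : List (Ch d) → P) (z : Dy) :
    (⟨mkP 1 (dl ε k L), dg_mem ε k L⟩ : VL ε) • z = z := rfl

lemma dg_lab' (k : ℕ) (L : List (Ch d) → P) (z : Dy) :
    lab (mkP 1 (dl ε k L)) z = dl ε k L z := by
  change dl ε k L z * 1 = _
  rw [mul_one]

/-- diagonal elements -/
noncomputable def dg (k : ℕ) : (List (Ch d) → P) →* VL ε where
  toFun L := ⟨mkP 1 (dl ε k L), dg_mem ε k L⟩
  map_one' := by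
    apply VL.ext
    · intro z; rfl
    · intro z
      change lab (mkP 1 (dl ε k 1)) z = lab 1 z
      rw [dg_lab', dl, Pi.one_apply, map_one]
      rfl
  map_mul' L L' := by
    apply VL.ext
    · intro z; rfl
    · intro z
      rw [VL.lab_mul, dg_smul']
      change lab (mkP 1 (dl ε k (L * L'))) z =
        lab (mkP 1 (dl ε k L)) z * lab (mkP 1 (dl ε k L')) z
      rw [dg_lab', dg_lab', dg_lab', dl, dl, dl, Pi.mul_apply, map_mul]

lemma dg_smul (k : ℕ) (L : List (Ch d) → P) (z : Dy) : dg ε k L • z = z := rfl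

lemma dg_lab (k : ℕ) (L : List (Ch d) → P) (z : Dy) : lab (dg ε k L).1 z = dl ε k L z :=
  dg_lab' ε k L z

lemma dg_congr {k : ℕ} {L L' : List (Ch d) → P} (h : ∀ w, w.length = k → L w = L' w) :
    dg ε k L = dg ε k L' := by
  apply VL.ext
  · intro z; rfl
  · intro z
    rw [dg_lab, dg_lab, dl, dl, h _ (spl_length k z)]

lemma dg_add (k l : ℕ) (L : List (Ch d) → P) :
    dg ε k L = dg ε (k + l) (fun w => ew ε (w.drop k) (L (w.take k))) := by
  apply VL.ext
  · intro z; rfl
  · intro z
    rw [dg_lab, dg_lab]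
    obtain ⟨w, z', hw, rfl⟩ := exists_app (d := d) (k + l) z
    rw [dl_app ε _ hw]
    have h1 : w = w.take k ++ w.drop k := (List.take_append_drop k w).symm
    conv_lhs => rw [h1]
    rw [app_append, dl_app ε L (by simp; omega), tw_app]

/-- the label `p` at the cone of `u` -/
noncomputable def lb (u : List (Ch d)) : P →* VL ε :=
  (dg ε u.length).comp (MonoidHom.mulSingle (fun _ : List (Ch d) => P) u)

lemma lb_eq (u : List (Ch d)) (p : P) :
    lb ε u p = dg ε u.length (Pi.mulSingle u p) := rfl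

lemma lb_smul (u : List (Ch d)) (p : P) (z : Dy) : lb ε u p • z = z := rfl

lemma lb_lab_mem (u : List (Ch d)) (p : P) (z : Dy) : lab (lb ε u p).1 (app u z) = tw ε z p := by
  rw [lb_eq, dg_lab, dl_app ε _ rfl, Pi.mulSingle_eq_same]

lemma lb_lab_out {u : List (Ch d)} (p : P) {z : Dy} (hz : ∀ z', z ≠ app u z') :
    lab (lb ε u p).1 z = 1 := by
  rw [lb_eq, dg_lab]
  obtain ⟨w, z', hw, rfl⟩ := exists_app (d := d) u.length z
  rw [dl_app ε _ hw, Pi.mulSingle_eq_of_ne, map_one]
  rintro rfl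
  exact hz z' rfl

variable {ε}

lemma toVL_cone {g : VN d} {u v : List (Ch d)} (h : NCone g.1 u v) :
    LCone ε (VN.toVL (ε := ε) g).1 u v 1 := by
  intro z s
  change (g.1 (app u z), s) = _
  rw [h z, map_one, one_mul]

lemma lab_inv (g : VL ε) (z : Dy) : lab (g⁻¹).1 z = (lab g.1 (g⁻¹ • z))⁻¹ := by
  have h := VL.lab_mul g g⁻¹ z
  rw [mul_inv_cancel] at h
  have h1 : lab (1 : VL ε).1 z = 1 := rfl
  rw [h1] at h
  exact eq_inv_of_mul_eq_one_right h.symm

lemma lb_conj {g : VL ε} {u v : List (Ch d)} (hg : LCone ε g.1 u v 1) (p : P) :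
    g * lb ε u p * g⁻¹ = lb ε v p := by
  apply VL.ext
  · intro z
    rw [mul_smul, mul_smul, lb_smul, smul_inv_smul, lb_smul]
  · intro z
    rw [VL.lab_mul, VL.lab_mul, lab_inv, lb_smul]
    by_cases h : ∃ z', z = app v z'
    · obtain ⟨z', rfl⟩ := h
      have h1 : g⁻¹ • app v z' = app u z' := by
        rw [← hg.smul z', inv_smul_smul]
      rw [h1, hg.lab_eq, lb_lab_mem, lb_lab_mem, map_one, one_mul, inv_one, mul_one]
    · rw [lb_lab_out ε p (fun z' e => h ⟨z', e⟩), lb_lab_out ε p, mul_one, mul_inv_cancel]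
      intro z' e
      apply h
      refine ⟨z', ?_⟩
      rw [← hg.smul z', ← e, smul_inv_smul]

end diag

/-! ### Functoriality in the labels -/

section map

variable {d : ℕ} [NeZero d] {P P' : Type*} [Group P] [Group P'] {ε : Fin d → P →* P}
  {ε' : Fin d → P' →* P'} (f : P →* P') (hf : ∀ i a, f (ε i a) = ε' i (f a))

include hf in
lemma map_tw (z : Dy) (a : P) : f (tw ε z a) = tw ε' z (f a) := by
  induction z generalizing a with
  | nil => rfl
  | cons i z ih => rw [tw_cons, tw_cons, ih, hf]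

/-- the map of labelled groups -/
def vmap : VL ε →* VL ε' where
  toFun g := ⟨mkP (MulAction.toPerm g) (fun z => f (lab g.1 z)), by
    obtain ⟨k, hk⟩ := g.2
    refine ⟨k, fun u hu => ?_⟩
    obtain ⟨v, a, h⟩ := hk u hu
    refine ⟨v, f a, LCone_mkP ε' (fun z => h.smul z) (fun z => ?_)⟩
    rw [h.lab_eq, map_tw f hf]⟩
  map_one' := by
    apply Subtype.ext
    ext1 ⟨z, s⟩
    change ((1 : VL ε) • z, f (lab (1 : VL ε).1 z) * s) = (z, s)
    have h1 : lab (1 : VL ε).1 z = 1 := rfl
    rw [h1, map_one, one_mul, one_smul]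
  map_mul' g h := by
    apply Subtype.ext
    ext1 ⟨z, s⟩
    change ((g * h) • z, f (lab (g * h).1 z) * s) =
      (g • h • z, f (lab g.1 (h • z)) * (f (lab h.1 z) * s))
    rw [VL.lab_mul, map_mul, mul_smul, mul_assoc]

lemma vmap_smul (g : VL ε) (z : Dy) : vmap f hf g • z = g • z := rfl

lemma vmap_lab (g : VL ε) (z : Dy) : lab (vmap f hf g).1 z = f (lab g.1 z) := by
  change f (lab g.1 z) * 1 = _
  rw [mul_one]

lemma vmap_surjective (hs : Function.Surjective f) : Function.Surjective (vmap f hf) := by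
  intro g
  obtain ⟨k, hk⟩ := g.2
  choose! v a h using hk
  choose b hb using hs
  have hlab : ∀ u : List (Ch d), u.length = k → LCone ε
      (mkP (MulAction.toPerm g) (dl ε k (fun w => b (a w)))) u (v u) (b (a u)) := fun u hu =>
    LCone_mkP ε (fun z => (h u hu).smul z) (fun z => dl_app ε _ hu z)
  obtain ⟨g', hg'⟩ : ∃ g' : VL ε, g'.1 =
      mkP (MulAction.toPerm g) (dl ε k (fun w => b (a w))) :=
    ⟨⟨_, k, fun u hu => ⟨_, _, hlab u hu⟩⟩, rfl⟩
  refine ⟨g', ?_⟩
  apply VL.ext
  · intro z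
    rw [vmap_smul, VL.smul_def g', hg']
    rfl
  · intro z
    rw [vmap_lab]
    obtain ⟨w, z', hw, rfl⟩ := exists_app (d := d) k z
    have h1 : LCone ε g'.1 w (v w) (b (a w)) := by
      rw [hg']
      exact hlab w hw
    rw [h1.lab_eq, (h w hw).lab_eq, map_tw f hf, hb]

end map

/-! ### The normal closure of the relators -/

section main

variable {d : ℕ} [NeZero d] {P : Type*} [Group P] (ε : Fin d → P →* P) (R : Set P)

/-- a proper cone -/
def u0 (d : ℕ) [NeZero d] : List (Ch d) := [some 0]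

/-- normal closure of the relators at one cone -/
noncomputable def K0 : Subgroup (VL ε) := Subgroup.normalClosure ((lb ε (u0 d)) '' R)

instance : (K0 ε R).Normal := Subgroup.normalClosure_normal

lemma K0_transport {u v : List (Ch d)} (hu : u ≠ []) (hv : v ≠ []) {p : P}
    (h : lb ε u p ∈ K0 ε R) : lb ε v p ∈ K0 ε R := by
  obtain ⟨g, hg, hc⟩ := transport hu hv
  rw [← lb_conj (toVL_cone (ε := ε) (g := ⟨g, hg⟩) hc) p]
  exact (inferInstance : (K0 ε R).Normal).conj_mem _ h _

/-- the labels in the normal closure -/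
noncomputable def KK : Subgroup P := (K0 ε R).comap (lb ε (u0 d))

instance : (KK ε R).Normal := Subgroup.Normal.comap inferInstance _

lemma mem_KK {p : P} {u : List (Ch d)} (hu : u ≠ []) : lb ε u p ∈ K0 ε R ↔ p ∈ KK ε R :=
  ⟨fun h => K0_transport ε R hu (by simp [u0]) h, fun h => K0_transport ε R (by simp [u0]) hu h⟩

lemma dg_mem_K0 {k : ℕ} (hk : k ≠ 0) (L : List (Ch d) → P)
    (hL : ∀ w, w.length = k → L w ∈ KK ε R) : dg ε k L ∈ K0 ε R := by
  classical
  have hfin : {u : List (Ch d) | u.length = k}.Finite := List.finite_length_eq (Ch d) k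
  have key : ∀ s : Finset (List (Ch d)), (∀ w ∈ s, w.length = k) →
      dg ε k (fun w => if w ∈ s then L w else 1) ∈ K0 ε R := by
    intro s
    induction s using Finset.induction_on with
    | empty =>
      intro _
      have : (fun w => if w ∈ (∅ : Finset (List (Ch d))) then L w else 1) = 1 := by
        funext w; simp
      rw [this, map_one]
      exact one_mem _
    | insert a s ha ih =>
      intro hs
      have hal : a.length = k := hs a (Finset.mem_insert_self _ _)
      have e : (fun w => if w ∈ insert a s then L w else 1) =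
          Pi.mulSingle a (L a) * (fun w => if w ∈ s then L w else 1) := by
        funext w
        rw [Pi.mul_apply]
        by_cases h : w = a
        · subst h
          simp [ha]
        · rw [Pi.mulSingle_eq_of_ne h, one_mul]
          simp [h]
      rw [e, map_mul]
      refine mul_mem ?_ (ih fun w hw => hs w (Finset.mem_insert_of_mem hw))
      have h1 := (mem_KK ε R (p := L a) (u := a) (by
        intro h
        apply hk
        rw [← hal, h]
        rfl)).2 (hL a hal)
      rw [lb_eq, hal] at h1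
      exact h1
  have h := key hfin.toFinset (fun w hw => (Set.Finite.mem_toFinset hfin).1 hw)
  rwa [dg_congr ε (L' := L)] at h
  intro w hw
  rw [if_pos]
  exact (Set.Finite.mem_toFinset hfin).2 hw

/-- a label at a cone of length one, as a diagonal element of depth two -/
lemma lb_two (p : P) : lb ε (u0 d) p =
    dg ε 2 (fun w => ew ε (w.drop 1) ((Pi.mulSingle (u0 d) p : List (Ch d) → P) (w.take 1))) := by
  rw [lb_eq]
  exact dg_add ε 1 1 _

lemma cond1 {p : P} (hp : p ∈ KK ε R) (f : P) (i : Fin d) :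
    ε i p * f * (ε i p)⁻¹ * f⁻¹ ∈ KK ε R := by
  rw [← mem_KK ε R (u := u0 d ++ [some i]) (by simp)]
  have hx : lb ε (u0 d) p * (lb ε (u0 d ++ [none]) p)⁻¹ ∈ K0 ε R :=
    mul_mem ((mem_KK ε R (by simp [u0])).2 hp) (inv_mem ((mem_KK ε R (by simp)).2 hp))
  have hy : (lb ε (u0 d) p * (lb ε (u0 d ++ [none]) p)⁻¹) * (lb ε (u0 d ++ [some i]) f *
      (lb ε (u0 d) p * (lb ε (u0 d ++ [none]) p)⁻¹)⁻¹ * (lb ε (u0 d ++ [some i]) f)⁻¹) ∈
      K0 ε R :=
    mul_mem hx ((inferInstance : (K0 ε R).Normal).conj_mem _ (inv_mem hx) _)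
  have e : (lb ε (u0 d) p * (lb ε (u0 d ++ [none]) p)⁻¹) * (lb ε (u0 d ++ [some i]) f *
      (lb ε (u0 d) p * (lb ε (u0 d ++ [none]) p)⁻¹)⁻¹ * (lb ε (u0 d ++ [some i]) f)⁻¹) =
      lb ε (u0 d ++ [some i]) (ε i p * f * (ε i p)⁻¹ * f⁻¹) := by
    have h2 : lb ε (u0 d ++ [none]) p =
        dg ε 2 (Pi.mulSingle (u0 d ++ [none]) p : List (Ch d) → P) := lb_eq ε _ p
    have h3 : ∀ q : P, lb ε (u0 d ++ [some i]) q =
        dg ε 2 (Pi.mulSingle (u0 d ++ [some i]) q : List (Ch d) → P) := fun q => lb_eq ε _ q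
    rw [lb_two, h2, h3, h3, ← map_inv, ← map_mul, ← map_inv, ← map_inv, ← map_mul, ← map_mul,
      ← map_mul]
    apply dg_congr
    intro w _
    by_cases hwi : w = u0 d ++ [some i]
    · subst hwi
      have h4 : (Pi.mulSingle (u0 d ++ [none]) p : List (Ch d) → P) (u0 d ++ [some i]) = 1 :=
        Pi.mulSingle_eq_of_ne (by simp) _
      have h5 : (u0 d ++ [some i]).take 1 = u0 d := by simp [u0]
      have h6 : (u0 d ++ [some i]).drop 1 = [some i] := by simp [u0]
      simp only [Pi.mul_apply, Pi.inv_apply, h4, h5, h6, Pi.mulSingle_eq_same, inv_one, mul_one]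
      rw [ew_cons, ew_nil]
      simp only [ec, mul_assoc]
    · simp only [Pi.mul_apply, Pi.inv_apply, Pi.mulSingle_eq_of_ne hwi, inv_one, mul_one, one_mul,
        mul_inv_cancel]
  rw [← e]
  exact hy

lemma cond2 {p : P} (hp : p ∈ KK ε R) (i0 : Fin d) (h : ∀ i, i ≠ i0 → ε i p ∈ KK ε R) :
    ε i0 p ∈ KK ε R := by
  classical
  rw [← mem_KK ε R (u := u0 d ++ [some i0]) (by simp)]
  have hx : lb ε (u0 d) p ∈ K0 ε R := (mem_KK ε R (by simp [u0])).2 hp
  set X : List (Ch d) → P := fun w =>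
    ew ε (w.drop 1) ((Pi.mulSingle (u0 d) p : List (Ch d) → P) (w.take 1)) with hX
  have hZ : dg ε 2 (fun w => if w = u0 d ++ [some i0] then 1 else X w) ∈ K0 ε R := by
    apply dg_mem_K0 ε R (by norm_num)
    intro w hw
    obtain ⟨a, b, rfl⟩ : ∃ a b, w = [a, b] := by
      rcases w with _ | ⟨a, _ | ⟨b, _ | ⟨c, w⟩⟩⟩
      · simp at hw
      · simp at hw
      · exact ⟨a, b, rfl⟩
      · simp at hw
    by_cases hwi : ([a, b] : List (Ch d)) = u0 d ++ [some i0]
    · rw [if_pos hwi]
      exact one_mem _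
    · rw [if_neg hwi, hX]
      change ew ε [b] ((Pi.mulSingle (u0 d) p : List (Ch d) → P) [a]) ∈ _
      by_cases ha : [a] = u0 d
      · rw [ha, Pi.mulSingle_eq_same, ew_cons, ew_nil]
        rcases b with _ | b
        · exact hp
        · refine h b ?_
          rintro rfl
          apply hwi
          rw [← ha]
          rfl
      · rw [Pi.mulSingle_eq_of_ne ha, map_one]
        exact one_mem _
  have e : lb ε (u0 d ++ [some i0]) (ε i0 p) =
      lb ε (u0 d) p * (dg ε 2 (fun w => if w = u0 d ++ [some i0] then 1 else X w))⁻¹ := by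
    have h3 : lb ε (u0 d ++ [some i0]) (ε i0 p) =
        dg ε 2 (Pi.mulSingle (u0 d ++ [some i0]) (ε i0 p) : List (Ch d) → P) := lb_eq ε _ _
    rw [lb_two, h3, ← map_inv, ← map_mul]
    apply dg_congr
    intro w _
    rw [Pi.mul_apply, Pi.inv_apply]
    change _ = X w * _
    by_cases hwi : w = u0 d ++ [some i0]
    · subst hwi
      rw [if_pos rfl, inv_one, mul_one, Pi.mulSingle_eq_same, hX]
      have h5 : (u0 d ++ [some i0]).take 1 = u0 d := by simp [u0]
      have h6 : (u0 d ++ [some i0]).drop 1 = [some i0] := by simp [u0]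
      simp only [h5, h6, Pi.mulSingle_eq_same]
      rfl
    · rw [if_neg hwi, Pi.mulSingle_eq_of_ne hwi, mul_inv_cancel]
  rw [e]
  exact mul_mem hx (inv_mem hZ)

end main

end VQuot

open VQuot in
/-- MODULE Q, given the finite presentability for free labels -/
theorem VL_quot_fp_of_free {d : ℕ} [NeZero d] {X : Type}
    (ε : Fin d → FreeGroup X →* FreeGroup X)
    (N : Subgroup (FreeGroup X)) [N.Normal] (hN : ∀ i, N ≤ N.comap (ε i))
    (R : Set (FreeGroup X)) (hR : R.Finite) (hRN : R ⊆ N)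
    (hcl : ∀ K : Subgroup (FreeGroup X), K.Normal → R ⊆ K →
      (∀ p ∈ K, ∀ f i, ε i p * f * (ε i p)⁻¹ * f⁻¹ ∈ K) →
      (∀ p ∈ K, ∀ i0, (∀ i, i ≠ i0 → ε i p ∈ K) → ε i0 p ∈ K) → N ≤ K)
    (hfree : Group.IsFinitelyPresented (VL ε)) :
    Group.IsFinitelyPresented (VL fun i => QuotientGroup.map N N (ε i) (hN i)) := by
  have hf : ∀ i a, QuotientGroup.mk' N (ε i a) =
      QuotientGroup.map N N (ε i) (hN i) (QuotientGroup.mk' N a) := fun i a => rfl
  refine Group.IsFinitelyPresented.of_surjective (vmap (QuotientGroup.mk' N) hf)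
    (vmap_surjective _ hf (QuotientGroup.mk'_surjective N))
    ⟨(lb ε (u0 d)) '' R, hR.image _, ?_⟩
  change K0 ε R = _
  have hNK : N ≤ KK ε R := by
    refine hcl _ inferInstance ?_ (fun p hp f i => cond1 ε R hp f i)
      (fun p hp i0 h => cond2 ε R hp i0 h)
    intro r hr
    exact Subgroup.subset_normalClosure ⟨r, hr, rfl⟩
  apply le_antisymm
  · refine Subgroup.normalClosure_le_normal ?_
    rintro _ ⟨r, hr, rfl⟩
    change _ ∈ MonoidHom.ker _
    rw [MonoidHom.mem_ker]
    apply VL.ext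
    · intro z; rfl
    · intro z
      rw [vmap_lab]
      change _ = (1 : FreeGroup X ⧸ N)
      by_cases h : ∃ z', z = app (u0 d) z'
      · obtain ⟨z', rfl⟩ := h
        have h7 : QuotientGroup.mk' N r = 1 := (QuotientGroup.eq_one_iff r).2 (hRN hr)
        rw [lb_lab_mem, map_tw _ hf, h7, map_one]
      · rw [lb_lab_out ε r (fun z' e => h ⟨z', e⟩), map_one]
  · intro g hg
    rw [MonoidHom.mem_ker] at hg
    have hg1 : ∀ z : Dy, g • z = z := by
      intro z
      rw [← vmap_smul (QuotientGroup.mk' N) hf, hg, one_smul]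
    have hg2 : ∀ z : Dy, lab g.1 z ∈ N := by
      intro z
      rw [← QuotientGroup.eq_one_iff]
      have := vmap_lab (QuotientGroup.mk' N) hf g z
      rw [hg] at this
      exact this.symm
    obtain ⟨k, hk⟩ := g.2
    have hk' : ∀ u : List (Ch d), u.length = k + 1 → LCone ε g.1 u u (lab g.1 (app u [])) := by
      intro u hu
      obtain ⟨v, a, h⟩ := LCL.of_length hk u (by omega)
      have h1 : u = v := app_word_inj fun z => by rw [← h.smul z, hg1]
      subst h1
      have h2 : lab g.1 (app u []) = a := by rw [h.lab_eq, tw_nil]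
      rw [h2]
      exact h
    have e : g = dg ε (k + 1) (fun u => lab g.1 (app u [])) := by
      apply VL.ext
      · intro z
        rw [hg1, dg_smul]
      · intro z
        obtain ⟨u, z', hu, rfl⟩ := exists_app (d := d) (k + 1) z
        rw [(hk' u hu).lab_eq, dg_lab, dl_app ε _ hu]
    rw [e]
    exact dg_mem_K0 ε R (Nat.succ_ne_zero k) _ (fun w _ => hNK (hg2 _))

end Pool.Agent.BH
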