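import Pool.Agent.BH.MainAux
import Pool.Agent.BH.MH
import Pool.Agent.BH.Truth
import Pool.Agent.BH.FixPt
import Pool.Agent.BH.KerLe
import Pool.Agent.BH.Collapse
import Pool.Agent.BH.VQuot
import Pool.Agent.BH.VLabFree
import Pool.Agent.BH.VNormC
import Pool.Agent.Helper13.FreeProd
import Pool.Agent.Helper13.FPTools
import Pool.Agent.Helper13.OligoDefs

set_option autoImplicit false

/-!
# The embedding theorem

Every finitely presented group with decidable word problem embeds in a finitely presented group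
with an action of type (A).
-/

namespace Pool.Agent.BH

open Monoid MA

/-- G1: the fixed point exists. -/
theorem exists_fix {k : ℕ} {H : Type} [Group H] (hH : FreeGroup (Fin k) →* H)
    (hwp : ComputablePred fun l : List (Fin k × Bool) => hH (FreeGroup.mk l) = 1) :
    ∃ (a b : ℕ) (S : Sys (Fin a) (Fin b) (Fin k)) (pt pb : List (Fin b))
      (N : Subgroup (FreeGroup XG)) (_ : N.Normal), Fix S hH pt pb N :=
  exists_fix_of hH (fun cc => exists_truth {l | hH (FreeGroup.mk l) = 1} hwp cc)
    (fun _ _ S => complete S hH)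

section Main

variable {a b k : ℕ}

/-- The endomorphisms of the children: the identity, `φ`, the context endomorphisms, and the
identity again. -/
noncomputable def epsF (S : Sys (Fin a) (Fin b) (Fin k)) (i : ℕ) :
    FreeGroup (Gen (Fin a) (Fin b) (Fin k)) →* FreeGroup (Gen (Fin a) (Fin b) (Fin k)) :=
  if i = 0 then MonoidHom.id _ else if i = 1 then S.phi else if i = 2 then kap none else
    if h : i - 3 < a then kap (some ⟨i - 3, h⟩) else MonoidHom.id _

lemma epsF_zero (S : Sys (Fin a) (Fin b) (Fin k)) : epsF S 0 = MonoidHom.id _ := by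
  simp [epsF]

lemma epsF_one (S : Sys (Fin a) (Fin b) (Fin k)) : epsF S 1 = S.phi := by
  simp [epsF]

lemma epsF_kap (S : Sys (Fin a) (Fin b) (Fin k)) (σ : Option (Fin a)) :
    ∃ i, i < 2 * (a + 2) + 1 ∧ i ≠ 1 ∧ epsF S i = kap σ := by
  rcases σ with _ | j
  · exact ⟨2, by omega, by omega, by simp [epsF]⟩
  · refine ⟨j.1 + 3, by omega, by omega, ?_⟩
    have h0 : ¬ (j.1 + 3 = 0) := by omega
    have h1 : ¬ (j.1 + 3 = 1) := by omega
    have h2 : ¬ (j.1 + 3 = 2) := by omega
    have h3 : j.1 + 3 - 3 < a := by omega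
    simp only [epsF, h0, h1, h2, if_false, h3, dif_pos]
    congr

lemma epsF_cases (S : Sys (Fin a) (Fin b) (Fin k)) (i : ℕ) :
    epsF S i = MonoidHom.id _ ∨ (i = 1 ∧ epsF S i = S.phi) ∨ ∃ σ, epsF S i = kap σ := by
  unfold epsF
  split_ifs with h0 h1 h2 h3
  · exact Or.inl rfl
  · exact Or.inr (Or.inl ⟨h1, rfl⟩)
  · exact Or.inr (Or.inr ⟨_, rfl⟩)
  · exact Or.inr (Or.inr ⟨_, rfl⟩)
  · exact Or.inl rfl

end Main

/-- G5: the final theorem (uses everything). -/
theorem main {k : ℕ} {H : Type} [Group H] [Group.IsFinitelyPresented H]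
    (hH : FreeGroup (Fin k) →* H) (hs : Function.Surjective hH)
    (hwp : ComputablePred fun l : List (Fin k × Bool) => hH (FreeGroup.mk l) = 1) :
    Helper13.EmbedsInTypeA H := by
  obtain ⟨a, b, S, pt, pb, N, hN, hF⟩ := exists_fix hH hwp
  obtain ⟨RH, hRHfin, hRH⟩ := Helper13.ker_fng hH hs
  set K := S.ker pt pb hH.ker N with hK
  let d : ℕ := 2 * (a + 2) + 1
  have : NeZero d := ⟨by omega⟩
  let ε : Fin d → FreeGroup (Gen (Fin a) (Fin b) (Fin k)) →*
    FreeGroup (Gen (Fin a) (Fin b) (Fin k)) := fun i => epsF S i.1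
  have hε0 : ε 0 = MonoidHom.id _ := epsF_zero S
  have hKε : ∀ i, K ≤ K.comap (ε i) := by
    intro i
    rcases epsF_cases S i.1 with h | ⟨-, h⟩ | ⟨σ, h⟩
    · have : ε i = MonoidHom.id _ := h
      rw [this]
      exact fun x hx => hx
    · have : ε i = S.phi := h
      rw [this]
      exact hF.phi_mem
    · have : ε i = kap σ := h
      rw [this]
      exact hF.kap_mem σ
  -- the group with labels in `P` is finitely presented
  let R : Set (FreeGroup (Gen (Fin a) (Fin b) (Fin k))) := {x | Base S pt pb RH x}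
  have hRfin : R.Finite := base_finite RH hRHfin
  have hRK : R ⊆ K := by
    rintro x (⟨w, hw⟩ | ⟨w, hw⟩ | ⟨x, hx⟩)
    · exact Subgroup.subset_normalClosure (Sys.Rl.a w hw)
    · exact Subgroup.subset_normalClosure (Sys.Rl.u [] w hw)
    · refine Subgroup.subset_normalClosure (Sys.Rl.h x ?_)
      rw [SetLike.mem_coe, ← hRH]
      exact Subgroup.subset_normalClosure hx
  have hcl : ∀ K' : Subgroup (FreeGroup (Gen (Fin a) (Fin b) (Fin k))), K'.Normal → R ⊆ K' →
      (∀ p ∈ K', ∀ f i, ε i p * f * (ε i p)⁻¹ * f⁻¹ ∈ K') →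
      (∀ p ∈ K', ∀ i0, (∀ i, i ≠ i0 → ε i p ∈ K') → ε i0 p ∈ K') → K ≤ K' := by
    intro K' hK' hRK' h1 h2
    refine hF.ker_le RH hRH K' hK' (fun x hx => hRK' hx) ?_ ?_ ?_
    · intro p hp f σ
      obtain ⟨i, hi, -, hσ⟩ := epsF_kap S σ
      have := h1 p hp f ⟨i, hi⟩
      change epsF S i p * f * (epsF S i p)⁻¹ * f⁻¹ ∈ K' at this
      rwa [hσ] at this
    · intro p hp f
      have := h1 p hp f ⟨1, by omega⟩
      change epsF S 1 p * f * (epsF S 1 p)⁻¹ * f⁻¹ ∈ K' at this
      rwa [epsF_one] at this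
    · intro p hp hσ
      have := h2 p hp ⟨1, by omega⟩ (by
        intro i hi
        change epsF S i.1 p ∈ K'
        rcases epsF_cases S i.1 with h | ⟨h, -⟩ | ⟨σ, h⟩
        · rw [h]; exact hp
        · exact absurd (Fin.ext h) hi
        · rw [h]; exact hσ σ)
      change epsF S 1 p ∈ K' at this
      rwa [epsF_one] at this
  have hfp := VL_quot_fp_of_free ε K hKε R hRfin hRK hcl (VL_free_fp ε)
  -- facts on `P`
  have hA : ∀ w, S.RelA w → FreeGroup.mk w ∈ K := fun w hw =>
    Subgroup.subset_normalClosure (Sys.Rl.a w hw)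
  -- invariant normal subgroups
  have hcase : ∀ T : Subgroup (FreeGroup (Gen (Fin a) (Fin b) (Fin k)) ⧸ K), T.Normal →
      (∀ i, T ≤ T.comap (QuotientGroup.map K K (ε i) (hKε i))) →
      T.comap (QuotientGroup.mk' K) = K ∨ Collapsed S (T.comap (QuotientGroup.mk' K)) := by
    intro T hT hTi
    by_cases hne : T.comap (QuotientGroup.mk' K) = K
    · exact Or.inl hne
    · right
      have hle : K ≤ T.comap (QuotientGroup.mk' K) := by
        intro x hx
        have : QuotientGroup.mk' K x = 1 := (QuotientGroup.eq_one_iff _).2 hx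
        rw [Subgroup.mem_comap, this]
        exact one_mem _
      have : (T.comap (QuotientGroup.mk' K)).Normal := hT.comap _
      have hphi : T.comap (QuotientGroup.mk' K) ≤ (T.comap (QuotientGroup.mk' K)).comap S.phi := by
        intro x hx
        have h1 := hTi ⟨1, by omega⟩ hx
        rw [Subgroup.mem_comap, QuotientGroup.mk'_apply, QuotientGroup.map_mk] at h1
        change ((epsF S 1 x : FreeGroup (Gen (Fin a) (Fin b) (Fin k))) :
          FreeGroup (Gen (Fin a) (Fin b) (Fin k)) ⧸ K) ∈ T at h1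
        rw [epsF_one] at h1
        exact h1
      obtain ⟨h1, h2⟩ := hF.collapse _ hle hne hphi
      exact ⟨fun w hw => hle (hA w hw), h1, h2⟩
  have hperf : commutator (FreeGroup (Gen (Fin a) (Fin b) (Fin k)) ⧸ K) = ⊤ :=
    quot_perfect S K hA
  have hinv : Finite {T : Subgroup (FreeGroup (Gen (Fin a) (Fin b) (Fin k)) ⧸ K) // T.Normal ∧
      ∀ i, T ≤ T.comap (QuotientGroup.map K K (ε i) (hKε i))} := by
    have := (collK_collapsed K hA).finite
    have hfin := (finite_subgroups_ge (collK K)).insert K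
    have : Finite (insert K {T : Subgroup (FreeGroup (Gen (Fin a) (Fin b) (Fin k))) |
      collK K ≤ T} : Set _) := hfin
    refine Finite.of_injective (β := (insert K {T : Subgroup
      (FreeGroup (Gen (Fin a) (Fin b) (Fin k))) | collK K ≤ T} : Set _))
      (fun T => ⟨T.1.comap (QuotientGroup.mk' K), ?_⟩) ?_
    · rcases hcase T.1 T.2.1 T.2.2 with h | h
      · exact Or.inl h
      · right
        have : (T.1.comap (QuotientGroup.mk' K)).Normal := T.2.1.comap _
        refine collK_le K _ ?_ h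
        intro x hx
        have : QuotientGroup.mk' K x = 1 := (QuotientGroup.eq_one_iff _).2 hx
        rw [Subgroup.mem_comap, this]
        exact one_mem _
    · intro T T' h
      have h1 := congrArg Subtype.val h
      exact Subtype.ext (Subgroup.comap_injective (QuotientGroup.mk'_surjective K) h1)
  have hcent : ∀ T : Subgroup (FreeGroup (Gen (Fin a) (Fin b) (Fin k)) ⧸ K), T.Normal →
      (∀ i, T ≤ T.comap (QuotientGroup.map K K (ε i) (hKε i))) →
      ∀ x, (∀ y, x * y * x⁻¹ * y⁻¹ ∈ T) → x ∈ T := by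
    intro T hT hTi x hx
    obtain ⟨x, rfl⟩ := QuotientGroup.mk'_surjective K x
    have hx' : ∀ y, x * y * x⁻¹ * y⁻¹ ∈ T.comap (QuotientGroup.mk' K) := by
      intro y
      have := hx (QuotientGroup.mk' K y)
      rwa [← map_inv, ← map_inv, ← map_mul, ← map_mul, ← map_mul] at this
    change x ∈ T.comap (QuotientGroup.mk' K)
    rcases hcase T hT hTi with h | h
    · rw [h] at hx' ⊢
      exact hF.center x hx'
    · haveI : (T.comap (QuotientGroup.mk' K)).Normal := hT.comap _
      exact h.center x hx'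
  -- the embedding of `H`
  obtain ⟨lam, hlam⟩ := hF.embed hs
  obtain ⟨f, hf⟩ := Helper13.exists_coprod_embedding H
  have : Group.FG (FreeGroup (Gen (Fin a) (Fin b) (Fin k)) ⧸ K) := inferInstance
  have hd : Odd d := ⟨a + 2, rfl⟩
  have hε0' : (fun i => QuotientGroup.map K K (ε i) (hKε i)) 0 = MonoidHom.id _ := by
    ext x
    change QuotientGroup.map K K (ε 0) (hKε 0) (QuotientGroup.mk' K (FreeGroup.of x)) = _
    rw [QuotientGroup.mk'_apply, QuotientGroup.map_mk, hε0]
    rfl
  exact typeA_of_label hd (fun i => QuotientGroup.map K K (ε i) (hKε i)) hε0' hfp hperf hinv hcent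
    (lam.comp f) (hlam.comp hf)

end Pool.Agent.BH
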