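import Pool.Agent.BH.Words

set_option autoImplicit false

/-!
# Auxiliary facts for the final theorem

The group `P` is perfect, and its proper quotients by invariant normal subgroups are quotients of
`A5 × A5`, hence finite and without center.
-/

namespace Pool.Agent.BH.MA

open FreeGroup (of)

/-- A homomorphism from `A5` to a commutative group is trivial. -/
lemma a5_hom_trivial {A : Type*} [CommGroup A] (f : A5 →* A) (a : A5) : f a = 1 := by
  have h : commutator A5 = ⊤ :=
    commutator_alternatingGroup_eq_top (α := Fin 5) (by simp)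
  have h2 : a ∈ commutator A5 := by rw [h]; trivial
  exact Abelianization.commutator_subset_ker f h2

/-- Elements of `A5` that commute with everything are trivial. -/
lemma a5_center (a : A5) (h : ∀ b : A5, a * b = b * a) : a = 1 := by
  have h1 : Subgroup.center A5 = ⊥ := alternatingGroup.center_eq_bot (α := Fin 5) (by simp)
  have h2 : a ∈ Subgroup.center A5 := Subgroup.mem_center_iff.2 fun g => (h g).symm
  rw [h1] at h2
  exact h2

/-- If `f a` commutes with all `f b` then `f a = 1`. -/
lemma a5_image_center {G : Type*} [Group G] (f : A5 →* G) (a : A5)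
    (h : ∀ b : A5, f a * f b = f b * f a) : f a = 1 := by
  rcases Subgroup.Normal.eq_bot_or_eq_top (H := f.ker) inferInstance with hk | hk
  · have hinj : Function.Injective f := (MonoidHom.ker_eq_bot_iff f).1 hk
    have : a = 1 := a5_center a fun b => hinj (by rw [map_mul, map_mul, h b])
    rw [this, map_one]
  · have : a ∈ f.ker := by rw [hk]; trivial
    exact this

section Perfect

variable {J B Hg : Type} (S : Sys J B Hg)

lemma mk_append' {α : Type} (u v : List (α × Bool)) :
    FreeGroup.mk (u ++ v) = FreeGroup.mk u * FreeGroup.mk v := FreeGroup.mul_mk.symm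

lemma mk_inv' {α : Type} (u : List (α × Bool)) :
    FreeGroup.mk (inv u) = (FreeGroup.mk u)⁻¹ := FreeGroup.inv_mk.symm

lemma mk_cons_true {α : Type} (x : α) (u : List (α × Bool)) :
    FreeGroup.mk ((x, true) :: u) = FreeGroup.of x * FreeGroup.mk u :=
  mk_append' [(x, true)] u

lemma mk_cons_false {α : Type} (x : α) (u : List (α × Bool)) :
    FreeGroup.mk ((x, false) :: u) = (FreeGroup.of x)⁻¹ * FreeGroup.mk u :=
  mk_append' [(x, false)] u

lemma mk_nil' {α : Type} : FreeGroup.mk ([] : List (α × Bool)) = 1 := rfl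

lemma mk_cj {α : Type} (p x : List (α × Bool)) :
    FreeGroup.mk (cj p x) = FreeGroup.mk p * FreeGroup.mk x * (FreeGroup.mk p)⁻¹ := by
  unfold cj
  rw [mk_append', mk_append', mk_inv']

lemma mk_cm {α : Type} (x y : List (α × Bool)) :
    FreeGroup.mk (cm x y) = FreeGroup.mk x * FreeGroup.mk y * (FreeGroup.mk x)⁻¹ *
      (FreeGroup.mk y)⁻¹ := by
  unfold cm
  rw [mk_append', mk_append', mk_append', mk_inv', mk_inv']

lemma cube_square {A : Type*} [CommGroup A] {x : A} (h3 : x * (x * x) = 1) (h2 : x * x = 1) :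
    x = 1 := by
  rw [h2, mul_one] at h3
  exact h3

/-- The group `P` is perfect: every homomorphism to a commutative group that kills the relators
without context is trivial. -/
theorem hom_trivial {A : Type*} [CommGroup A] (θ : FreeGroup (Gen J B Hg) →* A)
    (h : ∀ w, S.RelA w → θ (FreeGroup.mk w) = 1) : θ = 1 := by
  have hz : ∀ a, θ (of (Gen.z a)) = 1 := by
    let f : A5 →* A := MonoidHom.mk' (fun a => θ (of (Gen.z a))) (by
      intro a b
      have := h _ (Sys.RelA.zz a b)
      rw [mk_cons_true, mk_cons_true, mk_cons_false, mk_nil', mul_one, map_mul, map_mul,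
        map_inv, ← mul_assoc, mul_inv_eq_one] at this
      exact this.symm)
    exact fun a => a5_hom_trivial f a
  have ht : ∀ a, θ (of (Gen.t a)) = 1 := by
    let f : A5 →* A := MonoidHom.mk' (fun a => θ (of (Gen.t a))) (by
      intro a b
      have := h _ (Sys.RelA.tt a b)
      rw [mk_cons_true, mk_cons_true, mk_cons_false, mk_nil', mul_one, map_mul, map_mul,
        map_inv, ← mul_assoc, mul_inv_eq_one] at this
      exact this.symm)
    exact fun a => a5_hom_trivial f a
  have he : θ (of (Gen.k KG.e)) = 1 := by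
    have h3 := h _ Sys.RelA.e3
    have h2 := h _ Sys.RelA.ce
    simp only [mk_cons_true, mk_nil', mul_one, map_mul, mk_append', mk_cj, map_inv,
      mul_inv_cancel_comm] at h3 h2
    exact cube_square h3 h2
  have hw : θ (of (Gen.k KG.w)) = 1 := by
    have h3 := h _ Sys.RelA.w3
    have h2 := h _ Sys.RelA.cw
    simp only [mk_cons_true, mk_nil', mul_one, map_mul, mk_append', mk_cj, map_inv,
      mul_inv_cancel_comm] at h3 h2
    exact cube_square h3 h2
  have hv : θ (of (Gen.k KG.v)) = 1 := by
    have h3 := h _ Sys.RelA.v3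
    have h2 := h _ Sys.RelA.cv
    simp only [mk_cons_true, mk_nil', mul_one, map_mul, mk_append', mk_cj, map_inv,
      mul_inv_cancel_comm] at h3 h2
    exact cube_square h3 h2
  have hy : ∀ n, θ (of (Gen.k (KG.y n))) = 1 := by
    intro n
    have := h _ (Sys.RelA.cst τ01 0 n)
    have h01 : τ01.1 0 = 1 := by decide
    simp only [permW, Sys.thC, h01, if_true, one_ne_zero, if_false, mk_append', mk_cj, mk_inv',
      map_mul, map_inv, mul_inv_cancel_comm, mk_cons_true, mk_nil', mul_one] at this
    exact this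
  ext x
  rcases x with a | a | κ
  · exact hz a
  · exact ht a
  · rcases κ with _ | _ | _ | n
    · exact he
    · exact hw
    · exact hv
    · exact hy n

/-- The quotient is perfect. -/
theorem quot_perfect (K : Subgroup (FreeGroup (Gen J B Hg))) [K.Normal]
    (h : ∀ w, S.RelA w → FreeGroup.mk w ∈ K) :
    commutator (FreeGroup (Gen J B Hg) ⧸ K) = ⊤ := by
  have h1 := hom_trivial S ((Abelianization.of).comp (QuotientGroup.mk' K)) (by
    intro w hw
    have h2 : QuotientGroup.mk' K (FreeGroup.mk w) = 1 := (QuotientGroup.eq_one_iff _).2 (h w hw)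
    rw [MonoidHom.comp_apply, h2, map_one])
  rw [← Abelianization.ker_of, eq_top_iff]
  rintro x -
  obtain ⟨y, rfl⟩ := QuotientGroup.mk'_surjective K x
  exact DFunLike.congr_fun h1 y

end Perfect

section Collapsed

variable {J B Hg : Type} {S : Sys J B Hg}

/-- The subgroups with the relators that hold in the quotients of `A5 × A5`. -/
structure Collapsed (S : Sys J B Hg) (R : Subgroup (FreeGroup (Gen J B Hg))) : Prop where
  ra : ∀ w, S.RelA w → FreeGroup.mk w ∈ R
  rk : ∀ κ : KG J B Hg, FreeGroup.of (Gen.k κ) ∈ R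
  rc : ∀ a a' : A5, FreeGroup.of (Gen.z a) * FreeGroup.of (Gen.t a') * (FreeGroup.of (Gen.z a))⁻¹ *
      (FreeGroup.of (Gen.t a'))⁻¹ ∈ R

variable {R : Subgroup (FreeGroup (Gen J B Hg))} [R.Normal]

/-- The first factor. -/
def Collapsed.fz (h : Collapsed S R) : A5 →* FreeGroup (Gen J B Hg) ⧸ R :=
  MonoidHom.mk' (fun a => QuotientGroup.mk' R (of (Gen.z a))) (by
    intro a b
    have := h.ra _ (Sys.RelA.zz a b)
    rw [mk_cons_true, mk_cons_true, mk_cons_false, mk_nil', mul_one, ← QuotientGroup.ker_mk' R,
      MonoidHom.mem_ker, map_mul, map_mul, map_inv, ← mul_assoc, mul_inv_eq_one] at this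
    exact this.symm)

/-- The second factor. -/
def Collapsed.ft (h : Collapsed S R) : A5 →* FreeGroup (Gen J B Hg) ⧸ R :=
  MonoidHom.mk' (fun a => QuotientGroup.mk' R (of (Gen.t a))) (by
    intro a b
    have := h.ra _ (Sys.RelA.tt a b)
    rw [mk_cons_true, mk_cons_true, mk_cons_false, mk_nil', mul_one, ← QuotientGroup.ker_mk' R,
      MonoidHom.mem_ker, map_mul, map_mul, map_inv, ← mul_assoc, mul_inv_eq_one] at this
    exact this.symm)

lemma Collapsed.comm (h : Collapsed S R) (a b : A5) : h.fz a * h.ft b = h.ft b * h.fz a := by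
  have := h.rc a b
  rw [← QuotientGroup.ker_mk' R, MonoidHom.mem_ker, map_mul, map_mul, map_mul, map_inv, map_inv,
    mul_inv_eq_one, mul_inv_eq_iff_eq_mul] at this
  exact this

/-- Every element is a product. -/
lemma Collapsed.surj (h : Collapsed S R) (x : FreeGroup (Gen J B Hg) ⧸ R) :
    ∃ a b, x = h.fz a * h.ft b := by
  obtain ⟨y, rfl⟩ := QuotientGroup.mk'_surjective R x
  let f : A5 × A5 →* FreeGroup (Gen J B Hg) ⧸ R :=
    MonoidHom.noncommCoprod h.fz h.ft fun a b => h.comm a b
  have : QuotientGroup.mk' R y ∈ f.range := by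
    induction y using FreeGroup.induction_on with
    | C1 => rw [map_one]; exact one_mem _
    | of x =>
      rcases x with a | a | κ
      · exact ⟨(a, 1), by change h.fz a * h.ft 1 = _; rw [map_one, mul_one]; rfl⟩
      · exact ⟨(1, a), by change h.fz 1 * h.ft a = _; rw [map_one, one_mul]; rfl⟩
      · have : QuotientGroup.mk' R (of (Gen.k κ)) = 1 := (QuotientGroup.eq_one_iff _).2 (h.rk κ)
        change QuotientGroup.mk' R (of (Gen.k κ)) ∈ _
        rw [this]
        exact one_mem _
    | inv_of x ih => rw [map_inv]; exact inv_mem ih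
    | mul x y ihx ihy => rw [map_mul]; exact mul_mem ihx ihy
  obtain ⟨⟨a, b⟩, hab⟩ := this
  exact ⟨a, b, hab.symm⟩

/-- The quotient is finite. -/
lemma Collapsed.finite (h : Collapsed S R) : Finite (FreeGroup (Gen J B Hg) ⧸ R) := by
  refine Finite.of_surjective (fun p : A5 × A5 => h.fz p.1 * h.ft p.2) ?_
  intro x
  obtain ⟨a, b, rfl⟩ := h.surj x
  exact ⟨(a, b), rfl⟩

/-- The quotient has no center. -/
lemma Collapsed.center (h : Collapsed S R) (x : FreeGroup (Gen J B Hg))
    (hx : ∀ y, x * y * x⁻¹ * y⁻¹ ∈ R) : x ∈ R := by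
  set π := QuotientGroup.mk' R with hπ
  have hx' : ∀ y, π x * y = y * π x := by
    intro y
    obtain ⟨y, rfl⟩ := QuotientGroup.mk'_surjective R y
    have := hx y
    rw [← QuotientGroup.ker_mk' R, MonoidHom.mem_ker, map_mul, map_mul, map_mul, map_inv, map_inv,
      mul_inv_eq_one, mul_inv_eq_iff_eq_mul] at this
    exact this
  obtain ⟨a, b, hab⟩ := h.surj (π x)
  have ha : h.fz a = 1 := by
    apply a5_image_center
    intro c
    have h1 := hx' (h.fz c)
    rw [hab, mul_assoc, ← h.comm c b, ← mul_assoc, ← mul_assoc] at h1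
    exact mul_right_cancel h1
  have hb : h.ft b = 1 := by
    apply a5_image_center
    intro c
    have h1 := hx' (h.ft c)
    rw [hab, ← mul_assoc (h.ft c), ← h.comm a c, mul_assoc, mul_assoc] at h1
    exact mul_left_cancel h1
  rw [ha, hb, mul_one] at hab
  exact (QuotientGroup.eq_one_iff _).1 hab

/-- The smallest collapsed subgroup that contains `K`. -/
def collK (K : Subgroup (FreeGroup (Gen J B Hg))) : Subgroup (FreeGroup (Gen J B Hg)) :=
  Subgroup.normalClosure ({x | x ∈ K ∨ (∃ κ : KG J B Hg, x = of (Gen.k κ)) ∨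
    ∃ a a' : A5, x = of (Gen.z a) * of (Gen.t a') * (of (Gen.z a))⁻¹ * (of (Gen.t a'))⁻¹})

instance (K : Subgroup (FreeGroup (Gen J B Hg))) : (collK K).Normal :=
  Subgroup.normalClosure_normal

lemma collK_collapsed (K : Subgroup (FreeGroup (Gen J B Hg)))
    (ha : ∀ w, S.RelA w → FreeGroup.mk w ∈ K) : Collapsed S (collK K) where
  ra w hw := Subgroup.subset_normalClosure (Or.inl (ha w hw))
  rk κ := Subgroup.subset_normalClosure (Or.inr (Or.inl ⟨κ, rfl⟩))
  rc a a' := Subgroup.subset_normalClosure (Or.inr (Or.inr ⟨a, a', rfl⟩))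

lemma collK_le (K R : Subgroup (FreeGroup (Gen J B Hg))) [R.Normal] (hKR : K ≤ R)
    (h : Collapsed S R) : collK K ≤ R := by
  apply Subgroup.normalClosure_le_normal
  rintro x (hx | ⟨κ, rfl⟩ | ⟨a, a', rfl⟩)
  · exact hKR hx
  · exact h.rk κ
  · exact h.rc a a'

/-- Finitely many subgroups contain a normal subgroup with finite quotient. -/
lemma finite_subgroups_ge {F : Type*} [Group F] (R : Subgroup F) [R.Normal] [Finite (F ⧸ R)] :
    {T : Subgroup F | R ≤ T}.Finite := by
  refine Set.Finite.subset (Set.finite_range fun U : Subgroup (F ⧸ R) =>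
    U.comap (QuotientGroup.mk' R)) ?_
  intro T hT
  refine ⟨T.map (QuotientGroup.mk' R), ?_⟩
  change Subgroup.comap _ (Subgroup.map _ T) = T
  rw [Subgroup.comap_map_eq, QuotientGroup.ker_mk', sup_eq_left]
  exact hT

end Collapsed

end Pool.Agent.BH.MA
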