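import Pool.Agent.Helper13.TypeAMain

set_option autoImplicit false

/-!
# From actions of type (A) to oligomorphic actions
-/

namespace Pool.Agent.BH.Olig

open Pool.Agent.Helper13 Equiv

lemma exists_enum {Ω : Type*} (F : Set Ω) (hF : F.Finite) :
    ∃ (n : ℕ) (z : Fin n → Ω), Function.Injective z ∧ Set.range z = F := by
  have := hF.fintype
  refine ⟨Fintype.card F, fun i => ((Fintype.equivFin F).symm i : Ω), ?_, ?_⟩
  · exact Subtype.val_injective.comp (Fintype.equivFin F).symm.injective
  · ext p
    constructor
    · rintro ⟨i, rfl⟩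
      exact Subtype.property _
    · intro hp
      exact ⟨Fintype.equivFin F ⟨p, hp⟩, by simp⟩

lemma highly_imp_oligo {H : Type*} [Group H] (h : EmbedsInHighlyTransitive H) :
    EmbedsInOligomorphic H := by
  classical
  obtain ⟨m, rels, φ, ρ, hφ, hρ, htr, -, hst⟩ := h
  refine ⟨m, rels, φ, ρ, hφ, hρ, ?_, ?_⟩
  · intro k
    -- the orbit of a tuple is determined by its equality pattern
    let pat : (Fin k → ℕ) → (Fin k → Fin k → Prop) := fun x i j => x i = x j
    have key : ∀ x x' : Fin k → ℕ, pat x = pat x' →
        {y : Fin k → ℕ | ∃ h : PresentedGroup (rels : Set (FreeGroup (Fin m))),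
          y = fun i => ρ h (x i)} =
        {y : Fin k → ℕ | ∃ h : PresentedGroup (rels : Set (FreeGroup (Fin m))),
          y = fun i => ρ h (x' i)} := by
      -- it suffices to find an element taking `x` to `x'`
      have move : ∀ x x' : Fin k → ℕ, pat x = pat x' →
          ∃ g : PresentedGroup (rels : Set (FreeGroup (Fin m))), ∀ i, ρ g (x i) = x' i := by
        intro x x' hpat
        have hpat' : ∀ i j, x i = x j ↔ x' i = x' j := fun i j => by
          have := congrFun (congrFun hpat i) j
          exact iff_of_eq this
        obtain ⟨n, z, hz, hzr⟩ := exists_enum (Set.range x) (Set.finite_range x)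
        have hc : ∀ i, ∃ j, x j = z i := fun i => by
          have : z i ∈ Set.range x := hzr ▸ ⟨i, rfl⟩
          exact this
        choose c hc using hc
        obtain ⟨g, hg⟩ := htr n z (fun i => x' (c i)) hz (by
          intro i j hij
          apply hz
          rw [← hc i, ← hc j]
          exact (hpat' _ _).2 hij)
        refine ⟨g, fun i => ?_⟩
        obtain ⟨j, hj⟩ : x i ∈ Set.range z := hzr ▸ ⟨i, rfl⟩
        rw [← hj, hg]
        apply (hpat' _ _).1
        rw [hc, hj]
      intro x x' hpat
      ext y
      constructor
      · rintro ⟨h, rfl⟩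
        obtain ⟨g, hg⟩ := move x' x hpat.symm
        exact ⟨h * g, by ext i; rw [map_mul, Perm.mul_apply, hg]⟩
      · rintro ⟨h, rfl⟩
        obtain ⟨g, hg⟩ := move x x' hpat
        exact ⟨h * g, by ext i; rw [map_mul, Perm.mul_apply, hg]⟩
    have hfin : Finite (Fin k → Fin k → Prop) := inferInstance
    let F : (Fin k → Fin k → Prop) → Set (Fin k → ℕ) := fun P =>
      if h : ∃ x, pat x = P then {y : Fin k → ℕ | ∃ g : PresentedGroup
        (rels : Set (FreeGroup (Fin m))), y = fun i => ρ g (h.choose i)} else ∅
    refine (Set.finite_range F).subset ?_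
    rintro _ ⟨x, rfl⟩
    refine ⟨pat x, ?_⟩
    have h : ∃ x', pat x' = pat x := ⟨x, rfl⟩
    simp only [F, dif_pos h]
    exact key _ _ h.choose_spec
  · intro F
    obtain ⟨e⟩ := hst F
    have hfg : Group.FG (PresentedGroup (rels : Set (FreeGroup (Fin m)))) := by
      have : Group.IsFinitelyPresented (PresentedGroup (rels : Set (FreeGroup (Fin m)))) :=
        inferInstance
      exact fg_of_fp _
    have := Group.fg_of_surjective (f := e.symm.toMonoidHom) e.symm.surjective
    exact (Group.fg_iff_subgroup_fg _).1 this

/-- Embedding in a group with an action of type (A) implies embedding in a finitely presented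
oligomorphic group with finitely generated stabilizers. -/
theorem typeA_imp_oligo {H : Type*} [Group H] (h : EmbedsInTypeA H) : EmbedsInOligomorphic H := by
  obtain ⟨G, X, _, _, hA, φ, hφ⟩ := h
  exact highly_imp_oligo (typeA_imp_highly hA φ hφ)

end Pool.Agent.BH.Olig
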