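import Mathlib

set_option autoImplicit false

/-!
# Higman-Thompson groups and labelled Higman-Thompson groups

We fix `d ≥ 1`.  The tree is `(d + 1)`-ary, its children are indexed by `Option (Fin d)`: the child
`none` keeps the base point.  Points are finite lists of natural numbers: `[]` is the base point
and `i :: z` is the image of `z` in the ray cone number `i`, which is the cone of the word
`none ^ (i / d) ++ [some (i % d)]`.
-/

namespace Pool.Agent.BH

open Equiv

/-- Points of the tree boundary with finitely many nonzero digits. -/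
abbrev Dy := List ℕ

/-- Children. -/
abbrev Ch (d : ℕ) := Option (Fin d)

section Points

variable {d : ℕ}

/-- Prepend a digit. -/
def bz : Ch d → Dy → Dy
  | none, [] => []
  | none, i :: z => (i + d) :: z
  | some c, z => c.1 :: z

@[simp] lemma bz_none_nil : bz (none : Ch d) [] = [] := rfl
@[simp] lemma bz_none_cons (i : ℕ) (z : Dy) : bz (none : Ch d) (i :: z) = (i + d) :: z := rfl
@[simp] lemma bz_some (c : Fin d) (z : Dy) : bz (some c) z = c.1 :: z := rfl

lemma bz_inj {b b' : Ch d} {z z' : Dy} (h : bz b z = bz b' z') : b = b' ∧ z = z' := by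
  rcases b with _ | b <;> rcases b' with _ | b' <;> rcases z with _ | ⟨i, z⟩ <;>
    rcases z' with _ | ⟨j, z'⟩ <;> simp only [bz_none_nil, bz_none_cons, bz_some,
      List.cons.injEq, reduceCtorEq, Option.some.injEq, and_true, and_false, true_and, false_and,
      and_self, Nat.add_right_cancel_iff, Fin.ext_iff] at h ⊢ <;> first | exact h | (have := b.2; omega) | (have := b'.2; omega)

lemma bz_surj [NeZero d] (z : Dy) : ∃ (b : Ch d) (z' : Dy), z = bz b z' := by
  rcases z with _ | ⟨i, z⟩
  · exact ⟨none, [], rfl⟩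
  · rcases Nat.lt_or_ge i d with h | h
    · exact ⟨some ⟨i, h⟩, z, rfl⟩
    · exact ⟨none, (i - d) :: z, by simp; omega⟩

/-- Prepend a word. -/
def app (u : List (Ch d)) (z : Dy) : Dy := u.foldr bz z

@[simp] lemma app_nil (z : Dy) : app ([] : List (Ch d)) z = z := rfl
@[simp] lemma app_cons (b : Ch d) (u : List (Ch d)) (z : Dy) :
    app (b :: u) z = bz b (app u z) := rfl

lemma app_append (u v : List (Ch d)) (z : Dy) : app (u ++ v) z = app u (app v z) := by
  induction u with
  | nil => rfl
  | cons b u ih => simp [ih]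

lemma app_inj {u : List (Ch d)} {z z' : Dy} (h : app u z = app u z') : z = z' := by
  induction u with
  | nil => exact h
  | cons b u ih => exact ih (bz_inj h).2

lemma app_prefix {u v : List (Ch d)} {z z' : Dy} (h : app u z = app v z')
    (hl : u.length ≤ v.length) : ∃ w, v = u ++ w ∧ z = app w z' := by
  induction u generalizing v with
  | nil => exact ⟨v, rfl, h⟩
  | cons b u ih =>
    rcases v with _ | ⟨c, v⟩
    · simp at hl
    · simp only [app_cons] at h
      obtain ⟨rfl, h'⟩ := bz_inj h
      obtain ⟨w, hw, hz⟩ := ih h' (by simpa using hl)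
      exact ⟨w, by rw [hw]; rfl, hz⟩

lemma app_eq_length {u v : List (Ch d)} {z z' : Dy} (h : app u z = app v z')
    (hl : u.length = v.length) : u = v ∧ z = z' := by
  obtain ⟨w, hw, hz⟩ := app_prefix h hl.le
  have : w = [] := by
    have := congrArg List.length hw
    rw [List.length_append] at this
    exact List.length_eq_zero_iff.1 (by omega)
  subst this
  exact ⟨by simpa using hw.symm, hz⟩

lemma exists_app [NeZero d] (k : ℕ) (z : Dy) :
    ∃ (u : List (Ch d)) (z' : Dy), u.length = k ∧ z = app u z' := by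
  induction k generalizing z with
  | zero => exact ⟨[], z, rfl, rfl⟩
  | succ k ih =>
    obtain ⟨b, z', rfl⟩ := bz_surj (d := d) z
    obtain ⟨u, z'', hu, rfl⟩ := ih z'
    exact ⟨b :: u, z'', by simp [hu], rfl⟩

/-- The zero word. -/
def zw (k : ℕ) : List (Ch d) := List.replicate k none

@[simp] lemma zw_zero : zw (d := d) 0 = [] := rfl
lemma zw_succ (k : ℕ) : zw (d := d) (k + 1) = none :: zw k := rfl
@[simp] lemma zw_length (k : ℕ) : (zw (d := d) k).length = k := by simp [zw]
@[simp] lemma app_zw_nil (k : ℕ) : app (zw (d := d) k) [] = [] := by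
  induction k with
  | zero => rfl
  | succ k ih => rw [zw_succ, app_cons, ih]; rfl
@[simp] lemma app_zw_cons (k i : ℕ) (z : Dy) :
    app (zw (d := d) k) (i :: z) = (i + k * d) :: z := by
  induction k with
  | zero => simp
  | succ k ih =>
    rw [zw_succ, app_cons, ih, bz_none_cons, Nat.succ_mul, Nat.add_assoc]
lemma zw_add (k l : ℕ) : zw (d := d) (k + l) = zw k ++ zw l := by
  simp [zw, List.replicate_append_replicate]

/-- The ray cone word number `i`. -/
def rc (d : ℕ) [NeZero d] (i : ℕ) : List (Ch d) := zw (i / d) ++ [some ⟨i % d, Nat.mod_lt _ (Nat.pos_of_neZero d)⟩]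

@[simp] lemma app_rc [NeZero d] (i : ℕ) (z : Dy) : app (rc d i) z = i :: z := by
  unfold rc
  rw [app_append]
  simp only [app_cons, app_nil, bz_some, app_zw_cons]
  congr 1
  rw [Nat.add_comm, Nat.mul_comm]
  exact Nat.div_add_mod i d

lemma app_word_inj [NeZero d] {u v : List (Ch d)} (h : ∀ z, app u z = app v z) : u = v := by
  have aux : ∀ (u w : List (Ch d)), (∀ z, app u z = app (u ++ w) z) → w = [] := by
    intro u w h
    rcases w with _ | ⟨b, w⟩
    · rfl
    · exfalso
      -- the image of `app u` is not contained in a proper cone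
      obtain ⟨c, hc⟩ : ∃ c : Ch d, c ≠ b := by
        rcases b with _ | b
        · exact ⟨some 0, by simp⟩
        · exact ⟨none, by simp⟩
      have h1 := h (app [c] [])
      rw [app_append] at h1
      have h2 := app_inj h1
      simp only [app_cons, app_nil] at h2
      exact hc (bz_inj h2).1
  rcases le_total u.length v.length with hl | hl
  · obtain ⟨w, hw, -⟩ := app_prefix (h []) hl
    subst hw
    rw [aux u w h, List.append_nil]
  · obtain ⟨w, hw, -⟩ := app_prefix (h []).symm hl
    subst hw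
    rw [aux v w (fun z => (h z).symm), List.append_nil]

end Points

/-! ### The Higman-Thompson group -/

section VN

variable {d : ℕ}

/-- `g` maps the cone of `u` to the cone of `v`. -/
def NCone (g : Perm Dy) (u v : List (Ch d)) : Prop := ∀ z, g (app u z) = app v z

lemma NCone.one (u : List (Ch d)) : NCone 1 u u := fun z => rfl

lemma NCone.append {g : Perm Dy} {u v : List (Ch d)} (h : NCone g u v) (w : List (Ch d)) :
    NCone g (u ++ w) (v ++ w) := fun z => by
  rw [app_append, app_append, h]

lemma NCone.mul {g h : Perm Dy} {u v w : List (Ch d)} (hg : NCone g v w) (hh : NCone h u v) :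
    NCone (g * h) u w := fun z => by
  rw [Perm.mul_apply, hh, hg]

lemma NCone.inv {g : Perm Dy} {u v : List (Ch d)} (h : NCone g u v) : NCone g⁻¹ v u := fun z => by
  rw [Perm.inv_eq_iff_eq, h]

lemma NCone.unique [NeZero d] {g : Perm Dy} {u v v' : List (Ch d)} (h : NCone g u v)
    (h' : NCone g u v') : v = v' :=
  app_word_inj fun z => (h z).symm.trans (h' z)

lemma NCone.unique_left [NeZero d] {g : Perm Dy} {u u' v : List (Ch d)} (h : NCone g u v)
    (h' : NCone g u' v) : u = u' :=
  h.inv.unique h'.inv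

/-- `g` is cone-like on the cone of `u`. -/
def NCL (g : Perm Dy) (u : List (Ch d)) : Prop := ∃ v, NCone g u v

lemma NCL.append {g : Perm Dy} {u : List (Ch d)} (h : NCL g u) (w : List (Ch d)) :
    NCL g (u ++ w) := by
  obtain ⟨v, h⟩ := h
  exact ⟨_, h.append w⟩

lemma NCL.of_length {g : Perm Dy} {k : ℕ} (h : ∀ u : List (Ch d), u.length = k → NCL g u)
    (u : List (Ch d)) (hu : k ≤ u.length) : NCL g u := by
  have := (h (u.take k) (by simpa using hu)).append (u.drop k)
  rwa [List.take_append_drop] at this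

variable (d) in
/-- The Higman-Thompson group of degree `d + 1`, acting on the points with finitely many
nonzero digits. -/
def VN [NeZero d] : Subgroup (Perm Dy) where
  carrier := {g | ∃ k, ∀ u : List (Ch d), u.length = k → NCL g u}
  one_mem' := ⟨0, fun u _ => ⟨u, NCone.one u⟩⟩
  mul_mem' := by
    rintro g h ⟨k, hg⟩ ⟨l, hh⟩
    refine ⟨k + l, fun u hu => ?_⟩
    have h1 : u = u.take l ++ u.drop l := (List.take_append_drop l u).symm
    obtain ⟨v, hv⟩ := hh (u.take l) (by simp; omega)
    have h2 : NCL g (v ++ u.drop l) := NCL.of_length hg _ (by simp; omega)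
    obtain ⟨w, hw⟩ := h2
    refine ⟨w, ?_⟩
    rw [h1]
    exact hw.mul (hv.append _)
  inv_mem' := by
    rintro g ⟨k, hg⟩
    choose! v hva using hg
    have hfin : {u : List (Ch d) | u.length = k}.Finite := List.finite_length_eq (Ch d) k
    obtain ⟨l, hl⟩ : ∃ l, ∀ u : List (Ch d), u.length = k → (v u).length ≤ l := by
      have := (hfin.image (fun u => (v u).length)).bddAbove
      obtain ⟨l, hl⟩ := this
      exact ⟨l, fun u hu => hl ⟨u, hu, rfl⟩⟩
    refine ⟨l, fun w hw => ?_⟩
    obtain ⟨z, hz⟩ := g.surjective (app w [])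
    obtain ⟨u, z', hu, rfl⟩ := exists_app (d := d) k z
    rw [hva u hu] at hz
    obtain ⟨w', hw', -⟩ := app_prefix hz (by rw [hw]; exact hl u hu)
    refine ⟨u ++ w', ?_⟩
    rw [hw']
    exact (hva u hu).inv.append w'

lemma mem_VN [NeZero d] {g : Perm Dy} :
    g ∈ VN d ↔ ∃ k, ∀ u : List (Ch d), u.length = k → NCL g u := Iff.rfl

end VN

/-! ### The labelled Higman-Thompson group -/

section VL

variable {d : ℕ} [NeZero d] {P : Type*} [Group P] (ε : Fin d → P →* P)

/-- The twist of the labels at a point: the label `a` on a cone acts at the point `z` of the cone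
by `tw ε z a`. -/
def tw : Dy → P →* P
  | [] => MonoidHom.id P
  | i :: z => (tw z).comp (ε ⟨i % d, Nat.mod_lt _ (Nat.pos_of_neZero d)⟩)

@[simp] lemma tw_nil (a : P) : tw ε [] a = a := rfl
lemma tw_cons (i : ℕ) (z : Dy) (a : P) :
    tw ε (i :: z) a = tw ε z (ε ⟨i % d, Nat.mod_lt _ (Nat.pos_of_neZero d)⟩ a) := rfl

/-- The endomorphism of a child. -/
def ec : Ch d → P →* P
  | none => MonoidHom.id P
  | some c => ε c

/-- The endomorphism of a word. -/
def ew : List (Ch d) → P →* P
  | [] => MonoidHom.id P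
  | c :: u => (ew u).comp (ec ε c)

@[simp] lemma ew_nil (a : P) : ew ε [] a = a := rfl
lemma ew_cons (c : Ch d) (u : List (Ch d)) (a : P) : ew ε (c :: u) a = ew ε u (ec ε c a) := rfl

lemma ew_append (u v : List (Ch d)) (a : P) : ew ε (u ++ v) a = ew ε v (ew ε u a) := by
  induction u generalizing a with
  | nil => rfl
  | cons c u ih => rw [List.cons_append, ew_cons, ih, ew_cons]

lemma tw_bz (c : Ch d) (z : Dy) (a : P) : tw ε (bz c z) a = tw ε z (ec ε c a) := by
  rcases c with _ | c
  · rcases z with _ | ⟨i, z⟩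
    · rfl
    · rw [bz_none_cons, tw_cons]
      have : (⟨(i + d) % d, Nat.mod_lt _ (Nat.pos_of_neZero d)⟩ : Fin d) =
          ⟨i % d, Nat.mod_lt _ (Nat.pos_of_neZero d)⟩ := by
        ext
        simp
      rw [this]
      rfl
  · rw [bz_some, tw_cons]
    have : (⟨c.1 % d, Nat.mod_lt _ (Nat.pos_of_neZero d)⟩ : Fin d) = c := by
      ext
      simp [Nat.mod_eq_of_lt c.2]
    rw [this]
    rfl

lemma tw_app (u : List (Ch d)) (z : Dy) (a : P) : tw ε (app u z) a = tw ε z (ew ε u a) := by
  induction u generalizing a with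
  | nil => rfl
  | cons c u ih => rw [app_cons, tw_bz, ih, ew_cons]

/-- `g` maps the cone of `u` to the cone of `v`, with label `a`. -/
def LCone (g : Perm (Dy × P)) (u v : List (Ch d)) (a : P) : Prop :=
  ∀ z s, g (app u z, s) = (app v z, tw ε z a * s)

variable {ε}

lemma LCone.one (u : List (Ch d)) : LCone ε (1 : Perm (Dy × P)) u u 1 := fun z s => by simp

lemma LCone.append {g : Perm (Dy × P)} {u v : List (Ch d)} {a : P} (h : LCone ε g u v a)
    (w : List (Ch d)) : LCone ε g (u ++ w) (v ++ w) (ew ε w a) := fun z s => by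
  rw [app_append, app_append, h, tw_app]

lemma LCone.mul {g h : Perm (Dy × P)} {u v w : List (Ch d)} {a b : P} (hg : LCone ε g v w a)
    (hh : LCone ε h u v b) : LCone ε (g * h) u w (a * b) := fun z s => by
  rw [Perm.mul_apply, hh, hg, map_mul, mul_assoc]

lemma LCone.inv {g : Perm (Dy × P)} {u v : List (Ch d)} {a : P} (h : LCone ε g u v a) :
    LCone ε g⁻¹ v u a⁻¹ := fun z s => by
  rw [Perm.inv_eq_iff_eq, h, map_inv, mul_inv_cancel_left]

lemma LCone.unique {g : Perm (Dy × P)} {u v v' : List (Ch d)} {a a' : P} (h : LCone ε g u v a)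
    (h' : LCone ε g u v' a') : v = v' ∧ a = a' := by
  constructor
  · apply app_word_inj
    intro z
    have := (h z 1).symm.trans (h' z 1)
    exact congrArg Prod.fst this
  · have := (h [] 1).symm.trans (h' [] 1)
    simpa using congrArg Prod.snd this

/-- `g` is cone-like on the cone of `u`. -/
def LCL (ε : Fin d → P →* P) (g : Perm (Dy × P)) (u : List (Ch d)) : Prop :=
  ∃ v a, LCone ε g u v a

lemma LCL.append {g : Perm (Dy × P)} {u : List (Ch d)} (h : LCL ε g u) (w : List (Ch d)) :
    LCL ε g (u ++ w) := by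
  obtain ⟨v, a, h⟩ := h
  exact ⟨_, _, h.append w⟩

lemma LCL.of_length {g : Perm (Dy × P)} {k : ℕ} (h : ∀ u : List (Ch d), u.length = k → LCL ε g u)
    (u : List (Ch d)) (hu : k ≤ u.length) : LCL ε g u := by
  have := (h (u.take k) (by simpa using hu)).append (u.drop k)
  rwa [List.take_append_drop] at this

variable (ε) in
/-- The labelled Higman-Thompson group of degree `d + 1`, with labels in `P`; the child `none` has
the identity endomorphism and the child `some c` has the endomorphism `ε c`. -/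
def VL : Subgroup (Perm (Dy × P)) where
  carrier := {g | ∃ k, ∀ u : List (Ch d), u.length = k → LCL ε g u}
  one_mem' := ⟨0, fun u _ => ⟨u, 1, LCone.one u⟩⟩
  mul_mem' := by
    rintro g h ⟨k, hg⟩ ⟨l, hh⟩
    refine ⟨k + l, fun u hu => ?_⟩
    have h1 : u = u.take l ++ u.drop l := (List.take_append_drop l u).symm
    obtain ⟨v, b, hv⟩ := hh (u.take l) (by simp; omega)
    have h2 : LCL ε g (v ++ u.drop l) := LCL.of_length hg _ (by simp; omega)
    obtain ⟨w, a, hw⟩ := h2
    refine ⟨w, a * ew ε (u.drop l) b, ?_⟩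
    rw [h1]
    exact hw.mul (by simpa using hv.append (u.drop l))
  inv_mem' := by
    rintro g ⟨k, hg⟩
    choose! v a hva using hg
    have hfin : {u : List (Ch d) | u.length = k}.Finite := List.finite_length_eq (Ch d) k
    obtain ⟨l, hl⟩ : ∃ l, ∀ u : List (Ch d), u.length = k → (v u).length ≤ l := by
      have := (hfin.image (fun u => (v u).length)).bddAbove
      obtain ⟨l, hl⟩ := this
      exact ⟨l, fun u hu => hl ⟨u, hu, rfl⟩⟩
    refine ⟨l, fun w hw => ?_⟩
    obtain ⟨⟨z, s⟩, hz⟩ := g.surjective (app w [], 1)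
    obtain ⟨u, z', hu, rfl⟩ := exists_app (d := d) k z
    rw [hva u hu] at hz
    have h1 : app (v u) z' = app w [] := congrArg Prod.fst hz
    obtain ⟨w', hw', -⟩ := app_prefix h1 (by rw [hw]; exact hl u hu)
    refine ⟨u ++ w', ew ε w' (a u)⁻¹, ?_⟩
    rw [hw']
    exact (hva u hu).inv.append w'

lemma mem_VL {g : Perm (Dy × P)} :
    g ∈ VL ε ↔ ∃ k, ∀ u : List (Ch d), u.length = k → LCL ε g u := Iff.rfl

/-- Elements act on points, with a label. -/
lemma VL.fiber {g : Perm (Dy × P)} (hg : g ∈ VL ε) (z : Dy) (s : P) :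
    g (z, s) = ((g (z, 1)).1, (g (z, 1)).2 * s) := by
  obtain ⟨k, hk⟩ := hg
  obtain ⟨u, z', hu, rfl⟩ := exists_app (d := d) k z
  obtain ⟨v, a, h⟩ := hk u hu
  rw [h, h, mul_one]

/-- The action on points. -/
instance : MulAction (VL ε) Dy where
  smul g z := (g.1 (z, 1)).1
  one_smul z := rfl
  mul_smul g h z := by
    change ((g * h).1 (z, 1)).1 = (g.1 ((h.1 (z, 1)).1, 1)).1
    change (g.1 (h.1 (z, 1))).1 = _
    rw [VL.fiber g.2 (h.1 (z, 1)).1 1]
    have := VL.fiber g.2 (h.1 (z, 1)).1 (h.1 (z, 1)).2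
    rw [Prod.mk.eta] at this
    rw [this]

lemma VL.smul_def (g : VL ε) (z : Dy) : g • z = (g.1 (z, 1)).1 := rfl

/-- The label of an element at a point. -/
def lab (g : Perm (Dy × P)) (z : Dy) : P := (g (z, 1)).2

lemma VL.apply (g : VL ε) (z : Dy) (s : P) : g.1 (z, s) = (g • z, lab g.1 z * s) :=
  VL.fiber g.2 z s

lemma VL.lab_mul (g h : VL ε) (z : Dy) : lab (g * h).1 z = lab g.1 (h • z) * lab h.1 z := by
  change (g.1 (h.1 (z, 1))).2 = _
  rw [VL.apply h, VL.apply g]
  simp

lemma LCone.smul {g : VL ε} {u v : List (Ch d)} {a : P} (h : LCone ε g.1 u v a) (z : Dy) :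
    g • app u z = app v z := congrArg Prod.fst (h z 1)

lemma LCone.lab_eq {g : VL ε} {u v : List (Ch d)} {a : P} (h : LCone ε g.1 u v a) (z : Dy) :
    lab g.1 (app u z) = tw ε z a := by
  have := congrArg Prod.snd (h z 1)
  change (g.1 (app u z, 1)).2 = _
  simpa using this

lemma VL.ext {g h : VL ε} (h1 : ∀ z : Dy, g • z = h • z) (h2 : ∀ z, lab g.1 z = lab h.1 z) :
    g = h := by
  apply Subtype.ext
  ext1 ⟨z, s⟩
  rw [VL.apply, VL.apply, h1, h2]

/-- Every element is cone-like near every point. -/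
lemma VL.local (g : VL ε) (z : Dy) (k : ℕ) : ∃ (u : List (Ch d)) (z' : Dy) (v : List (Ch d))
    (a : P), k ≤ u.length ∧ z = app u z' ∧ LCone ε g.1 u v a := by
  obtain ⟨l, hl⟩ := g.2
  obtain ⟨u, z', hu, rfl⟩ := exists_app (d := d) (k + l) z
  obtain ⟨v, a, h⟩ := LCL.of_length hl u (by omega)
  exact ⟨u, z', v, a, by omega, rfl, h⟩

/-- The unlabelled group inside the labelled one. -/
def VN.toVL : VN d →* VL ε where
  toFun g := ⟨Equiv.prodCongr g.1 (Equiv.refl P), by
    obtain ⟨k, hk⟩ := g.2
    refine ⟨k, fun u hu => ?_⟩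
    obtain ⟨v, hv⟩ := hk u hu
    exact ⟨v, 1, fun z s => by simp [hv z]⟩⟩
  map_one' := by
    apply Subtype.ext
    ext1 ⟨z, s⟩
    rfl
  map_mul' g h := by
    apply Subtype.ext
    ext1 ⟨z, s⟩
    rfl

end VL

end Pool.Agent.BH
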