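import Pool.Agent.BH.VGen
import Pool.Agent.Helper13.LemmaB

set_option autoImplicit false
set_option linter.unusedSectionVars false

/-!
# Finite generation of two-point stabilizers and of pointwise stabilizers of cones, finite
presentability of the Higman-Thompson groups, assuming that the stabilizer of the base point is
finitely presented
-/

namespace Pool.Agent.BH

open Equiv MulAction

section Phi

variable {d : ℕ} [NeZero d]

/-- The identification of everything with the cone of `w`. -/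
noncomputable def coneEquivN (w : List (Ch d)) : Dy ≃ {x : Dy // x ∈ Set.range (app w)} :=
  Equiv.ofBijective (fun x => ⟨app w x, x, rfl⟩) (by
    constructor
    · intro z z' h
      exact app_inj (congrArg Subtype.val h)
    · rintro ⟨z, z', h⟩
      exact ⟨z', Subtype.ext h⟩)

open Classical in
/-- The rigid embedding in the cone of `w`. -/
noncomputable def phiN0 (w : List (Ch d)) : Perm Dy →* Perm Dy :=
  Perm.extendDomainHom (coneEquivN w)

lemma phiN0_in (w : List (Ch d)) (g : Perm Dy) (z : Dy) :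
    phiN0 w g (app w z) = app w (g z) := by
  classical
  exact Perm.extendDomain_apply_image g (coneEquivN w) z

lemma phiN0_out (w : List (Ch d)) (g : Perm Dy) {z : Dy} (hz : z ∉ Set.range (app w)) :
    phiN0 w g z = z := by
  classical
  exact Perm.extendDomain_apply_not_subtype g (coneEquivN w) hz

lemma phiN0_mem {g : Perm Dy} (hg : g ∈ VN d) (w : List (Ch d)) : phiN0 w g ∈ VN d := by
  obtain ⟨k, hk⟩ := hg
  refine ⟨w.length + k, fun u hu => ?_⟩
  by_cases h : ∃ z, app u z ∈ Set.range (app w)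
  · obtain ⟨z, z', hz⟩ := h
    obtain ⟨u', rfl, -⟩ := app_prefix hz (by omega)
    obtain ⟨v, hv⟩ := hk u' (by simpa using hu)
    refine ⟨w ++ v, fun z => ?_⟩
    rw [app_append, app_append, phiN0_in, hv]
  · push Not at h
    exact ⟨u, fun z => phiN0_out w g (h z)⟩

/-- The rigid embedding in the cone of `w`, in the group. -/
noncomputable def VN.phi (w : List (Ch d)) : VN d →* VN d :=
  ((phiN0 w).comp (VN d).subtype).codRestrict (VN d) (fun g => phiN0_mem g.2 w)

lemma VN.phi_in (w : List (Ch d)) (g : VN d) (z : Dy) :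
    (VN.phi w g).1 (app w z) = app w (g.1 z) := phiN0_in w g.1 z

lemma VN.phi_out (w : List (Ch d)) (g : VN d) {z : Dy} (hz : z ∉ Set.range (app w)) :
    (VN.phi w g).1 z = z := phiN0_out w g.1 hz

lemma VN.phi_injective (w : List (Ch d)) : Function.Injective (VN.phi w) := by
  intro g h e
  apply Subtype.ext
  ext1 z
  apply app_inj (u := w)
  rw [← VN.phi_in, ← VN.phi_in, e]

lemma cone_subset {v w : List (Ch d)} (h : ∀ z, app v z ∈ Set.range (app w)) :
    ∃ v', v = w ++ v' := by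
  rcases le_total w.length v.length with hl | hl
  · obtain ⟨z', hz⟩ := h []
    obtain ⟨v', hv', -⟩ := app_prefix hz hl
    exact ⟨v', hv'⟩
  · obtain ⟨z', hz⟩ := h []
    obtain ⟨w', rfl, -⟩ := app_prefix hz.symm hl
    rcases w' with _ | ⟨b, w'⟩
    · exact ⟨[], by simp⟩
    · exfalso
      obtain ⟨c, hc⟩ : ∃ c : Ch d, c ≠ b := by
        rcases b with _ | b
        · exact ⟨some 0, by simp⟩
        · exact ⟨none, by simp⟩
      obtain ⟨z', hz⟩ := h (app [c] [])
      rw [app_append] at hz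
      have h2 := app_inj hz
      exact hc (bz_inj h2).1.symm

/-- The elements supported in a cone. -/
theorem exists_phi (w : List (Ch d)) (h : VN d) (hw : h ∈ Vs d (Set.range (app w))) :
    ∃ g : VN d, VN.phi w g = h := by
  have hi := fun z => (Vs.mem_iff hw (app w z)).2 ⟨z, rfl⟩
  have hi' := fun z => (Vs.mem_iff (inv_mem hw) (app w z)).2 ⟨z, rfl⟩
  choose r hr using hi
  choose r' hr' using hi'
  have h1 : ∀ z, r' (r z) = z := by
    intro z
    apply app_inj (u := w)
    rw [hr', hr]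
    exact h.1.symm_apply_apply _
  have h2 : ∀ z, r (r' z) = z := by
    intro z
    apply app_inj (u := w)
    rw [hr, hr']
    exact h.1.apply_symm_apply _
  let g0 : Perm Dy := ⟨r, r', h1, h2⟩
  have hmem : g0 ∈ VN d := by
    obtain ⟨k, hk⟩ := h.2
    refine ⟨k, fun u hu => ?_⟩
    obtain ⟨v, hv⟩ := NCL.of_length hk (w ++ u) (by simp; omega)
    obtain ⟨v', rfl⟩ : ∃ v', v = w ++ v' := by
      apply cone_subset
      intro z
      rw [← hv, app_append, ← hr]
      exact ⟨_, rfl⟩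
    refine ⟨v', fun z => ?_⟩
    apply app_inj (u := w)
    change app w (r (app u z)) = _
    rw [hr, ← app_append, ← app_append]
    exact hv z
  refine ⟨⟨g0, hmem⟩, ?_⟩
  apply Subtype.ext
  ext1 z
  by_cases hz : z ∈ Set.range (app w)
  · obtain ⟨z', rfl⟩ := hz
    rw [VN.phi_in]
    exact hr z'
  · rw [VN.phi_out w _ hz, hw z hz]

/-- The group of elements supported in a proper clopen set of class one. -/
theorem exists_embed {I : Type*} [Finite I] {u : I → List (Ch d)} {C : Set Dy} (hu : IsP u C)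
    (hI : Nat.card I ≡ 1 [MOD d]) (hC : Cᶜ.Nonempty) {x : Dy} (hx : x ∈ C) :
    ∃ ψ : VN d →* VN d, (⊤ : Subgroup (VN d)).map ψ = Vs d C ∧
      (stabilizer (VN d) ([] : Dy)).map ψ = Vs d C ⊓ stabilizer (VN d) x := by
  -- an element mapping the cone of `none` onto `C`
  obtain ⟨a0, ha0⟩ : ∃ a : VN d, ∀ z, a.1 z ∈ C ↔ z ∈ Set.range (app [(none : Ch d)]) := by
    obtain ⟨n, w, hw⟩ := hu.clo.compl.exists_isP
    obtain ⟨m, w', hw'⟩ := (Clo.cone [(none : Ch d)]).compl.exists_isP
    have e1 := hu.card_compl hw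
    have e2 := (IsP.single [(none : Ch d)]).card_compl hw'
    have e3 : Nat.card I ≡ Nat.card (Fin 1) [MOD d] := by simpa using hI
    have e4 : Nat.card (Fin n) ≡ Nat.card (Fin m) [MOD d] := by
      have := e1.trans e2.symm
      exact Nat.ModEq.add_left_cancel e3 this
    obtain ⟨N, -, ⟨x1, hx1⟩, ⟨y1, hy1⟩⟩ := (IsP.single [(none : Ch d)]).exists_same hu
      ⟨_, [], rfl⟩ ⟨x, hx⟩ e3.symm 0
    obtain ⟨M, -, ⟨x2, hx2⟩, ⟨y2, hy2⟩⟩ := hw'.exists_same hw (compl_cone_nonempty (by simp))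
      hC e4.symm 0
    have h1 := hx1.sum hx2 disjoint_compl_right
    have h2 := hy1.sum hy2 disjoint_compl_right
    rw [Set.union_compl_self] at h1 h2
    obtain ⟨g, hg⟩ := exists_element h1 h2
    refine ⟨g, fun z => ?_⟩
    obtain ⟨i, z', rfl⟩ := (h1.ran z).1 trivial
    rw [hg]
    rcases i with i | i
    · exact ⟨fun _ => hx1.mem i z', fun _ => hy1.mem i z'⟩
    · constructor
      · intro h
        exact absurd h (hy2.mem i z')
      · intro h
        exact absurd h (hx2.mem i z')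
  -- correct it
  obtain ⟨a, ha, hax⟩ : ∃ a : VN d, (∀ z, a.1 z ∈ C ↔ z ∈ Set.range (app [(none : Ch d)])) ∧
      a.1 [] = x := by
    obtain ⟨p, hp⟩ := (ha0 (a0.1⁻¹ x)).1 (by
      change a0.1 (a0.1.symm x) ∈ C
      rw [a0.1.apply_symm_apply]
      exact hx)
    obtain ⟨g, hg⟩ := VN.highly d (r := 1) (fun _ => ([] : Dy)) (fun _ => p)
      (fun i j _ => Subsingleton.elim _ _) (fun i j _ => Subsingleton.elim _ _)
    have hg' : g.1 [] = p := hg 0
    refine ⟨a0 * VN.phi [none] g, fun z => ?_, ?_⟩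
    · change a0.1 ((VN.phi [none] g).1 z) ∈ C ↔ _
      rw [ha0]
      by_cases hz : z ∈ Set.range (app [(none : Ch d)])
      · obtain ⟨z', rfl⟩ := hz
        rw [VN.phi_in]
        exact ⟨fun _ => ⟨_, rfl⟩, fun _ => ⟨_, rfl⟩⟩
      · rw [VN.phi_out _ _ hz]
    · change a0.1 ((VN.phi [none] g).1 []) = x
      have e : ([] : Dy) = app [(none : Ch d)] [] := rfl
      rw [e, VN.phi_in, hg', hp]
      exact a0.1.apply_symm_apply x
  let ψ : VN d →* VN d := (MulAut.conj a).toMonoidHom.comp (VN.phi [none])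
  have hψ : ∀ g z, (ψ g).1 z = a.1 ((VN.phi [none] g).1 (a.1.symm z)) := fun g z => rfl
  have hout : ∀ g, ψ g ∈ Vs d C := by
    intro g z hz
    have : a.1.symm z ∉ Set.range (app [(none : Ch d)]) := by
      rw [← ha, a.1.apply_symm_apply]
      exact hz
    rw [hψ, VN.phi_out _ _ this, a.1.apply_symm_apply]
  have hsurj : ∀ h ∈ Vs d C, ∃ g, ψ g = h := by
    intro h hh
    obtain ⟨g, hg⟩ := exists_phi [none] (a⁻¹ * h * a) (by
      intro z hz
      change a.1.symm (h.1 (a.1 z)) = z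
      rw [Equiv.symm_apply_eq]
      apply hh
      rw [ha]
      exact hz)
    refine ⟨g, ?_⟩
    change a * (VN.phi [none] g) * a⁻¹ = h
    rw [hg]
    group
  have hbase : ∀ g, (ψ g).1 x = x ↔ g.1 [] = [] := by
    intro g
    have e : a.1.symm x = [] := by rw [Equiv.symm_apply_eq, hax]
    have e' : ([] : Dy) = app [(none : Ch d)] [] := rfl
    rw [hψ, e]
    constructor
    · intro h
      have h1 : a.1 ((VN.phi [none] g).1 []) = a.1 [] := by rw [h, hax]
      have h2 := a.1.injective h1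
      rw [e', VN.phi_in] at h2
      exact app_inj h2
    · intro h
      rw [e', VN.phi_in, h, ← e', hax]
  refine ⟨ψ, ?_, ?_⟩
  · ext h
    constructor
    · rintro ⟨g, -, rfl⟩
      exact hout g
    · intro hh
      obtain ⟨g, rfl⟩ := hsurj h hh
      exact ⟨g, trivial, rfl⟩
  · ext h
    constructor
    · rintro ⟨g, hg, rfl⟩
      exact ⟨hout g, (hbase g).2 hg⟩
    · rintro ⟨hh, hx'⟩
      obtain ⟨g, rfl⟩ := hsurj h hh
      exact ⟨g, (hbase g).1 hx', rfl⟩

end Phi

section Two

variable {d : ℕ} [NeZero d]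

lemma fg_mapN {A B : Type*} [Group A] [Group B] {P : Subgroup A} (h : P.FG) (f : A →* B) :
    (P.map f).FG := by
  classical
  obtain ⟨T, hT⟩ := h
  refine ⟨T.image f, ?_⟩
  rw [Finset.coe_image, ← MonoidHom.map_closure, hT]

/-- The germ of an element fixing the base point of the cone of `w`. -/
lemma exists_germ (g : VN d) (w : List (Ch d)) (hg : g.1 (app w []) = app w []) (K : ℕ) :
    ∃ k l, K ≤ k ∧ K ≤ l ∧ NCone g.1 (w ++ zw k) (w ++ zw l) := by
  obtain ⟨n, hn⟩ := g.2
  obtain ⟨v, hv⟩ := NCL.of_length hn (w ++ zw n) (by simp)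
  obtain ⟨k, l, hkl⟩ : ∃ k l, NCone g.1 (w ++ zw (d := d) k) (w ++ zw (d := d) l) := by
    have h1 := hv.append (zw (w.length))
    rw [List.append_assoc, ← zw_add] at h1
    refine ⟨n + w.length, (v ++ zw w.length).length - w.length, ?_⟩
    have h2 : app (v ++ zw w.length) [] = app w [] := by
      rw [← h1 [], app_append, app_zw_nil, hg]
    obtain ⟨y, hy, hy'⟩ := app_prefix h2.symm (by simp)
    have hyz : y = zw y.length := by
      clear hy h2 h1 hv
      induction y with
      | nil => rfl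
      | cons b y ih =>
        rcases b with _ | b
        · rw [List.length_cons, zw_succ]
          congr 1
          apply ih
          rw [app_cons] at hy'
          rcases h : app y [] with _ | ⟨i, z⟩
          · rfl
          · rw [h, bz_none_cons] at hy'
            simp at hy'
        · rw [app_cons, bz_some] at hy'
          simp at hy'
    have h3 : (v ++ zw w.length).length - w.length = y.length := by
      rw [hy, List.length_append]
      omega
    rw [h3, ← hyz, ← hy]
    exact h1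
  refine ⟨k + K, l + K, by omega, by omega, ?_⟩
  have := hkl.append (zw K)
  rwa [List.append_assoc, List.append_assoc, ← zw_add, ← zw_add] at this

/-- A clopen set contains a small cone around each of its points. -/
lemma Clo.exists_zw {U : Set Dy} (hU : Clo d U) {w : List (Ch d)} (h : app w [] ∈ U) :
    ∃ K, ∀ k, K ≤ k → ∀ z, app (w ++ zw k) z ∈ U := by
  obtain ⟨l, hl⟩ := hU
  refine ⟨l, fun k hk => ?_⟩
  rcases Clo.ge hl (w ++ zw k) (by simp; omega) with h' | h'
  · exact h'
  · exfalso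
    apply h' []
    rw [app_append, app_zw_nil]
    exact h

/-- The generation lemma for two-point stabilizers. -/
theorem stab_two_le {C1 C2 : Set Dy} (h1 : Clo d C1) (h2 : Clo d C2) (h : (C1 ∩ C2).Nonempty)
    (hC : C1 ∪ C2 = Set.univ) {w1 w2 : List (Ch d)} (hx1 : app w1 [] ∈ C1)
    (hx2 : app w1 [] ∉ C2) (hy1 : app w2 [] ∉ C1) (hy2 : app w2 [] ∈ C2) :
    stabilizer (VN d) (app w1 [] : Dy) ⊓ stabilizer (VN d) (app w2 [] : Dy) =
      (Vs d C1 ⊓ stabilizer (VN d) (app w1 [] : Dy)) ⊔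
        (Vs d C2 ⊓ stabilizer (VN d) (app w2 [] : Dy)) := by
  apply le_antisymm
  · rintro g ⟨hgx, hgy⟩
    have hgx' : g.1 (app w1 []) = app w1 [] := hgx
    have hgy' : g.1 (app w2 []) = app w2 [] := hgy
    set H := (Vs d C1 ⊓ stabilizer (VN d) (app w1 [] : Dy)) ⊔
        (Vs d C2 ⊓ stabilizer (VN d) (app w2 [] : Dy)) with hH
    obtain ⟨K1, hK1⟩ := (h1.diff h2).exists_zw (w := w1) ⟨hx1, hx2⟩
    obtain ⟨K2, hK2⟩ := (h2.diff h1).exists_zw (w := w2) ⟨hy2, hy1⟩
    obtain ⟨k1, l1, hk1, hl1, hg1⟩ := exists_germ g w1 hgx' K1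
    obtain ⟨k2, l2, hk2, hl2, hg2⟩ := exists_germ g w2 hgy' K2
    obtain ⟨q, hq1, hq2⟩ := h
    -- corrections
    obtain ⟨a, ha, haC⟩ := exists_transport_in h1 (IsP.single (w1 ++ zw k1))
      (IsP.single (w1 ++ zw l1)) (by rintro _ ⟨z, rfl⟩; exact (hK1 k1 hk1 z).1)
      (by rintro _ ⟨z, rfl⟩; exact (hK1 l1 hl1 z).1)
      ⟨q, hq1, by rintro ⟨z, rfl⟩; exact (hK1 k1 hk1 z).2 hq2⟩
      ⟨q, hq1, by rintro ⟨z, rfl⟩; exact (hK1 l1 hl1 z).2 hq2⟩
    obtain ⟨b, hb, hbC⟩ := exists_transport_in h2 (IsP.single (w2 ++ zw k2))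
      (IsP.single (w2 ++ zw l2)) (by rintro _ ⟨z, rfl⟩; exact (hK2 k2 hk2 z).1)
      (by rintro _ ⟨z, rfl⟩; exact (hK2 l2 hl2 z).1)
      ⟨q, hq2, by rintro ⟨z, rfl⟩; exact (hK2 k2 hk2 z).2 hq1⟩
      ⟨q, hq2, by rintro ⟨z, rfl⟩; exact (hK2 l2 hl2 z).2 hq1⟩
    have ha0 := ha 0
    have hb0 := hb 0
    have hax : a.1 (app w1 []) = app w1 [] := by
      have := ha0 []
      rwa [app_append, app_append, app_zw_nil, app_zw_nil] at this
    have hby : b.1 (app w2 []) = app w2 [] := by
      have := hb0 []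
      rwa [app_append, app_append, app_zw_nil, app_zw_nil] at this
    have haH : a ∈ H := Subgroup.mem_sup_left ⟨haC, hax⟩
    have hbH : b ∈ H := Subgroup.mem_sup_right ⟨hbC, hby⟩
    have hfin : a⁻¹ * b⁻¹ * g ∈ H := by
      -- it is supported in the union of two smaller sets
      have hsub : a⁻¹ * b⁻¹ * g ∈ Vs d ((C1 \ Set.range (app (w1 ++ zw k1))) ∪
          (C2 \ Set.range (app (w2 ++ zw k2)))) := by
        intro z hz
        change a.1.symm (b.1.symm (g.1 z)) = z
        have hzC : z ∈ C1 ∪ C2 := by rw [hC]; trivial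
        have hz' : z ∈ Set.range (app (w1 ++ zw (d := d) k1)) ∪
            Set.range (app (w2 ++ zw (d := d) k2)) := by
          by_contra hcon
          rw [Set.mem_union, not_or] at hcon
          rcases hzC with h | h
          · exact hz (Or.inl ⟨h, hcon.1⟩)
          · exact hz (Or.inr ⟨h, hcon.2⟩)
        rcases hz' with ⟨z', rfl⟩ | ⟨z', rfl⟩
        · rw [hg1, Equiv.symm_apply_eq, Equiv.symm_apply_eq, ha0, hbC]
          exact (hK1 l1 hl1 z').2
        · rw [hg2, Equiv.symm_apply_eq, Equiv.symm_apply_eq, haC, hb0]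
          exact (hK2 k2 hk2 z').2
      have hle := Vs_union_le (h1.diff (Clo.cone (w1 ++ zw k1)))
        (h2.diff (Clo.cone (w2 ++ zw k2))) ⟨q, ⟨hq1, by
          rintro ⟨z, rfl⟩
          exact (hK1 k1 hk1 z).2 hq2⟩, ⟨hq2, by
          rintro ⟨z, rfl⟩
          exact (hK2 k2 hk2 z).2 hq1⟩⟩
      refine (hle.trans ?_) hsub
      apply sup_le
      · refine le_trans ?_ (le_sup_left)
        apply le_inf (Vs_mono Set.sdiff_subset)
        intro t ht
        apply ht
        rintro ⟨-, hcon⟩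
        exact hcon ⟨[], by rw [app_append, app_zw_nil]⟩
      · refine le_trans ?_ (le_sup_right)
        apply le_inf (Vs_mono Set.sdiff_subset)
        intro t ht
        apply ht
        rintro ⟨-, hcon⟩
        exact hcon ⟨[], by rw [app_append, app_zw_nil]⟩
    have := mul_mem (mul_mem hbH haH) hfin
    have e : b * a * (a⁻¹ * b⁻¹ * g) = g := by group
    rwa [e] at this
  · apply sup_le
    · rintro g ⟨hg, hg'⟩
      exact ⟨hg', hg _ hy1⟩
    · rintro g ⟨hg, hg'⟩
      exact ⟨hg _ hx2, hg'⟩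

end Two

section Final

variable {d : ℕ} [NeZero d]

/-- The cone of `w` without the child `some 0`. -/
lemma isP_pierced (w : List (Ch d)) :
    IsP (fun c : {c : Ch d // c ≠ some 0} => w ++ [c.1])
      (Set.range (app w) \ Set.range (app (w ++ [some 0]))) where
  inj := by
    rintro ⟨c, hc⟩ ⟨c', hc'⟩ z z' h
    simp only [app_append] at h
    exact Subtype.ext (bz_inj (app_inj h)).1
  ran z := by
    constructor
    · rintro ⟨⟨z', rfl⟩, h⟩
      obtain ⟨c, z'', rfl⟩ := bz_surj (d := d) z'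
      refine ⟨⟨c, ?_⟩, z'', by rw [app_append]; rfl⟩
      rintro rfl
      exact h ⟨z'', by rw [app_append]; rfl⟩
    · rintro ⟨⟨c, hc⟩, z', rfl⟩
      refine ⟨⟨app [c] z', by rw [app_append]⟩, ?_⟩
      rintro ⟨z'', h⟩
      simp only [app_append] at h
      exact hc (bz_inj (app_inj h)).1.symm

/-- The complement of a pierced cone is of class one. -/
lemma exists_isP_pierced (w : List (Ch d)) : ∃ n, ∃ u : Fin n → List (Ch d),
    IsP u (Set.range (app w) \ Set.range (app (w ++ [some 0])))ᶜ ∧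
      Nat.card (Fin n) ≡ 1 [MOD d] := by
  have h := isP_pierced w
  obtain ⟨n, u, hu⟩ := h.clo.compl.exists_isP
  refine ⟨n, u, hu, ?_⟩
  have h1 := h.card_compl hu
  have h2 : Nat.card {c : Ch d // c ≠ some 0} = d := by
    rw [Nat.card_eq_fintype_card]
    simp
  rw [h2] at h1
  have h3 : d + Nat.card (Fin n) ≡ Nat.card (Fin n) [MOD d] := by
    simp [Nat.ModEq]
  exact h3.symm.trans h1

variable (d) in
/-- The two-point stabilizer is finitely generated. -/
theorem two_stab_fg (hfg : (stabilizer (VN d) ([] : Dy)).FG) :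
    (stabilizer (VN d) ([] : Dy) ⊓ stabilizer (VN d) ([0] : Dy)).FG := by
  obtain ⟨n1, u1, hu1, hn1⟩ := exists_isP_pierced [(some 0 : Ch d)]
  obtain ⟨n2, u2, hu2, hn2⟩ := exists_isP_pierced [(none : Ch d)]
  have x1 : ([] : Dy) ∉ Set.range (app [(some 0 : Ch d)]) := by
    rintro ⟨z, h⟩
    simp at h
  have x2 : ([] : Dy) ∈ Set.range (app [(none : Ch d)]) := ⟨[], rfl⟩
  have x3 : ([] : Dy) ∉ Set.range (app ([(none : Ch d)] ++ [some 0])) := by
    rintro ⟨z, h⟩
    simp at h
  have y1 : ([0] : Dy) ∈ Set.range (app [(some 0 : Ch d)]) := ⟨[], by simp⟩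
  have y2 : ([0] : Dy) ∉ Set.range (app ([(some 0 : Ch d)] ++ [some 0])) := by
    rintro ⟨z, h⟩
    simp at h
  have y3 : ([0] : Dy) ∉ Set.range (app [(none : Ch d)]) := by
    rintro ⟨z, h⟩
    rcases z with _ | ⟨i, z⟩
    · simp at h
    · have := Nat.pos_of_neZero d
      simp at h
      omega
  have hdj : ∀ z z' : Dy, app [(none : Ch d)] z ≠ app [(some 0 : Ch d)] z' := by
    intro z z' h
    have := (bz_inj (show bz none z = bz (some 0) z' from h)).1
    simp at this
  obtain ⟨ψ1, -, hψ1⟩ := exists_embed hu1 hn1 (x := []) ⟨[0], fun h => h ⟨y1, y2⟩⟩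
    (fun h => x1 h.1)
  obtain ⟨ψ2, -, hψ2⟩ := exists_embed hu2 hn2 (x := [0]) ⟨[], fun h => h ⟨x2, x3⟩⟩
    (fun h => y3 h.1)
  have e1 : app (d := d) [] [] = ([] : Dy) := rfl
  have e2 : app [(some 0 : Ch d)] [] = ([0] : Dy) := by simp
  have key := stab_two_le (d := d) hu1.clo hu2.clo ⟨app ([(none : Ch d)] ++ [some 0]) [], by
      rintro ⟨⟨z, h⟩, -⟩
      rw [app_append] at h
      exact hdj _ _ h.symm, by
      rintro ⟨-, h⟩
      exact h ⟨[], rfl⟩⟩ (by
      rw [Set.eq_univ_iff_forall]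
      intro z
      by_contra hcon
      rw [Set.mem_union, not_or, Set.notMem_compl_iff, Set.notMem_compl_iff] at hcon
      obtain ⟨⟨⟨z', rfl⟩, -⟩, ⟨⟨z'', h⟩, -⟩⟩ := hcon
      exact hdj _ _ h) (w1 := []) (w2 := [some 0]) (by
      rw [e1]; exact fun h => x1 h.1) (by
      rw [e1]; exact fun h => h ⟨x2, x3⟩) (by
      rw [e2]; exact fun h => h ⟨y1, y2⟩) (by
      rw [e2]; exact fun h => y3 h.1)
  rw [e1, e2] at key
  rw [key, ← hψ1, ← hψ2]
  exact Subgroup.FG.sup (fg_mapN hfg _) (fg_mapN hfg _)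

lemma fg_of_fp_subgroup {G : Type*} [Group G] {K : Subgroup G}
    (h : Group.IsFinitelyPresented K) : K.FG := by
  rw [← Group.fg_iff_subgroup_fg]
  obtain ⟨n, φ, hφ, -⟩ := h.out
  exact Group.fg_of_surjective hφ

variable (d) in
/-- The Higman-Thompson group is finitely presented, if the stabilizer of the base point is. -/
theorem VN_fp_of (h0 : Group.IsFinitelyPresented (stabilizer (VN d) ([] : Dy))) :
    Group.IsFinitelyPresented (VN d) := by
  have hK := two_stab_fg d (fg_of_fp_subgroup h0)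
  obtain ⟨s, hs0, hs1⟩ := VN.two d (a := []) (b := [0]) (c := [0]) (e := []) (by simp) (by simp)
  obtain ⟨t, ht0, ht1⟩ := VN.two d (a := []) (b := [0]) (c := []) (e := [1]) (by simp) (by simp)
  refine Helper13.fp_of_stabilizer (z0 := ([] : Dy)) (z1 := [0]) (s := s) (t := t) hs0
    hs1 (by simp) h0 hK ht0 (by rw [ht1]; simp) ?_ ?_
  · intro z hz0 hz1
    obtain ⟨k, hk0, hk1, hk2⟩ := VN.three d (a := []) (b := [0]) (c := z) (a' := []) (b' := [0])
      (c' := [1]) (by simp) (Ne.symm hz0) (Ne.symm hz1) (by simp) (by simp) (by simp)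
    exact ⟨k, ⟨hk0, hk1⟩, by rw [hk2, ht1]⟩
  · intro z hz
    obtain ⟨g, hg0, hg1⟩ := VN.two d (a := []) (b := [0]) (c := []) (e := z) (by simp)
      (Ne.symm hz)
    exact ⟨g, hg0, hg1⟩

lemma fixCone_eq (u : List (Ch d)) : fixCone u = Vs d (Set.range (app u))ᶜ := by
  ext g
  constructor
  · intro h z hz
    rw [Set.mem_compl_iff, not_not] at hz
    obtain ⟨z', rfl⟩ := hz
    exact h z'
  · intro h z
    apply h
    rw [Set.mem_compl_iff, not_not]
    exact ⟨z, rfl⟩

variable (d) in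
/-- The pointwise stabilizer of a proper cone is finitely generated. -/
theorem VN_fix_fg_of (h0 : Group.IsFinitelyPresented (stabilizer (VN d) ([] : Dy)))
    (u : List (Ch d)) (hu : u ≠ []) : (fixCone u).FG := by
  have hfp := VN_fp_of d h0
  have hfg : (⊤ : Subgroup (VN d)).FG := by
    rw [← Group.fg_iff_subgroup_fg, Group.fg_iff_subgroup_fg]
    obtain ⟨n, φ, hφ, -⟩ := hfp.out
    have h1 : Group.FG (VN d) := Group.fg_of_surjective hφ
    exact h1.out
  rw [fixCone_eq]
  set C : Set Dy := (Set.range (app u))ᶜ with hCdef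
  have hCc : Cᶜ.Nonempty := ⟨app u [], by
    rw [Set.mem_compl_iff, hCdef, Set.mem_compl_iff, not_not]
    exact ⟨[], rfl⟩⟩
  have hCne : C.Nonempty := compl_cone_nonempty hu
  have hd : 1 ≤ d := Nat.pos_of_neZero d
  -- a partition into many cones
  obtain ⟨m, hm, w, hw⟩ : ∃ m, 2 ≤ m ∧ ∃ w : Fin (d * m) → List (Ch d), IsP w C := by
    obtain ⟨n, v, hv⟩ := (Clo.cone u).compl.exists_isP
    have h1 := (IsP.single u).card_compl hv
    have h2 : Nat.card (Fin n) ≡ 0 [MOD d] := by
      have : Nat.card (Fin 1) + Nat.card (Fin n) ≡ Nat.card (Fin 1) + 0 [MOD d] := by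
        simpa using h1
      exact Nat.ModEq.add_left_cancel' _ this
    obtain ⟨N, hN⟩ := hv.exists_ge hCne
    refine ⟨N + 2, by omega, hN (d * (N + 2)) ?_ ?_⟩
    · calc N ≤ 1 * (N + 2) := by omega
        _ ≤ d * (N + 2) := Nat.mul_le_mul_right _ hd
    · refine Nat.ModEq.trans ?_ h2.symm
      simp [Nat.ModEq]
  obtain ⟨m, rfl⟩ : ∃ m', m = m' + 2 := ⟨m - 2, by omega⟩
  have hmul : d * (m + 2) = d * m + 2 * d := by ring
  -- the two pieces
  have hP1 := hw.sub (fun i => i.1 < d * (m + 1) + 1)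
  have hP2 := hw.sub (fun i => d - 1 ≤ i.1)
  have hmul' : d * (m + 1) = d * m + d := by ring
  have hc1 : Nat.card {i : Fin (d * (m + 2)) // i.1 < d * (m + 1) + 1} = d * (m + 1) + 1 := by
    rw [Nat.card_eq_fintype_card, Fintype.card_subtype]
    rw [show (Finset.univ.filter fun i : Fin (d * (m + 2)) => i.1 < d * (m + 1) + 1) =
      Finset.univ.map (Fin.castLEEmb (show d * (m + 1) + 1 ≤ d * (m + 2) by omega)) by
        ext i
        simp only [Finset.mem_filter, Finset.mem_univ, true_and, Finset.mem_map]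
        constructor
        · intro h
          exact ⟨⟨i.1, h⟩, Fin.ext rfl⟩
        · rintro ⟨j, rfl⟩
          exact j.2]
    simp
  have hc2 : Nat.card {i : Fin (d * (m + 2)) // d - 1 ≤ i.1} = d * (m + 1) + 1 := by
    have e : {i : Fin (d * (m + 2)) // d - 1 ≤ i.1} ≃ Fin (d * (m + 1) + 1) :=
      { toFun := fun i => ⟨i.1.1 - (d - 1), by have := i.1.2; have := i.2; omega⟩
        invFun := fun j => ⟨⟨j.1 + (d - 1), by have := j.2; omega⟩, by simp⟩
        left_inv := by
          rintro ⟨⟨i, hi⟩, hi'⟩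
          simp only [Subtype.mk.injEq, Fin.mk.injEq]
          simp only at hi'
          omega
        right_inv := by
          rintro ⟨j, hj⟩
          simp }
    rw [Nat.card_congr e]
    simp
  have hmod : d * (m + 1) + 1 ≡ 1 [MOD d] := by simp [Nat.ModEq]
  set C1 := {z | ∃ (i : Fin (d * (m + 2))) (z' : Dy), i.1 < d * (m + 1) + 1 ∧ app (w i) z' = z}
    with hC1
  set C2 := {z | ∃ (i : Fin (d * (m + 2))) (z' : Dy), d - 1 ≤ i.1 ∧ app (w i) z' = z} with hC2
  have hsub1 : C1 ⊆ C := by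
    rintro _ ⟨i, z', -, rfl⟩
    exact hw.mem i z'
  have hsub2 : C2 ⊆ C := by
    rintro _ ⟨i, z', -, rfl⟩
    exact hw.mem i z'
  have hunion : C1 ∪ C2 = C := by
    apply Set.Subset.antisymm (Set.union_subset hsub1 hsub2)
    intro z hz
    obtain ⟨i, z', rfl⟩ := (hw.ran z).1 hz
    by_cases h : i.1 < d * (m + 1) + 1
    · exact Or.inl ⟨i, z', h, rfl⟩
    · exact Or.inr ⟨i, z', by omega, rfl⟩
  have hinter : (C1 ∩ C2).Nonempty := by
    have hi : d - 1 < d * (m + 2) := by omega
    exact ⟨app (w ⟨d - 1, hi⟩) [], ⟨⟨d - 1, hi⟩, [], by simp only; omega, rfl⟩,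
      ⟨⟨d - 1, hi⟩, [], le_refl _, rfl⟩⟩
  obtain ⟨q, hq1, hq2⟩ := hinter
  obtain ⟨ψ1, hψ1, -⟩ := exists_embed hP1 (by rw [hc1]; exact hmod)
    (hCc.mono (Set.compl_subset_compl.2 hsub1)) hq1
  obtain ⟨ψ2, hψ2, -⟩ := exists_embed hP2 (by rw [hc2]; exact hmod)
    (hCc.mono (Set.compl_subset_compl.2 hsub2)) hq2
  have key : Vs d C = Vs d C1 ⊔ Vs d C2 := by
    apply le_antisymm
    · have := Vs_union_le (d := d) hP1.clo hP2.clo ⟨q, hq1, hq2⟩
      rwa [hunion] at this
    · exact sup_le (Vs_mono hsub1) (Vs_mono hsub2)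
  rw [key, ← hψ1, ← hψ2]
  exact Subgroup.FG.sup (fg_mapN hfg _) (fg_mapN hfg _)

end Final

end Pool.Agent.BH
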