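import Pool.Agent.BH.VDefs

set_option autoImplicit false

/-!
# The pointwise stabilizer of a cone
-/

namespace Pool.Agent.BH

/-- The pointwise stabilizer of a cone. -/
def fixCone {d : ℕ} [NeZero d] (u : List (Ch d)) : Subgroup (VN d) where
  carrier := {g | ∀ z, g.1 (app u z) = app u z}
  one_mem' := fun z => rfl
  mul_mem' := by
    intro g h hg hh z
    change g.1 (h.1 (app u z)) = _
    rw [hh, hg]
  inv_mem' := by
    intro g hg z
    change g.1⁻¹ (app u z) = _
    rw [Equiv.Perm.inv_eq_iff_eq, hg]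

lemma mem_fixCone {d : ℕ} [NeZero d] {u : List (Ch d)} {g : VN d} :
    g ∈ fixCone u ↔ NCone g.1 u u := Iff.rfl

end Pool.Agent.BH
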