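import Pool.Agent.BH.VTrans

set_option autoImplicit false
set_option linter.unusedSectionVars false

/-!
# Generation of the Higman-Thompson groups by swaps, and the generation lemma
-/

namespace Pool.Agent.BH

open Equiv

section Gen

variable {d : ℕ} [NeZero d]

variable (d) in
/-- The elements supported in a set of points. -/
def Vs (C : Set Dy) : Subgroup (VN d) where
  carrier := {g | ∀ z ∉ C, g.1 z = z}
  one_mem' := fun z _ => rfl
  mul_mem' := by
    intro g h hg hh z hz
    change g.1 (h.1 z) = _
    rw [hh z hz, hg z hz]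
  inv_mem' := by
    intro g hg z hz
    change g.1⁻¹ z = _
    rw [Perm.inv_eq_iff_eq, hg z hz]

lemma mem_Vs {C : Set Dy} {g : VN d} : g ∈ Vs d C ↔ ∀ z ∉ C, g.1 z = z := Iff.rfl

lemma Vs_mono {C D : Set Dy} (h : C ⊆ D) : Vs d C ≤ Vs d D := fun _ hg z hz =>
  hg z (fun hz' => hz (h hz'))

lemma Vs.mem_iff {C : Set Dy} {g : VN d} (hg : g ∈ Vs d C) (z : Dy) : g.1 z ∈ C ↔ z ∈ C := by
  constructor
  · intro h
    by_contra hz
    rw [hg z hz] at h
    exact hz h
  · intro h
    by_contra hz
    have h1 : g.1 (g.1 z) = g.1 z := hg _ hz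
    rw [g.1.injective h1] at hz
    exact hz h

/-- `T` exchanges the disjoint cones of `u` and `v`. -/
structure IsSw (T : VN d) (u v : List (Ch d)) : Prop where
  dj : ∀ z z' : Dy, app u z ≠ app v z'
  left : NCone T.1 u v
  right : NCone T.1 v u
  out : ∀ z, (∀ z', app u z' ≠ z) → (∀ z', app v z' ≠ z) → T.1 z = z

lemma IsSw.symm {T : VN d} {u v : List (Ch d)} (h : IsSw T u v) : IsSw T v u :=
  ⟨fun z z' e => h.dj z' z e.symm, h.right, h.left, fun z h1 h2 => h.out z h2 h1⟩

lemma exists_isSw {u v : List (Ch d)} (h : ∀ z z' : Dy, app u z ≠ app v z') :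
    ∃ T : VN d, IsSw T u v := by
  obtain ⟨T, h1, h2, h3⟩ := exists_swap h
  refine ⟨T, h, h1, h2, fun z hz hz' => h3 z ?_⟩
  rintro (⟨z', rfl⟩ | ⟨z', rfl⟩)
  · exact hz z' rfl
  · exact hz' z' rfl

lemma IsSw.unique {T T' : VN d} {u v : List (Ch d)} (h : IsSw T u v) (h' : IsSw T' u v) :
    T = T' := by
  apply Subtype.ext
  ext1 z
  by_cases h1 : ∃ z', app u z' = z
  · obtain ⟨z', rfl⟩ := h1
    rw [h.left, h'.left]
  by_cases h2 : ∃ z', app v z' = z
  · obtain ⟨z', rfl⟩ := h2
    rw [h.right, h'.right]
  push Not at h1 h2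
  rw [h.out z h1 h2, h'.out z h1 h2]

lemma IsSw.mul_self {T : VN d} {u v : List (Ch d)} (h : IsSw T u v) : T * T = 1 := by
  apply Subtype.ext
  ext1 z
  change T.1 (T.1 z) = z
  by_cases h1 : ∃ z', app u z' = z
  · obtain ⟨z', rfl⟩ := h1
    rw [h.left, h.right]
  by_cases h2 : ∃ z', app v z' = z
  · obtain ⟨z', rfl⟩ := h2
    rw [h.right, h.left]
  push Not at h1 h2
  rw [h.out z h1 h2, h.out z h1 h2]

lemma IsSw.mem_Vs {T : VN d} {u v : List (Ch d)} (h : IsSw T u v) {C : Set Dy}
    (hu : ∀ z, app u z ∈ C) (hv : ∀ z, app v z ∈ C) : T ∈ Vs d C := by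
  intro z hz
  apply h.out
  · rintro z' rfl
    exact hz (hu z')
  · rintro z' rfl
    exact hz (hv z')

/-- A swap is the product of the swaps of the children. -/
lemma IsSw.mem_of_children {H : Subgroup (VN d)} {T : VN d} {u v : List (Ch d)} (h : IsSw T u v)
    (hH : ∀ (c : Ch d) (T' : VN d), IsSw T' (u ++ [c]) (v ++ [c]) → T' ∈ H) : T ∈ H := by
  classical
  have key : ∀ s : Finset (Ch d), ∃ T' ∈ H,
      (∀ c ∈ s, NCone T'.1 (u ++ [c]) (v ++ [c]) ∧ NCone T'.1 (v ++ [c]) (u ++ [c])) ∧
      ∀ z, (∀ c ∈ s, ∀ z', app (u ++ [c]) z' ≠ z ∧ app (v ++ [c]) z' ≠ z) → T'.1 z = z := by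
    intro s
    induction s using Finset.induction_on with
    | empty => exact ⟨1, one_mem _, fun c hc => absurd hc (Finset.notMem_empty c), fun z _ => rfl⟩
    | insert c s hc ih =>
      obtain ⟨T1, hT1, h1, h2⟩ := ih
      obtain ⟨T2, hT2⟩ := exists_isSw (d := d) (u := u ++ [c]) (v := v ++ [c]) (by
        intro z z' e
        rw [app_append, app_append] at e
        exact h.dj _ _ e)
      have huc : ∀ c' ∈ s, ∀ z z', app (u ++ [c']) z ≠ app (u ++ [c]) z' := by
        intro c' hc' z z' e
        rw [app_append, app_append] at e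
        have := (bz_inj (app_inj e)).1
        exact hc (this ▸ hc')
      have hvc : ∀ c' ∈ s, ∀ z z', app (v ++ [c']) z ≠ app (v ++ [c]) z' := by
        intro c' hc' z z' e
        rw [app_append, app_append] at e
        have := (bz_inj (app_inj e)).1
        exact hc (this ▸ hc')
      have huv : ∀ (c c' : Ch d) (z z' : Dy), app (u ++ [c]) z ≠ app (v ++ [c']) z' := by
        intro c c' z z' e
        rw [app_append, app_append] at e
        exact h.dj _ _ e
      refine ⟨T1 * T2, mul_mem hT1 (hH c T2 hT2), ?_, ?_⟩
      · intro c' hc'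
        rw [Finset.mem_insert] at hc'
        rcases hc' with rfl | hc'
        · constructor
          · intro z
            change T1.1 (T2.1 _) = _
            rw [hT2.left]
            apply h2
            intro c'' hc'' z'
            exact ⟨huv _ _ _ _, fun e => hvc c'' hc'' _ _ e⟩
          · intro z
            change T1.1 (T2.1 _) = _
            rw [hT2.right]
            apply h2
            intro c'' hc'' z'
            exact ⟨fun e => huc c'' hc'' _ _ e, fun e => huv _ _ _ _ e.symm⟩
        · constructor
          · intro z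
            change T1.1 (T2.1 _) = _
            rw [hT2.out]
            · exact (h1 c' hc').1 z
            · intro z' e
              exact huc c' hc' _ _ e.symm
            · intro z' e
              exact huv _ _ _ _ e.symm
          · intro z
            change T1.1 (T2.1 _) = _
            rw [hT2.out]
            · exact (h1 c' hc').2 z
            · intro z' e
              exact huv _ _ _ _ e
            · intro z' e
              exact hvc c' hc' _ _ e.symm
      · intro z hz
        change T1.1 (T2.1 _) = _
        rw [hT2.out]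
        · apply h2
          intro c' hc'
          exact hz c' (Finset.mem_insert_of_mem hc')
        · intro z'
          exact (hz c (Finset.mem_insert_self _ _) z').1
        · intro z'
          exact (hz c (Finset.mem_insert_self _ _) z').2
  obtain ⟨T', hT', h1, h2⟩ := key Finset.univ
  have : T = T' := by
    apply Subtype.ext
    ext1 z
    by_cases hz1 : ∃ z', app u z' = z
    · obtain ⟨z', rfl⟩ := hz1
      obtain ⟨c, z'', rfl⟩ := bz_surj (d := d) z'
      have e : ∀ w : List (Ch d), app w (bz c z'') = app (w ++ [c]) z'' := fun w => by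
        rw [app_append]
        rfl
      rw [h.left, e, e, (h1 c (Finset.mem_univ c)).1]
    by_cases hz2 : ∃ z', app v z' = z
    · obtain ⟨z', rfl⟩ := hz2
      obtain ⟨c, z'', rfl⟩ := bz_surj (d := d) z'
      have e : ∀ w : List (Ch d), app w (bz c z'') = app (w ++ [c]) z'' := fun w => by
        rw [app_append]
        rfl
      rw [h.right, e, e, (h1 c (Finset.mem_univ c)).2]
    push Not at hz1 hz2
    rw [h.out z hz1 hz2, h2]
    intro c _ z'
    rw [app_append, app_append]
    exact ⟨hz1 _, hz2 _⟩
  rw [this]
  exact hT'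

/-- The swaps of short cones are products of swaps of long cones. -/
lemma IsSw.mem_of_long {H : Subgroup (VN d)} {C : Set Dy} {K : ℕ}
    (hH : ∀ (T : VN d) (u v : List (Ch d)), K ≤ u.length → K ≤ v.length →
      (∀ z, app u z ∈ C) → (∀ z, app v z ∈ C) → IsSw T u v → T ∈ H) (n : ℕ) :
    ∀ (T : VN d) (u v : List (Ch d)), K ≤ u.length + n → K ≤ v.length + n →
      (∀ z, app u z ∈ C) → (∀ z, app v z ∈ C) → IsSw T u v → T ∈ H := by
  induction n with
  | zero => exact fun T u v h1 h2 => hH T u v h1 h2
  | succ n ih =>
    intro T u v h1 h2 h3 h4 h5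
    apply h5.mem_of_children
    intro c T' hT'
    apply ih T' _ _ _ _ _ _ hT'
    · rw [List.length_append, List.length_singleton]; omega
    · rw [List.length_append, List.length_singleton]; omega
    · intro z
      rw [app_append]
      exact h3 _
    · intro z
      rw [app_append]
      exact h4 _

/-- A partition with the same number of cones as the partition in words of length `k` is that
partition, or has a longer and a shorter cone. -/
lemma IsP.dichotomy {C : Set Dy} {k : ℕ} [Fintype {w : List (Ch d) // w.length = k ∧ ∀ z, app w z ∈ C}]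
    (hk : ∀ u : List (Ch d), u.length = k → (∀ z, app u z ∈ C) ∨ (∀ z, app u z ∉ C))
    {v : {w : List (Ch d) // w.length = k ∧ ∀ z, app w z ∈ C} → List (Ch d)} (hv : IsP v C) :
    (∀ w, (v w).length = k) ∨ ((∃ w, (v w).length < k) ∧ ∃ w, k < (v w).length) := by
  classical
  obtain ⟨K, hK⟩ := exists_bound v
  have h1 := hv.card_depth_eq (k := K + k) (fun i => by have := hK i; omega)
  have h2 := (Clo.isP_depth hk).card_depth_eq (k := K + k) (fun i => by have := i.2.1; omega)
  have h3 : ∑ i, (d + 1) ^ (K + k - (v i).length) =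
      ∑ i : {w : List (Ch d) // w.length = k ∧ ∀ z, app w z ∈ C}, (d + 1) ^ (K + k - i.1.length) := by
    rw [← h1, ← h2]
  have hd : 1 < d + 1 := by have := Nat.pos_of_neZero d; omega
  by_cases hA : ∀ w, k ≤ (v w).length
  · left
    have := (Finset.sum_eq_sum_iff_of_le (s := Finset.univ)
      (f := fun i => (d + 1) ^ (K + k - (v i).length))
      (g := fun i : {w : List (Ch d) // w.length = k ∧ ∀ z, app w z ∈ C} =>
        (d + 1) ^ (K + k - i.1.length)) (fun i _ => by
          apply Nat.pow_le_pow_right (by omega)
          have := i.2.1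
          have := hA i
          omega)).1 h3
    intro w
    have h4 := this w (Finset.mem_univ w)
    have h5 := Nat.pow_right_injective hd h4
    have := w.2.1
    have := hK w
    omega
  by_cases hB : ∀ w, (v w).length ≤ k
  · left
    have := (Finset.sum_eq_sum_iff_of_le (s := Finset.univ)
      (g := fun i => (d + 1) ^ (K + k - (v i).length))
      (f := fun i : {w : List (Ch d) // w.length = k ∧ ∀ z, app w z ∈ C} =>
        (d + 1) ^ (K + k - i.1.length)) (fun i _ => by
          apply Nat.pow_le_pow_right (by omega)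
          have := i.2.1
          have := hB i
          omega)).1 h3.symm
    intro w
    have h4 := this w (Finset.mem_univ w)
    have h5 := Nat.pow_right_injective hd h4
    have := w.2.1
    have := hK w
    omega
  push Not at hA hB
  exact Or.inr ⟨hA, hB⟩

/-- The elements supported in a clopen set are products of swaps of long cones. -/
theorem Vs_le_of_swaps {C : Set Dy} (hC : Clo d C) (H : Subgroup (VN d)) (K : ℕ)
    (hH : ∀ (T : VN d) (u v : List (Ch d)), K ≤ u.length → K ≤ v.length →
      (∀ z, app u z ∈ C) → (∀ z, app v z ∈ C) → IsSw T u v → T ∈ H) : Vs d C ≤ H := by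
  classical
  have hH' : ∀ (T : VN d) (u v : List (Ch d)), (∀ z, app u z ∈ C) → (∀ z, app v z ∈ C) →
      IsSw T u v → T ∈ H := fun T u v => IsSw.mem_of_long hH K T u v (by omega) (by omega)
  intro g0 hg0
  obtain ⟨k1, hk1⟩ := hC
  obtain ⟨k2, hk2⟩ := g0.2
  obtain ⟨k, hkk⟩ : ∃ k, k = k1 + k2 := ⟨_, rfl⟩
  have hk : ∀ u : List (Ch d), u.length = k → (∀ z, app u z ∈ C) ∨ (∀ z, app u z ∉ C) :=
    fun u hu => Clo.ge hk1 u (by omega)
  have hg0k : ∀ u : List (Ch d), u.length = k → NCL g0.1 u := fun u hu =>
    NCL.of_length hk2 u (by omega)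
  have hfin := finite_words (d := d) k (fun u => ∀ z, app u z ∈ C)
  have := Fintype.ofFinite {w : List (Ch d) // w.length = k ∧ ∀ z, app w z ∈ C}
  have hW := Clo.isP_depth hk
  -- permutations
  have hperm : ∀ σ : Perm {w : List (Ch d) // w.length = k ∧ ∀ z, app w z ∈ C},
      ∀ g ∈ Vs d C, (∀ w, NCone g.1 w.1 (σ w).1) → g ∈ H := by
    intro σ
    induction σ using Equiv.Perm.swap_induction_on with
    | one =>
      intro g hg hgw
      have : g = 1 := by
        apply Subtype.ext
        ext1 z
        by_cases hz : z ∈ C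
        · obtain ⟨w, z', rfl⟩ := (hW.ran z).1 hz
          exact hgw w z'
        · exact hg z hz
      rw [this]
      exact one_mem _
    | swap_mul f x y hxy ih =>
      intro g hg hgw
      have hne : ∀ (a b : {w : List (Ch d) // w.length = k ∧ ∀ z, app w z ∈ C}), a ≠ b →
          ∀ z z' : Dy, app a.1 z ≠ app b.1 z' := fun a b hab z z' e => hab (hW.inj e)
      obtain ⟨T, hT⟩ := exists_isSw (d := d) (hne x y hxy)
      have hTH : T ∈ H := hH' T _ _ x.2.2 y.2.2 hT
      have hTC : T ∈ Vs d C := hT.mem_Vs x.2.2 y.2.2
      have h1 : T * g ∈ H := by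
        apply ih (T * g) (mul_mem hTC hg)
        intro w z
        change T.1 (g.1 (app w.1 z)) = _
        rw [hgw w z, Perm.mul_apply]
        by_cases h1 : f w = x
        · rw [h1, swap_apply_left, hT.right]
        by_cases h2 : f w = y
        · rw [h2, swap_apply_right, hT.left]
        rw [swap_apply_of_ne_of_ne h1 h2, hT.out]
        · exact fun z' => hne _ _ (Ne.symm h1) _ _
        · exact fun z' => hne _ _ (Ne.symm h2) _ _
      have := mul_mem (inv_mem hTH) h1
      rwa [inv_mul_cancel_left] at this
  -- main induction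
  have key : ∀ N : ℕ, ∀ g ∈ Vs d C,
      ∀ v : {w : List (Ch d) // w.length = k ∧ ∀ z, app w z ∈ C} → List (Ch d),
      (∀ w, NCone g.1 w.1 (v w)) → ∑ w, (v w).length = N → g ∈ H := by
    intro N
    induction N using Nat.strong_induction_on with
    | _ N ih =>
    intro g hg v hgv hN
    have hv : IsP v C := by
      constructor
      · intro i j z z' e
        rw [← hgv, ← hgv] at e
        exact hW.inj (g.1.injective e)
      · intro z
        constructor
        · intro hz
          obtain ⟨w, z', h⟩ := (hW.ran _).1 ((Vs.mem_iff (inv_mem hg) z).2 hz)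
          refine ⟨w, z', ?_⟩
          rw [← hgv, h]
          exact g.1.apply_symm_apply z
        · rintro ⟨w, z', rfl⟩
          rw [← hgv, Vs.mem_iff hg]
          exact w.2.2 z'
    rcases IsP.dichotomy hk hv with hA | ⟨⟨w0, hw0⟩, ⟨w1', hw1'⟩⟩
    · have hσ : Function.Injective (fun w => (⟨v w, hA w, hv.mem w⟩ :
          {w : List (Ch d) // w.length = k ∧ ∀ z, app w z ∈ C})) := by
        intro a b hab
        have : v a = v b := congrArg Subtype.val hab
        apply hv.inj (z := []) (z' := [])
        rw [this]
      exact hperm (Equiv.ofBijective _ (Finite.injective_iff_bijective.1 hσ)) g hg hgv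
    · have : Nonempty {w : List (Ch d) // w.length = k ∧ ∀ z, app w z ∈ C} := ⟨w0⟩
      obtain ⟨w1, hw1⟩ := Finite.exists_max (fun w => (v w).length)
      have hL : k < (v w1).length := lt_of_lt_of_le hw1' (hw1 w1')
      obtain ⟨p, c1, hp⟩ : ∃ p c, v w1 = p ++ [c] := by
        rcases List.eq_nil_or_concat (v w1) with h | ⟨p, c, h⟩
        · rw [h] at hL
          simp at hL
        · exact ⟨p, c, by simpa using h⟩
      have hpl : (v w1).length = p.length + 1 := by rw [hp]; simp
      have hpC : ∀ z, app p z ∈ C := by
        rcases Clo.ge hk p (by omega) with h | h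
        · exact h
        · exfalso
          have := hv.mem w1 []
          rw [hp, app_append] at this
          exact h _ this
      have hf : ∀ c : Ch d, ∃ w, v w = p ++ [c] := by
        intro c
        obtain ⟨w, z', h⟩ := (hv.ran _).1 (hpC (app [c] []))
        rw [← app_append] at h
        obtain ⟨x, hx, -⟩ := app_prefix h (by
          have := hw1 w
          rw [List.length_append, List.length_singleton]
          omega)
        rcases List.eq_nil_or_concat x with h' | ⟨y, c', h'⟩
        · subst h'
          exact ⟨w, by simpa using hx.symm⟩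
        · exfalso
          have h2 : p = v w ++ y := by
            have h3 : p ++ [c] = (v w ++ y) ++ [c'] := by
              rw [hx, h']
              simp
            exact (List.append_inj' h3 rfl).1
          have h4 : w1 = w := by
            apply hv.inj (z := []) (z' := app (y ++ [c1]) [])
            rw [hp, h2, ← app_append, List.append_assoc]
          subst h4
          have h5 := congrArg List.length h2
          rw [List.length_append] at h5
          omega
      choose f hf using hf
      have hfinj : Function.Injective f := by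
        intro a b hab
        have : p ++ [a] = p ++ [b] := by rw [← hf a, ← hf b, hab]
        simpa using this
      have hf0 : ∀ c, f c ≠ w0 := by
        intro c e
        have h1 := hf c
        rw [e] at h1
        have h2 := congrArg List.length h1
        rw [List.length_append, List.length_singleton] at h2
        omega
      have hdj : ∀ z z', app p z ≠ app (v w0) z' := by
        intro z z' e
        obtain ⟨c, z'', rfl⟩ := bz_surj (d := d) z
        have h1 : app (v (f c)) z'' = app (v w0) z' := by
          rw [hf, app_append, ← e]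
          rfl
        exact hf0 c (hv.inj h1)
      obtain ⟨T, hT⟩ := exists_isSw (d := d) hdj
      have hTH : T ∈ H := hH' T _ _ hpC (hv.mem w0) hT
      have hTC : T ∈ Vs d C := hT.mem_Vs hpC (hv.mem w0)
      have c1 : ∀ c, NCone (T * g).1 (f c).1 (v w0 ++ [c]) := by
        intro c z
        change T.1 (g.1 (app (f c).1 z)) = _
        rw [hgv, hf, app_append, hT.left, app_append]
      have c0 : NCone (T * g).1 w0.1 p := by
        intro z
        change T.1 (g.1 (app w0.1 z)) = _
        rw [hgv, hT.right]
      have c2 : ∀ w, (∀ c, w ≠ f c) → w ≠ w0 → NCone (T * g).1 w.1 (v w) := by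
        intro w h1 h2 z
        change T.1 (g.1 (app w.1 z)) = _
        rw [hgv]
        apply hT.out
        · intro z' e
          obtain ⟨c, z'', rfl⟩ := bz_surj (d := d) z'
          apply h1 c
          apply hv.inj (z := z) (z' := z'')
          rw [hf, app_append, ← e]
          rfl
        · intro z' e
          exact h2 (hv.inj e).symm
      have c3 : ∀ w : {w : List (Ch d) // w.length = k ∧ ∀ z, app w z ∈ C}, ∃ x,
          NCone (T * g).1 w.1 x := by
        intro w
        by_cases h1 : ∃ c, w = f c
        · obtain ⟨c, rfl⟩ := h1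
          exact ⟨_, c1 c⟩
        by_cases h2 : w = w0
        · subst h2
          exact ⟨_, c0⟩
        push Not at h1
        exact ⟨_, c2 w h1 h2⟩
      choose v' hv' using c3
      have e1 : ∀ c, v' (f c) = v w0 ++ [c] := fun c => (hv' _).unique (c1 c)
      have e0 : v' w0 = p := (hv' _).unique c0
      have e2 : ∀ w, (∀ c, w ≠ f c) → w ≠ w0 → v' w = v w := fun w h1 h2 =>
        (hv' _).unique (c2 w h1 h2)
      have hTg : T * g ∈ H := by
        refine ih (∑ w, (v' w).length) ?_ (T * g) (mul_mem hTC hg) v' hv' rfl
        let e : Option (Ch d) → {w : List (Ch d) // w.length = k ∧ ∀ z, app w z ∈ C} :=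
          fun o => o.elim w0 f
        have he : Function.Injective e := by
          rintro (_ | a) (_ | b) hab
          · rfl
          · exact (hf0 b hab.symm).elim
          · exact (hf0 a hab).elim
          · rw [hfinj hab]
        have hsum := Fintype.sum_of_injective e he
          (fun o => ((v (e o)).length : ℤ) - ((v' (e o)).length : ℤ))
          (fun w => ((v w).length : ℤ) - ((v' w).length : ℤ)) (by
            intro w hw
            rw [e2 w (fun c h => hw ⟨some c, h.symm⟩) (fun h => hw ⟨none, h.symm⟩), sub_self])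
          (fun _ => rfl)
        rw [Fintype.sum_option] at hsum
        have e3 : ∀ c : Ch d, ((v (e (some c))).length : ℤ) - ((v' (e (some c))).length : ℤ) =
            (p.length : ℤ) - ((v w0).length : ℤ) := by
          intro c
          change ((v (f c)).length : ℤ) - ((v' (f c)).length : ℤ) = _
          rw [e1, hf, List.length_append, List.length_append]
          simp
        have e4 : ((v (e none)).length : ℤ) - ((v' (e none)).length : ℤ) =
            ((v w0).length : ℤ) - (p.length : ℤ) := by
          change ((v w0).length : ℤ) - ((v' w0).length : ℤ) = _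
          rw [e0]
        rw [e4, Finset.sum_congr rfl (fun c _ => e3 c), Finset.sum_const, Finset.card_univ,
          Fintype.card_option, Fintype.card_fin, Finset.sum_sub_distrib, ← Nat.cast_sum,
          ← Nat.cast_sum] at hsum
        have h6 : (1 : ℤ) ≤ (p.length : ℤ) - ((v w0).length : ℤ) := by omega
        have h7 : (1 : ℤ) ≤ (d : ℤ) * ((p.length : ℤ) - ((v w0).length : ℤ)) := by
          have hd : (1 : ℤ) ≤ (d : ℤ) := by
            have := Nat.pos_of_neZero d
            omega
          nlinarith
        rw [nsmul_eq_mul] at hsum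
        push_cast at hsum
        rw [← hN]
        have h8 : ((∑ w, (v' w).length : ℕ) : ℤ) < ((∑ w, (v w).length : ℕ) : ℤ) := by
          push_cast
          linarith
        exact_mod_cast h8
      have := mul_mem (inv_mem hTH) hTg
      rwa [inv_mul_cancel_left] at this
  choose! v hv using fun w : {w : List (Ch d) // w.length = k ∧ ∀ z, app w z ∈ C} =>
    hg0k w.1 w.2.1
  exact key _ g0 hg0 v hv rfl

/-- The generation lemma. -/
theorem Vs_union_le {C1 C2 : Set Dy} (h1 : Clo d C1) (h2 : Clo d C2) (h : (C1 ∩ C2).Nonempty) :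
    Vs d (C1 ∪ C2) ≤ Vs d C1 ⊔ Vs d C2 := by
  obtain ⟨k1, hk1⟩ := h1
  obtain ⟨k2, hk2⟩ := h2
  apply Vs_le_of_swaps (Clo.union ⟨k1, hk1⟩ ⟨k2, hk2⟩) _ (k1 + k2)
  intro T u v hu hv huC hvC hT
  obtain ⟨q, hq1, hq2⟩ := h
  obtain ⟨w, z0, hw, hz0⟩ := exists_app (d := d) (k1 + k2) q
  rw [hz0] at hq1 hq2
  have hw1 : ∀ z, app w z ∈ C1 := by
    rcases Clo.ge hk1 w (by omega) with h | h
    · exact h
    · exact absurd hq1 (h _)
  have hw2 : ∀ z, app w z ∈ C2 := by
    rcases Clo.ge hk2 w (by omega) with h | h
    · exact h
    · exact absurd hq2 (h _)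
  have hu1 := Clo.ge hk1 u (by omega)
  have hu2 := Clo.ge hk2 u (by omega)
  have hv1 := Clo.ge hk1 v (by omega)
  have hv2 := Clo.ge hk2 v (by omega)
  have main : ∀ (u v : List (Ch d)), IsSw T u v → (∀ z, app u z ∈ C1) → (∀ z, app v z ∈ C2) →
      (∀ z, app u z ∉ C2) → (∀ z, app v z ∉ C1) → T ∈ Vs d C1 ⊔ Vs d C2 := by
    intro u v hT hu hv hu' hv'
    have d1 : ∀ z z' : Dy, app u z ≠ app w z' := fun z z' e => hu' z (e ▸ hw2 z')
    have d2 : ∀ z z' : Dy, app w z ≠ app v z' := fun z z' e => hv' z' (e ▸ hw1 z)
    obtain ⟨A, hA⟩ := exists_isSw (d := d) d1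
    obtain ⟨B, hB⟩ := exists_isSw (d := d) d2
    have hA1 : A ∈ Vs d C1 ⊔ Vs d C2 := Subgroup.mem_sup_left (hA.mem_Vs hu hw1)
    have hB1 : B ∈ Vs d C1 ⊔ Vs d C2 := Subgroup.mem_sup_right (hB.mem_Vs hw2 hv)
    have e : T = A * B * A := by
      apply Subtype.ext
      ext1 z
      change T.1 z = A.1 (B.1 (A.1 z))
      by_cases hz1 : ∃ z', app u z' = z
      · obtain ⟨z', rfl⟩ := hz1
        rw [hT.left, hA.left, hB.left, hA.out]
        · exact fun z'' => hT.dj _ _
        · exact fun z'' => d2 _ _
      by_cases hz2 : ∃ z', app v z' = z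
      · obtain ⟨z', rfl⟩ := hz2
        rw [hT.right, hA.out (app v z'), hB.right, hA.right]
        · exact fun z'' => hT.dj _ _
        · exact fun z'' => d2 _ _
      push Not at hz1 hz2
      by_cases hz3 : ∃ z', app w z' = z
      · obtain ⟨z', rfl⟩ := hz3
        rw [hT.out _ hz1 hz2, hA.right, hB.out, hA.left]
        · exact fun z'' => (d1 _ _).symm
        · exact fun z'' => (hT.dj _ _).symm
      · push Not at hz3
        rw [hT.out _ hz1 hz2, hA.out _ hz1 hz3, hB.out _ hz3 hz2, hA.out _ hz1 hz3]
    rw [e]
    exact mul_mem (mul_mem hA1 hB1) hA1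
  rcases hu1 with hu1 | hu1
  · rcases hv1 with hv1 | hv1
    · exact Subgroup.mem_sup_left (hT.mem_Vs hu1 hv1)
    · have hv2' : ∀ z, app v z ∈ C2 := fun z => (hvC z).resolve_left (hv1 z)
      rcases hu2 with hu2 | hu2
      · exact Subgroup.mem_sup_right (hT.mem_Vs hu2 hv2')
      · exact main u v hT hu1 hv2' hu2 hv1
  · have hu2' : ∀ z, app u z ∈ C2 := fun z => (huC z).resolve_left (hu1 z)
    rcases hv2 with hv2 | hv2
    · exact Subgroup.mem_sup_right (hT.mem_Vs hu2' hv2)
    · have hv1' : ∀ z, app v z ∈ C1 := fun z => (hvC z).resolve_right (hv2 z)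
      exact main v u hT.symm hv1' hu2' hv2 hu1

end Gen

end Pool.Agent.BH
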