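import Pool.Agent.BH.VLabDefs
import Pool.Agent.BH.VFix

set_option autoImplicit false

/-!
# The labelled group from the unlabelled one and the labels on one cone
-/

namespace Pool.Agent.BH

open Equiv Subgroup

variable {d : ℕ} [NeZero d]

lemma exists_out {u : List (Ch d)} (hu : u ≠ []) : ∃ z : Dy, ∀ z', app u z' ≠ z := by
  rcases u with _ | ⟨b, u⟩
  · exact absurd rfl hu
  · obtain ⟨c, hc⟩ : ∃ c : Ch d, c ≠ b := by
      rcases b with _ | b
      · exact ⟨some 0, by simp⟩
      · exact ⟨none, by simp⟩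
    refine ⟨bz c [], fun z' h => ?_⟩
    rw [app_cons] at h
    exact hc (bz_inj h).1.symm

lemma NCone.ne_nil {g : Perm Dy} {u v : List (Ch d)} (h : NCone g u v) (hu : u ≠ []) :
    v ≠ [] := by
  rintro rfl
  obtain ⟨z, hz⟩ := exists_out hu
  have h1 := h (g z)
  rw [app_nil] at h1
  exact hz _ (g.injective h1)

lemma NCone.inv' {g : VN d} {u v : List (Ch d)} (h : NCone g.1 u v) : NCone (g⁻¹).1 v u := by
  have := h.inv
  exact this

lemma NCone.mul' {g h : VN d} {u v w : List (Ch d)} (hg : NCone g.1 v w) (hh : NCone h.1 u v) :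
    NCone (g * h).1 u w := hg.mul hh

variable (d) in
/-- The first base word. -/
def u0 : List (Ch d) := [none, none]

variable (d) in
/-- The second base word. -/
def v0 : List (Ch d) := [none, some 0]

lemma u0_ne : u0 d ≠ [] := by simp [u0]
lemma v0_ne : v0 d ≠ [] := by simp [v0]
lemma u0_v0 : DjC (u0 d) (v0 d) := DjC.of_length rfl (by simp [u0, v0])

variable (d) in
/-- The transitivity properties of the Higman-Thompson group that we need. -/
structure TransV : Prop where
  one : ∀ u v : List (Ch d), u ≠ [] → v ≠ [] → ∃ g : VN d, NCone g.1 u v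
  two : ∀ u v : List (Ch d), u ≠ [] → v ≠ [] → DjC u v → ∀ c : Ch d,
    ∃ g : VN d, NCone g.1 (u0 d) (u ++ [c]) ∧ NCone g.1 (v0 d) v

/-- The relations of the labelled group. -/
structure Rels {P Q : Type*} [Group P] [Group Q] (i : VN d →* Q) (l : P →* Q) : Prop where
  fix : ∀ h ∈ fixCone (u0 d), ∀ a, Commute (i h) (l a)
  com : ∃ g : VN d, NCone g.1 (u0 d) (v0 d) ∧ ∀ a b, Commute (l a) (i g * l b * (i g)⁻¹)
  spl : ∃ g : Ch d → VN d, (∀ c, NCone (g c).1 (u0 d) (u0 d ++ [c])) ∧
    ∀ a, l a ∈ closure (⋃ c, Set.range fun b => i (g c) * l b * (i (g c))⁻¹)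

section Core

variable {P Q : Type*} [Group P] [Group Q] {i : VN d →* Q} {l : P →* Q} (T : TransV d)

open Classical in
/-- An element that maps the base cone to the cone of `u`. -/
noncomputable def gw (u : List (Ch d)) : VN d :=
  if h : u ≠ [] then (T.one (u0 d) u u0_ne h).choose else 1

lemma gw_spec {u : List (Ch d)} (hu : u ≠ []) : NCone (gw T u).1 (u0 d) u := by
  classical
  unfold gw
  rw [dif_pos hu]
  exact (T.one (u0 d) u u0_ne hu).choose_spec

variable (i l) in
/-- The labels on the cone of `u`. -/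
noncomputable def lam (u : List (Ch d)) : P →* Q := (MulAut.conj (i (gw T u))).toMonoidHom.comp l

lemma lam_apply (u : List (Ch d)) (a : P) :
    lam i l T u a = i (gw T u) * l a * (i (gw T u))⁻¹ := rfl

lemma lam_of (R : Rels i l) {g : VN d} {w : List (Ch d)} (h : NCone g.1 (u0 d) w) (a : P) :
    i g * l a * (i g)⁻¹ = lam i l T w a := by
  have hw : w ≠ [] := h.ne_nil u0_ne
  have h1 : (gw T w)⁻¹ * g ∈ fixCone (u0 d) := NCone.mul' (gw_spec T hw).inv' h
  have h2 := R.fix _ h1 a
  rw [lam_apply]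
  have e : g = gw T w * ((gw T w)⁻¹ * g) := by group
  have e2 : i g = i (gw T w) * i ((gw T w)⁻¹ * g) := by
    rw [← map_mul, ← e]
  rw [e2]
  have h3 : i ((gw T w)⁻¹ * g) * l a = l a * i ((gw T w)⁻¹ * g) := h2
  calc i (gw T w) * i ((gw T w)⁻¹ * g) * l a * (i (gw T w) * i ((gw T w)⁻¹ * g))⁻¹
      = i (gw T w) * (i ((gw T w)⁻¹ * g) * l a) * (i ((gw T w)⁻¹ * g))⁻¹ * (i (gw T w))⁻¹ := by
        group
    _ = _ := by rw [h3]; group

lemma lam_conj (R : Rels i l) {g : VN d} {u v : List (Ch d)} (hu : u ≠ [])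
    (h : NCone g.1 u v) (a : P) :
    i g * lam i l T u a * (i g)⁻¹ = lam i l T v a := by
  rw [← lam_of T R (g := g * gw T u) (NCone.mul' h (gw_spec T hu)) a, lam_apply, map_mul]
  group

lemma lam_u0 (R : Rels i l) (a : P) : lam i l T (u0 d) a = l a := by
  have := lam_of T R (g := 1) (w := u0 d) (NCone.one _) a
  rw [← this]
  simp

lemma lam_split (R : Rels i l) {u : List (Ch d)} (hu : u ≠ []) (a : P) :
    lam i l T u a ∈ ⨆ c : Ch d, (lam i l T (u ++ [c])).range := by
  obtain ⟨g, hg, hs⟩ := R.spl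
  have h1 := hs a
  have hle : closure (⋃ c, Set.range fun b => i (g c) * l b * (i (g c))⁻¹) ≤
      (⨆ c : Ch d, (lam i l T (u ++ [c])).range).comap
        (MulAut.conj (i (gw T u))).toMonoidHom := by
    rw [closure_le]
    rintro _ hx
    obtain ⟨c, b, rfl⟩ := Set.mem_iUnion.1 hx
    change i (gw T u) * (i (g c) * l b * (i (g c))⁻¹) * (i (gw T u))⁻¹ ∈
      (⨆ c : Ch d, (lam i l T (u ++ [c])).range)
    rw [lam_of T R (hg c) b]
    rw [lam_conj T R (by simp) ((gw_spec T hu).append [c]) b]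
    exact Subgroup.mem_iSup_of_mem c ⟨b, rfl⟩
  exact hle h1

lemma lam_comm (R : Rels i l) {u v : List (Ch d)} (hu : u ≠ []) (hv : v ≠ []) (h : DjC u v)
    (a b : P) : Commute (lam i l T u a) (lam i l T v b) := by
  have key : ∀ c a, Commute (lam i l T (u ++ [c]) a) (lam i l T v b) := by
    intro c a
    obtain ⟨g, hg1, hg2⟩ := T.two u v hu hv h c
    obtain ⟨g0, hg0, hc⟩ := R.com
    have h1 := hc a b
    rw [lam_of T R hg0, ← lam_u0 T R] at h1
    rw [← lam_conj T R u0_ne hg1, ← lam_conj T R v0_ne hg2]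
    exact (Commute.conj_iff (i g)).2 h1
  have hle : (⨆ c : Ch d, (lam i l T (u ++ [c])).range) ≤ centralizer {lam i l T v b} := by
    rw [iSup_le_iff]
    rintro c _ ⟨a, rfl⟩
    rw [mem_centralizer_singleton_iff]
    exact key c a
  have := hle (lam_split T R hu a)
  rw [mem_centralizer_singleton_iff] at this
  exact this

variable (i l) in
/-- The labels of a level. -/
noncomputable def Mk (k : ℕ) : Subgroup Q :=
  ⨆ u : {u : List (Ch d) // u.length = k}, (lam i l T u.1).range

lemma lam_mem (u : List (Ch d)) (a : P) : lam i l T u a ∈ Mk i l T u.length :=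
  Subgroup.mem_iSup_of_mem (⟨u, rfl⟩ : {v : List (Ch d) // v.length = u.length}) ⟨a, rfl⟩

lemma Mk_le_succ (R : Rels i l) (k : ℕ) : Mk i l T (k + 1) ≤ Mk i l T (k + 1 + 1) := by
  unfold Mk
  rw [iSup_le_iff]
  rintro ⟨u, hu⟩ _ ⟨a, rfl⟩
  have hne : u ≠ [] := by
    rintro rfl
    simp at hu
  refine (iSup_le (fun c => ?_) : (⨆ c : Ch d, (lam i l T (u ++ [c])).range) ≤ _)
    (lam_split T R hne a)
  exact le_iSup (fun u : {u : List (Ch d) // u.length = k + 1 + 1} => (lam i l T u.1).range)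
    ⟨u ++ [c], by simp [hu]⟩

lemma Mk_mono (R : Rels i l) : Monotone fun k => Mk i l T (k + 1) :=
  monotone_nat_of_le_succ (Mk_le_succ T R)

variable (i l) in
/-- All labels. -/
noncomputable def MM : Subgroup Q := ⨆ k, Mk i l T (k + 1)

lemma mem_MM (R : Rels i l) {x : Q} : x ∈ MM i l T ↔ ∃ k, x ∈ Mk i l T (k + 1) :=
  mem_iSup_of_directed (Mk_mono T R).directed_le

lemma lam_mem_MM {u : List (Ch d)} (hu : u ≠ []) (a : P) : lam i l T u a ∈ MM i l T := by
  have h : Mk i l T (u.length - 1 + 1) ≤ MM i l T := le_iSup (fun k => Mk i l T (k + 1)) _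
  have h2 : u.length - 1 + 1 = u.length := by
    have := List.length_pos_iff.2 hu
    omega
  rw [h2] at h
  exact h (lam_mem T u a)

lemma conj_mem (R : Rels i l) (v : VN d) {x : Q} (hx : x ∈ MM i l T) :
    i v * x * (i v)⁻¹ ∈ MM i l T := by
  obtain ⟨k, hk⟩ := (mem_MM T R).1 hx
  obtain ⟨k1, hk1⟩ := v.2
  have h1 : x ∈ Mk i l T (max k k1 + 1) := Mk_mono T R (le_max_left k k1) hk
  have hle : Mk i l T (max k k1 + 1) ≤ (MM i l T).comap (MulAut.conj (i v)).toMonoidHom := by
    unfold Mk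
    rw [iSup_le_iff]
    rintro ⟨u, hu⟩ _ ⟨a, rfl⟩
    have hne : u ≠ [] := by
      rintro rfl
      simp at hu
    obtain ⟨w, hw⟩ := NCL.of_length hk1 u (by rw [hu]; omega)
    change i v * lam i l T u a * (i v)⁻¹ ∈ MM i l T
    rw [lam_conj T R hne hw a]
    exact lam_mem_MM T (hw.ne_nil hne) a
  exact hle h1

lemma form (R : Rels i l) (hgen : closure (Set.range i ∪ Set.range l) = ⊤) (q : Q) :
    ∃ m ∈ MM i l T, ∃ v : VN d, q = m * i v := by
  have hq : q ∈ closure (Set.range i ∪ Set.range l) := by rw [hgen]; trivial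
  induction hq using closure_induction with
  | mem x hx =>
    rcases hx with ⟨v, rfl⟩ | ⟨a, rfl⟩
    · exact ⟨1, one_mem _, v, by simp⟩
    · exact ⟨l a, by rw [← lam_u0 T R]; exact lam_mem_MM T u0_ne a, 1, by simp⟩
  | one => exact ⟨1, one_mem _, 1, by simp⟩
  | mul x y _ _ hx hy =>
    obtain ⟨m, hm, v, rfl⟩ := hx
    obtain ⟨m', hm', v', rfl⟩ := hy
    exact ⟨m * (i v * m' * (i v)⁻¹), mul_mem hm (conj_mem T R v hm'), v * v', by
      rw [map_mul]; group⟩
  | inv x _ hx =>
    obtain ⟨m, hm, v, rfl⟩ := hx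
    exact ⟨i v⁻¹ * m⁻¹ * (i v⁻¹)⁻¹, conj_mem T R v⁻¹ (inv_mem hm), v⁻¹, by
      rw [map_inv]; group⟩

variable {ε : Fin d → P →* P}

lemma map_lam {φ : Q →* VL ε} (h1 : ∀ v, φ (i v) = VN.toVL v)
    (h2 : ∀ a, φ (l a) = labV ε (u0 d) a) {u : List (Ch d)} (hu : u ≠ []) (a : P) :
    φ (lam i l T u a) = labV ε u a := by
  rw [lam_apply, map_mul, map_mul, map_inv, h1, h2]
  exact toVL_labV_conj ε (gw_spec T hu) a

/-- The product of labels on a level. -/
lemma exists_Lam (R : Rels i l) (k : ℕ) :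
    ∃ Lam : ({u : List (Ch d) // u.length = k + 1} → P) →* Q,
      Lam.range = Mk i l T (k + 1) ∧ ∀ (φ : Q →* VL ε), (∀ v, φ (i v) = VN.toVL v) →
      (∀ a, φ (l a) = labV ε (u0 d) a) → ∀ b (u : {u : List (Ch d) // u.length = k + 1}),
      LCone ε (φ (Lam b)).1 u.1 u.1 (b u) := by
  classical
  have : Finite {u : List (Ch d) // u.length = k + 1} := List.finite_length_eq (Ch d) (k + 1)
  have : Fintype {u : List (Ch d) // u.length = k + 1} := Fintype.ofFinite _
  have hne : ∀ u : {u : List (Ch d) // u.length = k + 1}, u.1 ≠ [] := by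
    rintro ⟨u, hu⟩ h
    simp only at h
    subst h
    simp at hu
  have hcomm : Pairwise fun u v : {u : List (Ch d) // u.length = k + 1} =>
      ∀ x y, Commute (lam i l T u.1 x) (lam i l T v.1 y) := by
    intro u v huv x y
    exact lam_comm T R (hne u) (hne v)
      (DjC.of_length (u.2.trans v.2.symm) (fun e => huv (Subtype.ext e))) x y
  refine ⟨MonoidHom.noncommPiCoprod (fun u : {u : List (Ch d) // u.length = k + 1} =>
    lam i l T u.1) hcomm, MonoidHom.noncommPiCoprod_range _, ?_⟩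
  intro φ h1 h2 b u
  let H : Subgroup ({u : List (Ch d) // u.length = k + 1} → P) :=
    { carrier := {b | LCone ε (φ (MonoidHom.noncommPiCoprod
        (fun u : {u : List (Ch d) // u.length = k + 1} => lam i l T u.1) hcomm b)).1 u.1 u.1 (b u)}
      one_mem' := by
        change LCone ε _ u.1 u.1 1
        rw [map_one, map_one]
        exact LCone.one _
      mul_mem' := by
        intro b b' hb hb'
        change LCone ε _ u.1 u.1 (b u * b' u)
        rw [map_mul, map_mul]
        exact LCone.mul hb hb'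
      inv_mem' := by
        intro b hb
        change LCone ε _ u.1 u.1 (b u)⁻¹
        rw [map_inv, map_inv]
        exact LCone.inv hb }
  have hmem : b ∈ H := by
    apply Subgroup.pi_mem_of_mulSingle_mem
    intro v
    change LCone ε (φ (MonoidHom.noncommPiCoprod
        (fun u : {u : List (Ch d) // u.length = k + 1} => lam i l T u.1) hcomm
        (Pi.mulSingle v (b v)))).1 u.1 u.1
      ((Pi.mulSingle v (b v) : {u : List (Ch d) // u.length = k + 1} → P) u)
    rw [MonoidHom.noncommPiCoprod_mulSingle, map_lam T h1 h2 (hne v)]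
    by_cases huv : u = v
    · subst huv
      rw [Pi.mulSingle_eq_same]
      exact labV_cone ε _ _
    · rw [Pi.mulSingle_eq_of_ne huv]
      exact labV_cone_out ε (DjC.of_length (u.2.trans v.2.symm)
        (fun e => huv (Subtype.ext e))) _
  exact hmem

include T in
theorem core_injective (R : Rels i l) (hgen : closure (Set.range i ∪ Set.range l) = ⊤)
    (φ : Q →* VL ε) (h1 : ∀ v, φ (i v) = VN.toVL v) (h2 : ∀ a, φ (l a) = labV ε (u0 d) a) :
    Function.Injective φ := by
  rw [injective_iff_map_eq_one]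
  intro q hq
  obtain ⟨m, hm, v, rfl⟩ := form T R hgen q
  have hker : MM i l T ≤ ((VL.toVN ε).comp φ).ker := by
    unfold MM Mk
    rw [iSup_le_iff]
    intro k
    rw [iSup_le_iff]
    rintro ⟨u, hu⟩ _ ⟨a, rfl⟩
    rw [MonoidHom.mem_ker, MonoidHom.comp_apply, map_lam T h1 h2 (by rintro rfl; simp at hu),
      VL.toVN_labV]
  have hv : v = 1 := by
    have h3 := congrArg (VL.toVN ε) hq
    rw [map_mul, map_mul, h1, VL.toVN_toVL, map_one] at h3
    have h4 : VL.toVN ε (φ m) = 1 := hker hm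
    rwa [h4, one_mul] at h3
  subst hv
  rw [map_one, mul_one] at hq ⊢
  obtain ⟨k, hk⟩ := (mem_MM T R).1 hm
  obtain ⟨Lam, hrange, hcone⟩ := exists_Lam (ε := ε) T R k
  rw [← hrange] at hk
  obtain ⟨b, rfl⟩ := hk
  have hb : b = 1 := by
    funext u
    have h3 := hcone φ h1 h2 b u
    rw [hq] at h3
    exact (LCone.unique h3 (LCone.one _)).2
  rw [hb, map_one]

end Core

section Gen

variable {P : Type*} [Group P] (ε : Fin d → P →* P)

lemma rels_VL (T : TransV d) : Rels (VN.toVL (ε := ε)) (labV ε (u0 d)) where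
  fix h hh a := toVL_commute_labV ε hh a
  com := by
    obtain ⟨g, hg⟩ := T.one (u0 d) (v0 d) u0_ne v0_ne
    refine ⟨g, hg, fun a b => ?_⟩
    rw [toVL_labV_conj ε hg]
    exact labV_commute ε u0_v0 a b
  spl := by
    refine ⟨fun c => gw T (u0 d ++ [c]), fun c => gw_spec T (by simp), fun a => ?_⟩
    rw [labV_split]
    apply Subgroup.list_prod_mem
    intro x hx
    obtain ⟨c, -, rfl⟩ := List.mem_map.1 hx
    refine subset_closure (Set.mem_iUnion.2 ⟨c, ec ε c a, ?_⟩)
    exact toVL_labV_conj ε (gw_spec T (by simp)) _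

lemma lam_VL (T : TransV d) {u : List (Ch d)} (hu : u ≠ []) (a : P) :
    lam (VN.toVL (ε := ε)) (labV ε (u0 d)) T u a = labV ε u a :=
  map_lam T (φ := MonoidHom.id _) (fun _ => rfl) (fun _ => rfl) hu a

lemma Mk_le_closure {Q : Type*} [Group Q] (i : VN d →* Q) (l : P →* Q) (T : TransV d) (k : ℕ) :
    Mk i l T k ≤ closure (Set.range i ∪ Set.range l) := by
  unfold Mk
  rw [iSup_le_iff]
  rintro ⟨u, hu⟩ _ ⟨a, rfl⟩
  rw [lam_apply]
  refine mul_mem (mul_mem (subset_closure (Or.inl ⟨_, rfl⟩)) (subset_closure (Or.inr ⟨_, rfl⟩)))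
    (inv_mem (subset_closure (Or.inl ⟨_, rfl⟩)))

/-- The labelled group is generated by the unlabelled one and the labels on one cone. -/
theorem gen_VL (T : TransV d) :
    closure (Set.range (VN.toVL (ε := ε)) ∪ Set.range (labV ε (u0 d))) = ⊤ := by
  rw [eq_top_iff]
  intro g _
  set v := VL.toVN ε g with hv
  set m := g * (VN.toVL (ε := ε) v)⁻¹ with hm
  have hfix : ∀ z : Dy, m • z = z := by
    intro z
    have h1 : VL.toVN ε m = 1 := by
      rw [hm, map_mul, map_inv, VL.toVN_toVL, hv, mul_inv_cancel]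
    have h2 := VL.toVN_apply ε m z
    rw [h1] at h2
    exact h2.symm
  obtain ⟨k0, hk0⟩ := VL.level_of_fix ε hfix
  have hb := hk0 (k0 + 1) (by omega)
  choose! b hb using hb
  obtain ⟨Lam, hrange, hcone⟩ := exists_Lam (ε := ε) T (rels_VL ε T) k0
  have he : m = Lam (fun u => b u.1) := by
    apply VL.ext_level ε (k0 + 1)
    intro u hu
    refine ⟨u, b u, hb u hu, ?_⟩
    exact hcone (MonoidHom.id _) (fun _ => rfl) (fun _ => rfl) (fun u => b u.1) ⟨u, hu⟩
  have hmem : m ∈ closure (Set.range (VN.toVL (ε := ε)) ∪ Set.range (labV ε (u0 d))) := by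
    apply Mk_le_closure _ _ T (k0 + 1)
    rw [← hrange, he]
    exact ⟨_, rfl⟩
  have : g = m * VN.toVL (ε := ε) v := by rw [hm]; group
  rw [this]
  exact mul_mem hmem (subset_closure (Or.inl ⟨_, rfl⟩))

end Gen

end Pool.Agent.BH
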