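import Pool.Agent.BH.VDefs

set_option autoImplicit false

/-!
# Labels on a cone
-/

namespace Pool.Agent.BH

open Equiv

section Lab

variable {d : ℕ} [NeZero d] {P : Type*} [Group P] (ε : Fin d → P →* P)

/-- Disjoint cones. -/
def DjC (u v : List (Ch d)) : Prop := ∀ z z' : Dy, app u z ≠ app v z'

omit [NeZero d] in
lemma DjC.symm {u v : List (Ch d)} (h : DjC u v) : DjC v u := fun z z' e => h z' z e.symm

omit [NeZero d] in
lemma DjC.of_length {u v : List (Ch d)} (hl : u.length = v.length) (hne : u ≠ v) : DjC u v :=
  fun _ _ h => hne (app_eq_length h hl).1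

omit [NeZero d] in
lemma DjC.append {u v : List (Ch d)} (h : DjC u v) (w w' : List (Ch d)) :
    DjC (u ++ w) (v ++ w') := fun z z' e => by
  rw [app_append, app_append] at e
  exact h _ _ e

omit [NeZero d] in
lemma DjC.append_left {u v : List (Ch d)} (h : DjC u v) (w : List (Ch d)) :
    DjC (u ++ w) v := by
  have := h.append w []
  rwa [List.append_nil] at this

omit [NeZero d] in
lemma DjC.children (u : List (Ch d)) {c c' : Ch d} (h : c ≠ c') : DjC (u ++ [c]) (u ++ [c']) :=
  DjC.of_length (by simp) (fun e => h (by simpa using e))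

open Classical in
/-- The label `a` on the cone of `u`. -/
noncomputable def labF (u : List (Ch d)) (a : P) (x : Dy × P) : Dy × P :=
  if h : ∃ z', app u z' = x.1 then (x.1, tw ε h.choose a * x.2) else x

lemma labF_in (u : List (Ch d)) (a : P) (z : Dy) (s : P) :
    labF ε u a (app u z, s) = (app u z, tw ε z a * s) := by
  classical
  have h : ∃ z', app u z' = (app u z, s).1 := ⟨z, rfl⟩
  have h2 : h.choose = z := app_inj (u := u) h.choose_spec
  unfold labF
  rw [dif_pos h, h2]

lemma labF_out (u : List (Ch d)) (a : P) (z : Dy) (s : P) (h : ∀ z', app u z' ≠ z) :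
    labF ε u a (z, s) = (z, s) := by
  classical
  unfold labF
  rw [dif_neg]
  rintro ⟨z', hz'⟩
  exact h z' hz'

lemma labF_one (u : List (Ch d)) (x : Dy × P) : labF ε u 1 x = x := by
  obtain ⟨z, s⟩ := x
  by_cases h : ∃ z', app u z' = z
  · obtain ⟨z', rfl⟩ := h
    rw [labF_in, map_one, one_mul]
  · push Not at h
    exact labF_out ε u 1 z s h

lemma labF_mul (u : List (Ch d)) (a b : P) (x : Dy × P) :
    labF ε u a (labF ε u b x) = labF ε u (a * b) x := by
  obtain ⟨z, s⟩ := x
  by_cases h : ∃ z', app u z' = z
  · obtain ⟨z', rfl⟩ := h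
    rw [labF_in, labF_in, labF_in, map_mul, mul_assoc]
  · push Not at h
    rw [labF_out ε u b z s h, labF_out ε u a z s h, labF_out ε u _ z s h]

/-- The label `a` on the cone of `u`, as a permutation. -/
noncomputable def labPerm (u : List (Ch d)) (a : P) : Perm (Dy × P) where
  toFun := labF ε u a
  invFun := labF ε u a⁻¹
  left_inv x := by rw [labF_mul, inv_mul_cancel, labF_one]
  right_inv x := by rw [labF_mul, mul_inv_cancel, labF_one]

lemma labPerm_cone (u : List (Ch d)) (a : P) : LCone ε (labPerm ε u a) u u a :=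
  fun z s => labF_in ε u a z s

lemma labPerm_cone_out {u w : List (Ch d)} (h : DjC w u) (a : P) :
    LCone ε (labPerm ε u a) w w 1 := fun z s => by
  rw [map_one, one_mul]
  exact labF_out ε u a _ s (fun z' => h.symm z' z)

/-- The homomorphism that puts a label on the cone of `u`. -/
noncomputable def labV (u : List (Ch d)) : P →* VL ε where
  toFun a := ⟨labPerm ε u a, by
    refine ⟨u.length, fun w hw => ?_⟩
    by_cases h : w = u
    · subst h
      exact ⟨_, _, labPerm_cone ε w a⟩
    · exact ⟨_, _, labPerm_cone_out ε (DjC.of_length hw h) a⟩⟩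
  map_one' := by
    apply Subtype.ext
    ext1 x
    exact labF_one ε u x
  map_mul' a b := by
    apply Subtype.ext
    ext1 x
    exact (labF_mul ε u a b x).symm

lemma labV_cone (u : List (Ch d)) (a : P) : LCone ε (labV ε u a).1 u u a := labPerm_cone ε u a

lemma labV_cone_append (u w : List (Ch d)) (a : P) :
    LCone ε (labV ε u a).1 (u ++ w) (u ++ w) (ew ε w a) := (labV_cone ε u a).append w

lemma labV_cone_out {u w : List (Ch d)} (h : DjC w u) (a : P) :
    LCone ε (labV ε u a).1 w w 1 := labPerm_cone_out ε h a

@[simp] lemma labV_smul (u : List (Ch d)) (a : P) (z : Dy) : labV ε u a • z = z := by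
  change (labF ε u a (z, 1)).1 = z
  by_cases h : ∃ z', app u z' = z
  · obtain ⟨z', rfl⟩ := h
    rw [labF_in]
  · push Not at h
    rw [labF_out ε u _ z _ h]

lemma lab_labV_in (u : List (Ch d)) (a : P) (z : Dy) :
    lab (labV ε u a).1 (app u z) = tw ε z a := by
  change (labF ε u a (app u z, 1)).2 = _
  rw [labF_in, mul_one]

lemma lab_labV_out (u : List (Ch d)) (a : P) (z : Dy) (h : ∀ z', app u z' ≠ z) :
    lab (labV ε u a).1 z = 1 := by
  change (labF ε u a (z, 1)).2 = _
  rw [labF_out ε u _ z _ h]

lemma labV_injective (u : List (Ch d)) : Function.Injective (labV ε u) := by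
  intro a b h
  have h1 := lab_labV_in ε u a []
  have h2 := lab_labV_in ε u b []
  rw [h, h2] at h1
  exact h1.symm

/-- `VN.toVL` on points. -/
lemma toVL_smul (g : VN d) (z : Dy) : VN.toVL (ε := ε) g • z = g.1 z := rfl

lemma toVL_lab (g : VN d) (z : Dy) : lab (VN.toVL (ε := ε) g).1 z = 1 := rfl

lemma toVL_cone {g : VN d} {u v : List (Ch d)} (h : NCone g.1 u v) :
    LCone ε (VN.toVL (ε := ε) g).1 u v 1 := fun z s => by
  change (g.1 (app u z), s) = _
  rw [h, map_one, one_mul]

lemma toVL_injective : Function.Injective (VN.toVL (ε := ε) : VN d →* VL ε) := by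
  intro g h e
  apply Subtype.ext
  ext1 z
  have := toVL_smul ε g z
  rw [e, toVL_smul] at this
  exact this.symm

/-- Conjugation of labels by unlabelled elements. -/
lemma toVL_labV_conj {g : VN d} {u v : List (Ch d)} (h : NCone g.1 u v) (a : P) :
    VN.toVL (ε := ε) g * labV ε u a * (VN.toVL (ε := ε) g)⁻¹ = labV ε v a := by
  rw [mul_inv_eq_iff_eq_mul]
  apply VL.ext
  · intro z
    rw [mul_smul, mul_smul, labV_smul, labV_smul]
  · intro z
    rw [VL.lab_mul, VL.lab_mul, labV_smul, toVL_lab, one_mul, mul_one, toVL_smul]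
    by_cases hz : ∃ z', app u z' = z
    · obtain ⟨z', rfl⟩ := hz
      rw [h, lab_labV_in, lab_labV_in]
    · push Not at hz
      rw [lab_labV_out ε u a z hz, lab_labV_out]
      intro z' e
      apply hz z'
      apply g.1.injective
      rw [h, e]

/-- Labels on disjoint cones commute. -/
lemma labV_commute {u v : List (Ch d)} (h : DjC u v) (a b : P) :
    Commute (labV ε u a) (labV ε v b) := by
  change labV ε u a * labV ε v b = labV ε v b * labV ε u a
  apply VL.ext
  · intro z
    simp [mul_smul]
  · intro z
    rw [VL.lab_mul, VL.lab_mul, labV_smul, labV_smul]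
    by_cases hz : ∃ z', app u z' = z
    · obtain ⟨z', rfl⟩ := hz
      rw [lab_labV_out ε v b _ (fun z'' => h.symm z'' z')]
      simp
    · push Not at hz
      rw [lab_labV_out ε u a z hz]
      simp

/-- Elements that fix the cone commute with its labels. -/
lemma toVL_commute_labV {g : VN d} {u : List (Ch d)} (h : NCone g.1 u u) (a : P) :
    Commute (VN.toVL (ε := ε) g) (labV ε u a) :=
  mul_inv_eq_iff_eq_mul.1 (toVL_labV_conj ε h a)

/-- The label of a product of elements that fix a point. -/
lemma lab_list_prod {L : List (VL ε)} {z : Dy} (h : ∀ g ∈ L, g • z = z) :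
    lab (L.prod).1 z = (L.map fun g => lab g.1 z).prod := by
  induction L with
  | nil => rfl
  | cons g L ih =>
    have h1 : L.prod • z = z := by
      have : ∀ L : List (VL ε), (∀ g ∈ L, g • z = z) → L.prod • z = z := by
        intro L
        induction L with
        | nil => intro _; simp
        | cons g L ih =>
          intro h
          rw [List.prod_cons, mul_smul, ih (fun g hg => h g (List.mem_cons_of_mem _ hg)),
            h g List.mem_cons_self]
      exact this L (fun g hg => h g (List.mem_cons_of_mem _ hg))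
    rw [List.prod_cons, VL.lab_mul, h1, ih (fun g hg => h g (List.mem_cons_of_mem _ hg)),
      List.map_cons, List.prod_cons]

/-- A list of the children without repetitions. -/
noncomputable def chL (d : ℕ) : List (Ch d) := (Finset.univ : Finset (Ch d)).toList

omit [NeZero d] in
lemma chL_nodup : (chL d).Nodup := Finset.nodup_toList _

omit [NeZero d] in
lemma mem_chL (c : Ch d) : c ∈ chL d := Finset.mem_toList.2 (Finset.mem_univ c)

private lemma prod_single {α : Type*} {G : Type*} [Group G] (L : List α) (hL : L.Nodup)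
    (f : α → G) (a : α) (ha : a ∈ L) (hf : ∀ b ∈ L, b ≠ a → f b = 1) : (L.map f).prod = f a := by
  induction L with
  | nil => simp at ha
  | cons b L ih =>
    rw [List.map_cons, List.prod_cons]
    rw [List.nodup_cons] at hL
    by_cases h : b = a
    · subst h
      have : (L.map f).prod = 1 := by
        apply List.prod_eq_one
        intro x hx
        obtain ⟨c, hc, rfl⟩ := List.mem_map.1 hx
        exact hf c (List.mem_cons_of_mem _ hc) (fun e => hL.1 (e ▸ hc))
      rw [this, mul_one]
    · have ha' : a ∈ L := by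
        rcases List.mem_cons.1 ha with e | e
        · exact absurd e.symm h
        · exact e
      rw [hf b List.mem_cons_self h, one_mul]
      exact ih hL.2 ha' (fun c hc hne => hf c (List.mem_cons_of_mem _ hc) hne)

/-- The splitting relation. -/
lemma labV_split (u : List (Ch d)) (a : P) :
    labV ε u a = ((chL d).map fun c => labV ε (u ++ [c]) (ec ε c a)).prod := by
  have hfix : ∀ z : Dy, ∀ g ∈ (chL d).map fun c => labV ε (u ++ [c]) (ec ε c a), g • z = z := by
    intro z g hg
    obtain ⟨c, -, rfl⟩ := List.mem_map.1 hg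
    exact labV_smul ε _ _ z
  apply VL.ext
  · intro z
    rw [labV_smul]
    have : ∀ L : List (VL ε), (∀ g ∈ L, g • z = z) → L.prod • z = z := by
      intro L
      induction L with
      | nil => intro _; simp
      | cons g L ih =>
        intro h
        rw [List.prod_cons, mul_smul, ih (fun g hg => h g (List.mem_cons_of_mem _ hg)),
          h g List.mem_cons_self]
    exact (this _ (hfix z)).symm
  · intro z
    rw [lab_list_prod ε (hfix z), List.map_map]
    by_cases hz : ∃ z', app u z' = z
    · obtain ⟨z', rfl⟩ := hz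
      obtain ⟨c, z'', rfl⟩ := bz_surj (d := d) z'
      have e1 : app u (bz c z'') = app (u ++ [c]) z'' := by rw [app_append]; rfl
      rw [lab_labV_in, tw_bz]
      rw [prod_single (chL d) chL_nodup _ c (mem_chL c)]
      · change _ = lab (labV ε (u ++ [c]) (ec ε c a)).1 (app u (bz c z''))
        rw [e1, lab_labV_in]
      · intro c' _ hc'
        change lab (labV ε (u ++ [c']) (ec ε c' a)).1 (app u (bz c z'')) = 1
        rw [e1]
        exact lab_labV_out ε _ _ _ (fun z' => DjC.children u hc' z' z'')
    · push Not at hz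
      rw [lab_labV_out ε u a z hz]
      symm
      apply List.prod_eq_one
      intro x hx
      obtain ⟨c, -, rfl⟩ := List.mem_map.1 hx
      change lab (labV ε (u ++ [c]) (ec ε c a)).1 z = 1
      apply lab_labV_out
      intro z' e
      rw [app_append] at e
      exact hz _ e

/-- Elements of `VL` agreeing on the cones of all words of a fixed length are equal. -/
lemma VL.ext_level {g h : VL ε} (k : ℕ) (H : ∀ u : List (Ch d), u.length = k →
    ∃ v a, LCone ε g.1 u v a ∧ LCone ε h.1 u v a) : g = h := by
  apply Subtype.ext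
  ext1 ⟨z, s⟩
  obtain ⟨u, z', hu, rfl⟩ := exists_app (d := d) k z
  obtain ⟨v, a, h1, h2⟩ := H u hu
  rw [h1, h2]

/-- The action on points as a homomorphism to the unlabelled group. -/
noncomputable def VL.toVN : VL ε →* VN d where
  toFun g := ⟨(MulAction.toPerm g : Perm Dy), by
    obtain ⟨k, hk⟩ := g.2
    refine ⟨k, fun u hu => ?_⟩
    obtain ⟨v, a, h⟩ := hk u hu
    exact ⟨v, fun z => h.smul (g := g) z⟩⟩
  map_one' := by
    apply Subtype.ext
    ext1 z
    exact one_smul (VL ε) z
  map_mul' g h := by
    apply Subtype.ext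
    ext1 z
    exact mul_smul g h z

lemma VL.toVN_apply (g : VL ε) (z : Dy) : (VL.toVN ε g).1 z = g • z := rfl

lemma VL.toVN_toVL (g : VN d) : VL.toVN ε (VN.toVL g) = g := rfl

@[simp] lemma VL.toVN_labV (u : List (Ch d)) (a : P) : VL.toVN ε (labV ε u a) = 1 := by
  apply Subtype.ext
  ext1 z
  exact labV_smul ε u a z

/-- Elements that fix all points are labels on the cones of some level. -/
lemma VL.level_of_fix {g : VL ε} (hg : ∀ z : Dy, g • z = z) :
    ∃ k0, ∀ k, k0 ≤ k → ∀ u : List (Ch d), u.length = k → ∃ a, LCone ε g.1 u u a := by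
  obtain ⟨k, hk⟩ := g.2
  refine ⟨k, fun l hl u hu => ?_⟩
  obtain ⟨v, a, h⟩ := LCL.of_length hk u (by omega)
  have : u = v := by
    apply app_word_inj
    intro z
    have := LCone.smul h z
    rw [hg] at this
    exact this
  subst this
  exact ⟨a, h⟩

end Lab

end Pool.Agent.BH
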