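import Pool.Agent.BH.VLab

set_option autoImplicit false

/-!
# The labelled Higman-Thompson group is finitely presented
-/

namespace Pool.Agent.BH

open Monoid Subgroup

variable {d : ℕ} [NeZero d]

theorem VL_fp_of (T : TransV d) (hV : Group.IsFinitelyPresented (VN d))
    (hfix : (fixCone (u0 d)).FG) {P : Type*} [Group P] [hP : Group.IsFinitelyPresented P]
    (ε : Fin d → P →* P) : Group.IsFinitelyPresented (VL ε) := by
  classical
  obtain ⟨S, hS⟩ := hfix
  obtain ⟨TP, hTP⟩ : ∃ T : Finset P, closure (T : Set P) = ⊤ := by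
    obtain ⟨n, φ, hφ, -⟩ := hP.out
    exact (Group.fg_of_surjective hφ).out
  obtain ⟨g0, hg0⟩ := T.one (u0 d) (v0 d) u0_ne v0_ne
  set gc : Ch d → VN d := fun c => gw T (u0 d ++ [c]) with hgc
  have hgc1 : ∀ c, NCone (gc c).1 (u0 d) (u0 d ++ [c]) := fun c => gw_spec T (by simp)
  let f : Coprod (VN d) P →* VL ε := Coprod.lift VN.toVL (labV ε (u0 d))
  have fl : ∀ v, f (Coprod.inl v) = VN.toVL v := fun v => Coprod.lift_apply_inl _ _ v
  have fr : ∀ a, f (Coprod.inr a) = labV ε (u0 d) a := fun v => Coprod.lift_apply_inr _ _ v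
  have hfsurj : Function.Surjective f := by
    rw [← MonoidHom.range_eq_top, eq_top_iff, ← gen_VL ε T, closure_le]
    rintro _ (⟨v, rfl⟩ | ⟨a, rfl⟩)
    · exact ⟨_, fl v⟩
    · exact ⟨_, fr a⟩
  refine Group.IsFinitelyPresented.of_surjective f hfsurj ?_
  let r1 : VN d → P → Coprod (VN d) P := fun h a =>
    Coprod.inl h * Coprod.inr a * (Coprod.inl h)⁻¹ * (Coprod.inr a)⁻¹
  let r2 : P → P → Coprod (VN d) P := fun a b =>
    Coprod.inr a * (Coprod.inl g0 * Coprod.inr b * (Coprod.inl g0)⁻¹) * (Coprod.inr a)⁻¹ *
      (Coprod.inl g0 * Coprod.inr b * (Coprod.inl g0)⁻¹)⁻¹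
  let r3 : P → Coprod (VN d) P := fun a =>
    Coprod.inr a * (((chL d).map fun c =>
      Coprod.inl (gc c) * Coprod.inr (ec ε c a) * (Coprod.inl (gc c))⁻¹).prod)⁻¹
  let R : Set (Coprod (VN d) P) := Set.image2 r1 (S : Set (VN d)) (TP : Set P) ∪
    Set.image2 r2 (TP : Set P) (TP : Set P) ∪ r3 '' (TP : Set P)
  have hRfin : R.Finite := ((S.finite_toSet.image2 _ TP.finite_toSet).union
    (TP.finite_toSet.image2 _ TP.finite_toSet)).union (TP.finite_toSet.image _)
  refine ⟨R, hRfin, ?_⟩
  have hle : normalClosure R ≤ f.ker := by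
    apply normalClosure_le_normal
    rintro _ ((⟨h, hh, a, -, rfl⟩ | ⟨a, -, b, -, rfl⟩) | ⟨a, -, rfl⟩)
    · change f _ = 1
      have hh' : h ∈ fixCone (u0 d) := by
        rw [← hS]
        exact subset_closure hh
      have h1 : VN.toVL (ε := ε) h * labV ε (u0 d) a = labV ε (u0 d) a * VN.toVL (ε := ε) h :=
        toVL_commute_labV ε hh' a
      simp only [r1, map_mul, map_inv, fl, fr, h1]
      group
    · change f _ = 1
      have h1 : labV ε (u0 d) a * labV ε (v0 d) b = labV ε (v0 d) b * labV ε (u0 d) a :=
        labV_commute ε u0_v0 a b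
      simp only [r2, map_mul, map_inv, fl, fr, toVL_labV_conj ε hg0, h1]
      group
    · change f _ = 1
      simp only [r3]
      rw [map_mul, map_inv, map_list_prod, List.map_map, fr]
      have e : ((chL d).map (f ∘ fun c => Coprod.inl (gc c) * Coprod.inr (ec ε c a) *
          (Coprod.inl (gc c))⁻¹)) = (chL d).map fun c => labV ε (u0 d ++ [c]) (ec ε c a) := by
        apply List.map_congr_left
        intro c _
        rw [Function.comp_apply, map_mul, map_mul, map_inv, fl, fr]
        exact toVL_labV_conj ε (hgc1 c) _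
      rw [e, ← labV_split, mul_inv_cancel]
  apply le_antisymm hle
  set N := normalClosure R with hN
  let i : VN d →* Coprod (VN d) P ⧸ N := (QuotientGroup.mk' N).comp Coprod.inl
  let l : P →* Coprod (VN d) P ⧸ N := (QuotientGroup.mk' N).comp Coprod.inr
  have hi : ∀ v, i v = QuotientGroup.mk' N (Coprod.inl v) := fun v => rfl
  have hl : ∀ a, l a = QuotientGroup.mk' N (Coprod.inr a) := fun v => rfl
  have hmk : ∀ x ∈ R, QuotientGroup.mk' N x = 1 := fun x hx =>
    (QuotientGroup.eq_one_iff x).2 (subset_normalClosure hx)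
  have hrels : Rels i l := by
    refine ⟨?_, ⟨g0, hg0, ?_⟩, ⟨gc, hgc1, ?_⟩⟩
    · have h1 : ∀ a ∈ TP, ∀ h ∈ fixCone (u0 d), Commute (i h) (l a) := by
        intro a ha h hh
        rw [← hS] at hh
        have hle2 : closure (S : Set (VN d)) ≤ (centralizer {l a}).comap i := by
          rw [closure_le]
          intro s hs
          change i s ∈ centralizer {l a}
          rw [mem_centralizer_singleton_iff]
          have h3 := hmk (r1 s a) (Or.inl (Or.inl ⟨s, hs, a, ha, rfl⟩))
          simp only [r1, map_mul, map_inv, ← hi, ← hl] at h3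
          exact mul_inv_eq_iff_eq_mul.1 (mul_inv_eq_one.1 h3)
        have := hle2 hh
        rw [mem_comap, mem_centralizer_singleton_iff] at this
        exact this
      intro h hh a
      have ha : a ∈ closure (TP : Set P) := by rw [hTP]; trivial
      have hle2 : closure (TP : Set P) ≤ (centralizer {i h}).comap l := by
        rw [closure_le]
        intro s hs
        change l s ∈ centralizer {i h}
        rw [mem_centralizer_singleton_iff]
        exact (h1 s hs h hh).symm
      have := hle2 ha
      rw [mem_comap, mem_centralizer_singleton_iff] at this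
      exact Commute.symm this
    · have h1 : ∀ a ∈ TP, ∀ b ∈ TP, Commute (l a) (i g0 * l b * (i g0)⁻¹) := by
        intro a ha b hb
        have h3 := hmk (r2 a b) (Or.inl (Or.inr ⟨a, ha, b, hb, rfl⟩))
        simp only [r2, map_mul, map_inv, ← hi, ← hl] at h3
        have h4 : l a * (i g0 * l b * (i g0)⁻¹) * (l a)⁻¹ * (i g0 * l b * (i g0)⁻¹)⁻¹ = 1 := h3
        exact mul_inv_eq_iff_eq_mul.1 (mul_inv_eq_one.1 h4)
      have h2 : ∀ b ∈ TP, ∀ a, Commute (l a) (i g0 * l b * (i g0)⁻¹) := by
        intro b hb a
        have ha : a ∈ closure (TP : Set P) := by rw [hTP]; trivial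
        have hle2 : closure (TP : Set P) ≤ (centralizer {i g0 * l b * (i g0)⁻¹}).comap l := by
          rw [closure_le]
          intro s hs
          change l s ∈ centralizer {i g0 * l b * (i g0)⁻¹}
          rw [mem_centralizer_singleton_iff]
          exact h1 s hs b hb
        have := hle2 ha
        rw [mem_comap, mem_centralizer_singleton_iff] at this
        exact this
      intro a b
      have hb : b ∈ closure (TP : Set P) := by rw [hTP]; trivial
      have hle2 : closure (TP : Set P) ≤ (centralizer {l a}).comap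
          ((MulAut.conj (i g0)).toMonoidHom.comp l) := by
        rw [closure_le]
        intro s hs
        change i g0 * l s * (i g0)⁻¹ ∈ centralizer {l a}
        rw [mem_centralizer_singleton_iff]
        exact (h2 s hs a).symm
      have := hle2 hb
      rw [mem_comap, mem_centralizer_singleton_iff] at this
      exact Commute.symm this
    · intro a
      have ha : a ∈ closure (TP : Set P) := by rw [hTP]; trivial
      have hle2 : closure (TP : Set P) ≤ (closure (⋃ c, Set.range fun b =>
          i (gc c) * l b * (i (gc c))⁻¹)).comap l := by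
        rw [closure_le]
        intro s hs
        change l s ∈ closure (⋃ c, Set.range fun b => i (gc c) * l b * (i (gc c))⁻¹)
        have h3 := hmk (r3 s) (Or.inr ⟨s, hs, rfl⟩)
        simp only [r3] at h3
        rw [map_mul, map_inv, map_list_prod, List.map_map, mul_inv_eq_one, ← hl] at h3
        rw [h3]
        apply Subgroup.list_prod_mem
        intro x hx
        obtain ⟨c, -, rfl⟩ := List.mem_map.1 hx
        refine subset_closure (Set.mem_iUnion.2 ⟨c, ec ε c s, ?_⟩)
        simp only [Function.comp_apply, map_mul, map_inv, hi, hl]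
      exact hle2 ha
  have hgen : closure (Set.range i ∪ Set.range l) = ⊤ := by
    rw [eq_top_iff]
    intro x _
    obtain ⟨y, rfl⟩ := QuotientGroup.mk'_surjective N x
    induction y using Coprod.induction_on with
    | inl v => exact subset_closure (Or.inl ⟨v, rfl⟩)
    | inr a => exact subset_closure (Or.inr ⟨a, rfl⟩)
    | mul x y hx hy =>
      rw [map_mul]
      exact mul_mem (hx trivial) (hy trivial)
  let φ : Coprod (VN d) P ⧸ N →* VL ε := QuotientGroup.lift N f (fun x hx => hle hx)
  have hφ : Function.Injective φ := core_injective T hrels hgen φ (fun v => fl v) (fun a => fr a)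
  intro x hx
  rw [← QuotientGroup.eq_one_iff]
  apply hφ
  rw [map_one]
  exact hx

end Pool.Agent.BH
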