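import Pool.Agent.BH.VPart
import Pool.Agent.BH.VFix

set_option autoImplicit false
set_option linter.unusedSectionVars false

/-!
# Transitivity of the Higman-Thompson groups on cones and points, swaps
-/

namespace Pool.Agent.BH

open Equiv

section Trans

variable {d : ℕ} [NeZero d]

lemma compl_cone_nonempty {u : List (Ch d)} (hu : u ≠ []) : (Set.range (app u))ᶜ.Nonempty := by
  rcases u with _ | ⟨b, u⟩
  · exact absurd rfl hu
  · obtain ⟨c, hc⟩ : ∃ c : Ch d, c ≠ b := by
      rcases b with _ | b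
      · exact ⟨some 0, by simp⟩
      · exact ⟨none, by simp⟩
    refine ⟨app [c] [], ?_⟩
    rintro ⟨z, h⟩
    exact hc (bz_inj h).1.symm

/-- Transitivity on proper cones. -/
theorem exists_cone {u v : List (Ch d)} (hu : u ≠ []) (hv : v ≠ []) :
    ∃ g : VN d, NCone g.1 u v := by
  obtain ⟨g, hg⟩ := exists_transport (IsP.single u) (IsP.single v) (compl_cone_nonempty hu)
    (compl_cone_nonempty hv)
  exact ⟨g, hg 0⟩

/-- The partition given by two disjoint cones. -/
lemma IsP.pair {u v : List (Ch d)} (h : ∀ z z' : Dy, app u z ≠ app v z') :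
    IsP ![u, v] (Set.range (app u) ∪ Set.range (app v)) where
  inj := by
    intro i j z z' e
    fin_cases i <;> fin_cases j
    · rfl
    · exact (h _ _ e).elim
    · exact (h _ _ e.symm).elim
    · rfl
  ran z := by
    constructor
    · rintro (⟨z', rfl⟩ | ⟨z', rfl⟩)
      · exact ⟨0, z', rfl⟩
      · exact ⟨1, z', rfl⟩
    · rintro ⟨i, z', rfl⟩
      fin_cases i
      · exact Or.inl ⟨z', rfl⟩
      · exact Or.inr ⟨z', rfl⟩

/-- Transitivity on pairs of disjoint cones whose union is not everything. -/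
theorem exists_cone_pair {u v u' v' : List (Ch d)} (h : ∀ z z' : Dy, app u z ≠ app v z')
    (h' : ∀ z z' : Dy, app u' z ≠ app v' z') (hc : ∃ p : Dy, ∀ z, app u z ≠ p ∧ app v z ≠ p)
    (hc' : ∃ p : Dy, ∀ z, app u' z ≠ p ∧ app v' z ≠ p) :
    ∃ g : VN d, NCone g.1 u u' ∧ NCone g.1 v v' := by
  obtain ⟨p, hp⟩ := hc
  obtain ⟨q, hq⟩ := hc'
  obtain ⟨g, hg⟩ := exists_transport (IsP.pair h) (IsP.pair h') ⟨p, by
      rintro (⟨z, h⟩ | ⟨z, h⟩)
      · exact (hp z).1 h
      · exact (hp z).2 h⟩ ⟨q, by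
      rintro (⟨z, h⟩ | ⟨z, h⟩)
      · exact (hq z).1 h
      · exact (hq z).2 h⟩
  exact ⟨g, hg 0, hg 1⟩

/-- Transitivity on pairs of disjoint cones whose union is everything. -/
theorem exists_cone_pair_univ {u v u' v' : List (Ch d)} (h : ∀ z z' : Dy, app u z ≠ app v z')
    (h' : ∀ z z' : Dy, app u' z ≠ app v' z')
    (hc : ∀ p : Dy, ∃ z, app u z = p ∨ app v z = p)
    (hc' : ∀ p : Dy, ∃ z, app u' z = p ∨ app v' z = p) :
    ∃ g : VN d, NCone g.1 u u' ∧ NCone g.1 v v' := by
  have e : ∀ {a b : List (Ch d)}, (∀ p : Dy, ∃ z, app a z = p ∨ app b z = p) →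
      Set.range (app a) ∪ Set.range (app b) = Set.univ := by
    intro a b hab
    rw [Set.eq_univ_iff_forall]
    intro p
    obtain ⟨z, hz | hz⟩ := hab p
    · exact Or.inl ⟨z, hz⟩
    · exact Or.inr ⟨z, hz⟩
  have h1 := IsP.pair h
  have h2 := IsP.pair h'
  rw [e hc] at h1
  rw [e hc'] at h2
  obtain ⟨g, hg⟩ := exists_element h1 h2
  exact ⟨g, hg 0, hg 1⟩

/-- The element exchanging two disjoint cones. -/
theorem exists_swap {u v : List (Ch d)} (h : ∀ z z' : Dy, app u z ≠ app v z') :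
    ∃ T : VN d, NCone T.1 u v ∧ NCone T.1 v u ∧
      ∀ z ∉ Set.range (app u) ∪ Set.range (app v), T.1 z = z := by
  have h2 := IsP.pair (fun z z' e => h z' z e.symm : ∀ z z' : Dy, app v z ≠ app u z')
  rw [Set.union_comm] at h2
  obtain ⟨T, hT, hT'⟩ := exists_supported (IsP.pair h) h2
  exact ⟨T, hT 0, hT 1, hT'⟩

/-! ### Transitivity on points -/

/-- Every point is the base point of a cone of every large depth. -/
lemma exists_base (z : Dy) : ∃ k0, ∀ k, k0 ≤ k →
    ∃ u : List (Ch d), u.length = k ∧ app u [] = z := by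
  induction z with
  | nil => exact ⟨0, fun k _ => ⟨zw k, zw_length k, app_zw_nil k⟩⟩
  | cons i z ih =>
    obtain ⟨k0, h⟩ := ih
    refine ⟨k0 + (i + 1), fun k hk => ?_⟩
    have hi : i / d ≤ i := Nat.div_le_self i d
    obtain ⟨u, hu, hz⟩ := h (k - (i / d + 1)) (by omega)
    refine ⟨rc d i ++ u, by simp [rc]; omega, ?_⟩
    rw [app_append, app_rc, hz]

lemma exists_base_fin {r : ℕ} (p : Fin r → Dy) :
    ∃ k0, ∀ k, k0 ≤ k → ∃ u : Fin r → List (Ch d), (∀ i, (u i).length = k) ∧
      ∀ i, app (u i) [] = p i := by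
  choose k hk using fun i => exists_base (d := d) (p i)
  refine ⟨Finset.univ.sup k, fun m hm => ?_⟩
  have : ∀ i, ∃ u : List (Ch d), u.length = m ∧ app u [] = p i := fun i =>
    hk i m (le_trans (Finset.le_sup (Finset.mem_univ i)) hm)
  choose u hu using this
  exact ⟨u, fun i => (hu i).1, fun i => (hu i).2⟩

lemma exists_perm_extend {W : Type*} [Finite W] {r : ℕ} (x y : Fin r → W)
    (hx : Function.Injective x) (hy : Function.Injective y) : ∃ σ : Perm W, ∀ i, σ (x i) = y i := by
  classical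
  let e : {w // w ∈ Set.range x} ≃ {w // w ∈ Set.range y} :=
    (Equiv.ofInjective x hx).symm.trans (Equiv.ofInjective y hy)
  have := Fintype.ofFinite W
  refine ⟨e.extendSubtype, fun i => ?_⟩
  rw [Equiv.extendSubtype_apply_of_mem e (x i) ⟨i, rfl⟩]
  have : (Equiv.ofInjective x hx).symm ⟨x i, i, rfl⟩ = i := by
    rw [Equiv.symm_apply_eq]
    rfl
  change ((Equiv.ofInjective y hy) ((Equiv.ofInjective x hx).symm ⟨x i, i, rfl⟩) : W) = y i
  rw [this]
  rfl

variable (d) in
/-- High transitivity on points. -/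
theorem VN.highly {r : ℕ} (p q : Fin r → Dy) (hp : Function.Injective p)
    (hq : Function.Injective q) : ∃ g : VN d, ∀ i, g • p i = q i := by
  obtain ⟨k, hk⟩ := exists_base_fin (d := d) p
  obtain ⟨l, hl⟩ := exists_base_fin (d := d) q
  obtain ⟨u, hu, hup⟩ := hk (k + l) (by omega)
  obtain ⟨v, hv, hvq⟩ := hl (k + l) (by omega)
  have hP := IsP.depth (d := d) (k + l)
  obtain ⟨σ, hσ⟩ := exists_perm_extend (W := {w : List (Ch d) // w.length = k + l})
    (fun i => ⟨u i, hu i⟩) (fun i => ⟨v i, hv i⟩)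
    (by
      intro i j h
      apply hp
      rw [← hup, ← hup]
      rw [show u i = u j from congrArg Subtype.val h])
    (by
      intro i j h
      apply hq
      rw [← hvq, ← hvq]
      rw [show v i = v j from congrArg Subtype.val h])
  obtain ⟨g, hg⟩ := exists_element hP (hP.comp σ)
  refine ⟨g, fun i => ?_⟩
  have h1 := hg ⟨u i, hu i⟩ []
  rw [hσ] at h1
  rw [← hup, ← hvq]
  exact h1

variable (d) in
/-- Two points. -/
lemma VN.two {a b c e : Dy} (hab : a ≠ b) (hce : c ≠ e) :
    ∃ g : VN d, g • a = c ∧ g • b = e := by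
  obtain ⟨g, hg⟩ := VN.highly d ![a, b] ![c, e]
    (by
      intro i j h
      fin_cases i <;> fin_cases j <;> simp_all)
    (by
      intro i j h
      fin_cases i <;> fin_cases j <;> simp_all)
  exact ⟨g, hg 0, hg 1⟩

variable (d) in
/-- Three points. -/
lemma VN.three {a b c a' b' c' : Dy} (hab : a ≠ b) (hac : a ≠ c) (hbc : b ≠ c) (hab' : a' ≠ b')
    (hac' : a' ≠ c') (hbc' : b' ≠ c') : ∃ g : VN d, g • a = a' ∧ g • b = b' ∧ g • c = c' := by
  obtain ⟨g, hg⟩ := VN.highly d ![a, b, c] ![a', b', c']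
    (by
      intro i j h
      fin_cases i <;> fin_cases j <;> simp_all)
    (by
      intro i j h
      fin_cases i <;> fin_cases j <;> simp_all)
  exact ⟨g, hg 0, hg 1, hg 2⟩

/-- The preimage of a clopen set is clopen. -/
lemma Clo.preim {U : Set Dy} (hU : Clo d U) (g : VN d) : Clo d {z | g.1 z ∈ U} := by
  obtain ⟨k, hk⟩ := g.2
  obtain ⟨l, hl⟩ := hU
  refine ⟨k + l, fun u hu => ?_⟩
  have h1 : u = u.take k ++ u.drop k := (List.take_append_drop k u).symm
  obtain ⟨v, hv⟩ := hk (u.take k) (by simp; omega)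
  have h2 := hv.append (u.drop k)
  rw [← h1] at h2
  rcases Clo.ge hl (v ++ u.drop k) (by simp; omega) with h | h
  · left
    intro z
    change g.1 (app u z) ∈ U
    rw [h2]
    exact h z
  · right
    intro z
    change g.1 (app u z) ∉ U
    rw [h2]
    exact h z

end Trans

end Pool.Agent.BH
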