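import Pool.Agent.BH.VLabFP
import Pool.Agent.BH.VTrans

set_option autoImplicit false

/-!
# The transitivity properties used for the labelled groups
-/

namespace Pool.Agent.BH

open Equiv

variable {d : ℕ} [NeZero d]

lemma exists_ne_ch (c : Ch d) : ∃ c' : Ch d, c ≠ c' := by
  rcases c with _ | b
  · exact ⟨some 0, by simp⟩
  · exact ⟨none, by simp⟩

theorem transV : TransV d where
  one _ _ hu hv := exists_cone hu hv
  two u v _ _ h c := by
    obtain ⟨c', hc⟩ := exists_ne_ch c
    refine exists_cone_pair u0_v0 (h.append_left [c]) ⟨app ([some 0] : List (Ch d)) [], fun z => ⟨?_, ?_⟩⟩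
      ⟨app (u ++ [c']) [], fun z => ⟨DjC.children u hc z [], ?_⟩⟩
    · intro e
      rw [u0, app_cons, app_cons, app_nil, app_cons, app_nil] at e
      exact absurd (bz_inj e).1 (by simp)
    · intro e
      rw [v0, app_cons, app_cons, app_nil, app_cons, app_nil] at e
      exact absurd (bz_inj e).1 (by simp)
    · intro e
      rw [app_append] at e
      exact h _ _ e.symm

theorem VL_free_fp_of (hV : Group.IsFinitelyPresented (VN d)) (hfix : (fixCone (u0 d)).FG)
    {X : Type} [Finite X] (ε : Fin d → FreeGroup X →* FreeGroup X) :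
    Group.IsFinitelyPresented (VL ε) :=
  VL_fp_of transV hV hfix ε

end Pool.Agent.BH
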