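import Pool.Agent.BH.VNormP

set_option autoImplicit false

/-!
# Normal subgroups of the labelled Higman-Thompson group
-/

namespace Pool.Agent.BH.NP

open Equiv MulAction
open scoped commutatorElement

section Labels

variable {d : ℕ} [NeZero d] {P : Type*} [Group P] (ε : Fin d → P →* P)

/-- The label on the whole tree. -/
def cst0 : P →* Perm (Dy × P) where
  toFun a :=
    { toFun := fun x => (x.1, tw ε x.1 a * x.2)
      invFun := fun x => (x.1, (tw ε x.1 a)⁻¹ * x.2)
      left_inv := by rintro ⟨z, s⟩; simp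
      right_inv := by rintro ⟨z, s⟩; simp }
  map_one' := by
    ext1 ⟨z, s⟩
    change (z, tw ε z 1 * s) = (z, s)
    rw [map_one, one_mul]
  map_mul' a b := by
    ext1 ⟨z, s⟩
    change (z, tw ε z (a * b) * s) = (z, tw ε z a * (tw ε z b * s))
    rw [map_mul, mul_assoc]

variable {ε} in
lemma cst0_cone (a : P) : LCone ε (cst0 ε a) [] [] a := fun _ _ => rfl

variable {ε} in
lemma cst0_mem (a : P) : cst0 ε a ∈ VL ε := by
  refine ⟨0, fun u hu => ?_⟩
  rw [List.length_eq_zero_iff.1 hu]
  exact ⟨_, _, cst0_cone a⟩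

/-- The label on the whole tree, in the group. -/
def cst : P →* VL ε := (cst0 ε).codRestrict (VL ε) cst0_mem

/-- The label homomorphism on the cone of `u`. -/
noncomputable def lbl (u : List (Ch d)) : P →* VL ε := (phi u).comp (cst ε)

variable {ε}

lemma lbl_cone (u : List (Ch d)) (a : P) : LCone ε (lbl ε u a).1 u u a := by
  have := phi_cone (g := cst ε a) (cst0_cone a) u
  rwa [List.append_nil] at this

lemma lbl_spt (u : List (Ch d)) (a : P) : Spt (lbl ε u a) (Set.range (app u)) := phi_spt u _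

lemma lbl_smul (u : List (Ch d)) (a : P) (z : Dy) : lbl ε u a • z = z := by
  by_cases h : z ∈ Set.range (app u)
  · obtain ⟨z', rfl⟩ := h
    exact (lbl_cone u a).smul z'
  · exact (lbl_spt u a).smul_eq h

lemma lab_lbl_in (u : List (Ch d)) (a : P) (z : Dy) :
    lab (lbl ε u a).1 (app u z) = tw ε z a := (lbl_cone u a).lab_eq z

lemma lab_lbl_out (u : List (Ch d)) (a : P) {z : Dy} (hz : z ∉ Set.range (app u)) :
    lab (lbl ε u a).1 z = 1 := by
  change ((lbl ε u a).1 (z, 1)).2 = 1
  rw [lbl_spt u a z hz 1]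

/-- Gluing along a partition. -/
lemma LCone.glue {K : Type*} {w : K → List (Ch d)} (hw : IsP w Set.univ) {g : Perm (Dy × P)}
    {u v : List (Ch d)} {a : P}
    (h : ∀ k, LCone ε g (u ++ w k) (v ++ w k) (ew ε (w k) a)) : LCone ε g u v a := fun z s => by
  obtain ⟨k, z', rfl⟩ := (hw.ran z).1 trivial
  have := h k z' s
  rw [app_append, app_append] at this
  rw [this, tw_app]

/-- The diagonal case. -/
lemma diag_mem {N : Subgroup (VL ε)} {J : Type*} [Finite J] {w : J → List (Ch d)}
    (hw : IsP w Set.univ) {g : VL ε} {a : J → P} (hg : ∀ j, LCone ε g.1 (w j) (w j) (a j))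
    (hN : ∀ j, lbl ε (w j) (a j) ∈ N) : g ∈ N := by
  classical
  have hF : ∀ F : Finset J, ∃ m ∈ N, (∀ j ∈ F, LCone ε m.1 (w j) (w j) (a j)) ∧
      ∀ j ∉ F, LCone ε m.1 (w j) (w j) 1 := by
    intro F
    induction F using Finset.induction_on with
    | empty => exact ⟨1, one_mem _, by simp, fun j _ => LCone.one _⟩
    | insert j0 F hj0 ih =>
      obtain ⟨m, hm, hm1, hm2⟩ := ih
      have hoff : ∀ j, j ≠ j0 → LCone ε (lbl ε (w j0) (a j0)).1 (w j) (w j) 1 := by
        intro j hj
        apply (lbl_spt (w j0) (a j0)).cone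
        rintro z ⟨z', e⟩
        exact hj (hw.inj e).symm
      refine ⟨lbl ε (w j0) (a j0) * m, mul_mem (hN j0) hm, ?_, ?_⟩
      · intro j hj
        rw [Finset.mem_insert] at hj
        by_cases h : j = j0
        · subst h
          have := (lbl_cone (w j) (a j)).mul (hm2 j hj0)
          rwa [mul_one] at this
        · have := (hoff j h).mul (hm1 j (hj.resolve_left h))
          rwa [one_mul] at this
      · intro j hj
        rw [Finset.mem_insert, not_or] at hj
        have := (hoff j hj.1).mul (hm2 j hj.2)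
        rwa [one_mul] at this
  have := Fintype.ofFinite J
  obtain ⟨m, hm, hm1, -⟩ := hF Finset.univ
  have e : g = m := by
    apply eq_of_isP hw
    intro j
    exact ⟨_, _, hg j, hm1 j (Finset.mem_univ j)⟩
  rw [e]
  exact hm

end Labels

/-! ### Transitivity -/

section Trans

variable {d : ℕ} [NeZero d] {P : Type*} [Group P] (ε : Fin d → P →* P)

/-- A clopen set that is not everything avoids a cone. -/
lemma Clo.avoid {U : Set Dy} (hU : Clo d U) (hne : Uᶜ.Nonempty) :
    ∃ p : List (Ch d), ∀ z, app p z ∉ U := by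
  obtain ⟨k, hk⟩ := hU
  obtain ⟨z0, hz0⟩ := hne
  obtain ⟨u, z', hu, rfl⟩ := exists_app (d := d) k z0
  rcases hk u hu with h | h
  · exact absurd (h z') hz0
  · exact ⟨u, h⟩

/-- Swap two families of cones. -/
lemma exists_swap_fam {I : Type*} [Finite I] {u v : I → List (Ch d)} {U V : Set Dy}
    (hu : IsP u U) (hv : IsP v V) (hd : Disjoint U V) :
    ∃ g : VL ε, (∀ i, LCone ε g.1 (u i) (v i) 1) ∧ ∀ i, LCone ε g.1 (v i) (u i) 1 := by
  obtain ⟨f, hf1, -⟩ := exists_permV ε (hu.sum hv hd)
  exact ⟨f (Equiv.sumComm I I), fun i => hf1 (Equiv.sumComm I I) (Sum.inl i),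
    fun i => hf1 (Equiv.sumComm I I) (Sum.inr i)⟩

/-- Transport of families of cones with nonempty complements. -/
theorem exists_transport {I : Type*} [Finite I] {u v : I → List (Ch d)} {U V : Set Dy}
    (hu : IsP u U) (hv : IsP v V) (hU : Uᶜ.Nonempty) (hV : Vᶜ.Nonempty) :
    ∃ g : VL ε, ∀ i, LCone ε g.1 (u i) (v i) 1 := by
  -- disjoint cones in the complements
  obtain ⟨p, q, hp, hq, hpq⟩ : ∃ p q : List (Ch d), (∀ z, app p z ∉ U) ∧ (∀ z, app q z ∉ V) ∧
      Dj p q := by
    obtain ⟨p, hp⟩ := hu.clo.avoid hU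
    obtain ⟨q, hq⟩ := hv.clo.avoid hV
    have hns : Dj ([none] : List (Ch d)) [some 0] := Dj.of_length rfl (by simp)
    rcases dj_or p q with h | ⟨w, rfl⟩ | ⟨w, rfl⟩
    · exact ⟨p, q, hp, hq, h⟩
    · refine ⟨p ++ w ++ [none], p ++ w ++ [some 0], fun z => ?_, fun z => ?_, hns.prepend _⟩
      · rw [List.append_assoc, app_append]
        exact hp _
      · rw [app_append]
        exact hq _
    · refine ⟨q ++ w ++ [none], q ++ w ++ [some 0], fun z => ?_, fun z => ?_, hns.prepend _⟩
      · rw [app_append]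
        exact hp _
      · rw [List.append_assoc, app_append]
        exact hq _
  obtain ⟨n, ⟨e⟩⟩ := Finite.exists_equiv_fin I
  have ht : ∀ r : List (Ch d), IsP (fun i : I => r ++ rc d (e i).1)
      {z | ∃ (i : I) (z' : Dy), app (r ++ rc d (e i).1) z' = z} := by
    intro r
    apply IsP.of_dj
    intro i j hij z z' h
    rw [app_append, app_append] at h
    have h2 := app_inj h
    rw [app_rc, app_rc] at h2
    apply hij
    apply e.injective
    exact Fin.ext (List.cons.inj h2).1
  obtain ⟨g1, h1, -⟩ := exists_swap_fam ε hu (ht p) (by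
    rw [Set.disjoint_left]
    rintro z hz ⟨i, z', rfl⟩
    rw [app_append] at hz
    exact hp _ hz)
  obtain ⟨g2, h2, -⟩ := exists_swap_fam ε (ht p) (ht q) (by
    rw [Set.disjoint_left]
    rintro z ⟨i, z', rfl⟩ ⟨j, z'', h⟩
    exact (hpq.append _ _) _ _ h.symm)
  obtain ⟨g3, h3, -⟩ := exists_swap_fam ε (ht q) hv (by
    rw [Set.disjoint_left]
    rintro z ⟨i, z', rfl⟩ hz
    rw [app_append] at hz
    exact hq _ hz)
  refine ⟨g3 * g2 * g1, fun i => ?_⟩
  have := ((h3 i).mul (h2 i)).mul (h1 i)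
  simpa using this

lemma exists_perm_extend {K W : Type*} [Finite W] (x y : K → W)
    (hx : Function.Injective x) (hy : Function.Injective y) : ∃ σ : Perm W, ∀ i, σ (x i) = y i := by
  classical
  let e : {w // w ∈ Set.range x} ≃ {w // w ∈ Set.range y} :=
    (Equiv.ofInjective x hx).symm.trans (Equiv.ofInjective y hy)
  have := Fintype.ofFinite W
  refine ⟨e.extendSubtype, fun i => ?_⟩
  rw [Equiv.extendSubtype_apply_of_mem e (x i) ⟨i, rfl⟩]
  have : (Equiv.ofInjective x hx).symm ⟨x i, i, rfl⟩ = i := by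
    rw [Equiv.symm_apply_eq]
    rfl
  change ((Equiv.ofInjective y hy) ((Equiv.ofInjective x hx).symm ⟨x i, i, rfl⟩) : W) = y i
  rw [this]
  rfl

/-- Every point is the base point of a cone of every large depth. -/
lemma exists_base (z : Dy) :
    ∃ k0, ∀ k, k0 ≤ k → ∃ u : List (Ch d), u.length = k ∧ app u [] = z := by
  induction z with
  | nil => exact ⟨0, fun k _ => ⟨zw k, zw_length k, app_zw_nil k⟩⟩
  | cons i z ih =>
    obtain ⟨k0, h⟩ := ih
    refine ⟨k0 + (rc d i).length, fun k hk => ?_⟩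
    obtain ⟨u, hu, hz⟩ := h (k - (rc d i).length) (by omega)
    refine ⟨rc d i ++ u, by simp; omega, ?_⟩
    rw [app_append, app_rc, hz]

lemma exists_base_fin {r : ℕ} (p : Fin r → Dy) :
    ∃ k0, ∀ k, k0 ≤ k → ∃ u : Fin r → List (Ch d), (∀ i, (u i).length = k) ∧
      ∀ i, app (u i) [] = p i := by
  choose k hk using fun i => exists_base (d := d) (p i)
  refine ⟨Finset.univ.sup k, fun m hm => ?_⟩
  have : ∀ i, ∃ u : List (Ch d), u.length = m ∧ app u [] = p i := fun i =>
    hk i m (le_trans (Finset.le_sup (Finset.mem_univ i)) hm)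
  choose u hu using this
  exact ⟨u, fun i => (hu i).1, fun i => (hu i).2⟩

/-- High transitivity on points. -/
theorem VL.highly {r : ℕ} (p q : Fin r → Dy) (hp : Function.Injective p)
    (hq : Function.Injective q) : ∃ g : VL ε, ∀ i, g • p i = q i := by
  obtain ⟨k, hk⟩ := exists_base_fin (d := d) p
  obtain ⟨l, hl⟩ := exists_base_fin (d := d) q
  obtain ⟨u, hu, hup⟩ := hk (k + l) (by omega)
  obtain ⟨v, hv, hvq⟩ := hl (k + l) (by omega)
  let W := {w : List (Ch d) // w.length = k + l}
  have hfin : Finite W := Set.Finite.to_subtype (List.finite_length_eq (Ch d) (k + l))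
  have hP : IsP (fun w : W => w.1) Set.univ := IsP.level (k + l)
  obtain ⟨σ, hσ⟩ := exists_perm_extend (W := W) (fun i => ⟨u i, hu i⟩) (fun i => ⟨v i, hv i⟩)
    (by
      intro i j h
      apply hp
      rw [← hup, ← hup]
      rw [show u i = u j from congrArg Subtype.val h])
    (by
      intro i j h
      apply hq
      rw [← hvq, ← hvq]
      rw [show v i = v j from congrArg Subtype.val h])
  obtain ⟨g, hg⟩ := exists_element ε hP (hP.comp σ) (fun _ => (1 : P))
  refine ⟨g, fun i => ?_⟩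
  have h1 := (hg ⟨u i, hu i⟩).smul []
  rw [hσ] at h1
  rw [← hup, ← hvq]
  exact h1

variable {ε} in
lemma VL.smul_inj (g : VL ε) {z z' : Dy} (h : g • z = g • z') : z = z' := smul_left_cancel g h

/-- Two points. -/
lemma VL.two {a b c e : Dy} (hab : a ≠ b) (hce : c ≠ e) : ∃ g : VL ε, g • a = c ∧ g • b = e := by
  obtain ⟨g, hg⟩ := VL.highly ε ![a, b] ![c, e]
    (by
      intro i j h
      fin_cases i <;> fin_cases j <;> simp_all)
    (by
      intro i j h
      fin_cases i <;> fin_cases j <;> simp_all)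
  exact ⟨g, hg 0, hg 1⟩

/-- Three points. -/
lemma VL.three {a b c a' b' c' : Dy} (hab : a ≠ b) (hac : a ≠ c) (hbc : b ≠ c) (hab' : a' ≠ b')
    (hac' : a' ≠ c') (hbc' : b' ≠ c') : ∃ g : VL ε, g • a = a' ∧ g • b = b' ∧ g • c = c' := by
  obtain ⟨g, hg⟩ := VL.highly ε ![a, b, c] ![a', b', c']
    (by
      intro i j h
      fin_cases i <;> fin_cases j <;> simp_all)
    (by
      intro i j h
      fin_cases i <;> fin_cases j <;> simp_all)
  exact ⟨g, hg 0, hg 1, hg 2⟩

end Trans

/-! ### The kernel of the action on points -/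

section Kernel

variable {d : ℕ} [NeZero d] {P : Type*} [Group P] (ε : Fin d → P →* P)

/-- The kernel of the action on points. -/
def Bk : Subgroup (VL ε) where
  carrier := {g | ∀ z : Dy, g • z = z}
  one_mem' := fun z => one_smul _ z
  mul_mem' := fun {a b} ha hb z => by rw [mul_smul, hb, ha]
  inv_mem' := fun {a} ha z => by rw [inv_smul_eq_iff, ha]

variable {ε} in
lemma mem_Bk {g : VL ε} : g ∈ Bk ε ↔ ∀ z : Dy, g • z = z := Iff.rfl

instance : (Bk ε).Normal where
  conj_mem := by
    intro n hn g z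
    rw [mul_smul, mul_smul, hn, smul_inv_smul]

/-- The elements acting trivially on points, with labels in `R`. -/
def NR (R : Subgroup P) : Subgroup (VL ε) where
  carrier := {g | (∀ z : Dy, g • z = z) ∧ ∀ z, lab g.1 z ∈ R}
  one_mem' := ⟨fun z => one_smul _ z, fun z => one_mem R⟩
  mul_mem' := by
    rintro a b ⟨ha, ha'⟩ ⟨hb, hb'⟩
    refine ⟨fun z => by rw [mul_smul, hb, ha], fun z => ?_⟩
    rw [VL.lab_mul]
    exact mul_mem (ha' _) (hb' _)
  inv_mem' := by
    rintro a ⟨ha, ha'⟩
    have h1 : ∀ z : Dy, a⁻¹ • z = z := fun z => by rw [inv_smul_eq_iff, ha]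
    refine ⟨h1, fun z => ?_⟩
    have h2 := VL.lab_mul a a⁻¹ z
    rw [mul_inv_cancel, h1] at h2
    have h3 : lab (1 : VL ε).1 z = (1 : P) := rfl
    rw [h3] at h2
    rw [← inv_eq_of_mul_eq_one_right h2.symm]
    exact inv_mem (ha' z)

variable {ε}

lemma mem_NR {R : Subgroup P} {g : VL ε} :
    g ∈ NR ε R ↔ (∀ z : Dy, g • z = z) ∧ ∀ z, lab g.1 z ∈ R := Iff.rfl

lemma NR_le_Bk (R : Subgroup P) : NR ε R ≤ Bk ε := fun _ hg => hg.1

lemma Bk.cone {g : VL ε} (hg : g ∈ Bk ε) {u v : List (Ch d)} {a : P} (h : LCone ε g.1 u v a) :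
    v = u := by
  apply app_word_inj
  intro z
  rw [← h.smul, hg]

end Kernel

/-! ### The first case -/

section Top

variable {d : ℕ} [NeZero d] {P : Type*} [Group P] {ε : Fin d → P →* P}

/-- The commutator trick. -/
theorem exists_comm_mem {N : Subgroup (VL ε)} [hN : N.Normal] (h : ¬ N ≤ Bk ε) :
    ∃ u : List (Ch d), u ≠ [] ∧ ∀ a b : VL ε, ⁅phi u a, phi u b⁆ ∈ N := by
  obtain ⟨n, hn, hnB⟩ := Set.not_subset.1 h
  have hnB' : ¬ ∀ z : Dy, n • z = z := hnB
  push Not at hnB'
  obtain ⟨z, hz⟩ := hnB'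
  obtain ⟨u, z', v, a, hku, rfl, hc⟩ := VL.local n z 0
  rw [hc.smul] at hz
  -- extend the words so that the cones are disjoint
  have hw : ∀ x : List (Ch d), x ≠ [] → ∃ w, Dj w (x ++ w) := by
    intro x hx
    obtain ⟨w, -, hw⟩ := exists_out hx
    refine ⟨w, ?_⟩
    have := hw.symm.append [] w
    rwa [List.append_nil] at this
  obtain ⟨w, hdj⟩ : ∃ w, Dj (u ++ w) (v ++ w) := by
    rcases dj_or u v with h | ⟨x, rfl⟩ | ⟨x, rfl⟩
    · exact ⟨[], by simpa using h⟩
    · obtain ⟨w, hw⟩ := hw x (by rintro rfl; simp at hz)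
      refine ⟨w, ?_⟩
      rw [List.append_assoc]
      exact hw.prepend u
    · obtain ⟨w, hw⟩ := hw x (by rintro rfl; simp at hz)
      refine ⟨w, ?_⟩
      rw [List.append_assoc]
      exact (hw.prepend v).symm
  have hc' := hc.append w
  refine ⟨u ++ w, fun hcon => ?_, fun a b => ?_⟩
  · rw [hcon] at hdj
    exact hdj (app (v ++ w) []) [] rfl
  set x := phi (u ++ w) a
  set y := phi (u ++ w) b
  have hx : Spt x (Set.range (app (u ++ w))) := phi_spt _ _
  have hy : Spt y (Set.range (app (u ++ w))) := phi_spt _ _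
  have h1 : n * x⁻¹ * n⁻¹ * y = y * (n * x⁻¹ * n⁻¹) := by
    apply Spt.commute (hx.inv.conj n) hy
    intro t ht ⟨t', ht'⟩
    obtain ⟨t'', ht''⟩ := ht
    have : n • app (u ++ w) t'' = t := by rw [ht'', smul_inv_smul]
    rw [hc'.smul] at this
    rw [← this] at ht'
    exact hdj _ _ ht'
  have h2 : x * (n * x⁻¹ * n⁻¹) ∈ N := by
    have : x * (n * x⁻¹ * n⁻¹) = (x * n * x⁻¹) * n⁻¹ := by group
    rw [this]
    exact mul_mem (hN.conj_mem n hn x) (inv_mem hn)
  have h3 : ⁅x * (n * x⁻¹ * n⁻¹), y⁆ ∈ N := by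
    rw [commutatorElement_def]
    have : x * (n * x⁻¹ * n⁻¹) * y * (x * (n * x⁻¹ * n⁻¹))⁻¹ * y⁻¹ =
        x * (n * x⁻¹ * n⁻¹) * (y * (x * (n * x⁻¹ * n⁻¹))⁻¹ * y⁻¹) := by group
    rw [this]
    exact mul_mem h2 (hN.conj_mem _ (inv_mem h2) y)
  have h4 : ⁅x * (n * x⁻¹ * n⁻¹), y⁆ = ⁅x, y⁆ := by
    rw [commutatorElement_def, commutatorElement_def]
    calc x * (n * x⁻¹ * n⁻¹) * y * (x * (n * x⁻¹ * n⁻¹))⁻¹ * y⁻¹
        = x * ((n * x⁻¹ * n⁻¹) * y) * (n * x⁻¹ * n⁻¹)⁻¹ * x⁻¹ * y⁻¹ := by group
      _ = _ := by rw [h1]; group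
  rw [h4] at h3
  exact h3

/-- Labels of a small cone. -/
lemma small_lbl (hperf : commutator P = ⊤) {N : Subgroup (VL ε)} {u : List (Ch d)}
    (h : ∀ a b : VL ε, ⁅phi u a, phi u b⁆ ∈ N) (a : P) : lbl ε u a ∈ N := by
  have h1 : commutator P ≤ N.comap (lbl ε u) := by
    rw [commutator_def, Subgroup.commutator_le]
    intro x _ y _
    rw [Subgroup.mem_comap, map_commutatorElement]
    exact h _ _
  rw [hperf] at h1
  exact h1 (Subgroup.mem_top a)

lemma isP_two_levels : IsP (fun p : Ch d × Ch d => [p.1] ++ [p.2]) Set.univ :=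
  IsP.children.prod IsP.children

/-- A transposition in a small cone. -/
lemma small_swap (hd : Odd d) {N : Subgroup (VL ε)} {u : List (Ch d)}
    (h : ∀ a b : VL ε, ⁅phi u a, phi u b⁆ ∈ N) :
    ∃ T ∈ N, LCone ε T.1 (u ++ [none]) (u ++ [some 0]) 1 ∧
      LCone ε T.1 (u ++ [some 0]) (u ++ [none]) 1 ∧
      Spt T (Set.range (app (u ++ [none])) ∪ Set.range (app (u ++ [some 0]))) := by
  classical
  have hns : Dj ([none] : List (Ch d)) [some 0] := Dj.of_length rfl (by simp)
  have hw := hns.isP.prod (isP_two_levels (d := d))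
  obtain ⟨f, hf1, hf2⟩ := exists_permV ε hw
  let σ : Perm (Bool × (Ch d × Ch d)) := Equiv.prodCongrLeft fun _ => Equiv.boolNot
  have hσ : σ ∈ commutator (Perm (Bool × (Ch d × Ch d))) := by
    rw [alternatingGroup.commutator_perm_eq, Equiv.Perm.mem_alternatingGroup]
    · rw [Equiv.Perm.sign_prodCongrLeft]
      have h2 : Equiv.Perm.sign Equiv.boolNot = -1 := by decide
      simp only [h2, Finset.prod_const, Finset.card_univ, Fintype.card_prod, Fintype.card_option,
        Fintype.card_fin]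
      have h3 : Even ((d + 1) * (d + 1)) := (hd.add_odd odd_one).mul_right _
      exact h3.neg_one_pow
    · rw [Nat.card_eq_fintype_card]
      simp only [Fintype.card_prod, Fintype.card_option, Fintype.card_fin, Fintype.card_bool]
      have := Nat.pos_of_neZero d
      nlinarith
  have hM : commutator (Perm (Bool × (Ch d × Ch d))) ≤ N.comap ((phi u).comp f) := by
    rw [commutator_def, Subgroup.commutator_le]
    intro x _ y _
    rw [Subgroup.mem_comap, map_commutatorElement]
    exact h _ _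
  have c1 : LCone ε (f σ).1 [none] [some 0] 1 := by
    apply LCone.glue isP_two_levels
    intro k
    rw [map_one]
    exact hf1 σ (false, k)
  have c2 : LCone ε (f σ).1 [some 0] [none] 1 := by
    apply LCone.glue isP_two_levels
    intro k
    rw [map_one]
    exact hf1 σ (true, k)
  refine ⟨phi u (f σ), hM hσ, phi_cone c1 u, phi_cone c2 u, ?_⟩
  intro z hz s
  by_cases hzu : z ∈ Set.range (app u)
  · obtain ⟨z', rfl⟩ := hzu
    rw [phi_val, phi0_in, hf2]
    rintro (⟨z'', rfl⟩ | ⟨z'', rfl⟩)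
    · exact hz (Or.inl ⟨z'', by rw [app_append]⟩)
    · exact hz (Or.inr ⟨z'', by rw [app_append]⟩)
  · exact phi_spt u _ z hzu s

/-- Transport of labels. -/
lemma lbl_mem_all {N : Subgroup (VL ε)} [hN : N.Normal] {u : List (Ch d)} (hu : u ≠ [])
    {a : P} (h : lbl ε u a ∈ N) {x : List (Ch d)} (hx : x ≠ []) : lbl ε x a ∈ N := by
  have hne : ∀ {y : List (Ch d)}, y ≠ [] → (Set.range (app y))ᶜ.Nonempty := by
    intro y hy
    obtain ⟨w, -, hw⟩ := exists_out hy
    exact ⟨app w [], fun ⟨z, hz⟩ => hw _ _ hz⟩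
  obtain ⟨g, hg⟩ := exists_transport ε (IsP.single x) (IsP.single u) (hne hx) (hne hu)
  have e : lbl ε x a = g⁻¹ * lbl ε u a * g := by
    have h1 : g * lbl ε x a * g⁻¹ = lbl ε u a := by
      apply sup_ext (IsP.single u) _ _ (lbl_spt u a)
      · intro i
        refine ⟨u, a, ?_, lbl_cone u a⟩
        have := ((hg i).mul (lbl_cone x a)).mul (hg i).inv
        simpa using this
      · apply ((lbl_spt x a).conj g).mono
        rintro z ⟨z', hz'⟩
        refine ⟨z', ?_⟩
        rw [← (hg ()).smul, hz', smul_inv_smul]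
    rw [← h1]
    group
  rw [e]
  have := hN.conj_mem _ h g⁻¹
  rwa [inv_inv] at this

/-- Transport of transpositions. -/
lemma swap_mem_all {N : Subgroup (VL ε)} [hN : N.Normal] {u v : List (Ch d)} (huv : Dj u v)
    (hne : (Set.range (app u) ∪ Set.range (app v))ᶜ.Nonempty)
    (h : ∃ T ∈ N, LCone ε T.1 u v 1 ∧ LCone ε T.1 v u 1 ∧
      Spt T (Set.range (app u) ∪ Set.range (app v))) {x y : List (Ch d)} (hxy : Dj x y)
    (hne' : (Set.range (app x) ∪ Set.range (app y))ᶜ.Nonempty) {T' : VL ε}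
    (h1 : LCone ε T'.1 x y 1) (h2 : LCone ε T'.1 y x 1)
    (h3 : Spt T' (Set.range (app x) ∪ Set.range (app y))) : T' ∈ N := by
  obtain ⟨T, hT, t1, t2, t3⟩ := h
  obtain ⟨g, hg⟩ := exists_transport ε hxy.isP huv.isP hne' hne
  have g0 : LCone ε g.1 x u 1 := hg false
  have g1 : LCone ε g.1 y v 1 := hg true
  have e : g * T' * g⁻¹ = T := by
    apply sup_ext huv.isP _ _ t3
    · rintro (_ | _)
      · refine ⟨v, 1, ?_, t1⟩
        have := (g1.mul h1).mul g0.inv
        simpa using this
      · refine ⟨u, 1, ?_, t2⟩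
        have := (g0.mul h2).mul g1.inv
        simpa using this
    · apply (h3.conj g).mono
      rintro z (⟨z', hz'⟩ | ⟨z', hz'⟩)
      · left
        exact ⟨z', by rw [← g0.smul, hz', smul_inv_smul]⟩
      · right
        exact ⟨z', by rw [← g1.smul, hz', smul_inv_smul]⟩
  have e2 : T' = g⁻¹ * T * g := by
    rw [← e]
    group
  rw [e2]
  have := hN.conj_mem _ hT g⁻¹
  rwa [inv_inv] at this

lemma exists_third (k k' : Ch d × Ch d) : ∃ k'' : Ch d × Ch d, k'' ≠ k ∧ k'' ≠ k' := by
  classical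
  by_contra hcon
  push Not at hcon
  have h1 : (Finset.univ : Finset (Ch d × Ch d)) ⊆ {k, k'} := by
    intro x _
    by_cases hx : x = k
    · simp [hx]
    · simp [hcon x hx]
  have h2 := Finset.card_le_card h1
  have h3 : ({k, k'} : Finset (Ch d × Ch d)).card ≤ 2 := Finset.card_le_two
  simp only [Finset.card_univ, Fintype.card_prod, Fintype.card_option, Fintype.card_fin] at h2
  have := Nat.pos_of_neZero d
  nlinarith

/-- All permutations of a family of cones. -/
lemma perm_mem {N : Subgroup (VL ε)} [hN : N.Normal] {u v : List (Ch d)} (huv : Dj u v)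
    (hne : (Set.range (app u) ∪ Set.range (app v))ᶜ.Nonempty)
    (h : ∃ T ∈ N, LCone ε T.1 u v 1 ∧ LCone ε T.1 v u 1 ∧
      Spt T (Set.range (app u) ∪ Set.range (app v)))
    {J : Type*} [Finite J] {w : J → List (Ch d)} {U : Set Dy} (hw : IsP w U) (σ : Perm J)
    {g : VL ε} (hg : ∀ j, LCone ε g.1 (w j) (w (σ j)) 1) (hs : Spt g U) : g ∈ N := by
  classical
  have hw2 := hw.prod (isP_two_levels (d := d))
  obtain ⟨f, hf1, hf2⟩ := exists_permV ε hw2
  have hall : ∀ τ : Perm (J × (Ch d × Ch d)), f τ ∈ N := by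
    intro τ
    have hτ : τ ∈ Subgroup.closure {τ : Perm (J × (Ch d × Ch d)) | τ.IsSwap} := by
      rw [Equiv.Perm.closure_isSwap]
      trivial
    have hle : Subgroup.closure {τ : Perm (J × (Ch d × Ch d)) | τ.IsSwap} ≤ N.comap f := by
      rw [Subgroup.closure_le]
      rintro _ ⟨p, q, hpq, rfl⟩
      obtain ⟨k, hk1, hk2⟩ := exists_third p.2 q.2
      have o1 : (p.1, k) ≠ p := fun e => hk1 (congrArg Prod.snd e)
      have o2 : (p.1, k) ≠ q := fun e => hk2 (congrArg Prod.snd e)
      refine swap_mem_all huv hne h (hw2.dj hpq)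
        ⟨app (w p.1 ++ ([k.1] ++ [k.2])) [], ?_⟩ ?_ ?_ ?_
      · rintro (⟨z', e⟩ | ⟨z', e⟩)
        · exact (hw2.dj (i := (p.1, k)) (j := p) o1) _ _ e.symm
        · exact (hw2.dj (i := (p.1, k)) (j := q) o2) _ _ e.symm
      · have := hf1 (swap p q) p
        rwa [swap_apply_left] at this
      · have := hf1 (swap p q) q
        rwa [swap_apply_right] at this
      · intro z hz s
        by_cases hzU : z ∈ U
        · obtain ⟨r, z', rfl⟩ := (hw2.ran z).1 hzU
          have hrp : r ≠ p := by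
            rintro rfl
            exact hz (Or.inl ⟨z', rfl⟩)
          have hrq : r ≠ q := by
            rintro rfl
            exact hz (Or.inr ⟨z', rfl⟩)
          have := hf1 (swap p q) r z' s
          rw [swap_apply_of_ne_of_ne hrp hrq, map_one, one_mul] at this
          exact this
        · exact hf2 (swap p q) z hzU s
    exact hle hτ
  have e : g = f (σ.prodCongr (Equiv.refl _)) := by
    apply sup_ext hw2 _ hs (hf2 _)
    rintro ⟨j, k⟩
    refine ⟨_, 1, ?_, hf1 (σ.prodCongr (Equiv.refl _)) (j, k)⟩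
    have := (hg j).append ([k.1] ++ [k.2])
    rwa [map_one] at this
  rw [e]
  exact hall _

/-! ### Carets -/

lemma IsP.all_eq {I : Type*} {u : I → List (Ch d)} {U : Set Dy} (hu : IsP u U) {i : I}
    (hi : u i = []) (j : I) : j = i := by
  apply hu.inj (z := []) (z' := app (u j) [])
  rw [hi]
  rfl

lemma IsP.nil_of_all_eq {I : Type*} {u : I → List (Ch d)} (hu : IsP u Set.univ) {i : I}
    (hi : ∀ j, j = i) : u i = [] := by
  by_contra hne
  obtain ⟨w, -, hw⟩ := exists_out hne
  obtain ⟨j, z', e⟩ := (hu.ran (app w [])).1 trivial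
  rw [hi j] at e
  exact hw _ _ e

/-- There is a caret. -/
lemma IsP.exists_caret {I : Type*} [Finite I] {u : I → List (Ch d)} (hu : IsP u Set.univ)
    (hne : ∃ i, u i ≠ []) : ∃ (w : List (Ch d)) (κ : Ch d → I), ∀ c, u (κ c) = w ++ [c] := by
  obtain ⟨i0, hi0⟩ := hne
  have : Nonempty I := ⟨i0⟩
  obtain ⟨i, hi⟩ := Finite.exists_max (fun i => (u i).length)
  have hi1 : u i ≠ [] := by
    intro h
    have h1 := hi i0
    simp only [h, List.length_nil, Nat.le_zero, List.length_eq_zero_iff] at h1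
    exact hi0 h1
  obtain ⟨w, c0, hw⟩ : ∃ w c0, u i = w ++ [c0] := by
    rcases List.eq_nil_or_concat (u i) with h | ⟨w, c0, h⟩
    · exact absurd h hi1
    · exact ⟨w, c0, by simpa using h⟩
  have key : ∀ c : Ch d, ∃ j, u j = w ++ [c] := by
    intro c
    obtain ⟨j, z', e⟩ := (hu.ran (app (w ++ [c]) [])).1 trivial
    have hl : (u j).length ≤ (w ++ [c]).length := by
      have := hi j
      rw [hw] at this
      simpa using this
    obtain ⟨t, ht, -⟩ := app_prefix e hl
    rcases List.eq_nil_or_concat t with rfl | ⟨t', c', rfl⟩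
    · exact ⟨j, by simpa using ht.symm⟩
    · exfalso
      have h2 : w ++ [c] = (u j ++ t') ++ [c'] := by
        rw [ht]
        simp
      have h3 : w = u j ++ t' := (List.append_inj' h2 rfl).1
      have h4 : i = j := by
        apply hu.inj (z := []) (z' := app (t' ++ [c0]) [])
        rw [← app_append, hw, h3, List.append_assoc]
      have h5 := congrArg List.length hw
      rw [h3, ← h4] at h5
      simp at h5
  choose κ hκ using key
  exact ⟨w, κ, hκ⟩

/-- Merge a caret. -/
lemma IsP.merge {I : Type*} {u : I → List (Ch d)} {U : Set Dy} (hu : IsP u U)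
    {w : List (Ch d)} {κ : Ch d → I} (hκ : ∀ c, u (κ c) = w ++ [c]) :
    IsP (fun o : Option {i : I // ∀ c, κ c ≠ i} => o.elim w fun i => u i.1) U where
  inj := by
    have h1 : ∀ (i : {i : I // ∀ c, κ c ≠ i}) z z', app w z = app (u i.1) z' → False := by
      intro i z z' h
      obtain ⟨c, z'', rfl⟩ := bz_surj (d := d) z
      apply i.2 c
      apply hu.inj (z := z'') (z' := z')
      rw [hκ, app_append]
      exact h
    rintro (_ | i) (_ | j) z z' h
    · rfl
    · exact (h1 j z z' h).elim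
    · exact (h1 i z' z h.symm).elim
    · rw [Subtype.ext (hu.inj h)]
  ran z := by
    rw [hu.ran]
    constructor
    · rintro ⟨i, z', rfl⟩
      by_cases hi : ∃ c, κ c = i
      · obtain ⟨c, rfl⟩ := hi
        refine ⟨none, bz c z', ?_⟩
        rw [hκ, app_append]
        rfl
      · push Not at hi
        exact ⟨some ⟨i, hi⟩, z', rfl⟩
    · rintro ⟨_ | i, z', rfl⟩
      · obtain ⟨c, z'', rfl⟩ := bz_surj (d := d) z'
        refine ⟨κ c, z'', ?_⟩
        rw [hκ, app_append]
        rfl
      · exact ⟨i.1, z', rfl⟩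

lemma card_merge {I : Type*} [Finite I] {κ : Ch d → I} (hκ : Function.Injective κ) :
    Nat.card (Option {i : I // ∀ c, κ c ≠ i}) < Nat.card I := by
  classical
  have := Fintype.ofFinite I
  rw [Nat.card_eq_fintype_card, Nat.card_eq_fintype_card]
  refine Fintype.card_lt_of_injective_of_notMem
    (fun o : Option {i : I // ∀ c, κ c ≠ i} => o.elim (κ none) fun i => i.1) ?_
    (b := κ (some 0)) ?_
  · rintro (_ | i) (_ | j) h
    · rfl
    · exact (j.2 none h).elim
    · exact (i.2 none h.symm).elim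
    · rw [Subtype.ext h]
  · rintro ⟨_ | i, h⟩
    · have := hκ h
      simp at this
    · exact i.2 _ h.symm

/-- Everything is a product of permutations of cones and labels. -/
lemma all_mem {N : Subgroup (VL ε)}
    (hperm : ∀ {J : Type} [Finite J] {w : J → List (Ch d)} {U : Set Dy}, IsP w U →
      ∀ (σ : Perm J) {g : VL ε}, (∀ j, LCone ε g.1 (w j) (w (σ j)) 1) → Spt g U → g ∈ N)
    (hlbl : ∀ x : List (Ch d), x ≠ [] → ∀ a, lbl ε x a ∈ N) (m : ℕ) :
    ∀ (I : Type) [Finite I], Nat.card I ≤ m → ∀ (u v : I → List (Ch d)), IsP u Set.univ →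
      IsP v Set.univ → ∀ g : VL ε, (∀ i, ∃ a, LCone ε g.1 (u i) (v i) a) → g ∈ N := by
  induction m with
  | zero =>
    intro I _ hI u v hu hv g hg
    obtain ⟨i, -, -⟩ := (hu.ran []).1 trivial
    have : Nonempty I := ⟨i⟩
    have := Nat.card_pos (α := I)
    omega
  | succ m ih =>
    intro I _ hI u v hu hv g hg
    by_cases hne : ∃ i, u i ≠ []
    · have hne' : ∃ i, v i ≠ [] := by
        by_contra hcon
        push Not at hcon
        obtain ⟨i, hi⟩ := hne
        exact hi (IsP.nil_of_all_eq hu (IsP.all_eq hv (hcon i)))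
      obtain ⟨w, κ, hκ⟩ := IsP.exists_caret hu hne
      obtain ⟨w', κ', hκ'⟩ := IsP.exists_caret hv hne'
      have hinj : Function.Injective κ := by
        intro c c' h
        have := (hκ c).symm.trans (by rw [h, hκ c'])
        simpa using this
      have hinj' : Function.Injective κ' := by
        intro c c' h
        have := (hκ' c).symm.trans (by rw [h, hκ' c'])
        simpa using this
      obtain ⟨σ, hσ⟩ := exists_perm_extend κ κ' hinj hinj'
      have hvσ := hv.comp σ
      obtain ⟨g', hg'⟩ := exists_element ε hu hvσ (fun _ => (1 : P))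
      have hg'N : g' ∈ N := by
        refine ih (Option {i : I // ∀ c, κ c ≠ i}) ?_ _ _ (IsP.merge hu hκ)
          (IsP.merge hvσ (w := w') (κ := κ) (fun c => by rw [hσ, hκ'])) g' ?_
        · have := card_merge hinj
          omega
        · rintro (_ | i)
          · refine ⟨1, ?_⟩
            change LCone ε g'.1 w w' 1
            apply LCone.glue (IsP.children (d := d))
            intro c
            have := hg' (κ c)
            rw [hκ, hσ, hκ'] at this
            rwa [map_one]
          · exact ⟨1, hg' i.1⟩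
      choose a ha using hg
      obtain ⟨f, hf1, hf2⟩ := exists_permV ε hv
      have hfN : f σ⁻¹ ∈ N := hperm hv σ⁻¹ (hf1 σ⁻¹) (hf2 σ⁻¹)
      have hvne : ∀ j, v j ≠ [] := by
        intro j hj
        obtain ⟨i, hi⟩ := hne'
        rw [IsP.all_eq hv hj i] at hi
        exact hi hj
      have hq : g * g'⁻¹ * (f σ⁻¹)⁻¹ ∈ N := by
        refine diag_mem hv (a := a) ?_ (fun j => hlbl _ (hvne j) _)
        intro j
        have h1 := hf1 σ⁻¹ (σ j)
        rw [show σ⁻¹ (σ j) = j from Equiv.symm_apply_apply σ j] at h1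
        have := ((ha j).mul (hg' j).inv).mul h1.inv
        simpa using this
      have e : g = (g * g'⁻¹ * (f σ⁻¹)⁻¹) * f σ⁻¹ * g' := by group
      rw [e]
      exact mul_mem (mul_mem hq hfN) hg'N
    · push Not at hne
      obtain ⟨i, -, -⟩ := (hu.ran []).1 trivial
      have hvi := IsP.nil_of_all_eq hv (IsP.all_eq hu (hne i))
      obtain ⟨a, ha⟩ := hg i
      rw [hne i, hvi] at ha
      refine diag_mem (IsP.children (d := d)) (a := fun c => ew ε [c] a) (fun c => ha.append [c])
        (fun c => hlbl _ (by simp) _)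

/-- A normal subgroup acting nontrivially on points is everything. -/
theorem normal_top (hd : Odd d) (hperf : commutator P = ⊤) {N : Subgroup (VL ε)}
    [hN : N.Normal] (h : ¬ N ≤ Bk ε) : N = ⊤ := by
  obtain ⟨u, hu0, hu⟩ := exists_comm_mem h
  have hT := small_swap hd hu
  have huv : Dj (u ++ [none]) (u ++ [some 0]) := by
    apply Dj.prepend
    exact Dj.of_length rfl (by simp)
  have hne : (Set.range (app (u ++ [none])) ∪ Set.range (app (u ++ [some 0])))ᶜ.Nonempty := by
    obtain ⟨w, -, hw⟩ := exists_out hu0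
    refine ⟨app w [], ?_⟩
    rintro (⟨z', e⟩ | ⟨z', e⟩)
    · rw [app_append] at e
      exact hw _ _ e
    · rw [app_append] at e
      exact hw _ _ e
  rw [eq_top_iff]
  intro g _
  obtain ⟨k, hk⟩ := g.2
  have hfin : Finite {w : List (Ch d) // w.length = k} :=
    Set.Finite.to_subtype (List.finite_length_eq (Ch d) k)
  have hk' : ∀ w : {w : List (Ch d) // w.length = k}, ∃ v a, LCone ε g.1 w.1 v a :=
    fun w => hk w.1 w.2
  choose v a hva using hk'
  refine all_mem (N := N) (fun {J} _ {w} {U} hw σ {g} hg hs => perm_mem huv hne hT hw σ hg hs)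
    (fun x hx a => lbl_mem_all hu0 (small_lbl hperf hu a) hx) _ _ le_rfl _ v
    (IsP.level (d := d) k) ?_ g (fun i => ⟨a i, hva i⟩)
  constructor
  · intro i j z z' e
    have h1 : g • app i.1 z = g • app j.1 z' := by
      rw [(hva i).smul, (hva j).smul, e]
    exact (IsP.level k).inj (VL.smul_inj g h1)
  · intro z
    refine ⟨fun _ => ?_, fun _ => trivial⟩
    obtain ⟨i, z', e⟩ := ((IsP.level (d := d) k).ran (g⁻¹ • z)).1 trivial
    refine ⟨i, z', ?_⟩
    rw [← (hva i).smul, e, smul_inv_smul]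

end Top

/-! ### The second case -/

section Bot

variable {d : ℕ} [NeZero d] {P : Type*} [Group P] {ε : Fin d → P →* P}

/-- The commutator of an element with trivial action and a label. -/
lemma lbl_comm_mem {N : Subgroup (VL ε)} [hN : N.Normal] {n : VL ε} (hn : n ∈ N)
    (hnB : n ∈ Bk ε) {v : List (Ch d)} {a : P} (hc : LCone ε n.1 v v a) (b : P) :
    lbl ε v ⁅b, a⁆ ∈ N := by
  have e : lbl ε v ⁅b, a⁆ = lbl ε v b * (n * (lbl ε v b)⁻¹ * n⁻¹) := by
    apply sup_ext (IsP.single v) _ (lbl_spt v _)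
    · apply (lbl_spt v b).mul
      apply ((lbl_spt v b).inv.conj n).mono
      intro z hz
      have : n⁻¹ • z ∈ Set.range (app v) := hz
      rwa [(inv_mem hnB : n⁻¹ ∈ Bk ε) z] at this
    · intro i
      refine ⟨v, ⁅b, a⁆, lbl_cone v _, ?_⟩
      have := (lbl_cone (ε := ε) v b).mul ((hc.mul (lbl_cone v b).inv).mul hc.inv)
      have e2 : ⁅b, a⁆ = b * (a * b⁻¹ * a⁻¹) := by
        rw [commutatorElement_def]
        group
      rw [e2]
      exact this
  rw [e]
  have e3 : lbl ε v b * (n * (lbl ε v b)⁻¹ * n⁻¹) =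
      (lbl ε v b * n * (lbl ε v b)⁻¹) * n⁻¹ := by group
  rw [e3]
  exact mul_mem (hN.conj_mem n hn _) (inv_mem hn)

/-- The largest invariant subgroup. -/
def core (ε : Fin d → P →* P) (R : Subgroup P) : Subgroup P where
  carrier := {x | ∀ w : List (Ch d), ew ε w x ∈ R}
  one_mem' := fun w => by rw [map_one]; exact one_mem R
  mul_mem' := fun ha hb w => by rw [map_mul]; exact mul_mem (ha w) (hb w)
  inv_mem' := fun ha w => by rw [map_inv]; exact inv_mem (ha w)

lemma mem_core {R : Subgroup P} {x : P} : x ∈ core ε R ↔ ∀ w : List (Ch d), ew ε w x ∈ R := Iff.rfl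

lemma core_le (R : Subgroup P) : core ε R ≤ R := fun _ hx => hx []

lemma core_inv (R : Subgroup P) (i : Fin d) : core ε R ≤ (core ε R).comap (ε i) := by
  intro x hx w
  exact hx (some i :: w)

instance core_normal (R : Subgroup P) [hR : R.Normal] : (core ε R).Normal where
  conj_mem := by
    intro x hx y w
    rw [map_mul, map_mul, map_inv]
    exact hR.conj_mem _ (hx w) _

/-- Normal subgroups acting trivially on points. -/
theorem normal_le (hcent : ∀ R : Subgroup P, R.Normal → (∀ i, R ≤ R.comap (ε i)) →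
      ∀ x, (∀ y, x * y * x⁻¹ * y⁻¹ ∈ R) → x ∈ R)
    {N : Subgroup (VL ε)} [hN : N.Normal] (h : N ≤ Bk ε) :
    ∃ R : Subgroup P, R.Normal ∧ (∀ i, R ≤ R.comap (ε i)) ∧ N = NR ε R := by
  have hne0 : ([none] : List (Ch d)) ≠ [] := by simp
  let R : Subgroup P := N.comap (lbl ε [none])
  have hRn : R.Normal := inferInstance
  have hRmem : ∀ {v : List (Ch d)}, v ≠ [] → ∀ {a : P}, lbl ε v a ∈ N ↔ a ∈ R := by
    intro v hv a
    exact ⟨fun h => lbl_mem_all hv h hne0, fun h => lbl_mem_all hne0 h hv⟩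
  -- labels of elements of `N`
  have key : ∀ n ∈ N, ∀ (v : List (Ch d)) (a : P), v ≠ [] → LCone ε n.1 v v a →
      a ∈ core ε R := by
    intro n hn v a hv hc
    refine hcent (core ε R) inferInstance (core_inv R) a ?_
    intro y w
    have h1 := lbl_comm_mem hn (h hn) (hc.append w) (ew ε w y)
    rw [hRmem (by simp [hv])] at h1
    have h2 := inv_mem h1
    rw [commutatorElement_inv, commutatorElement_def] at h2
    simpa using h2
  have hcore : core ε R = R := by
    apply le_antisymm (core_le R)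
    intro a ha
    exact key _ ha _ _ hne0 (lbl_cone [none] a)
  refine ⟨R, hRn, ?_, ?_⟩
  · intro i
    have := core_inv (ε := ε) R i
    rwa [hcore] at this
  · ext g
    constructor
    · intro hg
      refine ⟨h hg, fun z => ?_⟩
      obtain ⟨u, z', v, a, hu, rfl, hc⟩ := VL.local g z 1
      have := Bk.cone (h hg) hc
      subst this
      rw [hc.lab_eq]
      have h1 := key g hg v a (by rintro rfl; simp at hu) hc
      obtain ⟨w, hw⟩ := exists_base (d := d) z'
      obtain ⟨u', -, rfl⟩ := hw w le_rfl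
      rw [tw_app]
      exact h1 u'
    · rintro ⟨hg1, hg2⟩
      obtain ⟨k, hk⟩ := g.2
      have hfin : Finite {w : List (Ch d) // w.length = k + 1} :=
        Set.Finite.to_subtype (List.finite_length_eq (Ch d) (k + 1))
      have hk' : ∀ w : {w : List (Ch d) // w.length = k + 1}, ∃ a, LCone ε g.1 w.1 w.1 a := by
        intro w
        obtain ⟨v, a, hva⟩ := LCL.of_length hk w.1 (by rw [w.2]; omega)
        have := Bk.cone (g := g) hg1 hva
        subst this
        exact ⟨a, hva⟩
      choose a ha using hk'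
      refine diag_mem (IsP.level (d := d) (k + 1)) ha (fun j => ?_)
      rw [hRmem (by
        intro h0
        have := j.2
        rw [h0] at this
        simp at this)]
      have := hg2 (app j.1 [])
      rwa [(ha j).lab_eq] at this

theorem finite_normal (hd : Odd d) (hperf : commutator P = ⊤)
    (hinv : Finite {R : Subgroup P // R.Normal ∧ ∀ i, R ≤ R.comap (ε i)})
    (hcent : ∀ R : Subgroup P, R.Normal → (∀ i, R ≤ R.comap (ε i)) →
      ∀ x, (∀ y, x * y * x⁻¹ * y⁻¹ ∈ R) → x ∈ R) : Finite {N : Subgroup (VL ε) // N.Normal} := by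
  have hf : (Set.range fun o : Option {R : Subgroup P // R.Normal ∧ ∀ i, R ≤ R.comap (ε i)} =>
      o.elim (⊤ : Subgroup (VL ε)) fun R => NR ε R.1).Finite := Set.finite_range _
  apply Set.Finite.to_subtype
  apply hf.subset
  intro N hN
  have hN' : N.Normal := hN
  by_cases h : N ≤ Bk ε
  · obtain ⟨R, hR1, hR2, rfl⟩ := normal_le hcent h
    exact ⟨some ⟨R, hR1, hR2⟩, rfl⟩
  · exact ⟨none, (normal_top hd hperf h).symm⟩

end Bot

end Pool.Agent.BH.NP
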