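import Pool.Agent.BH.VDefs

set_option autoImplicit false

/-!
# Partitions into cones and elements of the labelled Higman-Thompson group
-/

namespace Pool.Agent.BH.NP

open Equiv

variable {d : ℕ}

/-! ### Partitions -/

/-- The cones of the words `u i` form a partition of `U`. -/
structure IsP {I : Type*} (u : I → List (Ch d)) (U : Set Dy) : Prop where
  inj : ∀ {i j : I} {z z' : Dy}, app (u i) z = app (u j) z' → i = j
  ran : ∀ z, z ∈ U ↔ ∃ i z', app (u i) z' = z

/-- Disjoint cones. -/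
def Dj (u v : List (Ch d)) : Prop := ∀ z z', app u z ≠ app v z'

lemma Dj.symm {u v : List (Ch d)} (h : Dj u v) : Dj v u := fun z z' e => h z' z e.symm

lemma Dj.of_length {u v : List (Ch d)} (hl : u.length = v.length) (hne : u ≠ v) : Dj u v :=
  fun _ _ e => hne (app_eq_length e hl).1

lemma Dj.append {u v : List (Ch d)} (h : Dj u v) (w w' : List (Ch d)) : Dj (u ++ w) (v ++ w') :=
  fun z z' e => by
    rw [app_append, app_append] at e
    exact h _ _ e

lemma Dj.prepend {u v : List (Ch d)} (h : Dj u v) (w : List (Ch d)) : Dj (w ++ u) (w ++ v) :=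
  fun z z' e => by
    rw [app_append, app_append] at e
    exact h _ _ (app_inj e)

/-- Two cones are disjoint or nested. -/
lemma dj_or (u v : List (Ch d)) : Dj u v ∨ (∃ w, v = u ++ w) ∨ ∃ w, u = v ++ w := by
  by_cases h : Dj u v
  · exact Or.inl h
  · right
    unfold Dj at h
    push Not at h
    obtain ⟨z, z', e⟩ := h
    rcases le_total u.length v.length with hl | hl
    · obtain ⟨w, hw, -⟩ := app_prefix e hl
      exact Or.inl ⟨w, hw⟩
    · obtain ⟨w, hw, -⟩ := app_prefix e.symm hl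
      exact Or.inr ⟨w, hw⟩

namespace IsP

variable {I J : Type*} {u : I → List (Ch d)} {v : J → List (Ch d)} {U V : Set Dy}

lemma mem (h : IsP u U) (i : I) (z : Dy) : app (u i) z ∈ U := (h.ran _).2 ⟨i, z, rfl⟩

lemma dj (h : IsP u U) {i j : I} (hij : i ≠ j) : Dj (u i) (u j) := fun _ _ e => hij (h.inj e)

lemma of_dj (h : ∀ i j, i ≠ j → Dj (u i) (u j)) : IsP u {z | ∃ i z', app (u i) z' = z} where
  inj := fun {i j z z'} e => by
    by_contra hij
    exact h i j hij z z' e
  ran z := Iff.rfl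

lemma sum (hu : IsP u U) (hv : IsP v V) (hd : Disjoint U V) : IsP (Sum.elim u v) (U ∪ V) where
  inj := by
    rintro (i | i) (j | j) z z' h
    · rw [hu.inj h]
    · exact (Set.disjoint_left.1 hd (hu.mem i z) (by rw [show app (u i) z = app (v j) z' from h]; exact hv.mem j z')).elim
    · exact (Set.disjoint_left.1 hd (hu.mem j z') (by rw [← show app (v i) z = app (u j) z' from h]; exact hv.mem i z)).elim
    · rw [hv.inj h]
  ran z := by
    rw [Set.mem_union, hu.ran, hv.ran]
    constructor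
    · rintro (⟨i, z', h⟩ | ⟨i, z', h⟩)
      · exact ⟨Sum.inl i, z', h⟩
      · exact ⟨Sum.inr i, z', h⟩
    · rintro ⟨i | i, z', h⟩
      · exact Or.inl ⟨i, z', h⟩
      · exact Or.inr ⟨i, z', h⟩

lemma comp (hu : IsP u U) (e : J ≃ I) : IsP (fun j => u (e j)) U where
  inj := fun h => e.injective (hu.inj h)
  ran z := by
    rw [hu.ran]
    constructor
    · rintro ⟨i, z', h⟩
      exact ⟨e.symm i, z', by rw [e.apply_symm_apply]; exact h⟩
    · rintro ⟨j, z', h⟩
      exact ⟨e j, z', h⟩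

lemma single (w : List (Ch d)) : IsP (fun _ : Unit => w) (Set.range (app w)) where
  inj := fun {i j} {z z'} _ => Subsingleton.elim _ _
  ran z := by
    constructor
    · rintro ⟨z', h⟩; exact ⟨(), z', h⟩
    · rintro ⟨i, z', h⟩; exact ⟨z', h⟩

/-- The words of length `k`. -/
lemma level [NeZero d] (k : ℕ) :
    IsP (fun w : {w : List (Ch d) // w.length = k} => w.1) Set.univ where
  inj := by
    rintro ⟨u, hu⟩ ⟨v, hv⟩ z z' h
    exact Subtype.ext (app_eq_length h (hu.trans hv.symm)).1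
  ran z := by
    refine ⟨fun _ => ?_, fun _ => trivial⟩
    obtain ⟨u, z', hu, rfl⟩ := exists_app (d := d) k z
    exact ⟨⟨u, hu⟩, z', rfl⟩

lemma children [NeZero d] : IsP (fun c : Ch d => [c]) Set.univ where
  inj := by
    intro c c' z z' h
    have := (app_eq_length h rfl).1
    simpa using this
  ran z := by
    refine ⟨fun _ => ?_, fun _ => trivial⟩
    obtain ⟨b, z', rfl⟩ := bz_surj (d := d) z
    exact ⟨b, z', rfl⟩

/-- Refine every cone. -/
lemma prod {K : Type*} {w : K → List (Ch d)} (hu : IsP u U) (hw : IsP w Set.univ) :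
    IsP (fun p : I × K => u p.1 ++ w p.2) U where
  inj := by
    rintro ⟨i, k⟩ ⟨j, l⟩ z z' h
    simp only [app_append] at h
    obtain rfl := hu.inj h
    have h2 := app_inj h
    obtain rfl := hw.inj h2
    rfl
  ran z := by
    rw [hu.ran]
    constructor
    · rintro ⟨i, z', rfl⟩
      obtain ⟨k, z'', rfl⟩ := (hw.ran z').1 trivial
      exact ⟨(i, k), z'', by rw [app_append]⟩
    · rintro ⟨⟨i, k⟩, z', rfl⟩
      exact ⟨i, app (w k) z', by rw [app_append]⟩

/-- Prepend a word. -/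
lemma cons (hu : IsP u Set.univ) (w : List (Ch d)) :
    IsP (fun i => w ++ u i) (Set.range (app w)) where
  inj := fun {i j} {z z'} h => by
    simp only [app_append] at h
    exact hu.inj (app_inj h)
  ran z := by
    constructor
    · rintro ⟨z', rfl⟩
      obtain ⟨i, z'', h⟩ := (hu.ran z').1 trivial
      exact ⟨i, z'', by rw [app_append, h]⟩
    · rintro ⟨i, z', rfl⟩
      exact ⟨app (u i) z', by rw [app_append]⟩

end IsP

lemma Dj.isP {u v : List (Ch d)} (h : Dj u v) :
    IsP (fun b : Bool => if b then v else u) (Set.range (app u) ∪ Set.range (app v)) where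
  inj := by
    rintro (_ | _) (_ | _) z z' e
    · rfl
    · exact (h _ _ e).elim
    · exact (h _ _ e.symm).elim
    · rfl
  ran z := by
    constructor
    · rintro (⟨z', e⟩ | ⟨z', e⟩)
      · exact ⟨false, z', e⟩
      · exact ⟨true, z', e⟩
    · rintro ⟨_ | _, z', e⟩
      · exact Or.inl ⟨z', e⟩
      · exact Or.inr ⟨z', e⟩

/-- A finite union of cones. -/
def Clo (d : ℕ) (U : Set Dy) : Prop :=
  ∃ k, ∀ u : List (Ch d), u.length = k → (∀ z, app u z ∈ U) ∨ (∀ z, app u z ∉ U)

lemma Clo.ge {U : Set Dy} {k : ℕ} (h : ∀ u : List (Ch d), u.length = k →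
    (∀ z, app u z ∈ U) ∨ (∀ z, app u z ∉ U)) (u : List (Ch d)) (hu : k ≤ u.length) :
    (∀ z, app u z ∈ U) ∨ (∀ z, app u z ∉ U) := by
  rcases h (u.take k) (by simpa using hu) with h1 | h1
  · left
    intro z
    have := h1 (app (u.drop k) z)
    rwa [← app_append, List.take_append_drop] at this
  · right
    intro z
    have := h1 (app (u.drop k) z)
    rwa [← app_append, List.take_append_drop] at this

lemma Clo.compl {U : Set Dy} (h : Clo d U) : Clo d Uᶜ := by
  obtain ⟨k, hk⟩ := h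
  refine ⟨k, fun u hu => ?_⟩
  rcases hk u hu with h | h
  · exact Or.inr (fun z hz => hz (h z))
  · exact Or.inl (fun z hz => h z hz)

/-- A clopen set has a partition. -/
lemma Clo.exists_isP [NeZero d] {U : Set Dy} (h : Clo d U) :
    ∃ n, ∃ u : Fin n → List (Ch d), IsP u U := by
  obtain ⟨k, hk⟩ := h
  let I := {u : List (Ch d) // u.length = k ∧ ∀ z, app u z ∈ U}
  have hfin : Finite I := by
    apply Set.Finite.to_subtype
    exact (List.finite_length_eq (Ch d) k).subset (fun u hu => hu.1)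
  have hP : IsP (fun u : I => u.1) U := by
    constructor
    · rintro ⟨u, hu⟩ ⟨v, hv⟩ z z' h
      exact Subtype.ext (app_eq_length h (hu.1.trans hv.1.symm)).1
    · intro z
      constructor
      · intro hz
        obtain ⟨u, z', hu, rfl⟩ := exists_app (d := d) k z
        refine ⟨⟨u, hu, ?_⟩, z', rfl⟩
        rcases hk u hu with h | h
        · exact h
        · exact (h z' hz).elim
      · rintro ⟨⟨u, hu⟩, z', rfl⟩
        exact hu.2 z'
  obtain ⟨n, ⟨e⟩⟩ := Finite.exists_equiv_fin I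
  exact ⟨n, _, hP.comp e.symm⟩

lemma exists_bound {I : Type*} [Finite I] (u : I → List (Ch d)) : ∃ k, ∀ i, (u i).length ≤ k := by
  obtain ⟨k, hk⟩ := (Set.finite_range (fun i => (u i).length)).bddAbove
  exact ⟨k, fun i => hk ⟨i, rfl⟩⟩

lemma IsP.clo {I : Type*} [Finite I] {u : I → List (Ch d)} {U : Set Dy} (h : IsP u U) :
    Clo d U := by
  obtain ⟨k, hk⟩ := exists_bound u
  refine ⟨k, fun w hw => ?_⟩
  by_cases hcon : ∃ z, app w z ∈ U
  · left
    obtain ⟨z, hz⟩ := hcon
    obtain ⟨i, z', h'⟩ := (h.ran _).1 hz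
    obtain ⟨w', rfl, -⟩ := app_prefix h' (by rw [hw]; exact hk i)
    intro z''
    rw [app_append]
    exact h.mem i _
  · right
    push Not at hcon
    exact hcon

lemma not_mem_cone_of_ne {u v : List (Ch d)} (hl : u.length = v.length) (hne : u ≠ v) (z : Dy) :
    app u z ∉ Set.range (app v) := by
  rintro ⟨z', h⟩
  exact hne (app_eq_length h hl.symm).1.symm

lemma exists_ne_ch [NeZero d] (b : Ch d) : ∃ c : Ch d, c ≠ b := by
  rcases b with _ | b
  · exact ⟨some 0, by simp⟩
  · exact ⟨none, by simp⟩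

/-- A proper cone has a nonempty complement. -/
lemma exists_out [NeZero d] {u : List (Ch d)} (hu : u ≠ []) : ∃ w, w ≠ [] ∧ Dj u w := by
  rcases u with _ | ⟨b, u⟩
  · exact absurd rfl hu
  · obtain ⟨c, hc⟩ := exists_ne_ch b
    refine ⟨[c], by simp, ?_⟩
    have : Dj ([b] : List (Ch d)) [c] := Dj.of_length rfl (by simpa using hc.symm)
    simpa using this.append u []

/-! ### Elements -/

section Elements

variable [NeZero d] {P : Type*} [Group P] (ε : Fin d → P →* P)

/-- The element defined by two partitions and labels. -/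
theorem exists_element {I : Type*} [Finite I] {u v : I → List (Ch d)} (hu : IsP u Set.univ)
    (hv : IsP v Set.univ) (a : I → P) : ∃ g : VL ε, ∀ i, LCone ε g.1 (u i) (v i) (a i) := by
  let eu : I × Dy ≃ Dy := Equiv.ofBijective (fun p => app (u p.1) p.2) (by
    constructor
    · rintro ⟨i, z⟩ ⟨j, z'⟩ h
      obtain rfl := hu.inj h
      exact congrArg (Prod.mk i) (app_inj h)
    · intro z
      obtain ⟨i, z', h⟩ := (hu.ran z).1 trivial
      exact ⟨(i, z'), h⟩)
  let ev : I × Dy ≃ Dy := Equiv.ofBijective (fun p => app (v p.1) p.2) (by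
    constructor
    · rintro ⟨i, z⟩ ⟨j, z'⟩ h
      obtain rfl := hv.inj h
      exact congrArg (Prod.mk i) (app_inj h)
    · intro z
      obtain ⟨i, z', h⟩ := (hv.ran z).1 trivial
      exact ⟨(i, z'), h⟩)
  let m : Perm ((I × Dy) × P) :=
    { toFun := fun x => (x.1, tw ε x.1.2 (a x.1.1) * x.2)
      invFun := fun x => (x.1, (tw ε x.1.2 (a x.1.1))⁻¹ * x.2)
      left_inv := by rintro ⟨x, s⟩; simp
      right_inv := by rintro ⟨x, s⟩; simp }
  let g : Perm (Dy × P) := (eu.symm.prodCongr (Equiv.refl P)).trans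
    (m.trans (ev.prodCongr (Equiv.refl P)))
  have hg : ∀ i, LCone ε g (u i) (v i) (a i) := by
    intro i z s
    have h1 : eu.symm (app (u i) z) = (i, z) := by
      rw [Equiv.symm_apply_eq]
      rfl
    change (ev.prodCongr (Equiv.refl P)) (m (eu.symm (app (u i) z), s)) = _
    rw [h1]
    rfl
  refine ⟨⟨g, ?_⟩, hg⟩
  obtain ⟨k, hk⟩ := exists_bound u
  refine ⟨k, fun w hw => ?_⟩
  obtain ⟨i, z', h'⟩ := (hu.ran (app w [])).1 trivial
  obtain ⟨w', rfl, -⟩ := app_prefix h' (by rw [hw]; exact hk i)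
  exact ⟨_, _, (hg i).append w'⟩

variable {ε}

/-- Equality can be checked on a partition. -/
lemma eq_of_isP {I : Type*} {u : I → List (Ch d)} (hu : IsP u Set.univ) {g h : VL ε}
    (hgh : ∀ i, ∃ v a, LCone ε g.1 (u i) v a ∧ LCone ε h.1 (u i) v a) : g = h := by
  apply Subtype.ext
  ext1 ⟨z, s⟩
  obtain ⟨i, z', rfl⟩ := (hu.ran z).1 trivial
  obtain ⟨v, a, h1, h2⟩ := hgh i
  rw [h1, h2]

/-- `g` is the identity outside `U`. -/
def Spt (g : VL ε) (U : Set Dy) : Prop := ∀ z ∉ U, ∀ s, g.1 (z, s) = (z, s)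

lemma Spt.mul {g h : VL ε} {U : Set Dy} (hg : Spt g U) (hh : Spt h U) : Spt (g * h) U :=
  fun z hz s => by
    change g.1 (h.1 (z, s)) = _
    rw [hh z hz, hg z hz]

lemma Spt.inv {g : VL ε} {U : Set Dy} (hg : Spt g U) : Spt g⁻¹ U :=
  fun z hz s => by
    change g.1⁻¹ (z, s) = _
    rw [Perm.inv_eq_iff_eq, hg z hz]

lemma Spt.mono {g : VL ε} {U V : Set Dy} (hg : Spt g U) (h : U ⊆ V) : Spt g V :=
  fun z hz s => hg z (fun h' => hz (h h')) s

lemma Spt.smul_eq {g : VL ε} {U : Set Dy} (hg : Spt g U) {z : Dy} (hz : z ∉ U) : g • z = z := by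
  change (g.1 (z, 1)).1 = z
  rw [hg z hz]

lemma Spt.cone {g : VL ε} {U : Set Dy} (hg : Spt g U) {w : List (Ch d)} (h : ∀ z, app w z ∉ U) :
    LCone ε g.1 w w 1 := fun z s => by rw [hg _ (h z), map_one, one_mul]

lemma Spt.conj {g : VL ε} {U : Set Dy} (hg : Spt g U) (n : VL ε) :
    Spt (n * g * n⁻¹) {z | n⁻¹ • z ∈ U} := fun z hz s => by
  change n.1 (g.1 ((n⁻¹ : VL ε).1 (z, s))) = _
  have h1 : (n⁻¹ : VL ε).1 (z, s) = (n⁻¹ • z, lab (n⁻¹ : VL ε).1 z * s) := VL.apply _ _ _
  rw [h1, hg _ hz, ← h1]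
  exact Equiv.apply_symm_apply n.1 (z, s)

lemma Spt.commute {g h : VL ε} {U V : Set Dy} (hg : Spt g U) (hh : Spt h V)
    (hd : ∀ z, z ∈ U → z ∉ V) : g * h = h * g := by
  have h1 : Perm.Disjoint g.1 h.1 := by
    rintro ⟨z, s⟩
    by_cases hz : z ∈ U
    · exact Or.inr (hh z (hd z hz) s)
    · exact Or.inl (hg z hz s)
  exact Subtype.ext h1.commute

lemma sup_ext {I : Type*} {u : I → List (Ch d)} {U : Set Dy} (hu : IsP u U) {g h : VL ε}
    (hgh : ∀ i, ∃ v a, LCone ε g.1 (u i) v a ∧ LCone ε h.1 (u i) v a) (hg : Spt g U)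
    (hh : Spt h U) : g = h := by
  apply Subtype.ext
  ext1 ⟨z, s⟩
  by_cases hz : z ∈ U
  · obtain ⟨i, z', rfl⟩ := (hu.ran z).1 hz
    obtain ⟨v, a, h1, h2⟩ := hgh i
    rw [h1, h2]
  · rw [hg z hz, hh z hz]

variable (ε) in
/-- Elements supported on a clopen set. -/
theorem exists_supported {I : Type*} [Finite I] {u v : I → List (Ch d)} {U : Set Dy}
    (hu : IsP u U) (hv : IsP v U) (a : I → P) :
    ∃ g : VL ε, (∀ i, LCone ε g.1 (u i) (v i) (a i)) ∧ Spt g U := by
  obtain ⟨n, w, hw⟩ := hu.clo.compl.exists_isP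
  have h1 := hu.sum hw disjoint_compl_right
  have h2 := hv.sum hw disjoint_compl_right
  rw [Set.union_compl_self] at h1 h2
  obtain ⟨g, hg⟩ := exists_element ε h1 h2 (Sum.elim a (fun _ => 1))
  refine ⟨g, fun i => hg (Sum.inl i), fun z hz s => ?_⟩
  obtain ⟨i, z', rfl⟩ := (hw.ran z).1 hz
  have := hg (Sum.inr i) z' s
  simpa using this

variable (ε) in
/-- Permutations of a family of cones. -/
theorem exists_permV {J : Type*} [Finite J] {w : J → List (Ch d)} {U : Set Dy} (hw : IsP w U) :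
    ∃ f : Perm J →* VL ε, (∀ σ j, LCone ε (f σ).1 (w j) (w (σ j)) 1) ∧ ∀ σ, Spt (f σ) U := by
  have h : ∀ σ : Perm J, ∃ g : VL ε, (∀ j, LCone ε g.1 (w j) (w (σ j)) 1) ∧ Spt g U := by
    intro σ
    exact exists_supported ε hw (hw.comp σ) (fun _ => (1 : P))
  choose f hf1 hf2 using h
  refine ⟨MonoidHom.mk' f ?_, hf1, hf2⟩
  intro σ τ
  apply sup_ext hw _ (hf2 _) ((hf2 σ).mul (hf2 τ))
  intro j
  refine ⟨_, 1, hf1 (σ * τ) j, ?_⟩
  have := (hf1 σ (τ j)).mul (hf1 τ j)
  rwa [mul_one] at this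

/-! ### The rigid embedding in a cone -/

/-- The identification of everything with the cone of `w`. -/
noncomputable def coneEquiv (P : Type*) (w : List (Ch d)) :
    Dy × P ≃ {x : Dy × P // x.1 ∈ Set.range (app w)} :=
  Equiv.ofBijective (fun x => ⟨(app w x.1, x.2), x.1, rfl⟩) (by
    constructor
    · rintro ⟨z, s⟩ ⟨z', s'⟩ h
      have h1 := congrArg (fun x => x.1.1) h
      have h2 := congrArg (fun x => x.1.2) h
      exact Prod.ext (app_inj h1) h2
    · rintro ⟨⟨z, s⟩, z', h⟩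
      exact ⟨(z', s), Subtype.ext (Prod.ext h rfl)⟩)

open Classical in
/-- The rigid embedding in the cone of `w`. -/
noncomputable def phi0 (w : List (Ch d)) : Perm (Dy × P) →* Perm (Dy × P) :=
  Perm.extendDomainHom (coneEquiv P w)

lemma phi0_in (w : List (Ch d)) (g : Perm (Dy × P)) (z : Dy) (s : P) :
    phi0 w g (app w z, s) = (app w (g (z, s)).1, (g (z, s)).2) := by
  classical
  have := Perm.extendDomain_apply_image g (coneEquiv P w) (z, s)
  exact this

lemma phi0_out (w : List (Ch d)) (g : Perm (Dy × P)) {z : Dy} (hz : z ∉ Set.range (app w))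
    (s : P) : phi0 w g (z, s) = (z, s) := by
  classical
  exact Perm.extendDomain_apply_not_subtype g (coneEquiv P w) hz

lemma phi0_cone {g : Perm (Dy × P)} {u v : List (Ch d)} {a : P} (h : LCone ε g u v a)
    (w : List (Ch d)) : LCone ε (phi0 w g) (w ++ u) (w ++ v) a := fun z s => by
  rw [app_append, app_append, phi0_in, h]

lemma phi0_cone_out (g : Perm (Dy × P)) {u w : List (Ch d)}
    (h : ∀ z, app u z ∉ Set.range (app w)) : LCone ε (phi0 w g) u u 1 := fun z s => by
  rw [phi0_out w g (h z), map_one, one_mul]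

lemma phi0_mem {g : Perm (Dy × P)} (hg : g ∈ VL ε) (w : List (Ch d)) : phi0 w g ∈ VL ε := by
  obtain ⟨k, hk⟩ := hg
  refine ⟨w.length + k, fun u hu => ?_⟩
  by_cases h : ∃ z, app u z ∈ Set.range (app w)
  · obtain ⟨z, z', hz⟩ := h
    obtain ⟨u', rfl, -⟩ := app_prefix hz (by omega)
    obtain ⟨v, a, hv⟩ := hk u' (by simpa using hu)
    exact ⟨_, _, phi0_cone hv w⟩
  · push Not at h
    exact ⟨_, _, phi0_cone_out g h⟩

/-- The rigid embedding in the cone of `w`, in the group. -/
noncomputable def phi (w : List (Ch d)) : VL ε →* VL ε :=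
  ((phi0 w).comp (VL ε).subtype).codRestrict (VL ε) (fun g => phi0_mem g.2 w)

lemma phi_val (w : List (Ch d)) (g : VL ε) : (phi w g).1 = phi0 w g.1 := rfl

lemma phi_cone {g : VL ε} {u v : List (Ch d)} {a : P} (h : LCone ε g.1 u v a)
    (w : List (Ch d)) : LCone ε (phi w g).1 (w ++ u) (w ++ v) a := phi0_cone h w

lemma phi_spt (w : List (Ch d)) (g : VL ε) : Spt (phi w g) (Set.range (app w)) :=
  fun z hz s => by rw [phi_val, phi0_out w _ hz]

end Elements

end Pool.Agent.BH.NP
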