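import Pool.Agent.BH.VOneRayStd
import Pool.Agent.Helper13.Fraction

set_option autoImplicit false

/-!
# Injectivity of the standard representation
-/

namespace Pool.Agent.BH

open Subgroup Equiv
open Pool.Agent.Helper13 (CoxA ActA Frac Pos frac_injective)

section Frac

variable {Γ : Type*} [Group Γ] {d : ℕ} [NeZero d] {A : ℕ → Γ} {t : Γ} {ρ : Γ →* Perm Dy}

/-- The standard representation. -/
structure StdRep (d : ℕ) (A : ℕ → Γ) (t : Γ) (ρ : Γ →* Perm Dy) : Prop where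
  rA : ∀ i, ρ (A i) = sA i
  rt : ρ t = tsp d 0

omit [NeZero d] in
lemma StdRep.rT (hρ : StdRep d A t ρ) (m : ℕ) : ρ (gT d A t m) = tsp d m := by
  rw [gT_map, hρ.rt]
  have : (fun i => ρ (A i)) = sA := funext hρ.rA
  rw [this, std_gT]

omit [NeZero d] in
lemma StdRep.actA (hρ : StdRep d A t ρ) : ActA ρ A (fun i => ([i] : Dy)) where
  inj := by
    intro i j h
    simpa using h
  left i := by rw [hρ.rA, sA, hp_cons, swap_apply_left]
  right i := by rw [hρ.rA, sA, hp_cons, swap_apply_right]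
  fix i j h1 h2 := by rw [hρ.rA, sA, hp_cons, swap_apply_of_ne_of_ne h1 h2]

/-- The base group. -/
def Hb (A : ℕ → Γ) : Subgroup Γ := closure (Set.range A)

/-- The stabilizer of the ray cone `0` in the base group. -/
def H0 (A : ℕ → Γ) : Subgroup Γ := closure (A '' {i | 1 ≤ i})

lemma A_mem (n : ℕ) : A n ∈ Hb A := subset_closure ⟨n, rfl⟩

lemma H0_le : H0 A ≤ Hb A := closure_mono (Set.image_subset_range _ _)

omit [NeZero d] in
lemma conj_H0 (hs : ∀ n, 1 ≤ n → t * A n * t⁻¹ = A (n + d)) (h : Γ) (hh : h ∈ H0 A) :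
    t * h * t⁻¹ ∈ Hb A := by
  have hle : H0 A ≤ (Hb A).comap (MulAut.conj t).toMonoidHom := by
    unfold H0
    rw [closure_le]
    rintro _ ⟨i, hi, rfl⟩
    change t * A i * t⁻¹ ∈ Hb A
    rw [hs i hi]
    exact A_mem _
  exact hle hh

omit [NeZero d] in
lemma Hb_rep (hρ : StdRep d A t ρ) (σ : Γ) (hσ : σ ∈ Hb A) : ∃ p, ρ σ = hp p := by
  have hle : Hb A ≤ hp.range.comap ρ := by
    unfold Hb
    rw [closure_le]
    rintro _ ⟨i, rfl⟩
    exact ⟨_, (hρ.rA i).symm⟩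
  obtain ⟨p, hp⟩ := hle hσ
  exact ⟨p, hp.symm⟩

omit [NeZero d] in
lemma exists_up (hρ : StdRep d A t ρ) (j : ℕ) (hj : 1 ≤ j) :
    ∃ k ∈ H0 A, ρ k ([1] : Dy) = [j] := by
  induction j, hj using Nat.le_induction with
  | base => exact ⟨1, one_mem _, by simp⟩
  | succ j hj ih =>
    obtain ⟨k, hk, hk'⟩ := ih
    refine ⟨A j * k, mul_mem (subset_closure ⟨j, hj, rfl⟩) hk, ?_⟩
    rw [map_mul, Perm.mul_apply, hk', hρ.rA, sA, hp_cons, swap_apply_left]

omit [NeZero d] in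
/-- The double coset decomposition of the base group. -/
lemma double_coset (R : CoxA A) (hρ : StdRep d A t ρ) (σ : Γ) (hσ : σ ∈ Hb A) :
    σ ∈ H0 A ∨ ∃ k ∈ H0 A, ∃ k' ∈ H0 A, σ = k * A 0 * k' := by
  obtain ⟨p, hp'⟩ := Hb_rep hρ σ hσ
  rcases Nat.eq_zero_or_pos (p 0) with h0 | h0
  · left
    apply hρ.actA.fix_zero R σ hσ
    rw [hp', hp_cons, h0]
  · right
    obtain ⟨k, hk, hk'⟩ := exists_up hρ (p 0) h0
    have hσ' : A 0 * k⁻¹ * σ ∈ H0 A := by
      apply hρ.actA.fix_zero R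
      · exact mul_mem (mul_mem (A_mem 0) (inv_mem (H0_le hk))) hσ
      · change ρ (A 0 * k⁻¹ * σ) [0] = [0]
        rw [map_mul, map_mul, Perm.mul_apply, Perm.mul_apply, hp', hp_cons, ← hk', map_inv,
          show (ρ k)⁻¹ (ρ k ([1] : Dy)) = [1] by rw [Perm.inv_eq_iff_eq], hρ.rA, sA, hp_cons,
          swap_apply_right]
    refine ⟨k, hk, A 0 * k⁻¹ * σ, hσ', ?_⟩
    have := R.sq 0
    calc σ = k * (1 * k⁻¹ * σ) := by group
      _ = k * (A 0 * A 0 * k⁻¹ * σ) := by rw [this]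
      _ = _ := by group

omit [NeZero d] in
/-- The representation is faithful on the base group. -/
lemma Hb_injective (R : CoxA A) (hρ : StdRep d A t ρ) (h : Γ) (hh : h ∈ Hb A) (h1 : ρ h = 1) :
    h = 1 := by
  apply hρ.actA.injective R h hh
  intro k
  rw [h1]
  rfl

/-- `f` maps the ray cone `i` into the ray cone `j`. -/
def InR (f : Perm Dy) (i j : ℕ) : Prop := ∀ z, ∃ z', f (i :: z) = j :: z'

lemma InR.mul {f g : Perm Dy} {i j k : ℕ} (hf : InR f j k) (hg : InR g i j) :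
    InR (f * g) i k := by
  intro z
  obtain ⟨z', h⟩ := hg z
  rw [Perm.mul_apply, h]
  exact hf z'

/-- `f` is an isomorphism from the ray cone `i` to the ray cone `j`. -/
def OnR (f : Perm Dy) (i j : ℕ) : Prop := InR f i j ∧ InR f⁻¹ j i

lemma OnR.mul {f g : Perm Dy} {i j k : ℕ} (hf : OnR f j k) (hg : OnR g i j) :
    OnR (f * g) i k := ⟨hf.1.mul hg.1, by rw [mul_inv_rev]; exact hg.2.mul hf.2⟩

lemma OnR.inv {f : Perm Dy} {i j : ℕ} (hf : OnR f i j) : OnR f⁻¹ j i :=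
  ⟨hf.2, by rw [inv_inv]; exact hf.1⟩

lemma hp_OnR (p : Perm ℕ) (i : ℕ) : OnR (hp p) i (p i) := by
  constructor
  · intro z
    exact ⟨z, rfl⟩
  · intro z
    refine ⟨z, ?_⟩
    rw [Perm.inv_eq_iff_eq, hp_cons]

omit [NeZero d] in
lemma Hb_OnR (hρ : StdRep d A t ρ) (h : Γ) (hh : h ∈ Hb A) :
    ∃ p : Perm ℕ, ∀ i, OnR (ρ h) i (p i) := by
  obtain ⟨p, h1⟩ := Hb_rep hρ h hh
  exact ⟨p, fun i => by rw [h1]; exact hp_OnR p i⟩

lemma tsp_OnR (n i : ℕ) (h : n < i) : OnR (tsp d n) i (i + d) := by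
  have e : ∀ z, tsp d n (i :: z : Dy) = (i + d) :: z := fun z => spl_gt d h z
  constructor
  · intro z
    exact ⟨z, e z⟩
  · intro z
    refine ⟨z, ?_⟩
    rw [Perm.inv_eq_iff_eq, e]

lemma tsp_OnR_lt (n i : ℕ) (h : i < n) : OnR (tsp d n) i i := by
  have e : ∀ z, tsp d n (i :: z : Dy) = i :: z := fun z => spl_lt d h z
  constructor
  · intro z
    exact ⟨z, e z⟩
  · intro z
    refine ⟨z, ?_⟩
    rw [Perm.inv_eq_iff_eq, e]

lemma tsp_inv_InR (j : ℕ) : ∃ j', InR (tsp d 0)⁻¹ j j' := by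
  rcases Nat.eq_zero_or_pos j with rfl | h
  · refine ⟨0, fun z => ?_⟩
    rcases z with _ | ⟨i, z⟩
    · exact ⟨[], by rw [Perm.inv_eq_iff_eq]; exact (spl_self_nil d 0).symm⟩
    · exact ⟨(i + d) :: z, by rw [Perm.inv_eq_iff_eq]; exact (spl_self_ge d i z).symm⟩
  · rcases Nat.lt_or_ge d j with h' | h'
    · obtain ⟨k, rfl⟩ : ∃ k, j = k + d := ⟨j - d, by omega⟩
      exact ⟨k, (tsp_OnR 0 k (by omega)).2⟩
    · refine ⟨0, fun z => ⟨(j - 1) :: z, ?_⟩⟩
      rw [Perm.inv_eq_iff_eq, tsp_apply, spl_self_lt d (by omega),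
        show 0 + 1 + (j - 1) = j by omega]

lemma not_InR_tsp (j : ℕ) : ¬ InR (tsp d 0) 0 j := by
  intro h
  have hd := Nat.pos_of_neZero d
  obtain ⟨z, e⟩ := h []
  obtain ⟨z', e'⟩ := h [0]
  rw [tsp_apply, spl_self_nil] at e
  rw [tsp_apply, spl_self_lt d hd] at e'
  simp only [List.cons.injEq] at e e'
  omega

/-- The splittings. -/
def Spl (A : ℕ → Γ) (t : Γ) : Set Γ := {l | ∃ h₁ ∈ Hb A, ∃ h₂ ∈ Hb A, l = h₁ * t * h₂}

/-- Visibility of a splitting. -/
def FacR (ρ : Γ →* Perm Dy) (f : Perm Dy) (l : Γ) : Prop :=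
  ∀ i, (∀ j, ¬ InR (ρ l) i j) → ∀ j, ¬ InR f i j

omit [NeZero d] in
/-- The data of the diamond. -/
lemma diamond_data (R : CoxA A) (hs : ∀ n, 1 ≤ n → t * A n * t⁻¹ = A (n + d))
    (hρ : StdRep d A t ρ) (l₁ l₂ : Γ) (h₁ : l₁ ∈ Spl A t) (h₂ : l₂ ∈ Spl A t) :
    (∃ h ∈ Hb A, l₂ = h * l₁) ∨ ∃ h ∈ Hb A, ∃ h' ∈ Hb A,
      ∃ r ∈ Hb A, l₁ = h⁻¹ * t * r ∧ l₂ = h'⁻¹ * t * A 0 * r := by
  obtain ⟨a, ha, b, hb, rfl⟩ := h₁
  obtain ⟨a', ha', b', hb', rfl⟩ := h₂
  rcases double_coset R hρ (b' * b⁻¹) (mul_mem hb' (inv_mem hb)) with h | ⟨k, hk, k', hk', e⟩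
  · left
    refine ⟨a' * (t * (b' * b⁻¹) * t⁻¹) * a⁻¹,
      mul_mem (mul_mem ha' (conj_H0 hs _ h)) (inv_mem ha), by group⟩
  · right
    refine ⟨(t * k' * t⁻¹) * a⁻¹, mul_mem (conj_H0 hs _ hk') (inv_mem ha),
      (t * k * t⁻¹)⁻¹ * a'⁻¹, mul_mem (inv_mem (conj_H0 hs _ hk)) (inv_mem ha'),
      k' * b, mul_mem (H0_le hk') hb, by group, ?_⟩
    have : b' = k * A 0 * k' * b := by rw [← e]; group
    rw [this]
    group

lemma gT_mem (m : ℕ) : gT d A t m ∈ Spl A t := by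
  induction m with
  | zero => exact ⟨1, one_mem _, 1, one_mem _, by simp [gT]⟩
  | succ m ih =>
    obtain ⟨a, ha, b, hb, e⟩ := ih
    refine ⟨asc A m (d + 1) * a, mul_mem (asc_mem _ _ fun i _ _ => A_mem i) ha, b * A m,
      mul_mem hb (A_mem m), ?_⟩
    rw [gT, e]
    group

theorem oneRay_injective (R : CoxA A) (hs : ∀ n, 1 ≤ n → t * A n * t⁻¹ = A (n + d))
    (hdia : gT d A t (1 + d) * t = (t * asc A 0 (d + 1)) * (t * A 0))
    (hρ : StdRep d A t ρ) (hgen : closure (Set.range A ∪ {t}) = ⊤) : Function.Injective ρ := by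
  have hL_left : ∀ h ∈ Hb A, ∀ l ∈ Spl A t, h * l ∈ Spl A t := by
    rintro h hh _ ⟨a, ha, b, hb, rfl⟩
    exact ⟨h * a, mul_mem hh ha, b, hb, by group⟩
  have hL_right : ∀ l ∈ Spl A t, ∀ h ∈ Hb A, l * h ∈ Spl A t := by
    rintro _ ⟨a, ha, b, hb, rfl⟩ h hh
    exact ⟨a, ha, b * h, mul_mem hb hh, by group⟩
  have ht0 : t * asc A 0 (d + 1) ∈ Spl A t :=
    ⟨1, one_mem _, asc A 0 (d + 1), asc_mem _ _ fun i _ _ => A_mem i, by group⟩
  have hF : Frac (Hb A) (Spl A t) := by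
    refine ⟨hL_left, hL_right, ?_⟩
    intro l₁ h₁ l₂ h₂
    rcases diamond_data R hs hρ l₁ l₂ h₁ h₂ with h | ⟨h, hh, h', hh', r, hr, e1, e2⟩
    · exact Or.inl h
    · right
      refine ⟨t * asc A 0 (d + 1) * h', hL_right _ ht0 _ hh',
        gT d A t (1 + d) * h, hL_right _ (gT_mem _) _ hh, ?_⟩
      rw [e1, e2]
      calc gT d A t (1 + d) * h * (h⁻¹ * t * r) = (gT d A t (1 + d) * t) * r := by group
        _ = _ := by rw [hdia]; group
  have hgen' : closure ((Hb A : Set Γ) ∪ Spl A t) = ⊤ := by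
    rw [eq_top_iff, ← hgen, closure_le]
    rintro g (⟨i, rfl⟩ | hg)
    · exact subset_closure (Or.inl (A_mem i))
    · rw [Set.mem_singleton_iff] at hg
      rw [hg]
      exact subset_closure (Or.inr ⟨1, one_mem _, 1, one_mem _, by group⟩)
  -- inverses of positive elements do not split
  have hpos : ∀ n m, Pos (Hb A) (Spl A t) n m → ∀ j, ∃ j', InR (ρ m)⁻¹ j j' := by
    intro n m hm
    induction hm with
    | base h hh =>
      intro j
      obtain ⟨p, hp'⟩ := Hb_OnR hρ h hh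
      refine ⟨p.symm j, ?_⟩
      have := (hp' (p.symm j)).2
      rwa [p.apply_symm_apply] at this
    | step n m l hm hl ih =>
      intro j
      obtain ⟨j1, h1⟩ := ih j
      obtain ⟨a, ha, b, hb, rfl⟩ := hl
      obtain ⟨p, hp'⟩ := Hb_OnR hρ a ha
      obtain ⟨q, hq'⟩ := Hb_OnR hρ b hb
      have h2 := (hp' (p.symm j1)).2
      rw [p.apply_symm_apply] at h2
      obtain ⟨j3, h3⟩ := tsp_inv_InR (d := d) (p.symm j1)
      have h4 := (hq' (q.symm j3)).2
      rw [q.apply_symm_apply] at h4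
      refine ⟨q.symm j3, ?_⟩
      have e : (ρ (m * (a * t * b)))⁻¹ = (ρ b)⁻¹ * ((tsp d 0)⁻¹ * ((ρ a)⁻¹ * (ρ m)⁻¹)) := by
        rw [map_mul, map_mul, map_mul, hρ.rt]; group
      rw [e]
      exact h4.mul (h3.mul (h2.mul h1))
  refine frac_injective hF hgen' ρ (FacR ρ) ?_ ?_ ?_ (Hb_injective R hρ)
  · -- F1
    intro n m hm l hl i hi j hj
    obtain ⟨j', hj'⟩ := hpos n m hm j
    apply hi j'
    have := hj'.mul hj
    rw [map_mul, inv_mul_cancel_left] at this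
    exact this
  · -- F2
    intro n m hm l₁ h₁ l₂ h₂ hne hFac
    rcases diamond_data R hs hρ l₁ l₂ h₁ h₂ with h | ⟨h, hh, h', hh', r, hr, e1, e2⟩
    · exact absurd h hne
    · refine ⟨t * asc A 0 (d + 1) * h', hL_right _ ht0 _ hh',
        gT d A t (1 + d) * h, hL_right _ (gT_mem _) _ hh, ?_, ?_⟩
      · rw [e1, e2]
        calc gT d A t (1 + d) * h * (h⁻¹ * t * r) = (gT d A t (1 + d) * t) * r := by group
          _ = _ := by rw [hdia]; group
      · intro i hi j hj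
        obtain ⟨p, hp'⟩ := Hb_OnR hρ h hh
        obtain ⟨q, hq'⟩ := Hb_OnR hρ r hr
        obtain ⟨q', hq''⟩ := Hb_OnR hρ h' hh'
        have hx0 : ∀ i, OnR (ρ (A 0)) i (swap 0 1 i) := by
          intro i
          rw [hρ.rA]
          exact hp_OnR _ i
        have hp2 : p i = 1 + d := by
          by_contra hcon
          rcases Nat.lt_or_ge (p i) (1 + d) with hlt | hge
          · exact hi _ (by
              rw [map_mul, hρ.rT]
              exact (tsp_OnR_lt _ _ hlt).1.mul (hp' i).1)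
          · exact hi _ (by
              rw [map_mul, hρ.rT]
              exact (tsp_OnR _ _ (by omega)).1.mul (hp' i).1)
        -- the cone split by `l₂`
        have hi2 : ∀ j, ¬ InR (ρ l₂) (q.symm 1) j := by
          intro j hj
          have e3 : tsp d 0 = ρ h' * ρ l₂ * (ρ r)⁻¹ * ρ (A 0) := by
            rw [e2]
            simp only [map_mul, map_inv, ← hρ.rt]
            have := congrArg ρ (R.sq 0)
            rw [map_mul, map_one] at this
            calc ρ t = ρ t * (ρ (A 0) * ρ (A 0)) := by rw [this, mul_one]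
              _ = _ := by group
          apply not_InR_tsp (d := d) (q' j)
          rw [e3]
          have h3 := (hx0 0).1
          rw [swap_apply_left] at h3
          have h4 := (hq' (q.symm 1)).2
          rw [q.apply_symm_apply] at h4
          exact (((hq'' j).1.mul hj).mul h4).mul h3
        -- `l₁` maps it to the cone `i`
        have hl₁ : OnR (ρ l₁) (q.symm 1) i := by
          rw [e1, map_mul, map_mul, map_inv, hρ.rt]
          have h3 := (hp' i).inv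
          rw [hp2] at h3
          have h4 := hq' (q.symm 1)
          rw [q.apply_symm_apply] at h4
          exact (h3.mul (tsp_OnR 0 1 (by omega))).mul h4
        exact hFac (q.symm 1) hi2 j (by rw [map_mul]; exact hj.mul hl₁.1)
  · -- F3
    intro h hh l hl hFac
    obtain ⟨a, ha, b, hb, rfl⟩ := hl
    obtain ⟨p, hp'⟩ := Hb_OnR hρ h hh
    obtain ⟨q, hq'⟩ := Hb_OnR hρ b hb
    obtain ⟨q', hq''⟩ := Hb_OnR hρ a ha
    refine hFac (q.symm 0) ?_ _ (hp' _).1
    intro j hj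
    apply not_InR_tsp (d := d) (q'.symm j)
    have h1 := (hq'' (q'.symm j)).2
    rw [q'.apply_symm_apply] at h1
    have h2 := (hq' (q.symm 0)).2
    rw [q.apply_symm_apply] at h2
    have := (h1.mul hj).mul h2
    have e : (ρ a)⁻¹ * ρ (a * t * b) * (ρ b)⁻¹ = tsp d 0 := by
      rw [map_mul, map_mul, hρ.rt]; group
    rwa [e] at this

end Frac

end Pool.Agent.BH
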