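import Pool.Agent.Helper13.OneRayInj

set_option autoImplicit false

/-!
# Relations of the one-ray Higman-Thompson group of degree `d + 1`
-/

namespace Pool.Agent.BH

open Subgroup
open Pool.Agent.Helper13 (CoxA conj_rel)

section Rel

variable {Γ : Type*} [Group Γ]

/-- The adjacent transpositions, from the generators `x 0, …, x d` and `t`. -/
def gA (d : ℕ) (x : ℕ → Γ) (t : Γ) : ℕ → Γ
  | 0 => x 0
  | n + 1 => t ^ (n / d) * x (n % d + 1) * (t ^ (n / d))⁻¹

/-- Ascending products `A m * A (m+1) * ⋯`, with `k` factors. -/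
def asc (A : ℕ → Γ) (m : ℕ) : ℕ → Γ
  | 0 => 1
  | k + 1 => asc A m k * A (m + k)

/-- The splittings. -/
def gT (d : ℕ) (A : ℕ → Γ) (t : Γ) : ℕ → Γ
  | 0 => t
  | m + 1 => asc A m (d + 1) * gT d A t m * A m

/-- The relations up to a bound `N`. -/
structure GRel (d : ℕ) (A T : ℕ → Γ) (N : ℕ) : Prop where
  sq : ∀ i ≤ N, A i * A i = 1
  braid : ∀ i ≤ N, A i * A (i + 1) * A i = A (i + 1) * A i * A (i + 1)
  comm : ∀ i ≤ N, ∀ j ≤ N, i + 2 ≤ j → A i * A j = A j * A i
  TA : ∀ i ≤ N, ∀ j ≤ N, i < j → T i * A j = A (j + d) * T i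
  TT : ∀ i ≤ N, ∀ j ≤ N, i < j → T i * T j = T (j + d) * T i
  AT : ∀ i ≤ N, ∀ j ≤ N, i + 1 < j → T j * A i = A i * T j

lemma gA_zero (d : ℕ) (x : ℕ → Γ) (t : Γ) : gA d x t 0 = x 0 := rfl

lemma gA_shift (d : ℕ) (hd : 0 < d) (x : ℕ → Γ) (t : Γ) (n : ℕ) (hn : 1 ≤ n) :
    t * gA d x t n * t⁻¹ = gA d x t (n + d) := by
  obtain ⟨k, rfl⟩ : ∃ k, n = k + 1 := ⟨n - 1, by omega⟩
  rw [show k + 1 + d = (k + d) + 1 by omega]
  simp only [gA]
  rw [Nat.add_div_right _ hd, Nat.add_mod_right, pow_succ']
  group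

lemma gA_small (d : ℕ) (x : ℕ → Γ) (t : Γ) (n : ℕ) (hn : n ≤ d) : gA d x t n = x n := by
  rcases n with _ | n
  · rfl
  · simp only [gA]
    rw [Nat.div_eq_of_lt (by omega), Nat.mod_eq_of_lt (by omega)]
    simp

lemma asc_map {P : Type*} [Group P] (F : Γ →* P) (A : ℕ → Γ) (m k : ℕ) :
    F (asc A m k) = asc (fun i => F (A i)) m k := by
  induction k with
  | zero => simp [asc]
  | succ k ih => simp [asc, ih]

lemma gT_map {P : Type*} [Group P] (F : Γ →* P) (d : ℕ) (A : ℕ → Γ) (t : Γ) (m : ℕ) :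
    F (gT d A t m) = gT d (fun i => F (A i)) (F t) m := by
  induction m with
  | zero => rfl
  | succ m ih => simp [gT, ih, asc_map]

lemma gA_map {P : Type*} [Group P] (F : Γ →* P) (d : ℕ) (x : ℕ → Γ) (t : Γ) (m : ℕ) :
    F (gA d x t m) = gA d (fun i => F (x i)) (F t) m := by
  rcases m with _ | m
  · rfl
  · simp [gA]

variable {d : ℕ} {A : ℕ → Γ} {t : Γ} {N : ℕ}

lemma asc_shift (hs : ∀ n, 1 ≤ n → t * A n * t⁻¹ = A (n + d)) (m : ℕ) (hm : 1 ≤ m) (k : ℕ) :
    t * asc A m k * t⁻¹ = asc A (m + d) k := by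
  induction k with
  | zero => simp [asc]
  | succ k ih =>
    have h1 := hs (m + k) (by omega)
    rw [asc, asc, ← ih, show m + d + k = m + k + d by omega, ← h1]
    group

lemma asc_mem {H : Subgroup Γ} (m k : ℕ) (h : ∀ i, m ≤ i → i < m + k → A i ∈ H) :
    asc A m k ∈ H := by
  induction k with
  | zero => exact H.one_mem
  | succ k ih =>
    exact H.mul_mem (ih fun i h1 h2 => h i h1 (by omega)) (h _ (by omega) (by omega))

namespace GRel

variable (R : GRel d A (gT d A t) N) (hd : 0 < d)
  (hs : ∀ n, 1 ≤ n → t * A n * t⁻¹ = A (n + d)) (hN : 3 * d + 2 ≤ N)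

include R hd hs hN

lemma shiftT (m : ℕ) (hm : 1 ≤ m) : t * gT d A t m * t⁻¹ = gT d A t (m + d) := by
  induction m, hm using Nat.le_induction with
  | base =>
    have := R.TT 0 (by omega) 1 (by omega) (by omega)
    change t * gT d A t 1 = gT d A t (1 + d) * t at this
    rw [this]
    group
  | succ m hm ih =>
    have h1 := asc_shift hs m hm (d + 1)
    have h2 := hs m hm
    rw [show m + 1 + d = (m + d) + 1 by omega]
    rw [gT, gT, ← h1, ← h2, ← ih]
    group

lemma shiftTA {i n : ℕ} (hi : 1 ≤ i) (hn : 1 ≤ n)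
    (h : gT d A t i * A n = A (n + d) * gT d A t i) :
    gT d A t (i + d) * A (n + d) = A (n + d + d) * gT d A t (i + d) := by
  have := conj_rel (g := t) h
  rw [hs n hn, hs (n + d) (by omega), R.shiftT hd hs hN i hi] at this
  exact this

/-- `T₁ Aₙ = Aₙ₊d T₁` for `n ≥ 2`. -/
lemma star : ∀ n, 2 ≤ n → gT d A t 1 * A n = A (n + d) * gT d A t 1 := by
  intro n
  induction n using Nat.strong_induction_on with
  | _ n ih =>
    intro hn
    rcases Nat.lt_or_ge N n with h | h
    · obtain ⟨k, rfl⟩ : ∃ k, n = k + d + d := ⟨n - d - d, by omega⟩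
      have h0 := ih k (by omega) (by omega)
      have h1 := R.shiftTA hd hs hN le_rfl (by omega) h0
      have h2 := R.shiftTA hd hs hN (by omega) (by omega) h1
      have h3 := ih (k + d) (by omega) (by omega)
      have h4 := R.TT 1 (by omega) (1 + d) (by omega) (by omega)
      set T1 := gT d A t 1
      set T2 := gT d A t (1 + d)
      set T3 := gT d A t (1 + d + d)
      have e1 : A (k + d + d) = T2 * A (k + d) * T2⁻¹ := by
        rw [h1]; group
      calc T1 * A (k + d + d) = (T1 * T2) * A (k + d) * T2⁻¹ := by rw [e1]; group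
        _ = T3 * (T1 * A (k + d)) * T2⁻¹ := by rw [h4]; group
        _ = (T3 * A (k + d + d)) * T1 * T2⁻¹ := by rw [h3]; group
        _ = A (k + d + d + d) * (T3 * T1) * T2⁻¹ := by rw [h2]; group
        _ = A (k + d + d + d) * T1 := by rw [← h4]; group
    · exact R.TA 1 (by omega) n h (by omega)

lemma star3 (n : ℕ) (hn : 2 * d + 2 ≤ n) :
    gT d A t (1 + d + d) * A n = A (n + d) * gT d A t (1 + d + d) := by
  obtain ⟨k, rfl⟩ : ∃ k, n = k + d + d := ⟨n - d - d, by omega⟩
  exact R.shiftTA hd hs hN (by omega) (by omega)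
    (R.shiftTA hd hs hN le_rfl (by omega) (R.star hd hs hN k (by omega)))

omit R hd hs hN in
/-- transport a commutation along a conjugation -/
lemma comm_step {g x y y' : Γ} (h : x * y = y * x) (hg : g * x = x * g) (hy : g * y = y' * g) :
    x * y' = y' * x := by
  have e : y' = g * y * g⁻¹ := by rw [hy]; group
  have hgi : x * g⁻¹ = g⁻¹ * x := by
    rw [mul_inv_eq_iff_eq_mul, mul_assoc, ← hg, inv_mul_cancel_left]
  rw [e]
  calc x * (g * y * g⁻¹) = (x * g) * y * g⁻¹ := by group
    _ = g * (x * y) * g⁻¹ := by rw [← hg]; group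
    _ = g * y * (x * g⁻¹) := by rw [h]; group
    _ = _ := by rw [hgi]; group

lemma comm_small (i : ℕ) (hi : i ≤ d) : ∀ j, i + 2 ≤ j → A i * A j = A j * A i := by
  intro j
  induction j using Nat.strong_induction_on with
  | _ j ih =>
    intro hj
    rcases Nat.lt_or_ge N j with h | h
    · obtain ⟨k, rfl⟩ : ∃ k, j = k + d := ⟨j - d, by omega⟩
      have h1 := R.star3 hd hs hN k (by omega)
      have h2 := R.AT i (by omega) (1 + d + d) (by omega) (by omega)
      exact comm_step (ih k (by omega) (by omega)) h2 h1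
    · exact R.comm i (by omega) j h hj

/-- The transpositions satisfy the Coxeter relations. -/
lemma cox : CoxA A := by
  refine ⟨?_, ?_, ?_⟩
  · intro i
    induction i using Nat.strong_induction_on with
    | _ i ih =>
      rcases Nat.lt_or_ge N i with h | h
      · obtain ⟨k, rfl⟩ : ∃ k, i = k + d := ⟨i - d, by omega⟩
        rw [← hs k (by omega)]
        have := ih k (by omega)
        calc t * A k * t⁻¹ * (t * A k * t⁻¹) = t * (A k * A k) * t⁻¹ := by group
          _ = 1 := by rw [this]; group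
      · exact R.sq i h
  · intro i
    induction i using Nat.strong_induction_on with
    | _ i ih =>
      rcases Nat.lt_or_ge N i with h | h
      · obtain ⟨k, rfl⟩ : ∃ k, i = k + d := ⟨i - d, by omega⟩
        rw [show k + d + 1 = (k + 1) + d by omega, ← hs k (by omega), ← hs (k + 1) (by omega)]
        have := ih k (by omega)
        calc t * A k * t⁻¹ * (t * A (k + 1) * t⁻¹) * (t * A k * t⁻¹)
            = t * (A k * A (k + 1) * A k) * t⁻¹ := by group
          _ = t * (A (k + 1) * A k * A (k + 1)) * t⁻¹ := by rw [this]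
          _ = _ := by group
      · exact R.braid i h
  · intro i
    induction i using Nat.strong_induction_on with
    | _ i ih =>
      intro j hij
      rcases Nat.lt_or_ge d i with h | h
      · obtain ⟨k, rfl⟩ : ∃ k, i = k + d := ⟨i - d, by omega⟩
        obtain ⟨l, rfl⟩ : ∃ l, j = l + d := ⟨j - d, by omega⟩
        have := conj_rel (g := t) (ih k (by omega) l (by omega))
        rw [hs k (by omega), hs l (by omega)] at this
        exact this
      · exact R.comm_small hd hs hN i h j hij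

/-- The basic diamond. -/
lemma basic_diamond : gT d A t (1 + d) * t = (t * asc A 0 (d + 1)) * (t * A 0) := by
  have := R.TT 0 (by omega) 1 (by omega) (by omega)
  change t * gT d A t 1 = gT d A t (1 + d) * t at this
  rw [← this, gT, gT]
  group

end GRel

end Rel

end Pool.Agent.BH
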