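import Pool.Agent.BH.VOneRayRel
import Pool.Agent.BH.VDefs

set_option autoImplicit false

/-!
# The standard one-ray Higman-Thompson group
-/

namespace Pool.Agent.BH

open Equiv

section Std

/-- Permutations of the ray cones. -/
def hp : Perm ℕ →* Perm Dy where
  toFun p :=
    { toFun := fun x => match x with
        | [] => []
        | i :: z => p i :: z
      invFun := fun x => match x with
        | [] => []
        | i :: z => p.symm i :: z
      left_inv := by
        rintro (_ | ⟨i, z⟩) <;> simp
      right_inv := by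
        rintro (_ | ⟨i, z⟩) <;> simp }
  map_one' := by
    ext1 z
    rcases z with _ | ⟨i, z⟩ <;> rfl
  map_mul' p q := by
    ext1 z
    rcases z with _ | ⟨i, z⟩ <;> rfl

@[simp] lemma hp_nil (p : Perm ℕ) : hp p ([] : Dy) = [] := rfl
@[simp] lemma hp_cons (p : Perm ℕ) (i : ℕ) (z : Dy) : hp p (i :: z : Dy) = p i :: z := rfl

variable (d : ℕ)

/-- The splitting of the ray cone number `n`, on points. -/
def spl (n : ℕ) : Dy → Dy
  | [] => []
  | i :: z => if i < n then i :: z else if i = n then
      (match z with
        | [] => [n]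
        | j :: z' => if j < d then (n + 1 + j) :: z' else n :: (j - d) :: z')
      else (i + d) :: z

/-- The inverse of the splitting. -/
def spi (n : ℕ) : Dy → Dy
  | [] => []
  | i :: z => if i < n then i :: z else if i = n then
      (match z with
        | [] => [n]
        | j :: z' => n :: (j + d) :: z')
      else if i ≤ n + d then n :: (i - n - 1) :: z else (i - d) :: z

@[simp] lemma spl_nil (n : ℕ) : spl d n [] = [] := rfl
lemma spl_lt {n i : ℕ} (h : i < n) (z : Dy) : spl d n (i :: z) = i :: z := by
  simp [spl, h]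
lemma spl_gt {n i : ℕ} (h : n < i) (z : Dy) : spl d n (i :: z) = (i + d) :: z := by
  simp only [spl]
  rw [if_neg (by omega), if_neg (by omega)]
@[simp] lemma spl_self_nil (n : ℕ) : spl d n [n] = [n] := by simp [spl]
lemma spl_self_lt {n j : ℕ} (h : j < d) (z : Dy) :
    spl d n (n :: j :: z) = (n + 1 + j) :: z := by simp [spl, h]
lemma spl_self_ge {n : ℕ} (j : ℕ) (z : Dy) :
    spl d n (n :: (j + d) :: z) = n :: j :: z := by simp [spl]

lemma spi_spl (n : ℕ) (z : Dy) : spi d n (spl d n z) = z := by
  rcases z with _ | ⟨i, z⟩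
  · rfl
  · rcases lt_trichotomy i n with h | h | h
    · simp [spl, spi, h]
    · subst h
      rcases z with _ | ⟨j, z⟩
      · simp [spl, spi]
      · rcases Nat.lt_or_ge j d with h | h
        · rw [spl_self_lt d h]
          simp only [spi]
          rw [if_neg (by omega), if_neg (by omega), if_pos (by omega),
            show i + 1 + j - i - 1 = j by omega]
        · obtain ⟨k, rfl⟩ : ∃ k, j = k + d := ⟨j - d, by omega⟩
          rw [spl_self_ge]
          simp [spi]
    · rw [spl_gt d h]
      simp only [spi]
      rw [if_neg (by omega), if_neg (by omega), if_neg (by omega), Nat.add_sub_cancel]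

lemma spl_spi (n : ℕ) (z : Dy) : spl d n (spi d n z) = z := by
  rcases z with _ | ⟨i, z⟩
  · rfl
  · rcases lt_trichotomy i n with h | h | h
    · simp [spl, spi, h]
    · subst h
      rcases z with _ | ⟨j, z⟩ <;> simp [spl, spi]
    · by_cases h' : i ≤ n + d
      · simp only [spi]
        rw [if_neg (by omega), if_neg (by omega), if_pos h', spl_self_lt d (by omega),
          show n + 1 + (i - n - 1) = i by omega]
      · simp only [spi]
        rw [if_neg (by omega), if_neg (by omega), if_neg h', spl_gt d (by omega)]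
        rw [show i - d + d = i by omega]

/-- The splitting of the ray cone number `n`. -/
def tsp (n : ℕ) : Perm Dy where
  toFun := spl d n
  invFun := spi d n
  left_inv z := spi_spl d n z
  right_inv z := spl_spi d n z

lemma tsp_apply (n : ℕ) (z : Dy) : tsp d n z = spl d n z := rfl

/-- Case analysis on the points. -/
lemma pt_cases (n : ℕ) (z : Dy) : z = [] ∨ (∃ i z', i < n ∧ z = i :: z') ∨
    (∃ i z', n < i ∧ z = i :: z') ∨ z = [n] ∨ (∃ j z', j < d ∧ z = n :: j :: z') ∨
    ∃ j z', z = n :: (j + d) :: z' := by
  rcases z with _ | ⟨i, z⟩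
  · exact Or.inl rfl
  · rcases lt_trichotomy i n with h | h | h
    · exact Or.inr (Or.inl ⟨i, z, h, rfl⟩)
    · subst h
      rcases z with _ | ⟨j, z⟩
      · exact Or.inr (Or.inr (Or.inr (Or.inl rfl)))
      · rcases Nat.lt_or_ge j d with h | h
        · exact Or.inr (Or.inr (Or.inr (Or.inr (Or.inl ⟨j, z, h, rfl⟩))))
        · exact Or.inr (Or.inr (Or.inr (Or.inr (Or.inr ⟨j - d, z, by
            rw [Nat.sub_add_cancel h]⟩))))
    · exact Or.inr (Or.inr (Or.inl ⟨i, z, h, rfl⟩))

/-- A permutation of the ray cones which is carried by the splitting. -/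
lemma tsp_hp_gen (m n : ℕ) (p q : Perm ℕ) (hm : p m = n) (h0 : q m = n)
    (hc : ∀ c < d, q (m + 1 + c) = n + 1 + c)
    (hlt : ∀ i < m, spl d n [p i] = [q i]) (hgt : ∀ i, m < i → spl d n [p i] = [q (i + d)])
    (hne : ∀ i, i ≠ m → p i ≠ n) :
    tsp d n * hp p = hp q * tsp d m := by
  have key : ∀ i, i ≠ m → ∀ z, spl d n (p i :: z) =
      (if p i < n then p i else p i + d) :: z := by
    intro i hi z
    have := hne i hi
    rcases lt_or_gt_of_ne this with h | h
    · rw [spl_lt d h, if_pos h]
    · rw [spl_gt d h, if_neg (by omega)]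
  ext1 z
  rw [Perm.mul_apply, Perm.mul_apply, tsp_apply, tsp_apply]
  rcases pt_cases d m z with rfl | ⟨i, z, h, rfl⟩ | ⟨i, z, h, rfl⟩ | rfl | ⟨j, z, h, rfl⟩ |
    ⟨j, z, rfl⟩
  · simp
  · have h1 := hlt i h
    rw [key i (by omega)] at h1
    rw [hp_cons, spl_lt d h, hp_cons, key i (by omega)]
    simpa using h1
  · have h1 := hgt i h
    rw [key i (by omega)] at h1
    rw [hp_cons, spl_gt d h, hp_cons, key i (by omega)]
    simpa using h1
  · simp [hm, h0]
  · rw [hp_cons, hm, spl_self_lt d h, spl_self_lt d h, hp_cons, hc j h]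
  · rw [hp_cons, hm, spl_self_ge, spl_self_ge, hp_cons, h0]

lemma tsp_hp (m n : ℕ) (h : m < n) :
    tsp d m * hp (swap n (n + 1)) = hp (swap (n + d) (n + d + 1)) * tsp d m := by
  apply tsp_hp_gen
  · exact swap_apply_of_ne_of_ne (by omega) (by omega)
  · exact swap_apply_of_ne_of_ne (by omega) (by omega)
  · intro c hc
    exact swap_apply_of_ne_of_ne (by omega) (by omega)
  · intro i hi
    rw [swap_apply_of_ne_of_ne (by omega) (by omega), swap_apply_of_ne_of_ne (by omega) (by omega),
      spl_lt d hi]
  · intro i hi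
    have : m < swap n (n + 1) i := by
      simp only [swap_apply_def]
      split_ifs <;> omega
    rw [spl_gt d this]
    congr 1
    simp only [swap_apply_def]
    split_ifs <;> omega
  · intro i hi
    simp only [swap_apply_def]
    split_ifs <;> omega

lemma hp_tsp (i n : ℕ) (h : i + 1 < n) :
    tsp d n * hp (swap i (i + 1)) = hp (swap i (i + 1)) * tsp d n := by
  apply tsp_hp_gen
  · exact swap_apply_of_ne_of_ne (by omega) (by omega)
  · exact swap_apply_of_ne_of_ne (by omega) (by omega)
  · intro c hc
    exact swap_apply_of_ne_of_ne (by omega) (by omega)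
  · intro j hj
    have : swap i (i + 1) j < n := by
      simp only [swap_apply_def]
      split_ifs <;> omega
    rw [spl_lt d this]
  · intro j hj
    have : n < swap i (i + 1) j := by
      simp only [swap_apply_def]
      split_ifs <;> omega
    rw [spl_gt d this]
    congr 1
    simp only [swap_apply_def]
    split_ifs <;> omega
  · intro j hj
    simp only [swap_apply_def]
    split_ifs <;> omega

lemma tsp_tsp (m n : ℕ) (h : m < n) : tsp d m * tsp d n = tsp d (n + d) * tsp d m := by
  ext1 z
  rw [Perm.mul_apply, Perm.mul_apply, tsp_apply, tsp_apply, tsp_apply, tsp_apply]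
  rcases pt_cases d m z with rfl | ⟨i, z, h1, rfl⟩ | ⟨i, z, h1, rfl⟩ | rfl | ⟨j, z, h1, rfl⟩ |
    ⟨j, z, rfl⟩
  · simp
  · rw [spl_lt d (show i < n by omega), spl_lt d h1, spl_lt d (by omega)]
  · rw [spl_gt d h1]
    rcases lt_trichotomy i n with h2 | h2 | h2
    · rw [spl_lt d h2, spl_gt d h1, spl_lt d (by omega)]
    · subst h2
      rcases z with _ | ⟨j, z⟩
      · rw [spl_self_nil, spl_gt d h1, spl_self_nil]
      · rcases Nat.lt_or_ge j d with h3 | h3
        · rw [spl_self_lt d h3, spl_gt d (by omega), spl_self_lt d h3]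
          congr 1
          omega
        · obtain ⟨k, rfl⟩ : ∃ k, j = k + d := ⟨j - d, by omega⟩
          rw [spl_self_ge, spl_gt d h1, spl_self_ge]
    · rw [spl_gt d h2, spl_gt d (by omega), spl_gt d (by omega)]
  · rw [spl_lt d h, spl_self_nil, spl_lt d (by omega)]
  · rw [spl_lt d h, spl_self_lt d h1, spl_lt d (by omega)]
  · rw [spl_lt d h, spl_self_ge, spl_lt d (by omega)]

/-- The cycles. -/
lemma asc_swap (m k j : ℕ) : asc (fun i => swap i (i + 1)) m k j =
    if j < m then j else if j < m + k then j + 1 else if j = m + k then m else j := by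
  induction k generalizing j with
  | zero =>
    simp only [asc, Perm.one_apply]
    split_ifs <;> omega
  | succ k ih =>
    rw [asc, Perm.mul_apply, ih]
    simp only [swap_apply_def]
    split_ifs <;> omega

lemma tsp_succ (m : ℕ) : tsp d (m + 1) =
    asc (fun i => hp (swap i (i + 1))) m (d + 1) * tsp d m * hp (swap m (m + 1)) := by
  have e : tsp d (m + 1) * hp (swap m (m + 1)) =
      hp (asc (fun i => swap i (i + 1)) m (d + 1)) * tsp d m := by
    apply tsp_hp_gen
    · exact swap_apply_left _ _
    · rw [asc_swap, if_neg (by omega), if_pos (by omega)]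
    · intro c hc
      rw [asc_swap, if_neg (by omega), if_pos (by omega)]
      omega
    · intro i hi
      rw [swap_apply_of_ne_of_ne (by omega) (by omega), asc_swap, if_pos hi, spl_lt d (by omega)]
    · intro i hi
      rw [asc_swap, if_neg (by omega), if_neg (by omega)]
      rcases Nat.eq_or_lt_of_le (show m + 1 ≤ i by omega) with rfl | h
      · rw [swap_apply_right, if_pos (by omega), spl_lt d (by omega)]
      · rw [swap_apply_of_ne_of_ne (by omega) (by omega), if_neg (by omega), spl_gt d (by omega)]
    · intro i hi h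
      apply hi
      have := congrArg (swap m (m + 1)) h
      rwa [swap_apply_self, swap_apply_right] at this
  rw [← asc_map, ← e, mul_assoc, ← map_mul, swap_mul_self, map_one, mul_one]

/-- The standard transpositions. -/
def sA (i : ℕ) : Perm Dy := hp (swap i (i + 1))

lemma std_gT (m : ℕ) : gT d sA (tsp d 0) m = tsp d m := by
  induction m with
  | zero => rfl
  | succ m ih =>
    rw [gT, ih, tsp_succ]
    rfl

lemma std_gA [NeZero d] (m : ℕ) : gA d sA (tsp d 0) m = sA m := by
  induction m using Nat.strong_induction_on with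
  | _ m ih =>
    rcases Nat.lt_or_ge d m with h | h
    · obtain ⟨k, rfl⟩ : ∃ k, m = k + d := ⟨m - d, by omega⟩
      have hd := Nat.pos_of_neZero d
      rw [← gA_shift d hd _ _ k (by omega), ih k (by omega), sA, tsp_hp d 0 k (by omega),
        mul_inv_cancel_right, sA]
    · exact gA_small d _ _ m h

/-- The standard elements satisfy the relations. -/
theorem std_GRel (N : ℕ) : GRel d sA (tsp d) N where
  sq i _ := by rw [sA, ← map_mul, swap_mul_self, map_one]
  braid i _ := by
    rw [sA, sA, ← map_mul, ← map_mul, ← map_mul, ← map_mul]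
    congr 1
    ext j
    simp only [Perm.mul_apply, swap_apply_def]
    split_ifs <;> omega
  comm i _ j _ h := by
    rw [sA, sA, ← map_mul, ← map_mul]
    congr 1
    ext k
    simp only [Perm.mul_apply, swap_apply_def]
    split_ifs <;> omega
  TA i _ j _ h := tsp_hp d i j h
  TT i _ j _ h := tsp_tsp d i j h
  AT i _ j _ h := hp_tsp d i j h

end Std

end Pool.Agent.BH
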