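import Pool.Agent.BH.VDefs

set_option autoImplicit false
set_option linter.unusedSectionVars false

/-!
# Partitions into cones

Partitions of sets of points into cones, the number of cones modulo `d`, elements of the
Higman-Thompson groups (plain and labelled) defined by partitions, and transport of families of
cones.
-/

namespace Pool.Agent.BH

open Equiv

/-- The cones of the words `u i` form a partition of `U`. -/
structure IsP {d : ℕ} {I : Type*} (u : I → List (Ch d)) (U : Set Dy) : Prop where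
  inj : ∀ {i j : I} {z z' : Dy}, app (u i) z = app (u j) z' → i = j
  ran : ∀ z, z ∈ U ↔ ∃ i z', app (u i) z' = z

namespace IsP

variable {d : ℕ} {I J : Type*} {u : I → List (Ch d)} {v : J → List (Ch d)} {U V : Set Dy}

lemma mem (h : IsP u U) (i : I) (z : Dy) : app (u i) z ∈ U := (h.ran _).2 ⟨i, z, rfl⟩

lemma single (w : List (Ch d)) : IsP (fun _ : Fin 1 => w) (Set.range (app w)) where
  inj := fun {i j} {z z'} _ => Subsingleton.elim _ _
  ran z := by
    constructor
    · rintro ⟨z', h⟩; exact ⟨0, z', h⟩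
    · rintro ⟨-, z', h⟩; exact ⟨z', h⟩

lemma one : IsP (fun _ : Fin 1 => ([] : List (Ch d))) Set.univ where
  inj := fun {i j} {z z'} _ => Subsingleton.elim _ _
  ran z := by
    constructor
    · intro _; exact ⟨0, z, rfl⟩
    · intro _; trivial

lemma empty : IsP (fun i : Fin 0 => (i.elim0 : List (Ch d))) ∅ where
  inj := fun {i j} {z z'} _ => i.elim0
  ran z := by
    constructor
    · intro h; exact h.elim
    · rintro ⟨i, -⟩; exact i.elim0

lemma sum (hu : IsP u U) (hv : IsP v V) (hd : Disjoint U V) : IsP (Sum.elim u v) (U ∪ V) where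
  inj := by
    rintro (i | i) (j | j) z z' h
    · rw [hu.inj h]
    · exact (Set.disjoint_left.1 hd (hu.mem i z) (by rw [show app (u i) z = app (v j) z' from h]; exact hv.mem j z')).elim
    · exact (Set.disjoint_left.1 hd (hu.mem j z') (by rw [← show app (v i) z = app (u j) z' from h]; exact hv.mem i z)).elim
    · rw [hv.inj h]
  ran z := by
    rw [Set.mem_union, hu.ran, hv.ran]
    constructor
    · rintro (⟨i, z', h⟩ | ⟨i, z', h⟩)
      · exact ⟨Sum.inl i, z', h⟩
      · exact ⟨Sum.inr i, z', h⟩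
    · rintro ⟨i | i, z', h⟩
      · exact Or.inl ⟨i, z', h⟩
      · exact Or.inr ⟨i, z', h⟩

lemma comp (hu : IsP u U) (e : J ≃ I) : IsP (fun j => u (e j)) U where
  inj := fun h => e.injective (hu.inj h)
  ran z := by
    rw [hu.ran]
    constructor
    · rintro ⟨i, z', h⟩
      exact ⟨e.symm i, z', by rw [e.apply_symm_apply]; exact h⟩
    · rintro ⟨j, z', h⟩
      exact ⟨e j, z', h⟩

/-- A subfamily. -/
lemma sub (hu : IsP u U) (p : I → Prop) :
    IsP (fun i : {i // p i} => u i.1) {z | ∃ i z', p i ∧ app (u i) z' = z} where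
  inj := fun h => Subtype.ext (hu.inj h)
  ran z := by
    constructor
    · rintro ⟨i, z', hi, h⟩
      exact ⟨⟨i, hi⟩, z', h⟩
    · rintro ⟨i, z', h⟩
      exact ⟨i.1, z', i.2, h⟩

/-- Prepend a word. -/
lemma cons (hu : IsP u Set.univ) (w : List (Ch d)) :
    IsP (fun i => w ++ u i) (Set.range (app w)) where
  inj := fun {i j} {z z'} h => by
    simp only [app_append] at h
    exact hu.inj (app_inj h)
  ran z := by
    constructor
    · rintro ⟨z', rfl⟩
      obtain ⟨i, z'', h⟩ := (hu.ran z').1 trivial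
      exact ⟨i, z'', by rw [app_append, h]⟩
    · rintro ⟨i, z', rfl⟩
      exact ⟨app (u i) z', by rw [app_append]⟩

/-- The children. -/
lemma children [NeZero d] : IsP (fun c : Ch d => [c]) Set.univ where
  inj := fun {i j} {z z'} h => (bz_inj h).1
  ran z := by
    constructor
    · intro _
      obtain ⟨b, z', h⟩ := bz_surj (d := d) z
      exact ⟨b, z', h.symm⟩
    · intro _; trivial

/-- All the words of a given length. -/
lemma depth [NeZero d] (k : ℕ) : IsP (fun w : {w : List (Ch d) // w.length = k} => w.1) Set.univ where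
  inj := by
    rintro ⟨u, hu⟩ ⟨v, hv⟩ z z' h
    exact Subtype.ext (app_eq_length h (hu.trans hv.symm)).1
  ran z := by
    constructor
    · intro _
      obtain ⟨u, z', hu, rfl⟩ := exists_app (d := d) k z
      exact ⟨⟨u, hu⟩, z', rfl⟩
    · intro _; trivial

/-- Refine every cone. -/
lemma sigma {K : I → Type*} {w : ∀ i, K i → List (Ch d)} (hu : IsP u U)
    (hw : ∀ i, IsP (w i) Set.univ) : IsP (fun p : Sigma K => u p.1 ++ w p.1 p.2) U where
  inj := by
    rintro ⟨i, k⟩ ⟨j, l⟩ z z' h
    simp only [app_append] at h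
    obtain rfl := hu.inj h
    have := (hw i).inj (app_inj h)
    rw [this]
  ran z := by
    rw [hu.ran]
    constructor
    · rintro ⟨i, z', rfl⟩
      obtain ⟨k, z'', rfl⟩ := ((hw i).ran z').1 trivial
      exact ⟨⟨i, k⟩, z'', by rw [app_append]⟩
    · rintro ⟨⟨i, k⟩, z', rfl⟩
      exact ⟨i, app (w i k) z', by rw [app_append]⟩

/-- Refine one cone. -/
lemma refine_one {K : Type*} {w : K → List (Ch d)} (hu : IsP u U) (i0 : I)
    (hw : IsP w Set.univ) :
    IsP (Sum.elim (fun i : {i // i ≠ i0} => u i.1) (fun k => u i0 ++ w k)) U where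
  inj := by
    rintro (i | k) (j | l) z z' h
    · exact congrArg Sum.inl (Subtype.ext (hu.inj h))
    · simp only [Sum.elim_inl, Sum.elim_inr, app_append] at h
      exact (i.2 (hu.inj h)).elim
    · simp only [Sum.elim_inl, Sum.elim_inr, app_append] at h
      exact (j.2 (hu.inj h).symm).elim
    · simp only [Sum.elim_inr, app_append] at h
      rw [hw.inj (app_inj h)]
  ran z := by
    rw [hu.ran]
    constructor
    · rintro ⟨i, z', rfl⟩
      by_cases hi : i = i0
      · subst hi
        obtain ⟨k, z'', rfl⟩ := (hw.ran z').1 trivial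
        exact ⟨Sum.inr k, z'', by rw [Sum.elim_inr, app_append]⟩
      · exact ⟨Sum.inl ⟨i, hi⟩, z', rfl⟩
    · rintro ⟨i | k, z', rfl⟩
      · exact ⟨i.1, z', rfl⟩
      · exact ⟨i0, app (w k) z', by rw [Sum.elim_inr, app_append]⟩

/-- Split one cone. -/
lemma split [NeZero d] (hu : IsP u U) (i0 : I) :
    IsP (Sum.elim (fun i : {i // i ≠ i0} => u i.1) (fun c : Ch d => u i0 ++ [c])) U :=
  hu.refine_one i0 children

end IsP

/-- A finite union of cones. -/
def Clo (d : ℕ) (U : Set Dy) : Prop :=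
  ∃ k, ∀ u : List (Ch d), u.length = k → (∀ z, app u z ∈ U) ∨ (∀ z, app u z ∉ U)

section Clopen

variable {d : ℕ} {U V : Set Dy}

lemma Clo.ge {k : ℕ} (h : ∀ u : List (Ch d), u.length = k →
    (∀ z, app u z ∈ U) ∨ (∀ z, app u z ∉ U)) (u : List (Ch d)) (hu : k ≤ u.length) :
    (∀ z, app u z ∈ U) ∨ (∀ z, app u z ∉ U) := by
  rcases h (u.take k) (by simpa using hu) with h1 | h1
  · left
    intro z
    have := h1 (app (u.drop k) z)
    rwa [← app_append, List.take_append_drop] at this
  · right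
    intro z
    have := h1 (app (u.drop k) z)
    rwa [← app_append, List.take_append_drop] at this

lemma Clo.compl (h : Clo d U) : Clo d Uᶜ := by
  obtain ⟨k, hk⟩ := h
  refine ⟨k, fun u hu => ?_⟩
  rcases hk u hu with h | h
  · exact Or.inr (fun z hz => hz (h z))
  · exact Or.inl (fun z hz => h z hz)

lemma Clo.inter (hU : Clo d U) (hV : Clo d V) : Clo d (U ∩ V) := by
  obtain ⟨k, hk⟩ := hU
  obtain ⟨l, hl⟩ := hV
  refine ⟨k + l, fun u hu => ?_⟩
  rcases Clo.ge hk u (by omega) with h | h
  · rcases Clo.ge hl u (by omega) with h' | h'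
    · exact Or.inl (fun z => ⟨h z, h' z⟩)
    · exact Or.inr (fun z hz => h' z hz.2)
  · exact Or.inr (fun z hz => h z hz.1)

lemma Clo.union (hU : Clo d U) (hV : Clo d V) : Clo d (U ∪ V) := by
  have := (hU.compl.inter hV.compl).compl
  rwa [Set.compl_inter, compl_compl, compl_compl] at this

lemma Clo.diff (hU : Clo d U) (hV : Clo d V) : Clo d (U \ V) := hU.inter hV.compl

lemma Clo.univ : Clo d Set.univ := ⟨0, fun _ _ => Or.inl fun _ => trivial⟩

lemma Clo.cone (w : List (Ch d)) : Clo d (Set.range (app w)) := by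
  refine ⟨w.length, fun u hu => ?_⟩
  by_cases h : u = w
  · subst h
    exact Or.inl (fun z => ⟨z, rfl⟩)
  · right
    rintro z ⟨z', hz⟩
    exact h (app_eq_length hz hu.symm).1.symm

lemma Clo.preimage (h : Clo d U) (w : List (Ch d)) : Clo d (app w ⁻¹' U) := by
  obtain ⟨k, hk⟩ := h
  refine ⟨k, fun u hu => ?_⟩
  rcases Clo.ge hk (w ++ u) (by simp; omega) with h | h
  · left
    intro z
    have := h z
    rwa [app_append] at this
  · right
    intro z
    have := h z
    rwa [app_append] at this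

/-- The words of length `k` whose cone is in `U` form a partition of `U`. -/
lemma Clo.isP_depth [NeZero d] {k : ℕ} (hk : ∀ u : List (Ch d), u.length = k →
    (∀ z, app u z ∈ U) ∨ (∀ z, app u z ∉ U)) :
    IsP (fun w : {w : List (Ch d) // w.length = k ∧ ∀ z, app w z ∈ U} => w.1) U where
  inj := by
    rintro ⟨u, hu⟩ ⟨v, hv⟩ z z' h
    exact Subtype.ext (app_eq_length h (hu.1.trans hv.1.symm)).1
  ran z := by
    constructor
    · intro hz
      obtain ⟨u, z', hu, rfl⟩ := exists_app (d := d) k z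
      refine ⟨⟨u, hu, ?_⟩, z', rfl⟩
      rcases hk u hu with h | h
      · exact h
      · exact (h z' hz).elim
    · rintro ⟨⟨u, hu⟩, z', rfl⟩
      exact hu.2 z'

lemma finite_words (k : ℕ) (p : List (Ch d) → Prop) :
    Finite {w : List (Ch d) // w.length = k ∧ p w} := by
  apply Set.Finite.to_subtype
  exact (List.finite_length_eq (Ch d) k).subset (fun u hu => hu.1)

instance finite_words' (k : ℕ) : Finite {w : List (Ch d) // w.length = k} :=
  Set.Finite.to_subtype (List.finite_length_eq (Ch d) k)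

/-- A clopen set has a partition. -/
lemma Clo.exists_isP [NeZero d] (h : Clo d U) : ∃ n, ∃ u : Fin n → List (Ch d), IsP u U := by
  obtain ⟨k, hk⟩ := h
  have := finite_words (d := d) k (fun u => ∀ z, app u z ∈ U)
  obtain ⟨n, ⟨e⟩⟩ := Finite.exists_equiv_fin {w : List (Ch d) // w.length = k ∧ ∀ z, app w z ∈ U}
  exact ⟨n, _, (Clo.isP_depth hk).comp e.symm⟩

lemma exists_bound {I : Type*} [Finite I] (u : I → List (Ch d)) : ∃ k, ∀ i, (u i).length ≤ k := by
  obtain ⟨k, hk⟩ := (Set.finite_range (fun i => (u i).length)).bddAbove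
  exact ⟨k, fun i => hk ⟨i, rfl⟩⟩

lemma IsP.clo_of_le {I : Type*} {u : I → List (Ch d)} (h : IsP u U) {k : ℕ}
    (hk : ∀ i, (u i).length ≤ k) (w : List (Ch d)) (hw : w.length = k) :
    (∀ z, app w z ∈ U) ∨ (∀ z, app w z ∉ U) := by
  by_cases hcon : ∃ z, app w z ∈ U
  · left
    obtain ⟨z, hz⟩ := hcon
    obtain ⟨i, z', h'⟩ := (h.ran _).1 hz
    obtain ⟨w', rfl, -⟩ := app_prefix h' (by rw [hw]; exact hk i)
    intro z''
    rw [app_append]
    exact h.mem i _
  · right
    push Not at hcon
    exact hcon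

lemma IsP.clo {I : Type*} [Finite I] {u : I → List (Ch d)} (h : IsP u U) : Clo d U := by
  obtain ⟨k, hk⟩ := exists_bound u
  exact ⟨k, h.clo_of_le hk⟩

/-! ### The number of cones modulo `d` -/

lemma card_words (k : ℕ) : Nat.card {w : List (Ch d) // w.length = k} = (d + 1) ^ k := by
  have e : {w : List (Ch d) // w.length = k} ≃ List.Vector (Ch d) k := Equiv.refl _
  rw [Nat.card_congr e, Nat.card_eq_fintype_card, card_vector]
  simp

/-- The number of words of length `k` whose cone is in `U`. -/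
lemma IsP.card_depth_eq {I : Type*} [Fintype I] {u : I → List (Ch d)} (h : IsP u U) {k : ℕ}
    (hk : ∀ i, (u i).length ≤ k) :
    Nat.card {w : List (Ch d) // w.length = k ∧ ∀ z, app w z ∈ U} =
      ∑ i, (d + 1) ^ (k - (u i).length) := by
  classical
  have e : {w : List (Ch d) // w.length = k ∧ ∀ z, app w z ∈ U} ≃
      Σ i, {w : List (Ch d) // w.length = k - (u i).length} := by
    symm
    refine Equiv.ofBijective (fun p => ⟨u p.1 ++ p.2.1, ?_, ?_⟩) ⟨?_, ?_⟩
    · have := hk p.1
      rw [List.length_append, p.2.2]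
      omega
    · intro z
      rw [app_append]
      exact h.mem _ _
    · rintro ⟨i, w, hw⟩ ⟨j, w', hw'⟩ hij
      have h1 : u i ++ w = u j ++ w' := congrArg Subtype.val hij
      have h2 : app (u i) (app w []) = app (u j) (app w' []) := by
        rw [← app_append, ← app_append, h1]
      obtain rfl := h.inj h2
      obtain rfl := List.append_cancel_left h1
      rfl
    · rintro ⟨w, hw, hwU⟩
      obtain ⟨i, z', h'⟩ := (h.ran _).1 (hwU [])
      obtain ⟨w', rfl, -⟩ := app_prefix h' (by rw [hw]; exact hk i)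
      refine ⟨⟨i, w', ?_⟩, rfl⟩
      rw [List.length_append] at hw
      omega
  rw [Nat.card_congr e, Nat.card_sigma]
  simp only [card_words]

lemma IsP.card_depth [NeZero d] {I : Type*} [Finite I] {u : I → List (Ch d)} (h : IsP u U) {k : ℕ}
    (hk : ∀ i, (u i).length ≤ k) :
    Nat.card {w : List (Ch d) // w.length = k ∧ ∀ z, app w z ∈ U} ≡ Nat.card I [MOD d] := by
  classical
  have := Fintype.ofFinite I
  rw [h.card_depth_eq hk, Nat.card_eq_fintype_card, Fintype.card_eq_sum_ones]
  refine Nat.ModEq.sum (fun i _ => ?_)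
  have : (d + 1) ^ (k - (u i).length) ≡ 1 ^ (k - (u i).length) [MOD d] := by
    apply Nat.ModEq.pow
    exact Nat.add_modEq_left
  rwa [one_pow] at this

/-- The number of cones in a partition is determined modulo `d`. -/
theorem IsP.card_modEq [NeZero d] {I J : Type*} [Finite I] [Finite J] {u : I → List (Ch d)}
    {v : J → List (Ch d)} (hu : IsP u U) (hv : IsP v U) : Nat.card I ≡ Nat.card J [MOD d] := by
  obtain ⟨k, hk⟩ := exists_bound u
  obtain ⟨l, hl⟩ := exists_bound v
  have h1 := hu.card_depth (k := k + l) (fun i => by have := hk i; omega)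
  have h2 := hv.card_depth (k := k + l) (fun i => by have := hl i; omega)
  exact h1.symm.trans h2

/-! ### Growing partitions -/

/-- Splitting one cone adds `d` cones. -/
lemma IsP.grow [NeZero d] {n : ℕ} {u : Fin (n + 1) → List (Ch d)} (h : IsP u U) :
    ∃ u' : Fin (n + 1 + d) → List (Ch d), IsP u' U := by
  have e : {i : Fin (n + 1) // i ≠ 0} ⊕ Ch d ≃ Fin (n + 1 + d) := by
    apply Fintype.equivFinOfCardEq
    simp
    omega
  exact ⟨_, (h.split 0).comp e.symm⟩

lemma IsP.grow_mul [NeZero d] {n : ℕ} {u : Fin (n + 1) → List (Ch d)} (h : IsP u U) (k : ℕ) :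
    ∃ u' : Fin (n + 1 + d * k) → List (Ch d), IsP u' U := by
  induction k with
  | zero => exact ⟨u, h⟩
  | succ k ih =>
    obtain ⟨u', h'⟩ := ih
    have e : n + 1 + d * k = n + d * k + 1 := by omega
    have h2 : ∃ u'' : Fin (n + d * k + 1) → List (Ch d), IsP u'' U :=
      ⟨_, h'.comp (finCongr e.symm)⟩
    obtain ⟨u'', h''⟩ := h2
    obtain ⟨w, hw⟩ := h''.grow
    exact ⟨_, hw.comp (finCongr (show n + 1 + d * (k + 1) = n + d * k + 1 + d by
      rw [Nat.mul_succ]; omega))⟩

/-- A nonempty clopen set has a partition into `m` cones for every large `m` of its class. -/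
lemma IsP.exists_ge [NeZero d] {I : Type*} [Finite I] {u : I → List (Ch d)} (h : IsP u U)
    (hne : U.Nonempty) :
    ∃ n, ∀ m, n ≤ m → m ≡ Nat.card I [MOD d] → ∃ u : Fin m → List (Ch d), IsP u U := by
  obtain ⟨z, hz⟩ := hne
  obtain ⟨i, -⟩ := (h.ran z).1 hz
  obtain ⟨n, ⟨e⟩⟩ := Finite.exists_equiv_fin I
  obtain ⟨k, rfl⟩ : ∃ k, n = k + 1 := ⟨n - 1, by have := (e i).2; omega⟩
  have hcard : Nat.card I = k + 1 := by rw [Nat.card_congr e]; simp
  rw [hcard]
  refine ⟨k + 1, fun m hm hmod => ?_⟩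
  obtain ⟨c, hc⟩ := (Nat.modEq_iff_dvd' hm).1 hmod.symm
  obtain rfl : m = k + 1 + d * c := by omega
  exact (h.comp e.symm).grow_mul c

/-- Two partitions of nonempty sets whose numbers of cones are congruent modulo `d` can be
replaced by partitions with the same number of cones, as large as we want. -/
lemma IsP.exists_same [NeZero d] {I J : Type*} [Finite I] [Finite J] {u : I → List (Ch d)}
    {v : J → List (Ch d)} (hu : IsP u U) (hv : IsP v V) (hU : U.Nonempty) (hV : V.Nonempty)
    (hIJ : Nat.card I ≡ Nat.card J [MOD d]) (m : ℕ) : ∃ n, m ≤ n ∧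
      (∃ u : Fin n → List (Ch d), IsP u U) ∧ (∃ v : Fin n → List (Ch d), IsP v V) := by
  obtain ⟨a, ha⟩ := hu.exists_ge hU
  obtain ⟨b, hb⟩ := hv.exists_ge hV
  have hmod : Nat.card I + d * (a + b + m) ≡ Nat.card I [MOD d] := by
    simp [Nat.ModEq]
  have hd : 1 ≤ d := Nat.pos_of_neZero d
  have hle : a + b + m ≤ d * (a + b + m) := Nat.le_mul_of_pos_left _ hd
  refine ⟨Nat.card I + d * (a + b + m), by omega, ha _ (by omega) hmod, hb _ (by omega)
    (hmod.trans hIJ)⟩

/-- A cone has a partition into `1 + d * k` cones. -/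
lemma exists_isP_cone [NeZero d] (w : List (Ch d)) (k : ℕ) :
    ∃ u : Fin (1 + d * k) → List (Ch d), IsP u (Set.range (app w)) := by
  have h1 : IsP (fun _ : Fin (0 + 1) => w) (Set.range (app w)) := IsP.single w
  obtain ⟨u, hu⟩ := h1.grow_mul k
  exact ⟨_, hu.comp (finCongr (show 1 + d * k = 0 + 1 + d * k by omega))⟩

/-- The whole space has a partition into `1 + d * k` cones. -/
lemma exists_isP_univ [NeZero d] (k : ℕ) :
    ∃ u : Fin (1 + d * k) → List (Ch d), IsP u Set.univ := by
  have h1 : IsP (fun _ : Fin (0 + 1) => ([] : List (Ch d))) Set.univ := IsP.one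
  obtain ⟨u, hu⟩ := h1.grow_mul k
  exact ⟨_, hu.comp (finCongr (show 1 + d * k = 0 + 1 + d * k by omega))⟩

/-- The number of cones in a partition of the whole space. -/
lemma IsP.card_univ [NeZero d] {I : Type*} [Finite I] {u : I → List (Ch d)}
    (h : IsP u Set.univ) : Nat.card I ≡ 1 [MOD d] := by
  have := h.card_modEq IsP.one
  simpa using this

/-- The number of cones in a partition of the complement. -/
lemma IsP.card_compl [NeZero d] {I J : Type*} [Finite I] [Finite J] {u : I → List (Ch d)}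
    {v : J → List (Ch d)} (hu : IsP u U) (hv : IsP v Uᶜ) :
    Nat.card I + Nat.card J ≡ 1 [MOD d] := by
  have h1 := hu.sum hv disjoint_compl_right
  rw [Set.union_compl_self] at h1
  have := h1.card_univ
  rwa [Nat.card_sum] at this

end Clopen

/-! ### Elements -/

section Elements

variable {d : ℕ} [NeZero d] {U V : Set Dy}

/-- The bijection between the points and the points of the pieces. -/
noncomputable def IsP.equiv {I : Type*} {u : I → List (Ch d)} (hu : IsP u Set.univ) :
    I × Dy ≃ Dy := Equiv.ofBijective (fun p => app (u p.1) p.2) (by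
  constructor
  · rintro ⟨i, z⟩ ⟨j, z'⟩ h
    obtain rfl := hu.inj h
    exact congrArg (Prod.mk i) (app_inj h)
  · intro z
    obtain ⟨i, z', h⟩ := (hu.ran z).1 trivial
    exact ⟨(i, z'), h⟩)

lemma IsP.equiv_apply {I : Type*} {u : I → List (Ch d)} (hu : IsP u Set.univ) (i : I) (z : Dy) :
    hu.equiv (i, z) = app (u i) z := rfl

lemma IsP.equiv_symm {I : Type*} {u : I → List (Ch d)} (hu : IsP u Set.univ) (i : I) (z : Dy) :
    hu.equiv.symm (app (u i) z) = (i, z) := by
  rw [Equiv.symm_apply_eq]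
  rfl

/-- The element defined by two partitions. -/
theorem exists_element {I : Type*} [Finite I] {u v : I → List (Ch d)} (hu : IsP u Set.univ)
    (hv : IsP v Set.univ) : ∃ g : VN d, ∀ i, NCone g.1 (u i) (v i) := by
  have hg : ∀ i, NCone (hu.equiv.symm.trans hv.equiv : Perm Dy) (u i) (v i) := by
    intro i z
    rw [Equiv.trans_apply, hu.equiv_symm, hv.equiv_apply]
  refine ⟨⟨hu.equiv.symm.trans hv.equiv, ?_⟩, hg⟩
  obtain ⟨k, hk⟩ := exists_bound u
  refine ⟨k, fun w hw => ?_⟩
  obtain ⟨i, z', h'⟩ := (hu.ran (app w [])).1 trivial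
  obtain ⟨w', rfl, -⟩ := app_prefix h' (by rw [hw]; exact hk i)
  exact ⟨_, (hg i).append w'⟩

/-- Equality can be checked on a partition. -/
lemma eq_of_isP {I : Type*} {u : I → List (Ch d)} (hu : IsP u Set.univ) {g h : Perm Dy}
    (hgh : ∀ i, ∃ v, NCone g (u i) v ∧ NCone h (u i) v) : g = h := by
  ext1 z
  obtain ⟨i, z', rfl⟩ := (hu.ran z).1 trivial
  obtain ⟨v, h1, h2⟩ := hgh i
  rw [h1, h2]

/-- Elements supported on a clopen set. -/
theorem exists_supported {I : Type*} [Finite I] {u v : I → List (Ch d)} (hu : IsP u U)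
    (hv : IsP v U) : ∃ g : VN d, (∀ i, NCone g.1 (u i) (v i)) ∧ ∀ z ∉ U, g.1 z = z := by
  obtain ⟨n, w, hw⟩ := hu.clo.compl.exists_isP
  have h1 := hu.sum hw disjoint_compl_right
  have h2 := hv.sum hw disjoint_compl_right
  rw [Set.union_compl_self] at h1 h2
  obtain ⟨g, hg⟩ := exists_element h1 h2
  refine ⟨g, fun i => hg (Sum.inl i), fun z hz => ?_⟩
  obtain ⟨i, z', rfl⟩ := (hw.ran z).1 hz
  exact hg (Sum.inr i) z'

/-- Transport of families of cones with nonempty complements. -/
theorem exists_transport {I : Type*} [Finite I] {u v : I → List (Ch d)}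
    (hu : IsP u U) (hv : IsP v V) (hU : Uᶜ.Nonempty) (hV : Vᶜ.Nonempty) :
    ∃ g : VN d, ∀ i, NCone g.1 (u i) (v i) := by
  obtain ⟨n, w, hw⟩ := hu.clo.compl.exists_isP
  obtain ⟨m, w', hw'⟩ := hv.clo.compl.exists_isP
  have hmod : Nat.card (Fin n) ≡ Nat.card (Fin m) [MOD d] := by
    have := (hu.card_compl hw).trans (hv.card_compl hw').symm
    exact Nat.ModEq.add_left_cancel' _ this
  obtain ⟨N, -, ⟨x, hx⟩, ⟨y, hy⟩⟩ := hw.exists_same hw' hU hV hmod 0
  have h1 := hu.sum hx disjoint_compl_right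
  have h2 := hv.sum hy disjoint_compl_right
  rw [Set.union_compl_self] at h1 h2
  obtain ⟨g, hg⟩ := exists_element h1 h2
  exact ⟨g, fun i => hg (Sum.inl i)⟩

/-- Transport inside a clopen set. -/
theorem exists_transport_in {I : Type*} [Finite I] {u v : I → List (Ch d)} {C : Set Dy}
    (hC : Clo d C) (hu : IsP u U) (hv : IsP v V) (hUC : U ⊆ C) (hVC : V ⊆ C)
    (hU : (C \ U).Nonempty) (hV : (C \ V).Nonempty) :
    ∃ g : VN d, (∀ i, NCone g.1 (u i) (v i)) ∧ ∀ z ∉ C, g.1 z = z := by
  obtain ⟨n, w, hw⟩ := (hC.diff hu.clo).exists_isP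
  obtain ⟨m, w', hw'⟩ := (hC.diff hv.clo).exists_isP
  have hmod : Nat.card (Fin n) ≡ Nat.card (Fin m) [MOD d] := by
    have h1 := hu.sum hw Set.disjoint_sdiff_right
    have h2 := hv.sum hw' Set.disjoint_sdiff_right
    rw [Set.union_sdiff_cancel hUC] at h1
    rw [Set.union_sdiff_cancel hVC] at h2
    have := h1.card_modEq h2
    rw [Nat.card_sum, Nat.card_sum] at this
    exact Nat.ModEq.add_left_cancel' _ this
  obtain ⟨N, -, ⟨x, hx⟩, ⟨y, hy⟩⟩ := hw.exists_same hw' hU hV hmod 0
  have h1 := hu.sum hx Set.disjoint_sdiff_right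
  have h2 := hv.sum hy Set.disjoint_sdiff_right
  rw [Set.union_sdiff_cancel hUC] at h1
  rw [Set.union_sdiff_cancel hVC] at h2
  obtain ⟨g, hg, hg'⟩ := exists_supported h1 h2
  exact ⟨g, fun i => hg (Sum.inl i), hg'⟩

end Elements

/-! ### Labels -/

section Labels

variable {d : ℕ} [NeZero d] {P : Type*} [Group P] (ε : Fin d → P →* P)

/-- The element with labels `a i` on the cones of a partition, acting trivially on points. -/
theorem exists_labels {I : Type*} [Finite I] {u : I → List (Ch d)} (hu : IsP u Set.univ)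
    (a : I → P) : ∃ g : VL ε, ∀ i, LCone ε g.1 (u i) (u i) (a i) := by
  let m : Perm ((I × Dy) × P) :=
    { toFun := fun x => (x.1, tw ε x.1.2 (a x.1.1) * x.2)
      invFun := fun x => (x.1, (tw ε x.1.2 (a x.1.1))⁻¹ * x.2)
      left_inv := by rintro ⟨x, s⟩; simp
      right_inv := by rintro ⟨x, s⟩; simp }
  let g : Perm (Dy × P) := (hu.equiv.symm.prodCongr (Equiv.refl P)).trans
    (m.trans (hu.equiv.prodCongr (Equiv.refl P)))
  have hg : ∀ i, LCone ε g (u i) (u i) (a i) := by
    intro i z s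
    change (hu.equiv.prodCongr (Equiv.refl P)) (m (hu.equiv.symm (app (u i) z), s)) = _
    rw [hu.equiv_symm]
    rfl
  refine ⟨⟨g, ?_⟩, hg⟩
  obtain ⟨k, hk⟩ := exists_bound u
  refine ⟨k, fun w hw => ?_⟩
  obtain ⟨i, z', h'⟩ := (hu.ran (app w [])).1 trivial
  obtain ⟨w', rfl, -⟩ := app_prefix h' (by rw [hw]; exact hk i)
  exact ⟨_, _, (hg i).append w'⟩

variable {ε}

/-- The unlabelled element has trivial labels. -/
lemma NCone.toVL {g : VN d} {u v : List (Ch d)} (h : NCone g.1 u v) :
    LCone ε (VN.toVL g : VL ε).1 u v 1 := fun z s => by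
  change (g.1 (app u z), s) = _
  rw [h z]
  simp

variable (ε) in
/-- The element defined by two partitions and labels. -/
theorem exists_element_label {I : Type*} [Finite I] {u v : I → List (Ch d)}
    (hu : IsP u Set.univ) (hv : IsP v Set.univ) (a : I → P) :
    ∃ g : VL ε, ∀ i, LCone ε g.1 (u i) (v i) (a i) := by
  obtain ⟨g, hg⟩ := exists_element hu hv
  obtain ⟨h, hh⟩ := exists_labels ε hu a
  refine ⟨VN.toVL g * h, fun i => ?_⟩
  have := (NCone.toVL (ε := ε) (hg i)).mul (hh i)
  rwa [one_mul] at this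

/-- Equality can be checked on a partition. -/
lemma eq_of_isP_label {I : Type*} {u : I → List (Ch d)} (hu : IsP u Set.univ)
    {g h : Perm (Dy × P)} (hgh : ∀ i, ∃ v a, LCone ε g (u i) v a ∧ LCone ε h (u i) v a) :
    g = h := by
  ext1 ⟨z, s⟩
  obtain ⟨i, z', rfl⟩ := (hu.ran z).1 trivial
  obtain ⟨v, a, h1, h2⟩ := hgh i
  rw [h1, h2]

variable (ε) in
/-- Labelled elements supported on a clopen set. -/
theorem exists_supported_label {I : Type*} [Finite I] {u v : I → List (Ch d)} {U : Set Dy}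
    (hu : IsP u U) (hv : IsP v U) (a : I → P) :
    ∃ g : VL ε, (∀ i, LCone ε g.1 (u i) (v i) (a i)) ∧ ∀ z ∉ U, ∀ s, g.1 (z, s) = (z, s) := by
  obtain ⟨n, w, hw⟩ := hu.clo.compl.exists_isP
  have h1 := hu.sum hw disjoint_compl_right
  have h2 := hv.sum hw disjoint_compl_right
  rw [Set.union_compl_self] at h1 h2
  obtain ⟨g, hg⟩ := exists_element_label ε h1 h2 (Sum.elim a (fun _ => 1))
  refine ⟨g, fun i => hg (Sum.inl i), fun z hz s => ?_⟩
  obtain ⟨i, z', rfl⟩ := (hw.ran z).1 hz
  have := hg (Sum.inr i) z' s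
  simpa using this

variable (ε) in
/-- Transport of families of cones with nonempty complements, with labels. -/
theorem exists_transport_label {I : Type*} [Finite I] {u v : I → List (Ch d)} {U V : Set Dy}
    (hu : IsP u U) (hv : IsP v V) (hU : Uᶜ.Nonempty) (hV : Vᶜ.Nonempty) (a : I → P) :
    ∃ g : VL ε, ∀ i, LCone ε g.1 (u i) (v i) (a i) := by
  obtain ⟨g, hg⟩ := exists_transport hu hv hU hV
  obtain ⟨h, hh, -⟩ := exists_supported_label ε hu hu a
  refine ⟨VN.toVL g * h, fun i => ?_⟩
  have := (NCone.toVL (ε := ε) (hg i)).mul (hh i)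
  rwa [one_mul] at this

end Labels

end Pool.Agent.BH
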